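import Pool.Agent.Work.MP_25cd3b_gt.NG.Defs
import Pool.Agent.Work.MP_13b5d9_gt.ST.Defs
import Pool.Agent.Work.MP_13b5d9_gt.DR.Defs

set_option autoImplicit false

/-!
# MP_13b5d9_gt, block LQ (local rigidity of products), reduction to the normal form: definitions

Every metric without conjugate points which is close to a product metric has a canonical field
(block ST); in coordinates adapted to this field it is of the form `dt^2 + h_t`.  `R^(m+1) = R^m x R`.
-/

open MeasureTheory Set Filter Topology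
open scoped ContDiff ENNReal
open Pool.Agent.Work.MP_c9f990_an.Al (IsFlow)

namespace Pool.Agent.LQR

open Pool.Agent.MLS Pool.Agent.EC Pool.Agent.STR Pool.Agent.DR

/-- projection of `R^(m+1) = R^m x R` to `R^m` -/
noncomputable def pr {m : ℕ} : E (m + 1) →L[ℝ] E m :=
  ∑ i : Fin m, (EuclideanSpace.proj (𝕜 := ℝ) (Fin.castSucc i)).smulRight (ee i)

/-- last coordinate -/
noncomputable def ht {m : ℕ} : E (m + 1) →L[ℝ] ℝ := EuclideanSpace.proj (𝕜 := ℝ) (Fin.last m)

/-- inclusion of `R^m` -/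
noncomputable def inc {m : ℕ} : E m →L[ℝ] E (m + 1) :=
  ∑ i : Fin m, (EuclideanSpace.proj (𝕜 := ℝ) i).smulRight (ee (Fin.castSucc i))

/-- the point `(x, t)` -/
noncomputable def jn {m : ℕ} (x : E m) (t : ℝ) : E (m + 1) := inc x + t • eL

/-- the group `G` is `Γ x Z`, acting on `R^m x R` by `a (x, t) = (p a x, t + k a)`, `k a` an integer -/
structure Pd (m : ℕ) (Γ G : Type) [Group Γ] [MulAction Γ (E m)] [Group G]
    [MulAction G (E (m + 1))] (p : G →* Γ) (k : G → ℤ) : Prop where
  coc : Cocompact m Γ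
  cocG : Cocompact (m + 1) G
  act : ∀ (a : G) (y : E (m + 1)), a • y = jn (p a • pr y) (ht y + k a)
  bij : ∀ (γ : Γ) (j : ℤ), ∃! a : G, p a = γ ∧ k a = j

/-- the universal covering splits: it is isometric to the product of `(R^m, k)` and the line, and all
elements of the group are products of maps of `R^m` and translations -/
structure Spl (m : ℕ) (G : Type) [Group G] [MulAction G (E (m + 1))] (g : Form (m + 1))
    (k : Form m) (Φ : E (m + 1) ≃ E m × ℝ) : Prop where
  riem : Riem k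
  smooth : ContDiff ℝ ∞ Φ
  smooth_symm : ContDiff ℝ ∞ Φ.symm
  metric : ∀ x u v, g.val x u v = k.val (Φ x).1 (fderiv ℝ Φ x u).1 (fderiv ℝ Φ x v).1 +
    (fderiv ℝ Φ x u).2 * (fderiv ℝ Φ x v).2
  deck : ∀ a : G, ∃ (f : E m → E m) (h : ℝ), ∀ x, Φ (a • x) = (f (Φ x).1, (Φ x).2 + h)

/-- a jointly smooth family of metrics -/
structure Fam (n : ℕ) (F : ℝ → Form n) : Prop where
  smooth : ContDiff ℝ ∞ (fun q : ℝ × E n => (F q.1).val q.2)
  riem : ∀ s, Riem (F s)

/-- adapted coordinates of the canonical field: `(x, t)` goes to the point on the integral curve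
through `(x, 0)` where the potential `τ` is equal to `l t` -/
noncomputable def Ps {m : ℕ} (l : ℝ) (τ : E (m + 1) → ℝ) (ψ : ℝ → E (m + 1) → E (m + 1))
    (y : E (m + 1)) : E (m + 1) := ψ (l * ht y - τ (jn (pr y) 0)) (jn (pr y) 0)

/-- the bilinear form `r DΨ^* g` at `y` -/
noncomputable def pb {n : ℕ} (r : ℝ) (g : Form n) (Ψ : E n → E n) (y : E n) :
    E n →L[ℝ] E n →L[ℝ] ℝ :=
  r • ((ContinuousLinearMap.compL ℝ (E n) (E n) ℝ).flip (fderiv ℝ Ψ y)).comp
    ((g.val (Ψ y)).comp (fderiv ℝ Ψ y))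

/-- `ht V ≥ 1/2`, potentials normalised at the origin: the canonical field is transversal to the
slices -/
structure Tr {m : ℕ} (V : E (m + 1) → E (m + 1)) (τ : E (m + 1) → ℝ) : Prop where
  pos : ∀ y, 1 / 2 ≤ ht (V y)
  zero : τ 0 = 0

/-- the parameters `2^(-j)` -/
noncomputable def sj (j : ℕ) : ℝ := (1 / 2 : ℝ) ^ j

end Pool.Agent.LQR
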