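import Pool.Agent.Work.MP_25cd3b_gt.NG.Stmts
import Pool.Agent.Work.MP_13b5d9_gt.ST.Stmts
import Pool.Agent.Work.MP_13b5d9_gt.LQ.RDefs

set_option autoImplicit false

/-!
# MP_13b5d9_gt, block LQ, reduction to the normal form: statements, each with its complete proof

All statements of the blocks M, NC and NG of MP_25cd3b_gt are theorems: import
`Pool.Agent.Work.MP_25cd3b_gt.NG.All` and use them freely.  Notation of the comments: `e = eL`,
`Ψ = Ps l τ ψ`, `n = m + 1`.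
-/

open MeasureTheory Set Filter Topology
open scoped ContDiff ENNReal
open Pool.Agent.Work.MP_c9f990_an.Al (IsFlow)

namespace Pool.Agent.LQR

open Pool.Agent.MLS Pool.Agent.EC Pool.Agent.STR Pool.Agent.DR

/-! ### A. one metric -/

/-- Linear algebra of `R^(m+1) = R^m x R`: all by coordinates (`EuclideanSpace.norm_eq`,
`Fin.sum_univ_castSucc`). -/
def StRLin : Prop := ∀ m : ℕ, (∀ u : E m, pr (inc u) = u) ∧ (∀ u : E m, ht (inc u) = 0) ∧
  pr (eL (m := m)) = 0 ∧ ht (eL (m := m)) = 1 ∧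
  (∀ y : E (m + 1), inc (pr y) + ht y • eL = y) ∧ (∀ (x : E m) (t : ℝ), pr (jn x t) = x) ∧
  (∀ (x : E m) (t : ℝ), ht (jn x t) = t) ∧ (∀ u : E m, ‖inc u‖ = ‖u‖) ∧
  (∀ y : E (m + 1), ‖pr y‖ ≤ ‖y‖) ∧ (∀ y : E (m + 1), |ht y| ≤ ‖y‖) ∧ ‖eL (m := m)‖ = 1 ∧
  (∀ y : E (m + 1), ht y = y (Fin.last m)) ∧
  (∀ (x : E m) (s t : ℝ), jn x (s + t) = jn x s + t • eL)

/-- The group.  `k` is additive and `p` is a homomorphism: apply `act` to `(a b) • y` (`k (a b)` is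
determined by the height).  `z` is the element with `p z = 1`, `k z = 1` (`bij`); it commutes with
every `a` because `z a` and `a z` have the same `p` and `k`; `z ≠ 1` as `k 1 = 0`.  `Vert`: from the
formula.  Derivative: chain rule, `y ↦ p a • pr y` is smooth. -/
def StRPd : Prop := ∀ (m : ℕ) (Γ G : Type) [Group Γ] [MulAction Γ (E m)] [Group G]
  [MulAction G (E (m + 1))] (p : G →* Γ) (k : G → ℤ), Pd m Γ G p k →
  (∀ a b, k (a * b) = k a + k b) ∧ Vert (m + 1) G eL ∧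
  (∃ z : G, p z = 1 ∧ k z = 1 ∧ z ≠ 1 ∧ (∀ a : G, a * z = z * a) ∧
    ∀ x : E (m + 1), z • x = x + eL) ∧
  ∀ (a : G) (y v : E (m + 1)), dac a y v = inc (dac (p a) (pr y) (pr v)) + ht v • eL

/-- Adapted coordinates, first properties.  `Ψ` is a composition of smooth maps (`Axis.smoothF`,
`Axis.smoothT`).  `τ (Ψ y) = τ (jn (pr y) 0) + (l ht y - τ (jn (pr y) 0)) = l ht y`
(`Axis.height`).  `s ↦ Ψ (y + s e) = ψ (l ht y + l s - τ ..) (..)` has the derivative `l V (Ψ y)` at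
`s = 0` (`Axis.ode`).  `g (V (Ψ y), DΨ(y) w) = dτ(Ψ y)(DΨ(y) w) = D(τ ∘ Ψ)(y) w = l ht w`
(`Axis.grad`). -/
def StRPs : Prop := ∀ (m : ℕ) (G : Type) [Group G] [MulAction G (E (m + 1))]
  (g : Form (m + 1)) (z : G) (l : ℝ) (V : E (m + 1) → E (m + 1)) (τ : E (m + 1) → ℝ)
  (ψ : ℝ → E (m + 1) → E (m + 1)), Axis (m + 1) G g z l V τ ψ →
  ContDiff ℝ ∞ (Ps l τ ψ) ∧ (∀ y, τ (Ps l τ ψ y) = l * ht y) ∧
  (∀ y, fderiv ℝ (Ps l τ ψ) y eL = l • V (Ps l τ ψ y)) ∧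
  ∀ y w, g.val (Ps l τ ψ y) (V (Ps l τ ψ y)) (fderiv ℝ (Ps l τ ψ) y w) = l * ht w

/-- Adapted coordinates are a diffeomorphism (uses `StRPs`).  For every `y` the function
`θ ↦ ht (ψ (-θ) y)` has the derivative `- ht (V (..)) ≤ - 1/2` (`Tr.pos`), so it has exactly one zero
`θ y`, and `θ` is smooth by the implicit function theorem (`(θ, y) ↦ ht (ψ (-θ) y)` is jointly
smooth; or: the map `(θ, y) ↦ (ht (ψ (-θ) y), y)` is a smooth bijection of `R x R^n` with invertible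
derivative, so its inverse is smooth).  Let `Ξ y = jn (pr (ψ (-(θ y)) y)) (τ y / l)`.
`Ψ (Ξ y) = y`: `x₀ = ψ (-(θ y)) y` has height `0`, so `x₀ = jn (pr x₀) 0`, and `τ y = τ x₀ + θ y`, so
`Ψ (Ξ y) = ψ (τ y - τ x₀) x₀ = ψ (θ y) x₀ = y`.  `Ξ (Ψ y) = y`: `Ψ y = ψ θ' (jn (pr y) 0)`,
`θ' = l ht y - τ (jn (pr y) 0)`, so `θ (Ψ y) = θ'` by uniqueness, and `τ (Ψ y) / l = ht y`. -/
def StRDif : Prop := ∀ (m : ℕ) (G : Type) [Group G] [MulAction G (E (m + 1))]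
  (g : Form (m + 1)) (z : G) (l : ℝ) (V : E (m + 1) → E (m + 1)) (τ : E (m + 1) → ℝ)
  (ψ : ℝ → E (m + 1) → E (m + 1)), Axis (m + 1) G g z l V τ ψ → Tr V τ →
  ∃ Φ : E (m + 1) ≃ E (m + 1), (∀ y, Φ y = Ps l τ ψ y) ∧ ContDiff ℝ ∞ Φ ∧ ContDiff ℝ ∞ Φ.symm

/-- Equivariance (uses `StRLin`, `StRPd`).  `z • x = x + e`.  By `Axis.comm`
`a • Ψ y = ψ (l ht y - τ (jn x 0)) (a • jn x 0)`, `x = pr y`, and
`a • jn x 0 = jn (p a • x) (k a) = z^(k a) • jn (p a • x) 0 = ψ (l k a) (jn (p a • x) 0)`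
(`Axis.period`, `Axis.add`, integer powers).  So `a • Ψ y = Ψ (jn (p a • x) t')` with
`l t' = l ht y + l k a + τ (jn (p a • x) 0) - τ (jn x 0)`.  By `Axis.deck`, `τ (a • jn x 0) =
τ (jn x 0) + h_a`, and it is `τ (jn (p a • x) 0) + l k a` (`Axis.height`); so
`τ (jn (p a • x) 0) - τ (jn x 0) = h_a - l k a` does not depend on `x`; it depends only on
`γ = p a`: call it `l η γ`.  Additive: apply it twice. -/
def StREq : Prop := ∀ (m : ℕ) (Γ G : Type) [Group Γ] [MulAction Γ (E m)] [Group G]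
  [MulAction G (E (m + 1))] (p : G →* Γ) (k : G → ℤ), Pd m Γ G p k →
  ∀ (g : Form (m + 1)) (z : G) (l : ℝ) (V : E (m + 1) → E (m + 1)) (τ : E (m + 1) → ℝ)
  (ψ : ℝ → E (m + 1) → E (m + 1)), (∀ x : E (m + 1), z • x = x + eL) →
  Axis (m + 1) G g z l V τ ψ →
  ∃ η : Γ → ℝ, (∀ a b, η (a * b) = η a + η b) ∧ ∀ (a : G) (y : E (m + 1)),
    a • Ps l τ ψ y = Ps l τ ψ (jn (p a • pr y) (ht y + k a + η (p a)))

/-- Twisted actions.  The new action is `a *' y = jn (p a • pr y) (ht y + k a + η (p a))`.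
`smooth`, `free`: if `a *' y = y` then `p a = 1` (`Γ` acts freely), `η 1 = 0`, `k a = 0`, so
`a = 1` (`bij`).  `proper`: for compact `K` the set of the `p a` is finite (`Γ` acts properly on
`pr '' K`), and for each value of `p a` the integer `k a` is bounded.  `cocompact`: `K_Γ x [0, 1]`
(image of a compact set under `jn`; `bij` gives all integers).  `Vert`, unit translation: the element
with `p z = 1`, `k z = 1`. -/
def StRAct : Prop := ∀ (m : ℕ) (Γ G : Type) [Group Γ] [MulAction Γ (E m)] [Group G]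
  [MulAction G (E (m + 1))] (p : G →* Γ) (k : G → ℤ), Pd m Γ G p k →
  ∀ (η : Γ → ℝ), (∀ a b, η (a * b) = η a + η b) → ∀ (A : MulAction G (E (m + 1))),
  (∀ (a : G) (y : E (m + 1)), A.smul a y = jn (p a • pr y) (ht y + k a + η (p a))) →
  @Cocompact (m + 1) G _ A ∧ @Vert (m + 1) G _ A eL ∧
  ∃ z : G, ∀ x : E (m + 1), A.smul z x = x + eL

/-- One partition of unity for all twisted actions.  Let `χ_Γ` be a `PU` of `Γ` (`StPU`), `χ_0 ≥ 0`
smooth with compact support on the line and `∑_j χ_0 (t + j) = 1` for all `t` (a bump function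
divided by the sum of its translates), `χ y = χ_Γ (pr y) χ_0 (ht y)`, `S` a compact set containing the
support.  `∑_a χ (a *' y) = ∑_γ ∑_j χ_Γ (γ pr y) χ_0 (ht y + η γ + j) = 1` (`G = Γ x Z` by `bij`; all
sums have finite support).  In particular some `a *' y ∈ S`.  Bound: for `y ∈ S`, `a *' y ∈ K` the
element `p a` moves a point of `pr '' S` into `pr '' K`, so it is in a finite set `A` which does not
depend on `η`, and `k a` is an integer in an interval (depending on `η (p a)`) of fixed length. -/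
def StRPU : Prop := ∀ (m : ℕ) (Γ G : Type) [Group Γ] [MulAction Γ (E m)] [Group G]
  [MulAction G (E (m + 1))] (p : G →* Γ) (k : G → ℤ), Pd m Γ G p k →
  ∃ (χ : E (m + 1) → ℝ) (S : Set (E (m + 1))), IsCompact S ∧ (∀ x, χ x ≠ 0 → x ∈ S) ∧
    tsupport χ ⊆ S ∧
    (∀ (η : Γ → ℝ), (∀ a b, η (a * b) = η a + η b) → ∀ (A : MulAction G (E (m + 1))),
      (∀ (a : G) (y : E (m + 1)), A.smul a y = jn (p a • pr y) (ht y + k a + η (p a))) →
      @PU (m + 1) G _ A χ ∧ ∀ x, ∃ a : G, A.smul a x ∈ S) ∧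
    ∀ K : Set (E (m + 1)), IsCompact K → ∃ N : ℕ, ∀ (η : Γ → ℝ),
      (∀ a b, η (a * b) = η a + η b) → ∀ (A : MulAction G (E (m + 1))),
      (∀ (a : G) (y : E (m + 1)), A.smul a y = jn (p a • pr y) (ht y + k a + η (p a))) →
      ∀ x ∈ S, {a : G | A.smul a x ∈ K}.encard ≤ N

/-- The metric in adapted coordinates (uses `StRLin`, `StRPs`).  `pb` is smooth (as in `MLS.pull`),
symmetric, nonnegative, and positive because the derivative of the diffeomorphism `Φ` is injective.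
`Blk`: `g' (e, v) = l⁻² g (l V, DΨ v) = l⁻¹ l ht v = ht v = v_last` (`StRPs`).  Invariance under the
conjugated action `A`, `Φ (a *' y) = a • Φ y`: differentiate, `DΦ ∘ D(a *') = dac a ∘ DΦ`, and use
`Inv G g`. -/
def StRMet : Prop := ∀ (m : ℕ) (G : Type) [Group G] [iG : MulAction G (E (m + 1))],
  Cocompact (m + 1) G → ∀ (g : Form (m + 1)), Riem g → Inv G g →
  ∀ (z : G) (l : ℝ) (V : E (m + 1) → E (m + 1)) (τ : E (m + 1) → ℝ)
  (ψ : ℝ → E (m + 1) → E (m + 1)), Axis (m + 1) G g z l V τ ψ →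
  ∀ Φ : E (m + 1) ≃ E (m + 1), (∀ y, Φ y = Ps l τ ψ y) → ContDiff ℝ ∞ Φ → ContDiff ℝ ∞ Φ.symm →
  ∃ g' : Form (m + 1), g'.val = pb (1 / l ^ 2) g (Ps l τ ψ) ∧ Riem g' ∧ Blk g' ∧
    ∀ A : MulAction G (E (m + 1)), (∀ (a : G) (y : E (m + 1)), Φ (A.smul a y) = iG.smul a (Φ y)) →
      @Inv (m + 1) G _ A g'

/-- Pull-back of minimising metrics under a diffeomorphism, and scaling: `g' = r Φ^* g`, `r > 0`.
(1) `PathLen g' x y l` iff `PathLen g (Φ x) (Φ y) (l / r^(1/2))` (induction; `Φ ∘ c`), so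
`gd g' x y = r^(1/2) gd g (Φ x) (Φ y)`.  (2) If `c` is a geodesic of `g'` then `Φ ∘ c` is a geodesic of
`g`: as in `StEqG` (file `I_EqG.lean` of MP_25cd3b_gt/M; replace the group element by `Φ`, the two
metrics are different): fix `w`, `u x = (DΦ x)⁻¹ w`; `g(Φ c)(DΦ c', w) = r⁻¹ g'(c)(c', u (c))`,
etc.  Or: by the naturality of the Christoffel symbols: differentiate `g'(x)(v, w) = r g(Φ x)(DΦ v,
DΦ w)`, then `DΦ Γ'(u, v) = D²Φ(u, v) + Γ(DΦ u, DΦ v)` (proof of `NgGaN`), and use `NcGeo`.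
(3) If `c` has unit speed for `g'` then `t ↦ Φ (c (r^(1/2) t))` has unit speed for `g`; use
`Minz g`. -/
def StRMz : Prop := ∀ (n : ℕ) (g g' : Form n) (r : ℝ) (Φ : E n ≃ E n), 0 < r → Riem g →
  Minz g → ContDiff ℝ ∞ Φ → ContDiff ℝ ∞ Φ.symm →
  (∀ x u v, g'.val x u v = r * g.val (Φ x) (fderiv ℝ Φ x u) (fderiv ℝ Φ x v)) → Minz g'

/-- The splitting (uses `StRLin`).  `g'` is `Blk` and invariant under the translations along `e`, so
`g'_y (u, v) = k_(pr y) (pr u, pr v) + ht u ht v` with `k x (u, v) = g'_(jn x 0) (inc u, inc v)`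
(decompose `u = inc (pr u) + ht u e`).  Let `Θ y = (pr (Φ.symm y), l ht (Φ.symm y))`, a smooth
bijection onto `R^m x R` with smooth inverse `(x, t) ↦ Φ (jn x (t / l))`.  As `g' = l⁻² Φ^* g`:
`g_(Φ y) (DΦ u, DΦ v) = l^2 g'_y (u, v) = l^2 k_(pr y) (pr u, pr v) + (l ht u) (l ht v)`; so the form
`l^2 k` and `Θ` are as claimed.  `deck`: `Φ.symm (a • Φ y) = jn (p a • pr y) (ht y + c_a)`. -/
def StRSp : Prop := ∀ (m : ℕ) (Γ G : Type) [Group Γ] [MulAction Γ (E m)] [Group G]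
  [MulAction G (E (m + 1))] (p : G →* Γ), ∀ (g g' : Form (m + 1)) (l : ℝ)
  (Φ : E (m + 1) ≃ E (m + 1)), Riem g → Riem g' → 0 < l → ContDiff ℝ ∞ Φ → ContDiff ℝ ∞ Φ.symm →
  (∀ x u v, g'.val x u v = 1 / l ^ 2 * g.val (Φ x) (fderiv ℝ Φ x u) (fderiv ℝ Φ x v)) →
  Blk g' → TInv g' eL →
  (∀ a : G, ∃ c : ℝ, ∀ y, a • Φ y = Φ (jn (p a • pr y) (ht y + c))) →
  ∃ (k : Form m) (Θ : E (m + 1) ≃ E m × ℝ), Spl m G g k Θ

/-! ### B. families of metrics -/

/-- SPECIAL CURVE LEMMA.  Let `ρ : ℝ → ℝ` be smooth, `0 ≤ ρ ≤ 1`, `ρ 0 = 1`, support in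
`(-1/4, 1/4)`, `ρ_j s = ρ (2^j s - 1)` (support in `2^(-j) (3/4, 5/4)`; these are disjoint), and
`F s = g0 + ∑_j ρ_j s (g_j - g0)` (at most one term is not zero).  So `F s` is a convex combination of
`g0` and one `g_j`, hence symmetric and positive; `F 0 = g0`, `F (2^(-j)) = g_j`.  Joint smoothness
is clear near `(s, x)`, `s ≠ 0` (locally one term).  Near `(0, x₀)`: let `R ≥ ‖x₀‖ + 2` be an
integer and `κ` a smooth function of `x` with compact support in the ball of radius `R`, equal to `1`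
near `x₀`; the terms `κ(x) ρ_j(s) (g_j - g0)(x)`, `j ≥ R`, are smooth and their derivatives of
order `≤ i ≤ j` are bounded by `C_i 2^(i j) 2^(-j^2)`, a summable sequence
(`contDiff_tsum_of_eventually` or `contDiff_tsum`). -/
def StRCur : Prop := ∀ (n : ℕ) (g0 : Form n) (g : ℕ → Form n), Riem g0 → (∀ j, Riem (g j)) →
  (∀ j : ℕ, ∀ i ≤ j, ∀ x : E n, ‖x‖ ≤ j →
    ‖iteratedFDeriv ℝ i (fun y => (g j).val y - g0.val y) x‖ ≤ (1 / 2 : ℝ) ^ (j * j)) →
  ∃ F : ℝ → Form n, Fam n F ∧ F 0 = g0 ∧ (∀ j, F (sj j) = g j) ∧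
    ∀ s, ∃ (j : ℕ) (θ : ℝ), 0 ≤ θ ∧ θ ≤ 1 ∧
      ∀ x, (F s).val x = (1 - θ) • g0.val x + θ • (g j).val x

/-- Flow of a family.  The field `X (s, z) = (0, XH (Hm (F s)) z)` on `ℝ x W n` is jointly smooth
(`Hm (F s) (x, q) = 1/2 inner q (iop (F s) x q)`; `op` is linear in `F s`, `iop` is the inverse).
`StPatch` applies: let `S` be compact, `S_1` its projection to `ℝ`, `K` compact with `G K = R^n`; for
`s ∈ S_1`, `x ∈ K` and all `v`: `F s (v,v) ≥ c F 0 (v,v)` (compactness), and this holds for all `x` by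
invariance.  If `y' = ψ(y) X(y)` then the parameter `s` and the energy are constant and the base
curve has bounded speed for `F s`, hence for `F 0`, so it stays in the compact set of `StProp` for
`F 0`; then use `StSub` (or compactness of the set of `(s, x, q)` with `Hm (F s) (x, q) ≤ r`).  The
resulting flow has constant first component; `Φ s t z` is its second component; it is jointly smooth
by `STR.StSmF`, and for fixed `s` it is the flow of `XH (Hm (F s))` (`M` = partial derivative; all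
fields of `IsFlow` are inherited). -/
def StRFl : Prop := ∀ (n : ℕ) (G : Type) [Group G] [MulAction G (E n)], Cocompact n G →
  ∀ F : ℝ → Form n, Fam n F → (∀ s, Inv G (F s)) → ∃ Φ : ℝ → ℝ → W n → W n,
  ContDiff ℝ ∞ (fun q : ℝ × ℝ × W n => Φ q.1 q.2.1 q.2.2) ∧
  ∀ s, ∃ M : ℝ → W n → W n →L[ℝ] W n, IsFlow (XH (Hm (F s))) (Φ s) M

/-- Exponential map of a family (uses `StRFl`).  `expo (Φ s) (F s) x v = (Φ s 1 (x, op (F s) x v)).1`,
a composition of jointly smooth maps (`op (F s) x = sh ∘ (F s).val x`). -/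
def StRExp : Prop := ∀ (n : ℕ) (G : Type) [Group G] [MulAction G (E n)], Cocompact n G →
  ∀ F : ℝ → Form n, Fam n F → (∀ s, Inv G (F s)) → ∃ Φ : ℝ → ℝ → W n → W n,
  ContDiff ℝ ∞ (fun q : ℝ × E n × E n => expo (Φ q.1) (F q.1) q.2.1 q.2.2) ∧
  ∀ s, ∃ M : ℝ → W n → W n →L[ℝ] W n, IsFlow (XH (Hm (F s))) (Φ s) M

/-- Exponential map of a product metric in the vertical direction.  `g (e, v) = v_last` and `TInv`:
`c t = x + t e` is a geodesic (`EC`: the Euler-Lagrange equation is `0 = 1/2 D g(w)(e, e) = 0` as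
`g (e, e) = 1`), so `expo x e = x + e` (`NcGx`).  `Γ(e, w) = 0` for all `w` (`NcGa`: `D_e g = 0` by
`TInv`, `D_w g(e, .) = 0` by `Blk`), at all points, so also `DΓ(u)(e, e) = 0`.  By `NcLin` with
`z = (x, op e)`, `δ = (0, op w)` the curve `J t = (M t z δ).1` satisfies `J'' = 0`, `J 0 = 0`,
`J' 0 = Dvel(z) δ = w`, so `J 1 = w`, and `fderiv (expo x) e w = J 1` (`NcExp`). -/
def StRExP : Prop := ∀ (m : ℕ) (g : Form (m + 1)) (φ : ℝ → W (m + 1) → W (m + 1))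
  (M : ℝ → W (m + 1) → W (m + 1) →L[ℝ] W (m + 1)), Riem g → Blk g → TInv g eL →
  IsFlow (XH (Hm g)) φ M → ∀ x : E (m + 1), expo φ g x eL = x + eL ∧
  ∀ w, fderiv ℝ (expo φ g x) eL w = w

/-- Implicit functions along a compact set.  `Θ (s, x, v)` is smooth, `Θ (0, x, e) = 0` and
`D_v Θ (0, x, e) = id` for all `x ∈ K`.  The map `P (s, x, v) = (s, x, Θ (s, x, v))` of
`ℝ x V x V` has invertible derivative at the points of the compact set `C = {0} x K x {e}`, and it is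
injective on `C`.  Claim: `P` is injective on the `r`-neighbourhood of `C` for some `r > 0`: otherwise
there are pairs `q_i ≠ q_i'` with `P q_i = P q_i'` and distance `< 1/i` from `C`; by compactness
`q_i → q`, `q_i' → q'` in `C`, `P q = P q'`, so `q = q'`, which contradicts the local injectivity of
`P` at `q`.  On this neighbourhood `U` (open, `r` small so that the derivative is invertible there)
`P` is an open map and its inverse is smooth.  `P (C) = {0} x K x {0}` is in the open set `P U`, so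
for small `δ` and `x` in a neighbourhood `K'` of `K`, `(s, x, 0) ∈ P U` for `|s| < δ`; let
`w(s, x)` be the last component of `P⁻¹ (s, x, 0)`, multiplied with a cut-off function which is
`1` near `{0} x K` and supported in the set where it is defined. -/
def StRIft : Prop := ∀ (V : Type) [NormedAddCommGroup V] [NormedSpace ℝ V]
  [FiniteDimensional ℝ V] (Θ : ℝ × V × V → V) (e : V) (K : Set V), IsCompact K →
  ContDiff ℝ ∞ Θ → (∀ x ∈ K, Θ (0, x, e) = 0) →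
  (∀ x ∈ K, ∀ w, fderiv ℝ (fun v => Θ (0, x, v)) e w = w) →
  ∃ (w : ℝ × V → V) (δ : ℝ), 0 < δ ∧ ContDiff ℝ ∞ w ∧ (∀ x ∈ K, w (0, x) = e) ∧
    ∀ s, |s| < δ → ∀ x ∈ K, Θ (s, x, w (s, x)) = 0

/-- The data of a family `F` through a product metric `F 0` such that the metrics `F (2^(-j))` have no
conjugate points, with their canonical fields. -/
structure Ctx (m : ℕ) (Γ G : Type) [Group Γ] [MulAction Γ (E m)] [Group G]
    [MulAction G (E (m + 1))] (p : G →* Γ) (k : G → ℤ) (F : ℝ → Form (m + 1)) (z : G)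
    (l : ℕ → ℝ) (V : ℕ → E (m + 1) → E (m + 1)) (τ : ℕ → E (m + 1) → ℝ)
    (ψ : ℕ → ℝ → E (m + 1) → E (m + 1)) : Prop where
  pd : Pd m Γ G p k
  fam : Fam (m + 1) F
  inv : ∀ s, Inv G (F s)
  blk0 : Blk (F 0)
  tinv0 : TInv (F 0) eL
  zt : ∀ x : E (m + 1), z • x = x + eL
  noc : ∀ j, NoConj (F (sj j))
  ax : ∀ j, Axis (m + 1) G (F (sj j)) z (l j) (V j) (τ j) (ψ j)
  t0 : ∀ j, τ j 0 = 0

/-- The canonical fields are jointly smooth (uses `StRExp`, `StRExP`, `StRIft`).  Let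
`Θ (s, x, v) = expo (Φ s) (F s) x v - x - e` (jointly smooth); for `s = 0` the hypotheses of `StRIft`
hold (`StRExP`) for `K` = closed ball of radius `R`.  For `s = 2^(-j) < δ` and `‖x‖ ≤ R`:
`expo x (w (s, x)) = x + e = z x = ψ_j l_j x = expo x (l_j V_j x)` (`Axis.geo`, `period`, `zero`,
`ode` and `NcGx` for the geodesic `t ↦ ψ_j t x`), and `expo x` is injective (`NcInj`, `NcOne`), so
`w (s, x) = l_j V_j x`. -/
def StRW : Prop := ∀ (m : ℕ) (Γ G : Type) [Group Γ] [MulAction Γ (E m)] [Group G]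
  [MulAction G (E (m + 1))] (p : G →* Γ) (k : G → ℤ) (F : ℝ → Form (m + 1)) (z : G)
  (l : ℕ → ℝ) (V : ℕ → E (m + 1) → E (m + 1)) (τ : ℕ → E (m + 1) → ℝ)
  (ψ : ℕ → ℝ → E (m + 1) → E (m + 1)), Ctx m Γ G p k F z l V τ ψ → ∀ R : ℝ,
  ∃ w : ℝ × E (m + 1) → E (m + 1), ContDiff ℝ ∞ w ∧ (∀ x, ‖x‖ ≤ R → w (0, x) = eL) ∧
    ∀ᶠ j in atTop, ∀ x, ‖x‖ ≤ R → l j • V j x = w (sj j, x)

/-- Lengths and unit fields (uses `StRW`).  `l_j = nrm (F s) 0 (l_j V_j 0) = nrm (F s) 0 (w (s, 0))`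
(`Axis.unit`, `Axis.pos`), `s = 2^(-j)`, and `s ↦ (F s).val 0 (w(s,0)) (w(s,0))` is smooth and equal to
`1` at `s = 0` (`Blk`), so its square root is smooth near `0`; cut off.  `V_j x = w (s, x) / l_j`. -/
def StRV : Prop := ∀ (m : ℕ) (Γ G : Type) [Group Γ] [MulAction Γ (E m)] [Group G]
  [MulAction G (E (m + 1))] (p : G →* Γ) (k : G → ℤ) (F : ℝ → Form (m + 1)) (z : G)
  (l : ℕ → ℝ) (V : ℕ → E (m + 1) → E (m + 1)) (τ : ℕ → E (m + 1) → ℝ)
  (ψ : ℕ → ℝ → E (m + 1) → E (m + 1)), Ctx m Γ G p k F z l V τ ψ →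
  (∃ lt : ℝ → ℝ, ContDiff ℝ ∞ lt ∧ lt 0 = 1 ∧ (∀ s, 1 / 2 ≤ lt s) ∧
    ∀ᶠ j in atTop, l j = lt (sj j)) ∧
  ∀ R : ℝ, ∃ Z : ℝ × E (m + 1) → E (m + 1), ContDiff ℝ ∞ Z ∧
    (∀ x, ‖x‖ ≤ R → Z (0, x) = eL) ∧ ∀ᶠ j in atTop, ∀ x, ‖x‖ ≤ R → V j x = Z (sj j, x)

/-- Potentials (uses `StRV`, `StRLin`).  `τ_j x = ∫_0^1 dτ_j(r x)(x) dr = ∫_0^1 F_s (r x)(V_j (r x), x) dr`
(`t0`, `Axis.grad`), which for `‖x‖ ≤ R` is the value at `s = 2^(-j)` of the jointly smooth function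
`∫_0^1 (F s).val (r x) (Z (s, r x)) x dr`; at `s = 0` it is `∫_0^1 ht x dr` (`Blk`). -/
def StRT : Prop := ∀ (m : ℕ) (Γ G : Type) [Group Γ] [MulAction Γ (E m)] [Group G]
  [MulAction G (E (m + 1))] (p : G →* Γ) (k : G → ℤ) (F : ℝ → Form (m + 1)) (z : G)
  (l : ℕ → ℝ) (V : ℕ → E (m + 1) → E (m + 1)) (τ : ℕ → E (m + 1) → ℝ)
  (ψ : ℕ → ℝ → E (m + 1) → E (m + 1)), Ctx m Γ G p k F z l V τ ψ → ∀ R : ℝ,
  ∃ T : ℝ × E (m + 1) → ℝ, ContDiff ℝ ∞ T ∧ (∀ x, ‖x‖ ≤ R → T (0, x) = ht x) ∧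
    ∀ᶠ j in atTop, ∀ x, ‖x‖ ≤ R → τ j x = T (sj j, x)

/-- Flows of families of fields which are constant at `s = 0` in a large ball.  Let `κ` be a smooth
function with compact support, `0 ≤ κ ≤ 1`, equal to `1` on the ball of radius `2 R + 2`, and
`Z₁ (s, x) = κ(x) κ₁(s) Z (s, x)`, `κ₁` a cut-off near `0`; the field `(s, x) ↦ (0, Z₁ (s, x))` on
`ℝ x E n` has compact support modulo `s`... (bounded and Lipschitz), so it has a complete flow
(`StPatch`), jointly smooth (`STR.StSmF`); let `P (s, t, x)` be its second component.  At `s = 0` the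
field is `e` on the ball of radius `2 R + 2`, so `P (0, t, x) = x + t e` for `|t|, ‖x‖ ≤ R` (uniqueness).
For small `s`: `‖P (s, t, x) - x - t e‖ < 1` for `|t|, ‖x‖ ≤ R` (continuity and compactness), so
`P (s, ·, x)` stays in the ball of radius `2 R + 1` where the field is `Z (s, ·)`.  A curve `c` with
`c 0 = x`, `c' = X (c)` with `X = Z (s, ·)` on the ball of radius `2 R + 2` agrees with it for
`|t| ≤ R` (uniqueness for the locally Lipschitz field `Z₁`; first exit argument). -/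
def StRFC : Prop := ∀ (n : ℕ) (e : E n) (R : ℝ) (Z : ℝ × E n → E n), 0 < R → ‖e‖ = 1 →
  ContDiff ℝ ∞ Z → (∀ x, ‖x‖ ≤ 2 * R + 2 → Z (0, x) = e) →
  ∃ (P : ℝ × ℝ × E n → E n) (δ : ℝ), 0 < δ ∧ ContDiff ℝ ∞ P ∧
    (∀ t x, |t| ≤ R → ‖x‖ ≤ R → P (0, t, x) = x + t • e) ∧
    ∀ s, |s| < δ → ∀ X : E n → E n, (∀ x, ‖x‖ ≤ 2 * R + 2 → X x = Z (s, x)) →
      ∀ c : ℝ → E n, (∀ t, HasDerivAt c (X (c t)) t) → ‖c 0‖ ≤ R →
        ∀ t, |t| ≤ R → c t = P (s, t, c 0)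

/-- Adapted coordinates (uses `StRLin`, `StRV`, `StRT`, `StRFC`).  For `‖y‖ ≤ R` and large `j`:
`Ψ_j y = ψ_j (l_j ht y - τ_j (jn (pr y) 0)) (jn (pr y) 0)` with `|l_j ht y - τ_j (..)| ≤ 2 R + 1`
(`τ_j → ht` uniformly on balls), `‖jn (pr y) 0‖ ≤ R`.  By `StRFC` with radius `2 R + 1` and `Z` from
`StRV` for the radius `4 R + 4`, it is the value at `s = 2^(-j)` of the jointly smooth
`P (s, lt(s) ht y - T (s, jn (pr y) 0), jn (pr y) 0)`, which at `s = 0` is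
`jn (pr y) 0 + ht y e = y`. -/
def StRY : Prop := ∀ (m : ℕ) (Γ G : Type) [Group Γ] [MulAction Γ (E m)] [Group G]
  [MulAction G (E (m + 1))] (p : G →* Γ) (k : G → ℤ) (F : ℝ → Form (m + 1)) (z : G)
  (l : ℕ → ℝ) (V : ℕ → E (m + 1) → E (m + 1)) (τ : ℕ → E (m + 1) → ℝ)
  (ψ : ℕ → ℝ → E (m + 1) → E (m + 1)), Ctx m Γ G p k F z l V τ ψ → ∀ R : ℝ,
  ∃ Y : ℝ × E (m + 1) → E (m + 1), ContDiff ℝ ∞ Y ∧ (∀ y, ‖y‖ ≤ R → Y (0, y) = y) ∧
    ∀ᶠ j in atTop, ∀ y, ‖y‖ ≤ R → Ps (l j) (τ j) (ψ j) y = Y (sj j, y)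

/-- Soft convergence.  If `H (s, y)` is jointly smooth then the partial derivatives
`iteratedFDeriv i (H (s, ·)) y` are jointly continuous in `(s, y)` (write `H (s, ·) = H ∘ (y ↦ (s, y))`;
for instance by induction on `i`, or as the restriction of the full derivative of order `i` of `H` to
the second factor), hence uniformly close to those of `H (0, ·)` on compact sets for small `s`. -/
def StRSoft : Prop := ∀ (V F : Type) [NormedAddCommGroup V] [NormedSpace ℝ V]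
  [FiniteDimensional ℝ V] [NormedAddCommGroup F] [NormedSpace ℝ F] (H : ℝ × V → F),
  ContDiff ℝ ∞ H → ∀ (K : Set V) (i : ℕ) (ε : ℝ), IsCompact K → 0 < ε → ∃ δ : ℝ, 0 < δ ∧
  ∀ s, |s| < δ → ∀ y ∈ K,
    ‖iteratedFDeriv ℝ i (fun x => H (s, x)) y - iteratedFDeriv ℝ i (fun x => H (0, x)) y‖ ≤ ε

/-- Convergence of the metrics in adapted coordinates (uses `StRV`, `StRY`, `StRSoft`).  On the open
ball of radius `R`, for large `j`, `pb (1 / l_j^2) (F s) Ψ_j` is `H (s, ·)` for the jointly smooth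
`H (s, y) = lt(s)^(-2) (D_y Y(s, y))^* (F s)(Y (s, y))` (two functions which agree on an open set have
the same derivatives there), and `H (0, y) = (F 0).val y` on the ball (`Y (0, ·) = id` there). -/
def StRG : Prop := ∀ (m : ℕ) (Γ G : Type) [Group Γ] [MulAction Γ (E m)] [Group G]
  [MulAction G (E (m + 1))] (p : G →* Γ) (k : G → ℤ) (F : ℝ → Form (m + 1)) (z : G)
  (l : ℕ → ℝ) (V : ℕ → E (m + 1) → E (m + 1)) (τ : ℕ → E (m + 1) → ℝ)
  (ψ : ℕ → ℝ → E (m + 1) → E (m + 1)), Ctx m Γ G p k F z l V τ ψ →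
  ∀ (K : Set (E (m + 1))) (i : ℕ) (ε : ℝ), IsCompact K → 0 < ε →
  ∀ᶠ j in atTop, ∀ y ∈ K,
    ‖iteratedFDeriv ℝ i (pb (1 / l j ^ 2) (F (sj j)) (Ps (l j) (τ j) (ψ j))) y -
      iteratedFDeriv ℝ i (F 0).val y‖ ≤ ε

/-- Transversality (uses `StRV`, `StRLin`, `StRPd`).  Let `K` be compact with `G K = R^n`, contained in
the ball of radius `R`.  `ht (V_j x) = ht (Z (s, x)) → ht e = 1` uniformly for `‖x‖ ≤ R`, so it is
`≥ 1/2` on `K` for large `j`; and `ht (V_j (a x)) = ht (dac a x (V_j x)) = ht (V_j x)` (`Axis.inv`,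
`StRPd`). -/
def StRTr : Prop := ∀ (m : ℕ) (Γ G : Type) [Group Γ] [MulAction Γ (E m)] [Group G]
  [MulAction G (E (m + 1))] (p : G →* Γ) (k : G → ℤ) (F : ℝ → Form (m + 1)) (z : G)
  (l : ℕ → ℝ) (V : ℕ → E (m + 1) → E (m + 1)) (τ : ℕ → E (m + 1) → ℝ)
  (ψ : ℕ → ℝ → E (m + 1) → E (m + 1)), Ctx m Γ G p k F z l V τ ψ →
  ∀ᶠ j in atTop, Tr (V j) (τ j)

end Pool.Agent.LQR
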