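import Mathlib
import Pool.Agent.Work.MP_13b5d9_gt.LQ.RStmts

set_option autoImplicit false

/-!
# MP_13b5d9_gt, block LQ, item RT: the potentials are jointly smooth
-/

open MeasureTheory Set Filter Topology
open scoped ContDiff ENNReal
open Pool.Agent.Work.MP_c9f990_an.Al (IsFlow)

namespace Pool.Agent.LQR

open Pool.Agent.MLS Pool.Agent.EC Pool.Agent.STR Pool.Agent.DR

namespace IRT

section

variable {U Y : Type} [NormedAddCommGroup U] [NormedSpace ℝ U] [NormedAddCommGroup Y]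
    [NormedSpace ℝ Y]

/-- The partial derivative. -/
noncomputable def pd (h : ℝ × U → Y) (z : ℝ × U) : U →L[ℝ] Y :=
  (fderiv ℝ h z).comp (ContinuousLinearMap.inr ℝ ℝ U)

lemma pd_eq (h : ℝ × U → Y) :
    pd h = (ContinuousLinearMap.precomp Y (ContinuousLinearMap.inr ℝ ℝ U)) ∘ (fderiv ℝ h) := by
  funext z
  rfl

lemma pd_contDiff (h : ℝ × U → Y) (hh : ContDiff ℝ ∞ h) : ContDiff ℝ ∞ (pd h) := by
  rw [pd_eq]
  exact (ContinuousLinearMap.contDiff _).comp (hh.fderiv_right (m := ∞) (by simp))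

lemma hasFDerivAt_int [FiniteDimensional ℝ U] [CompleteSpace Y] (h : ℝ × U → Y)
    (hh : ContDiff ℝ ∞ h) (a b : ℝ) (x : U) :
    HasFDerivAt (fun x => ∫ s in a..b, h (s, x)) (∫ s in a..b, pd h (s, x)) x := by
  have hc : Continuous h := hh.continuous
  have hpc : Continuous (pd h) := (pd_contDiff h hh).continuous
  have : ProperSpace U := FiniteDimensional.proper ℝ U
  have hK : IsCompact ((uIcc a b) ×ˢ (Metric.closedBall x 1)) :=
    isCompact_uIcc.prod (isCompact_closedBall x 1)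
  obtain ⟨C, hC⟩ := hK.exists_bound_of_continuousOn hpc.continuousOn
  refine intervalIntegral.hasFDerivAt_integral_of_dominated_of_fderiv_le
    (F := fun x s => h (s, x)) (F' := fun x s => pd h (s, x)) (s := Metric.closedBall x 1)
    (bound := fun _ => C) (Metric.closedBall_mem_nhds x one_pos) ?_ ?_ ?_ ?_ ?_ ?_
  · exact Eventually.of_forall fun y =>
      (hc.comp (by fun_prop : Continuous fun s : ℝ => (s, y))).aestronglyMeasurable
  · exact (hc.comp (by fun_prop : Continuous fun s : ℝ => (s, x))).intervalIntegrable _ _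
  · exact (hpc.comp (by fun_prop : Continuous fun s : ℝ => (s, x))).aestronglyMeasurable
  · exact Eventually.of_forall fun s hs y hy => hC (s, y) ⟨uIoc_subset_uIcc hs, hy⟩
  · exact intervalIntegrable_const
  · refine Eventually.of_forall fun s _ y _ => ?_
    have h1 : HasFDerivAt h (fderiv ℝ h (s, y)) (s, y) :=
      (hh.differentiable (by simp)).differentiableAt.hasFDerivAt
    have h2 : HasFDerivAt (fun y : U => (s, y)) (ContinuousLinearMap.inr ℝ ℝ U) y :=
      hasFDerivAt_prodMk_right s y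
    exact h1.comp y h2

lemma fderiv_int [FiniteDimensional ℝ U] [CompleteSpace Y] (h : ℝ × U → Y)
    (hh : ContDiff ℝ ∞ h) (a b : ℝ) :
    fderiv ℝ (fun x => ∫ s in a..b, h (s, x)) = fun x => ∫ s in a..b, pd h (s, x) := by
  funext x
  exact (hasFDerivAt_int h hh a b x).fderiv

end

lemma contDiff_int (n : ℕ) : ∀ (U Y : Type) [NormedAddCommGroup U] [NormedSpace ℝ U]
    [FiniteDimensional ℝ U] [NormedAddCommGroup Y] [NormedSpace ℝ Y] [CompleteSpace Y]
    (h : ℝ × U → Y) (a b : ℝ), ContDiff ℝ ∞ h → ContDiff ℝ n (fun x => ∫ s in a..b, h (s, x)) := by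
  induction n with
  | zero =>
    intro U Y _ _ _ _ _ _ h a b hh
    have h1 : Differentiable ℝ (fun x => ∫ s in a..b, h (s, x)) :=
      fun x => (hasFDerivAt_int h hh a b x).differentiableAt
    exact contDiff_zero.2 h1.continuous
  | succ n ih =>
    intro U Y _ _ _ _ _ _ h a b hh
    have h1 : Differentiable ℝ (fun x => ∫ s in a..b, h (s, x)) :=
      fun x => (hasFDerivAt_int h hh a b x).differentiableAt
    have h2 := ih U (U →L[ℝ] Y) (pd h) a b (pd_contDiff h hh)
    push_cast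
    rw [contDiff_succ_iff_fderiv]
    refine ⟨h1, by simp, ?_⟩
    rw [fderiv_int h hh a b]
    exact h2


/-- parametric integrals -/
theorem smooth_int {U Y : Type} [NormedAddCommGroup U] [NormedSpace ℝ U]
    [FiniteDimensional ℝ U] [NormedAddCommGroup Y] [NormedSpace ℝ Y] [CompleteSpace Y]
    (h : ℝ × U → Y) (a b : ℝ) (hh : ContDiff ℝ ∞ h) :
    ContDiff ℝ ∞ (fun x => ∫ s in a..b, h (s, x)) :=
  contDiff_infty.2 fun n => contDiff_int n U Y h a b hh

/-- fundamental theorem along a ray -/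
theorem ray {n : ℕ} (τ : E n → ℝ) (hτ : ContDiff ℝ ∞ τ) (x : E n) :
    τ x - τ 0 = ∫ r in (0 : ℝ)..1, fderiv ℝ τ (r • x) x := by
  have h1 : ∀ r : ℝ, HasDerivAt (fun r : ℝ => τ (r • x)) (fderiv ℝ τ (r • x) x) r := by
    intro r
    have h2 : HasFDerivAt τ (fderiv ℝ τ (r • x)) (r • x) :=
      ((hτ.differentiable (by norm_num)) (r • x)).hasFDerivAt
    have h3 : HasDerivAt (fun r : ℝ => r • x) x r := by
      simpa using (hasDerivAt_id r).smul_const x
    exact h2.comp_hasDerivAt r h3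
  have hc : Continuous (fun r : ℝ => fderiv ℝ τ (r • x) x) := by
    have h4 : Continuous (fderiv ℝ τ) := hτ.continuous_fderiv (by norm_num)
    exact (h4.comp (continuous_id.smul continuous_const)).clm_apply continuous_const
  have h5 := intervalIntegral.integral_eq_sub_of_hasDerivAt (a := (0 : ℝ)) (b := 1)
    (fun r _ => h1 r) (hc.intervalIntegrable _ _)
  rw [h5]
  simp

end IRT

open IRT in
/-- Item RT. -/
theorem pr_RT (h2 : StRV) : StRT := by
  intro m Γ G _ _ _ _ p k F z l V τ ψ H R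
  obtain ⟨-, hV⟩ := h2 m Γ G p k F z l V τ ψ H
  obtain ⟨Z, hZ, hZ0, hZj⟩ := hV R
  have hsm : ContDiff ℝ ∞ (fun q : ℝ × (ℝ × E (m + 1)) =>
      (F q.2.1).val (q.1 • q.2.2) (Z (q.2.1, q.1 • q.2.2)) q.2.2) := by
    have e1 : ContDiff ℝ ∞ (fun q : ℝ × (ℝ × E (m + 1)) => ((q.2.1, q.1 • q.2.2) :
        ℝ × E (m + 1))) := by fun_prop
    have e2 : ContDiff ℝ ∞ (fun q : ℝ × (ℝ × E (m + 1)) => (F q.2.1).val (q.1 • q.2.2)) :=
      H.fam.smooth.comp e1
    have e3 : ContDiff ℝ ∞ (fun q : ℝ × (ℝ × E (m + 1)) => Z (q.2.1, q.1 • q.2.2)) := hZ.comp e1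
    have e4 : ContDiff ℝ ∞ (fun q : ℝ × (ℝ × E (m + 1)) => q.2.2) := by fun_prop
    exact (e2.clm_apply e3).clm_apply e4
  have hball : ∀ x : E (m + 1), ‖x‖ ≤ R → ∀ r ∈ uIcc (0 : ℝ) 1, ‖r • x‖ ≤ R := by
    intro x hx r hr
    rw [uIcc_of_le zero_le_one] at hr
    rw [norm_smul, Real.norm_of_nonneg hr.1]
    have h3 := norm_nonneg x
    nlinarith [hr.2]
  refine ⟨fun q => ∫ r in (0 : ℝ)..1, (F q.1).val (r • q.2) (Z (q.1, r • q.2)) q.2,
    smooth_int _ 0 1 hsm, ?_, ?_⟩
  · intro x hx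
    have h3 : (∫ r in (0 : ℝ)..1, (F 0).val (r • x) (Z (0, r • x)) x) =
        ∫ r in (0 : ℝ)..1, ht x := by
      apply intervalIntegral.integral_congr
      intro r hr
      show (F 0).val (r • x) (Z (0, r • x)) x = ht x
      rw [hZ0 _ (hball x hx r hr), H.blk0]
      rfl
    show (∫ r in (0 : ℝ)..1, (F 0).val (r • x) (Z (0, r • x)) x) = ht x
    rw [h3]
    simp
  · filter_upwards [hZj] with j hj x hx
    have h3 : τ j x = ∫ r in (0 : ℝ)..1, fderiv ℝ (τ j) (r • x) x := by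
      rw [← ray (τ j) (H.ax j).smoothT x, H.t0 j, sub_zero]
    rw [h3]
    apply intervalIntegral.integral_congr
    intro r hr
    show fderiv ℝ (τ j) (r • x) x = (F (sj j)).val (r • x) (Z (sj j, r • x)) x
    rw [(H.ax j).grad, hj _ (hball x hx r hr)]

end Pool.Agent.LQR
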