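import Pool.Agent.Work.MP_13b5d9_gt.LQ.RStmts
import Pool.Agent.Work.MP_13b5d9_gt.ST.I_SmF
import Pool.Agent.Work.MP_25cd3b_gt.M.All

set_option autoImplicit false

/-!
# MP_13b5d9_gt, block LQ, item RFl: the geodesic flow of a family of metrics is jointly smooth
-/

open MeasureTheory Set Filter Topology
open scoped ContDiff ENNReal
open Pool.Agent.Work.MP_c9f990_an.Al (IsFlow)

namespace Pool.Agent.LQR

open Pool.Agent.MLS Pool.Agent.EC Pool.Agent.STR Pool.Agent.DR

namespace IRFl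

/-! ### a lower bound on compact sets -/

/-- a positive homogeneous function on a compact set is bounded from below -/
theorem lower {A : Type} [TopologicalSpace A] {n : ℕ} (K : Set A) (hK : IsCompact K)
    (f : A → E n → ℝ) (hf : Continuous (fun p : A × E n => f p.1 p.2))
    (hh : ∀ a t v, f a (t • v) = t ^ 2 * f a v) (hp : ∀ a ∈ K, ∀ v, v ≠ 0 → 0 < f a v) :
    ∃ c : ℝ, 0 < c ∧ ∀ a ∈ K, ∀ v, c * ‖v‖ ^ 2 ≤ f a v := by
  have hz : ∀ a, f a 0 = 0 := by
    intro a
    have h2 := hh a 0 0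
    rw [smul_zero] at h2
    simpa using h2
  have hsph : ∀ a ∈ K, ∀ v : E n, v ≠ 0 → (a, ‖v‖⁻¹ • v) ∈ K ×ˢ Metric.sphere (0 : E n) 1 := by
    intro a ha v hv
    refine ⟨ha, ?_⟩
    rw [mem_sphere_zero_iff_norm, norm_smul, norm_inv, norm_norm,
      inv_mul_cancel₀ (norm_ne_zero_iff.2 hv)]
  rcases (K ×ˢ Metric.sphere (0 : E n) 1).eq_empty_or_nonempty with he | hne
  · refine ⟨1, one_pos, fun a ha v => ?_⟩
    have hv : v = 0 := by
      by_contra hv
      have h1 := hsph a ha v hv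
      rw [he] at h1
      exact h1
    rw [hv, norm_zero, hz]
    norm_num
  · obtain ⟨⟨a0, v0⟩, h0, hmin⟩ := (hK.prod (isCompact_sphere (0 : E n) 1)).exists_isMinOn hne
      hf.continuousOn
    have hv0 : v0 ≠ 0 := by
      intro hv
      have h1 := h0.2
      simp only [mem_sphere_zero_iff_norm] at h1
      rw [hv, norm_zero] at h1
      exact zero_ne_one h1
    refine ⟨f a0 v0, hp a0 h0.1 v0 hv0, fun a ha v => ?_⟩
    by_cases hv : v = 0
    · rw [hv, norm_zero, hz]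
      norm_num
    · have h1 : f a0 v0 ≤ f a (‖v‖⁻¹ • v) := hmin (hsph a ha v hv)
      rw [hh] at h1
      have h3 : 0 < ‖v‖ := norm_pos_iff.2 hv
      have h4 : 0 < ‖v‖ ^ 2 := by positivity
      calc f a0 v0 * ‖v‖ ^ 2 ≤ (‖v‖⁻¹ ^ 2 * f a v) * ‖v‖ ^ 2 :=
            mul_le_mul_of_nonneg_right h1 h4.le
        _ = f a v := by
            field_simp

/-! ### joint smoothness -/

variable {n : ℕ} {F : ℝ → Form n}

theorem op_smooth (hF : Fam n F) : ContDiff ℝ ∞ (fun q : ℝ × E n => op (F q.1) q.2) :=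
  contDiff_const.clm_comp hF.smooth

theorem iop_smooth (hF : Fam n F) : ContDiff ℝ ∞ (fun q : ℝ × E n => iop (F q.1) q.2) := by
  rw [contDiff_iff_contDiffAt]
  intro q
  obtain ⟨u, hu⟩ := IOp.isUnit_op (hF.riem q.1) q.2
  have h1 : ContDiffAt ℝ ∞ Ring.inverse (op (F q.1) q.2) := by
    rw [← hu]
    exact contDiffAt_ringInverse ℝ u
  exact h1.comp q (op_smooth hF).contDiffAt

/-- the energy of the family -/
noncomputable def hh (F : ℝ → Form n) (q : ℝ × W n) : ℝ := Hm (F q.1) q.2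

theorem hh_smooth (hF : Fam n F) : ContDiff ℝ ∞ (hh F) := by
  have h0 : ContDiff ℝ ∞ (fun q : ℝ × W n => (q.1, q.2.1)) :=
    contDiff_fst.prodMk (contDiff_fst.comp contDiff_snd)
  have h2 : ContDiff ℝ ∞ (fun q : ℝ × W n => q.2.2) := contDiff_snd.comp contDiff_snd
  have h1 : ContDiff ℝ ∞ (fun q : ℝ × W n => iop (F q.1) q.2.1 q.2.2) :=
    ((iop_smooth hF).comp h0).clm_apply h2
  exact contDiff_const.mul (h2.inner ℝ h1)

/-- partial derivative -/
theorem partial_deriv {P V : Type} [NormedAddCommGroup P] [NormedSpace ℝ P]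
    [NormedAddCommGroup V] [NormedSpace ℝ V] {f : ℝ × P → V} (s : ℝ) (z : P)
    (hf : DifferentiableAt ℝ f (s, z)) :
    HasFDerivAt (fun z => f (s, z)) ((fderiv ℝ f (s, z)).comp (ContinuousLinearMap.inr ℝ ℝ P)) z :=
  hf.hasFDerivAt.comp z (hasFDerivAt_prodMk_right s z)

theorem XH_eq (hF : Fam n F) (q : ℝ × W n) : XH (Hm (F q.1)) q.2 =
    (sh (((fderiv ℝ (hh F) q).comp (ContinuousLinearMap.inr ℝ ℝ (W n))).comp
        (ContinuousLinearMap.inr ℝ (E n) (E n))),
      -sh (((fderiv ℝ (hh F) q).comp (ContinuousLinearMap.inr ℝ ℝ (W n))).comp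
        (ContinuousLinearMap.inl ℝ (E n) (E n)))) := by
  have h1 : fderiv ℝ (Hm (F q.1)) q.2 =
      (fderiv ℝ (hh F) q).comp (ContinuousLinearMap.inr ℝ ℝ (W n)) :=
    (partial_deriv (f := hh F) q.1 q.2
      (((hh_smooth hF).differentiable (by norm_num)) (q.1, q.2))).fderiv
  unfold XH
  rw [h1]

theorem XH_smooth (hF : Fam n F) :
    ContDiff ℝ ∞ (fun q : ℝ × W n => XH (Hm (F q.1)) q.2) := by
  have h1 : ContDiff ℝ ∞ (fderiv ℝ (hh F)) := (hh_smooth hF).fderiv_right (by norm_num)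
  have h2 : ContDiff ℝ ∞ (fun q : ℝ × W n =>
      (fderiv ℝ (hh F) q).comp (ContinuousLinearMap.inr ℝ ℝ (W n))) := h1.clm_comp contDiff_const
  have h3 : (fun q : ℝ × W n => XH (Hm (F q.1)) q.2) = fun q =>
    (sh (((fderiv ℝ (hh F) q).comp (ContinuousLinearMap.inr ℝ ℝ (W n))).comp
        (ContinuousLinearMap.inr ℝ (E n) (E n))),
      -sh (((fderiv ℝ (hh F) q).comp (ContinuousLinearMap.inr ℝ ℝ (W n))).comp
        (ContinuousLinearMap.inl ℝ (E n) (E n)))) := funext fun q => XH_eq hF q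
  rw [h3]
  exact ((sh (n := n)).contDiff.comp (h2.clm_comp contDiff_const)).prodMk
    ((sh (n := n)).contDiff.comp (h2.clm_comp contDiff_const)).neg

/-- the field of the family on `ℝ x W n` -/
noncomputable def XF (F : ℝ → Form n) (q : ℝ × W n) : ℝ × W n := (0, XH (Hm (F q.1)) q.2)

theorem XF_smooth (hF : Fam n F) : ContDiff ℝ ∞ (XF F) :=
  contDiff_const.prodMk (XH_smooth hF)

/-! ### compactness -/

/-- comparison of the metrics of the family with the metric at `s = 0` -/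
theorem compare {G : Type} [Group G] [MulAction G (E n)] (hG : Cocompact n G) (hF : Fam n F)
    (hI : ∀ s, Inv G (F s)) (S : Set ℝ) (hS : IsCompact S) :
    ∃ C : ℝ, 0 < C ∧ ∀ s ∈ S, ∀ x v, nrm (F 0) x v ≤ C * nrm (F s) x v := by
  obtain ⟨K, hK, hKc⟩ := hG.cocompact
  obtain ⟨C0, hC0, hb0⟩ := (pr_Bnd n (F 0) K hK).1
  have hcont : Continuous (fun p : (ℝ × E n) × E n => (F p.1.1).val p.1.2 p.2 p.2) := by
    have h1 : Continuous (fun p : (ℝ × E n) × E n => (F p.1.1).val p.1.2) :=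
      hF.smooth.continuous.comp continuous_fst
    exact (h1.clm_apply continuous_snd).clm_apply continuous_snd
  obtain ⟨c, hc, hlow⟩ := lower (S ×ˢ K) (hS.prod hK)
    (fun (q : ℝ × E n) v => (F q.1).val q.2 v v) hcont
    (fun q t v => by
      simp only [map_smul, _root_.smul_apply, smul_eq_mul]
      ring)
    (fun q _ v hv => hF.riem q.1 q.2 v hv)
  have hsc : 0 < Real.sqrt c := Real.sqrt_pos.2 hc
  refine ⟨C0 * (Real.sqrt c)⁻¹, by positivity, fun s hs x v => ?_⟩
  obtain ⟨a, ha⟩ := hKc x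
  rw [← ICmp.nrm_inv (hI 0) a x v, ← ICmp.nrm_inv (hI s) a x v]
  have h1 := hlow (s, a • x) ⟨hs, ha⟩ (dac a x v)
  have h2 : Real.sqrt c * ‖dac a x v‖ ≤ nrm (F s) (a • x) (dac a x v) := by
    have h3 : Real.sqrt (c * ‖dac a x v‖ ^ 2) = Real.sqrt c * ‖dac a x v‖ := by
      rw [Real.sqrt_mul hc.le, Real.sqrt_sq (norm_nonneg _)]
    rw [← h3]
    exact Real.sqrt_le_sqrt h1
  have h4 : ‖dac a x v‖ ≤ (Real.sqrt c)⁻¹ * nrm (F s) (a • x) (dac a x v) := by
    rw [inv_mul_eq_div, le_div_iff₀ hsc, mul_comm]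
    exact h2
  calc nrm (F 0) (a • x) (dac a x v) ≤ C0 * ‖dac a x v‖ := hb0 _ ha _
    _ ≤ C0 * ((Real.sqrt c)⁻¹ * nrm (F s) (a • x) (dac a x v)) :=
        mul_le_mul_of_nonneg_left h4 hC0.le
    _ = C0 * (Real.sqrt c)⁻¹ * nrm (F s) (a • x) (dac a x v) := (mul_assoc _ _ _).symm

/-- the sublevel sets of the energy over compact sets are compact -/
theorem sub_compact (hF : Fam n F) (S : Set ℝ) (hS : IsCompact S) (K : Set (E n))
    (hK : IsCompact K) (r : ℝ) :
    IsCompact {q : ℝ × W n | q.1 ∈ S ∧ q.2.1 ∈ K ∧ hh F q ≤ r} := by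
  have hcont : Continuous (fun p : (ℝ × E n) × E n => hh F (p.1.1, (p.1.2, p.2))) := by
    apply (hh_smooth hF).continuous.comp
    fun_prop
  obtain ⟨c, hc, hlow⟩ := lower (S ×ˢ K) (hS.prod hK)
    (fun (q : ℝ × E n) p => hh F (q.1, (q.2, p))) hcont
    (fun q t v => by
      simp only [hh, Hm, map_smul, real_inner_smul_left, real_inner_smul_right]
      ring)
    (fun q _ v hv => by
      change 0 < Hm (F q.1) (q.2, v)
      rw [IOp.Hm_eq (hF.riem q.1)]
      have h1 : vel (F q.1) (q.2, v) ≠ 0 := by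
        intro h0
        apply hv
        have h2 := IOp.op_iop (hF.riem q.1) q.2 v
        change op (F q.1) q.2 (vel (F q.1) (q.2, v)) = v at h2
        rw [h0, map_zero] at h2
        exact h2.symm
      have h3 := hF.riem q.1 q.2 _ h1
      change 0 < 1 / 2 * (F q.1).val q.2 (vel (F q.1) (q.2, v)) (vel (F q.1) (q.2, v))
      linarith)
  have hcl : IsClosed {q : ℝ × W n | q.1 ∈ S ∧ q.2.1 ∈ K ∧ hh F q ≤ r} :=
    (hS.isClosed.preimage continuous_fst).inter
      ((hK.isClosed.preimage (continuous_fst.comp continuous_snd)).inter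
        (isClosed_le (hh_smooth hF).continuous continuous_const))
  refine (hS.prod (hK.prod (isCompact_closedBall (0 : E n) (Real.sqrt (r / c))))).of_isClosed_subset
    hcl ?_
  rintro ⟨s, x, p⟩ ⟨hs, hx, hH⟩
  refine ⟨hs, hx, ?_⟩
  rw [mem_closedBall_zero_iff]
  have h1 : c * ‖p‖ ^ 2 ≤ hh F (s, x, p) := hlow (s, x) ⟨hs, hx⟩ p
  apply Real.le_sqrt_of_sq_le
  rw [le_div_iff₀ hc, mul_comm]
  exact h1.trans hH

/-- solutions of the cut-off equations stay in compact sets -/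
theorem trap {G : Type} [Group G] [MulAction G (E n)] (hG : Cocompact n G) (hF : Fam n F)
    (hI : ∀ s, Inv G (F s)) (S : Set (ℝ × W n)) (T : ℝ) (hS : IsCompact S) :
    ∃ S' : Set (ℝ × W n), IsCompact S' ∧ ∀ ψ : ℝ × W n → ℝ,
      ContDiff ℝ ∞ ψ → (∀ z, 0 ≤ ψ z ∧ ψ z ≤ 1) → ∀ y : ℝ → ℝ × W n,
      (∀ t, HasDerivAt y (ψ (y t) • XF F (y t)) t) → y 0 ∈ S → ∀ t, |t| ≤ T → y t ∈ S' := by
  obtain ⟨r, hr⟩ := hS.bddAbove_image ((hh_smooth hF).continuous.continuousOn)
  obtain ⟨C, hC, hcmp⟩ := compare hG hF hI (Prod.fst '' S) (hS.image continuous_fst)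
  obtain ⟨K', hK', hK'2⟩ := p_Prop n G hG (F 0) (hF.riem 0) (hI 0)
    ((fun q : ℝ × W n => q.2.1) '' S) (|T| * (C * Real.sqrt (2 * r)))
    (hS.image (continuous_fst.comp continuous_snd))
  refine ⟨{q : ℝ × W n | q.1 ∈ Prod.fst '' S ∧ q.2.1 ∈ K' ∧ hh F q ≤ r},
    sub_compact hF _ (hS.image continuous_fst) K' hK' r, ?_⟩
  intro ψ hψ hψ01 y hy hy0 t ht
  -- the parameter is constant
  have hy1 : ∀ t, HasDerivAt (fun t => (y t).1) 0 t := by
    intro t
    have h1 := (ContinuousLinearMap.fst ℝ ℝ (W n)).hasFDerivAt.comp_hasDerivAt t (hy t)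
    have h2 : (ContinuousLinearMap.fst ℝ ℝ (W n)) (ψ (y t) • XF F (y t)) = 0 := by
      simp [XF]
    rw [h2] at h1
    exact h1
  have hc1 : ∀ t, (y t).1 = (y 0).1 := fun t => IFlow.const_of_deriv hy1 t 0
  set s := (y 0).1 with hs
  have hyt : ∀ t, y t = (s, (y t).2) := fun t => Prod.ext (hc1 t) rfl
  have hRs := hF.riem s
  have hHs : ContDiff ℝ ∞ (Hm (F s)) := IOp.contDiff_Hm hRs
  obtain ⟨hXs, -, hX0⟩ := pr_Tr0 n (Hm (F s)) hHs
  have hy2 : ∀ t, HasDerivAt (fun t => (y t).2)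
      ((fun z : W n => ψ (s, z)) ((y t).2) • XH (Hm (F s)) ((y t).2)) t := by
    intro t
    have h1 := (ContinuousLinearMap.snd ℝ ℝ (W n)).hasFDerivAt.comp_hasDerivAt t (hy t)
    have h2 : (ContinuousLinearMap.snd ℝ ℝ (W n)) (ψ (y t) • XF F (y t)) =
        (fun z : W n => ψ (s, z)) ((y t).2) • XH (Hm (F s)) ((y t).2) := by
      change ψ (y t) • XH (Hm (F (y t).1)) (y t).2 = ψ (s, (y t).2) • XH (Hm (F s)) ((y t).2)
      rw [hc1 t, ← hyt t]
    rw [h2] at h1
    exact h1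
  have hψs : Continuous (fun z : W n => ψ (s, z)) :=
    hψ.continuous.comp (Continuous.prodMk_right s)
  have hE := IFlow.energy (Hm (F s)) hHs hX0 (fun z => ψ (s, z)) (fun t => (y t).2) hy2
  have hE2 : ∀ t, Hm (F s) (y t).2 ≤ r := fun t => (hE t).trans_le (hr ⟨y 0, hy0, rfl⟩)
  obtain ⟨hc, hc'⟩ := IFlow.curve (XH (Hm (F s))) hXs.continuous (fun z => ψ (s, z)) hψs
    (fun t => (y t).2) hy2
  have hspeed : ∀ t, nrm (F 0) ((fun t => (y t).2.1) t) (deriv (fun t => (y t).2.1) t) ≤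
      C * Real.sqrt (2 * r) := by
    intro t
    refine (hcmp s ⟨y 0, hy0, rfl⟩ _ _).trans (mul_le_mul_of_nonneg_left ?_ hC.le)
    rw [hc' t, (p_Hd n (F s) hRs (y t).2).1]
    apply IFlow.nrm_smul_le (F s) _ _ _ r (hψ01 _).1 (hψ01 _).2
    have h8 := IOp.Hm_eq hRs (y t).2
    have h9 := hE2 t
    rw [h8] at h9
    change (F s).val (y t).2.1 (vel (F s) (y t).2) (vel (F s) (y t).2) ≤ 2 * r
    linarith
  have h10 := IFlow.dist_curve (F 0) pr_Gd (fun t => (y t).2.1) hc (C * Real.sqrt (2 * r)) hspeed t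
  refine ⟨?_, ?_, ?_⟩
  · rw [hc1 t]
    exact ⟨y 0, hy0, rfl⟩
  · apply hK'2 (y 0).2.1 ⟨y 0, hy0, rfl⟩
    refine h10.trans ?_
    apply mul_le_mul_of_nonneg_right _ (mul_nonneg hC.le (Real.sqrt_nonneg _))
    exact ht.trans (le_abs_self T)
  · have h11 : hh F (y t) = Hm (F s) (y t).2 := by
      unfold hh
      rw [hc1 t]
    rw [h11]
    exact hE2 t

end IRFl

open IRFl in
/-- Item RFl. -/
theorem pr_RFl (h : STR.StSmF) : StRFl := by
  intro n G _ _ hG F hF hI
  obtain ⟨φ, M, hφ⟩ := p_Patch (ℝ × W n) (XF F) ((XF_smooth hF).of_le (by norm_num))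
    (fun S T hS => trap hG hF hI S T hS)
  have hsm := h (ℝ × W n) (XF F) φ M (XF_smooth hF) hφ
  -- the parameter is constant
  have hfst : ∀ t (q : ℝ × W n), (φ t q).1 = q.1 := by
    intro t q
    have h1 : ∀ t, HasDerivAt (fun t => (φ t q).1) 0 t := by
      intro t
      exact (ContinuousLinearMap.fst ℝ ℝ (W n)).hasFDerivAt.comp_hasDerivAt t (hφ.ode q t)
    have h2 := IFlow.const_of_deriv h1 t 0
    rw [hφ.zero] at h2
    exact h2
  have hpair : ∀ t s z, φ t (s, z) = (s, (φ t (s, z)).2) := fun t s z =>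
    Prod.ext (hfst t (s, z)) rfl
  have hMfst : ∀ t (q : ℝ × W n) (w : W n), (M t q (0, w)).1 = 0 := by
    intro t q w
    have h1 : HasFDerivAt (fun q => (φ t q).1)
        ((ContinuousLinearMap.fst ℝ ℝ (W n)).comp (M t q)) q :=
      (ContinuousLinearMap.fst ℝ ℝ (W n)).hasFDerivAt.comp q (hφ.diff t q)
    have h2 : HasFDerivAt (fun q : ℝ × W n => (φ t q).1) (ContinuousLinearMap.fst ℝ ℝ (W n)) q := by
      have h3 : (fun q : ℝ × W n => (φ t q).1) = fun q => q.1 := funext fun q => hfst t q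
      rw [h3]
      exact hasFDerivAt_fst
    have h4 := congrArg (fun L : ℝ × W n →L[ℝ] ℝ => L (0, w)) (h1.unique h2)
    simpa using h4
  refine ⟨fun s t z => (φ t (s, z)).2, ?_, ?_⟩
  · have h1 : ContDiff ℝ ∞ (fun q : ℝ × ℝ × W n => (q.2.1, (q.1, q.2.2))) := by fun_prop
    exact contDiff_snd.comp (hsm.comp h1)
  · intro s
    have hXs : ∀ z, HasFDerivAt (XH (Hm (F s))) ((ContinuousLinearMap.snd ℝ ℝ (W n)).comp
        ((fderiv ℝ (XF F) (s, z)).comp (ContinuousLinearMap.inr ℝ ℝ (W n)))) z := by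
      intro z
      have h1 := partial_deriv (f := XF F) s z (((XF_smooth hF).differentiable (by norm_num)) _)
      exact (ContinuousLinearMap.snd ℝ ℝ (W n)).hasFDerivAt.comp z h1
    refine ⟨fun t z => (ContinuousLinearMap.snd ℝ ℝ (W n)).comp
      ((M t (s, z)).comp (ContinuousLinearMap.inr ℝ ℝ (W n))), ?_⟩
    have hMin : ∀ t z (w : W n), M t (s, z) (ContinuousLinearMap.inr ℝ ℝ (W n) w) =
        ContinuousLinearMap.inr ℝ ℝ (W n) (((ContinuousLinearMap.snd ℝ ℝ (W n)).comp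
      ((M t (s, z)).comp (ContinuousLinearMap.inr ℝ ℝ (W n)))) w) := fun t z w =>
      Prod.ext (hMfst t (s, z) w) rfl
    refine
      { zero := fun z => ?_
        ode := fun z t => ?_
        add := fun a b z => ?_
        cont := ?_
        diff := fun t z => ?_
        M0 := fun z => ?_
        Mode := fun z t => ?_
        Mcont := ?_
        uniq := fun y hy t ht => ?_ }
    · change (φ 0 (s, z)).2 = z
      rw [hφ.zero]
    · have h1 := (ContinuousLinearMap.snd ℝ ℝ (W n)).hasFDerivAt.comp_hasDerivAt t (hφ.ode (s, z) t)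
      have h2 : (ContinuousLinearMap.snd ℝ ℝ (W n)) (XF F (φ t (s, z))) =
          XH (Hm (F s)) (φ t (s, z)).2 := by
        change XH (Hm (F (φ t (s, z)).1)) (φ t (s, z)).2 = _
        rw [hfst]
      rw [h2] at h1
      exact h1
    · change (φ (a + b) (s, z)).2 = (φ a (s, (φ b (s, z)).2)).2
      rw [← hpair, ← hφ.add]
    · have h1 : Continuous (fun p : ℝ × W n => (p.1, (s, p.2))) := by fun_prop
      exact continuous_snd.comp (hφ.cont.comp h1)
    · exact (ContinuousLinearMap.snd ℝ ℝ (W n)).hasFDerivAt.comp z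
        ((hφ.diff t (s, z)).comp z (hasFDerivAt_prodMk_right s z))
    · rw [hφ.M0]
      exact ContinuousLinearMap.ext fun w => rfl
    · have h1 : HasDerivAt (fun t => (ContinuousLinearMap.snd ℝ ℝ (W n)).comp
          ((M t (s, z)).comp (ContinuousLinearMap.inr ℝ ℝ (W n))))
          ((ContinuousLinearMap.snd ℝ ℝ (W n)).comp
            (((fderiv ℝ (XF F) (φ t (s, z))).comp (M t (s, z))).comp
              (ContinuousLinearMap.inr ℝ ℝ (W n)))) t := by
        have h2 : HasFDerivAt (fun L : ℝ × W n →L[ℝ] ℝ × W n =>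
            (ContinuousLinearMap.snd ℝ ℝ (W n)).comp
              (L.comp (ContinuousLinearMap.inr ℝ ℝ (W n))))
            ((ContinuousLinearMap.compL ℝ (W n) (ℝ × W n) (W n)
              (ContinuousLinearMap.snd ℝ ℝ (W n))).comp
              ((ContinuousLinearMap.compL ℝ (W n) (ℝ × W n) (ℝ × W n)).flip
                (ContinuousLinearMap.inr ℝ ℝ (W n)))) (M t (s, z)) :=
          ((ContinuousLinearMap.compL ℝ (W n) (ℝ × W n) (W n)
              (ContinuousLinearMap.snd ℝ ℝ (W n))).comp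
              ((ContinuousLinearMap.compL ℝ (W n) (ℝ × W n) (ℝ × W n)).flip
                (ContinuousLinearMap.inr ℝ ℝ (W n)))).hasFDerivAt
        exact h2.comp_hasDerivAt t (hφ.Mode (s, z) t)
      have h3 : (ContinuousLinearMap.snd ℝ ℝ (W n)).comp
            (((fderiv ℝ (XF F) (φ t (s, z))).comp (M t (s, z))).comp
              (ContinuousLinearMap.inr ℝ ℝ (W n))) =
          (fderiv ℝ (XH (Hm (F s))) (φ t (s, z)).2).comp
            ((ContinuousLinearMap.snd ℝ ℝ (W n)).comp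
              ((M t (s, z)).comp (ContinuousLinearMap.inr ℝ ℝ (W n)))) := by
        rw [(hXs (φ t (s, z)).2).fderiv, ← hpair]
        refine ContinuousLinearMap.ext fun w => ?_
        change (fderiv ℝ (XF F) (φ t (s, z)) (M t (s, z) (ContinuousLinearMap.inr ℝ ℝ (W n) w))).2 =
          (fderiv ℝ (XF F) (φ t (s, z)) (ContinuousLinearMap.inr ℝ ℝ (W n)
            (((ContinuousLinearMap.snd ℝ ℝ (W n)).comp
              ((M t (s, z)).comp (ContinuousLinearMap.inr ℝ ℝ (W n)))) w))).2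
        rw [← hMin]
      rw [← h3]
      exact h1
    · have h1 : Continuous (fun p : ℝ × W n => M p.1 (s, p.2)) := by
        have h2 : Continuous (fun p : ℝ × W n => (p.1, (s, p.2))) := by fun_prop
        exact hφ.Mcont.comp h2
      exact continuous_const.clm_comp (h1.clm_comp continuous_const)
    · have h1 := hφ.uniq (fun t => (s, y t)) (fun t ht => by
        have h2 := (hasDerivWithinAt_const t (Ici 0) s).prodMk (hy t ht)
        exact h2) t ht
      exact congrArg Prod.snd h1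

end Pool.Agent.LQR
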