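import Pool.Agent.Work.MP_13b5d9_gt.PI.MxNoConj

set_option autoImplicit false

/-!
# MP_13b5d9_gt: metrics which are split along a central element, and families of metrics without
conjugate points

Notation and conventions of `MP_25cd3b_gt/Mx/Defs`: metrics of closed manifolds `R^n / G` are given
by their matrices on `R^n`; `NoConj` is defined in `PI/MxNoConj`.
-/

open MeasureTheory Set Filter Topology
open scoped ContDiff

namespace Pool.Agent.Mx

/-- `(Y, T)` is a diffeomorphism from `R^n` to `R^m x R`, with inverse `Φ` -/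
structure Diffeo (n m : ℕ) (Y : E n → E m) (T : E n → ℝ) (Φ : E m → ℝ → E n) : Prop where
  smoothY : ContDiff ℝ ∞ Y
  smoothT : ContDiff ℝ ∞ T
  smoothInv : ContDiff ℝ ∞ (fun p : E m × ℝ => Φ p.1 p.2)
  left : ∀ x, Φ (Y x) (T x) = x
  rightY : ∀ y t, Y (Φ y t) = y
  rightT : ∀ y t, T (Φ y t) = t

/-- The metric `g` of the manifold `R^n / G` is split along the element `z` of `G`, with the data
`l > 0`, `k`, `Y`, `T`: the diffeomorphism `(Y, T)` is an isometry from `R^n` with the metric `g` to
the Riemannian product of `R^m` with a metric `k` and the line (`g = Y^* k + dT^2`), every element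
`a` of `G` acts in these coordinates by `(y, t) ↦ (f y, t + h)`, and `z` acts by
`(y, t) ↦ (y, t + l)`. -/
structure SplitBy (n m : ℕ) (G : Type) [Group G] [MulAction G (E n)] (z : G)
    (g : E n → Matrix (Fin n) (Fin n) ℝ) (l : ℝ) (k : E m → Matrix (Fin m) (Fin m) ℝ)
    (Y : E n → E m) (T : E n → ℝ) : Prop where
  pos : 0 < l
  met : Met k
  diffeo : ∃ Φ, Diffeo n m Y T Φ
  metric : ∀ x u v, qf (g x) u v =
    qf (k (Y x)) (fderiv ℝ Y x u) (fderiv ℝ Y x v) + fderiv ℝ T x u * fderiv ℝ T x v
  deck : ∀ a : G, ∃ (f : E m → E m) (h : ℝ), ∀ x, Y (a • x) = f (Y x) ∧ T (a • x) = T x + h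
  vert : ∀ x, Y (z • x) = Y x ∧ T (z • x) = T x + l

/-- the metric `g` of the manifold `R^(m+1) / G` is split along the element `z` of `G` -/
def SplitAlong (m : ℕ) (G : Type) [Group G] [MulAction G (E (m + 1))] (z : G)
    (g : E (m + 1) → Matrix (Fin (m + 1)) (Fin (m + 1)) ℝ) : Prop :=
  ∃ (l : ℝ) (k : E m → Matrix (Fin m) (Fin m) ℝ) (Y : E (m + 1) → E m) (T : E (m + 1) → ℝ),
    SplitBy (m + 1) m G z g l k Y T

/-- A family `g s`, `s` in the topological space `S`, of metrics without conjugate points of the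
manifold `R^n / G`, continuous in the `C^∞` topology: all derivatives (in `x`) of the coefficients
are continuous functions of `(s, x)`. -/
structure Family (n : ℕ) (G : Type) [Group G] [MulAction G (E n)] (S : Type)
    [TopologicalSpace S] (g : S → E n → Matrix (Fin n) (Fin n) ℝ) : Prop where
  met : ∀ s, Met (g s)
  inv : ∀ s, Inv G (g s)
  noConj : ∀ s, NoConj (g s)
  cont : ∀ (k : ℕ) (i j : Fin n),
    Continuous fun p : S × E n => iteratedFDeriv ℝ k (fun x => g p.1 x i j) p.2

end Pool.Agent.Mx
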