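import Pool.Agent.Work.MP_13b5d9_gt.LQ.TStmts

set_option autoImplicit false

/-!
# MP_13b5d9_gt, block LQ, part K (the set of the metrics which are split along `z` is closed in the
space of the metrics without conjugate points; component theorem): statements, each with its complete
proof

All statements of the blocks M, NC and NG of MP_25cd3b_gt are theorems: import
`Pool.Agent.Work.MP_25cd3b_gt.NG.All` and use them freely; `StRX` of part R and `TX` of part T may be used
as hypotheses (theorems `LQR.pr_RX`, `LQT.pr_TX`).  Notation: `ex_s x v = expo (Φ s) (F s) x v`.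
-/

open MeasureTheory Set Filter Topology
open scoped ContDiff ENNReal
open Pool.Agent.Work.MP_c9f990_an.Al (IsFlow)

namespace Pool.Agent.LQK

open Pool.Agent.MLS Pool.Agent.EC Pool.Agent.STR Pool.Agent.DR Pool.Agent.LQR Pool.Agent.LQT

/-- a continuous family of metrics without conjugate points, continuous in the `C^∞` topology -/
structure CF (n : ℕ) (G : Type) [Group G] [MulAction G (E n)] (S : Type) [TopologicalSpace S]
    (g : S → Form n) : Prop where
  riem : ∀ s, Riem (g s)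
  inv : ∀ s, MLS.Inv G (g s)
  noc : ∀ s, NoConj (g s)
  cts : ∀ i : ℕ, Continuous (fun p : S × E n => iteratedFDeriv ℝ i (g p.1).val p.2)

/-- openness of the split metrics -/
def Opn (m : ℕ) (G : Type) [Group G] [MulAction G (E (m + 1))] (z : G) : Prop :=
  ∀ g0 : Form (m + 1), Riem g0 → Inv G g0 → NoConj g0 → Sp m G z g0 →
  ∃ r : ℕ, ∀ g : Form (m + 1), Riem g → Inv G g → NoConj g → Near r g g0 → Sp m G z g

/-- AFFINE POTENTIAL IMPLIES PARALLEL.  Let `B x u w = g x (DV u + Γ(u, V), w)`.  Symmetric: it is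
`D²τ (u, w) - g (V, Γ(u, w))` (differentiate `Axis.grad`: `D²τ(x)(u)(w) = Dg(u)(V, w) + g (DV u, w)`, and
`Dg(u)(V, w) = g (Γ(u, V), w) + g (V, Γ(u, w))`, `NgMet` or `NcGa`), and `D²τ`, `Γ` are symmetric.
`B x v v = 0`: let `c t = ex (x, t v)`, a geodesic with `c 0 = x`, `c' 0 = v` (`StGeo1`, `NcExp`, `StOp`).
`τ (c t) = τ x + t g (V x, v)` by hypothesis; its derivative `g (V c, c')` is constant, and the derivative
of that at `0` is `g (DV v + Γ(v, V), v) + g (V, c'' + Γ(c', c')) = B x v v` (product rule as in `NgMet`;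
`NcGeo`).  Polarisation: `B = 0`; take `w = DV u + Γ(u, V)`, `Riem`. -/
def StKAf : Prop := ∀ (n : ℕ) (G : Type) [Group G] [MulAction G (E n)] (g : Form n) (z : G) (l : ℝ)
  (V : E n → E n) (τ : E n → ℝ) (ψ : ℝ → E n → E n), Riem g → Axis n G g z l V τ ψ →
  ∀ (φ : ℝ → W n → W n) (M : ℝ → W n → W n →L[ℝ] W n), IsFlow (XH (Hm g)) φ M →
  (∀ x v : E n, τ (expo φ g x v) = τ x + g.val x (V x) v) →
  ∀ x u, fderiv ℝ V x u + Ga g x u (V x) = 0

/-- Canonical fields of a family: pointwise convergence.  `F` a family of invariant metrics, `F 0` and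
`F (2^(-j))` without conjugate points.  `StRExp`: `ex_s x v` is jointly smooth.  `W_j = l_j V_j(x)`
satisfies `ex_(s_j) x W_j = z x` (`s_j = 2^(-j)`; the curve `t ↦ ψ_j t x` is a geodesic with
velocity `V_j x` at `0`: `NcGx` with `s = 0`, `t = l_j`; `Axis.geo`, `ode`, `zero`, `period`) and `W_0 = l_0
V_0(x)`, `ex_0 x W_0 = z x`.  BOUNDED: `nrm (F s) x W_j = gd (F s) x (z x)` (`NcDist`) is at most the length
of the segment from `x` to `z x` (`StGd`), which is bounded for `|s| ≤ 1`, and `‖v‖ ≤ C nrm (F s) x v` for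
`|s| ≤ 1` (the continuous function `(s, v) ↦ (F s) x v v` is positive on the compact set `[-1,1] x`
sphere).  Every cluster point `W` of `W_j` satisfies `ex_0 x W = z x` (continuity), so `W = W_0`
(`NcOne`, `NcInj`).  So `W_j → W_0` (`tendsto_of_subseq_tendsto`, compactness of a ball);
`l_j = nrm (F s_j) x W_j → nrm (F 0) x W_0 = l_0` (`Axis.unit`, `pos`), so `V_j x → V_0 x`. -/
def StKCv : Prop := ∀ (n : ℕ) (G : Type) [Group G] [MulAction G (E n)], Cocompact n G →
  ∀ F : ℝ → Form n, Fam n F → (∀ s, Inv G (F s)) → NoConj (F 0) → (∀ j, NoConj (F (sj j))) →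
  ∀ (z : G) (l : ℕ → ℝ) (V : ℕ → E n → E n) (τ : ℕ → E n → ℝ) (ψ : ℕ → ℝ → E n → E n),
  (∀ j, Axis n G (F (sj j)) z (l j) (V j) (τ j) (ψ j)) →
  ∀ (l0 : ℝ) (V0 : E n → E n) (τ0 : E n → ℝ) (ψ0 : ℝ → E n → E n),
  Axis n G (F 0) z l0 V0 τ0 ψ0 → Tendsto l atTop (𝓝 l0) ∧
  ∀ x, Tendsto (fun j => V j x) atTop (𝓝 (V0 x))

/-- Potentials (uses `StKCv`).  `τ_j y - τ_j x = ∫_0^1 (F s_j)(x + r (y - x))(V_j(..), y - x) dr`
(`Axis.grad`); for `y_j → y` the integrands at `y_j` ... more simply: (1) for fixed `y` the integrands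
converge for every `r` (`StKCv`, `F` is jointly continuous) and are bounded: `|g (V, w)| ≤ nrm V nrm w =
nrm w` (Cauchy-Schwarz, `unit`), bounded for `|s| ≤ 1` on the segment; dominated convergence.
(2) `|τ_j y_j - τ_j y| ≤ C ‖y_j - y‖` by the same formula on the segment from `y` to `y_j` (in a
ball). -/
def StKT : Prop := ∀ (n : ℕ) (G : Type) [Group G] [MulAction G (E n)], Cocompact n G →
  ∀ F : ℝ → Form n, Fam n F → (∀ s, Inv G (F s)) → NoConj (F 0) → (∀ j, NoConj (F (sj j))) →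
  ∀ (z : G) (l : ℕ → ℝ) (V : ℕ → E n → E n) (τ : ℕ → E n → ℝ) (ψ : ℕ → ℝ → E n → E n),
  (∀ j, Axis n G (F (sj j)) z (l j) (V j) (τ j) (ψ j)) →
  ∀ (l0 : ℝ) (V0 : E n → E n) (τ0 : E n → ℝ) (ψ0 : ℝ → E n → E n),
  Axis n G (F 0) z l0 V0 τ0 ψ0 → ∀ (x y : E n) (yj : ℕ → E n), Tendsto yj atTop (𝓝 y) →
  Tendsto (fun j => τ j (yj j) - τ j x) atTop (𝓝 (τ0 y - τ0 x))

/-- CLOSED along families (uses `StRExp`, `StKCv`, `StKT`, `TEh`, `StKAf`, `STR.StAx`).  Choose the data
of `Par` of `F (sj j)`; `F 0` has a canonical field by `STR.StAx`.  `τ_j (ex_(s_j) x v) - τ_j x =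
(F s_j)(x)(V_j x, v)` (`TEh`); `ex_(s_j) x v → ex_0 x v` (`StRExp`; `sj j → 0`), so in the limit
`τ_0 (ex_0 x v) - τ_0 x = (F 0)(x)(V_0 x, v)` (`StKT`, `StKCv`); `StKAf`. -/
def StKCl : Prop := ∀ (n : ℕ) (G : Type) [Group G] [MulAction G (E n)], Cocompact n G →
  ∀ F : ℝ → Form n, Fam n F → (∀ s, Inv G (F s)) → NoConj (F 0) → (∀ j, NoConj (F (sj j))) →
  ∀ z : G, z ≠ 1 → (∀ a : G, a * z = z * a) → (∀ j, Par n G z (F (sj j))) → Par n G z (F 0)

/-- CLOSED (uses `StKCl`, `StRCur`).  For every `j` choose `g_j` split with `Near r_j g_j g0`, `r_j ≥ j`,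
`1 / (r_j + 1) ≤ 2^(-j^2)`; `StRCur` gives a family `F` with `F 0 = g0`, `F (2^(-j)) = g_j`, all invariant
(convex combinations). -/
def StKSq : Prop := ∀ (n : ℕ) (G : Type) [Group G] [MulAction G (E n)], Cocompact n G →
  ∀ z : G, z ≠ 1 → (∀ a : G, a * z = z * a) → ∀ g0 : Form n, Riem g0 → Inv G g0 → NoConj g0 →
  (∀ r : ℕ, ∃ g : Form n, Riem g ∧ Inv G g ∧ NoConj g ∧ Near r g g0 ∧ Par n G z g) → Par n G z g0

/-- Continuous families are close at close parameters.  For `i ≤ r` the function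
`(s, y) ↦ iteratedFDeriv i (g s) y - iteratedFDeriv i (g s0) y` is continuous and `0` for `s = s0`; tube
lemma for the closed ball of radius `r` (`IsCompact.eventually_forall_of_forall_eventually`), finitely
many `i`.  (`iteratedFDeriv` of a difference of smooth functions.) -/
def StKNb : Prop := ∀ (n : ℕ) (G : Type) [Group G] [MulAction G (E n)] (S : Type)
  [TopologicalSpace S] (g : S → Form n), CF n G S g → ∀ (r : ℕ) (s0 : S),
  ∀ᶠ s in 𝓝 s0, Near r (g s) (g s0)

/-- THE MAIN THEOREM (uses `StKSq`, `StKNb`, `TPS`, `TSP`).  In a continuous family of metrics without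
conjugate points (for instance the space of all of them with the `C^∞` topology) the set `Z` of the
parameters of the metrics which are split along `z` is open and closed.  OPEN: `Opn` and `StKNb`
(`isOpen_iff_mem_nhds`).  CLOSED: if `s0` is in the closure, every neighbourhood
`{s | Near r (g s) (g s0)}` (`StKNb`) contains a point of `Z`; `TSP`, `StKSq`, `TPS`
(`closure_subset_iff_isClosed` or `isClosed_of_closure_subset`). -/
def StKFin : Prop := ∀ (m : ℕ) (G : Type) [Group G] [MulAction G (E (m + 1))],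
  Cocompact (m + 1) G → ∀ z : G, z ≠ 1 → (∀ a : G, a * z = z * a) → Opn m G z →
  ∀ (S : Type) [TopologicalSpace S] (g : S → Form (m + 1)),
  CF (m + 1) G S g → IsClopen {s : S | Sp m G z (g s)}

end Pool.Agent.LQK
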