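import Pool.Agent.Work.MP_13b5d9_gt.LQ.MxSplit
import Pool.Agent.Work.MP_13b5d9_gt.LQ.KStmts
import Pool.Agent.Work.MP_25cd3b_gt.Mx.Bridge
import Pool.Agent.Work.MP_13b5d9_gt.PI.MxNC
import Pool.Agent.Work.MP_25cd3b_gt.NC.All

set_option autoImplicit false
set_option maxSynthPendingDepth 3

/-!
# MP_13b5d9_gt, block LQ: the notions of MxSplit are the notions of TDefs and KStmts
-/

open MeasureTheory Set Filter Topology
open scoped ContDiff

namespace Pool.Agent.Mx

theorem splitAlong_iff (m : ℕ) (G : Type) [Group G] [MulAction G (E (m + 1))] (z : G)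
    (g : E (m + 1) → Matrix (Fin (m + 1)) (Fin (m + 1)) ℝ) (hg : Met g) :
    LQT.Sp m G z (frm g hg) ↔ SplitAlong m G z g := by
  constructor
  · rintro ⟨l, κ, Θ, h⟩
    have hd : ∀ x, HasFDerivAt Θ (fderiv ℝ Θ x) x := fun x =>
      (h.smooth.differentiable (by simp) x).hasFDerivAt
    have h1 : ∀ x u, fderiv ℝ (fun x => (Θ x).1) x u = (fderiv ℝ Θ x u).1 := fun x u => by
      rw [(hd x).fst.fderiv]
      rfl
    have h2 : ∀ x u, fderiv ℝ (fun x => (Θ x).2) x u = (fderiv ℝ Θ x u).2 := fun x u => by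
      rw [(hd x).snd.fderiv]
      rfl
    refine ⟨l, MLS.gm κ, fun x => (Θ x).1, fun x => (Θ x).2, h.pos, met_gm κ h.riem,
      ⟨fun y t => Θ.symm (y, t), contDiff_fst.comp h.smooth, contDiff_snd.comp h.smooth,
        h.smooth_symm, fun x => Θ.symm_apply_apply x, fun y t => ?_, fun y t => ?_⟩,
      fun x u v => ?_, fun a => ?_, fun x => ?_⟩
    · show (Θ (Θ.symm (y, t))).1 = y
      rw [Θ.apply_symm_apply]
    · show (Θ (Θ.symm (y, t))).2 = t
      rw [Θ.apply_symm_apply]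
    · rw [← frm_val g hg, ← val_eq_sum, h1, h1, h2, h2]
      exact h.metric x u v
    · obtain ⟨f, c, hf⟩ := h.deck a
      refine ⟨f, c, fun x => ?_⟩
      show (Θ (a • x)).1 = f (Θ x).1 ∧ (Θ (a • x)).2 = (Θ x).2 + c
      rw [hf x]
      exact ⟨rfl, rfl⟩
    · have h3 := h.zt x
      show (Θ (z • x)).1 = (Θ x).1 ∧ (Θ (z • x)).2 = (Θ x).2 + l
      rw [h3]
      exact ⟨rfl, rfl⟩
  · rintro ⟨l, k, Y, T, h⟩
    obtain ⟨Φ, hΦ⟩ := h.diffeo
    have hs : ContDiff ℝ ∞ (fun x => (Y x, T x)) := hΦ.smoothY.prodMk hΦ.smoothT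
    refine ⟨l, frm k h.met, ⟨fun x => (Y x, T x), fun p => Φ p.1 p.2, fun x => hΦ.left x,
      fun p => Prod.ext (hΦ.rightY p.1 p.2) (hΦ.rightT p.1 p.2)⟩, h.pos, frm_riem k h.met, hs,
      hΦ.smoothInv, fun x u v => ?_, fun a => ?_, fun x => ?_⟩
    · have hd : fderiv ℝ (fun x => (Y x, T x)) x = (fderiv ℝ Y x).prod (fderiv ℝ T x) :=
        ((hΦ.smoothY.differentiable (by simp) x).hasFDerivAt.prodMk
          (hΦ.smoothT.differentiable (by simp) x).hasFDerivAt).fderiv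
      show (frm g hg).val x u v = (frm k h.met).val (Y x) (fderiv ℝ (fun x => (Y x, T x)) x u).1
        (fderiv ℝ (fun x => (Y x, T x)) x v).1 + (fderiv ℝ (fun x => (Y x, T x)) x u).2 *
        (fderiv ℝ (fun x => (Y x, T x)) x v).2
      rw [frm_val, frm_val, hd]
      exact h.metric x u v
    · obtain ⟨f, c, hf⟩ := h.deck a
      exact ⟨f, c, fun x => Prod.ext (hf x).1 (hf x).2⟩
    · exact Prod.ext (h.vert x).1 (h.vert x).2

/-- derivatives of the form -/
theorem iter_frm {n : ℕ} (g : E n → Matrix (Fin n) (Fin n) ℝ) (hg : Met g) (k : ℕ) (x : E n) :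
    iteratedFDeriv ℝ k (frm g hg).val x = ∑ i, ∑ j,
      (ContinuousLinearMap.toSpanSingleton ℝ (Bij i j)).compContinuousMultilinearMap
        (iteratedFDeriv ℝ k (fun x => g x i j) x) := by
  have h1 : ∀ i j, ContDiff ℝ k (fun x => g x i j) := fun i j =>
    (hg.smooth i j).of_le (by exact_mod_cast le_top)
  have h2 : ∀ i j, ContDiff ℝ k (fun x => g x i j • (Bij i j : E n →L[ℝ] E n →L[ℝ] ℝ)) :=
    fun i j => (h1 i j).smul contDiff_const
  have h3 : (frm g hg).val = fun x => ∑ i, ∑ j, g x i j • (Bij i j : E n →L[ℝ] E n →L[ℝ] ℝ) := rfl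
  rw [h3, iteratedFDeriv_fun_sum_apply (fun i _ => (ContDiff.sum fun j _ => h2 i j).contDiffAt)]
  refine Finset.sum_congr rfl fun i _ => ?_
  rw [iteratedFDeriv_fun_sum_apply (fun j _ => (h2 i j).contDiffAt)]
  refine Finset.sum_congr rfl fun j _ => ?_
  exact (ContinuousLinearMap.toSpanSingleton ℝ
    (Bij i j : E n →L[ℝ] E n →L[ℝ] ℝ)).iteratedFDeriv_comp_left (h1 i j).contDiffAt le_rfl

theorem family (n : ℕ) (G : Type) [Group G] [MulAction G (E n)] (S : Type)
    [TopologicalSpace S] (g : S → E n → Matrix (Fin n) (Fin n) ℝ) (h : Family n G S g) :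
    LQK.CF n G S (fun s => frm (g s) (h.met s)) where
  riem := fun s => frm_riem (g s) (h.met s)
  inv := fun s => (inv_iff G (g s) (h.met s)).2 (h.inv s)
  noc := fun s => (noConj_iff MLS.p_NcGa (g s) (h.met s)).2 (h.noConj s)
  cts := fun k => by
    simp only [iter_frm]
    refine continuous_finsetSum _ fun i _ => continuous_finsetSum _ fun j _ => ?_
    exact (ContinuousLinearMap.compContinuousMultilinearMapL ℝ (fun _ : Fin k => E n) ℝ
      (E n →L[ℝ] E n →L[ℝ] ℝ) (ContinuousLinearMap.toSpanSingleton ℝ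
        (Bij i j : E n →L[ℝ] E n →L[ℝ] ℝ))).continuous.comp (h.cont k i j)

end Pool.Agent.Mx
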