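import Pool.Agent.Work.MP_13b5d9_gt.DR.Stmts

set_option autoImplicit false

/-!
# MP_13b5d9_gt, block LQ (local rigidity of products; note 4618 of helper17), sections 0 to 4:
auxiliary definitions

A sequence `g j = dt^2 + h_j` of metrics without conjugate points converges to a product metric
`g0`; `gh j` is the vertical mean of `g j`, `φ j` its geodesic flow.
-/

open MeasureTheory Set Filter Topology
open scoped ContDiff ENNReal
open Pool.Agent.Work.MP_c9f990_an.Al (IsFlow)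

namespace Pool.Agent.LQ

open Pool.Agent.MLS Pool.Agent.EC Pool.Agent.DR

/-- the vertical mean -/
def IsAvg {m : ℕ} (g gh : Form (m + 1)) : Prop :=
  ∀ x u v, gh.val x u v = ∫ s in (0 : ℝ)..1, g.val (x + s • eL) u v

/-- Data without a group: metrics `g j`, periodic in the vertical direction, their vertical means
`gh j` with flows `φ j`, and the limit `g0` with flow `φ0`; convergence of both sequences to `g0`, with
derivatives up to order two. -/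
structure SetA (m : ℕ) (g gh : ℕ → Form (m + 1)) (g0 : Form (m + 1))
    (φ : ℕ → ℝ → W (m + 1) → W (m + 1)) (M : ℕ → ℝ → W (m + 1) → W (m + 1) →L[ℝ] W (m + 1))
    (φ0 : ℝ → W (m + 1) → W (m + 1)) (M0 : ℝ → W (m + 1) → W (m + 1) →L[ℝ] W (m + 1)) : Prop where
  riem : ∀ j, Riem (g j)
  blk : ∀ j, Blk (g j)
  per : ∀ j x, (g j).val (x + eL) = (g j).val x
  avg : ∀ j, IsAvg (g j) (gh j)
  riemh : ∀ j, Riem (gh j)
  blkh : ∀ j, Blk (gh j)
  tinvh : ∀ j, TInv (gh j) eL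
  riem0 : Riem g0
  blk0 : Blk g0
  tinv0 : TInv g0 eL
  c0 : CC (fun j => (g j).val) g0.val
  c1 : ∀ u, CC (fun j x => fderiv ℝ (g j).val x u) (fun x => fderiv ℝ g0.val x u)
  c2 : ∀ u v w u', CC (fun j x => fderiv ℝ (fun y => fderiv ℝ (g j).val y u v w) x u')
    (fun x => fderiv ℝ (fun y => fderiv ℝ g0.val y u v w) x u')
  h0 : CC (fun j => (gh j).val) g0.val
  h1 : ∀ u, CC (fun j x => fderiv ℝ (gh j).val x u) (fun x => fderiv ℝ g0.val x u)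
  h2 : ∀ u v w u', CC (fun j x => fderiv ℝ (fun y => fderiv ℝ (gh j).val y u v w) x u')
    (fun x => fderiv ℝ (fun y => fderiv ℝ g0.val y u v w) x u')
  fl : ∀ j, IsFlow (XH (Hm (gh j))) (φ j) (M j)
  fl0 : IsFlow (XH (Hm g0)) φ0 M0

/-- `B` bounds the derivatives of order `0, 1, 2` of the derivative of `g` in the direction `e` at all
points of `K + R e` -/
structure NBd {m : ℕ} (g : Form (m + 1)) (K : Set (E (m + 1))) (B : ℝ) : Prop where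
  nonneg : 0 ≤ B
  b0 : ∀ x ∈ K, ∀ s : ℝ, ∀ u v, |fderiv ℝ g.val (x + s • eL) eL u v| ≤ B * ‖u‖ * ‖v‖
  b1 : ∀ x ∈ K, ∀ s : ℝ, ∀ u v w,
    |fderiv ℝ (fun y => fderiv ℝ g.val y eL u v) (x + s • eL) w| ≤ B * ‖u‖ * ‖v‖ * ‖w‖
  b2 : ∀ x ∈ K, ∀ s : ℝ, ∀ u v w w',
    |fderiv ℝ (fun y => fderiv ℝ (fun y' => fderiv ℝ g.val y' eL u v) y w) (x + s • eL) w'| ≤
      B * ‖u‖ * ‖v‖ * ‖w‖ * ‖w'‖

/-- the point of phase space lies over `K + R e` and has horizontal energy at most `1` -/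
def Rg {m : ℕ} (gh : Form (m + 1)) (K : Set (E (m + 1))) (z : W (m + 1)) : Prop :=
  (∃ x ∈ K, ∃ s : ℝ, z.1 = x + s • eL) ∧ Hh gh z ≤ 1

/-- size of the derivative of `g` in the direction `e` -/
noncomputable def NN {m : ℕ} (g : Form (m + 1)) (x : E (m + 1)) : ℝ := ‖fderiv ℝ g.val x eL‖

/-- the energy -/
noncomputable def EE {m : ℕ} (χ : E (m + 1) → ℝ) (g : Form (m + 1)) : ℝ := ∫ x, χ x * NN g x ^ 2

/-- the derivative of `g` in the direction `e` at the velocity of `gh` -/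
noncomputable def uq {m : ℕ} (g gh : Form (m + 1)) (z : W (m + 1)) : ℝ := d1 g z.1 (vel gh z)

/-- the second derivative of `g` in the direction `e` at the velocity of `gh` -/
noncomputable def kq {m : ℕ} (g gh : Form (m + 1)) (z : W (m + 1)) : ℝ := d2 g z.1 (vel gh z)

/-- derivative of `g` in the direction `e` at its own velocity -/
noncomputable def dd1 {m : ℕ} (g : Form (m + 1)) (z : W (m + 1)) : ℝ := d1 g z.1 (vel g z)

/-- second derivative of `g` in the direction `e` at its own velocity -/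
noncomputable def dd2 {m : ℕ} (g : Form (m + 1)) (z : W (m + 1)) : ℝ := d2 g z.1 (vel g z)

/-- the bump functions -/
structure Bmp (ψ ϑ w0 ψ1 θ1 : ℝ → ℝ) : Prop where
  psi : Cut ψ (-1) 1
  psi_le : ∀ x, ψ x ≤ 1
  psi_one : ∀ x, |x| ≤ 1 / 2 → ψ x = 1
  th : Cut ϑ (1 / 8) (3 / 8)
  th_le : ∀ x, ϑ x ≤ 1
  th_pos : ∀ x, 1 / 8 < x → x < 3 / 8 → 0 < ϑ x
  cw0 : Cut w0 (-1) 1
  cw0_int : ∫ x, w0 x = 1
  psi1 : Cut ψ1 (-2) 2
  psi1_le : ∀ x, ψ1 x ≤ 1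
  psi1_one : ∀ x, |x| ≤ 1 → ψ1 x = 1
  th1 : Cut θ1 (-1) 1
  th1_le : ∀ x, θ1 x ≤ 1
  th1_one : ∀ x, |x| ≤ 1 / 2 → θ1 x = 1

/-- `(1 + τ^2)^(-1/2)` -/
noncomputable def bet (τ : ℝ) : ℝ := (Real.sqrt (1 + τ ^ 2))⁻¹

/-- first part of the test function -/
noncomputable def phi0 {m : ℕ} (g : Form (m + 1)) (ψ ϑ : ℝ → ℝ) (T : ℝ) (z : W (m + 1)) : ℝ :=
  ψ (ta z / T) * bet (ta z) * ϑ (Hh g z)

/-- tent average along a flow -/
noncomputable def tnt {m : ℕ} (φ : ℝ → W (m + 1) → W (m + 1)) (D : ℝ) (k : W (m + 1) → ℝ)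
    (z : W (m + 1)) : ℝ := ∫ s in (-D)..D, (D - |s|) * k (φ s z)

/-- derivative of the tent average along the flow -/
noncomputable def dtn {m : ℕ} (φ : ℝ → W (m + 1) → W (m + 1)) (D : ℝ) (k : W (m + 1) → ℝ)
    (z : W (m + 1)) : ℝ := (∫ s in (0 : ℝ)..D, k (φ s z)) - ∫ s in (-D)..0, k (φ s z)

/-- coefficient of the second part of the test function -/
noncomputable def cf {m : ℕ} (gh : Form (m + 1)) (ψ ϑ : ℝ → ℝ) (T : ℝ) (z : W (m + 1)) : ℝ :=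
  ψ (ta z / T) * (bet (ta z))⁻¹ * ϑ (Hh gh z)

/-- second part of the test function -/
noncomputable def phi1 {m : ℕ} (g gh : Form (m + 1)) (ψ ϑ : ℝ → ℝ) (T D : ℝ)
    (φ : ℝ → W (m + 1) → W (m + 1)) (z : W (m + 1)) : ℝ :=
  cf gh ψ ϑ T z * tnt φ D (kq g gh) z

/-- the test function -/
noncomputable def phi {m : ℕ} (g gh : Form (m + 1)) (ψ ϑ : ℝ → ℝ) (T D : ℝ)
    (φ : ℝ → W (m + 1) → W (m + 1)) (z : W (m + 1)) : ℝ :=
  phi0 g ψ ϑ T z - 1 / 16 * phi1 g gh ψ ϑ T D φ z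

/-- the weight -/
noncomputable def wT {m : ℕ} (gh : Form (m + 1)) (ψ ϑ : ℝ → ℝ) (T : ℝ) (z : W (m + 1)) : ℝ :=
  ψ (ta z / T) ^ 2 * ϑ (Hh gh z) ^ 2

/-- the quadratic form `V` -/
noncomputable def VQ {m : ℕ} (χ : E (m + 1) → ℝ) (g gh : Form (m + 1)) (ψ ϑ : ℝ → ℝ) (T D : ℝ)
    (φ : ℝ → W (m + 1) → W (m + 1)) : ℝ :=
  ∫ z, χ z.1 * (wT gh ψ ϑ T z * (∫ s in (0 : ℝ)..D, kq g gh (φ s z)) ^ 2)

/-- correlation functions of the horizontal flow -/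
noncomputable def cor {m : ℕ} (χ : E (m + 1) → ℝ) (gh : Form (m + 1)) (w0 ϑ : ℝ → ℝ)
    (φ : ℝ → W (m + 1) → W (m + 1)) (f : W (m + 1) → ℝ) (s r : ℝ) : ℝ :=
  ∫ z, χ z.1 * (w0 (ta z) * ϑ (Hh gh z) ^ 2 * (f (Tr r (zt φ s z)) * f z))

end Pool.Agent.LQ
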