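import Pool.Agent.Work.MP_13b5d9_gt.LQ.Defs
import Pool.Agent.Work.MP_13b5d9_gt.LQ.DefsQ

set_option autoImplicit false

/-!
# MP_13b5d9_gt, block LQ, Theorem Q: statements of the items, each with its complete proof

Notation of the comments: `e = eL`, `τ = ta z`, `v = vel g z`, `v^ = vel gh z`, `H = Hm g z`,
`Hh = Hh g z = H - τ^2/2` (horizontal energy), `T_s = Tr s`, `X f = XX g f`, `X^ f = XX gh f`,
`d1 = dd1 g z`, `d2 = dd2 g z`, `u = uq g gh z`, `k = kq g gh z` (so `k = De u`), `N = NN g z.1`.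
Statements of MP_25cd3b_gt/M/Stmts, EC/Stmts, DR/Stmts (all proved) may be used as hypotheses.
Statements with a group are for one metric; statements with `SetA` are about sequences and contain
no group.  A constant which is chosen before `∀ᶠ j` does not depend on `j`, `T`, `B`.
-/

open MeasureTheory Set Filter Topology
open scoped ContDiff ENNReal
open Pool.Agent.Work.MP_c9f990_an.Al (IsFlow)

namespace Pool.Agent.LQ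

open Pool.Agent.MLS Pool.Agent.EC Pool.Agent.DR

/-! ### 0. averages and the setup -/

/-- Periodicity: `z • x = x + e` has derivative the identity; use `Inv`. -/
def StPer : Prop := ∀ (m : ℕ) (G : Type) [Group G] [MulAction G (E (m + 1))] (g : Form (m + 1)),
  Inv G g → (∃ z : G, ∀ x : E (m + 1), z • x = x + eL) → ∀ x, g.val (x + eL) = g.val x

/-- Vertical means of smooth functions are smooth (differentiate under the integral over a compact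
interval; induction on the order, or joint smoothness of `(x, s) ↦ F (x + s e)`). -/
def StPin : Prop := ∀ (m : ℕ) (F : E (m + 1) → ℝ), ContDiff ℝ ∞ F →
  ContDiff ℝ ∞ (fun x : E (m + 1) => ∫ s in (0 : ℝ)..1, F (x + s • eL)) ∧
  ∀ x w : E (m + 1), fderiv ℝ (fun y : E (m + 1) => ∫ s in (0 : ℝ)..1, F (y + s • eL)) x w =
    ∫ s in (0 : ℝ)..1, fderiv ℝ F (x + s • eL) w

/-- The mean metric exists (uses `StPer`, `StPin`).  `gh.val x = ∫_0^1 g.val (x + s e) ds` (Bochner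
integral of forms); smooth by `contDiff_clm_apply_iff` (twice) and `StPin`; positive definite since
the integrand is continuous and positive; invariant because `a (x + s e) = a x + s e` and
`dac a (x + s e) = dac a x`; `Blk` by integration; `TInv` because `g` is periodic. -/
def StAvE : Prop := ∀ (m : ℕ) (G : Type) [Group G] [MulAction G (E (m + 1))], Vert (m + 1) G eL →
  (∃ z : G, ∀ x : E (m + 1), z • x = x + eL) → ∀ g : Form (m + 1), Riem g → Inv G g → Blk g →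
  ∃ gh : Form (m + 1), IsAvg g gh ∧ Riem gh ∧ Inv G gh ∧ Blk gh ∧ TInv gh eL

/-- Convergence of means (uses `StPin`): `CC F f` implies `CC` of the vertical means (uniform
convergence on the compact segment and its neighbourhood, `CC.unif`). -/
def StAvC : Prop := ∀ (m : ℕ) (F : ℕ → E (m + 1) → ℝ) (f : E (m + 1) → ℝ),
  (∀ j, Continuous (F j)) → CC F f →
  CC (fun j (x : E (m + 1)) => ∫ s in (0 : ℝ)..1, F j (x + s • eL))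
    (fun x : E (m + 1) => ∫ s in (0 : ℝ)..1, f (x + s • eL))

/-- From the interface to `SetA` (uses `StPer`, `StAvE`, `StAvC`, `StPin`, `StFlow`).  Choose `gh j` by
`StAvE` and `φ j` by `StFlow` (with the action `act j`: `letI := act j`).  The convergence of the
iterated derivatives of order `0, 1, 2` gives that of the values, the first and the second
derivatives in fixed directions (`CC.of_locUnif`); for `gh` use `StAvC`, `StPin` and that `g0` does not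
change along `e`. -/
def StSet : Prop := ∀ (m : ℕ) (G : Type) [Group G] (act : ℕ → MulAction G (E (m + 1)))
  (g : ℕ → Form (m + 1)) (g0 : Form (m + 1)) (χ : ℕ → E (m + 1) → ℝ) (S : Set (E (m + 1))),
  SetupQ m G act g g0 χ S → ∃ (gh : ℕ → Form (m + 1)) (φ : ℕ → ℝ → W (m + 1) → W (m + 1))
    (M : ℕ → ℝ → W (m + 1) → W (m + 1) →L[ℝ] W (m + 1)) (φ0 : ℝ → W (m + 1) → W (m + 1))
    (M0 : ℝ → W (m + 1) → W (m + 1) →L[ℝ] W (m + 1)), SetA m g gh g0 φ M φ0 M0 ∧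
    ∀ j, @MLS.Inv (m + 1) G _ (act j) (gh j)

/-- The two bounds: `NB g K' B` with `K' = K + [0, 1] e` gives `NBd g K B` (periodicity;
`iteratedFDeriv` of order `0, 1, 2` evaluated at vectors). -/
def StNB : Prop := ∀ (m : ℕ) (K : Set (E (m + 1))), IsCompact K →
  ∃ K' : Set (E (m + 1)), IsCompact K' ∧ K ⊆ K' ∧
  ∀ g : Form (m + 1), (∀ x, g.val (x + eL) = g.val x) → ∀ B : ℝ, 0 ≤ B → NB g K' B → NBd g K B

/-! ### 1. uniform estimates -/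

/-- Shifts of the vertical momentum (uses `StBas`, `StHd`, `StOp`).  `v(Sh c z) = v + c e`;
`D g(w)(e, .) = 0` and the same for the second derivatives in the direction `e`, so `dd1`, `dd2`,
`qq`, `uq`, `kq` and the second component of `XH` do not change. -/
def StShf : Prop := ∀ (m : ℕ) (g gh : Form (m + 1)), Riem g → Blk g → Riem gh → Blk gh →
  (∀ c z, Hh g (Sh c z) = Hh g z) ∧ (∀ c z, vel g (Sh c z) = vel g z + c • eL) ∧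
  (∀ c z, XH (Hm g) (Sh c z) = XH (Hm g) z + (c • eL, 0)) ∧
  (∀ c z, dd1 g (Sh c z) = dd1 g z) ∧ (∀ c z, dd2 g (Sh c z) = dd2 g z) ∧
  (∀ c z, qq g (Sh c z) = qq g z) ∧ (∀ c z, uq g gh (Sh c z) = uq g gh z) ∧
  (∀ c z, kq g gh (Sh c z) = kq g gh z)

/-- Exact formulas for one metric (uses `StBas`, `StHd`, `StOp`, `StTr0`, `StShf`).
`X τ = inner (XH).2 e = 1/2 D g(e)(v, v)`; `X H = 0`; `Hh = H - τ^2/2`; at fixed momentum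
`D_e H = - 1/2 D g(e)(v, v)` (`StHd`: `- D_x H w = inner (XH).2 w`). -/
def StXt : Prop := ∀ (m : ℕ) (g : Form (m + 1)), Riem g → Blk g →
  ContDiff ℝ ∞ (ta (m := m)) ∧ ContDiff ℝ ∞ (Hh g) ∧
  (∀ z, XX g ta z = 1 / 2 * dd1 g z) ∧ (∀ z, XX g (Hm g) z = 0) ∧
  (∀ z, XX g (Hh g) z = -(1 / 2 * ta z * dd1 g z)) ∧ (∀ z : W (m + 1), De ta z = 0) ∧
  (∀ z, De (Hh g) z = -(1 / 2 * dd1 g z)) ∧ (∀ z, 0 ≤ Hh g z) ∧
  (∀ z, Hm g z = Hh g z + ta z ^ 2 / 2) ∧ (TInv g eL → ∀ z, XX g (Hh g) z = 0)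

/-- `De u = k`, smoothness and invariance of `u`, `k`, and `T_1`-periodicity (uses `StOp`, `StLftA`,
`StLft`, `StDde`).  `v^` does not change along `e` at fixed momentum (`TInv gh`); the velocity of
`lft gh a z` is `D v^`. -/
def StDeu : Prop := ∀ (m : ℕ) (g gh : Form (m + 1)), Riem g → Blk g → Riem gh → Blk gh →
  TInv gh eL → (∀ x, g.val (x + eL) = g.val x) →
  ContDiff ℝ ∞ (uq g gh) ∧ ContDiff ℝ ∞ (kq g gh) ∧ (∀ z, De (uq g gh) z = kq g gh z) ∧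
  (∀ z, uq g gh (Tr 1 z) = uq g gh z) ∧ (∀ z, kq g gh (Tr 1 z) = kq g gh z) ∧
  (∀ z, ∫ s in (0 : ℝ)..1, uq g gh (Tr s z) = 0) ∧
  ∀ (G : Type) [Group G] [MulAction G (E (m + 1))], Cocompact (m + 1) G → Vert (m + 1) G eL →
    Inv G g → Inv G gh → GInv G gh (uq g gh) ∧ GInv G gh (kq g gh)

/-- Convergence of `iop`, velocities, energies, Hamiltonian fields (uses `StOp`, `StHd`; model:
`DR.StCvA`, `DR.StCv`). -/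
def StCvH : Prop := ∀ (m : ℕ) (g gh : ℕ → Form (m + 1)) (g0 : Form (m + 1))
  (φ : ℕ → ℝ → W (m + 1) → W (m + 1)) (M : ℕ → ℝ → W (m + 1) → W (m + 1) →L[ℝ] W (m + 1))
  (φ0 : ℝ → W (m + 1) → W (m + 1)) (M0 : ℝ → W (m + 1) → W (m + 1) →L[ℝ] W (m + 1)),
  SetA m g gh g0 φ M φ0 M0 →
  CC (fun j => iop (g j)) (iop g0) ∧ CC (fun j => iop (gh j)) (iop g0) ∧
  CC (fun j => vel (g j)) (vel g0) ∧ CC (fun j => vel (gh j)) (vel g0) ∧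
  CC (fun j => Hm (g j)) (Hm g0) ∧ CC (fun j => Hm (gh j)) (Hm g0) ∧
  CC (fun j => XH (Hm (g j))) (XH (Hm g0)) ∧ CC (fun j => XH (Hm (gh j))) (XH (Hm g0)) ∧
  CC (fun j => Hh (g j)) (Hh g0) ∧ CC (fun j => Hh (gh j)) (Hh g0)

/-- Convergence of the derivative of the Hamiltonian field (uses `StCvH`, `StOp`, `StHd`).
For one metric and `w = (w1, w2)`: `D vel(z) w = iop (w2 - sh (D g(w1) v))` (differentiate
`op g x v = p`), and the second component of `XH` is `∑ i, 1/2 D g(e_i)(v, v) e_i`, with derivative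
`∑ i, (1/2 D(D g(e_i)(v, v))(w1) + D g(e_i)(v, D vel w)) e_i`; expand the second derivatives of `g` in
the basis (`h2`). -/
def StCvD : Prop := ∀ (m : ℕ) (g gh : ℕ → Form (m + 1)) (g0 : Form (m + 1))
  (φ : ℕ → ℝ → W (m + 1) → W (m + 1)) (M : ℕ → ℝ → W (m + 1) → W (m + 1) →L[ℝ] W (m + 1))
  (φ0 : ℝ → W (m + 1) → W (m + 1)) (M0 : ℝ → W (m + 1) → W (m + 1) →L[ℝ] W (m + 1)),
  SetA m g gh g0 φ M φ0 M0 →
  CC (fun j (p : W (m + 1) × W (m + 1)) => fderiv ℝ (XH (Hm (gh j))) p.1 p.2)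
    (fun p => fderiv ℝ (XH (Hm g0)) p.1 p.2) ∧
  CC (fun j (p : W (m + 1) × W (m + 1)) => fderiv ℝ (vel (gh j)) p.1 p.2)
    (fun p => fderiv ℝ (vel g0) p.1 p.2)

/-- Bounds for functions which do not change under shifts of the vertical momentum (uses `StCvH`,
`StShf`, `StSub`).  If `Rg (gh j) K z` let `z' = Tr (-n) (Sh (-τ) z)` with an integer `n` such that
`z'.1 ∈ K + [0, 1] e` (compact); then `F j z' = F j z`, `ta z' = 0` and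
`Hm (gh j) z' = Hh (gh j) z ≤ 1` (`Hh` is invariant under `Sh` and `Tr`).  For large `j` all such `z'` lie
in a compact set independent of `j`: the momentum is bounded, because `2 Hm (gh j) z' =
gh(v, v) ≥ c ‖v‖^2` and `‖p‖ ≤ C ‖v‖` uniformly on a compact set by `CC`.  Use `CC.bdd`. -/
def StHB : Prop := ∀ (m : ℕ) (g gh : ℕ → Form (m + 1)) (g0 : Form (m + 1))
  (φ : ℕ → ℝ → W (m + 1) → W (m + 1)) (M : ℕ → ℝ → W (m + 1) → W (m + 1) →L[ℝ] W (m + 1))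
  (φ0 : ℝ → W (m + 1) → W (m + 1)) (M0 : ℝ → W (m + 1) → W (m + 1) →L[ℝ] W (m + 1)),
  SetA m g gh g0 φ M φ0 M0 → ∀ K : Set (E (m + 1)), IsCompact K →
  (∃ Q : Set (W (m + 1)), IsCompact Q ∧ ∀ᶠ j in atTop, ∀ z, Rg (gh j) K z →
    ∃ n : ℤ, Tr (n : ℝ) (Sh (-ta z) z) ∈ Q) ∧
  ∀ (V : Type) [NormedAddCommGroup V] (F : ℕ → W (m + 1) → V) (F0 : W (m + 1) → V), CC F F0 →
  (∀ j c z, F j (Sh c z) = F j z) → (∀ j z, F j (Tr 1 z) = F j z) →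
  ∃ C, 0 < C ∧ ∀ᶠ j in atTop, ∀ z, Rg (gh j) K z → ‖F j z‖ ≤ C

/-- Horizontal velocities and derivatives of the energies (uses `StHB`, `StShf`, `StCvH`, `StCvD`,
`StOp`, `StBas`, `StHd`).  Apply `StHB` to `vel - ta e` and to
`z ↦ D(Hh gh)(z)`, which is `w ↦ inner w2 (v^ - τ e) - inner w1 (XH).2` (as a vector), and to `iop`.
Also `‖D vel(gh)(z) w‖ ≤ C ‖w‖`: it is `iop (w2 - sh (D gh(w1) (v^ - τ e)))`. -/
def StHP : Prop := ∀ (m : ℕ) (g gh : ℕ → Form (m + 1)) (g0 : Form (m + 1))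
  (φ : ℕ → ℝ → W (m + 1) → W (m + 1)) (M : ℕ → ℝ → W (m + 1) → W (m + 1) →L[ℝ] W (m + 1))
  (φ0 : ℝ → W (m + 1) → W (m + 1)) (M0 : ℝ → W (m + 1) → W (m + 1) →L[ℝ] W (m + 1)),
  SetA m g gh g0 φ M φ0 M0 → ∀ K : Set (E (m + 1)), IsCompact K → ∃ C, 0 < C ∧
  ∀ᶠ j in atTop, ∀ z, Rg (gh j) K z →
    ‖vel (g j) z - ta z • eL‖ ≤ C ∧ ‖vel (gh j) z - ta z • eL‖ ≤ C ∧
    ‖(XH (Hm (gh j)) z).2‖ ≤ C ∧ ‖iop (g j) z.1‖ ≤ C ∧ ‖iop (gh j) z.1‖ ≤ C ∧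
    (∀ w, |fderiv ℝ (Hh (gh j)) z w| ≤ C * ‖w‖) ∧ (∀ w, ‖fderiv ℝ (vel (gh j)) z w‖ ≤ C * ‖w‖)

/-- `g - gh` is small (one metric): `g(x) - g(x + s e) = - ∫_0^s D g(x + r e)(e) dr` and `gh` is the mean
over `s ∈ [0, 1]`; same for the first derivative (interchange of the derivatives: symmetry of the
second derivative, and `StPin` for the derivative of the mean). -/
def StDg : Prop := ∀ (m : ℕ) (g gh : Form (m + 1)), IsAvg g gh → (∀ x, g.val (x + eL) = g.val x) →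
  ∀ (K : Set (E (m + 1))) (B : ℝ), NBd g K B → ∀ x ∈ K, ∀ s : ℝ,
  (∀ u v, |g.val (x + s • eL) u v - gh.val (x + s • eL) u v| ≤ B * ‖u‖ * ‖v‖) ∧
  ∀ w u v, |fderiv ℝ g.val (x + s • eL) w u v - fderiv ℝ gh.val (x + s • eL) w u v| ≤
    B * ‖w‖ * ‖u‖ * ‖v‖

/-- Differences (uses `StDg`, `StHP`, `StOp`, `StHd`, `StBas`).  `v - v^ = iop g (op gh - op g) v^`, and
`(op gh - op g) e = 0`, so `v^` may be replaced by `v^ - τ e`; `2 (Hh g - Hh gh) = inner p (v - v^)`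
and `inner e (v - v^) = 0` (both are `τ`), so `p` may be replaced by `p - τ e = op gh (v^ - τ e)`;
`XH` by `StHd`. -/
def StDf : Prop := ∀ (m : ℕ) (g gh : ℕ → Form (m + 1)) (g0 : Form (m + 1))
  (φ : ℕ → ℝ → W (m + 1) → W (m + 1)) (M : ℕ → ℝ → W (m + 1) → W (m + 1) →L[ℝ] W (m + 1))
  (φ0 : ℝ → W (m + 1) → W (m + 1)) (M0 : ℝ → W (m + 1) → W (m + 1) →L[ℝ] W (m + 1)),
  SetA m g gh g0 φ M φ0 M0 → ∀ K : Set (E (m + 1)), IsCompact K → ∃ C, 0 < C ∧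
  ∀ᶠ j in atTop, ∀ B, NBd (g j) K B → ∀ z, Rg (gh j) K z →
    ‖vel (g j) z - vel (gh j) z‖ ≤ C * B ∧ |Hh (g j) z - Hh (gh j) z| ≤ C * B ∧
    ‖XH (Hm (g j)) z - XH (Hm (gh j)) z‖ ≤ C * B

/-- Comparison of the energies for large `j`, without `B` (uses `StHB`, `StCvH`, `StShf`): the function
`Hh (g j) - Hh (gh j)` is invariant under `Sh` and `Tr 1` and converges to `0` uniformly on the
compact set `Q` of `StHB`.  (In the case `Hh (g j) z ≤ 1/2`: the same argument with `g j` in place of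
`gh j` shows that `Tr n (Sh (-τ) z)` is in a compact set independent of `j`.) -/
def StHc : Prop := ∀ (m : ℕ) (g gh : ℕ → Form (m + 1)) (g0 : Form (m + 1))
  (φ : ℕ → ℝ → W (m + 1) → W (m + 1)) (M : ℕ → ℝ → W (m + 1) → W (m + 1) →L[ℝ] W (m + 1))
  (φ0 : ℝ → W (m + 1) → W (m + 1)) (M0 : ℝ → W (m + 1) → W (m + 1) →L[ℝ] W (m + 1)),
  SetA m g gh g0 φ M φ0 M0 → ∀ K : Set (E (m + 1)), IsCompact K → ∀ ε > 0,
  ∀ᶠ j in atTop, ∀ z, (∃ x ∈ K, ∃ s : ℝ, z.1 = x + s • eL) →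
    (Hh (g j) z ≤ 1 / 2 ∨ Hh (gh j) z ≤ 1 → |Hh (g j) z - Hh (gh j) z| ≤ ε)

/-- Pointwise bounds by `N` (uses `StHP`, `StShf`, `StOp`): `dd1 g z = D g(e)(v - τ e, v - τ e)` etc.
The last one: `NN g (x + s e) ≤ B` (`opNorm_le_bound₂`). -/
def StPw : Prop := ∀ (m : ℕ) (g gh : ℕ → Form (m + 1)) (g0 : Form (m + 1))
  (φ : ℕ → ℝ → W (m + 1) → W (m + 1)) (M : ℕ → ℝ → W (m + 1) → W (m + 1) →L[ℝ] W (m + 1))
  (φ0 : ℝ → W (m + 1) → W (m + 1)) (M0 : ℝ → W (m + 1) → W (m + 1) →L[ℝ] W (m + 1)),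
  SetA m g gh g0 φ M φ0 M0 → ∀ K : Set (E (m + 1)), IsCompact K → ∃ C, 0 < C ∧
  ∀ᶠ j in atTop, ∀ z, Rg (gh j) K z →
    |dd1 (g j) z| ≤ C * NN (g j) z.1 ∧ |uq (g j) (gh j) z| ≤ C * NN (g j) z.1 ∧
    0 ≤ qq (g j) z ∧ qq (g j) z ≤ C * NN (g j) z.1 ^ 2 ∧ ∀ B, NBd (g j) K B → NN (g j) z.1 ≤ B

/-- Pointwise bounds by `B` (uses `StHP`, `StDf`, `StShf`, `StPw`).  `dd2`, `kq` are values of
`D(y ↦ D g(y)(e)(u, v))(x)(e)` at `v - τ e`, `v^ - τ e`; the derivatives of `u`, `k` by the chain rule,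
`NBd` and the bound of `D vel(gh)` in `StHP`. -/
def StPb : Prop := ∀ (m : ℕ) (g gh : ℕ → Form (m + 1)) (g0 : Form (m + 1))
  (φ : ℕ → ℝ → W (m + 1) → W (m + 1)) (M : ℕ → ℝ → W (m + 1) → W (m + 1) →L[ℝ] W (m + 1))
  (φ0 : ℝ → W (m + 1) → W (m + 1)) (M0 : ℝ → W (m + 1) → W (m + 1) →L[ℝ] W (m + 1)),
  SetA m g gh g0 φ M φ0 M0 → ∀ K : Set (E (m + 1)), IsCompact K → ∃ C, 0 < C ∧
  ∀ᶠ j in atTop, ∀ B, NBd (g j) K B → ∀ z, Rg (gh j) K z →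
    |dd2 (g j) z| ≤ C * B ∧ |kq (g j) (gh j) z| ≤ C * B ∧ |uq (g j) (gh j) z| ≤ C * B ∧
    |dd2 (g j) z - kq (g j) (gh j) z| ≤ C * B ^ 2 ∧
    (∀ w, |fderiv ℝ (uq (g j) (gh j)) z w| ≤ C * B * ‖w‖) ∧
    (∀ w, |fderiv ℝ (kq (g j) (gh j)) z w| ≤ C * B * ‖w‖) ∧
    |XX (gh j) (uq (g j) (gh j)) z - ta z * De (uq (g j) (gh j)) z| ≤ C * B ∧
    |XX (gh j) (kq (g j) (gh j)) z - ta z * De (kq (g j) (gh j)) z| ≤ C * B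

/-! ### 2. the flows of the mean metrics -/

/-- Continuous dependence on the equation.  Fix `(s0, z0)`; let `T0 = |s0| + 1`, let `K` be the
closed `1`-neighbourhood of the compact set `{φ0 s z0 : |s| ≤ T0}` (compact) and `Λ` a Lipschitz
constant of `F0` on `K`, in the form: `‖F0 a - F0 b‖ ≤ Λ ‖a - b‖` for all `a ∈ K` and `b = φ0 s z0`
(mean value inequality on the ball of radius `1` about `b`).  For `z` near `z0` and `j` large, as long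
as `φ j s z ∈ K`: `‖φ j s z - φ0 s z0‖ ≤ (‖z - z0‖ + T0 sup_K ‖F j - F0‖) exp(Λ T0) < 1/2` (Gronwall,
`norm_le_gronwallBound_of_norm_deriv_right_le`), so the solution never leaves `K` (the set of times
up to which it stays in the open neighbourhood is open and closed).  Negative times: reverse time. -/
def StODE : Prop := ∀ (Q : Type) [NormedAddCommGroup Q] [NormedSpace ℝ Q]
  [FiniteDimensional ℝ Q] (F : ℕ → Q → Q) (F0 : Q → Q), CC F F0 → ContDiff ℝ 1 F0 →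
  ∀ (φ : ℕ → ℝ → Q → Q) (φ0 : ℝ → Q → Q), (∀ j z, φ j 0 z = z) → (∀ z, φ0 0 z = z) →
  (∀ j z t, HasDerivAt (fun s => φ j s z) (F j (φ j t z)) t) →
  (∀ z t, HasDerivAt (fun s => φ0 s z) (F0 (φ0 t z)) t) →
  CC (fun j (p : ℝ × Q) => φ j p.1 p.2) (fun p => φ0 p.1 p.2)

/-- Convergence of the flows and of their derivatives (uses `StODE`, `StCvH`, `StCvD`, `StTr0`,
`StOp`).  The second one: `(φ, M w)` solves the equation of the field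
`(z, w) ↦ (F z, D F(z) w)` on `W x W` (`IsFlow.Mode`), which is smooth for `g0`. -/
def StFlC : Prop := ∀ (m : ℕ) (g gh : ℕ → Form (m + 1)) (g0 : Form (m + 1))
  (φ : ℕ → ℝ → W (m + 1) → W (m + 1)) (M : ℕ → ℝ → W (m + 1) → W (m + 1) →L[ℝ] W (m + 1))
  (φ0 : ℝ → W (m + 1) → W (m + 1)) (M0 : ℝ → W (m + 1) → W (m + 1) →L[ℝ] W (m + 1)),
  SetA m g gh g0 φ M φ0 M0 →
  CC (fun j (p : ℝ × W (m + 1)) => φ j p.1 p.2) (fun p => φ0 p.1 p.2) ∧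
  CC (fun j (p : ℝ × (W (m + 1) × W (m + 1))) => M j p.1 p.2.1 p.2.2)
    (fun p => M0 p.1 p.2.1 p.2.2)

/-- Bounds for the flows in bounded time (uses `StFlC`, `StHB`, `StPrd`, `StShf`).  By `StPrd`
`φ s (Sh c z) = Tr (c s) (Sh c (φ s z))` and `φ s (Tr h z) = Tr h (φ s z)`, so
`M s (Sh c z) = M s z = M s (Tr h z)` (derivatives of translations are the identity), and it is
enough to consider the points `z'` of the compact set `Q` of `StHB`; use `CC.bdd` for the compact set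
`[-D, D] x Q` and for the vectors of a basis.  `Hh gh` is constant along `φ`. -/
def StFlB : Prop := ∀ (m : ℕ) (g gh : ℕ → Form (m + 1)) (g0 : Form (m + 1))
  (φ : ℕ → ℝ → W (m + 1) → W (m + 1)) (M : ℕ → ℝ → W (m + 1) → W (m + 1) →L[ℝ] W (m + 1))
  (φ0 : ℝ → W (m + 1) → W (m + 1)) (M0 : ℝ → W (m + 1) → W (m + 1) →L[ℝ] W (m + 1)),
  SetA m g gh g0 φ M φ0 M0 → ∀ (K : Set (E (m + 1))) (D : ℝ), IsCompact K →
  ∃ (K' : Set (E (m + 1))) (C : ℝ), IsCompact K' ∧ K ⊆ K' ∧ 0 < C ∧ ∀ᶠ j in atTop, ∀ z s,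
    Rg (gh j) K z → |s| ≤ D → Rg (gh j) K' (φ j s z) ∧ (∀ r, Rg (gh j) K' (Tr r (zt (φ j) s z))) ∧
    ∀ w, ‖M j s z w‖ ≤ C * ‖w‖

/-- Tent averages (one flow of a `C^1` field; no metric).  Differentiate under the integral:
`IsFlow.diff`, `IsFlow.Mcont`.  Along the flow: `∫ (D - |s|) k (φ (s + t) z) ds`, with derivative
`dtn` at `t = 0` (model: `DR.StTenA`, `DR.StTenB`). -/
def StTn : Prop := ∀ (Q : Type) [NormedAddCommGroup Q] [NormedSpace ℝ Q]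
  [FiniteDimensional ℝ Q] (F : Q → Q) (φ : ℝ → Q → Q) (M : ℝ → Q → Q →L[ℝ] Q), IsFlow F φ M →
  ∀ (k : Q → ℝ) (D : ℝ), ContDiff ℝ 1 k → 0 ≤ D →
  ContDiff ℝ 1 (fun z => ∫ s in (-D)..D, (D - |s|) * k (φ s z)) ∧
  (∀ z w, fderiv ℝ (fun z => ∫ s in (-D)..D, (D - |s|) * k (φ s z)) z w =
    ∫ s in (-D)..D, (D - |s|) * fderiv ℝ k (φ s z) (M s z w)) ∧
  ∀ z, fderiv ℝ (fun z => ∫ s in (-D)..D, (D - |s|) * k (φ s z)) z (F z) =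
    (∫ s in (0 : ℝ)..D, k (φ s z)) - ∫ s in (-D)..0, k (φ s z)

/-- Bounds of the tent average of `k` (uses `StFlB`, `StPb`, `StTn`, `StDf`, `StDeu`).  The last one:
the derivative of `tnt` in the direction `Y z = XH (Hm g) z - XH (Hm gh) z`, `‖Y z‖ ≤ C B`, is
`∫ (D - |s|) D k(φ s z)(M s z (Y z)) ds`. -/
def StYT : Prop := ∀ (m : ℕ) (g gh : ℕ → Form (m + 1)) (g0 : Form (m + 1))
  (φ : ℕ → ℝ → W (m + 1) → W (m + 1)) (M : ℕ → ℝ → W (m + 1) → W (m + 1) →L[ℝ] W (m + 1))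
  (φ0 : ℝ → W (m + 1) → W (m + 1)) (M0 : ℝ → W (m + 1) → W (m + 1) →L[ℝ] W (m + 1)),
  SetA m g gh g0 φ M φ0 M0 → ∀ (K : Set (E (m + 1))) (D : ℝ), IsCompact K → 1 ≤ D →
  ∃ (K' : Set (E (m + 1))) (C : ℝ), IsCompact K' ∧ K ⊆ K' ∧ 0 < C ∧ ∀ᶠ j in atTop, ∀ B,
    NBd (g j) K' B → ∀ z, Rg (gh j) K z →
    |tnt (φ j) D (kq (g j) (gh j)) z| ≤ C * B ∧ |dtn (φ j) D (kq (g j) (gh j)) z| ≤ C * B ∧
    |fderiv ℝ (tnt (φ j) D (kq (g j) (gh j))) z (XH (Hm (g j)) z - XH (Hm (gh j)) z)| ≤ C * B ^ 2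

/-! ### 3. calculus for one metric -/

/-- SECOND VARIATION for all energies (uses `StSec`, `StBas`, `StLft`, `StXB`, ...).  Let `φ` be
supported in `{δ ≤ Hm g ≤ R}`, `r > 0` with `r^2 / 2 ≥ R`, and `φ_r z = φ (Dl r z)`, which is invariant
(`StLft`), `C^1` and supported in `{Hm g ≤ R / r^2 ≤ 1/2}`.  `X φ_r (z) = r^-1 (X φ)(Dl r z)`, since
the flow satisfies `φ s (Dl r z) = Dl r (φ (r s) z)` (or: `XH (Hm g) (Dl r z) = (r (XH z).1,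
r^2 (XH z).2)` and the chain rule), `d1`, `d2`, `H` are homogeneous of degree `2` and `τ` of degree
`1`, so `SS g φ_r z = r^-2 SS g φ (Dl r z)`.  `SS g φ = 0` outside of the support.  Substitute
`z ↦ Dl r z` (Jacobian `r^(m+1)`). -/
def StSecB : Prop := ∀ (m : ℕ) (G : Type) [Group G] [MulAction G (E (m + 1))],
  Cocompact (m + 1) G → Vert (m + 1) G eL → ∀ g : Form (m + 1), Riem g → Inv G g → Minz g →
  Blk g → ∀ φ : W (m + 1) → ℝ, ContDiff ℝ 1 φ → GInv G g φ →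
  (∃ δ R : ℝ, 0 < δ ∧ ∀ z, φ z ≠ 0 → δ ≤ Hm g z ∧ Hm g z ≤ R) → ∀ χ : E (m + 1) → ℝ, PU G χ →
  0 ≤ ∫ z, χ z.1 * SS g φ z

/-- Correlation identity (model: `DR.StFejA`; uses `StUA`, `StMP`, `StTr0`, `StOp`, `StEqF`, `StSub`,
`StGeo1`).  `w` is invariant under the flow and the group, continuous and supported in
`{Hm g ≤ R}`. -/
def StFA : Prop := ∀ (n : ℕ) (G : Type) [Group G] [MulAction G (E n)], Cocompact n G →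
  ∀ (g : Form n) (φ : ℝ → W n → W n) (M : ℝ → W n → W n →L[ℝ] W n), Riem g → Inv G g →
  IsFlow (XH (Hm g)) φ M → ∀ χ : E n → ℝ, PU G χ → ∀ (w k : W n → ℝ) (R D : ℝ), Continuous w →
  Continuous k → (∀ (a : G) z, w (lft g a z) = w z) → (∀ (a : G) z, k (lft g a z) = k z) →
  (∀ s z, w (φ s z) = w z) → (∀ z, w z ≠ 0 → Hm g z ≤ R) → 0 ≤ D →
  ∫ z, χ z.1 * (w z * (∫ s in (0 : ℝ)..D, k (φ s z)) ^ 2) =
    ∫ u in (-D)..D, (D - |u|) * ∫ z, χ z.1 * (w z * (k (φ u z) * k z))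

/-- Second form (uses `StFA`, `StSub`): exchange the integrals (model: `DR.StFejB`). -/
def StFB : Prop := ∀ (n : ℕ) (G : Type) [Group G] [MulAction G (E n)], Cocompact n G →
  ∀ (g : Form n) (φ : ℝ → W n → W n) (M : ℝ → W n → W n →L[ℝ] W n), Riem g → Inv G g →
  IsFlow (XH (Hm g)) φ M → ∀ χ : E n → ℝ, PU G χ → ∀ (w k : W n → ℝ) (R D : ℝ), Continuous w →
  Continuous k → (∀ (a : G) z, w (lft g a z) = w z) → (∀ (a : G) z, k (lft g a z) = k z) →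
  (∀ s z, w (φ s z) = w z) → (∀ z, w z ≠ 0 → Hm g z ≤ R) → 0 ≤ D →
  ∫ z, χ z.1 * (w z * (∫ s in (0 : ℝ)..D, k (φ s z)) ^ 2) =
    ∫ z, χ z.1 * (w z * ((∫ s in (-D)..D, (D - |s|) * k (φ s z)) * k z))

/-- Estimate (model: `DR.StFejC`): `w ≥ 0`. -/
def StFC : Prop := ∀ (n : ℕ) (G : Type) [Group G] [MulAction G (E n)], Cocompact n G →
  ∀ (g : Form n) (φ : ℝ → W n → W n) (M : ℝ → W n → W n →L[ℝ] W n), Riem g → Inv G g →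
  IsFlow (XH (Hm g)) φ M → ∀ χ : E n → ℝ, PU G χ → ∀ (w k : W n → ℝ) (R D : ℝ), Continuous w →
  Continuous k → (∀ (a : G) z, w (lft g a z) = w z) → (∀ (a : G) z, k (lft g a z) = k z) →
  (∀ s z, w (φ s z) = w z) → (∀ z, w z ≠ 0 → Hm g z ≤ R) → (∀ z, 0 ≤ w z) → 0 ≤ D →
  ∫ z, χ z.1 * (w z * ((∫ s in (0 : ℝ)..D, k (φ s z)) - ∫ s in (-D)..0, k (φ s z)) ^ 2) ≤
    4 * ∫ z, χ z.1 * (w z * (∫ s in (0 : ℝ)..D, k (φ s z)) ^ 2)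

/-- The weights (uses `StXt`, `StShf`, `StPrd`, `StLft`, `StLftA`, `StBas`, `StOp`).
`bet` is smooth; `wT`, `cf` are functions of `τ` and `Hh gh`, which are invariant under the group, the
flow of `gh` and `Tr`; `Hh ≤ Hm ≤ Hh + τ^2/2`. -/
def StWt : Prop := ∀ (m : ℕ) (G : Type) [Group G] [MulAction G (E (m + 1))],
  Cocompact (m + 1) G → Vert (m + 1) G eL → ∀ (gh : Form (m + 1))
  (φ : ℝ → W (m + 1) → W (m + 1)) (M : ℝ → W (m + 1) → W (m + 1) →L[ℝ] W (m + 1)), Riem gh →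
  Inv G gh → Blk gh → TInv gh eL → IsFlow (XH (Hm gh)) φ M →
  ∀ ψ ϑ w0 ψ1 θ1 : ℝ → ℝ, Bmp ψ ϑ w0 ψ1 θ1 → ∀ T : ℝ, 0 < T →
  ContDiff ℝ ∞ (wT gh ψ ϑ T) ∧ ContDiff ℝ ∞ (cf gh ψ ϑ T) ∧ GInv G gh (wT gh ψ ϑ T) ∧
  GInv G gh (cf gh ψ ϑ T) ∧ (∀ s z, wT gh ψ ϑ T (φ s z) = wT gh ψ ϑ T z) ∧
  (∀ s z, wT gh ψ ϑ T (Tr s z) = wT gh ψ ϑ T z) ∧ (∀ z, 0 ≤ wT gh ψ ϑ T z) ∧
  (∀ z, wT gh ψ ϑ T z ≠ 0 → 1 / 8 ≤ Hm gh z ∧ Hm gh z ≤ 3 / 8 + T ^ 2 / 2) ∧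
  (∀ z, cf gh ψ ϑ T z ≠ 0 → 1 / 8 ≤ Hh gh z ∧ Hh gh z ≤ 3 / 8 ∧ |ta z| ≤ T)

/-- The test function is admissible (uses `StWt`, `StXt`, `StTn`, `StDeu`, `StEqF`, `StLft`, `StLftA`,
`StBas`, `StOp`, `StTr0`).  `tnt φ D k` is `C^1` and invariant.  The lower and upper bounds of `Hm g` on
the support: `Hh g ≥ 1/8` for `phi0`; for `phi1` `Hm gh ≥ 1/8`, `Hm gh ≤ 3/8 + T^2/2` and the
quotient of `Hm g` and `Hm gh` is between two positive constants (`StCmp` for `g`, `gh`: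
`Hm = 1/2 sup (2 inner p v - g(v, v))`, or: the quotient is continuous and invariant and homogeneous
of degree `0`, bounded on a compact set). -/
def StPhi : Prop := ∀ (m : ℕ) (G : Type) [Group G] [MulAction G (E (m + 1))],
  Cocompact (m + 1) G → Vert (m + 1) G eL → ∀ (g gh : Form (m + 1))
  (φ : ℝ → W (m + 1) → W (m + 1)) (M : ℝ → W (m + 1) → W (m + 1) →L[ℝ] W (m + 1)), Riem g →
  Inv G g → Blk g → (∀ x, g.val (x + eL) = g.val x) → Riem gh →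
  Inv G gh → Blk gh → TInv gh eL → IsFlow (XH (Hm gh)) φ M →
  ∀ ψ ϑ w0 ψ1 θ1 : ℝ → ℝ, Bmp ψ ϑ w0 ψ1 θ1 → ∀ T D : ℝ, 0 < T → 0 ≤ D →
  ContDiff ℝ 1 (phi0 g ψ ϑ T) ∧ ContDiff ℝ 1 (phi1 g gh ψ ϑ T D φ) ∧
  GInv G g (phi0 g ψ ϑ T) ∧ GInv G g (phi1 g gh ψ ϑ T D φ) ∧
  ∃ δ R : ℝ, 0 < δ ∧ ∀ z, phi g gh ψ ϑ T D φ z ≠ 0 → δ ≤ Hm g z ∧ Hm g z ≤ R

/-- The leading term (uses `StIbp2`, `StXt`, `StLft`, `StBas`, `StOp`).  `StIbp2` with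
`f = phi0^2 = (ψ(τ/T) bet τ)^2 ϑ(Hh g)^2`, `De f = (ψ bet)^2 2 ϑ ϑ' (- 1/2 d1)` (`StXt`). -/
def StC0 : Prop := ∀ (m : ℕ) (G : Type) [Group G] [MulAction G (E (m + 1))],
  Cocompact (m + 1) G → Vert (m + 1) G eL → ∀ g : Form (m + 1), Riem g → Inv G g → Blk g →
  ∀ ψ ϑ w0 ψ1 θ1 : ℝ → ℝ, Bmp ψ ϑ w0 ψ1 θ1 → ∀ T : ℝ, 0 < T → ∀ χ : E (m + 1) → ℝ, PU G χ →
  ∫ z, χ z.1 * (phi0 g ψ ϑ T z ^ 2 * dd2 g z) =
    (∫ z, χ z.1 * ((ψ (ta z / T) * bet (ta z)) ^ 2 * ϑ (Hh g z) * deriv ϑ (Hh g z) *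
      dd1 g z ^ 2)) + 2 * ∫ z, χ z.1 * (phi0 g ψ ϑ T z ^ 2 * qq g z)

/-! ### 4. upper bound of `V` -/

/-- Integrals over the fibres (uses `StBas`, `StSub`, `StHB`).  As in `DR.StFub`: for `F` invariant
under `Sh`, `∫ α(τ) F = (∫ α) ∫ w(τ) F` with any `w` of integral one; here
`F z = χ f θ1(Hh gh)`, and `∫ w(τ) F ≤ C ∫ χ f` since the set of momenta `p` over `x ∈ K` with
`|τ| ≤ 1`, `Hh gh ≤ 1` is contained in a fixed ball for large `j` (proof of `StHB`). -/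
def StInt : Prop := ∀ (m : ℕ) (g gh : ℕ → Form (m + 1)) (g0 : Form (m + 1))
  (φ : ℕ → ℝ → W (m + 1) → W (m + 1)) (M : ℕ → ℝ → W (m + 1) → W (m + 1) →L[ℝ] W (m + 1))
  (φ0 : ℝ → W (m + 1) → W (m + 1)) (M0 : ℝ → W (m + 1) → W (m + 1) →L[ℝ] W (m + 1)),
  SetA m g gh g0 φ M φ0 M0 → ∀ K : Set (E (m + 1)), IsCompact K →
  ∀ ψ ϑ w0 ψ1 θ1 : ℝ → ℝ, Bmp ψ ϑ w0 ψ1 θ1 → ∃ C, 0 < C ∧ ∀ᶠ j in atTop,
  ∀ (χ f : E (m + 1) → ℝ) (α : ℝ → ℝ), Continuous χ → Continuous f → Continuous α →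
  (∀ x, 0 ≤ χ x) → (∀ x, 0 ≤ f x) → (∀ x, 0 ≤ α x) → (∀ x, χ x ≠ 0 → x ∈ K) →
  HasCompactSupport α →
  ∫ z, χ z.1 * (f z.1 * (α (ta z) * θ1 (Hh (gh j) z))) ≤ C * (∫ τ, α τ) * ∫ x, χ x * f x

/-- First part of the test function (uses `StXt`, `StPw`, `StHc`).  `phi0 = η1(τ) ϑ(Hh g)`,
`η1 τ = ψ(τ/T) bet τ`, `|η1'| ≤ C bet`; `X phi0 = 1/2 d1 (η1' ϑ - η1 τ ϑ')`, and `|τ| bet ≤ 1`.
`1 - τ^2/(2 H) = 2 Hh/(2 Hh + τ^2) ≤ 1/(1 + τ^2)` if `Hh ≤ 1/2`.  Where `ϑ(Hh g)` or `ϑ'(Hh g)` does not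
vanish, `1/8 ≤ Hh g ≤ 3/8`, so `Hh gh ≤ 1/2` for large `j` (`StHc`). -/
def StA0 : Prop := ∀ (m : ℕ) (g gh : ℕ → Form (m + 1)) (g0 : Form (m + 1))
  (φ : ℕ → ℝ → W (m + 1) → W (m + 1)) (M : ℕ → ℝ → W (m + 1) → W (m + 1) →L[ℝ] W (m + 1))
  (φ0 : ℝ → W (m + 1) → W (m + 1)) (M0 : ℝ → W (m + 1) → W (m + 1) →L[ℝ] W (m + 1)),
  SetA m g gh g0 φ M φ0 M0 → ∀ K : Set (E (m + 1)), IsCompact K →
  ∀ ψ ϑ w0 ψ1 θ1 : ℝ → ℝ, Bmp ψ ϑ w0 ψ1 θ1 → ∃ C, 0 < C ∧ ∀ᶠ j in atTop, ∀ T : ℝ, 2 ≤ T →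
  ∀ z : W (m + 1), z.1 ∈ K →
    (phi0 (g j) ψ ϑ T z ≠ 0 ∨ XX (g j) (phi0 (g j) ψ ϑ T) z ≠ 0 →
      |ta z| ≤ T ∧ 1 / 8 ≤ Hh (g j) z ∧ Hh (g j) z ≤ 3 / 8 ∧ Hh (gh j) z ≤ 1 / 2) ∧
    |phi0 (g j) ψ ϑ T z| ≤ bet (ta z) ∧ |XX (g j) (phi0 (g j) ψ ϑ T) z| ≤ C * NN (g j) z.1 ∧
    (Hh (g j) z ≤ 1 / 2 → 0 ≤ 1 - ta z ^ 2 / (2 * Hm (g j) z) ∧
      (0 < Hm (g j) z → 1 - ta z ^ 2 / (2 * Hm (g j) z) ≤ bet (ta z) ^ 2))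

/-- Second part (uses `StYT`, `StXt`, `StHP`, `StDf`, `StHc`, `StPw`, `StTn`, `StPrd`, `StDeu`).
`phi1 = η2(τ) ϑ(Hh gh) tnt`, `η2 τ = ψ(τ/T) / bet τ`, `|η2'| ≤ C`, `|η2| ≤ 1 / bet τ`.
`X = X^ + Y`, `X^ (Hh gh) = 0 = X^ τ` (`StXt` for `gh`: `dd1 gh = 0` by `TInv`), `X^ tnt = dtn` (`StTn`).
So `X phi1 = cf dtn + r1`, `r1 = (η2' (1/2 d1) ϑ + η2 ϑ' Y(Hh gh)) tnt + η2 ϑ Y tnt`, with
`|Y(Hh gh)| ≤ C B` (`StHP`, `StDf`) and `|Y tnt| ≤ C B^2` (`StYT`): `|r1| ≤ C B^2 / bet τ`. -/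
def StR1 : Prop := ∀ (m : ℕ) (g gh : ℕ → Form (m + 1)) (g0 : Form (m + 1))
  (φ : ℕ → ℝ → W (m + 1) → W (m + 1)) (M : ℕ → ℝ → W (m + 1) → W (m + 1) →L[ℝ] W (m + 1))
  (φ0 : ℝ → W (m + 1) → W (m + 1)) (M0 : ℝ → W (m + 1) → W (m + 1) →L[ℝ] W (m + 1)),
  SetA m g gh g0 φ M φ0 M0 → ∀ (K : Set (E (m + 1))) (D : ℝ), IsCompact K → 1 ≤ D →
  ∀ ψ ϑ w0 ψ1 θ1 : ℝ → ℝ, Bmp ψ ϑ w0 ψ1 θ1 → ∃ (K' : Set (E (m + 1))) (C : ℝ), IsCompact K' ∧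
  K ⊆ K' ∧ 0 < C ∧ ∀ᶠ j in atTop, ∀ T : ℝ, 2 ≤ T → ∀ B, NBd (g j) K' B →
  ∀ z : W (m + 1), z.1 ∈ K →
    (phi1 (g j) (gh j) ψ ϑ T D (φ j) z ≠ 0 ∨
      XX (g j) (phi1 (g j) (gh j) ψ ϑ T D (φ j)) z ≠ 0 →
      |ta z| ≤ T ∧ Hh (gh j) z ≤ 3 / 8 ∧ 1 / 16 ≤ Hh (g j) z ∧ Hh (g j) z ≤ 1 / 2) ∧
    |phi1 (g j) (gh j) ψ ϑ T D (φ j) z| ≤ C * B * (bet (ta z))⁻¹ ∧
    |XX (g j) (phi1 (g j) (gh j) ψ ϑ T D (φ j)) z -
      cf (gh j) ψ ϑ T z * dtn (φ j) D (kq (g j) (gh j)) z| ≤ C * B ^ 2 * (bet (ta z))⁻¹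

/-- Pointwise upper bound of the second variation (uses `StA0`, `StR1`, `StPw`, `StPb`, `StHc`,
`StYT`, `StXt`).  Write `c = 1/16`, `b^2 = 1 - τ^2/(2H) ≤ bet^2` where `Hh g ≤ 1/2`, and
`SS = 1/4 φ^2 d2 + 1/2 b^2 (X φ)^2 - (τ/(4H)) φ d1 X φ - φ^2 d1^2/(16 H)` (expand the square in the
definition; `H > 0` on the support).  On the supports `H ≥ 1/16 + τ^2/2`, so `|τ|/(4H) ≤ C bet`.
(1) `1/4 φ^2 d2 = 1/4 phi0^2 d2 - (c/2) phi0 phi1 d2 + (c^2/4) phi1^2 d2`; here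
`phi0 phi1 = ψ(τ/T)^2 ϑ(Hh g) ϑ(Hh gh) tnt` (`bet / bet = 1`), so
`|phi0 phi1 d2 - wT tnt k| ≤ C B^3`, and `|phi1^2 d2| ≤ C B^3 / bet^2 ≤ C T^2 B^3`.
(2) `1/2 b^2 (X φ)^2 ≤ 1/2 bet^2 (a0 - c cf dtn - c r1)^2 ≤ (3/4) c^2 bet^2 cf^2 dtn^2
+ 3 bet^2 a0^2 + 3 c^2 bet^2 r1^2`, `a0 = X phi0`, `bet^2 cf^2 = wT`, `bet^2 a0^2 ≤ C N^2 bet^2`,
`bet^2 r1^2 ≤ C B^4`.
(3) `(τ/(4H)) φ d1 X φ`: the product of `phi0` and `a0`: `≤ C bet^2 N^2`; of `phi0` and `c cf dtn`: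
`≤ C bet N |bet cf dtn| ≤ (1/4) c^2 wT dtn^2 + C bet^2 N^2`; all others `≤ C T B^3`.
Everything vanishes unless `|τ| ≤ T` and `Hh gh ≤ 1/2`, where `ψ1(τ/T) = θ1(Hh gh) = 1`. -/
def StPt : Prop := ∀ (m : ℕ) (g gh : ℕ → Form (m + 1)) (g0 : Form (m + 1))
  (φ : ℕ → ℝ → W (m + 1) → W (m + 1)) (M : ℕ → ℝ → W (m + 1) → W (m + 1) →L[ℝ] W (m + 1))
  (φ0 : ℝ → W (m + 1) → W (m + 1)) (M0 : ℝ → W (m + 1) → W (m + 1) →L[ℝ] W (m + 1)),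
  SetA m g gh g0 φ M φ0 M0 → ∀ K : Set (E (m + 1)), IsCompact K →
  ∀ ψ ϑ w0 ψ1 θ1 : ℝ → ℝ, Bmp ψ ϑ w0 ψ1 θ1 → ∃ C1, 0 < C1 ∧ ∀ D : ℝ, 1 ≤ D →
  ∃ (K' : Set (E (m + 1))) (C : ℝ), IsCompact K' ∧ K ⊆ K' ∧ 0 < C ∧ ∀ᶠ j in atTop,
  ∀ T : ℝ, 2 ≤ T → ∀ B, NBd (g j) K' B → T * B ≤ 1 → ∀ z : W (m + 1), z.1 ∈ K →
    SS (g j) (phi (g j) (gh j) ψ ϑ T D (φ j)) z ≤
      1 / 4 * (phi0 (g j) ψ ϑ T z ^ 2 * dd2 (g j) z) -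
      1 / 32 * (wT (gh j) ψ ϑ T z *
        (tnt (φ j) D (kq (g j) (gh j)) z * kq (g j) (gh j) z)) +
      1 / 256 * (wT (gh j) ψ ϑ T z * dtn (φ j) D (kq (g j) (gh j)) z ^ 2) +
      (C1 * bet (ta z) ^ 2 * NN (g j) z.1 ^ 2 + C * T ^ 2 * B ^ 3) *
        (ψ1 (ta z / T) * θ1 (Hh (gh j) z))

/-- UPPER BOUND (uses `StPt`, `StSecB`, `StPhi`, `StC0`, `StFB`, `StFC`, `StWt`, `StDeu`, `StInt`,
`StPw`, `StHc`, `StSub`, `StOp`, `StXt`).  Integrate `StPt` with the weight `χ j`: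
`0 ≤ ∫ χ SS ≤ 1/4 ∫ χ phi0^2 d2 - (1/32) V + (1/256) 4 V + C1 C E + C T^3 B^3` (`StSecB`, `StPhi`; `StFB`,
`StFC` for `gh j`; `StInt` with `α τ = bet^2 ψ1(τ/T)`, `∫ α ≤ π`, and `f = N^2`, and with
`α τ = ψ1(τ/T)`, `∫ α ≤ 4 T`, `f = 1`; `∫ χ j ≤ C` because `0 ≤ χ j ≤ 1` and the support is in `S`), and
`1/4 ∫ χ phi0^2 d2 ≤ C E` by `StC0`, `StPw`, `StInt` (`|phi0| ≤ bet`, `ϑ ϑ'` bounded, everything
vanishes unless `Hh gh ≤ 1/2`, `|τ| ≤ T`).  So `(1/64) V ≤ C E + C T^3 B^3`. -/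
def StUp : Prop := ∀ (m : ℕ) (G : Type) [Group G] (act : ℕ → MulAction G (E (m + 1)))
  (g gh : ℕ → Form (m + 1)) (g0 : Form (m + 1)) (χ : ℕ → E (m + 1) → ℝ) (S : Set (E (m + 1)))
  (φ : ℕ → ℝ → W (m + 1) → W (m + 1)) (M : ℕ → ℝ → W (m + 1) → W (m + 1) →L[ℝ] W (m + 1))
  (φ0 : ℝ → W (m + 1) → W (m + 1)) (M0 : ℝ → W (m + 1) → W (m + 1) →L[ℝ] W (m + 1)),
  SetupQ m G act g g0 χ S → SetA m g gh g0 φ M φ0 M0 →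
  (∀ j, @MLS.Inv (m + 1) G _ (act j) (gh j)) →
  ∀ ψ ϑ w0 ψ1 θ1 : ℝ → ℝ, Bmp ψ ϑ w0 ψ1 θ1 → ∃ C1, 0 < C1 ∧ ∀ D : ℝ, 1 ≤ D →
  ∃ (K : Set (E (m + 1))) (C : ℝ), IsCompact K ∧ 0 < C ∧ ∀ᶠ j in atTop,
  ∀ T : ℝ, 2 ≤ T → ∀ B, NBd (g j) K B → T * B ≤ 1 →
    VQ (χ j) (g j) (gh j) ψ ϑ T D (φ j) ≤ C1 * EE (χ j) (g j) + C * T ^ 3 * B ^ 3

/-! ### 5. lower bound of `V` -/

/-- Separation of the vertical momentum (uses `StFA`, `StWt`, `StDeu`, `StZt`, `StShf`, `StXt`,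
`StSub`, `StOp`).  By `StFA` `V = ∫ (D - |s|) (∫ χ wT k(φ s z) k(z)) ds`, and
`φ s z = Tr (τ s) (zt φ s z)` (`StZt`).  For fixed `s` put `F(r, z) = χ ϑ(Hh gh)^2 k(Tr r (zt φ s z))
k(z)`, invariant under `Sh` in `z` (`zt φ s` commutes with `Sh`).  Then
`∫ ψ(τ/T)^2 F(τ s, z) dz = ∫∫ ψ(ta z/T)^2 F(ta z s, z) w0(ta z + c) dc dz`
`= ∫∫ ψ(τ/T)^2 F(τ s, z) w0(ta z) dz dτ` (substitute `z ↦ Sh (-c) z`, then `τ = ta z - c`), which is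
`∫ ψ(τ/T)^2 cor k s (τ s) dτ`.  Everything is continuous with compact support. -/
def StL1 : Prop := ∀ (m : ℕ) (G : Type) [Group G] [MulAction G (E (m + 1))],
  Cocompact (m + 1) G → Vert (m + 1) G eL → ∀ (g gh : Form (m + 1))
  (φ : ℝ → W (m + 1) → W (m + 1)) (M : ℝ → W (m + 1) → W (m + 1) →L[ℝ] W (m + 1)), Riem g →
  Inv G g → Blk g → (∀ x, g.val (x + eL) = g.val x) → Riem gh →
  Inv G gh → Blk gh → TInv gh eL → IsFlow (XH (Hm gh)) φ M →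
  ∀ ψ ϑ w0 ψ1 θ1 : ℝ → ℝ, Bmp ψ ϑ w0 ψ1 θ1 → ∀ T D : ℝ, 0 < T → 0 ≤ D →
  ∀ χ : E (m + 1) → ℝ, PU G χ →
  VQ χ g gh ψ ϑ T D φ = ∫ s in (-D)..D, (D - |s|) *
    ∫ τ, ψ (τ / T) ^ 2 * cor χ gh w0 ϑ φ (kq g gh) s (τ * s)

/-- The correlation functions (uses `StDeu`, `StZt`, `StIbp`, `StXt`, `StUA`, `StLft`, `StPrd`, `StShf`,
`StSub`, `StOp`, `StGB`).  Let `γ_s(r) = cor u s r`.  `k = De u`, so
`γ_s' (r) = ∫ χ w k(Tr r ζ z) u(z)`, `γ_s'' (r) = ∫ χ w (De k)(Tr r ζ z) u(z)`, `ζ = zt φ s`, `w` the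
weight; `z ↦ k(Tr r (ζ z))` has vertical derivative `(De k)(Tr r (ζ z))` since `ζ` commutes with
`Tr`, and by `StIbp` for `gh` and `F = w k(Tr r ζ z) u(z)` (`De w = 0`)
`γ_s'' (r) = - ∫ χ w k(Tr r ζ z) k(z)`.  Joint continuity: the integrands are continuous with
supports in a fixed compact set.  `γ_0(-r) = γ_0(r)` by `StUA` for `Tr (-r)` (invariance of the integral
under vertical translations), `|γ_0(r)| ≤ γ_0(0)` by Cauchy-Schwarz (`2 |a b| ≤ a^2 + b^2` and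
`StUA`), mean zero by Fubini and `StDeu`. -/
def StL2 : Prop := ∀ (m : ℕ) (G : Type) [Group G] [MulAction G (E (m + 1))],
  Cocompact (m + 1) G → Vert (m + 1) G eL → ∀ (g gh : Form (m + 1))
  (φ : ℝ → W (m + 1) → W (m + 1)) (M : ℝ → W (m + 1) → W (m + 1) →L[ℝ] W (m + 1)), Riem g →
  Inv G g → Blk g → (∀ x, g.val (x + eL) = g.val x) → Riem gh →
  Inv G gh → Blk gh → TInv gh eL → IsFlow (XH (Hm gh)) φ M →
  ∀ ψ ϑ w0 ψ1 θ1 : ℝ → ℝ, Bmp ψ ϑ w0 ψ1 θ1 → ∀ χ : E (m + 1) → ℝ, PU G χ →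
  (∃ γ1 : ℝ → ℝ → ℝ, (∀ s r, HasDerivAt (cor χ gh w0 ϑ φ (uq g gh) s) (γ1 s r) r) ∧
    (∀ s r, HasDerivAt (γ1 s) (-cor χ gh w0 ϑ φ (kq g gh) s r) r) ∧
    Continuous (fun p : ℝ × ℝ => γ1 p.1 p.2)) ∧
  Continuous (fun p : ℝ × ℝ => cor χ gh w0 ϑ φ (kq g gh) p.1 p.2) ∧
  Continuous (fun p : ℝ × ℝ => cor χ gh w0 ϑ φ (uq g gh) p.1 p.2) ∧
  (∀ r, cor χ gh w0 ϑ φ (uq g gh) 0 (-r) = cor χ gh w0 ϑ φ (uq g gh) 0 r) ∧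
  (∀ r, |cor χ gh w0 ϑ φ (uq g gh) 0 r| ≤ cor χ gh w0 ϑ φ (uq g gh) 0 0) ∧
  ∫ r in (-1 : ℝ)..1, cor χ gh w0 ϑ φ (uq g gh) 0 r = 0

/-- Small times (uses `StFlB`, `StPb`, `StZt`, `StDeu`, `StInt`, `StXt`).  For `f = u` or `k`:
`f(Tr r (zt φ s z)) - f(Tr r z) = ∫_0^s (X^ f - τ De f)(Tr r (zt φ σ z)) dσ` (derivative of
`σ ↦ f(Tr (r - τ σ) (φ σ z))`), at most `C |s| B` (`StPb` on the set `K'` of `StFlB`), `|f| ≤ C B`, and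
the integral of `χ w0(τ) ϑ(Hh gh)^2` is at most `C ∫ χ` (`StInt`). -/
def StL3 : Prop := ∀ (m : ℕ) (g gh : ℕ → Form (m + 1)) (g0 : Form (m + 1))
  (φ : ℕ → ℝ → W (m + 1) → W (m + 1)) (M : ℕ → ℝ → W (m + 1) → W (m + 1) →L[ℝ] W (m + 1))
  (φ0 : ℝ → W (m + 1) → W (m + 1)) (M0 : ℝ → W (m + 1) → W (m + 1) →L[ℝ] W (m + 1)),
  SetA m g gh g0 φ M φ0 M0 → ∀ (K : Set (E (m + 1))) (D : ℝ), IsCompact K → 1 ≤ D →
  ∀ ψ ϑ w0 ψ1 θ1 : ℝ → ℝ, Bmp ψ ϑ w0 ψ1 θ1 → ∃ (K' : Set (E (m + 1))) (C : ℝ), IsCompact K' ∧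
  K ⊆ K' ∧ 0 < C ∧ ∀ᶠ j in atTop, ∀ B, NBd (g j) K' B → ∀ χ : E (m + 1) → ℝ, Continuous χ →
  (∀ x, 0 ≤ χ x ∧ χ x ≤ 1) → (∀ x, χ x ≠ 0 → x ∈ K) → ∀ s r : ℝ, |s| ≤ D →
    |cor χ (gh j) w0 ϑ (φ j) (uq (g j) (gh j)) s r -
      cor χ (gh j) w0 ϑ (φ j) (uq (g j) (gh j)) 0 r| ≤ C * |s| * B ^ 2 ∧
    |cor χ (gh j) w0 ϑ (φ j) (kq (g j) (gh j)) s r -
      cor χ (gh j) w0 ϑ (φ j) (kq (g j) (gh j)) 0 r| ≤ C * |s| * B ^ 2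

/-- ONE VARIABLE LEMMA.  Data: `γ s r`, `Γ s r` with `∂_r^2 γ = - Γ`, `γ 0` even of mean zero with
`|γ 0 r| ≤ γ 0 0`, and `|Γ s - Γ 0|`, `|γ s - γ 0| ≤ A |s|`.  `η τ = ψ(τ/T)^2`.
(a) Main term: for `τ ≠ 0` `∫_{-D}^{D} (D - |s|) Γ 0 (τ s) ds = 2 (γ 0 0 - γ 0 (τ D)) / τ^2 ≥ 0` (twice
integration by parts, evenness), and for `|τ| ≤ 1/D` (`≤ T/2`, so `η = 1`) `2/τ^2 ≥ 2 D^2`; so
`∫ (D - |s|) ∫ η Γ 0 (τ s) dτ ds ≥ 2 D^2 ∫_{-1/D}^{1/D} (γ 0 0 - γ 0 (τ D)) dτ = 4 D γ 0 0`.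
(b) Correction: `|∫ η (Γ s - Γ 0)(τ s) dτ| ≤ 2 T A |s|`, and for `s ≠ 0`, integrating by parts twice
in `τ`, it is `s^-2 |∫ η''(τ) (γ s - γ 0)(τ s) dτ| ≤ C A / (T |s|)` (`|η''| ≤ C / T^2`, support of
length `2 T`); `min(q, 1/q) ≤ q^(-1/2)`, `q = T |s|`, and
`∫_{-D}^{D} (D - |s|) (T |s|)^(-1/2) ds ≤ 4 D^(3/2) T^(-1/2)`. -/
def StL4 : Prop := ∀ ψ ϑ w0 ψ1 θ1 : ℝ → ℝ, Bmp ψ ϑ w0 ψ1 θ1 → ∀ D : ℝ, 1 ≤ D → ∃ C, 0 < C ∧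
  ∀ (γ γ1 Γ : ℝ → ℝ → ℝ) (A R : ℝ), 0 ≤ A → 2 ≤ R →
  (∀ s r, HasDerivAt (γ s) (γ1 s r) r) → (∀ s r, HasDerivAt (γ1 s) (-Γ s r) r) →
  Continuous (fun p : ℝ × ℝ => Γ p.1 p.2) → Continuous (fun p : ℝ × ℝ => γ p.1 p.2) →
  Continuous (fun p : ℝ × ℝ => γ1 p.1 p.2) →
  (∀ r, γ 0 (-r) = γ 0 r) → (∀ r, |γ 0 r| ≤ γ 0 0) → ∫ r in (-1 : ℝ)..1, γ 0 r = 0 →
  (∀ s r, |s| ≤ D → |γ s r - γ 0 r| ≤ A * |s|) → (∀ s r, |s| ≤ D → |Γ s r - Γ 0 r| ≤ A * |s|) →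
  4 * D * γ 0 0 - C * A / R ≤ ∫ s in (-D)..D, (D - |s|) *
    ∫ τ, ψ (τ / R ^ 2) ^ 2 * Γ s (τ * s)

/-- LOWER BOUND (uses `StL1`, `StL2`, `StL3`, `StL4`, `StDeu`, `StXt`).  `T = R^2`, `A = C B^2`;
`cor u 0 0 = ∫ χ w0 ϑ^2 u^2` (`zt φ 0 z = z`). -/
def StLow : Prop := ∀ (m : ℕ) (G : Type) [Group G] (act : ℕ → MulAction G (E (m + 1)))
  (g gh : ℕ → Form (m + 1)) (g0 : Form (m + 1)) (χ : ℕ → E (m + 1) → ℝ) (S : Set (E (m + 1)))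
  (φ : ℕ → ℝ → W (m + 1) → W (m + 1)) (M : ℕ → ℝ → W (m + 1) → W (m + 1) →L[ℝ] W (m + 1))
  (φ0 : ℝ → W (m + 1) → W (m + 1)) (M0 : ℝ → W (m + 1) → W (m + 1) →L[ℝ] W (m + 1)),
  SetupQ m G act g g0 χ S → SetA m g gh g0 φ M φ0 M0 →
  (∀ j, @MLS.Inv (m + 1) G _ (act j) (gh j)) →
  ∀ ψ ϑ w0 ψ1 θ1 : ℝ → ℝ, Bmp ψ ϑ w0 ψ1 θ1 → ∀ D : ℝ, 1 ≤ D →
  ∃ (K : Set (E (m + 1))) (C : ℝ), IsCompact K ∧ 0 < C ∧ ∀ᶠ j in atTop,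
  ∀ R : ℝ, 2 ≤ R → ∀ B, NBd (g j) K B →
    4 * D * (∫ z, χ j z.1 * (w0 (ta z) * ϑ (Hh (gh j) z) ^ 2 * uq (g j) (gh j) z ^ 2)) -
      C * B ^ 2 / R ≤ VQ (χ j) (g j) (gh j) ψ ϑ (R ^ 2) D (φ j)

/-- Comparison of the two energies (uses `StCvH`, `StBas`, `StSub`, `StHB`, `StOp`).  Fibre by fibre:
for `x ∈ S` and a symmetric bilinear form `A` with `A(e, .) = 0` let
`Ψ_j(x, A) = ∫ w0(p_last) ϑ(Hh gh_j (x, p))^2 A(v^, v^)^2 dp`.  `Ψ_j → Ψ_0` uniformly on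
`S x {‖A‖ ≤ 1}` (`CC.integral` with parameters), and `Ψ_0 > 0` on the compact set
`S x {‖A‖ = 1}`: if `Ψ_0(x, A) = 0` then `A(v, v) = 0` for all `v` in a nonempty open set (the velocities of
the `p` with `w0 > 0`, `ϑ > 0`), so `A = 0`.  So `Ψ_j(x, A) ≥ c ‖A‖^2` for large `j`; take
`A = D g_j(x)(e)`. -/
def StEqv : Prop := ∀ (m : ℕ) (g gh : ℕ → Form (m + 1)) (g0 : Form (m + 1))
  (φ : ℕ → ℝ → W (m + 1) → W (m + 1)) (M : ℕ → ℝ → W (m + 1) → W (m + 1) →L[ℝ] W (m + 1))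
  (φ0 : ℝ → W (m + 1) → W (m + 1)) (M0 : ℝ → W (m + 1) → W (m + 1) →L[ℝ] W (m + 1)),
  SetA m g gh g0 φ M φ0 M0 → ∀ K : Set (E (m + 1)), IsCompact K →
  ∀ ψ ϑ w0 ψ1 θ1 : ℝ → ℝ, Bmp ψ ϑ w0 ψ1 θ1 → ∃ C, 0 < C ∧ ∀ᶠ j in atTop,
  ∀ χ : E (m + 1) → ℝ, Continuous χ → (∀ x, 0 ≤ χ x) → (∀ x, χ x ≠ 0 → x ∈ K) →
  EE χ (g j) ≤ C *
    ∫ z, χ z.1 * (w0 (ta z) * ϑ (Hh (gh j) z) ^ 2 * uq (g j) (gh j) z ^ 2)

/-- Bump functions (uses `DR.StCut`, or `ContDiffBump`, `Real.smoothTransition`). -/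
def StBmp : Prop := ∃ ψ ϑ w0 ψ1 θ1 : ℝ → ℝ, Bmp ψ ϑ w0 ψ1 θ1

/-! ### 6. conclusion -/

/-- THEOREM Q from the bounds (uses `StSet`, `StNB`, `StUp`, `StLow`, `StEqv`, `StBmp`).  Let `C1` be
from `StUp`, `C2` from `StEqv`, `D = C1 C2 + 1`, `S_j` the energy in phase space.  With `R = 1/β`,
`T = R^2`, `B = β^7`: `T B = β^5 ≤ 1`, `T^3 B^3 = β^15`, `B^2 / R = β^15`.  So
`4 D S_j ≤ C1 E_j + C β^15 ≤ C1 C2 S_j + C β^15`, `S_j ≤ C β^15`, `E_j ≤ C2 S_j`.  For `1/2 < β ≤ 1`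
(`R < 2`) use instead that `E_j` is bounded: `NN ≤ β^7` on `S` and `∫ χ j` is bounded, `β^15 ≥ 2^-15`. -/
def StFinQ : Prop := StSet → StNB → StUp → StLow → StEqv → StBmp → StQ

end Pool.Agent.LQ
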