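import Mathlib
import Pool.Agent.Work.MP_13b5d9_gt.LQ.StmtsQ

set_option autoImplicit false

/-!
# MP_13b5d9_gt, block LQ, item A0: the first part of the test function
-/

open MeasureTheory Set Filter Topology
open scoped ContDiff ENNReal
open Pool.Agent.Work.MP_c9f990_an.Al (IsFlow)

namespace Pool.Agent.LQ

open Pool.Agent.MLS Pool.Agent.EC Pool.Agent.DR

namespace IQA0

theorem cut_deriv {η : ℝ → ℝ} {a b : ℝ} (h : Cut η a b) (x : ℝ) (hx : deriv η x ≠ 0) :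
    a ≤ x ∧ x ≤ b := by
  by_contra hcon
  have hx' : x ∉ Icc a b := fun hm => hcon ⟨hm.1, hm.2⟩
  have hnhds : (Icc a b)ᶜ ∈ 𝓝 x := isClosed_Icc.isOpen_compl.mem_nhds hx'
  have heq : η =ᶠ[𝓝 x] fun _ => 0 := by
    filter_upwards [hnhds] with y hy
    by_contra hne
    exact hy ⟨(h.supp y hne).1, (h.supp y hne).2⟩
  apply hx
  rw [heq.deriv_eq]
  simp

theorem cut_bound {η : ℝ → ℝ} {a b : ℝ} (h : Cut η a b) : ∃ M, 0 ≤ M ∧ ∀ x, |deriv η x| ≤ M := by
  have hc : Continuous (deriv η) := h.smooth.continuous_deriv (by simp)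
  obtain ⟨M, hM⟩ := isCompact_Icc.exists_bound_of_continuousOn (s := Icc a b) hc.continuousOn
  refine ⟨|M|, abs_nonneg _, fun x => ?_⟩
  by_cases hx : deriv η x = 0
  · rw [hx, abs_zero]
    exact abs_nonneg _
  · have := hM x ⟨(cut_deriv h x hx).1, (cut_deriv h x hx).2⟩
    rw [Real.norm_eq_abs] at this
    exact this.trans (le_abs_self _)

theorem one_le_sqrt (τ : ℝ) : 1 ≤ Real.sqrt (1 + τ ^ 2) :=
  Real.one_le_sqrt.2 (by nlinarith [sq_nonneg τ])

theorem NN_nonneg {m : ℕ} (g : Form (m + 1)) (x : E (m + 1)) : 0 ≤ NN g x := by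
  unfold NN
  positivity

theorem abs_le_sqrt' (τ : ℝ) : |τ| ≤ Real.sqrt (1 + τ ^ 2) :=
  Real.abs_le_sqrt (by linarith)

theorem bet_pos (τ : ℝ) : 0 < bet τ := by
  unfold bet
  have := one_le_sqrt τ
  positivity

theorem bet_le (τ : ℝ) : bet τ ≤ 1 := inv_le_one_of_one_le₀ (one_le_sqrt τ)

theorem abs_mul_bet (τ : ℝ) : |τ| * bet τ ≤ 1 := by
  unfold bet
  have h1 : 0 < Real.sqrt (1 + τ ^ 2) := lt_of_lt_of_le one_pos (one_le_sqrt τ)
  rw [← div_eq_mul_inv, div_le_one h1]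
  exact abs_le_sqrt' τ

theorem bet_sq (τ : ℝ) : bet τ ^ 2 = 1 / (1 + τ ^ 2) := by
  unfold bet
  rw [inv_pow, Real.sq_sqrt (by positivity), one_div]

/-- derivative of `bet` -/
theorem bet_deriv (τ : ℝ) : ∃ d, HasDerivAt bet d τ ∧ |d| ≤ 1 := by
  have hp : (0 : ℝ) < 1 + τ ^ 2 := by positivity
  have h1 : HasDerivAt (fun t : ℝ => 1 + t ^ 2) (2 * τ) τ := by
    simpa using ((hasDerivAt_id τ).pow 2).const_add 1
  have h2 := (h1.sqrt hp.ne').inv (Real.sqrt_pos.2 hp).ne'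
  refine ⟨_, h2, ?_⟩
  have h3 := one_le_sqrt τ
  have h4 := abs_le_sqrt' τ
  have h5 : 0 < Real.sqrt (1 + τ ^ 2) := lt_of_lt_of_le one_pos h3
  have h6 : -(2 * τ / (2 * Real.sqrt (1 + τ ^ 2))) / Real.sqrt (1 + τ ^ 2) ^ 2 =
      -(τ / Real.sqrt (1 + τ ^ 2) ^ 3) := by
    field_simp
  rw [h6, abs_neg, abs_div, abs_of_pos (pow_pos h5 3), div_le_one (pow_pos h5 3)]
  refine h4.trans ?_
  calc Real.sqrt (1 + τ ^ 2) = Real.sqrt (1 + τ ^ 2) ^ 1 := (pow_one _).symm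
    _ ≤ Real.sqrt (1 + τ ^ 2) ^ 3 := pow_le_pow_right₀ h3 (by norm_num)

/-- the function of the vertical momentum -/
theorem eta_deriv {ψ : ℝ → ℝ} (hψ : Cut ψ (-1) 1) (hψ1 : ∀ x, ψ x ≤ 1) {M : ℝ}
    (hM : ∀ x, |deriv ψ x| ≤ M) {T : ℝ} (hT : 2 ≤ T) (τ : ℝ) :
    ∃ d, HasDerivAt (fun t => ψ (t / T) * bet t) d τ ∧ |d| ≤ M + 1 ∧ (d ≠ 0 → |τ| ≤ T) := by
  have hT0 : 0 < T := by linarith
  obtain ⟨b', hb', hb1⟩ := bet_deriv τ
  have hd : HasDerivAt ψ (deriv ψ (τ / T)) (τ / T) :=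
    (hψ.smooth.differentiable (by simp) _).hasDerivAt
  have h1 : HasDerivAt (fun t => ψ (t / T)) (deriv ψ (τ / T) * (1 / T)) τ :=
    hd.comp τ ((hasDerivAt_id τ).div_const T)
  have h2 := h1.mul hb'
  refine ⟨_, h2, ?_, ?_⟩
  · have e1 : |deriv ψ (τ / T) * (1 / T) * bet τ| ≤ M := by
      rw [abs_mul, abs_mul, abs_of_pos (bet_pos τ), abs_of_pos (by positivity : (0 : ℝ) < 1 / T)]
      have h3 : 1 / T ≤ 1 := by
        rw [div_le_one hT0]
        linarith
      have h4 := hM (τ / T)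
      have h5 := bet_le τ
      have h6 := abs_nonneg (deriv ψ (τ / T))
      have h7 := (bet_pos τ).le
      calc |deriv ψ (τ / T)| * (1 / T) * bet τ ≤ |deriv ψ (τ / T)| * 1 * 1 := by gcongr
        _ ≤ M := by linarith
    have e2 : |ψ (τ / T) * b'| ≤ 1 := by
      rw [abs_mul, abs_of_nonneg (hψ.nonneg _)]
      calc ψ (τ / T) * |b'| ≤ 1 * 1 := mul_le_mul (hψ1 _) hb1 (abs_nonneg _) zero_le_one
        _ = 1 := one_mul 1
    exact (abs_add_le _ _).trans (add_le_add e1 e2)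
  · intro hne
    have h8 : deriv ψ (τ / T) ≠ 0 ∨ ψ (τ / T) ≠ 0 := by
      by_contra hcon
      push Not at hcon
      apply hne
      rw [hcon.1, hcon.2]
      ring
    have h9 : -1 ≤ τ / T ∧ τ / T ≤ 1 := by
      rcases h8 with h | h
      · exact cut_deriv hψ _ h
      · exact hψ.supp _ h
    rw [abs_le]
    constructor
    · have := h9.1
      rw [le_div_iff₀ hT0] at this
      linarith
    · have := h9.2
      rw [div_le_iff₀ hT0] at this
      linarith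

end IQA0

open IQA0 in
theorem pr_A0 (h1 : StXt) (h2 : StPw) (h3 : StHc) : StA0 := by
  intro m g gh g0 φ M φ0 M0 hS K hK ψ ϑ w0 ψ1 θ1 hB
  obtain ⟨C1, hC1, hev1⟩ := h2 m g gh g0 φ M φ0 M0 hS K hK
  have hev2 := h3 m g gh g0 φ M φ0 M0 hS K hK (1 / 8) (by norm_num)
  obtain ⟨Mp, hMp0, hMp⟩ := cut_bound hB.psi
  obtain ⟨Mt, hMt0, hMt⟩ := cut_bound hB.th
  refine ⟨1 / 2 * C1 * (Mp + 1 + Mt) , by positivity, ?_⟩
  filter_upwards [hev1, hev2] with j hj1 hj2
  intro T hT z hz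
  have hT0 : 0 < T := by linarith
  obtain ⟨sta, sH, xta, -, xH, -, -, hH0, hHm, -⟩ := h1 m (g j) (hS.riem j) (hS.blk j)
  obtain ⟨d, hd, hdM, hdT⟩ := eta_deriv hB.psi hB.psi_le hMp hT (ta z)
  -- derivative of the test function
  have hta : HasFDerivAt (ta (m := m)) (fderiv ℝ ta z) z :=
    (sta.differentiable (by simp) z).hasFDerivAt
  have hHd : HasFDerivAt (Hh (g j)) (fderiv ℝ (Hh (g j)) z) z :=
    (sH.differentiable (by simp) z).hasFDerivAt
  have hϑ : HasDerivAt ϑ (deriv ϑ (Hh (g j) z)) (Hh (g j) z) :=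
    (hB.th.smooth.differentiable (by simp) _).hasDerivAt
  have e1 := (hd.comp_hasFDerivAt z hta).mul (hϑ.comp_hasFDerivAt z hHd)
  have e2 : XX (g j) (phi0 (g j) ψ ϑ T) z = 1 / 2 * dd1 (g j) z *
      (d * ϑ (Hh (g j) z) - ψ (ta z / T) * bet (ta z) * ta z * deriv ϑ (Hh (g j) z)) := by
    have e3 : HasFDerivAt (phi0 (g j) ψ ϑ T) _ z := e1
    have x1 : fderiv ℝ (ta (m := m)) z (XH (Hm (g j)) z) = 1 / 2 * dd1 (g j) z := xta z
    have x2 : fderiv ℝ (Hh (g j)) z (XH (Hm (g j)) z) = -(1 / 2 * ta z * dd1 (g j) z) := xH z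
    unfold XX
    rw [e3.fderiv]
    simp only [_root_.add_apply, _root_.smul_apply, smul_eq_mul, Function.comp_apply, x1, x2]
    ring
  have hψ0 : 0 ≤ ψ (ta z / T) := hB.psi.nonneg _
  have hϑ0 : 0 ≤ ϑ (Hh (g j) z) := hB.th.nonneg _
  have hb0 := bet_pos (ta z)
  -- the support
  have hsupp : phi0 (g j) ψ ϑ T z ≠ 0 ∨ XX (g j) (phi0 (g j) ψ ϑ T) z ≠ 0 →
      |ta z| ≤ T ∧ 1 / 8 ≤ Hh (g j) z ∧ Hh (g j) z ≤ 3 / 8 ∧ Hh (gh j) z ≤ 1 / 2 := by
    intro h
    have hψT : ψ (ta z / T) ≠ 0 → |ta z| ≤ T := by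
      intro hne
      have h9 := hB.psi.supp _ hne
      rw [abs_le]
      constructor
      · have := h9.1
        rw [le_div_iff₀ hT0] at this
        linarith
      · have := h9.2
        rw [div_le_iff₀ hT0] at this
        linarith
    have key : |ta z| ≤ T ∧ 1 / 8 ≤ Hh (g j) z ∧ Hh (g j) z ≤ 3 / 8 := by
      rcases h with h | h
      · have a1 : ψ (ta z / T) ≠ 0 := fun h0 => h (by unfold phi0; rw [h0]; ring)
        have a2 : ϑ (Hh (g j) z) ≠ 0 := fun h0 => h (by unfold phi0; rw [h0]; ring)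
        exact ⟨hψT a1, hB.th.supp _ a2⟩
      · rw [e2] at h
        have h' := right_ne_zero_of_mul h
        by_cases c1 : d * ϑ (Hh (g j) z) = 0
        · rw [c1, zero_sub] at h'
          have h'' := neg_ne_zero.1 h'
          have a1 : ψ (ta z / T) ≠ 0 := fun h0 => h'' (by rw [h0]; ring)
          have a2 : deriv ϑ (Hh (g j) z) ≠ 0 := fun h0 => h'' (by rw [h0]; ring)
          exact ⟨hψT a1, cut_deriv hB.th _ a2⟩
        · exact ⟨hdT (left_ne_zero_of_mul c1), hB.th.supp _ (right_ne_zero_of_mul c1)⟩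
    obtain ⟨k1, k2, k3⟩ := key
    have h4 := hj2 z ⟨z.1, hz, 0, by rw [zero_smul, add_zero]⟩ (Or.inl (by linarith))
    have h5 := (abs_le.1 h4).1
    exact ⟨k1, k2, k3, by linarith⟩
  refine ⟨hsupp, ?_, ?_, ?_⟩
  · unfold phi0
    rw [abs_of_nonneg (by positivity)]
    have a1 := hB.psi_le (ta z / T)
    have a2 := hB.th_le (Hh (g j) z)
    calc ψ (ta z / T) * bet (ta z) * ϑ (Hh (g j) z) ≤ 1 * bet (ta z) * 1 := by gcongr
      _ = bet (ta z) := by ring
  · by_cases hne : XX (g j) (phi0 (g j) ψ ϑ T) z = 0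
    · rw [hne, abs_zero]
      have : 0 ≤ NN (g j) z.1 := NN_nonneg _ _
      positivity
    · obtain ⟨k1, k2, k3, k4⟩ := hsupp (Or.inr hne)
      have h5 := (hj1 z ⟨⟨z.1, hz, 0, by rw [zero_smul, add_zero]⟩, by linarith⟩).1
      rw [e2, abs_mul, abs_mul, abs_of_pos (by norm_num : (0 : ℝ) < 1 / 2)]
      have h6 : |d * ϑ (Hh (g j) z) - ψ (ta z / T) * bet (ta z) * ta z * deriv ϑ (Hh (g j) z)| ≤
          Mp + 1 + Mt := by
        refine (abs_sub _ _).trans (add_le_add ?_ ?_)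
        · rw [abs_mul, abs_of_nonneg hϑ0]
          calc |d| * ϑ (Hh (g j) z) ≤ (Mp + 1) * 1 :=
                mul_le_mul hdM (hB.th_le _) hϑ0 (by linarith)
            _ = Mp + 1 := mul_one _
        · rw [abs_mul, abs_mul, abs_mul, abs_of_nonneg hψ0, abs_of_pos hb0]
          have h7 : bet (ta z) * |ta z| ≤ 1 := by
            rw [mul_comm]
            exact abs_mul_bet _
          have h8 : ψ (ta z / T) * bet (ta z) * |ta z| ≤ 1 := by
            rw [mul_assoc]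
            exact mul_le_one₀ (hB.psi_le _) (by positivity) h7
          calc ψ (ta z / T) * bet (ta z) * |ta z| * |deriv ϑ (Hh (g j) z)| ≤ 1 * Mt :=
                mul_le_mul h8 (hMt _) (abs_nonneg _) zero_le_one
            _ = Mt := one_mul _
      have hN : 0 ≤ NN (g j) z.1 := NN_nonneg _ _
      calc 1 / 2 * |dd1 (g j) z| *
            |d * ϑ (Hh (g j) z) - ψ (ta z / T) * bet (ta z) * ta z * deriv ϑ (Hh (g j) z)|
          ≤ 1 / 2 * (C1 * NN (g j) z.1) * (Mp + 1 + Mt) := by gcongr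
        _ = 1 / 2 * C1 * (Mp + 1 + Mt) * NN (g j) z.1 := by ring
  · intro hle
    have hh0 := hH0 z
    have hm := hHm z
    have ht := sq_nonneg (ta z)
    constructor
    · rcases eq_or_lt_of_le (show 0 ≤ Hm (g j) z by rw [hm]; positivity) with h0 | h0
      · rw [← h0]
        simp
      · have : ta z ^ 2 / (2 * Hm (g j) z) ≤ 1 := by
          rw [div_le_one (by positivity)]
          rw [hm]
          linarith
        linarith
    · intro h0
      rw [bet_sq]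
      have e5 : 1 - ta z ^ 2 / (2 * Hm (g j) z) = 2 * Hh (g j) z / (2 * Hm (g j) z) := by
        rw [eq_div_iff (by positivity), sub_mul, div_mul_cancel₀ _ (by positivity)]
        rw [hm]
        ring
      rw [e5, div_le_div_iff₀ (by positivity) (by positivity), hm]
      nlinarith

end Pool.Agent.LQ
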