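import Mathlib
import Pool.Agent.Work.MP_13b5d9_gt.LQ.StmtsQ

set_option autoImplicit false

/-!
# MP_13b5d9_gt, block LQ, Theorem Q, item AvC: convergence of means
-/

open MeasureTheory Set Filter Topology
open scoped ContDiff ENNReal

namespace Pool.Agent.LQ

open Pool.Agent.MLS Pool.Agent.EC Pool.Agent.DR

theorem pr_AvC : StAvC := by
  intro m F f hF h x
  obtain ⟨C, -, hC⟩ := h.bdd (isCompact_closedBall x (1 + ‖(eL : E (m + 1))‖))
  have hball : ∀ᶠ y in 𝓝 x, y ∈ Metric.closedBall x (1 : ℝ) :=
    Metric.closedBall_mem_nhds x one_pos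
  refine intervalIntegral.tendsto_integral_filter_of_dominated_convergence (fun _ => C) ?_ ?_ ?_ ?_
  · refine Eventually.of_forall fun p => ?_
    have hc : Continuous fun s : ℝ => F p.1 (p.2 + s • (eL : E (m + 1))) :=
      (hF p.1).comp (continuous_const.add (continuous_id.smul continuous_const))
    exact hc.aestronglyMeasurable
  · filter_upwards [hC.prod_mk hball] with p hp
    refine Eventually.of_forall fun s hs => ?_
    apply hp.1
    rw [uIoc_of_le zero_le_one] at hs
    have h1 : ‖s • (eL : E (m + 1))‖ ≤ ‖(eL : E (m + 1))‖ := by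
      rw [norm_smul, Real.norm_eq_abs, abs_of_pos hs.1]
      exact mul_le_of_le_one_left (norm_nonneg _) hs.2
    have h2 : ‖p.2 - x‖ ≤ 1 := by
      have := hp.2
      rwa [Metric.mem_closedBall, dist_eq_norm] at this
    rw [Metric.mem_closedBall, dist_eq_norm]
    have h3 : p.2 + s • (eL : E (m + 1)) - x = (p.2 - x) + s • (eL : E (m + 1)) := by abel
    rw [h3]
    exact (norm_add_le _ _).trans (add_le_add h2 h1)
  · exact intervalIntegrable_const
  · refine Eventually.of_forall fun s _ => ?_
    have h4 : Continuous fun y : E (m + 1) => y + s • (eL : E (m + 1)) :=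
      continuous_id.add continuous_const
    exact (h.compRight h4) x

end Pool.Agent.LQ
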