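import Pool.Agent.Work.MP_13b5d9_gt.LQ.StmtsQ

set_option autoImplicit false
set_option maxSynthPendingDepth 3

/-!
# MP_13b5d9_gt, block LQ, item AvE: the vertical mean of a metric
-/

open MeasureTheory Set Filter Topology
open scoped ContDiff ENNReal

namespace Pool.Agent.LQ

open Pool.Agent.MLS Pool.Agent.EC Pool.Agent.DR

namespace IQAvE

variable {m : ℕ}

theorem cont_seg (g : Form (m + 1)) (x : E (m + 1)) :
    Continuous (fun s : ℝ => g.val (x + s • eL)) :=
  g.smooth.continuous.comp (continuous_const.add (continuous_id.smul continuous_const))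

theorem avg_apply (g : Form (m + 1)) (x u v : E (m + 1)) :
    (∫ s in (0 : ℝ)..1, g.val (x + s • eL)) u v =
      ∫ s in (0 : ℝ)..1, g.val (x + s • eL) u v := by
  have h1 : IntervalIntegrable (fun s : ℝ => g.val (x + s • eL)) volume 0 1 :=
    (cont_seg g x).intervalIntegrable 0 1
  have h2 : IntervalIntegrable (fun s : ℝ => g.val (x + s • eL) u) volume 0 1 :=
    ((cont_seg g x).clm_apply continuous_const).intervalIntegrable 0 1
  rw [ContinuousLinearMap.intervalIntegral_apply h1 u, ContinuousLinearMap.intervalIntegral_apply h2 v]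

theorem cont_app (g : Form (m + 1)) (x u v : E (m + 1)) :
    Continuous (fun s : ℝ => g.val (x + s • eL) u v) :=
  ((cont_seg g x).clm_apply continuous_const).clm_apply continuous_const

/-- the vertical mean -/
noncomputable def gh (h2 : StPin) (g : Form (m + 1)) : Form (m + 1) where
  val := fun x => ∫ s in (0 : ℝ)..1, g.val (x + s • eL)
  smooth := by
    rw [contDiff_clm_apply_iff]
    intro u
    rw [contDiff_clm_apply_iff]
    intro v
    have h3 := (h2 m (fun x => g.val x u v)
      ((g.smooth.clm_apply contDiff_const).clm_apply contDiff_const)).1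
    have h4 : (fun x : E (m + 1) => (∫ s in (0 : ℝ)..1, g.val (x + s • eL)) u v) =
        fun x => ∫ s in (0 : ℝ)..1, g.val (x + s • eL) u v := by
      funext x
      exact avg_apply g x u v
    rw [h4]
    exact h3
  symm := by
    intro x u v
    rw [avg_apply, avg_apply]
    exact intervalIntegral.integral_congr fun s _ => g.symm _ _ _
  nonneg := by
    intro x v
    rw [avg_apply]
    exact intervalIntegral.integral_nonneg zero_le_one fun s _ => g.nonneg _ _

theorem gh_apply (h2 : StPin) (g : Form (m + 1)) (x u v : E (m + 1)) :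
    (gh h2 g).val x u v = ∫ s in (0 : ℝ)..1, g.val (x + s • eL) u v := avg_apply g x u v

end IQAvE

open IQAvE in
theorem pr_AvE (h1 : StPer) (h2 : StPin) : StAvE := by
  intro m G _ _ hV hz g hR hI hB
  have hper := h1 m G g hI hz
  refine ⟨gh h2 g, fun x u v => gh_apply h2 g x u v, ?_, ?_, ?_, ?_⟩
  · intro x v hv
    rw [gh_apply]
    exact intervalIntegral.intervalIntegral_pos_of_pos
      ((cont_app g x v v).intervalIntegrable 0 1) (fun s => hR _ v hv) zero_lt_one
  · intro a x u v
    rw [gh_apply, gh_apply]
    refine intervalIntegral.integral_congr fun s _ => ?_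
    have hd : dac a (x + s • (eL : E (m + 1))) = dac a x := by
      unfold dac
      rw [← fderiv_comp_add_right (𝕜 := ℝ) (f := fun y : E (m + 1) => a • y) (s • (eL : E (m + 1)))]
      have : (fun y : E (m + 1) => a • (y + s • (eL : E (m + 1)))) =
          fun y => a • y + s • (eL : E (m + 1)) := by
        funext y
        exact hV.comm a y s
      rw [this, fderiv_add_const]
    have h3 := hI a (x + s • (eL : E (m + 1))) u v
    rw [hd, hV.comm a x s] at h3
    exact h3
  · intro x v
    rw [gh_apply]
    have : (fun s : ℝ => g.val (x + s • (eL : E (m + 1))) eL v) = fun _ => v (Fin.last m) := by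
      funext s
      exact hB _ _
    rw [this]
    simp
  · intro x s
    show (∫ r in (0 : ℝ)..1, g.val (x + s • eL + r • eL)) = ∫ r in (0 : ℝ)..1, g.val (x + r • eL)
    have hp : Function.Periodic (fun r : ℝ => g.val (x + r • (eL : E (m + 1)))) 1 := by
      intro r
      show g.val (x + (r + 1) • eL) = g.val (x + r • eL)
      rw [add_smul, one_smul, ← add_assoc]
      exact hper _
    have h3 : (fun r : ℝ => g.val (x + s • eL + r • (eL : E (m + 1)))) =
        fun r : ℝ => (fun r : ℝ => g.val (x + r • (eL : E (m + 1)))) (s + r) := by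
      funext r
      show _ = g.val (x + (s + r) • eL)
      rw [add_smul, ← add_assoc]
    rw [h3, intervalIntegral.integral_comp_add_left (fun r : ℝ => g.val (x + r • (eL : E (m + 1)))) s]
    rw [add_zero, hp.intervalIntegral_add_eq s 0, zero_add]

end Pool.Agent.LQ
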