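import Pool.Agent.Work.MP_13b5d9_gt.LQ.StmtsQ

set_option autoImplicit false

/-!
# MP_13b5d9_gt, block LQ, item Bmp: bump functions
-/

open MeasureTheory Set Filter Topology
open scoped ContDiff ENNReal

namespace Pool.Agent.LQ

open Pool.Agent.MLS Pool.Agent.EC Pool.Agent.DR

namespace IQBmp

/-- a bump function with parameters -/
noncomputable def bp (c r R : ℝ) (hr : 0 < r) (hR : r < R) : ContDiffBump c := ⟨r, R, hr, hR⟩

theorem mem_of_ball {c R x : ℝ} (h : x ∈ Metric.ball c R) : c - R ≤ x ∧ x ≤ c + R := by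
  rw [Metric.mem_ball, Real.dist_eq, abs_lt] at h
  constructor <;> linarith [h.1, h.2]

theorem cut (c r R : ℝ) (hr : 0 < r) (hR : r < R) : Cut (bp c r R hr hR) (c - R) (c + R) where
  smooth := (bp c r R hr hR).contDiff
  nonneg := fun x => (bp c r R hr hR).nonneg
  supp := fun x hx => by
    have h : x ∈ Function.support (bp c r R hr hR) := hx
    rw [ContDiffBump.support_eq] at h
    exact mem_of_ball h

theorem one (c r R : ℝ) (hr : 0 < r) (hR : r < R) (x : ℝ) (hx : |x - c| ≤ r) :
    (bp c r R hr hR) x = 1 := by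
  apply ContDiffBump.one_of_mem_closedBall
  rw [Metric.mem_closedBall, Real.dist_eq]
  exact hx

theorem cutn : Cut ((bp 0 (1 / 2) 1 (by norm_num) (by norm_num)).normed volume) (-1) 1 where
  smooth := ContDiffBump.contDiff_normed _
  nonneg := fun x => ContDiffBump.nonneg_normed _ x
  supp := fun x hx => by
    have h : x ∈ Function.support ((bp 0 (1 / 2) 1 (by norm_num) (by norm_num)).normed volume) := hx
    rw [ContDiffBump.support_normed_eq] at h
    have := mem_of_ball h
    simp only [bp] at this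
    constructor <;> linarith [this.1, this.2]

end IQBmp

theorem pr_Bmp : StBmp := by
  refine ⟨IQBmp.bp 0 (1 / 2) 1 (by norm_num) (by norm_num),
    IQBmp.bp (1 / 4) (1 / 16) (1 / 8) (by norm_num) (by norm_num),
    (IQBmp.bp 0 (1 / 2) 1 (by norm_num) (by norm_num)).normed volume,
    IQBmp.bp 0 1 2 (by norm_num) (by norm_num),
    IQBmp.bp 0 (1 / 2) 1 (by norm_num) (by norm_num), ?_⟩
  constructor
  · have h := IQBmp.cut 0 (1 / 2) 1 (by norm_num) (by norm_num)
    rwa [zero_sub, zero_add] at h
  · exact fun x => ContDiffBump.le_one _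
  · exact fun x hx => IQBmp.one _ _ _ _ _ x (by rwa [sub_zero])
  · have h := IQBmp.cut (1 / 4) (1 / 16) (1 / 8) (by norm_num) (by norm_num)
    have e1 : (1 / 4 : ℝ) - 1 / 8 = 1 / 8 := by norm_num
    have e2 : (1 / 4 : ℝ) + 1 / 8 = 3 / 8 := by norm_num
    rwa [e1, e2] at h
  · exact fun x => ContDiffBump.le_one _
  · intro x h1 h2
    apply ContDiffBump.pos_of_mem_ball
    rw [Metric.mem_ball, Real.dist_eq, abs_lt]
    simp only [IQBmp.bp]
    constructor <;> linarith
  · exact IQBmp.cutn
  · exact ContDiffBump.integral_normed _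
  · have h := IQBmp.cut 0 1 2 (by norm_num) (by norm_num)
    rwa [zero_sub, zero_add] at h
  · exact fun x => ContDiffBump.le_one _
  · exact fun x hx => IQBmp.one _ _ _ _ _ x (by rwa [sub_zero])
  · have h := IQBmp.cut 0 (1 / 2) 1 (by norm_num) (by norm_num)
    rwa [zero_sub, zero_add] at h
  · exact fun x => ContDiffBump.le_one _
  · exact fun x hx => IQBmp.one _ _ _ _ _ x (by rwa [sub_zero])

end Pool.Agent.LQ
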