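import Mathlib
import Pool.Agent.Work.MP_13b5d9_gt.LQ.StmtsQ

set_option autoImplicit false

/-!
# MP_13b5d9_gt, block LQ, Theorem Q, item C0: the leading term
-/

open MeasureTheory Set Filter Topology
open scoped ContDiff ENNReal
open Pool.Agent.Work.MP_c9f990_an.Al (IsFlow)

namespace Pool.Agent.LQ

open Pool.Agent.MLS Pool.Agent.EC Pool.Agent.DR

namespace IQC0

lemma bet_smooth : ContDiff ℝ ∞ bet := by
  unfold bet
  have h1 : ContDiff ℝ ∞ (fun τ : ℝ => 1 + τ ^ 2) := contDiff_const.add (contDiff_id.pow 2)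
  have h2 : ∀ τ : ℝ, (1 + τ ^ 2) ≠ 0 := fun τ => by positivity
  have h3 : ContDiff ℝ ∞ (fun τ : ℝ => Real.sqrt (1 + τ ^ 2)) := h1.sqrt h2
  exact h3.inv fun τ => (Real.sqrt_pos.2 (by positivity)).ne'

lemma De_comp {m : ℕ} (η : ℝ → ℝ) (h : W (m + 1) → ℝ) (hη : ContDiff ℝ ∞ η) (hh : ContDiff ℝ ∞ h)
    (z : W (m + 1)) : De (fun z => η (h z)) z = deriv η (h z) * De h z := by
  have e1 : HasFDerivAt (fun z => η (h z)) (deriv η (h z) • fderiv ℝ h z) z :=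
    ((hη.differentiable (by norm_num)) (h z)).hasDerivAt.comp_hasFDerivAt z
      ((hh.differentiable (by norm_num)) z).hasFDerivAt
  unfold De
  rw [e1.fderiv]
  rfl

end IQC0

theorem pr_C0 (h1 : StIbp2) (h2 : StXt) (h3 : StLft) (h4 : StLftA) : StC0 := by
  intro m G _ _ hC hV g hR hI hB ψ ϑ w0 ψ1 θ1 hb T hT χ hχ
  obtain ⟨x1, x2, x3, x4, x5, x6, x7, x8, x9, -⟩ := h2 m g hR hB
  obtain ⟨-, l2, -, -, -⟩ := h4 _ G hC g hR hI
  obtain ⟨-, -, -, -, k5⟩ := h3 m G hC hV g g hR hR hI hI hB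
  set η : ℝ → ℝ := fun τ => ψ (τ / T) * bet τ with hηd
  have hη : ContDiff ℝ ∞ η := (hb.psi.smooth.comp (contDiff_id.div_const T)).mul IQC0.bet_smooth
  have ha : ContDiff ℝ ∞ (fun z : W (m + 1) => η (ta z)) := hη.comp x1
  have hbb : ContDiff ℝ ∞ (fun z : W (m + 1) => ϑ (Hh g z)) := hb.th.smooth.comp x2
  have hf : ContDiff ℝ ∞ (fun z : W (m + 1) => phi0 g ψ ϑ T z ^ 2) := (ha.mul hbb).pow 2
  have hfi : GInv G g (fun z : W (m + 1) => phi0 g ψ ϑ T z ^ 2) := by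
    intro a z
    show phi0 g ψ ϑ T (lft g a z) ^ 2 = phi0 g ψ ϑ T z ^ 2
    have e1 : Hh g (lft g a z) = Hh g z := by unfold Hh; rw [l2, k5]
    unfold phi0
    rw [e1, k5]
  have hsupp : ∀ z : W (m + 1), phi0 g ψ ϑ T z ^ 2 ≠ 0 → Hm g z ≤ 3 / 8 + T ^ 2 / 2 := by
    intro z hz
    have hz' : phi0 g ψ ϑ T z ≠ 0 := fun h => hz (by rw [h]; norm_num)
    unfold phi0 at hz'
    have h5 : ϑ (Hh g z) ≠ 0 := right_ne_zero_of_mul hz'
    have h6 : ψ (ta z / T) ≠ 0 := left_ne_zero_of_mul (left_ne_zero_of_mul hz')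
    obtain ⟨-, h7⟩ := hb.th.supp _ h5
    obtain ⟨h8, h9⟩ := hb.psi.supp _ h6
    rw [div_le_iff₀ hT] at h9
    rw [le_div_iff₀ hT] at h8
    rw [x9]
    nlinarith
  have hDe : ∀ z : W (m + 1), De (fun z : W (m + 1) => phi0 g ψ ϑ T z ^ 2) z =
      -((ψ (ta z / T) * bet (ta z)) ^ 2 * ϑ (Hh g z) * deriv ϑ (Hh g z) * dd1 g z) := by
    intro z
    have e1 : De (fun z : W (m + 1) => η (ta z)) z = 0 := by
      rw [IQC0.De_comp η ta hη x1, x6, mul_zero]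
    have e2 : De (fun z : W (m + 1) => ϑ (Hh g z)) z = deriv ϑ (Hh g z) * (-(1 / 2 * dd1 g z)) := by
      rw [IQC0.De_comp ϑ (Hh g) hb.th.smooth x2, x7]
    have d1 : HasFDerivAt (fun z : W (m + 1) => η (ta z)) (fderiv ℝ (fun z : W (m + 1) => η (ta z)) z) z :=
      ((ha.differentiable (by norm_num)) z).hasFDerivAt
    have d2 : HasFDerivAt (fun z : W (m + 1) => ϑ (Hh g z)) (fderiv ℝ (fun z : W (m + 1) => ϑ (Hh g z)) z) z :=
      ((hbb.differentiable (by norm_num)) z).hasFDerivAt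
    have d3 := (d1.mul d2).pow 2
    unfold De at e1 e2 ⊢
    have e3 : fderiv ℝ (fun z : W (m + 1) => phi0 g ψ ϑ T z ^ 2) z = _ := d3.fderiv
    rw [e3]
    simp only [ContinuousLinearMap.smul_apply, ContinuousLinearMap.add_apply, smul_eq_mul, nsmul_eq_mul]
    rw [e1, e2]
    simp only [hηd, Pi.mul_apply]
    push_cast
    ring
  have hmain := h1 m G hC hV g hR hI hB χ hχ (fun z => phi0 g ψ ϑ T z ^ 2) (3 / 8 + T ^ 2 / 2)
    (hf.of_le (by exact_mod_cast le_top)) hfi hsupp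
  have e4 : ∫ z : W (m + 1), χ z.1 * (De (fun z : W (m + 1) => phi0 g ψ ϑ T z ^ 2) z * DR.d1 g z.1 (vel g z)) =
      -∫ z : W (m + 1), χ z.1 * ((ψ (ta z / T) * bet (ta z)) ^ 2 * ϑ (Hh g z) * deriv ϑ (Hh g z) * dd1 g z ^ 2) := by
    rw [← integral_neg]
    congr 1
    funext z
    rw [hDe z, show DR.d1 g z.1 (vel g z) = dd1 g z from rfl]
    ring
  rw [e4, neg_neg] at hmain
  exact hmain

end Pool.Agent.LQ
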