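import Pool.Agent.Work.MP_13b5d9_gt.LQ.StmtsQ

set_option autoImplicit false

/-!
# MP_13b5d9_gt, block LQ, item CvD: convergence of the derivative of the Hamiltonian field
-/

open MeasureTheory Set Filter Topology
open scoped ContDiff ENNReal
open Pool.Agent.Work.MP_c9f990_an.Al (IsFlow)

namespace Pool.Agent.LQ

open Pool.Agent.MLS Pool.Agent.EC Pool.Agent.DR

namespace IQCvD

theorem expand {n : ℕ} (x : E n) : x = ∑ i, x i • ee i := by
  ext k
  simp only [WithLp.ofLp_sum, Finset.sum_apply, PiLp.smul_apply, smul_eq_mul]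
  rw [Finset.sum_eq_single k]
  · simp [ee]
  · intro i _ hi
    simp [ee, hi]
  · intro hk
    exact absurd (Finset.mem_univ k) hk

theorem cc_clm {α V : Type*} [TopologicalSpace α] [NormedAddCommGroup V] [NormedSpace ℝ V] {n : ℕ}
    {A : ℕ → α → E n →L[ℝ] V} {a : α → E n →L[ℝ] V}
    (h : ∀ u, CC (fun j x => A j x u) (fun x => a x u)) : CC A a := by
  have e : ∀ B : E n →L[ℝ] V, ∑ i, (EuclideanSpace.proj (𝕜 := ℝ) i : E n →L[ℝ] ℝ).smulRight
      (B (ee i)) = B := by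
    intro B
    ext u
    conv_rhs => rw [expand u, map_sum]
    rw [_root_.sum_apply]
    refine Finset.sum_congr rfl fun i _ => ?_
    rw [map_smul]
    rfl
  have h1 : ∀ i : Fin n, CC (fun j x => (EuclideanSpace.proj (𝕜 := ℝ) i : E n →L[ℝ] ℝ).smulRight
      (A j x (ee i))) (fun x => (EuclideanSpace.proj (𝕜 := ℝ) i : E n →L[ℝ] ℝ).smulRight
      (a x (ee i))) := fun i =>
    (h (ee i)).comp' (u := fun v => (EuclideanSpace.proj (𝕜 := ℝ) i : E n →L[ℝ] ℝ).smulRight v)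
      (ContinuousLinearMap.smulRightL ℝ (E n) V (EuclideanSpace.proj (𝕜 := ℝ) i)).continuous
  exact (CC.sum Finset.univ fun i _ => h1 i).congr (fun j x => e _) fun x => e _

theorem cc_ap {α V : Type*} [TopologicalSpace α] [NormedAddCommGroup V] [NormedSpace ℝ V] {n : ℕ}
    {A : ℕ → α → E n →L[ℝ] V} {a : α → E n →L[ℝ] V}
    (h : ∀ u, CC (fun j x => A j x u) (fun x => a x u)) {U : ℕ → α → E n} {u : α → E n}
    (hU : CC U u) : CC (fun j x => A j x (U j x)) (fun x => a x (u x)) :=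
  (cc_clm h).clm_apply hU

/-- second derivative of the metric -/
noncomputable def T {n : ℕ} (g : Form n) (i : Fin n) (x : E n) :
    E n →L[ℝ] E n →L[ℝ] E n →L[ℝ] ℝ := fderiv ℝ (fun y => fderiv ℝ g.val y (ee i)) x

theorem hasT {n : ℕ} (g : Form n) (i : Fin n) (x : E n) :
    HasFDerivAt (fun y => fderiv ℝ g.val y (ee i)) (T g i x) x := by
  have h1 : ContDiff ℝ ∞ (fun y => fderiv ℝ g.val y (ee i)) :=
    (g.smooth.fderiv_right (by norm_num)).clm_apply contDiff_const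
  exact (h1.differentiable (by norm_num) x).hasFDerivAt

theorem T_apply {n : ℕ} (g : Form n) (i : Fin n) (x u v w : E n) :
    T g i x u v w = fderiv ℝ (fun y => fderiv ℝ g.val y (ee i) v w) x u := by
  have h1 := ((hasT g i x).clm_apply (hasFDerivAt_const v x)).clm_apply (hasFDerivAt_const w x)
  rw [h1.fderiv]
  simp

theorem hasVel {n : ℕ} (h2 : StOp) (g : Form n) (hg : Riem g) (z : W n) :
    HasFDerivAt (vel g) (fderiv ℝ (vel g) z) z := by
  obtain ⟨-, -, -, -, -, -, h7, -, -⟩ := h2 n g hg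
  have h : ContDiff ℝ ∞ (vel g) := (h7.comp contDiff_fst).clm_apply contDiff_snd
  exact (h.differentiable (by norm_num) z).hasFDerivAt

theorem fvel {n : ℕ} (h2 : StOp) (g : Form n) (hg : Riem g) (z w : W n) :
    fderiv ℝ (vel g) z w = iop g z.1 (w.2 - sh (fderiv ℝ g.val z.1 w.1 (vel g z))) := by
  obtain ⟨-, -, hl, hr, -, -, -, -, -⟩ := h2 n g hg
  have h1 : HasFDerivAt (fun y : W n => g.val y.1)
      ((fderiv ℝ g.val z.1).comp (ContinuousLinearMap.fst ℝ (E n) (E n))) z :=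
    ((g.smooth.differentiable (by norm_num) z.1).hasFDerivAt).comp z hasFDerivAt_fst
  have h3 := h1.clm_apply (hasVel h2 g hg z)
  have h4 := (sh (n := n)).hasFDerivAt.comp z h3
  have h5 : (fun y : W n => sh (g.val y.1 (vel g y))) = fun y => y.2 := by
    funext y
    exact hr y.1 y.2
  have h6 : HasFDerivAt (fun y : W n => sh (g.val y.1 (vel g y))) _ z := h4
  rw [h5] at h6
  have h7 := h6.unique hasFDerivAt_snd
  have h8 := DFunLike.congr_fun h7 w
  have h9 : sh (g.val z.1 (fderiv ℝ (vel g) z w) + fderiv ℝ g.val z.1 w.1 (vel g z)) = w.2 := by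
    simpa using h8
  rw [map_add] at h9
  have h10 : op g z.1 (fderiv ℝ (vel g) z w) = w.2 - sh (fderiv ℝ g.val z.1 w.1 (vel g z)) :=
    eq_sub_of_add_eq h9
  rw [← h10, hl]

theorem xh_eq {n : ℕ} (h4 : StHd) (g : Form n) (hg : Riem g) (z : W n) :
    XH (Hm g) z = (vel g z, ∑ i, (1 / 2 * fderiv ℝ g.val z.1 (ee i) (vel g z) (vel g z)) • ee i) := by
  obtain ⟨e1, e2⟩ := h4 n g hg z
  refine Prod.ext e1 ?_
  have h : ∀ x : E n, x = ∑ i, (inner ℝ x (ee i)) • ee i := by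
    intro x
    conv_lhs => rw [expand x]
    refine Finset.sum_congr rfl fun i _ => ?_
    simp [ee, EuclideanSpace.inner_single_right]
  rw [h (XH (Hm g) z).2]
  refine Finset.sum_congr rfl fun i _ => ?_
  rw [e2]

theorem fxh {n : ℕ} (h2 : StOp) (h4 : StHd) (g : Form n) (hg : Riem g) (z w : W n) :
    fderiv ℝ (XH (Hm g)) z w = (fderiv ℝ (vel g) z w,
      ∑ i, (1 / 2 * (T g i z.1 w.1 (vel g z) (vel g z) +
        fderiv ℝ g.val z.1 (ee i) (fderiv ℝ (vel g) z w) (vel g z) +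
        fderiv ℝ g.val z.1 (ee i) (vel g z) (fderiv ℝ (vel g) z w))) • ee i) := by
  have hX : XH (Hm g) = fun z => (vel g z,
      ∑ i, (1 / 2 * fderiv ℝ g.val z.1 (ee i) (vel g z) (vel g z)) • ee i) :=
    funext fun z => xh_eq h4 g hg z
  have hv := hasVel h2 g hg z
  have h1 : ∀ i, HasFDerivAt (fun y : W n => fderiv ℝ g.val y.1 (ee i))
      ((T g i z.1).comp (ContinuousLinearMap.fst ℝ (E n) (E n))) z := by
    intro i
    have hf : HasFDerivAt (fun y : W n => y.1) (ContinuousLinearMap.fst ℝ (E n) (E n)) z :=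
      hasFDerivAt_fst
    exact HasFDerivAt.comp (f := fun y : W n => y.1)
      (g := fun y => fderiv ℝ g.val y (ee i)) z (hasT g i z.1) hf
  have h3 : ∀ i, HasFDerivAt (fun y : W n => (1 / 2 * fderiv ℝ g.val y.1 (ee i) (vel g y)
      (vel g y)) • (ee i : E n)) _ z := fun i =>
    (((((h1 i).clm_apply hv).clm_apply hv).const_mul (1 / 2)).smul_const (ee i))
  have h5 := hv.prodMk (HasFDerivAt.fun_sum (u := Finset.univ) fun i _ => h3 i)
  rw [hX, h5.fderiv]
  refine Prod.ext rfl ?_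
  simp only [ContinuousLinearMap.prod_apply, _root_.sum_apply]
  refine Finset.sum_congr rfl fun i _ => ?_
  simp
  congr 1
  ring

end IQCvD

open IQCvD in
theorem pr_CvD (h1 : StCvH) (h2 : StOp) (h3 : StHd) : StCvD := by
  intro m g gh g0 φ M φ0 M0 hS
  obtain ⟨-, i2, -, v2, -⟩ := h1 m g gh g0 φ M φ0 M0 hS
  have hT : ∀ (i : Fin (m + 1)) (u : E (m + 1)),
      CC (fun j x => T (gh j) i x u) (fun x => T g0 i x u) := fun i u =>
    cc_clm (V := E (m + 1) →L[ℝ] ℝ) fun v => cc_clm (V := ℝ) fun w =>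
      (hS.h2 (ee i) v w u).congr (fun j x => (T_apply (gh j) i x u v w).symm)
        fun x => (T_apply g0 i x u v w).symm
  have hp : Continuous fun p : W (m + 1) × W (m + 1) => p.1.1 := by fun_prop
  have hq : CC (fun (_ : ℕ) (p : W (m + 1) × W (m + 1)) => p.2.1) (fun p => p.2.1) :=
    CC.const (by fun_prop)
  have hT2 : ∀ i : Fin (m + 1), CC (fun j (p : W (m + 1) × W (m + 1)) =>
      T (gh j) i p.1.1 p.2.1) (fun p => T g0 i p.1.1 p.2.1) := fun i =>
    cc_ap (V := E (m + 1) →L[ℝ] E (m + 1) →L[ℝ] ℝ)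
      (A := fun j (p : W (m + 1) × W (m + 1)) => T (gh j) i p.1.1)
      (a := fun p => T g0 i p.1.1) (fun u => (hT i u).compRight hp) hq
  have hd2 : CC (fun j (p : W (m + 1) × W (m + 1)) => fderiv ℝ (gh j).val p.1.1 p.2.1)
      (fun p => fderiv ℝ g0.val p.1.1 p.2.1) :=
    cc_ap (V := E (m + 1) →L[ℝ] E (m + 1) →L[ℝ] ℝ)
      (A := fun j (p : W (m + 1) × W (m + 1)) => fderiv ℝ (gh j).val p.1.1)
      (a := fun p => fderiv ℝ g0.val p.1.1) (fun u => (hS.h1 u).compRight hp) hq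
  have hv : CC (fun j (p : W (m + 1) × W (m + 1)) => vel (gh j) p.1) (fun p => vel g0 p.1) :=
    v2.compRight continuous_fst
  have hV : CC (fun j (p : W (m + 1) × W (m + 1)) => fderiv ℝ (vel (gh j)) p.1 p.2)
      (fun p => fderiv ℝ (vel g0) p.1 p.2) := by
    have q1 : CC (fun j (p : W (m + 1) × W (m + 1)) =>
        fderiv ℝ (gh j).val p.1.1 p.2.1 (vel (gh j) p.1))
        (fun p => fderiv ℝ g0.val p.1.1 p.2.1 (vel g0 p.1)) :=
      hd2.clm_apply hv
    have q2 := q1.comp' (u := fun l => sh (n := m + 1) l) (sh (n := m + 1)).continuous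
    have q3 : CC (fun j (p : W (m + 1) × W (m + 1)) => iop (gh j) p.1.1
        (p.2.2 - sh (fderiv ℝ (gh j).val p.1.1 p.2.1 (vel (gh j) p.1))))
        (fun p => iop g0 p.1.1 (p.2.2 - sh (fderiv ℝ g0.val p.1.1 p.2.1 (vel g0 p.1)))) :=
      (i2.compRight hp).clm_apply ((CC.const (by fun_prop)).sub q2)
    exact q3.congr (fun j p => (fvel h2 (gh j) (hS.riemh j) p.1 p.2).symm)
      fun p => (fvel h2 g0 hS.riem0 p.1 p.2).symm
  refine ⟨?_, hV⟩
  have hi : ∀ i : Fin (m + 1), CC (fun j (p : W (m + 1) × W (m + 1)) =>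
      fderiv ℝ (gh j).val p.1.1 (ee i)) (fun p => fderiv ℝ g0.val p.1.1 (ee i)) := fun i =>
    (hS.h1 (ee i)).compRight hp
  have hs : ∀ i : Fin (m + 1), CC (fun j (p : W (m + 1) × W (m + 1)) =>
      T (gh j) i p.1.1 p.2.1 (vel (gh j) p.1) (vel (gh j) p.1) +
        fderiv ℝ (gh j).val p.1.1 (ee i) (fderiv ℝ (vel (gh j)) p.1 p.2) (vel (gh j) p.1) +
        fderiv ℝ (gh j).val p.1.1 (ee i) (vel (gh j) p.1) (fderiv ℝ (vel (gh j)) p.1 p.2))
      (fun p => T g0 i p.1.1 p.2.1 (vel g0 p.1) (vel g0 p.1) +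
        fderiv ℝ g0.val p.1.1 (ee i) (fderiv ℝ (vel g0) p.1 p.2) (vel g0 p.1) +
        fderiv ℝ g0.val p.1.1 (ee i) (vel g0 p.1) (fderiv ℝ (vel g0) p.1 p.2)) := fun i =>
    ((((hT2 i).clm_apply hv).clm_apply hv).add
      (((hi i).clm_apply hV).clm_apply hv)).add (((hi i).clm_apply hv).clm_apply hV)
  have hX := hV.prodMk (CC.sum Finset.univ fun i _ =>
    ((CC.const (continuous_const (y := (1 / 2 : ℝ)))).mul (hs i)).smul
      (CC.const (continuous_const (y := (ee i : E (m + 1))))))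
  exact hX.congr (fun j p => (fxh h2 h3 (gh j) (hS.riemh j) p.1 p.2).symm)
    fun p => (fxh h2 h3 g0 hS.riem0 p.1 p.2).symm

end Pool.Agent.LQ
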