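import Pool.Agent.Work.MP_13b5d9_gt.LQ.StmtsQ
import Pool.Agent.Work.MP_13b5d9_gt.DR.I_Dde
import Pool.Agent.Work.MP_13b5d9_gt.DR.I_Kk

set_option autoImplicit false
set_option maxSynthPendingDepth 3

/-!
# MP_13b5d9_gt, block LQ, Theorem Q, item Deu: the vertical derivative of `g` at the velocity of the
mean metric
-/

open MeasureTheory Set Filter Topology
open scoped ContDiff ENNReal
open Pool.Agent.Work.MP_c9f990_an.Al (IsFlow)

namespace Pool.Agent.LQ

open Pool.Agent.MLS Pool.Agent.EC Pool.Agent.DR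

namespace IQDeu

open Pool.Agent.DR.IDRDde Pool.Agent.DR.IDRKk

variable {m : ℕ}

/-- derivative along a vertical line, at any time -/
theorem dv_line {A : E (m + 1) → (E (m + 1) →L[ℝ] E (m + 1) →L[ℝ] ℝ)} (h : ContDiff ℝ ∞ A)
    (x v w : E (m + 1)) (t : ℝ) :
    HasDerivAt (fun s : ℝ => A (x + s • eL) v w) (dv A (x + t • eL) v w) t := by
  have hd : DifferentiableAt ℝ A (x + t • eL) := (h.differentiable (by norm_num)) _
  have hl : HasDerivAt (fun s : ℝ => x + s • (eL : E (m + 1))) eL t := by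
    have h := ((hasDerivAt_id t).smul_const (eL : E (m + 1))).const_add x
    simpa using h
  have h2 : HasDerivAt (fun s : ℝ => A (x + s • (eL : E (m + 1))))
      (dv A (x + t • eL)) t := hd.hasFDerivAt.comp_hasDerivAt t hl
  have h3 := (h2.clm_apply (hasDerivAt_const t v)).clm_apply (hasDerivAt_const t w)
  simpa using h3

theorem dv_per {A : E (m + 1) → (E (m + 1) →L[ℝ] E (m + 1) →L[ℝ] ℝ)}
    (h : ∀ x, A (x + eL) = A x) (x : E (m + 1)) : dv A (x + eL) = dv A x := by
  unfold dv
  have h1 : fderiv ℝ (fun y : E (m + 1) => A (y + (eL : E (m + 1)))) x =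
      fderiv ℝ A (x + eL) := fderiv_comp_add_right (f := A) (eL : E (m + 1))
  have h2 : (fun y : E (m + 1) => A (y + (eL : E (m + 1)))) = A := funext h
  rw [← h1, h2]

theorem dv_inv {G : Type} [Group G] [MulAction G (E (m + 1))] (hV : Vert (m + 1) G eL)
    {A : E (m + 1) → (E (m + 1) →L[ℝ] E (m + 1) →L[ℝ] ℝ)} (h : ContDiff ℝ ∞ A)
    (hA : ∀ (a : G) (x u v : E (m + 1)), A (a • x) (dac a x u) (dac a x v) = A x u v)
    (a : G) (x u v : E (m + 1)) : dv A (a • x) (dac a x u) (dac a x v) = dv A x u v := by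
  have h4 := dv_apply h (a • x) (dac a x u) (dac a x v)
  have h5 := dv_apply h x u v
  have h6 : (fun s : ℝ => A (a • x + s • eL) (dac a x u) (dac a x v)) =
      fun s : ℝ => A (x + s • eL) u v := by
    funext s
    have h7 := hA a (x + s • eL) u v
    rw [dac_tr hV, hV.comm] at h7
    exact h7
  rw [h6] at h4
  exact h4.unique h5

theorem dg_zero {g : Form (m + 1)} (ht : TInv g (eL (m := m))) (x : E (m + 1)) : dg g x = 0 := by
  ext v w
  have h1 := dg_apply g x v w
  have h2 : (fun s : ℝ => g.val (x + s • eL) v w) = fun _ : ℝ => g.val x v w := by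
    funext s
    rw [ht x s]
  rw [h2] at h1
  exact h1.unique (hasDerivAt_const _ _)

end IQDeu

open Pool.Agent.DR.IDRDde Pool.Agent.DR.IDRKk IQDeu in
/-- the functions `u` and `k` -/
theorem pr_Deu (h1 : StOp) (h2 : StLftA) : StDeu := by
  intro m g gh hg hb hgh hbh ht hp
  have hcv : ContDiff ℝ ∞ (vel gh) := (dvel h1 gh hgh 0).1
  have hu : uq g gh = fun z => dg g z.1 (vel gh z) (vel gh z) := rfl
  have hk : kq g gh = fun z => ddg g z.1 (vel gh z) (vel gh z) := by
    funext z
    exact d2_eq g z.1 (vel gh z)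
  have hdv : ∀ z : W (m + 1), fderiv ℝ (vel gh) z (eL, 0) = 0 := by
    intro z
    rw [(dvel h1 gh hgh z).2, dg_zero ht]
    simp
  refine ⟨?_, ?_, ?_, ?_, ?_, ?_, ?_⟩
  · rw [hu]
    exact (((dg_smooth g).comp contDiff_fst).clm_apply hcv).clm_apply hcv
  · rw [hk]
    exact (((ddg_smooth g).comp contDiff_fst).clm_apply hcv).clm_apply hcv
  · intro z
    show fderiv ℝ (fun y : W (m + 1) => dg g y.1 (vel gh y) (vel gh y)) z (eL, 0) = _
    rw [dv_fst (dg_smooth g) hcv z, hdv, hk]
    simp [ddg]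
  · intro z
    show dg g (z.1 + (1 : ℝ) • eL) (vel gh (Tr 1 z)) (vel gh (Tr 1 z)) =
      dg g z.1 (vel gh z) (vel gh z)
    rw [vel_tr ht, one_smul]
    have h3 : dg g (z.1 + eL) = dg g z.1 := dv_per hp z.1
    rw [h3]
  · intro z
    rw [hk]
    show ddg g (z.1 + (1 : ℝ) • eL) (vel gh (Tr 1 z)) (vel gh (Tr 1 z)) =
      ddg g z.1 (vel gh z) (vel gh z)
    rw [vel_tr ht, one_smul]
    have h3 : ddg g (z.1 + eL) = ddg g z.1 := dv_per (fun x => dv_per hp x) z.1
    rw [h3]
  · intro z
    have h6 : ∀ s : ℝ, uq g gh (Tr s z) = dg g (z.1 + s • eL) (vel gh z) (vel gh z) := by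
      intro s
      show dg g (z.1 + s • eL) (vel gh (Tr s z)) (vel gh (Tr s z)) = _
      rw [vel_tr ht]
    simp only [h6]
    have h7 : ∀ s : ℝ, HasDerivAt (fun s : ℝ => g.val (z.1 + s • eL) (vel gh z) (vel gh z))
        (dg g (z.1 + s • eL) (vel gh z) (vel gh z)) s := fun s => dv_line g.smooth _ _ _ s
    have hc : Continuous (fun s : ℝ => dg g (z.1 + s • eL) (vel gh z) (vel gh z)) := by
      have hl : Continuous (fun s : ℝ => z.1 + s • (eL : E (m + 1))) := by fun_prop
      exact (((dg_smooth g).continuous.comp hl).clm_apply continuous_const).clm_apply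
        continuous_const
    rw [intervalIntegral.integral_eq_sub_of_hasDerivAt (fun s _ => h7 s)
      (hc.intervalIntegrable _ _)]
    rw [one_smul, zero_smul, add_zero, hp, sub_self]
  · intro G _ _ hG hV hI hIh
    have hvl := (h2 (m + 1) G hG gh hgh hIh).1
    refine ⟨?_, ?_⟩
    · intro a z
      show dg g (a • z.1) (vel gh (lft gh a z)) (vel gh (lft gh a z)) =
        dg g z.1 (vel gh z) (vel gh z)
      rw [hvl]
      exact dv_inv hV g.smooth hI a z.1 _ _
    · rw [hk]
      intro a z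
      show ddg g (a • z.1) (vel gh (lft gh a z)) (vel gh (lft gh a z)) =
        ddg g z.1 (vel gh z) (vel gh z)
      rw [hvl]
      exact dv_inv hV (dg_smooth g) (fun b x u v => dv_inv hV g.smooth hI b x u v) a z.1 _ _

end Pool.Agent.LQ
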