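import Mathlib
import Pool.Agent.Work.MP_13b5d9_gt.LQ.StmtsQ

set_option autoImplicit false

/-!
# MP_13b5d9_gt, block LQ, item HP: horizontal velocities and derivatives of the energies
-/

open MeasureTheory Set Filter Topology
open scoped ContDiff ENNReal
open Pool.Agent.Work.MP_c9f990_an.Al (IsFlow)

namespace Pool.Agent.LQ

open Pool.Agent.MLS Pool.Agent.EC Pool.Agent.DR

namespace IQHP

theorem dop {n : ℕ} {g : Form n} (x u v : E n) :
    fderiv ℝ (op g) x u v = sh (fderiv ℝ g.val x u v) := by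
  have hg : HasFDerivAt g.val (fderiv ℝ g.val x) x :=
    ((g.smooth.differentiable (by simp)).differentiableAt).hasFDerivAt
  have h2 : HasFDerivAt (fun _ : E n => (sh : (E n →L[ℝ] ℝ) →L[ℝ] E n))
      (0 : E n →L[ℝ] (E n →L[ℝ] ℝ) →L[ℝ] E n) x := hasFDerivAt_const _ _
  have h3 := h2.clm_comp hg
  have h4 : HasFDerivAt (op g) _ x := h3
  rw [h4.fderiv]
  simp

/-- derivative of the velocity -/
theorem dvel (h5 : StOp) {n : ℕ} {g : Form n} (hg : Riem g) (z w : W n) :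
    fderiv ℝ (vel g) z w = iop g z.1 (w.2 - sh (fderiv ℝ g.val z.1 w.1 (vel g z))) := by
  obtain ⟨hsh, hop, hio, hoi, hsym, hcop, hciop, hcH, hHv⟩ := h5 n g hg
  have hO : HasFDerivAt (op g) (fderiv ℝ (op g) z.1) z.1 :=
    ((hcop.differentiable (by simp)).differentiableAt).hasFDerivAt
  have hI : HasFDerivAt (iop g) (fderiv ℝ (iop g) z.1) z.1 :=
    ((hciop.differentiable (by simp)).differentiableAt).hasFDerivAt
  have hs : HasFDerivAt (fun y : W n => y.2) (ContinuousLinearMap.snd ℝ (E n) (E n)) z :=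
    hasFDerivAt_snd
  have hIf : HasFDerivAt (fun y : W n => iop g y.1)
      ((fderiv ℝ (iop g) z.1).comp (ContinuousLinearMap.fst ℝ (E n) (E n))) z :=
    hI.comp z hasFDerivAt_fst
  have hOf : HasFDerivAt (fun y : W n => op g y.1)
      ((fderiv ℝ (op g) z.1).comp (ContinuousLinearMap.fst ℝ (E n) (E n))) z :=
    hO.comp z hasFDerivAt_fst
  have hV : HasFDerivAt (vel g) (fderiv ℝ (vel g) z) z := by
    have h6 : HasFDerivAt (vel g) _ z := hIf.clm_apply hs
    exact h6.differentiableAt.hasFDerivAt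
  have hA := hOf.clm_apply hV
  have hB : HasFDerivAt (fun y : W n => op g y.1 (vel g y))
      (ContinuousLinearMap.snd ℝ (E n) (E n)) z := by
    have : (fun y : W n => op g y.1 (vel g y)) = fun y : W n => y.2 :=
      funext fun y => hoi y.1 y.2
    rw [this]
    exact hs
  have h7 := congrArg (fun L : W n →L[ℝ] E n => L w) (hA.unique hB)
  simp only [add_apply, ContinuousLinearMap.comp_apply, ContinuousLinearMap.flip_apply,
    ContinuousLinearMap.coe_fst', ContinuousLinearMap.coe_snd'] at h7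
  rw [dop] at h7
  rw [← h7, add_sub_cancel_right, hio]

/-- a periodic form: derivatives, operators, velocities -/
theorem per {m : ℕ} {g : Form (m + 1)} (hp : ∀ x, g.val (x + eL) = g.val x) :
    (∀ x, fderiv ℝ g.val (x + eL) = fderiv ℝ g.val x) ∧ (∀ x, iop g (x + eL) = iop g x) ∧
      ∀ z, vel g (Tr 1 z) = vel g z := by
  have h1 : ∀ x, iop g (x + eL) = iop g x := by
    intro x
    unfold iop op
    rw [hp]
  refine ⟨fun x => ?_, h1, fun z => ?_⟩
  · have h2 := fderiv_comp_add_right (𝕜 := ℝ) (f := g.val) (x := x) eL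
    rw [← h2]
    congr 1
    exact funext hp
  · show iop g (z.1 + (1 : ℝ) • eL) z.2 = iop g z.1 z.2
    rw [one_smul, h1]

theorem perXH (h7 : StHd) {m : ℕ} {g : Form (m + 1)} (hr : Riem g)
    (hp : ∀ x, g.val (x + eL) = g.val x) (z : W (m + 1)) :
    (XH (Hm g) (Tr 1 z)).2 = (XH (Hm g) z).2 := by
  refine ext_inner_right ℝ fun w => ?_
  rw [(h7 _ g hr _).2, (h7 _ g hr _).2, (per hp).2.2]
  show 1 / 2 * fderiv ℝ g.val (z.1 + (1 : ℝ) • eL) w (vel g z) (vel g z) = _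
  rw [one_smul, (per hp).1]

/-- derivative of the horizontal energy -/
theorem dHh (h5 : StOp) (h7 : StHd) {m : ℕ} {g : Form (m + 1)} (hg : Riem g)
    (z w : W (m + 1)) : fderiv ℝ (Hh g) z w =
      inner ℝ (vel g z - ta z • eL) w.2 - inner ℝ (XH (Hm g) z).2 w.1 := by
  obtain ⟨hsh, hop, hio, hoi, hsym, hcop, hciop, hcH, hHv⟩ := h5 _ g hg
  have h1 : HasFDerivAt (Hm g) (fderiv ℝ (Hm g) z) z :=
    ((hcH.differentiable (by simp)).differentiableAt).hasFDerivAt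
  have he : ∀ p : E (m + 1), inner ℝ (eL (m := m)) p = p (Fin.last m) := by
    intro p
    unfold eL ee
    rw [EuclideanSpace.inner_single_left]
    simp
  have h2 : HasFDerivAt (ta (m := m))
      ((innerSL ℝ (eL (m := m))).comp (ContinuousLinearMap.snd ℝ (E (m + 1)) (E (m + 1)))) z := by
    have h3 : (ta (m := m)) = fun y => ((innerSL ℝ (eL (m := m))).comp
        (ContinuousLinearMap.snd ℝ (E (m + 1)) (E (m + 1)))) y := by
      funext y
      show y.2 (Fin.last m) = inner ℝ (eL (m := m)) y.2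
      rw [he]
    rw [h3]
    exact ContinuousLinearMap.hasFDerivAt _
  have h4 : Hh g = fun y => Hm g y - 1 / 2 * ta y ^ 2 := by
    funext y
    unfold Hh
    ring
  have h3 := h1.sub ((h2.pow 2).const_mul (1 / 2 : ℝ))
  rw [h4, HasFDerivAt.fderiv (f := fun y : W (m + 1) => Hm g y - 1 / 2 * ta y ^ 2) h3]
  have hx : inner ℝ (XH (Hm g) z).1 w.2 = fderiv ℝ (Hm g) z (0, w.2) := by
    show inner ℝ (sh ((fderiv ℝ (Hm g) z).comp (ContinuousLinearMap.inr ℝ _ _))) w.2 = _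
    rw [hsh]
    rfl
  have hy : inner ℝ (XH (Hm g) z).2 w.1 = -fderiv ℝ (Hm g) z (w.1, 0) := by
    show inner ℝ (-sh ((fderiv ℝ (Hm g) z).comp (ContinuousLinearMap.inl ℝ _ _))) w.1 = _
    rw [inner_neg_left, hsh]
    rfl
  have hw : fderiv ℝ (Hm g) z w = fderiv ℝ (Hm g) z (w.1, 0) + fderiv ℝ (Hm g) z (0, w.2) := by
    rw [← map_add, Prod.mk_add_mk, add_zero, zero_add]
  rw [(h7 _ g hg z).1] at hx
  rw [inner_sub_left, inner_smul_left, hx, hy]
  simp only [sub_apply, smul_apply,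
    ContinuousLinearMap.comp_apply, ContinuousLinearMap.coe_snd', smul_eq_mul]
  rw [hw]
  simp
  ring

/-- an operator between normed spaces is bounded by its values on the basis -/
theorem opb {n : ℕ} {V : Type} [NormedAddCommGroup V] [NormedSpace ℝ V] (A : E n →L[ℝ] V)
    (B : Fin n → ℝ) (hB : ∀ i, ‖A (ee i)‖ ≤ B i) (w : E n) : ‖A w‖ ≤ (∑ i, B i) * ‖w‖ := by
  have h1 : w = ∑ i, w i • ee i := by
    have h2 := (EuclideanSpace.basisFun (Fin n) ℝ).sum_repr w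
    simp only [EuclideanSpace.basisFun_repr, EuclideanSpace.basisFun_apply] at h2
    exact h2.symm
  have h3 : A w = ∑ i, w i • A (ee i) := by
    conv_lhs => rw [h1]
    rw [map_sum]
    exact Finset.sum_congr rfl fun i _ => by rw [map_smul]
  rw [h3, Finset.sum_mul]
  refine (norm_sum_le _ _).trans (Finset.sum_le_sum fun i _ => ?_)
  rw [norm_smul, mul_comm]
  refine mul_le_mul (hB i) ?_ (norm_nonneg _) ((norm_nonneg _).trans (hB i))
  have h4 := PiLp.norm_apply_le w i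
  exact h4

end IQHP

theorem pr_HP (h1 : StHB) (h2 : StShf) (h3 : StCvH) (h5 : StOp) (h6 : StBas) (h7 : StHd) :
    StHP := by
  intro m g gh g0 φ M φ0 M0 hS K hK
  obtain ⟨-, hB⟩ := h1 m g gh g0 φ M φ0 M0 hS K hK
  obtain ⟨cI, cIh, cV, cVh, -, -, -, cXh, -, -⟩ := h3 m g gh g0 φ M φ0 M0 hS
  have hper : ∀ j x, (gh j).val (x + eL) = (gh j).val x := by
    intro j x
    have := hS.tinvh j x 1
    rwa [one_smul] at this
  have shf := fun j => h2 m (g j) (gh j) (hS.riem j) (hS.blk j) (hS.riemh j) (hS.blkh j)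
  have shfh := fun j => h2 m (gh j) (gh j) (hS.riemh j) (hS.blkh j) (hS.riemh j) (hS.blkh j)
  have cta : CC (fun (_ : ℕ) (z : W (m + 1)) => ta z • (eL (m := m)))
      (fun z => ta z • (eL (m := m))) := by
    refine CC.const ?_
    have : Continuous (ta (m := m)) := by
      show Continuous fun z : W (m + 1) => z.2 (Fin.last m)
      fun_prop
    exact this.smul continuous_const
  have htaS : ∀ (c : ℝ) (z : W (m + 1)), ta (Sh c z) = ta z + c := by
    intro c z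
    show (z.2 + c • (eL : E (m + 1))) (Fin.last m) = z.2 (Fin.last m) + c
    unfold eL ee
    simp
  have htaT : ∀ (z : W (m + 1)), ta (Tr 1 z) = ta z := fun _ => rfl
  -- the bounds
  obtain ⟨C1, hC1, e1⟩ := hB (E (m + 1)) (fun j z => vel (g j) z - ta z • eL)
    (fun z => vel g0 z - ta z • eL) (cV.sub cta)
    (fun j c z => by
      show vel (g j) (Sh c z) - ta (Sh c z) • eL = _
      rw [(shf j).2.1, htaS, add_smul, add_sub_add_right_eq_sub])
    (fun j z => by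
      show vel (g j) (Tr 1 z) - ta (Tr 1 z) • eL = _
      rw [(IQHP.per (hS.per j)).2.2, htaT])
  obtain ⟨C2, hC2, e2⟩ := hB (E (m + 1)) (fun j z => vel (gh j) z - ta z • eL)
    (fun z => vel g0 z - ta z • eL) (cVh.sub cta)
    (fun j c z => by
      show vel (gh j) (Sh c z) - ta (Sh c z) • eL = _
      rw [(shfh j).2.1, htaS, add_smul, add_sub_add_right_eq_sub])
    (fun j z => by
      show vel (gh j) (Tr 1 z) - ta (Tr 1 z) • eL = _
      rw [(IQHP.per (hper j)).2.2, htaT])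
  obtain ⟨C3, hC3, e3⟩ := hB (E (m + 1)) (fun j z => (XH (Hm (gh j)) z).2)
    (fun z => (XH (Hm g0) z).2) (cXh.comp' continuous_snd)
    (fun j c z => by
      show (XH (Hm (gh j)) (Sh c z)).2 = (XH (Hm (gh j)) z).2
      rw [(shfh j).2.2.1]
      show (XH (Hm (gh j)) z).2 + 0 = _
      rw [add_zero])
    (fun j z => IQHP.perXH h7 (hS.riemh j) (hper j) z)
  obtain ⟨C4, hC4, e4⟩ := hB (E (m + 1) →L[ℝ] E (m + 1)) (fun j z => iop (g j) z.1)
    (fun z => iop g0 z.1) (cI.compRight continuous_fst) (fun j c z => rfl)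
    (fun j z => by
      show iop (g j) (z.1 + (1 : ℝ) • eL) = _
      rw [one_smul, (IQHP.per (hS.per j)).2.1])
  obtain ⟨C5, hC5, e5⟩ := hB (E (m + 1) →L[ℝ] E (m + 1)) (fun j z => iop (gh j) z.1)
    (fun z => iop g0 z.1) (cIh.compRight continuous_fst) (fun j c z => rfl)
    (fun j z => by
      show iop (gh j) (z.1 + (1 : ℝ) • eL) = _
      rw [one_smul, (IQHP.per (hper j)).2.1])
  have h8 : ∀ i : Fin (m + 1), ∃ C, 0 < C ∧ ∀ᶠ j in atTop, ∀ z, Rg (gh j) K z →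
      ‖fderiv ℝ (gh j).val z.1 (ee i)‖ ≤ C := fun i =>
    hB (E (m + 1) →L[ℝ] E (m + 1) →L[ℝ] ℝ) (fun j z => fderiv ℝ (gh j).val z.1 (ee i))
      (fun z => fderiv ℝ g0.val z.1 (ee i)) ((hS.h1 (ee i)).compRight continuous_fst)
      (fun j c z => rfl)
      (fun j z => by
        show fderiv ℝ (gh j).val (z.1 + (1 : ℝ) • eL) (ee i) = _
        rw [one_smul, (IQHP.per (hper j)).1])
  choose D hD e6 using h8
  set SD := ∑ i, D i with hSD
  have hSD0 : 0 ≤ SD := Finset.sum_nonneg fun i _ => (hD i).le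
  obtain ⟨s, hs⟩ : ∃ s : ℝ, s = ‖(sh : (E (m + 1) →L[ℝ] ℝ) →L[ℝ] E (m + 1))‖ := ⟨_, rfl⟩
  have hs0 : 0 ≤ s := by
    rw [hs]
    exact ContinuousLinearMap.opNorm_nonneg _
  have hall : ∀ᶠ j in atTop, ∀ i : Fin (m + 1), ∀ z, Rg (gh j) K z →
      ‖fderiv ℝ (gh j).val z.1 (ee i)‖ ≤ D i := eventually_all.2 e6
  refine ⟨C1 + C2 + C3 + C4 + C5 + C5 * (1 + s * (SD * C2)), by positivity, ?_⟩
  filter_upwards [e1, e2, e3, e4, e5, hall] with j k1 k2 k3 k4 k5 k6 z hz
  have p6 : 0 ≤ C5 * (1 + s * (SD * C2)) := by positivity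
  have q1 := k1 z hz
  have q2 := k2 z hz
  have q3 := k3 z hz
  have q4 := k4 z hz
  have q5 := k5 z hz
  refine ⟨?_, ?_, ?_, ?_, ?_, fun w => ?_, fun w => ?_⟩
  · linarith
  · linarith
  · linarith
  · linarith
  · linarith
  · rw [IQHP.dHh h5 h7 (hS.riemh j)]
    have r1 := abs_real_inner_le_norm (vel (gh j) z - ta z • eL) w.2
    have r2 := abs_real_inner_le_norm (XH (Hm (gh j)) z).2 w.1
    have r3 : ‖w.1‖ ≤ ‖w‖ := norm_fst_le w
    have r4 : ‖w.2‖ ≤ ‖w‖ := norm_snd_le w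
    have r5 : ‖vel (gh j) z - ta z • eL‖ * ‖w.2‖ ≤ C2 * ‖w‖ :=
      mul_le_mul q2 r4 (norm_nonneg _) hC2.le
    have r6 : ‖(XH (Hm (gh j)) z).2‖ * ‖w.1‖ ≤ C3 * ‖w‖ :=
      mul_le_mul q3 r3 (norm_nonneg _) hC3.le
    have r7 := abs_sub (inner ℝ (vel (gh j) z - ta z • eL) w.2) (inner ℝ (XH (Hm (gh j)) z).2 w.1)
    have r8 : 0 ≤ (C1 + C4 + C5 + C5 * (1 + s * (SD * C2))) * ‖w‖ := by positivity
    have r9 : (C1 + C2 + C3 + C4 + C5 + C5 * (1 + s * (SD * C2))) * ‖w‖ =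
      (C1 + C4 + C5 + C5 * (1 + s * (SD * C2))) * ‖w‖ + C2 * ‖w‖ + C3 * ‖w‖ := by ring
    rw [r9]
    linarith
  · rw [IQHP.dvel h5 (hS.riemh j)]
    have r3 : ‖w.1‖ ≤ ‖w‖ := norm_fst_le w
    have r4 : ‖w.2‖ ≤ ‖w‖ := norm_snd_le w
    have t1 : fderiv ℝ (gh j).val z.1 w.1 (vel (gh j) z) =
        fderiv ℝ (gh j).val z.1 w.1 (vel (gh j) z - ta z • eL) := by
      rw [map_sub, map_smul,
        ((h6 m (gh j) (hS.riemh j) (hS.blkh j)).2.2.2.2.2.2.2 z.1 w.1).2, smul_zero, sub_zero]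
    have t2 : ‖fderiv ℝ (gh j).val z.1 w.1‖ ≤ SD * ‖w.1‖ :=
      IQHP.opb (fderiv ℝ (gh j).val z.1) D (fun i => k6 i z hz) w.1
    have t3 : ‖fderiv ℝ (gh j).val z.1 w.1 (vel (gh j) z)‖ ≤ SD * ‖w‖ * C2 := by
      rw [t1]
      refine (ContinuousLinearMap.le_opNorm _ _).trans (mul_le_mul ?_ q2 (norm_nonneg _) ?_)
      · exact t2.trans (mul_le_mul_of_nonneg_left r3 hSD0)
      · positivity
    have t4 : ‖sh (fderiv ℝ (gh j).val z.1 w.1 (vel (gh j) z))‖ ≤ s * (SD * ‖w‖ * C2) := by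
      refine (ContinuousLinearMap.le_opNorm _ _).trans ?_
      rw [← hs]
      exact mul_le_mul_of_nonneg_left t3 hs0
    have t5 : ‖w.2 - sh (fderiv ℝ (gh j).val z.1 w.1 (vel (gh j) z))‖ ≤
        ‖w‖ + s * (SD * ‖w‖ * C2) := (norm_sub_le _ _).trans (add_le_add r4 t4)
    have t6 : ‖iop (gh j) z.1 (w.2 - sh (fderiv ℝ (gh j).val z.1 w.1 (vel (gh j) z)))‖ ≤
        C5 * (‖w‖ + s * (SD * ‖w‖ * C2)) :=
      (ContinuousLinearMap.le_opNorm _ _).trans (mul_le_mul q5 t5 (norm_nonneg _) hC5.le)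
    refine t6.trans ?_
    have r8 : 0 ≤ (C1 + C2 + C3 + C4 + C5) * ‖w‖ := by positivity
    have r9 : (C1 + C2 + C3 + C4 + C5 + C5 * (1 + s * (SD * C2))) * ‖w‖ =
      (C1 + C2 + C3 + C4 + C5) * ‖w‖ + C5 * (‖w‖ + s * (SD * ‖w‖ * C2)) := by ring
    rw [r9]
    linarith

end Pool.Agent.LQ
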