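import Pool.Agent.Work.MP_13b5d9_gt.LQ.StmtsQ

set_option autoImplicit false

/-!
# MP_13b5d9_gt, block LQ, item Shf: shifts of the vertical momentum
-/

open MeasureTheory Set Filter Topology
open scoped ContDiff ENNReal

namespace Pool.Agent.LQ

open Pool.Agent.MLS Pool.Agent.EC Pool.Agent.DR

namespace IQShf

theorem fd {n : ℕ} (g : Form n) (x w u v : E n) :
    fderiv ℝ (fun y => g.val y u v) x w = fderiv ℝ g.val x w u v := by
  have hd : DifferentiableAt ℝ g.val x := g.smooth.differentiable (by simp) x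
  have h := ((hd.hasFDerivAt.clm_apply (hasFDerivAt_const u x)).clm_apply
    (hasFDerivAt_const v x)).fderiv
  rw [h]
  simp

theorem right0 {m : ℕ} {g : Form (m + 1)} (hb : Blk g) (x w v : E (m + 1)) :
    fderiv ℝ g.val x w v eL = 0 := by
  rw [← fd]
  have e : (fun y => g.val y v eL) = fun _ => v (Fin.last m) := by
    funext y
    rw [g.symm, hb]
  rw [e]
  simp

/-- the quadratic form of a derivative of the metric does not see the vertical part -/
theorem quad {m : ℕ} {g : Form (m + 1)} (hb : Blk g)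
    (h0 : ∀ x w, fderiv ℝ g.val x w (eL (m := m)) = 0) (x w v : E (m + 1)) (c : ℝ) :
    fderiv ℝ g.val x w (v + c • eL) (v + c • eL) = fderiv ℝ g.val x w v v := by
  have e1 : fderiv ℝ g.val x w (v + c • eL) = fderiv ℝ g.val x w v := by
    rw [map_add (fderiv ℝ g.val x w), map_smul (fderiv ℝ g.val x w), h0, smul_zero, add_zero]
  rw [e1, map_add, map_smul, right0 hb, smul_zero, add_zero]

theorem taSh {m : ℕ} (c : ℝ) (z : W (m + 1)) : ta (Sh c z) = ta z + c := by
  simp [ta, Sh, eL, ee]

end IQShf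

open IQShf in
theorem pr_Shf (h1 : StBas) (h2 : StHd) : StShf := by
  intro m g gh hg hbg hgh hbgh
  obtain ⟨-, hv, -, hH, -, -, -, he⟩ := h1 m g hg hbg
  obtain ⟨-, hvh, -, -, -, -, -, -⟩ := h1 m gh hgh hbgh
  have h0 : ∀ x w, fderiv ℝ g.val x w (eL (m := m)) = 0 := fun x w => (he x w).2
  refine ⟨?_, hv, ?_, ?_, ?_, ?_, ?_, ?_⟩
  · intro c z
    simp only [Hh]
    rw [hH, taSh]
    ring
  · intro c z
    refine Prod.ext ?_ ?_
    · rw [(h2 _ g hg (Sh c z)).1, hv, Prod.fst_add, (h2 _ g hg z).1]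
    · rw [Prod.snd_add, add_zero]
      refine ext_inner_right ℝ fun w => ?_
      rw [(h2 _ g hg (Sh c z)).2 w, (h2 _ g hg z).2 w, hv]
      show 1 / 2 * fderiv ℝ g.val z.1 w (vel g z + c • eL) (vel g z + c • eL) = _
      rw [quad hbg h0]
  · intro c z
    simp only [dd1, d1]
    rw [hv]
    exact quad hbg h0 z.1 eL (vel g z) c
  · intro c z
    simp only [dd2, d2]
    rw [hv]
    have e : (fun y => fderiv ℝ g.val y eL (vel g z + c • eL) (vel g z + c • eL)) =
        fun y => fderiv ℝ g.val y eL (vel g z) (vel g z) :=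
      funext fun y => quad hbg h0 y eL (vel g z) c
    rw [e]
    rfl
  · intro c z
    have e : fderiv ℝ g.val (Sh c z).1 eL (vel g (Sh c z)) = fderiv ℝ g.val z.1 eL (vel g z) := by
      rw [hv]
      show fderiv ℝ g.val z.1 eL (vel g z + c • eL) = _
      rw [map_add, map_smul, h0, smul_zero, add_zero]
    simp only [qq]
    rw [e]
    rfl
  · intro c z
    simp only [uq, d1]
    rw [hvh]
    exact quad hbg h0 z.1 eL (vel gh z) c
  · intro c z
    simp only [kq, d2]
    rw [hvh]
    have e : (fun y => fderiv ℝ g.val y eL (vel gh z + c • eL) (vel gh z + c • eL)) =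
        fun y => fderiv ℝ g.val y eL (vel gh z) (vel gh z) :=
      funext fun y => quad hbg h0 y eL (vel gh z) c
    rw [e]
    rfl

end Pool.Agent.LQ
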