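import Mathlib
import Pool.Agent.Work.MP_13b5d9_gt.LQ.StmtsQ
import Pool.Agent.Work.MP_13b5d9_gt.LQ.Q_Shf
import Pool.Agent.Work.MP_13b5d9_gt.LQ.Q_HP

set_option autoImplicit false

/-!
# MP_13b5d9_gt, block LQ, item Df: differences of velocities, energies and Hamiltonian fields
-/

open MeasureTheory Set Filter Topology
open scoped ContDiff ENNReal

namespace Pool.Agent.LQ

open Pool.Agent.MLS Pool.Agent.EC Pool.Agent.DR

namespace IQDf

/-- a vector is small if its inner products are small -/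
theorem small {n : ℕ} (d : E n) {c : ℝ} (hc : 0 ≤ c) (h : ∀ w : E n, |inner ℝ d w| ≤ c * ‖w‖) :
    ‖d‖ ≤ c := by
  have h1 := h d
  rw [real_inner_self_eq_norm_sq, abs_of_nonneg (by positivity), sq] at h1
  rcases eq_or_lt_of_le (norm_nonneg d) with h2 | h2
  · rw [← h2]
    exact hc
  · exact le_of_mul_le_mul_right h1 h2

/-- the derivative of a translation invariant form is translation invariant -/
theorem fderiv_tinv {n : ℕ} {g : Form n} {e : E n} (h : TInv g e) (x : E n) (s : ℝ) :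
    fderiv ℝ g.val (x + s • e) = fderiv ℝ g.val x := by
  have h1 : (fun y : E n => g.val (y + s • e)) = g.val := funext fun y => h y s
  have h2 : fderiv ℝ (fun y : E n => g.val (y + s • e)) x = fderiv ℝ g.val (x + s • e) :=
    fderiv_comp_add_right (𝕜 := ℝ) (f := g.val) (x := x) (s • e)
  rw [← h2, h1]

/-- the estimate for one pair of metrics at one point -/
theorem core {m : ℕ} (h3 : StOp) (h4 : StHd) (h5 : StBas) {g gh : Form (m + 1)} (hg : Riem g)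
    (hb : Blk g) (hgh : Riem gh) (hbh : Blk gh) (z : W (m + 1)) {B C1 C2 : ℝ} (hB : 0 ≤ B)
    (hC1 : 0 ≤ C1) (hC2 : 0 ≤ C2)
    (a0 : ∀ u v, |g.val z.1 u v - gh.val z.1 u v| ≤ B * ‖u‖ * ‖v‖)
    (a1 : ∀ w u v, |fderiv ℝ g.val z.1 w u v - fderiv ℝ gh.val z.1 w u v| ≤
      B * ‖w‖ * ‖u‖ * ‖v‖)
    (b1 : ‖vel g z - ta z • eL‖ ≤ C1) (b2 : ‖vel gh z - ta z • eL‖ ≤ C1)
    (b3 : ‖iop g z.1‖ ≤ C1) (b4 : ∀ w, ‖fderiv ℝ gh.val z.1 w‖ ≤ C2 * ‖w‖) :
    ‖vel g z - vel gh z‖ ≤ C1 ^ 2 * B ∧ |Hh g z - Hh gh z| ≤ C1 ^ 2 * B ∧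
    ‖XH (Hm g) z - XH (Hm gh) z‖ ≤ (C1 ^ 2 + C2 * C1 ^ 3) * B := by
  obtain ⟨-, o1, o2, o3, o4, -, -, -, -⟩ := h3 (m + 1) g hg
  obtain ⟨-, p1, p2, p3, p4, -, -, -, -⟩ := h3 (m + 1) gh hgh
  obtain ⟨-, -, -, -, -, -, -, e1⟩ := h5 m g hg hb
  obtain ⟨-, -, -, -, -, -, -, e2⟩ := h5 m gh hgh hbh
  obtain ⟨x1, x2⟩ := h4 (m + 1) g hg z
  obtain ⟨y1, y2⟩ := h4 (m + 1) gh hgh z
  -- the horizontal velocities
  obtain ⟨a, ha⟩ : ∃ a : E (m + 1), a = vel g z - ta z • eL := ⟨_, rfl⟩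
  obtain ⟨b, hb'⟩ : ∃ b : E (m + 1), b = vel gh z - ta z • eL := ⟨_, rfl⟩
  rw [← ha] at b1
  rw [← hb'] at b2
  have va : vel g z = a + ta z • eL := by rw [ha, sub_add_cancel]
  have vb : vel gh z = b + ta z • eL := by rw [hb', sub_add_cancel]
  obtain ⟨d, hd⟩ : ∃ d : E (m + 1), d = op gh z.1 b - op g z.1 b := ⟨_, rfl⟩
  have hdi : ∀ w, inner ℝ d w = -(g.val z.1 b w - gh.val z.1 b w) := by
    intro w
    rw [hd, inner_sub_left, o1, p1]
    ring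
  have hdn : ‖d‖ ≤ B * C1 := by
    refine small d (by positivity) fun w => ?_
    rw [hdi, abs_neg]
    refine (a0 b w).trans ?_
    gcongr
  have hp : z.2 = op gh z.1 (vel gh z) := (p3 z.1 z.2).symm
  have hop : op gh z.1 (vel gh z) - op g z.1 (vel gh z) = d := by
    rw [vb, map_add, map_add, map_smul, map_smul, (e1 z.1 0).1, (e2 z.1 0).1, hd]
    abel
  have hv : vel g z - vel gh z = iop g z.1 d := by
    rw [← hop, map_sub, ← hp, o2]
    rfl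
  have hvn : ‖vel g z - vel gh z‖ ≤ C1 ^ 2 * B := by
    rw [hv]
    refine ((iop g z.1).le_opNorm d).trans ?_
    calc ‖iop g z.1‖ * ‖d‖ ≤ C1 * (B * C1) := mul_le_mul b3 hdn (norm_nonneg _) hC1
      _ = C1 ^ 2 * B := by ring
  refine ⟨hvn, ?_, ?_⟩
  · have hH : Hh g z - Hh gh z = 1 / 2 * inner ℝ z.2 (vel g z - vel gh z) := by
      rw [inner_sub_right]
      simp only [Hh, Hm]
      show 1 / 2 * inner ℝ z.2 (vel g z) - _ - (1 / 2 * inner ℝ z.2 (vel gh z) - _) = _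
      ring
    have h7 : inner ℝ z.2 (vel g z - vel gh z) = -(g.val z.1 b a - gh.val z.1 b a) := by
      rw [hv, ← o4]
      show inner ℝ (vel g z) d = _
      rw [real_inner_comm, va, inner_add_right, inner_smul_right, hdi, hdi]
      have h8 : g.val z.1 b eL - gh.val z.1 b eL = 0 := by
        rw [g.symm, gh.symm, hb, hbh, sub_self]
      rw [h8]
      ring
    rw [hH, h7, abs_mul, abs_neg]
    have h9 := a0 b a
    have h10 : B * ‖b‖ * ‖a‖ ≤ B * C1 * C1 := by gcongr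
    have h11 : |(1 / 2 : ℝ)| = 1 / 2 := abs_of_pos (by norm_num)
    rw [h11]
    have h12 : 0 ≤ C1 ^ 2 * B := by positivity
    nlinarith [h9, h10, h12, abs_nonneg (g.val z.1 b a - gh.val z.1 b a)]
  · have hab : ‖a - b‖ ≤ C1 ^ 2 * B := by
      have : a - b = vel g z - vel gh z := by
        rw [va, vb]
        abel
      rw [this]
      exact hvn
    have n1 : ‖(XH (Hm g) z - XH (Hm gh) z).1‖ ≤ (C1 ^ 2 + C2 * C1 ^ 3) * B := by
      rw [Prod.fst_sub, x1, y1]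
      refine hvn.trans ?_
      have : 0 ≤ C2 * C1 ^ 3 * B := by positivity
      linarith
    have n2 : ‖(XH (Hm g) z - XH (Hm gh) z).2‖ ≤ (C1 ^ 2 + C2 * C1 ^ 3) * B := by
      refine small _ (by positivity) fun w => ?_
      rw [Prod.snd_sub, inner_sub_left, x2, y2]
      have q1 : fderiv ℝ g.val z.1 w (vel g z) (vel g z) = fderiv ℝ g.val z.1 w a a := by
        rw [va]
        exact IQShf.quad hb (fun x w => (e1 x w).2) z.1 w a (ta z)
      have q2 : fderiv ℝ gh.val z.1 w (vel gh z) (vel gh z) = fderiv ℝ gh.val z.1 w b b := by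
        rw [vb]
        exact IQShf.quad hbh (fun x w => (e2 x w).2) z.1 w b (ta z)
      rw [q1, q2]
      have q3 : 1 / 2 * fderiv ℝ g.val z.1 w a a - 1 / 2 * fderiv ℝ gh.val z.1 w b b =
          1 / 2 * ((fderiv ℝ g.val z.1 w a a - fderiv ℝ gh.val z.1 w a a) +
            (fderiv ℝ gh.val z.1 w (a - b) a + fderiv ℝ gh.val z.1 w b (a - b))) := by
        rw [map_sub, map_sub, _root_.sub_apply]
        ring
      have r1 : |fderiv ℝ g.val z.1 w a a - fderiv ℝ gh.val z.1 w a a| ≤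
          B * ‖w‖ * C1 * C1 := (a1 w a a).trans (by gcongr)
      have r2 : |fderiv ℝ gh.val z.1 w (a - b) a| ≤ C2 * ‖w‖ * (C1 ^ 2 * B) * C1 := by
        rw [← Real.norm_eq_abs]
        refine ((fderiv ℝ gh.val z.1 w).le_opNorm₂ _ _).trans ?_
        have := b4 w
        gcongr
      have r3 : |fderiv ℝ gh.val z.1 w b (a - b)| ≤ C2 * ‖w‖ * C1 * (C1 ^ 2 * B) := by
        rw [← Real.norm_eq_abs]
        refine ((fderiv ℝ gh.val z.1 w).le_opNorm₂ _ _).trans ?_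
        have := b4 w
        gcongr
      rw [q3, abs_mul]
      have h11 : |(1 / 2 : ℝ)| = 1 / 2 := abs_of_pos (by norm_num)
      rw [h11]
      have r4 := abs_add_le (fderiv ℝ g.val z.1 w a a - fderiv ℝ gh.val z.1 w a a)
        (fderiv ℝ gh.val z.1 w (a - b) a + fderiv ℝ gh.val z.1 w b (a - b))
      have r5 := abs_add_le (fderiv ℝ gh.val z.1 w (a - b) a) (fderiv ℝ gh.val z.1 w b (a - b))
      have r6 : 0 ≤ B * ‖w‖ * C1 * C1 := by positivity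
      nlinarith [r1, r2, r3, r4, r5, r6]
    exact max_le n1 n2

end IQDf

theorem pr_Df (h1 : StDg) (h2 : StHP) (h3 : StOp) (h4 : StHd) (h5 : StBas) : StDf := by
  intro m g gh g0 φ M φ0 M0 hS K hK
  obtain ⟨C1, hC1, k1⟩ := h2 m g gh g0 φ M φ0 M0 hS K hK
  have h8 : ∀ i : Fin (m + 1), ∃ C, 0 < C ∧ ∀ᶠ j in atTop, ∀ x ∈ K,
      ‖fderiv ℝ (gh j).val x (ee i)‖ ≤ C := fun i =>
    CC.bdd (V := E (m + 1) →L[ℝ] E (m + 1) →L[ℝ] ℝ) (hS.h1 (ee i)) hK
  choose D hD e6 using h8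
  have hall : ∀ᶠ j in atTop, ∀ i : Fin (m + 1), ∀ x ∈ K,
      ‖fderiv ℝ (gh j).val x (ee i)‖ ≤ D i := eventually_all.2 e6
  obtain ⟨C2, hC2e⟩ : ∃ C2, C2 = ∑ i, D i := ⟨_, rfl⟩
  have hC2 : 0 ≤ C2 := by
    rw [hC2e]
    exact Finset.sum_nonneg fun i _ => (hD i).le
  refine ⟨C1 ^ 2 + C2 * C1 ^ 3, by positivity, ?_⟩
  filter_upwards [k1, hall] with j k2 k3 B hB z hz
  obtain ⟨q1, q2, -, q3, -, -, -⟩ := k2 z hz
  obtain ⟨⟨x, hx, s, hs⟩, -⟩ := hz
  obtain ⟨d1, d2⟩ := h1 m (g j) (gh j) (hS.avg j) (hS.per j) K B hB x hx s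
  rw [← hs] at d1 d2
  have b4 : ∀ w, ‖fderiv ℝ (gh j).val z.1 w‖ ≤ C2 * ‖w‖ := by
    intro w
    rw [hs, IQDf.fderiv_tinv (hS.tinvh j) x s, hC2e]
    exact IQHP.opb (fderiv ℝ (gh j).val x) D (fun i => k3 i x hx) w
  have hB0 := hB.nonneg
  obtain ⟨f1, f2, f3⟩ := IQDf.core h3 h4 h5 (hS.riem j) (hS.blk j) (hS.riemh j) (hS.blkh j) z
    hB0 hC1.le hC2 d1 d2 q1 q2 q3 b4
  have : 0 ≤ C2 * C1 ^ 3 * B := by positivity
  exact ⟨f1.trans (by linarith), f2.trans (by linarith), f3⟩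

end Pool.Agent.LQ
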