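import Pool.Agent.Work.MP_13b5d9_gt.LQ.StmtsQ

set_option autoImplicit false
set_option maxSynthPendingDepth 3

/-!
# MP_13b5d9_gt, block LQ, item Dg: the difference of a metric and its vertical mean
-/

open MeasureTheory Set Filter Topology
open scoped ContDiff ENNReal

namespace Pool.Agent.LQ

open Pool.Agent.MLS Pool.Agent.EC Pool.Agent.DR

namespace IQDg

variable {m : ℕ}

/-- the difference of the value at `0` and the mean over the unit interval -/
theorem avg (f f' : ℝ → ℝ) (A : ℝ) (hf : ∀ r, HasDerivAt f (f' r) r) (hb : ∀ r, |f' r| ≤ A) :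
    |f 0 - ∫ r in (0 : ℝ)..1, f r| ≤ A := by
  have hA : 0 ≤ A := (abs_nonneg _).trans (hb 0)
  have hc : Continuous f := continuous_iff_continuousAt.2 fun r => (hf r).continuousAt
  have h1 : f 0 - ∫ r in (0 : ℝ)..1, f r = ∫ r in (0 : ℝ)..1, (f 0 - f r) := by
    rw [intervalIntegral.integral_sub intervalIntegrable_const (hc.intervalIntegrable 0 1)]
    simp
  rw [h1]
  have h2 := intervalIntegral.norm_integral_le_of_norm_le_const (a := (0 : ℝ)) (b := 1)
    (f := fun r => f 0 - f r) (C := A) (fun r hr => ?_)
  · simpa using h2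
  · rw [uIoc_of_le zero_le_one] at hr
    have h3 := Convex.norm_image_sub_le_of_norm_hasDerivWithin_le (𝕜 := ℝ) (s := univ)
      (f := f) (f' := f') (C := A) (x := r) (y := 0) (fun σ _ => (hf σ).hasDerivWithinAt)
      (fun σ _ => hb σ) convex_univ (mem_univ _) (mem_univ _)
    refine h3.trans ?_
    rw [zero_sub, norm_neg, Real.norm_eq_abs, abs_of_pos hr.1]
    exact mul_le_of_le_one_right hA hr.2

theorem line (y : E (m + 1)) (r : ℝ) :
    HasDerivAt (fun r : ℝ => y + r • (eL : E (m + 1))) eL r := by
  have h := ((hasDerivAt_id r).smul_const (eL : E (m + 1))).const_add y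
  rw [one_smul] at h
  exact h

end IQDg

open IQDg in
theorem pr_Dg (h1 : StPin) : StDg := by
  intro m g gh hav _ K B hB x hx s
  have hgd : Differentiable ℝ g.val := g.smooth.differentiable (by simp)
  have hghd : Differentiable ℝ gh.val := gh.smooth.differentiable (by simp)
  have hpt : ∀ r : ℝ, x + s • (eL : E (m + 1)) + r • eL = x + (s + r) • eL := by
    intro r
    rw [add_smul, add_assoc]
  have hF : ∀ u v : E (m + 1), ContDiff ℝ ∞ (fun y => g.val y u v) := fun u v =>
    (g.smooth.clm_apply contDiff_const).clm_apply contDiff_const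
  have hFd : ∀ (u v y w : E (m + 1)), fderiv ℝ (fun y => g.val y u v) y w = fderiv ℝ g.val y w u v := by
    intro u v y w
    have h2 : HasFDerivAt g.val (fderiv ℝ g.val y) y := (hgd y).hasFDerivAt
    have h3 := (h2.clm_apply (hasFDerivAt_const u y)).clm_apply (hasFDerivAt_const v y)
    rw [h3.fderiv]
    simp
  have hGd : ∀ (u v y w : E (m + 1)), fderiv ℝ (fun y => gh.val y u v) y w =
      fderiv ℝ gh.val y w u v := by
    intro u v y w
    have h2 : HasFDerivAt gh.val (fderiv ℝ gh.val y) y := (hghd y).hasFDerivAt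
    have h3 := (h2.clm_apply (hasFDerivAt_const u y)).clm_apply (hasFDerivAt_const v y)
    rw [h3.fderiv]
    simp
  constructor
  · intro u v
    have h2 := avg (fun r => g.val (x + s • eL + r • eL) u v)
      (fun r => fderiv ℝ g.val (x + s • eL + r • eL) eL u v) (B * ‖u‖ * ‖v‖) (fun r => ?_)
      (fun r => ?_)
    · rw [hav (x + s • eL) u v]
      simpa using h2
    · have h3 := ((hF u v).differentiable (by simp) (x + s • eL + r • eL)).hasFDerivAt.comp_hasDerivAt r
        (line (x + s • eL) r)
      rw [hFd] at h3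
      exact h3
    · rw [hpt]
      exact hB.b0 x hx (s + r) u v
  · intro w u v
    have h4 : fderiv ℝ gh.val (x + s • eL) w u v =
        ∫ r in (0 : ℝ)..1, fderiv ℝ (fun y => g.val y u v) (x + s • eL + r • eL) w := by
      rw [← hGd u v, ← (h1 m (fun y => g.val y u v) (hF u v)).2 (x + s • eL) w]
      have : (fun y => gh.val y u v) =
          fun y : E (m + 1) => ∫ r in (0 : ℝ)..1, g.val (y + r • eL) u v := by
        funext y
        exact hav y u v
      rw [this]
    have hF1 : ContDiff ℝ ∞ (fderiv ℝ (fun y => g.val y u v)) := (hF u v).fderiv_right (by simp)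
    have h2 := avg (fun r => fderiv ℝ (fun y => g.val y u v) (x + s • eL + r • eL) w)
      (fun r => fderiv ℝ (fun y => fderiv ℝ g.val y eL u v) (x + s • eL + r • eL) w)
      (B * ‖w‖ * ‖u‖ * ‖v‖) (fun r => ?_) (fun r => ?_)
    · rw [h4, ← hFd u v]
      simpa using h2
    · set y := x + s • (eL : E (m + 1)) + r • eL with hy
      have h5 : HasFDerivAt (fderiv ℝ (fun y => g.val y u v))
          (fderiv ℝ (fderiv ℝ (fun y => g.val y u v)) y) y :=
        (hF1.differentiable (by simp) y).hasFDerivAt
      have h6 : HasFDerivAt (fun y => fderiv ℝ (fun y => g.val y u v) y w)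
          ((fderiv ℝ (fderiv ℝ (fun y => g.val y u v)) y).flip w) y := by
        have := h5.clm_apply (hasFDerivAt_const w y)
        simpa using this
      have h7 := h6.comp_hasDerivAt r (line (x + s • eL) r)
      have h8 : HasFDerivAt (fun y => fderiv ℝ (fun y => g.val y u v) y eL)
          ((fderiv ℝ (fderiv ℝ (fun y => g.val y u v)) y).flip eL) y := by
        have := h5.clm_apply (hasFDerivAt_const (eL : E (m + 1)) y)
        simpa using this
      have h9 : (fun y => fderiv ℝ g.val y eL u v) =
          fun y => fderiv ℝ (fun y => g.val y u v) y eL := by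
        funext y
        exact (hFd u v y eL).symm
      have h10 : (fderiv ℝ (fderiv ℝ (fun y => g.val y u v)) y).flip w eL =
          fderiv ℝ (fun y => fderiv ℝ g.val y eL u v) y w := by
        rw [h9, h8.fderiv]
        show fderiv ℝ (fderiv ℝ (fun y => g.val y u v)) y eL w =
          fderiv ℝ (fderiv ℝ (fun y => g.val y u v)) y w eL
        exact ((hF u v).contDiffAt.isSymmSndFDerivAt (by
          rw [minSmoothness_of_isRCLikeNormedField]
          exact WithTop.coe_le_coe.2 le_top)) eL w
      rw [h10] at h7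
      exact h7
    · rw [hpt]
      have h5 := hB.b1 x hx (s + r) u v w
      calc _ ≤ B * ‖u‖ * ‖v‖ * ‖w‖ := h5
        _ = B * ‖w‖ * ‖u‖ * ‖v‖ := by ring

end Pool.Agent.LQ
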