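import Mathlib
import Pool.Agent.Work.MP_13b5d9_gt.LQ.StmtsQ

set_option autoImplicit false

/-! # MP_13b5d9_gt, block LQ, item Eqv: comparison of the two energies -/

open MeasureTheory Set Filter Topology
open scoped ContDiff ENNReal
open Pool.Agent.Work.MP_c9f990_an.Al (IsFlow)

namespace Pool.Agent.LQ

open Pool.Agent.MLS Pool.Agent.EC Pool.Agent.DR

namespace IQEqv

lemma CC_seq {α β : Type*} [TopologicalSpace α] [TopologicalSpace β] {F : ℕ → α → β} {f : α → β}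
    (h : CC F f) {jk : ℕ → ℕ} {z : ℕ → α} {z0 : α} (hj : Tendsto jk atTop atTop)
    (hz : Tendsto z atTop (𝓝 z0)) : Tendsto (fun k => F (jk k) (z k)) atTop (𝓝 (f z0)) :=
  (h z0).comp (hj.prodMk hz)

lemma cont_fd {V F : Type} [NormedAddCommGroup V] [NormedSpace ℝ V] [NormedAddCommGroup F]
    [NormedSpace ℝ F] {f : V → F} (hf : ContDiff ℝ ∞ f) (e : V) :
    Continuous (fun x => fderiv ℝ f x e) :=
  (hf.continuous_fderiv (by simp)).clm_apply continuous_const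

section Gen

variable {V : Type} [NormedAddCommGroup V] [NormedSpace ℝ V] [FiniteDimensional ℝ V]

omit [FiniteDimensional ℝ V] [NormedAddCommGroup V] [NormedSpace ℝ V] in
lemma nsm {F : Type} [NormedAddCommGroup F] [NormedSpace ℝ F] (c : ℝ) (A : F) :
    ‖c • A‖ = |c| * ‖A‖ := norm_smul _ _

/-- symmetric forms of norm one which vanish on `e` -/
def Sph (e : V) : Set (V →L[ℝ] V →L[ℝ] ℝ) := {A | ‖A‖ = 1 ∧ (∀ u v, A u v = A v u) ∧ A e = 0}

lemma isCompact_Sph (e : V) : IsCompact (Sph e) := by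
  have := FiniteDimensional.proper_real (V →L[ℝ] V →L[ℝ] ℝ)
  have h1 : IsCompact (Metric.sphere (0 : V →L[ℝ] V →L[ℝ] ℝ) 1) :=
    isCompact_sphere (α := V →L[ℝ] V →L[ℝ] ℝ) _ _
  have h2 : IsClosed {A : V →L[ℝ] V →L[ℝ] ℝ | (∀ u v, A u v = A v u) ∧ A e = 0} := by
    have e1 : {A : V →L[ℝ] V →L[ℝ] ℝ | (∀ u v, A u v = A v u) ∧ A e = 0} =
        (⋂ u, ⋂ v, {A : V →L[ℝ] V →L[ℝ] ℝ | A u v = A v u}) ∩
          {A : V →L[ℝ] V →L[ℝ] ℝ | A e = 0} := by
      ext A; simp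
    rw [e1]
    refine IsClosed.inter (isClosed_iInter fun u => isClosed_iInter fun v => ?_) ?_
    · exact isClosed_eq (by fun_prop) (by fun_prop)
    · exact isClosed_eq (by fun_prop) (by fun_prop)
  have h3 : Sph e = Metric.sphere (0 : V →L[ℝ] V →L[ℝ] ℝ) 1 ∩
      {A : V →L[ℝ] V →L[ℝ] ℝ | (∀ u v, A u v = A v u) ∧ A e = 0} := by
    ext A
    have := dist_zero_right (E := V →L[ℝ] V →L[ℝ] ℝ) A
    simp only [Sph, Set.mem_ofPred_eq, mem_inter_iff, Metric.mem_sphere, this]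
  rw [h3]
  exact h1.inter_right h2

lemma Sph_ne_zero {e : V} {A : V →L[ℝ] V →L[ℝ] ℝ} (h : A ∈ Sph e) : A ≠ 0 := by
  intro h0
  have h1 := h.1
  rw [h0] at h1
  have h2 : ‖(0 : V →L[ℝ] V →L[ℝ] ℝ)‖ = 0 := norm_zero (E := V →L[ℝ] V →L[ℝ] ℝ)
  rw [h2] at h1
  exact zero_ne_one h1

lemma Sph_norm {e : V} {A : V →L[ℝ] V →L[ℝ] ℝ} (h : A ∈ Sph e) : ‖A‖ = 1 := h.1

lemma scale {e : V} {A : V →L[ℝ] V →L[ℝ] ℝ} (hs : ∀ u v, A u v = A v u) (he : A e = 0)
    (hA : A ≠ 0) : ‖A‖⁻¹ • A ∈ Sph e := by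
  have h0 : ‖A‖ ≠ 0 := fun h => hA (norm_eq_zero (E := V →L[ℝ] V →L[ℝ] ℝ) |>.1 h)
  refine ⟨?_, fun u v => ?_, ?_⟩
  · have h1 := nsm (F := V →L[ℝ] V →L[ℝ] ℝ) ‖A‖⁻¹ A
    rw [h1, abs_of_nonneg (inv_nonneg.2 (norm_nonneg (E := V →L[ℝ] V →L[ℝ] ℝ) A)),
      inv_mul_cancel₀ h0]
  · simp [hs u v]
  · simp [he]

lemma app_le (A : V →L[ℝ] V →L[ℝ] ℝ) (v : V) : |A v v| ≤ ‖A‖ * ‖v‖ * ‖v‖ :=
  A.le_opNorm₂ v v

lemma tend_app {A : ℕ → V →L[ℝ] V →L[ℝ] ℝ} {A0 : V →L[ℝ] V →L[ℝ] ℝ} {v : ℕ → V} {v0 : V}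
    (hA : Tendsto A atTop (𝓝 A0)) (hv : Tendsto v atTop (𝓝 v0)) :
    Tendsto (fun k => A k (v k) (v k)) atTop (𝓝 (A0 v0 v0)) := by
  have h1 : Tendsto (fun k => A k (v k)) atTop (𝓝 (A0 v0)) :=
    (isBoundedBilinearMap_apply.continuous.tendsto (A0, v0)).comp (hA.prodMk_nhds hv)
  exact (isBoundedBilinearMap_apply.continuous.tendsto (A0 v0, v0)).comp (h1.prodMk_nhds hv)

lemma cont_app {X : Type} [TopologicalSpace X] {A : X → V →L[ℝ] V →L[ℝ] ℝ} {v : X → V}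
    (hA : Continuous A) (hv : Continuous v) : Continuous (fun k => A k (v k) (v k)) := by
  have h1 : Continuous (fun k => A k (v k)) :=
    isBoundedBilinearMap_apply.continuous.comp (hA.prodMk hv)
  exact isBoundedBilinearMap_apply.continuous.comp (h1.prodMk hv)

lemma cont_norm {X : Type} [TopologicalSpace X] {A : X → V →L[ℝ] V →L[ℝ] ℝ}
    (hA : Continuous A) : Continuous (fun k => ‖A k‖) :=
  (continuous_norm (E := V →L[ℝ] V →L[ℝ] ℝ)).comp hA

end Gen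

/-- bilinear forms -/
abbrev Bil (m : ℕ) := E (m + 1) →L[ℝ] E (m + 1) →L[ℝ] ℝ

/-- the integrand -/
noncomputable def Fi {m : ℕ} (gh : Form (m + 1)) (w0 ϑ : ℝ → ℝ) (x : E (m + 1)) (A : Bil m)
    (p : E (m + 1)) : ℝ :=
  w0 (ta (x, p)) * ϑ (Hh gh (x, p)) ^ 2 * (A (vel gh (x, p)) (vel gh (x, p))) ^ 2

lemma eL_last {m : ℕ} : (eL : E (m + 1)) (Fin.last m) = 1 := by
  simp [eL, ee]

/-- positivity of the limit -/
lemma pos_lim {m : ℕ} (h2 : StBas) (h5 : StOp) {g : Form (m + 1)} (hR : Riem g) (hB : Blk g)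
    {w0 ϑ : ℝ → ℝ} {τ : ℝ} (hτ : w0 τ ≠ 0) (hϑ : ∀ x, 1 / 8 < x → x < 3 / 8 → 0 < ϑ x)
    (x : E (m + 1)) (A : Bil m) (hA : A ∈ Sph (V := E (m + 1)) eL) (h0 : ∀ p, Fi g w0 ϑ x A p = 0) : False := by
  have hne := Sph_ne_zero hA
  obtain ⟨-, hs, he⟩ := hA
  obtain ⟨b1, -, -, -, -, -, b7, -⟩ := h2 m g hR hB
  obtain ⟨-, -, o3, -, -, -, -, -, -⟩ := h5 (m + 1) g hR
  have he' : ∀ u, A u eL = 0 := fun u => by rw [hs, he]; rfl
  -- horizontal vectors
  have key : ∀ h : E (m + 1), h (Fin.last m) = 0 → A h h = 0 := by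
    intro h hl
    by_cases hh : h = 0
    · rw [hh]; simp
    have hp : 0 < g.val x h h := hR x h hh
    set r : ℝ := (Real.sqrt (2 * g.val x h h))⁻¹ with hr
    have hr0 : 0 < r := by positivity
    have hr2 : r ^ 2 * g.val x h h = 1 / 2 := by
      rw [hr, inv_pow, Real.sq_sqrt (by positivity)]
      field_simp
    set v : E (m + 1) := τ • eL + r • h with hv
    set p : E (m + 1) := op g x v with hpd
    have hvel : vel g (x, p) = v := by
      show iop g x p = v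
      rw [hpd]; exact o3 x v
    have hlast : v (Fin.last m) = τ := by
      rw [hv]
      simp [hl, eL_last]
    have hta : ta (x, p) = τ := by rw [← b1 (x, p), hvel, hlast]
    have hgv : g.val x v v = τ ^ 2 + 1 / 2 := by
      have e1 : g.val x eL eL = 1 := by rw [hB x eL]; exact eL_last
      have e2 : g.val x eL h = 0 := by rw [hB x h]; exact hl
      have e3 : g.val x h eL = 0 := by rw [g.symm]; exact e2
      rw [hv]
      simp only [map_add, map_smul, _root_.add_apply,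
        _root_.smul_apply, smul_eq_mul, e1, e2, e3]
      linear_combination hr2
    have hHh : Hh g (x, p) = 1 / 4 := by
      have := b7 (x, p)
      rw [hvel] at this
      simp only at this
      rw [Hh, hta]
      rw [hgv] at this
      linarith
    have h1 := h0 p
    rw [Fi, hta, hHh, hvel] at h1
    have h3 : ϑ (1 / 4) ≠ 0 := (hϑ _ (by norm_num) (by norm_num)).ne'
    have h4 : A v v = 0 := by
      rcases mul_eq_zero.1 h1 with h | h
      · rcases mul_eq_zero.1 h with h | h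
        · exact absurd h hτ
        · exact absurd (pow_eq_zero_iff (two_ne_zero)|>.1 h) h3
      · exact (pow_eq_zero_iff (two_ne_zero)).1 h
    have h6 : A v v = r ^ 2 * A h h := by
      rw [hv]
      simp only [map_add, map_smul, _root_.add_apply,
        _root_.smul_apply, smul_eq_mul, he, he', _root_.zero_apply]
      ring
    rw [h6] at h4
    rcases mul_eq_zero.1 h4 with h | h
    · exact absurd h (by positivity)
    · exact h
  have key2 : ∀ v : E (m + 1), A v v = 0 := by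
    intro v
    have h1 := key (v - v (Fin.last m) • eL) (by simp [eL_last])
    simp only [map_sub, map_smul, _root_.sub_apply,
        _root_.smul_apply, smul_eq_mul, he, he', _root_.zero_apply] at h1
    linarith
  have hA0 : A = 0 := by
    ext u v
    have h1 := key2 (u + v)
    simp only [map_add, _root_.add_apply, key2, hs v u] at h1
    simp only [_root_.zero_apply]
    linarith
  exact hne hA0

/-- bound of the momenta -/
lemma bound_p {m : ℕ} {g gh : ℕ → Form (m + 1)} {g0 : Form (m + 1)}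
    {φ : ℕ → ℝ → W (m + 1) → W (m + 1)} {M : ℕ → ℝ → W (m + 1) → W (m + 1) →L[ℝ] W (m + 1)}
    {φ0 : ℝ → W (m + 1) → W (m + 1)} {M0 : ℝ → W (m + 1) → W (m + 1) →L[ℝ] W (m + 1)}
    (h4 : StHB) (hS : SetA m g gh g0 φ M φ0 M0) {K : Set (E (m + 1))} (hK : IsCompact K) :
    ∃ R : ℝ, 0 < R ∧ ∀ᶠ j in atTop, ∀ x ∈ K, ∀ p : E (m + 1), |ta (x, p)| ≤ 1 →
      Hh (gh j) (x, p) ≤ 1 → ‖p‖ ≤ R := by
  obtain ⟨Q, hQ, hQ1⟩ := (h4 m g gh g0 φ M φ0 M0 hS K hK).1
  obtain ⟨C, hC⟩ := hQ.isBounded.exists_norm_le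
  refine ⟨|C| + ‖(eL : E (m + 1))‖ + 1, by positivity, ?_⟩
  filter_upwards [hQ1] with j hj x hx p h1 h2
  obtain ⟨n, hn⟩ := hj (x, p) ⟨⟨x, hx, 0, by simp⟩, h2⟩
  have h3 := hC _ hn
  have h5 : ‖p + (-ta (x, p)) • (eL : E (m + 1))‖ ≤ C := by
    refine le_trans ?_ h3
    exact norm_snd_le (Tr (n : ℝ) (Sh (-ta (x, p)) (x, p)))
  have h6 : p = (p + (-ta (x, p)) • (eL : E (m + 1))) + ta (x, p) • eL := by
    rw [neg_smul]; abel
  calc ‖p‖ = ‖(p + (-ta (x, p)) • (eL : E (m + 1))) + ta (x, p) • eL‖ := by rw [← h6]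
    _ ≤ ‖p + (-ta (x, p)) • (eL : E (m + 1))‖ + ‖ta (x, p) • (eL : E (m + 1))‖ := norm_add_le _ _
    _ ≤ C + 1 * ‖(eL : E (m + 1))‖ := by
      rw [norm_smul]
      gcongr
      exact h1
    _ ≤ |C| + ‖(eL : E (m + 1))‖ + 1 := by
      have := le_abs_self C
      linarith

/-- the integrand vanishes outside of a ball -/
lemma Fi_zero {m : ℕ} {gh : Form (m + 1)} {ψ ϑ w0 ψ1 θ1 : ℝ → ℝ} (hb : Bmp ψ ϑ w0 ψ1 θ1)
    {x p : E (m + 1)} {R : ℝ}
    (h : |ta (x, p)| ≤ 1 → Hh gh (x, p) ≤ 1 → ‖p‖ ≤ R) (hp : R < ‖p‖) :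
    w0 (ta (x, p)) * ϑ (Hh gh (x, p)) ^ 2 = 0 := by
  by_contra hne
  have h1 : w0 (ta (x, p)) ≠ 0 := fun h => hne (by rw [h, zero_mul])
  have h2 : ϑ (Hh gh (x, p)) ≠ 0 := fun h => hne (by rw [h]; ring)
  have h3 := hb.cw0.supp _ h1
  have h4 := hb.th.supp _ h2
  have := h (abs_le.2 h3) (by linarith [h4.2])
  linarith

lemma cont_ta {m : ℕ} : Continuous (ta (m := m)) := by
  unfold ta
  exact (EuclideanSpace.proj (𝕜 := ℝ) (Fin.last m)).continuous.comp continuous_snd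

lemma cont_vel {m : ℕ} (h5 : StOp) {g : Form (m + 1)} (hR : Riem g) : Continuous (vel g) := by
  obtain ⟨-, -, -, -, -, -, o7, -, -⟩ := h5 (m + 1) g hR
  exact (o7.continuous.comp continuous_fst).clm_apply continuous_snd

lemma cont_Hh {m : ℕ} (h5 : StOp) {g : Form (m + 1)} (hR : Riem g) : Continuous (Hh g) := by
  obtain ⟨-, -, -, -, -, -, -, o8, -⟩ := h5 (m + 1) g hR
  unfold Hh
  exact o8.continuous.sub ((cont_ta.pow 2).div_const 2)

lemma cont_Fi {m : ℕ} (h5 : StOp) {gh : Form (m + 1)} (hR : Riem gh) {w0 ϑ : ℝ → ℝ}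
    (hw : Continuous w0) (hϑ : Continuous ϑ) (x : E (m + 1)) (A : Bil m) :
    Continuous (Fi gh w0 ϑ x A) := by
  have hc : Continuous (fun p : E (m + 1) => (x, p)) := by fun_prop
  refine ((hw.comp (cont_ta.comp hc)).mul ((hϑ.comp ((cont_Hh h5 hR).comp hc)).pow 2)).mul ?_
  exact (cont_app (V := E (m + 1)) continuous_const ((cont_vel h5 hR).comp hc)).pow 2

lemma Fi_nonneg {m : ℕ} {gh : Form (m + 1)} {w0 ϑ : ℝ → ℝ} (hw : ∀ x, 0 ≤ w0 x)
    (x : E (m + 1)) (A : Bil m) (p : E (m + 1)) : 0 ≤ Fi gh w0 ϑ x A p :=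
  mul_nonneg (mul_nonneg (hw _) (sq_nonneg _)) (sq_nonneg _)

/-- uniform lower bound -/
lemma lower {m : ℕ} {g gh : ℕ → Form (m + 1)} {g0 : Form (m + 1)}
    {φ : ℕ → ℝ → W (m + 1) → W (m + 1)} {M : ℕ → ℝ → W (m + 1) → W (m + 1) →L[ℝ] W (m + 1)}
    {φ0 : ℝ → W (m + 1) → W (m + 1)} {M0 : ℝ → W (m + 1) → W (m + 1) →L[ℝ] W (m + 1)}
    (h1 : StCvH) (h2 : StBas) (h4 : StHB) (h5 : StOp) (hS : SetA m g gh g0 φ M φ0 M0)
    {K : Set (E (m + 1))} (hK : IsCompact K) {ψ ϑ w0 ψ1 θ1 : ℝ → ℝ} (hb : Bmp ψ ϑ w0 ψ1 θ1) :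
    ∃ c : ℝ, 0 < c ∧ ∀ᶠ j in atTop, ∀ x ∈ K, ∀ A ∈ Sph (V := E (m + 1)) eL,
      c ≤ ∫ p, Fi (gh j) w0 ϑ x A p := by
  obtain ⟨R, hR, hRb⟩ := bound_p h4 hS hK
  obtain ⟨-, -, -, cvel, -, -, -, -, -, cHh⟩ := h1 m g gh g0 φ M φ0 M0 hS
  have hw : Continuous w0 := hb.cw0.smooth.continuous
  have hϑ : Continuous ϑ := hb.th.smooth.continuous
  obtain ⟨Cv, hCv, hCvb⟩ := cvel.bdd (hK.prod (isCompact_closedBall (0 : E (m + 1)) R))
  obtain ⟨Cw, hCw⟩ : ∃ Cw : ℝ, ∀ t, |w0 t| ≤ Cw := by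
    obtain ⟨C, hC⟩ := (isCompact_Icc (a := (-1 : ℝ)) (b := 1)).exists_bound_of_continuousOn
      hw.continuousOn
    refine ⟨|C|, fun t => ?_⟩
    by_cases ht : w0 t = 0
    · rw [ht]; simp
    · exact (hC t (hb.cw0.supp t ht)).trans (le_abs_self C)
  have hCw0 : 0 ≤ Cw := (abs_nonneg _).trans (hCw 0)
  -- zero outside of the ball, and the bound
  have hzero : ∀ᶠ j in atTop, ∀ x ∈ K, ∀ (A : Bil m) (p : E (m + 1)), R < ‖p‖ →
      Fi (gh j) w0 ϑ x A p = 0 := by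
    filter_upwards [hRb] with j hj x hx A p hp
    rw [Fi, Fi_zero hb (hj x hx p) hp, zero_mul]
  have hbd : ∀ᶠ j in atTop, ∀ x ∈ K, ∀ A ∈ Sph (V := E (m + 1)) eL, ∀ p : E (m + 1),
      ‖Fi (gh j) w0 ϑ x A p‖ ≤
        (Metric.closedBall (0 : E (m + 1)) R).indicator (fun _ => Cw * (Cv ^ 2) ^ 2) p := by
    filter_upwards [hzero, hCvb] with j hj1 hj2 x hx A hA p
    by_cases hp : p ∈ Metric.closedBall (0 : E (m + 1)) R
    · rw [indicator_of_mem hp, Fi, norm_mul, norm_mul, norm_pow, norm_pow]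
      have e1 : ‖w0 (ta (x, p))‖ ≤ Cw := hCw _
      have e2 : ‖ϑ (Hh (gh j) (x, p))‖ ≤ 1 := by
        rw [Real.norm_eq_abs, abs_of_nonneg (hb.th.nonneg _)]
        exact hb.th_le _
      have e3 : ‖A (vel (gh j) (x, p)) (vel (gh j) (x, p))‖ ≤ Cv ^ 2 := by
        have e4 := app_le (V := E (m + 1)) A (vel (gh j) (x, p))
        rw [Sph_norm hA, one_mul] at e4
        have e5 := hj2 (x, p) ⟨hx, hp⟩
        rw [Real.norm_eq_abs]
        calc _ ≤ ‖vel (gh j) (x, p)‖ * ‖vel (gh j) (x, p)‖ := e4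
          _ ≤ Cv * Cv := by gcongr
          _ = Cv ^ 2 := by ring
      calc ‖w0 (ta (x, p))‖ * ‖ϑ (Hh (gh j) (x, p))‖ ^ 2 *
            ‖A (vel (gh j) (x, p)) (vel (gh j) (x, p))‖ ^ 2 ≤ Cw * 1 ^ 2 * (Cv ^ 2) ^ 2 := by
            gcongr
        _ = Cw * (Cv ^ 2) ^ 2 := by ring
    · rw [indicator_of_notMem hp, hj1 x hx A p, norm_zero]
      rw [Metric.mem_closedBall, dist_zero_right, not_le] at hp
      exact hp
  by_contra hcon
  push Not at hcon
  have hfr : ∀ k : ℕ, ∃ᶠ j in atTop, ∃ x ∈ K, ∃ A ∈ Sph (V := E (m + 1)) eL,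
      ∫ p, Fi (gh j) w0 ϑ x A p < 1 / ((k : ℝ) + 1) := fun k => hcon _ (by positivity)
  obtain ⟨ρ, hρ, hρ1⟩ := extraction_forall_of_frequently hfr
  choose xs hxs As hAs hlt using hρ1
  obtain ⟨⟨x0, A0⟩, hmem, κ, hκ, htend⟩ :=
    (hK.prod (isCompact_Sph (V := E (m + 1)) eL)).tendsto_subseq
      (x := fun k => (xs k, As k)) (fun k => ⟨hxs k, hAs k⟩)
  have hx0 : Tendsto (fun k => xs (κ k)) atTop (𝓝 x0) := (continuous_fst.tendsto _).comp htend
  have hA0 : Tendsto (fun k => As (κ k)) atTop (𝓝 A0) := (continuous_snd.tendsto _).comp htend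
  have hj : Tendsto (fun k => ρ (κ k)) atTop atTop := hρ.tendsto_atTop.comp hκ.tendsto_atTop
  have hpt : ∀ p : E (m + 1), Tendsto (fun k => Fi (gh (ρ (κ k))) w0 ϑ (xs (κ k)) (As (κ k)) p)
      atTop (𝓝 (Fi g0 w0 ϑ x0 A0 p)) := by
    intro p
    have hz : Tendsto (fun k => (xs (κ k), p)) atTop (𝓝 (x0, p)) :=
      hx0.prodMk_nhds tendsto_const_nhds
    have e1 : Tendsto (fun k => vel (gh (ρ (κ k))) (xs (κ k), p)) atTop
        (𝓝 (vel g0 (x0, p))) := CC_seq cvel hj hz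
    have e2 : Tendsto (fun k => Hh (gh (ρ (κ k))) (xs (κ k), p)) atTop
        (𝓝 (Hh g0 (x0, p))) := CC_seq cHh hj hz
    have e3 : Tendsto (fun k => ta (xs (κ k), p)) atTop (𝓝 (ta (x0, p))) :=
      (cont_ta.tendsto _).comp hz
    refine (((hw.tendsto _).comp e3).mul (((hϑ.tendsto _).comp e2).pow 2)).mul ?_
    exact (tend_app (V := E (m + 1)) hA0 e1).pow 2
  have hlim : Tendsto (fun k => ∫ p, Fi (gh (ρ (κ k))) w0 ϑ (xs (κ k)) (As (κ k)) p) atTop
      (𝓝 (∫ p, Fi g0 w0 ϑ x0 A0 p)) := by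
    refine tendsto_integral_filter_of_dominated_convergence
      ((Metric.closedBall (0 : E (m + 1)) R).indicator (fun _ => Cw * (Cv ^ 2) ^ 2))
      (Eventually.of_forall fun k => (cont_Fi h5 (hS.riemh _) hw hϑ _ _).aestronglyMeasurable)
      ?_ ?_ (Eventually.of_forall hpt)
    · filter_upwards [hj.eventually hbd] with k hk
      exact Eventually.of_forall fun p => hk _ (hxs _) _ (hAs _) p
    · have hBm : MeasurableSet (Metric.closedBall (0 : E (m + 1)) R) :=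
        Metric.isClosed_closedBall.measurableSet
      exact (integrable_indicator_iff hBm).2
        (integrableOn_const (hs := (isCompact_closedBall (0 : E (m + 1)) R).measure_lt_top.ne))
  have hI : ∫ p, Fi g0 w0 ϑ x0 A0 p ≤ 0 := by
    have e1 : Tendsto (fun k : ℕ => 1 / (((κ k : ℕ) : ℝ) + 1)) atTop (𝓝 0) :=
      tendsto_one_div_add_atTop_nhds_zero_nat.comp hκ.tendsto_atTop
    exact le_of_tendsto_of_tendsto' hlim e1 fun k => (hlt (κ k)).le
  have hz0 : ∀ p : E (m + 1), R < ‖p‖ → Fi g0 w0 ϑ x0 A0 p = 0 := by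
    intro p hp
    refine tendsto_nhds_unique (hpt p) ?_
    refine tendsto_const_nhds.congr' ?_
    filter_upwards [hj.eventually hzero] with k hk
    exact (hk _ (hxs _) _ p hp).symm
  have hcF : Continuous (Fi g0 w0 ϑ x0 A0) := cont_Fi h5 hS.riem0 hw hϑ _ _
  have hcs : HasCompactSupport (Fi g0 w0 ϑ x0 A0) := by
    refine HasCompactSupport.intro (isCompact_closedBall (0 : E (m + 1)) R) fun p hp => ?_
    rw [Metric.mem_closedBall, dist_zero_right, not_le] at hp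
    exact hz0 p hp
  have hint : Integrable (Fi g0 w0 ϑ x0 A0) := hcF.integrable_of_hasCompactSupport hcs
  have hnn : ∀ p, 0 ≤ Fi g0 w0 ϑ x0 A0 p := Fi_nonneg hb.cw0.nonneg x0 A0
  have hI0 : ∫ p, Fi g0 w0 ϑ x0 A0 p = 0 := le_antisymm hI (integral_nonneg hnn)
  have hae := (integral_eq_zero_iff_of_nonneg hnn hint).1 hI0
  have hall : Fi g0 w0 ϑ x0 A0 = 0 := (hcF.ae_eq_iff_eq _ continuous_zero).1 hae
  obtain ⟨τ, hτ⟩ : ∃ τ, w0 τ ≠ 0 := by
    by_contra hno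
    push Not at hno
    have := hb.cw0_int
    rw [show w0 = fun _ => 0 from funext hno] at this
    simp at this
  exact pos_lim h2 h5 hS.riem0 hS.blk0 hτ hb.th_pos x0 A0 hmem.2 (fun p => congrFun hall p)

/-- the form `D g (x) e` -/
lemma dg_symm {m : ℕ} (g : Form (m + 1)) (x u v : E (m + 1)) :
    fderiv ℝ g.val x eL u v = fderiv ℝ g.val x eL v u := by
  have hd : DifferentiableAt ℝ g.val x := (g.smooth.differentiable (by simp)) x
  have e1 : ∀ a b : E (m + 1), HasFDerivAt (fun y => g.val y a b)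
      ((((fderiv ℝ g.val x).flip a)).flip b) x := by
    intro a b
    have h1 := hd.hasFDerivAt.clm_apply (hasFDerivAt_const a x)
    have h2 := h1.clm_apply (hasFDerivAt_const b x)
    refine h2.congr_fderiv ?_
    ext w
    simp
  have e2 := (e1 u v).congr_of_eventuallyEq
    (Eventually.of_forall fun y => (g.symm y u v).symm : (fun y => g.val y v u) =ᶠ[𝓝 x] _)
  have e3 := e2.unique (e1 v u)
  have e4 := congrArg (fun L => L eL) e3
  exact e4

/-- lower bound for one metric -/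
lemma low_NN {m : ℕ} (h2 : StBas) {g gh : Form (m + 1)} (hR : Riem g) (hB : Blk g) {w0 ϑ : ℝ → ℝ} (hw : ∀ t, 0 ≤ w0 t) {c : ℝ}
    {x : E (m + 1)} (hc : ∀ A ∈ Sph (V := E (m + 1)) eL, c ≤ ∫ p, Fi gh w0 ϑ x A p) :
    c * NN g x ^ 2 ≤ ∫ p, w0 (ta (x, p)) * ϑ (Hh gh (x, p)) ^ 2 * uq g gh (x, p) ^ 2 := by
  have he : fderiv ℝ g.val x eL eL = 0 := ((h2 m g hR hB).2.2.2.2.2.2.2 x eL).2
  by_cases hA : fderiv ℝ g.val x eL = 0
  · have h0 : NN g x = 0 := by
      rw [NN, hA]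
      exact norm_zero (E := E (m + 1) →L[ℝ] E (m + 1) →L[ℝ] ℝ)
    rw [h0]
    have : c * (0 : ℝ) ^ 2 = 0 := by ring
    rw [this]
    exact integral_nonneg fun p => mul_nonneg (mul_nonneg (hw _) (sq_nonneg _)) (sq_nonneg _)
  · have h1 := hc _ (scale (V := E (m + 1)) (dg_symm g x) he hA)
    have hn0 : NN g x ≠ 0 := fun h =>
      hA (norm_eq_zero (E := E (m + 1) →L[ℝ] E (m + 1) →L[ℝ] ℝ) |>.1 h)
    have e1 : ∀ p, Fi gh w0 ϑ x (‖fderiv ℝ g.val x eL‖⁻¹ • fderiv ℝ g.val x eL) p =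
        (NN g x ^ 2)⁻¹ * (w0 (ta (x, p)) * ϑ (Hh gh (x, p)) ^ 2 * uq g gh (x, p) ^ 2) := by
      intro p
      rw [Fi]
      have e2 : (‖fderiv ℝ g.val x eL‖⁻¹ • fderiv ℝ g.val x eL) (vel gh (x, p)) (vel gh (x, p)) =
          (NN g x)⁻¹ * uq g gh (x, p) := rfl
      rw [e2, mul_pow, inv_pow]
      ring
    simp only [e1] at h1
    rw [integral_const_mul] at h1
    have hpos : 0 < NN g x ^ 2 := by positivity
    rw [inv_mul_eq_div, le_div_iff₀ hpos] at h1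
    exact h1

end IQEqv

open IQEqv in
/-- comparison of the two energies -/
theorem pr_Eqv (h1 : StCvH) (h2 : StBas) (h4 : StHB) (h5 : StOp) : StEqv := by
  intro m g gh g0 φ M φ0 M0 hS K hK ψ ϑ w0 ψ1 θ1 hb
  obtain ⟨c, hc, hlow⟩ := lower h1 h2 h4 h5 hS hK hb
  obtain ⟨R, hR, hRb⟩ := bound_p h4 hS hK
  refine ⟨c⁻¹, by positivity, ?_⟩
  filter_upwards [hlow, hRb] with j hj hjb χ hχ hχ0 hχK
  have hw : Continuous w0 := hb.cw0.smooth.continuous
  have hϑ : Continuous ϑ := hb.th.smooth.continuous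
  have hdg : Continuous (fun x => fderiv ℝ (g j).val x eL) :=
    cont_fd (V := E (m + 1)) (F := E (m + 1) →L[ℝ] E (m + 1) →L[ℝ] ℝ) (g j).smooth eL
  have hNN : Continuous (NN (g j)) := cont_norm (V := E (m + 1)) hdg
  have huq : Continuous (uq (g j) (gh j)) :=
    cont_app (V := E (m + 1)) (hdg.comp continuous_fst) (cont_vel h5 (hS.riemh j))
  set G : W (m + 1) → ℝ := fun z =>
    χ z.1 * (w0 (ta z) * ϑ (Hh (gh j) z) ^ 2 * uq (g j) (gh j) z ^ 2) with hG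
  have hGc : Continuous G :=
    (hχ.comp continuous_fst).mul (((hw.comp cont_ta).mul
      ((hϑ.comp (cont_Hh h5 (hS.riemh j))).pow 2)).mul (huq.pow 2))
  have hGs : HasCompactSupport G := by
    refine HasCompactSupport.intro (hK.prod (isCompact_closedBall (0 : E (m + 1)) R))
      fun z hz => ?_
    by_cases hx : z.1 ∈ K
    · have hp : R < ‖z.2‖ := by
        by_contra hle
        apply hz
        refine ⟨hx, ?_⟩
        rw [Metric.mem_closedBall, dist_zero_right]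
        exact not_lt.1 hle
      have e1 := Fi_zero (gh := gh j) hb (x := z.1) (p := z.2) (hjb z.1 hx z.2) hp
      rw [hG]
      show χ z.1 * (w0 (ta z) * ϑ (Hh (gh j) z) ^ 2 * uq (g j) (gh j) z ^ 2) = 0
      have e2 : w0 (ta z) * ϑ (Hh (gh j) z) ^ 2 = 0 := e1
      rw [e2]; ring
    · have e1 : χ z.1 = 0 := by
        by_contra hne
        exact hx (hχK _ hne)
      rw [hG]
      show χ z.1 * (w0 (ta z) * ϑ (Hh (gh j) z) ^ 2 * uq (g j) (gh j) z ^ 2) = 0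
      rw [e1, zero_mul]
  have hGi : Integrable G (volume.prod volume) := hGc.integrable_of_hasCompactSupport hGs
  have hfub : ∫ z, G z = ∫ x, ∫ p, G (x, p) := integral_prod G hGi
  have hL : Integrable (fun x => χ x * NN (g j) x ^ 2) := by
    refine (hχ.mul (hNN.pow 2)).integrable_of_hasCompactSupport ?_
    refine HasCompactSupport.intro hK fun x hx => ?_
    have e1 : χ x = 0 := by
      by_contra hne
      exact hx (hχK _ hne)
    show χ x * NN (g j) x ^ 2 = 0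
    rw [e1, zero_mul]
  rw [EE, hfub, ← integral_const_mul]
  refine integral_mono hL (hGi.integral_prod_left.const_mul _) fun x => ?_
  show χ x * NN (g j) x ^ 2 ≤ c⁻¹ * ∫ p, G (x, p)
  have e2 : ∫ p, G (x, p) =
      χ x * ∫ p, w0 (ta (x, p)) * ϑ (Hh (gh j) (x, p)) ^ 2 * uq (g j) (gh j) (x, p) ^ 2 := by
    rw [← integral_const_mul]
  rw [e2]
  by_cases hx : x ∈ K
  · have e3 := low_NN h2 (hS.riem j) (hS.blk j) hb.cw0.nonneg (hj x hx)
    have e4 := mul_le_mul_of_nonneg_left e3 (mul_nonneg (inv_nonneg.2 hc.le) (hχ0 x))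
    have e5 : c⁻¹ * χ x * (c * NN (g j) x ^ 2) = χ x * NN (g j) x ^ 2 := by
      field_simp
    rw [e5] at e4
    rw [← mul_assoc]
    exact e4
  · have e1 : χ x = 0 := by
      by_contra hne
      exact hx (hχK _ hne)
    rw [e1]; simp

end Pool.Agent.LQ
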