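import Pool.Agent.Work.MP_13b5d9_gt.LQ.StmtsQ

set_option autoImplicit false

/-!
# MP_13b5d9_gt, block LQ, item FA: correlation identity
-/

open MeasureTheory Set Filter Topology
open scoped ContDiff ENNReal
open Pool.Agent.Work.MP_c9f990_an.Al (IsFlow)

namespace Pool.Agent.LQ

open Pool.Agent.MLS Pool.Agent.EC Pool.Agent.DR

namespace IQFA

/-- the one dimensional identity -/
theorem tri (C : ℝ → ℝ) (hC : Continuous C) (R : ℝ) (hR : 0 ≤ R) :
    ∫ t in (0 : ℝ)..R, ∫ s in (0 : ℝ)..R, C (s - t) = ∫ u in (-R)..R, (R - |u|) * C u := by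
  set G : ℝ → ℝ := fun x => ∫ u in (0 : ℝ)..x, C u with hG
  have hGd : ∀ x, HasDerivAt G (C x) x := fun x => (hC.integral_hasStrictDerivAt 0 x).hasDerivAt
  have hGc : Continuous G := continuous_iff_continuousAt.2 fun x => (hGd x).continuousAt
  have hG0 : G 0 = 0 := intervalIntegral.integral_same
  have h1 : ∀ t, ∫ s in (0 : ℝ)..R, C (s - t) = G (R - t) - G (-t) := by
    intro t
    rw [intervalIntegral.integral_comp_sub_right (fun x => C x) t, hG]
    simp only
    rw [intervalIntegral.integral_interval_sub_left (hC.intervalIntegrable _ _)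
      (hC.intervalIntegrable _ _), zero_sub]
  have h2 : ∫ t in (0 : ℝ)..R, (G (R - t) - G (-t)) =
      (∫ x in (0 : ℝ)..R, G x) - ∫ x in (-R)..0, G x := by
    have hx : Continuous fun t => G (R - t) := hGc.comp (by fun_prop)
    have hy : Continuous fun t => G (-t) := hGc.comp (by fun_prop)
    rw [intervalIntegral.integral_sub (hx.intervalIntegrable _ _) (hy.intervalIntegrable _ _),
      intervalIntegral.integral_comp_sub_left (fun x => G x) R,
      intervalIntegral.integral_comp_neg (fun x => G x), sub_self, sub_zero, neg_zero]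
  have h4 : ∫ u in (0 : ℝ)..R, (R - u) * C u = ∫ u in (0 : ℝ)..R, G u := by
    have h : ∫ u in (0 : ℝ)..R, ((-1) * G u + (R - u) * C u) = (R - R) * G R - (R - 0) * G 0 := by
      refine intervalIntegral.integral_eq_sub_of_hasDerivAt
        (f := fun u => (R - u) * G u) (fun u _ => ?_) (Continuous.intervalIntegrable ?_ _ _)
      · have : HasDerivAt (fun u => (R - u) * G u) (-1 * G u + (R - u) * C u) u :=
          ((hasDerivAt_id' u).const_sub R).fun_mul (hGd u)
        exact this
      · fun_prop
    rw [sub_self, zero_mul, hG0, mul_zero, sub_zero, intervalIntegral.integral_add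
      (Continuous.intervalIntegrable (by fun_prop) _ _)
      (Continuous.intervalIntegrable (by fun_prop) _ _),
      intervalIntegral.integral_const_mul] at h
    linarith
  have h5 : ∫ u in (-R)..0, (R + u) * C u = - ∫ u in (-R)..0, G u := by
    have h : ∫ u in (-R)..0, (1 * G u + (R + u) * C u) = (R + 0) * G 0 - (R + -R) * G (-R) := by
      refine intervalIntegral.integral_eq_sub_of_hasDerivAt
        (f := fun u => (R + u) * G u) (fun u _ => ?_) (Continuous.intervalIntegrable ?_ _ _)
      · have : HasDerivAt (fun u => (R + u) * G u) (1 * G u + (R + u) * C u) u :=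
          ((hasDerivAt_id' u).const_add R).fun_mul (hGd u)
        exact this
      · fun_prop
    rw [add_neg_cancel, zero_mul, hG0, mul_zero, sub_zero, intervalIntegral.integral_add
      (Continuous.intervalIntegrable (by fun_prop) _ _)
      (Continuous.intervalIntegrable (by fun_prop) _ _),
      intervalIntegral.integral_const_mul] at h
    linarith
  have h6 : ∫ u in (-R)..R, (R - |u|) * C u =
      (∫ u in (-R)..0, (R + u) * C u) + ∫ u in (0 : ℝ)..R, (R - u) * C u := by
    have hc : Continuous fun u : ℝ => (R - |u|) * C u := by fun_prop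
    rw [← intervalIntegral.integral_add_adjacent_intervals (hc.intervalIntegrable (-R) 0)
      (hc.intervalIntegrable 0 R)]
    congr 1
    · refine intervalIntegral.integral_congr fun u hu => ?_
      rw [uIcc_of_le (by linarith)] at hu
      show (R - |u|) * C u = (R + u) * C u
      rw [abs_of_nonpos hu.2]
      ring
    · refine intervalIntegral.integral_congr fun u hu => ?_
      rw [uIcc_of_le hR] at hu
      show (R - |u|) * C u = (R - u) * C u
      rw [abs_of_nonneg hu.1]
  simp_rw [h1]
  rw [h2, h6, h4, h5]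
  ring

/-- exchange of integrals -/
theorem swap {n : ℕ} (f : ℝ → W n → ℝ) (hf : Continuous (fun p : ℝ × W n => f p.1 p.2))
    {Q : Set (W n)} (hQ : IsCompact Q) (h0 : ∀ t z, z ∉ Q → f t z = 0) (R : ℝ) (hR : 0 ≤ R) :
    ∫ z, ∫ t in (0 : ℝ)..R, f t z = ∫ t in (0 : ℝ)..R, ∫ z, f t z := by
  have h1 : ∀ z, z ∉ Q → ∫ t in (0 : ℝ)..R, f t z = 0 := fun z hz => by
    have : (fun t => f t z) = fun _ => 0 := funext fun t => h0 t z hz
    rw [this, intervalIntegral.integral_zero]
  have h2 : ∀ t, ∫ z, f t z = ∫ z in Q, f t z := fun t =>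
    (setIntegral_eq_integral_of_forall_compl_eq_zero fun z hz => h0 t z hz).symm
  rw [← setIntegral_eq_integral_of_forall_compl_eq_zero (s := Q) (fun z hz => h1 z hz)]
  simp_rw [h2, intervalIntegral.integral_of_le hR]
  refine integral_integral_swap ?_
  rw [Measure.prod_restrict]
  have h3 : Continuous (Function.uncurry fun (z : W n) (t : ℝ) => f t z) :=
    hf.comp (continuous_snd.prodMk continuous_fst)
  exact (h3.continuousOn.integrableOn_compact (hQ.prod isCompact_Icc)).mono_set
    (prod_mono_right Ioc_subset_Icc_self)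

end IQFA

open IQFA in
theorem pr_FA (h1 : StUA) (h4 : StMP) (h6 : StOp) (h7 : StEqF) (h8 : StSub) : StFA := by
  intro n G _ _ hco g φ M hR0 hInv hfl χ hχ w k B D hwc hkc hw2 hk2 hw5 hw4 hD
  have hχc : Continuous χ := hχ.smooth.continuous
  have hφ : Continuous (fun p : ℝ × W n => φ p.1 p.2) := hfl.cont
  set Q : Set (W n) := {z | z.1 ∈ tsupport χ ∧ Hm g z ≤ B} with hQdef
  have hQ : IsCompact Q := h8 n g hR0 (tsupport χ) B hχ.cpt
  have hzero : ∀ z : W n, z ∉ Q → χ z.1 * w z = 0 := by
    intro z hz
    by_cases hz1 : z.1 ∈ tsupport χ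
    · have hz2 : ¬ Hm g z ≤ B := fun h => hz ⟨hz1, h⟩
      have : w z = 0 := by
        by_contra hne
        exact hz2 (hw4 z hne)
      rw [this, mul_zero]
    · rw [image_eq_zero_of_notMem_tsupport hz1, zero_mul]
  -- the correlation
  set C : ℝ → ℝ := fun u => ∫ z, χ z.1 * (w z * (k (φ u z) * k z)) with hCdef
  have hCc : Continuous C := by
    have e : C = fun u => ∫ z in Q, χ z.1 * (w z * (k (φ u z) * k z)) := by
      funext u
      refine (setIntegral_eq_integral_of_forall_compl_eq_zero fun z hz => ?_).symm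
      rw [← mul_assoc, hzero z hz, zero_mul]
    rw [e]
    refine continuous_parametric_integral_of_continuous
      (f := fun u (z : W n) => χ z.1 * (w z * (k (φ u z) * k z))) ?_ hQ
    have q1 : Continuous fun p : ℝ × W n => χ p.2.1 :=
      hχc.comp (continuous_fst.comp continuous_snd)
    have q2 : Continuous fun p : ℝ × W n => w p.2 := hwc.comp continuous_snd
    have q3 : Continuous fun p : ℝ × W n => k (φ p.1 p.2) := hkc.comp hφ
    have q4 : Continuous fun p : ℝ × W n => k p.2 := hkc.comp continuous_snd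
    exact q1.mul (q2.mul (q3.mul q4))
  -- shift
  have hshift : ∀ s t : ℝ, ∫ z, χ z.1 * (w z * (k (φ s z) * k (φ t z))) = C (s - t) := by
    intro s t
    set F : W n → ℝ := fun y => w y * (k (φ (s - t) y) * k y) with hF
    have hφt : ∀ r, Continuous (φ r) := fun r =>
      hφ.comp (continuous_const.prodMk continuous_id)
    have hinv1 : ∀ r z, φ r (φ (-r) z) = z := fun r z => by
      rw [← hfl.add, add_neg_cancel, hfl.zero]
    have hinv2 : ∀ r z, φ (-r) (φ r z) = z := fun r z => by
      rw [← hfl.add, neg_add_cancel, hfl.zero]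
    have hFc : Continuous F := hwc.mul ((hkc.comp (hφt _)).mul hkc)
    have hFi : ∀ (a : G) (z : W n), F (lft g a z) = F z := by
      intro a z
      simp only [hF]
      rw [hw2 a z, h7 n G hco g hR0 hInv φ M hfl a (s - t) z, hk2 a z, hk2 a]
    have hFs : ∀ z, F z ≠ 0 → Hm g z ≤ B := fun z hz => hw4 z (left_ne_zero_of_mul hz)
    have hFs' : ∀ z, F (φ t z) ≠ 0 → Hm g z ≤ B := fun z hz => by
      have := left_ne_zero_of_mul hz
      rw [hw5 t z] at this
      exact hw4 z this
    have hmp := h4 n (Hm g) φ M (h6 n g hR0).2.2.2.2.2.2.2.1 hfl t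
    have hUA := h1 n G hco g hR0 hInv χ hχ (φ t) (φ (-t)) (hφt t) (hφt (-t))
      (hinv1 t) (hinv2 t) hmp (fun a z => h7 n G hco g hR0 hInv φ M hfl a t z) F B
      hFc hFi hFs hFs'
    have e1 : ∀ z, F (φ t z) = w z * (k (φ s z) * k (φ t z)) := by
      intro z
      simp only [hF]
      rw [hw5 t z, ← hfl.add, sub_add_cancel]
    simp_rw [e1] at hUA
    exact hUA
  -- continuity of the integrals along the orbits
  set I1 : W n → ℝ := fun z => ∫ s in (0 : ℝ)..D, k (φ s z) with hI1
  have hφ' : Continuous (fun p : W n × ℝ => φ p.2 p.1) :=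
    hφ.comp (continuous_snd.prodMk continuous_fst)
  have hI1c : Continuous I1 :=
    intervalIntegral.continuous_parametric_intervalIntegral_of_continuous'
      (f := fun z s => k (φ s z)) (hkc.comp hφ') 0 D
  have p1 : Continuous fun p : ℝ × W n => χ p.2.1 :=
    hχc.comp (continuous_fst.comp continuous_snd)
  have p2 : Continuous fun p : ℝ × W n => w p.2 := hwc.comp continuous_snd
  have p3 : Continuous fun p : ℝ × W n => k (φ p.1 p.2) := hkc.comp hφ
  -- first exchange
  have s1 : ∫ z, χ z.1 * (w z * (∫ s in (0 : ℝ)..D, k (φ s z)) ^ 2) =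
      ∫ z, ∫ t in (0 : ℝ)..D, χ z.1 * (w z * (I1 z * k (φ t z))) := by
    refine integral_congr_ae (Eventually.of_forall fun z => ?_)
    simp only
    rw [intervalIntegral.integral_const_mul, intervalIntegral.integral_const_mul,
      intervalIntegral.integral_const_mul]
    simp only [hI1]
    ring
  have s2 : ∫ z, ∫ t in (0 : ℝ)..D, χ z.1 * (w z * (I1 z * k (φ t z))) =
      ∫ t in (0 : ℝ)..D, ∫ z, χ z.1 * (w z * (I1 z * k (φ t z))) := by
    refine swap (fun t z => χ z.1 * (w z * (I1 z * k (φ t z)))) ?_ hQ (fun t z hz => ?_) D hD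
    · exact p1.mul (p2.mul ((hI1c.comp continuous_snd).mul p3))
    · rw [← mul_assoc, hzero z hz, zero_mul]
  -- second exchange
  have s3 : ∀ t, ∫ z, χ z.1 * (w z * (I1 z * k (φ t z))) = ∫ s in (0 : ℝ)..D, C (s - t) := by
    intro t
    have a1 : ∫ z, χ z.1 * (w z * (I1 z * k (φ t z))) =
        ∫ z, ∫ s in (0 : ℝ)..D, χ z.1 * (w z * (k (φ s z) * k (φ t z))) := by
      refine integral_congr_ae (Eventually.of_forall fun z => ?_)
      simp only
      rw [intervalIntegral.integral_const_mul, intervalIntegral.integral_const_mul,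
        intervalIntegral.integral_mul_const]
    have a2 : ∫ z, ∫ s in (0 : ℝ)..D, χ z.1 * (w z * (k (φ s z) * k (φ t z))) =
        ∫ s in (0 : ℝ)..D, ∫ z, χ z.1 * (w z * (k (φ s z) * k (φ t z))) := by
      refine swap (fun s z => χ z.1 * (w z * (k (φ s z) * k (φ t z)))) ?_ hQ
        (fun s z hz => ?_) D hD
      · have hφt : Continuous fun p : ℝ × W n => φ t p.2 :=
          hφ.comp (continuous_const.prodMk continuous_snd)
        exact p1.mul (p2.mul (p3.mul (hkc.comp hφt)))
      · rw [← mul_assoc, hzero z hz, zero_mul]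
    rw [a1, a2]
    exact intervalIntegral.integral_congr fun s _ => hshift s t
  rw [s1, s2]
  simp_rw [s3]
  exact tri C hCc D hD

end Pool.Agent.LQ
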