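import Mathlib
import Pool.Agent.Work.MP_13b5d9_gt.LQ.StmtsQ

set_option autoImplicit false

/-!
# MP_13b5d9_gt, block LQ, item FB
-/

open MeasureTheory Set Filter Topology
open scoped ContDiff ENNReal
open Pool.Agent.Work.MP_c9f990_an.Al (IsFlow)

namespace Pool.Agent.LQ

open Pool.Agent.MLS Pool.Agent.EC Pool.Agent.DR

namespace IQFB

theorem ivl (R : ℝ) (hR : 0 ≤ R) (G : ℝ → ℝ) :
    ∫ u in (-R)..R, (R - |u|) * G u = ∫ u, max (R - |u|) 0 * G u := by
  rw [intervalIntegral.integral_of_le (by linarith)]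
  have h1 : ∫ u in Ioc (-R) R, (R - |u|) * G u = ∫ u in Ioc (-R) R, max (R - |u|) 0 * G u := by
    apply setIntegral_congr_fun measurableSet_Ioc
    intro u hu
    have h2 : |u| ≤ R := abs_le.mpr ⟨hu.1.le, hu.2⟩
    simp only
    rw [max_eq_left (by linarith)]
  rw [h1]
  apply setIntegral_eq_integral_of_forall_compl_eq_zero
  intro u hu
  have h2 : R ≤ |u| := by
    by_contra hcon
    push Not at hcon
    rw [abs_lt] at hcon
    exact hu ⟨hcon.1, hcon.2.le⟩
  rw [max_eq_right (by linarith), zero_mul]

end IQFB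

open IQFB

theorem pr_FB (h1 : StFA) (h2 : StSub) : StFB := by
  intro n G _ _ hG g φ M hR hI hφ χ hχ w k R D hw hk hwi hki hwf hws hD
  rw [h1 n G hG g φ M hR hI hφ χ hχ w k R D hw hk hwi hki hwf hws hD]
  rw [ivl D hD]
  have hχc : Continuous χ := hχ.smooth.continuous
  set F : ℝ → W n → ℝ := fun u z => max (D - |u|) 0 *
    (χ z.1 * (w z * (k (φ u z) * k z))) with hF
  have hcont : Continuous F.uncurry := by
    have e1 : Continuous (fun p : ℝ × W n => k (φ p.1 p.2)) := hk.comp hφ.cont
    have e3 : Continuous (fun p : ℝ × W n => k p.2) := hk.comp continuous_snd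
    have e5 : Continuous (fun p : ℝ × W n => w p.2) := hw.comp continuous_snd
    have e6 : Continuous (fun p : ℝ × W n => χ p.2.1) :=
      hχc.comp (continuous_fst.comp continuous_snd)
    have e7 : Continuous (fun p : ℝ × W n => max (D - |p.1|) 0) :=
      (continuous_const.sub continuous_fst.abs).max continuous_const
    exact e7.mul (e6.mul (e5.mul (e1.mul e3)))
  have hcs : HasCompactSupport F.uncurry := by
    have hQ : IsCompact {z : W n | z.1 ∈ tsupport χ ∧ Hm g z ≤ R} :=
      h2 n g hR (tsupport χ) R hχ.cpt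
    apply HasCompactSupport.intro ((isCompact_Icc (a := -D) (b := D)).prod hQ)
    rintro ⟨u, z⟩ hu
    show max (D - |u|) 0 * (χ z.1 * (w z * (k (φ u z) * k z))) = 0
    by_cases hu1 : |u| ≤ D
    · by_cases hz1 : z.1 ∈ tsupport χ
      · have hw0 : w z = 0 := by
          by_contra hne
          exact hu ⟨abs_le.mp hu1, hz1, hws z hne⟩
        rw [hw0, zero_mul, mul_zero, mul_zero]
      · rw [image_eq_zero_of_notMem_tsupport hz1, zero_mul, mul_zero]
    · rw [max_eq_right (by linarith [not_le.mp hu1]), zero_mul]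
  calc ∫ u, max (D - |u|) 0 * ∫ z, χ z.1 * (w z * (k (φ u z) * k z))
      = ∫ u, ∫ z, F u z := by
        congr 1
        ext u
        rw [← integral_const_mul]
    _ = ∫ z, ∫ u, F u z := integral_integral_swap_of_hasCompactSupport hcont hcs
    _ = ∫ z, χ z.1 * (w z * ((∫ s in (-D)..D, (D - |s|) * k (φ s z)) * k z)) := by
        congr 1
        ext z
        have e0 : ∫ u, F u z = ∫ u in (-D)..D, (D - |u|) *
            (χ z.1 * (w z * (k (φ u z) * k z))) :=
          (ivl D hD _).symm
        rw [e0]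
        have e1 : ∫ u in (-D)..D, (D - |u|) * (χ z.1 * (w z * (k (φ u z) * k z))) =
            ∫ u in (-D)..D, (χ z.1 * w z * k z) * ((D - |u|) * k (φ u z)) := by
          congr 1
          ext u
          ring
        rw [e1, intervalIntegral.integral_const_mul]
        ring

end Pool.Agent.LQ
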