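import Mathlib
import Pool.Agent.Work.MP_13b5d9_gt.LQ.StmtsQ

set_option autoImplicit false

/-!
# MP_13b5d9_gt, block LQ, item FC
-/

open MeasureTheory Set Filter Topology
open scoped ContDiff ENNReal
open Pool.Agent.Work.MP_c9f990_an.Al (IsFlow)

namespace Pool.Agent.LQ

open Pool.Agent.MLS Pool.Agent.EC Pool.Agent.DR

namespace IQFC

/-- integrals along the orbits are continuous -/
theorem cont {n : ℕ} {φ : ℝ → W n → W n}
    (hφ : Continuous (fun p : ℝ × W n => φ p.1 p.2)) {c : W n → ℝ}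
    (hc : Continuous c) (a b : ℝ) : Continuous (fun z => ∫ s in a..b, c (φ s z)) := by
  apply intervalIntegral.continuous_parametric_intervalIntegral_of_continuous'
  have e : Continuous (fun p : W n × ℝ => (p.2, p.1)) := continuous_snd.prodMk continuous_fst
  exact hc.comp (hφ.comp e)

end IQFC

open IQFC

theorem pr_FC (h1 : StUA) (h4 : StMP) (h6 : StOp) (h7 : StEqF) (h8 : StSub) : StFC := by
  intro n G _ _ hG g φ M hR hI hφ χ hχ w k R D hw hk hwI hkI hwφ hwR hw0 hD
  have hχc : Continuous χ := hχ.smooth.continuous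
  have hχf : Continuous (fun z : W n => χ z.1) := hχc.comp continuous_fst
  set A : W n → ℝ := fun z => ∫ s in (0 : ℝ)..D, k (φ s z) with hA
  set B : W n → ℝ := fun z => ∫ s in (-D)..0, k (φ s z) with hBd
  have kA : Continuous A := cont hφ.cont hk 0 D
  have kB : Continuous B := cont hφ.cont hk (-D) 0
  have hQ : IsCompact {z : W n | z.1 ∈ tsupport χ ∧ Hm g z ≤ R} :=
    h8 n g hR (tsupport χ) R hχ.cpt
  have hint : ∀ f : W n → ℝ, Continuous f →
      Integrable (fun z => χ z.1 * (w z * f z)) := by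
    intro f hf
    apply (hχf.mul (hw.mul hf)).integrable_of_hasCompactSupport
    apply HasCompactSupport.intro hQ
    intro z hz
    show χ z.1 * (w z * f z) = 0
    by_cases hz1 : z.1 ∈ tsupport χ
    · have hw0 : w z = 0 := by
        by_contra hne
        exact hz ⟨hz1, hwR z hne⟩
      rw [hw0, zero_mul, mul_zero]
    · rw [image_eq_zero_of_notMem_tsupport hz1, zero_mul]
  -- the average of `B ^ 2` is the average of `A ^ 2`
  have hBA : ∀ z, B (φ D z) = A z := by
    intro z
    show ∫ s in (-D)..0, k (φ s (φ D z)) = ∫ s in (0 : ℝ)..D, k (φ s z)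
    have e1 : ∫ s in (-D)..0, k (φ s (φ D z)) = ∫ s in (-D)..0, k (φ (s + D) z) := by
      congr 1
      ext s
      rw [hφ.add]
    rw [e1, intervalIntegral.integral_comp_add_right (fun s => k (φ s z)) D]
    simp
  have hU : ∫ z, χ z.1 * (w z * A z ^ 2) = ∫ z, χ z.1 * (w z * B z ^ 2) := by
    have e0 : ∀ (s : ℝ) (z : W n), φ s (φ (-s) z) = z := by
      intro s z
      rw [← hφ.add, add_neg_cancel, hφ.zero]
    have e0' : ∀ (s : ℝ) (z : W n), φ (-s) (φ s z) = z := by
      intro s z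
      rw [← hφ.add, neg_add_cancel, hφ.zero]
    have e1 := h1 n G hG g hR hI χ hχ (φ D) (φ (-D))
      (hφ.cont.comp (continuous_const.prodMk continuous_id))
      (hφ.cont.comp (continuous_const.prodMk continuous_id)) (e0 D) (e0' D)
      (h4 n (Hm g) φ M (h6 n g hR).2.2.2.2.2.2.2.1 hφ D)
      (fun a z => h7 n G hG g hR hI φ M hφ a D z)
      (fun z => w z * B z ^ 2) R (hw.mul (kB.pow 2)) ?_ ?_ ?_
    · rw [← e1]
      congr 1
      ext z
      rw [hBA, hwφ]
    · intro a z
      show w (lft g a z) * (∫ s in (-D)..0, k (φ s (lft g a z))) ^ 2 =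
        w z * (∫ s in (-D)..0, k (φ s z)) ^ 2
      rw [hwI a z]
      congr 2
      congr 1
      ext s
      rw [h7 n G hG g hR hI φ M hφ a s z, hkI a]
    · intro z hz
      exact hwR z (left_ne_zero_of_mul hz)
    · intro z hz
      have h := left_ne_zero_of_mul hz
      rw [hwφ] at h
      exact hwR z h
  have i1 := hint (fun z => A z ^ 2) (kA.pow 2)
  have i2 := hint (fun z => B z ^ 2) (kB.pow 2)
  have i4 := hint (fun z => (A z - B z) ^ 2) ((kA.sub kB).pow 2)
  have s1 : ∫ z, χ z.1 * (w z * (A z - B z) ^ 2) ≤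
      ∫ z, (2 * (χ z.1 * (w z * A z ^ 2)) + 2 * (χ z.1 * (w z * B z ^ 2))) := by
    apply integral_mono i4 ((i1.const_mul _).add (i2.const_mul _))
    intro z
    show χ z.1 * (w z * (A z - B z) ^ 2) ≤
      2 * (χ z.1 * (w z * A z ^ 2)) + 2 * (χ z.1 * (w z * B z ^ 2))
    have a1 : (A z - B z) ^ 2 ≤ 2 * A z ^ 2 + 2 * B z ^ 2 := by nlinarith [sq_nonneg (A z + B z)]
    calc χ z.1 * (w z * (A z - B z) ^ 2)
        ≤ χ z.1 * (w z * (2 * A z ^ 2 + 2 * B z ^ 2)) := by
          apply mul_le_mul_of_nonneg_left _ (hχ.nonneg z.1)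
          exact mul_le_mul_of_nonneg_left a1 (hw0 z)
      _ = _ := by ring
  rw [integral_add (i1.const_mul _) (i2.const_mul _), integral_const_mul, integral_const_mul,
    ← hU] at s1
  calc ∫ z, χ z.1 * (w z * (A z - B z) ^ 2)
      ≤ 2 * (∫ z, χ z.1 * (w z * A z ^ 2)) + 2 * ∫ z, χ z.1 * (w z * A z ^ 2) := s1
    _ = _ := by ring

end Pool.Agent.LQ
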