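import Pool.Agent.Work.MP_13b5d9_gt.LQ.StmtsQ

set_option autoImplicit false

/-!
# Item FinQ: Theorem Q from the bounds
-/

open MeasureTheory Set Filter Topology
open scoped ContDiff ENNReal
open Pool.Agent.Work.MP_c9f990_an.Al (IsFlow)

namespace Pool.Agent.LQ

open Pool.Agent.MLS Pool.Agent.EC Pool.Agent.DR

namespace IQFinQ

/-- periodicity with integer periods -/
theorem perN {V F : Type} [NormedAddCommGroup V] [NormedSpace ℝ V] (e : V) (h : V → F)
    (hp : ∀ x, h (x + e) = h x) (n : ℤ) (x : V) : h (x + (n : ℝ) • e) = h x := by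
  have hN : ∀ (n : ℕ) (x : V), h (x + (n : ℝ) • e) = h x := by
    intro n
    induction n with
    | zero => intro x; simp
    | succ n ih =>
      intro x
      have e1 : x + ((n + 1 : ℕ) : ℝ) • e = (x + (n : ℝ) • e) + e := by
        push_cast
        rw [add_smul, one_smul, add_assoc]
      rw [e1, hp, ih]
  rcases Int.eq_nat_or_neg n with ⟨k, rfl | rfl⟩
  · simpa using hN k x
  · have := hN k (x + ((-(k : ℤ) : ℤ) : ℝ) • e)
    rw [← this]
    congr 1
    push_cast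
    rw [neg_smul]
    abel

/-- the derivative of a periodic function is periodic -/
theorem perD {V F : Type} [NormedAddCommGroup V] [NormedSpace ℝ V] [NormedAddCommGroup F]
    [NormedSpace ℝ F] (e : V) (h : V → F) (hp : ∀ x, h (x + e) = h x) (x : V) :
    fderiv ℝ h (x + e) = fderiv ℝ h x := by
  have e1 : (fun y => h (y + e)) = h := funext hp
  have e2 := fderiv_comp_add_right (𝕜 := ℝ) (f := h) (x := x) e
  rw [e1] at e2
  exact e2.symm

/-- the uniform form of the two bounds, in an abstract space -/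
theorem gen {V F : Type} [NormedAddCommGroup V] [NormedSpace ℝ V] [NormedAddCommGroup F]
    [NormedSpace ℝ F] (e : V) (K : Set V) (h : V → F) (hs : ContDiff ℝ ∞ h)
    (hp1 : ∀ x, h (x + e) = h x) (B : ℝ)
    (hN : ∀ i : ℕ, i ≤ 2 → ∀ x ∈ (fun p : V × ℝ => p.1 + p.2 • e) '' (K ×ˢ Icc (0 : ℝ) 1),
      ‖iteratedFDeriv ℝ i h x‖ ≤ B) (ev : F →L[ℝ] ℝ) (c : ℝ) (hc : 0 ≤ c)
    (hev : ∀ A, |ev A| ≤ ‖A‖ * c) :
    (∀ x ∈ K, ∀ s : ℝ, |ev (h (x + s • e))| ≤ B * c) ∧
    (∀ x ∈ K, ∀ s : ℝ, ∀ w, |fderiv ℝ (fun y => ev (h y)) (x + s • e) w| ≤ B * ‖w‖ * c) ∧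
    (∀ x ∈ K, ∀ s : ℝ, ∀ w w',
      |fderiv ℝ (fun y => fderiv ℝ (fun y' => ev (h y')) y w) (x + s • e) w'| ≤
        B * ‖w'‖ * ‖w‖ * c) := by
  have hp2 : ∀ x, fderiv ℝ h (x + e) = fderiv ℝ h x := perD e h hp1
  have hp3 : ∀ x, fderiv ℝ (fderiv ℝ h) (x + e) = fderiv ℝ (fderiv ℝ h) x :=
    perD e (fderiv ℝ h) hp2
  have hs1 : ContDiff ℝ ∞ (fderiv ℝ h) := hs.fderiv_right (by norm_num)
  have key : ∀ x ∈ K, ∀ s : ℝ, ∃ y ∈ (fun p : V × ℝ => p.1 + p.2 • e) ''
      (K ×ˢ Icc (0 : ℝ) 1), h (x + s • e) = h y ∧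
      fderiv ℝ h (x + s • e) = fderiv ℝ h y ∧
      fderiv ℝ (fderiv ℝ h) (x + s • e) = fderiv ℝ (fderiv ℝ h) y := by
    intro x hx s
    refine ⟨x + Int.fract s • e, ⟨(x, Int.fract s), ⟨hx, Int.fract_nonneg s,
      (Int.fract_lt_one s).le⟩, rfl⟩, ?_⟩
    have e1 : x + s • e = (x + Int.fract s • e) + ((⌊s⌋ : ℤ) : ℝ) • e := by
      rw [add_assoc, ← add_smul, Int.fract_add_floor]
    rw [e1]
    exact ⟨perN e h hp1 _ _, perN e _ hp2 _ _, perN e _ hp3 _ _⟩
  have d1 : ∀ (y w : V), fderiv ℝ (fun y => ev (h y)) y w = ev (fderiv ℝ h y w) := by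
    intro y w
    have e1 : HasFDerivAt h (fderiv ℝ h y) y := (hs.differentiable (by norm_num) y).hasFDerivAt
    have e2 := ev.hasFDerivAt.comp y e1
    have e3 : (fun y => ev (h y)) = ev ∘ h := rfl
    rw [e3, e2.fderiv]
    rfl
  have d2 : ∀ (w y w' : V),
      fderiv ℝ (fun y => fderiv ℝ (fun y' => ev (h y')) y w) y w' =
        ev (fderiv ℝ (fderiv ℝ h) y w' w) := by
    intro w y w'
    have e0 : (fun y => fderiv ℝ (fun y' => ev (h y')) y w) =
        ev ∘ fun y => fderiv ℝ h y w := funext fun y => d1 y w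
    rw [e0]
    have e1 : HasFDerivAt (fderiv ℝ h) (fderiv ℝ (fderiv ℝ h) y) y :=
      (hs1.differentiable (by norm_num) y).hasFDerivAt
    have e2 := e1.clm_apply (hasFDerivAt_const w y)
    have e3 := ev.hasFDerivAt.comp y e2
    rw [e3.fderiv]
    simp
  refine ⟨?_, ?_, ?_⟩
  · intro x hx s
    obtain ⟨y, hy, h1, -, -⟩ := key x hx s
    have h0 := hN 0 (by norm_num) y hy
    rw [norm_iteratedFDeriv_zero] at h0
    rw [h1]
    exact (hev _).trans (mul_le_mul_of_nonneg_right h0 hc)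
  · intro x hx s w
    obtain ⟨y, hy, -, h1, -⟩ := key x hx s
    have h0 := hN 1 (by norm_num) y hy
    rw [norm_iteratedFDeriv_one] at h0
    rw [d1, h1]
    have h2 : ‖fderiv ℝ h y w‖ ≤ B * ‖w‖ :=
      ((fderiv ℝ h y).le_opNorm w).trans (mul_le_mul_of_nonneg_right h0 (norm_nonneg _))
    exact (hev _).trans (mul_le_mul_of_nonneg_right h2 hc)
  · intro x hx s w w'
    obtain ⟨y, hy, -, -, h1⟩ := key x hx s
    have h0 := hN 2 le_rfl y hy
    have h0' : ‖fderiv ℝ (fderiv ℝ h) y‖ ≤ B := by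
      rw [← norm_iteratedFDeriv_one, norm_iteratedFDeriv_fderiv]
      exact h0
    rw [d2, h1]
    have h2 : ‖fderiv ℝ (fderiv ℝ h) y w' w‖ ≤ B * ‖w'‖ * ‖w‖ := by
      refine ((fderiv ℝ (fderiv ℝ h) y).le_opNorm₂ w' w).trans ?_
      gcongr
    exact (hev _).trans (mul_le_mul_of_nonneg_right h2 hc)

/-- the uniform form of the two bounds -/
theorem unifNB {m : ℕ} (K : Set (E (m + 1))) (hK : IsCompact K) :
    ∃ K' : Set (E (m + 1)), IsCompact K' ∧ K ⊆ K' ∧ ∀ g : Form (m + 1),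
    (∀ x, g.val (x + eL) = g.val x) → ∀ B : ℝ, 0 ≤ B → NB g K' B → NBd g K B := by
  refine ⟨(fun p : E (m + 1) × ℝ => p.1 + p.2 • eL) '' (K ×ˢ Icc (0 : ℝ) 1),
    (hK.prod isCompact_Icc).image (by fun_prop), ?_, ?_⟩
  · intro x hx
    exact ⟨(x, 0), ⟨hx, by simp⟩, by simp⟩
  · intro g hp B hB hN
    have hs : ContDiff ℝ ∞ (fun y => fderiv ℝ g.val y eL) :=
      (g.smooth.fderiv_right (by norm_num)).clm_apply contDiff_const
    have hp1 : ∀ x, fderiv ℝ g.val (x + eL) eL = fderiv ℝ g.val x eL := by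
      intro x
      rw [perD eL g.val hp]
    have hg := fun u v : E (m + 1) => gen eL K (fun y => fderiv ℝ g.val y eL) hs hp1 B hN
      ((ContinuousLinearMap.apply ℝ ℝ v).comp
        (ContinuousLinearMap.apply ℝ (E (m + 1) →L[ℝ] ℝ) u)) (‖u‖ * ‖v‖) (by positivity)
      (fun A => by
        have h1 : ‖A u v‖ ≤ ‖A‖ * ‖u‖ * ‖v‖ := A.le_opNorm₂ u v
        rw [Real.norm_eq_abs, mul_assoc] at h1
        exact h1)
    refine ⟨hB, ?_, ?_, ?_⟩
    · intro x hx s u v
      refine ((hg u v).1 x hx s).trans (le_of_eq ?_)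
      ring
    · intro x hx s u v w
      refine ((hg u v).2.1 x hx s w).trans (le_of_eq ?_)
      ring
    · intro x hx s u v w w'
      refine ((hg u v).2.2 x hx s w w').trans (le_of_eq ?_)
      ring

theorem NBd.mono {m : ℕ} {g : Form (m + 1)} {K K' : Set (E (m + 1))} {B : ℝ} (h : NBd g K' B)
    (hK : K ⊆ K') : NBd g K B :=
  ⟨h.nonneg, fun x hx => h.b0 x (hK hx), fun x hx => h.b1 x (hK hx), fun x hx => h.b2 x (hK hx)⟩

/-- a partition of unity is bounded by one -/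
theorem pu_le {n : ℕ} (G : Type) [Group G] [MulAction G (E n)] (χ : E n → ℝ) (h : PU G χ)
    (x : E n) : χ x ≤ 1 := by
  have h1 := le_hasSum (h.sum x) (1 : G) (fun a _ => h.nonneg _)
  rwa [one_smul] at h1

end IQFinQ

theorem IQFinQ.nb : StNB := fun _ K hK => IQFinQ.unifNB K hK

open IQFinQ in
theorem pr_FinQ : StFinQ := by
  intro hSet _ hUp hLow hEqv hBmp m G _ act g g0 χ S h
  obtain ⟨gh, φ, M, φ0, M0, hA, hI⟩ := hSet m G act g g0 χ S h
  obtain ⟨ψ, ϑ, w0, ψ1, θ1, hb⟩ := hBmp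
  obtain ⟨C1, hC1, hU⟩ := hUp m G act g gh g0 χ S φ M φ0 M0 h hA hI ψ ϑ w0 ψ1 θ1 hb
  obtain ⟨C2, hC2, hE⟩ := hEqv m g gh g0 φ M φ0 M0 hA S h.cpt ψ ϑ w0 ψ1 θ1 hb
  have hCC : 0 < C1 * C2 := mul_pos hC1 hC2
  have hD : 1 ≤ C1 * C2 + 1 := by linarith
  obtain ⟨KU, CU, hKU, hCU, hU2⟩ := hU _ hD
  obtain ⟨KL, CL, hKL, hCL, hL2⟩ := hLow m G act g gh g0 χ S φ M φ0 M0 h hA hI ψ ϑ w0 ψ1 θ1 hb _ hD
  obtain ⟨K', hK', hsub, hNB⟩ := unifNB ((KU ∪ KL) ∪ S) ((hKU.union hKL).union h.cpt)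
  have hSfin : volume S < ⊤ := h.cpt.measure_lt_top
  set v : ℝ := (volume S).toReal with hv
  have hv0 : 0 ≤ v := ENNReal.toReal_nonneg
  refine ⟨K', C2 * (CU + CL) + 2 ^ 15 * v, hK', by positivity, ?_⟩
  filter_upwards [hE, hU2, hL2] with j hEj hUj hLj β hβ0 hβ1 hN
  obtain ⟨hsm, hn, -, -⟩ := h.pu j
  have hc : Continuous (χ j) := hsm.continuous
  have hle : ∀ x, χ j x ≤ 1 := fun x => @pu_le (m + 1) G _ (act j) (χ j) (h.pu j) x
  have hEE := hEj (χ j) hc hn (h.supp j)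
  change EE (χ j) (g j) ≤ _
  have hβ15 : 0 < β ^ 15 := by positivity
  rcases le_or_gt β (1 / 2) with hβ | hβ
  · -- small values
    have hd := hNB (g j) (hA.per j) (β ^ 7) (by positivity) hN
    have hR : 2 ≤ 1 / β := by
      rw [le_div_iff₀ hβ0]
      linarith
    have hT : (2 : ℝ) ≤ (1 / β) ^ 2 := by nlinarith
    have hTB : (1 / β) ^ 2 * β ^ 7 ≤ 1 := by
      have e1 : (1 / β) ^ 2 * β ^ 7 = β ^ 5 := by
        field_simp
      rw [e1]
      exact pow_le_one₀ hβ0.le hβ1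
    have u1 := hUj ((1 / β) ^ 2) hT (β ^ 7)
      (NBd.mono hd (subset_union_left.trans subset_union_left)) hTB
    have l1 := hLj (1 / β) hR (β ^ 7)
      (NBd.mono hd (subset_union_right.trans subset_union_left))
    have e1 : CU * ((1 / β) ^ 2) ^ 3 * (β ^ 7) ^ 3 = CU * β ^ 15 := by
      field_simp
    have e2 : CL * (β ^ 7) ^ 2 / (1 / β) = CL * β ^ 15 := by
      field_simp
    rw [e1] at u1
    rw [e2] at l1
    set Sj : ℝ := ∫ z, χ j z.1 * (w0 (ta z) * ϑ (Hh (gh j) z) ^ 2 * uq (g j) (gh j) z ^ 2)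
      with hSj
    have h3 : C1 * EE (χ j) (g j) ≤ C1 * (C2 * Sj) := mul_le_mul_of_nonneg_left hEE hC1.le
    have h4 : (3 * (C1 * C2) + 4) * Sj ≤ (CU + CL) * β ^ 15 := by nlinarith
    have h5 : Sj ≤ (CU + CL) * β ^ 15 := by
      rcases le_or_gt Sj 0 with h0 | h0
      · exact h0.trans (by positivity)
      · nlinarith
    calc EE (χ j) (g j) ≤ C2 * Sj := hEE
      _ ≤ C2 * ((CU + CL) * β ^ 15) := mul_le_mul_of_nonneg_left h5 hC2.le
      _ = C2 * (CU + CL) * β ^ 15 := by ring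
      _ ≤ (C2 * (CU + CL) + 2 ^ 15 * v) * β ^ 15 := by
        apply mul_le_mul_of_nonneg_right _ hβ15.le
        have : 0 ≤ 2 ^ 15 * v := by positivity
        linarith
  · -- large values
    have hpt : ∀ x, χ j x * NN (g j) x ^ 2 ≤ S.indicator (fun _ => (1 : ℝ)) x := by
      intro x
      by_cases hx : x ∈ S
      · rw [indicator_of_mem hx]
        have h0 := hN 0 (by norm_num) x (hsub (Or.inr hx))
        rw [norm_iteratedFDeriv_zero] at h0
        have h1 : NN (g j) x ≤ 1 := by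
          unfold NN
          exact h0.trans (pow_le_one₀ hβ0.le hβ1)
        have h2 : 0 ≤ NN (g j) x := by
          unfold NN
          positivity
        have h3 : NN (g j) x ^ 2 ≤ 1 := pow_le_one₀ h2 h1
        exact mul_le_one₀ (hle x) (by positivity) h3
      · rw [indicator_of_notMem hx]
        have : χ j x = 0 := by
          by_contra h0
          exact hx (h.supp j x h0)
        rw [this, zero_mul]
    have hi : Integrable (S.indicator (fun _ => (1 : ℝ))) :=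
      (integrable_indicator_iff h.cpt.measurableSet).2
        (integrableOn_const (hs := hSfin.ne) (hC := by simp))
    have h6 : EE (χ j) (g j) ≤ v := by
      unfold EE
      have h7 : ∫ x, S.indicator (fun _ => (1 : ℝ)) x = v := by
        rw [integral_indicator h.cpt.measurableSet, setIntegral_const, smul_eq_mul, mul_one]
        rfl
      rw [← h7]
      refine integral_mono_of_nonneg (Eventually.of_forall fun x => ?_) hi
        (Eventually.of_forall hpt)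
      exact mul_nonneg (hn x) (sq_nonneg _)
    have h8 : (1 : ℝ) ≤ 2 ^ 15 * β ^ 15 := by
      rw [← mul_pow]
      exact one_le_pow₀ (by linarith)
    calc EE (χ j) (g j) ≤ v := h6
      _ = v * 1 := (mul_one v).symm
      _ ≤ v * (2 ^ 15 * β ^ 15) := mul_le_mul_of_nonneg_left h8 hv0
      _ = 2 ^ 15 * v * β ^ 15 := by ring
      _ ≤ (C2 * (CU + CL) + 2 ^ 15 * v) * β ^ 15 := by
        apply mul_le_mul_of_nonneg_right _ hβ15.le
        have : 0 ≤ C2 * (CU + CL) := by positivity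
        linarith

end Pool.Agent.LQ
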