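import Pool.Agent.Work.MP_13b5d9_gt.LQ.StmtsQ

set_option autoImplicit false

/-!
# MP_13b5d9_gt, block LQ, item FlC (helper18)
-/

open MeasureTheory Set Filter Topology
open scoped ContDiff ENNReal
open Pool.Agent.Work.MP_c9f990_an.Al (IsFlow)

namespace Pool.Agent.LQ

open Pool.Agent.MLS Pool.Agent.EC Pool.Agent.DR

theorem pr_FlC (h1 : StODE) (h2 : StCvH) (h3 : StCvD) (h4 : StTr0) (h5 : StOp) : StFlC := by
  intro m g gh g0 φ M φ0 M0 hS
  obtain ⟨-, -, -, -, -, -, -, hX, -, -⟩ := h2 m g gh g0 φ M φ0 M0 hS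
  obtain ⟨hD, -⟩ := h3 m g gh g0 φ M φ0 M0 hS
  have hHm : ContDiff ℝ ∞ (Hm g0) := (h5 (m + 1) g0 hS.riem0).2.2.2.2.2.2.2.1
  have hF0 : ContDiff ℝ ∞ (XH (Hm g0)) := (h4 (m + 1) (Hm g0) hHm).1
  refine ⟨h1 (W (m + 1)) (fun j => XH (Hm (gh j))) (XH (Hm g0)) hX (hF0.of_le (by simp)) φ φ0
    (fun j z => (hS.fl j).zero z) (fun z => hS.fl0.zero z) (fun j z t => (hS.fl j).ode z t)
    (fun z t => hS.fl0.ode z t), ?_⟩
  have hCC : CC (fun j (p : W (m + 1) × W (m + 1)) =>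
      (XH (Hm (gh j)) p.1, fderiv ℝ (XH (Hm (gh j))) p.1 p.2))
      (fun p => (XH (Hm g0) p.1, fderiv ℝ (XH (Hm g0)) p.1 p.2)) :=
    (hX.compRight continuous_fst).prodMk hD
  have hsm : ContDiff ℝ 1 (fun p : W (m + 1) × W (m + 1) =>
      (XH (Hm g0) p.1, fderiv ℝ (XH (Hm g0)) p.1 p.2)) := by
    have e1 : ContDiff ℝ ∞ (fun p : W (m + 1) × W (m + 1) => XH (Hm g0) p.1) :=
      hF0.comp contDiff_fst
    have e2 : ContDiff ℝ ∞ (fderiv ℝ (XH (Hm g0))) := hF0.fderiv_right (by simp)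
    have e3 : ContDiff ℝ ∞ (fun p : W (m + 1) × W (m + 1) => fderiv ℝ (XH (Hm g0)) p.1 p.2) :=
      (e2.comp contDiff_fst).clm_apply contDiff_snd
    exact (e1.prodMk e3).of_le (by simp)
  have hder : ∀ (F : W (m + 1) → W (m + 1)) (ψ : ℝ → W (m + 1) → W (m + 1))
      (N : ℝ → W (m + 1) → W (m + 1) →L[ℝ] W (m + 1)), IsFlow F ψ N →
      ∀ (z : W (m + 1) × W (m + 1)) (t : ℝ),
        HasDerivAt (fun s => (ψ s z.1, N s z.1 z.2))
          (F (ψ t z.1), fderiv ℝ F (ψ t z.1) (N t z.1 z.2)) t := by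
    intro F ψ N hf z t
    refine (hf.ode z.1 t).prodMk ?_
    have h := (hf.Mode z.1 t).clm_apply (hasDerivAt_const t z.2)
    simpa using h
  have key := h1 (W (m + 1) × W (m + 1))
    (fun j (p : W (m + 1) × W (m + 1)) =>
      (XH (Hm (gh j)) p.1, fderiv ℝ (XH (Hm (gh j))) p.1 p.2))
    (fun p => (XH (Hm g0) p.1, fderiv ℝ (XH (Hm g0)) p.1 p.2)) hCC hsm
    (fun j s z => (φ j s z.1, M j s z.1 z.2)) (fun s z => (φ0 s z.1, M0 s z.1 z.2))
    (fun j z => by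
      simp only [(hS.fl j).zero z.1, (hS.fl j).M0 z.1, ContinuousLinearMap.id_apply])
    (fun z => by
      simp only [hS.fl0.zero z.1, hS.fl0.M0 z.1, ContinuousLinearMap.id_apply])
    (fun j z t => hder _ _ _ (hS.fl j) z t) (fun z t => hder _ _ _ hS.fl0 z t)
  exact key.comp' continuous_snd

end Pool.Agent.LQ
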