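import Mathlib
import Pool.Agent.Work.MP_13b5d9_gt.LQ.StmtsQ

set_option autoImplicit false

/-!
# MP_13b5d9_gt, block LQ, Theorem Q, item HB: bounds for functions which do not change under
shifts of the vertical momentum
-/

open MeasureTheory Set Filter Topology
open scoped ContDiff ENNReal

namespace Pool.Agent.LQ

open Pool.Agent.MLS Pool.Agent.EC Pool.Agent.DR

namespace IQHB

variable {m : ℕ}

theorem ta_Sh (z : W (m + 1)) : ta (Sh (-ta z) z) = 0 := by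
  have h : ta (Sh (-ta z) z) = ta z + -ta z * (eL : E (m + 1)) (Fin.last m) := rfl
  have h1 : (eL : E (m + 1)) (Fin.last m) = 1 := by
    simp [eL, ee]
  rw [h, h1]
  ring

theorem Hm_Tr {g : Form (m + 1)} (hT : TInv g eL) (s : ℝ) (z : W (m + 1)) :
    Hm g (Tr s z) = Hm g z := by
  have h : op g (z.1 + s • (eL : E (m + 1))) = op g z.1 := by
    unfold op
    rw [hT]
  have h1 : iop g (z.1 + s • (eL : E (m + 1))) = iop g z.1 := by
    unfold iop
    rw [h]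
  have h2 : Hm g (Tr s z) = 1 / 2 * inner ℝ z.2 (iop g (z.1 + s • (eL : E (m + 1))) z.2) := rfl
  rw [h2, h1]
  rfl

/-- the compact set over the points of `K + [0, 1] e` -/
theorem cpt {K : Set (E (m + 1))} (hK : IsCompact K) :
    IsCompact ((fun p : E (m + 1) × ℝ => p.1 + p.2 • (eL : E (m + 1))) '' (K ×ˢ Icc (0 : ℝ) 1)) :=
  (hK.prod isCompact_Icc).image
    (continuous_fst.add (continuous_snd.smul continuous_const))

theorem Hm_pos {g : Form (m + 1)} (h4 : StOp) (hg : Riem g) (z : W (m + 1)) (hz : z.2 ≠ 0) :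
    0 < Hm g z := by
  obtain ⟨-, -, -, ho, -, -, -, -, hH⟩ := h4 (m + 1) g hg
  rw [hH z]
  have h1 : vel g z ≠ 0 := by
    intro h0
    apply hz
    rw [← ho z.1 z.2]
    have h2 : iop g z.1 z.2 = 0 := h0
    rw [h2, map_zero]
  have := hg z.1 (vel g z) h1
  linarith

theorem Tr_int {V : Type} {F : W (m + 1) → V} (h : ∀ z, F (Tr 1 z) = F z) (n : ℤ)
    (z : W (m + 1)) : F (Tr (n : ℝ) z) = F z := by
  have h1 : Function.Periodic (fun s : ℝ => F (Tr s z)) 1 := by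
    intro s
    have h2 : Tr (s + 1) z = Tr 1 (Tr s z) := by
      unfold Tr
      refine Prod.ext ?_ rfl
      show z.1 + (s + 1) • (eL : E (m + 1)) = z.1 + s • (eL : E (m + 1)) + (1 : ℝ) • (eL : E (m + 1))
      rw [add_smul, add_assoc]
    show F (Tr (s + 1) z) = F (Tr s z)
    rw [h2, h]
  have h3 := h1.int_mul_eq n
  rw [mul_one] at h3
  have h4 : Tr 0 z = z := by
    unfold Tr
    refine Prod.ext ?_ rfl
    show z.1 + (0 : ℝ) • (eL : E (m + 1)) = z.1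
    rw [zero_smul, add_zero]
  calc F (Tr (n : ℝ) z) = F (Tr 0 z) := h3
    _ = F z := by rw [h4]

/-- lower bound for the energies by the square of the momentum -/
theorem lower {gh : ℕ → Form (m + 1)} {g0 : Form (m + 1)} (h4 : StOp) (h5 : StBas)
    (hR0 : Riem g0) (hRh : ∀ j, Riem (gh j)) (hBh : ∀ j, Blk (gh j))
    (hcc : CC (fun j => Hm (gh j)) (Hm g0)) {K : Set (E (m + 1))} (hK : IsCompact K) :
    ∃ c : ℝ, 0 < c ∧ ∀ᶠ j in atTop, ∀ z : W (m + 1), z.1 ∈ K → c * ‖z.2‖ ^ 2 ≤ Hm (gh j) z := by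
  have hS : IsCompact (K ×ˢ Metric.sphere (0 : E (m + 1)) 1) :=
    hK.prod (isCompact_sphere _ _)
  have hc0 : Continuous (Hm g0) := hcc.continuous
  obtain ⟨c, hc, hcS⟩ := hS.exists_forall_le' hc0.continuousOn (a := 0) fun z hz => by
    apply Hm_pos h4 hR0
    intro h0
    have h1 := hz.2
    rw [h0, mem_sphere_zero_iff_norm, norm_zero] at h1
    exact zero_ne_one h1
  refine ⟨c / 2, half_pos hc, ?_⟩
  filter_upwards [hcc.unif hS (half_pos hc)] with j hj z hz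
  obtain ⟨-, -, -, -, hD, -⟩ := h5 m (gh j) (hRh j) (hBh j)
  by_cases h0 : z.2 = 0
  · rw [h0, norm_zero]
    obtain ⟨-, -, -, -, -, hn, -⟩ := h5 m (gh j) (hRh j) (hBh j)
    have := (hn z).1
    simpa using this
  · have hn : 0 < ‖z.2‖ := norm_pos_iff.2 h0
    set w : W (m + 1) := (z.1, ‖z.2‖⁻¹ • z.2) with hw
    have h1 : z = Dl ‖z.2‖ w := by
      refine Prod.ext rfl ?_
      show z.2 = ‖z.2‖ • (‖z.2‖⁻¹ • z.2)
      rw [smul_smul, mul_inv_cancel₀ hn.ne', one_smul]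
    have h2 : w ∈ K ×ˢ Metric.sphere (0 : E (m + 1)) 1 := by
      refine ⟨hz, ?_⟩
      rw [mem_sphere_zero_iff_norm]
      show ‖‖z.2‖⁻¹ • z.2‖ = 1
      rw [norm_smul, norm_inv, norm_norm, inv_mul_cancel₀ hn.ne']
    have h3 := hj w h2
    rw [Real.dist_eq] at h3
    have h6 := (abs_lt.1 h3).1
    have h7 := hcS w h2
    have h8 : c / 2 ≤ Hm (gh j) w := by linarith
    have h9 : Hm (gh j) z = ‖z.2‖ ^ 2 * Hm (gh j) w := by
      conv_lhs => rw [h1]
      exact hD _ _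
    rw [h9, mul_comm]
    exact mul_le_mul_of_nonneg_left h8 (sq_nonneg _)

end IQHB

open IQHB in
theorem pr_HB (h1 : StCvH) (h2 : StShf) (h4 : StOp) (h5 : StBas) : StHB := by
  intro m g gh g0 φ M φ0 M0 hS K hK
  obtain ⟨-, -, -, -, -, hcc, -⟩ := h1 m g gh g0 φ M φ0 M0 hS
  set K1 : Set (E (m + 1)) :=
    (fun p : E (m + 1) × ℝ => p.1 + p.2 • (eL : E (m + 1))) '' (K ×ˢ Icc (0 : ℝ) 1) with hK1
  have hK1c : IsCompact K1 := cpt hK
  obtain ⟨c, hc, hlow⟩ := lower h4 h5 hS.riem0 hS.riemh hS.blkh hcc hK1c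
  have key : ∃ Q : Set (W (m + 1)), IsCompact Q ∧ ∀ᶠ j in atTop, ∀ z, Rg (gh j) K z →
      ∃ n : ℤ, Tr (n : ℝ) (Sh (-ta z) z) ∈ Q := by
    refine ⟨K1 ×ˢ Metric.closedBall (0 : E (m + 1)) (1 / c + 1),
      hK1c.prod (isCompact_closedBall _ _), ?_⟩
    filter_upwards [hlow] with j hj z hz
    obtain ⟨⟨x, hx, s, hs⟩, hH⟩ := hz
    refine ⟨-⌊s⌋, ?_⟩
    set z' : W (m + 1) := Tr ((-⌊s⌋ : ℤ) : ℝ) (Sh (-ta z) z) with hz'
    have h6 : z'.1 ∈ K1 := by
      refine ⟨(x, Int.fract s), ⟨hx, Int.fract_nonneg s, (Int.fract_lt_one s).le⟩, ?_⟩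
      show x + Int.fract s • (eL : E (m + 1)) = z.1 + ((-⌊s⌋ : ℤ) : ℝ) • (eL : E (m + 1))
      rw [hs, add_assoc, ← add_smul]
      congr 2
      have := Int.self_sub_floor s
      push_cast
      linarith
    have h7 : Hm (gh j) z' ≤ 1 := by
      have e1 : Hm (gh j) z' = Hm (gh j) (Sh (-ta z) z) := Hm_Tr (hS.tinvh j) _ _
      have e2 : Hh (gh j) (Sh (-ta z) z) = Hh (gh j) z :=
        (h2 m (gh j) (gh j) (hS.riemh j) (hS.blkh j) (hS.riemh j) (hS.blkh j)).1 _ _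
      have e3 : Hh (gh j) (Sh (-ta z) z) =
          Hm (gh j) (Sh (-ta z) z) - ta (Sh (-ta z) z) ^ 2 / 2 := rfl
      rw [ta_Sh] at e3
      rw [e1]
      linarith
    refine ⟨h6, ?_⟩
    rw [mem_closedBall_zero_iff]
    have h8 := (hj z' h6).trans h7
    have h9 : ‖z'.2‖ ^ 2 ≤ 1 / c := by
      rw [le_div_iff₀ hc]
      linarith
    nlinarith [norm_nonneg z'.2]
  refine ⟨key, ?_⟩
  intro V _ F F0 hF hSh hTr
  obtain ⟨Q, hQ, hev⟩ := key
  obtain ⟨C, hC, hb⟩ := hF.bdd hQ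
  refine ⟨C, hC, ?_⟩
  filter_upwards [hev, hb] with j hj hbj z hz
  obtain ⟨n, hn⟩ := hj z hz
  have h6 := hbj _ hn
  rwa [Tr_int (hTr j), hSh] at h6

end Pool.Agent.LQ
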