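import Pool.Agent.Work.MP_13b5d9_gt.LQ.StmtsQ

set_option autoImplicit false

/-!
# MP_13b5d9_gt, block LQ, Theorem Q, item Hc: comparison of the horizontal energies
-/

open MeasureTheory Set Filter Topology
open scoped ContDiff ENNReal
open Pool.Agent.Work.MP_c9f990_an.Al (IsFlow)

namespace Pool.Agent.LQ

open Pool.Agent.MLS Pool.Agent.EC Pool.Agent.DR

namespace IQHc

/-- the kinetic energy depends on the point only through the form at the point -/
theorem Hm_congr {n : ℕ} (g : Form n) {x y : E n} (h : g.val x = g.val y) (p : E n) :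
    Hm g (x, p) = Hm g (y, p) := by
  unfold Hm iop op
  simp only [h]

/-- the kinetic energy is homogeneous of degree two in the momentum -/
theorem Hm_smul {n : ℕ} (g : Form n) (x p : E n) (r : ℝ) :
    Hm g (x, r • p) = r ^ 2 * Hm g (x, p) := by
  unfold Hm
  simp only [map_smul, inner_smul_left, inner_smul_right, RCLike.conj_to_real]
  ring

theorem Hm_zero {n : ℕ} (g : Form n) (x : E n) : Hm g (x, 0) = 0 := by
  unfold Hm
  simp

/-- positivity of the kinetic energy -/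
theorem Hm_pos (h4 : StOp) {n : ℕ} (g : Form n) (hg : Riem g) (x p : E n) (hp : p ≠ 0) :
    0 < Hm g (x, p) := by
  obtain ⟨-, -, -, h, -, -, -, -, hH⟩ := h4 n g hg
  rw [hH]
  have hv : vel g (x, p) ≠ 0 := by
    intro h0
    have h1 := h x p
    have h2 : iop g x p = 0 := h0
    rw [h2, map_zero] at h1
    exact hp h1.symm
  have := hg x _ hv
  linarith

/-- uniform lower bound of the kinetic energies on a compact set -/
theorem lower (h4 : StOp) {n : ℕ} (a : ℕ → Form n) (g0 : Form n) (h0 : Riem g0)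
    (hC : CC (fun j => Hm (a j)) (Hm g0)) (K : Set (E n)) (hK : IsCompact K) :
    ∃ c, 0 < c ∧ ∀ᶠ j in atTop, ∀ x ∈ K, ∀ p : E n, c * ‖p‖ ^ 2 ≤ Hm (a j) (x, p) := by
  set Q : Set (W n) := K ×ˢ Metric.sphere (0 : E n) 1 with hQ
  have hQc : IsCompact Q := hK.prod (isCompact_sphere _ _)
  have hcont : Continuous (Hm g0) := hC.continuous
  obtain ⟨c, hc, hlow⟩ : ∃ c, 0 < c ∧ ∀ z ∈ Q, c ≤ Hm g0 z := by
    rcases Q.eq_empty_or_nonempty with he | hne
    · exact ⟨1, one_pos, fun z hz => by rw [he] at hz; exact hz.elim⟩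
    · obtain ⟨z, hz, hmin⟩ := hQc.exists_isMinOn hne hcont.continuousOn
      refine ⟨Hm g0 z, ?_, fun y hy => hmin hy⟩
      have hz2 : z.2 ≠ 0 := by
        intro h
        have := (Set.mem_prod.1 hz).2
        rw [mem_sphere_zero_iff_norm, h, norm_zero] at this
        exact zero_ne_one this
      exact Hm_pos h4 g0 h0 z.1 z.2 hz2
  refine ⟨c / 2, half_pos hc, ?_⟩
  filter_upwards [hC.unif hQc (half_pos hc)] with j hj x hx p
  rcases eq_or_ne p 0 with rfl | hp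
  · rw [Hm_zero, norm_zero]
    simp
  · have hpn : 0 < ‖p‖ := norm_pos_iff.2 hp
    have hmem : (x, ‖p‖⁻¹ • p) ∈ Q := by
      refine Set.mk_mem_prod hx ?_
      rw [mem_sphere_zero_iff_norm, norm_smul, norm_inv, norm_norm, inv_mul_cancel₀ hpn.ne']
    have h1 := hj _ hmem
    have h2 := hlow _ hmem
    rw [Real.dist_eq, abs_lt] at h1
    have h3 : c / 2 ≤ Hm (a j) (x, ‖p‖⁻¹ • p) := by linarith [h1.1]
    have h4' : Hm (a j) (x, p) = ‖p‖ ^ 2 * Hm (a j) (x, ‖p‖⁻¹ • p) := by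
      rw [← Hm_smul, smul_smul, mul_inv_cancel₀ hpn.ne', one_smul]
    rw [h4', mul_comm]
    exact mul_le_mul_of_nonneg_left h3 (by positivity)

theorem ta_eL {m : ℕ} : (eL : E (m + 1)) (Fin.last m) = 1 := by
  unfold eL ee
  simp

theorem ta_Sh {m : ℕ} (c : ℝ) (z : W (m + 1)) : ta (Sh c z) = ta z + c := by
  unfold ta Sh
  simp [ta_eL]

theorem ta_Tr {m : ℕ} (c : ℝ) (z : W (m + 1)) : ta (Tr c z) = ta z := rfl

/-- integral periods -/
theorem per_int {m : ℕ} (g : Form (m + 1)) (h : ∀ x, g.val (x + eL) = g.val x) (n : ℤ)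
    (x : E (m + 1)) : g.val (x + (n : ℝ) • eL) = g.val x := by
  have hp : Function.Periodic (fun s : ℝ => g.val (x + s • eL)) 1 := by
    intro s
    show g.val (x + (s + 1) • eL) = g.val (x + s • eL)
    rw [add_smul, one_smul, ← add_assoc, h]
  have := hp.int_mul n 0
  simp only [zero_add, mul_one, zero_smul, add_zero] at this
  exact this

theorem Hh_Tr {m : ℕ} (g : Form (m + 1)) (h : ∀ x, g.val (x + eL) = g.val x) (n : ℤ)
    (z : W (m + 1)) : Hh g (Tr (n : ℝ) z) = Hh g z := by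
  unfold Hh
  rw [ta_Tr]
  have : Hm g (Tr (n : ℝ) z) = Hm g z := Hm_congr g (per_int g h n z.1) z.2
  rw [this]

/-- for large `j` the reduced points with bounded energy are in a compact set -/
theorem compactness (h3 : StShf) (h4 : StOp) {m : ℕ} (a : ℕ → Form (m + 1)) (g0 : Form (m + 1))
    (hR : ∀ j, Riem (a j)) (hB : ∀ j, Blk (a j)) (hP : ∀ j x, (a j).val (x + eL) = (a j).val x)
    (h0 : Riem g0) (hC : CC (fun j => Hm (a j)) (Hm g0)) (K : Set (E (m + 1)))
    (hK : IsCompact K) : ∃ Q : Set (W (m + 1)), IsCompact Q ∧ ∀ᶠ j in atTop, ∀ z,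
    (∃ x ∈ K, ∃ s : ℝ, z.1 = x + s • eL) → Hh (a j) z ≤ 1 →
    ∃ n : ℤ, Tr (n : ℝ) (Sh (-ta z) z) ∈ Q := by
  set K' : Set (E (m + 1)) := (fun p : E (m + 1) × ℝ => p.1 + p.2 • (eL : E (m + 1))) ''
    (K ×ˢ Icc (0 : ℝ) 1) with hK'
  have hK'c : IsCompact K' := (hK.prod isCompact_Icc).image
    (continuous_fst.add (continuous_snd.smul continuous_const))
  obtain ⟨c, hc, hlow⟩ := lower h4 a g0 h0 hC K' hK'c
  refine ⟨K' ×ˢ Metric.closedBall (0 : E (m + 1)) (Real.sqrt (1 / c)),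
    hK'c.prod (isCompact_closedBall _ _), ?_⟩
  filter_upwards [hlow] with j hj z hz hle
  obtain ⟨x, hx, s, hs⟩ := hz
  refine ⟨-⌊s⌋, ?_⟩
  set z' : W (m + 1) := Tr ((-⌊s⌋ : ℤ) : ℝ) (Sh (-ta z) z) with hz'
  have h1 : z'.1 ∈ K' := by
    refine ⟨(x, Int.fract s), Set.mk_mem_prod hx ⟨Int.fract_nonneg s, (Int.fract_lt_one s).le⟩, ?_⟩
    show x + Int.fract s • (eL : E (m + 1)) = z.1 + ((-⌊s⌋ : ℤ) : ℝ) • eL
    rw [hs, add_assoc, ← add_smul, Int.fract]
    congr 2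
    push_cast
    ring
  have hta : ta z' = 0 := by
    rw [hz', ta_Tr, ta_Sh]
    ring
  have hH : Hh (a j) z' ≤ 1 := by
    rw [hz', Hh_Tr (a j) (hP j), (h3 m (a j) (a j) (hR j) (hB j) (hR j) (hB j)).1]
    exact hle
  have hHm : Hm (a j) z' ≤ 1 := by
    have : Hh (a j) z' = Hm (a j) z' := by
      unfold Hh
      rw [hta]
      ring
    rw [← this]
    exact hH
  have h2 := hj z'.1 h1 z'.2
  have h5 : ‖z'.2‖ ^ 2 ≤ 1 / c := by
    rw [le_div_iff₀ hc, mul_comm]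
    exact h2.trans hHm
  refine Set.mem_prod.2 ⟨h1, ?_⟩
  rw [mem_closedBall_zero_iff]
  exact Real.le_sqrt_of_sq_le h5

end IQHc

open IQHc in
/-- comparison of the horizontal energies of `g j` and of its vertical mean for large `j` -/
theorem pr_Hc (h2 : StCvH) (h3 : StShf) (h4 : StOp) : StHc := by
  intro m g gh g0 φ M φ0 M0 hS K hK ε hε
  obtain ⟨-, -, -, -, hHm, hHmh, -, -, hHh, hHhh⟩ := h2 m g gh g0 φ M φ0 M0 hS
  have hPh : ∀ j x, (gh j).val (x + eL) = (gh j).val x := by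
    intro j x
    have h9 := hS.tinvh j x 1
    rwa [one_smul] at h9
  obtain ⟨Q1, hQ1, hj1⟩ := compactness h3 h4 g g0 hS.riem hS.blk hS.per hS.riem0 hHm K hK
  obtain ⟨Q2, hQ2, hj2⟩ := compactness h3 h4 gh g0 hS.riemh hS.blkh hPh hS.riem0 hHmh K hK
  have hF : CC (fun j z => Hh (g j) z - Hh (gh j) z) (fun z => Hh g0 z - Hh g0 z) := hHh.sub hHhh
  filter_upwards [hj1, hj2, hF.unif (hQ1.union hQ2) hε] with j h5 h6 h7 z hz hle
  have key : ∀ n : ℤ, Tr (n : ℝ) (Sh (-ta z) z) ∈ Q1 ∪ Q2 → |Hh (g j) z - Hh (gh j) z| ≤ ε := by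
    intro n hn
    have h8 := h7 _ hn
    rw [Real.dist_eq, sub_self, sub_zero, Hh_Tr (g j) (hS.per j), Hh_Tr (gh j) (hPh j),
      (h3 m (g j) (g j) (hS.riem j) (hS.blk j) (hS.riem j) (hS.blk j)).1,
      (h3 m (gh j) (gh j) (hS.riemh j) (hS.blkh j) (hS.riemh j) (hS.blkh j)).1] at h8
    exact h8.le
  rcases hle with hle | hle
  · obtain ⟨n, hn⟩ := h5 z hz (hle.trans (by norm_num))
    exact key n (Or.inl hn)
  · obtain ⟨n, hn⟩ := h6 z hz hle
    exact key n (Or.inr hn)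

end Pool.Agent.LQ
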