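import Pool.Agent.Work.MP_13b5d9_gt.LQ.StmtsQ
import Pool.Agent.Work.MP_13b5d9_gt.DR.I_Fub

set_option autoImplicit false

/-!
# Block LQ, item Int: integrals over the fibres
-/

open MeasureTheory Set Filter Topology
open scoped ContDiff ENNReal
open Pool.Agent.Work.MP_c9f990_an.Al (IsFlow)

namespace Pool.Agent.LQ

open Pool.Agent.MLS Pool.Agent.EC Pool.Agent.DR

namespace IQInt

theorem hh_sh {m : ℕ} (h1 : StBas) (g : Form (m + 1)) (hR : Riem g) (hB : Blk g) (c : ℝ)
    (z : W (m + 1)) : Hh g (Sh c z) = Hh g z := by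
  obtain ⟨-, -, -, h4, -⟩ := h1 m g hR hB
  unfold Hh
  rw [h4, IDRFub.ta_Sh]
  ring

theorem eL_norm {m : ℕ} : ‖(eL : E (m + 1))‖ = 1 := by
  unfold eL ee
  rw [EuclideanSpace.norm_single]
  norm_num

end IQInt

open IQInt in
theorem pr_Int (h1 : StBas) (h2 : StFub) (h3 : StHB) (h5 : StOp) : StInt := by
  intro m g gh g0 φ M φ0 M0 hS K hK ψ ϑ w0 ψ1 θ1 hBm
  obtain ⟨⟨Q, hQ, hev⟩, -⟩ := h3 m g gh g0 φ M φ0 M0 hS K hK
  -- bound of the momenta
  obtain ⟨R0, hR0⟩ := hQ.isBounded.exists_norm_le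
  -- bound of the weight
  obtain ⟨Cw, hCw⟩ := (isCompact_Icc (a := (-1 : ℝ)) (b := 1)).exists_bound_of_continuousOn
    hBm.cw0.smooth.continuous.continuousOn
  have hw0c : Continuous w0 := hBm.cw0.smooth.continuous
  have hth1c : Continuous θ1 := hBm.th1.smooth.continuous
  have hw0b : ∀ x, w0 x ≤ |Cw| := by
    intro x
    by_cases hx : w0 x = 0
    · rw [hx]; positivity
    · exact ((Real.le_norm_self _).trans (hCw x (hBm.cw0.supp x hx))).trans (le_abs_self _)
  set V : ℝ := (volume (Metric.closedBall (0 : E (m + 1)) (R0 + 1))).toReal with hV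
  refine ⟨|Cw| * V + 1, by positivity, ?_⟩
  filter_upwards [hev] with j hj χ f α hχ hf hα hχ0 hf0 hα0 hχK hαs
  have hHc : Continuous (Hm (gh j)) := (h5 (m + 1) (gh j) (hS.riemh j)).2.2.2.2.2.2.2.1.continuous
  have hta : Continuous (fun z : W (m + 1) => ta z) := IDRFub.continuous_ta
  have hHh : Continuous (Hh (gh j)) := hHc.sub ((hta.pow 2).div_const 2)
  have hFc : Continuous (fun z : W (m + 1) => χ z.1 * (f z.1 * θ1 (Hh (gh j) z))) :=
    (hχ.comp continuous_fst).mul ((hf.comp continuous_fst).mul (hth1c.comp hHh))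
  -- a common bound of the supports
  obtain ⟨a0, ha0⟩ := hαs.isCompact.isBounded.exists_norm_le
  set a : ℝ := max |a0| 1 with ha
  have hαa : ∀ x, α x ≠ 0 → |x| ≤ a := fun x hx =>
    ((ha0 x (subset_tsupport α hx)).trans (le_abs_self a0)).trans (le_max_left _ _)
  have hwa : ∀ x, w0 x ≠ 0 → |x| ≤ a := fun x hx =>
    (abs_le.2 (hBm.cw0.supp x hx)).trans (le_max_right _ _)
  have key := h2 m (gh j) (hS.riemh j) (hS.blkh j) α w0 a hα hw0c hαa hwa hBm.cw0_int
    (fun z : W (m + 1) => χ z.1 * (f z.1 * θ1 (Hh (gh j) z))) K 1 hK hFc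
    (fun c z => by
      show χ z.1 * (f z.1 * θ1 (Hh (gh j) (Sh c z))) = χ z.1 * (f z.1 * θ1 (Hh (gh j) z))
      rw [hh_sh h1 (gh j) (hS.riemh j) (hS.blkh j)])
    (fun z hz => ⟨hχK _ (left_ne_zero_of_mul hz),
      (hBm.th1.supp _ (right_ne_zero_of_mul (right_ne_zero_of_mul hz))).2⟩)
  -- the inner bound
  have hχf : Integrable (fun x => χ x * f x) := by
    refine (hχ.mul hf).integrable_of_hasCompactSupport (HasCompactSupport.intro hK ?_)
    intro x hx
    by_contra hne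
    exact hx (hχK x (left_ne_zero_of_mul hne))
  have hind : Integrable ((Metric.closedBall (0 : E (m + 1)) (R0 + 1)).indicator
      (fun _ : E (m + 1) => |Cw|)) := by
    refine (integrable_indicator_iff Metric.isClosed_closedBall.measurableSet).2 ?_
    exact integrableOn_const (hs := (isCompact_closedBall _ _).measure_lt_top.ne)
  have hle : ∫ z : W (m + 1), w0 (ta z) * (χ z.1 * (f z.1 * θ1 (Hh (gh j) z))) ≤
      ∫ z : W (m + 1), (χ z.1 * f z.1) * (Metric.closedBall (0 : E (m + 1)) (R0 + 1)).indicator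
      (fun _ : E (m + 1) => |Cw|) z.2 := by
    refine integral_mono_of_nonneg ?_ ?_ ?_
    · exact Eventually.of_forall fun z => mul_nonneg (hBm.cw0.nonneg _)
        (mul_nonneg (hχ0 _) (mul_nonneg (hf0 _) (hBm.th1.nonneg _)))
    · rw [Measure.volume_eq_prod]
      exact hχf.mul_prod hind
    · refine Eventually.of_forall fun z => ?_
      show w0 (ta z) * (χ z.1 * (f z.1 * θ1 (Hh (gh j) z))) ≤ (χ z.1 * f z.1) *
        (Metric.closedBall (0 : E (m + 1)) (R0 + 1)).indicator (fun _ : E (m + 1) => |Cw|) z.2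
      by_cases hz : w0 (ta z) * (χ z.1 * (f z.1 * θ1 (Hh (gh j) z))) = 0
      · rw [hz]
        refine mul_nonneg (mul_nonneg (hχ0 _) (hf0 _)) (indicator_nonneg (fun _ _ => abs_nonneg _) _)
      · have hw := left_ne_zero_of_mul hz
        have h6 := right_ne_zero_of_mul hz
        have h7 := left_ne_zero_of_mul h6
        have h8 := right_ne_zero_of_mul (right_ne_zero_of_mul h6)
        have htau : |ta z| ≤ 1 := abs_le.2 (hBm.cw0.supp _ hw)
        have hRg : Rg (gh j) K z := ⟨⟨z.1, hχK _ h7, 0, by simp⟩, (hBm.th1.supp _ h8).2⟩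
        obtain ⟨n, hn⟩ := hj z hRg
        have h9 : ‖z.2 + (-ta z) • (eL : E (m + 1))‖ ≤ R0 :=
          (norm_snd_le (Tr (n : ℝ) (Sh (-ta z) z))).trans (hR0 _ hn)
        have h10 : ‖z.2‖ ≤ R0 + 1 := by
          have e1 : z.2 = (z.2 + (-ta z) • (eL : E (m + 1))) + ta z • (eL : E (m + 1)) := by
            rw [neg_smul, neg_add_cancel_right]
          rw [e1]
          refine (norm_add_le _ _).trans (add_le_add h9 ?_)
          rw [norm_smul, eL_norm, mul_one, Real.norm_eq_abs]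
          exact htau
        have h11 : z.2 ∈ Metric.closedBall (0 : E (m + 1)) (R0 + 1) := by
          rw [mem_closedBall_zero_iff]; exact h10
        rw [indicator_of_mem h11]
        have h12 : θ1 (Hh (gh j) z) ≤ 1 := hBm.th1_le _
        have h13 : χ z.1 * (f z.1 * θ1 (Hh (gh j) z)) ≤ χ z.1 * f z.1 := by
          refine mul_le_mul_of_nonneg_left ?_ (hχ0 _)
          exact mul_le_of_le_one_right (hf0 _) h12
        calc w0 (ta z) * (χ z.1 * (f z.1 * θ1 (Hh (gh j) z)))
            ≤ |Cw| * (χ z.1 * f z.1) := mul_le_mul (hw0b _) h13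
              (mul_nonneg (hχ0 _) (mul_nonneg (hf0 _) (hBm.th1.nonneg _))) (abs_nonneg _)
          _ = _ := mul_comm _ _
  have hval : ∫ z : W (m + 1), (χ z.1 * f z.1) * (Metric.closedBall (0 : E (m + 1))
      (R0 + 1)).indicator (fun _ : E (m + 1) => |Cw|) z.2 = (∫ x, χ x * f x) * (|Cw| * V) := by
    rw [Measure.volume_eq_prod]
    rw [integral_prod_mul (fun x => χ x * f x) ((Metric.closedBall (0 : E (m + 1))
      (R0 + 1)).indicator (fun _ : E (m + 1) => |Cw|))]
    congr 1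
    rw [integral_indicator Metric.isClosed_closedBall.measurableSet, setIntegral_const,
      smul_eq_mul, mul_comm]
    rfl
  have hα1 : 0 ≤ ∫ τ, α τ := integral_nonneg hα0
  have hχf1 : 0 ≤ ∫ x, χ x * f x := integral_nonneg fun x => mul_nonneg (hχ0 x) (hf0 x)
  calc ∫ z, χ z.1 * (f z.1 * (α (ta z) * θ1 (Hh (gh j) z)))
      = ∫ z : W (m + 1), α (ta z) * (χ z.1 * (f z.1 * θ1 (Hh (gh j) z))) := by
        refine integral_congr_ae (Eventually.of_forall fun z => ?_)
        show χ z.1 * (f z.1 * (α (ta z) * θ1 (Hh (gh j) z))) = _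
        ring
    _ = (∫ τ, α τ) * ∫ z : W (m + 1), w0 (ta z) * (χ z.1 * (f z.1 * θ1 (Hh (gh j) z))) := key
    _ ≤ (∫ τ, α τ) * ((∫ x, χ x * f x) * (|Cw| * V)) :=
        mul_le_mul_of_nonneg_left (hle.trans hval.le) hα1
    _ = |Cw| * V * (∫ τ, α τ) * ∫ x, χ x * f x := by ring
    _ ≤ (|Cw| * V + 1) * (∫ τ, α τ) * ∫ x, χ x * f x := by
        have : 0 ≤ (∫ τ, α τ) * ∫ x, χ x * f x := mul_nonneg hα1 hχf1
        nlinarith

end Pool.Agent.LQ
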