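import Pool.Agent.Work.MP_13b5d9_gt.LQ.StmtsQ
import Pool.Agent.Work.MP_13b5d9_gt.DR.I_Fub
import Mathlib

set_option autoImplicit false

/-!
# MP_13b5d9_gt, block LQ, item L1: separation of the vertical momentum
-/

open MeasureTheory Set Filter Topology
open scoped ContDiff ENNReal
open Pool.Agent.Work.MP_c9f990_an.Al (IsFlow)

namespace Pool.Agent.LQ

open Pool.Agent.MLS Pool.Agent.EC Pool.Agent.DR

namespace IQL1

variable {m : ℕ}

/-- Fubini for the vertical momentum, for functions of the momentum and the point -/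
theorem fub (h3 : StSub) (g0 : Form (m + 1)) (hg : Riem g0) (w0 : ℝ → ℝ) (a : ℝ)
    (hw : Continuous w0) (hws : ∀ x, w0 x ≠ 0 → |x| ≤ a) (hw1 : ∫ x, w0 x = 1)
    (A : ℝ → W (m + 1) → ℝ) (K : Set (E (m + 1))) (B : ℝ) (hK : IsCompact K)
    (hA : Continuous fun p : ℝ × W (m + 1) => A p.1 p.2)
    (hSh : ∀ τ c z, A τ (Sh c z) = A τ z)
    (hAs : ∀ τ z, A τ z ≠ 0 → |τ| ≤ a ∧ z.1 ∈ K ∧ Hh g0 z ≤ B) :
    ∫ z, A (ta z) z = ∫ τ : ℝ, ∫ z, w0 (ta z) * A τ z := by
  have := IDRFub.addRight (m := m)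
  have hta : Continuous (fun z : W (m + 1) => ta z) := IDRFub.continuous_ta
  have hS : IsCompact {z : W (m + 1) | z.1 ∈ K ∧ Hm g0 z ≤ B + a ^ 2 / 2} :=
    h3 (m + 1) g0 hg K _ hK
  have hbox : ∀ z : W (m + 1), z.1 ∈ K → Hh g0 z ≤ B → |ta z| ≤ a →
      z ∈ {z : W (m + 1) | z.1 ∈ K ∧ Hm g0 z ≤ B + a ^ 2 / 2} := by
    intro z h1 h2 ht
    refine ⟨h1, ?_⟩
    unfold Hh at h2
    have h3 : ta z ^ 2 ≤ a ^ 2 := sq_le_sq' (by linarith [neg_le_of_abs_le ht]) (le_of_abs_le ht)
    linarith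
  have hΦ : Integrable (Function.uncurry fun (z : W (m + 1)) (c : ℝ) =>
      w0 (ta z + c) * A (ta z) z) ((volume : Measure (W (m + 1))).prod volume) := by
    have hc : Continuous (Function.uncurry fun (z : W (m + 1)) (c : ℝ) =>
        w0 (ta z + c) * A (ta z) z) := by
      have h1 : Continuous fun p : W (m + 1) × ℝ => ta p.1 := hta.comp continuous_fst
      have h2 : Continuous fun p : W (m + 1) × ℝ => A (ta p.1) p.1 :=
        hA.comp (h1.prodMk continuous_fst)
      exact (hw.comp (h1.add continuous_snd)).mul h2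
    refine hc.integrable_of_hasCompactSupport ?_
    refine HasCompactSupport.intro (hS.prod (isCompact_Icc (a := -(2 * a)) (b := 2 * a))) ?_
    rintro ⟨z, c⟩ hzc
    by_contra hne
    apply hzc
    simp only [Function.uncurry_apply_pair] at hne
    obtain ⟨hα0, hz1, hz2⟩ := hAs _ _ (right_ne_zero_of_mul hne)
    have hw0 := hws _ (left_ne_zero_of_mul hne)
    refine ⟨hbox z hz1 hz2 hα0, ?_⟩
    rw [abs_le] at hα0 hw0
    constructor
    · show -(2 * a) ≤ c
      linarith [hα0.2, hw0.1]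
    · show c ≤ 2 * a
      linarith [hα0.1, hw0.2]
  have hΨ : Integrable (Function.uncurry fun (z : W (m + 1)) (c : ℝ) =>
      w0 (ta z) * A (ta z - c) z) ((volume : Measure (W (m + 1))).prod volume) := by
    have hc : Continuous (Function.uncurry fun (z : W (m + 1)) (c : ℝ) =>
        w0 (ta z) * A (ta z - c) z) := by
      have h1 : Continuous fun p : W (m + 1) × ℝ => ta p.1 := hta.comp continuous_fst
      have h2 : Continuous fun p : W (m + 1) × ℝ => A (ta p.1 - p.2) p.1 :=
        hA.comp ((h1.sub continuous_snd).prodMk continuous_fst)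
      exact (hw.comp h1).mul h2
    refine hc.integrable_of_hasCompactSupport ?_
    refine HasCompactSupport.intro (hS.prod (isCompact_Icc (a := -(2 * a)) (b := 2 * a))) ?_
    rintro ⟨z, c⟩ hzc
    by_contra hne
    apply hzc
    simp only [Function.uncurry_apply_pair] at hne
    obtain ⟨hα0, hz1, hz2⟩ := hAs _ _ (right_ne_zero_of_mul hne)
    have hw0 := hws _ (left_ne_zero_of_mul hne)
    refine ⟨hbox z hz1 hz2 hw0, ?_⟩
    rw [abs_le] at hα0 hw0
    constructor
    · show -(2 * a) ≤ c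
      linarith [hα0.2, hw0.1]
    · show c ≤ 2 * a
      linarith [hα0.1, hw0.2]
  have hΘ : Integrable (Function.uncurry fun (z : W (m + 1)) (τ : ℝ) =>
      w0 (ta z) * A τ z) ((volume : Measure (W (m + 1))).prod volume) := by
    have hc : Continuous (Function.uncurry fun (z : W (m + 1)) (τ : ℝ) =>
        w0 (ta z) * A τ z) := by
      have h1 : Continuous fun p : W (m + 1) × ℝ => ta p.1 := hta.comp continuous_fst
      have h2 : Continuous fun p : W (m + 1) × ℝ => A p.2 p.1 :=
        hA.comp (continuous_snd.prodMk continuous_fst)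
      exact (hw.comp h1).mul h2
    refine hc.integrable_of_hasCompactSupport ?_
    refine HasCompactSupport.intro (hS.prod (isCompact_Icc (a := -a) (b := a))) ?_
    rintro ⟨z, τ⟩ hzc
    by_contra hne
    apply hzc
    simp only [Function.uncurry_apply_pair] at hne
    obtain ⟨hα0, hz1, hz2⟩ := hAs _ _ (right_ne_zero_of_mul hne)
    have hw0 := hws _ (left_ne_zero_of_mul hne)
    exact ⟨hbox z hz1 hz2 hw0, abs_le.mp hα0⟩
  calc ∫ z, A (ta z) z
      = ∫ z : W (m + 1), ∫ c : ℝ, w0 (ta z + c) * A (ta z) z := by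
        refine integral_congr_ae (Eventually.of_forall fun z => ?_)
        have h1 : ∫ c, w0 (ta z + c) = 1 := by
          rw [integral_add_left_eq_self (μ := volume) w0 (ta z)]
          exact hw1
        show A (ta z) z = ∫ c : ℝ, w0 (ta z + c) * A (ta z) z
        rw [integral_mul_const, h1, one_mul]
    _ = ∫ c : ℝ, ∫ z : W (m + 1), w0 (ta z + c) * A (ta z) z :=
        integral_integral_swap hΦ
    _ = ∫ c : ℝ, ∫ z : W (m + 1), w0 (ta z) * A (ta z - c) z := by
        refine integral_congr_ae (Eventually.of_forall fun c => ?_)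
        show ∫ z : W (m + 1), w0 (ta z + c) * A (ta z) z =
          ∫ z : W (m + 1), w0 (ta z) * A (ta z - c) z
        rw [← integral_add_right_eq_self (μ := volume)
          (fun z : W (m + 1) => w0 (ta z) * A (ta z - c) z)
          ((0 : E (m + 1)), c • (eL : E (m + 1)))]
        refine integral_congr_ae (Eventually.of_forall fun z => ?_)
        show w0 (ta z + c) * A (ta z) z = _
        simp only [← IDRFub.Sh_eq, IDRFub.ta_Sh, hSh]
        rw [add_sub_cancel_right]
    _ = ∫ z : W (m + 1), ∫ c : ℝ, w0 (ta z) * A (ta z - c) z :=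
        (integral_integral_swap hΨ).symm
    _ = ∫ z : W (m + 1), ∫ τ : ℝ, w0 (ta z) * A τ z := by
        refine integral_congr_ae (Eventually.of_forall fun z => ?_)
        show ∫ c : ℝ, w0 (ta z) * A (ta z - c) z = ∫ τ : ℝ, w0 (ta z) * A τ z
        exact integral_sub_left_eq_self (fun τ => w0 (ta z) * A τ z) volume (ta z)
    _ = ∫ τ : ℝ, ∫ z, w0 (ta z) * A τ z := integral_integral_swap hΘ

theorem Tr_Sh (r c : ℝ) (z : W (m + 1)) : Tr r (Sh c z) = Sh c (Tr r z) := rfl

end IQL1

open IQL1 in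
/-- Item L1. -/
theorem pr_L1 (h1 : StFA) (h2 : StWt) (h3 : StDeu) (h4 : StZt) (h5 : StShf) (h7 : StSub)
    (h8 : StOp) : StL1 := by
  intro m G _ _ hG hV g gh φ M hg hgi hgb hgp hh hhi hhb hht hφ ψ ϑ w0 ψ1 θ1 hb T D hT hD χ hχ
  obtain ⟨hws, -, hwi, -, hwf, -, -, hwR, -⟩ :=
    h2 m G hG hV gh φ M hh hhi hhb hht hφ ψ ϑ w0 ψ1 θ1 hb T hT
  obtain ⟨-, hks, -, -, -, -, hkG⟩ := h3 m g gh hg hgb hh hhb hht hgp
  obtain ⟨hzc, -, -, -, hzSh, -, -, -, hzφ, -⟩ := h4 m G hG hV gh φ M hh hhi hhb hht hφ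
  have hHSh : ∀ c z, Hh gh (Sh c z) = Hh gh z := (h5 m gh gh hh hhb hh hhb).1
  have hkSh : ∀ c z, kq g gh (Sh c z) = kq g gh z := (h5 m g gh hg hgb hh hhb).2.2.2.2.2.2.2
  have hkc : Continuous (kq g gh) := hks.continuous
  have hta : Continuous (fun z : W (m + 1) => ta z) := IDRFub.continuous_ta
  have hHc : Continuous (Hh gh) := by
    have h9 : Continuous (Hm gh) := (h8 (m + 1) gh hh).2.2.2.2.2.2.2.1.continuous
    exact h9.sub ((hta.pow 2).div_const 2)
  have hFA := h1 (m + 1) G hG gh φ M hh hhi hφ χ hχ (wT gh ψ ϑ T) (kq g gh)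
    (3 / 8 + T ^ 2 / 2) D hws.continuous hkc hwi (hkG G hG hV hgi hhi).2 hwf
    (fun z hz => (hwR z hz).2) hD
  unfold VQ
  rw [hFA]
  refine intervalIntegral.integral_congr fun s _ => ?_
  show (D - |s|) * ∫ z : W (m + 1), χ z.1 * (wT gh ψ ϑ T z * (kq g gh (φ s z) * kq g gh z)) =
    (D - |s|) * ∫ τ : ℝ, ψ (τ / T) ^ 2 * cor χ gh w0 ϑ φ (kq g gh) s (τ * s)
  congr 1
  -- the function of the momentum and the point
  have hfub := fub h7 gh hh w0 (max T 1) hb.cw0.smooth.continuous (fun x hx => by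
      have h9 := hb.cw0.supp x hx
      exact (abs_le.mpr h9).trans (le_max_right _ _)) hb.cw0_int
    (fun τ z => ψ (τ / T) ^ 2 * (χ z.1 * (ϑ (Hh gh z) ^ 2 *
      (kq g gh (Tr (τ * s) (zt φ s z)) * kq g gh z)))) (tsupport χ) (3 / 8) hχ.cpt
    (by
      have c1 : Continuous fun p : ℝ × W (m + 1) => ψ (p.1 / T) :=
        hb.psi.smooth.continuous.comp (continuous_fst.div_const T)
      have c2 : Continuous fun p : ℝ × W (m + 1) => χ p.2.1 :=
        hχ.smooth.continuous.comp (continuous_fst.comp continuous_snd)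
      have c3 : Continuous fun p : ℝ × W (m + 1) => ϑ (Hh gh p.2) :=
        hb.th.smooth.continuous.comp (hHc.comp continuous_snd)
      have c4 : Continuous fun p : ℝ × W (m + 1) => zt φ s p.2 :=
        hzc.comp (continuous_const.prodMk continuous_snd)
      have c5 : Continuous fun p : ℝ × W (m + 1) => Tr (p.1 * s) (zt φ s p.2) := by
        unfold Tr
        exact ((continuous_fst.comp c4).add
          ((continuous_fst.mul continuous_const).smul continuous_const)).prodMk
            (continuous_snd.comp c4)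
      exact (c1.pow 2).mul (c2.mul ((c3.pow 2).mul ((hkc.comp c5).mul (hkc.comp continuous_snd)))))
    (fun τ c z => by
      simp only [hHSh, hzSh, Tr_Sh, hkSh]
      rfl)
    (fun τ z hne => by
      have n1 := left_ne_zero_of_mul hne
      have n2 := right_ne_zero_of_mul hne
      have n3 := left_ne_zero_of_mul n2
      have n4 := left_ne_zero_of_mul (right_ne_zero_of_mul n2)
      have n5 : ψ (τ / T) ≠ 0 := fun h => n1 (by rw [h]; norm_num)
      have n6 : ϑ (Hh gh z) ≠ 0 := fun h => n4 (by rw [h]; norm_num)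
      refine ⟨?_, subset_tsupport _ n3, (hb.th.supp _ n6).2⟩
      have h9 := abs_le.mpr (hb.psi.supp _ n5)
      rw [abs_div, abs_of_pos hT, div_le_one hT] at h9
      exact h9.trans (le_max_left _ _))
  calc ∫ z : W (m + 1), χ z.1 * (wT gh ψ ϑ T z * (kq g gh (φ s z) * kq g gh z))
      = ∫ z : W (m + 1), ψ (ta z / T) ^ 2 * (χ z.1 * (ϑ (Hh gh z) ^ 2 *
          (kq g gh (Tr (ta z * s) (zt φ s z)) * kq g gh z))) := by
        refine integral_congr_ae (Eventually.of_forall fun z => ?_)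
        show χ z.1 * (wT gh ψ ϑ T z * (kq g gh (φ s z) * kq g gh z)) =
          ψ (ta z / T) ^ 2 * (χ z.1 * (ϑ (Hh gh z) ^ 2 *
            (kq g gh (Tr (ta z * s) (zt φ s z)) * kq g gh z)))
        rw [hzφ s z]
        unfold wT
        ring
    _ = _ := hfub
    _ = ∫ τ : ℝ, ψ (τ / T) ^ 2 * cor χ gh w0 ϑ φ (kq g gh) s (τ * s) := by
        refine integral_congr_ae (Eventually.of_forall fun τ => ?_)
        show _ = ψ (τ / T) ^ 2 * cor χ gh w0 ϑ φ (kq g gh) s (τ * s)
        unfold cor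
        rw [← integral_const_mul]
        refine integral_congr_ae (Eventually.of_forall fun z => ?_)
        show w0 (ta z) * (ψ (τ / T) ^ 2 * (χ z.1 * (ϑ (Hh gh z) ^ 2 *
          (kq g gh (Tr (τ * s) (zt φ s z)) * kq g gh z)))) = ψ (τ / T) ^ 2 *
          (χ z.1 * (w0 (ta z) * ϑ (Hh gh z) ^ 2 *
            (kq g gh (Tr (τ * s) (zt φ s z)) * kq g gh z)))
        ring

end Pool.Agent.LQ
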