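import Pool.Agent.Work.MP_13b5d9_gt.LQ.StmtsQ

set_option autoImplicit false
set_option maxSynthPendingDepth 3

/-!
# MP_13b5d9_gt, block LQ, item L2: the correlation functions
-/

open MeasureTheory Set Filter Topology
open scoped ContDiff ENNReal
open Pool.Agent.Work.MP_c9f990_an.Al (IsFlow)

namespace Pool.Agent.LQ

open Pool.Agent.MLS Pool.Agent.EC Pool.Agent.DR

namespace IQL2

theorem cont_Tr {m : ℕ} (s : ℝ) : Continuous (Tr (m := m) s) := by
  unfold Tr
  fun_prop

theorem cont_Tr2 {m : ℕ} : Continuous (fun p : ℝ × W (m + 1) => Tr p.1 p.2) := by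
  unfold Tr
  fun_prop

theorem Tr_Tr {m : ℕ} (s t : ℝ) (z : W (m + 1)) : Tr s (Tr t z) = Tr (s + t) z := by
  unfold Tr
  refine Prod.ext ?_ rfl
  change z.1 + t • eL + s • eL = z.1 + (s + t) • eL
  rw [add_assoc, ← add_smul, add_comm t s]

theorem Tr_zero {m : ℕ} (z : W (m + 1)) : Tr 0 z = z := by
  unfold Tr
  refine Prod.ext ?_ rfl
  change z.1 + (0 : ℝ) • eL = z.1
  rw [zero_smul, add_zero]

theorem mp_Tr {m : ℕ} (s : ℝ) : MeasurePreserving (Tr (m := m) s) volume volume :=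
  (measurePreserving_add_right (volume : Measure (E (m + 1))) (s • eL)).prod
    (MeasurePreserving.id (volume : Measure (E (m + 1))))

theorem deriv_Tr {m : ℕ} (z : W (m + 1)) (s : ℝ) :
    HasDerivAt (fun s : ℝ => Tr s z) ((eL, 0) : W (m + 1)) s := by
  have h1 : HasDerivAt (fun s : ℝ => z.1 + s • (eL : E (m + 1))) eL s := by
    have := ((hasDerivAt_id s).smul_const (eL : E (m + 1))).const_add z.1
    simpa using this
  exact h1.prodMk (hasDerivAt_const s z.2)

theorem deriv_F {m : ℕ} {F : W (m + 1) → ℝ} (hF : ContDiff ℝ 1 F) (z : W (m + 1)) (s : ℝ) :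
    HasDerivAt (fun s : ℝ => F (Tr s z)) (De F (Tr s z)) s := by
  have h1 : HasFDerivAt F (fderiv ℝ F (Tr s z)) (Tr s z) :=
    (hF.differentiable (by norm_num) _).hasFDerivAt
  exact h1.comp_hasDerivAt s (deriv_Tr z s)

theorem cont_De {m : ℕ} {F : W (m + 1) → ℝ} (hF : ContDiff ℝ 1 F) : Continuous (De F) :=
  (hF.continuous_fderiv (by norm_num)).clm_apply continuous_const

theorem ta_C1 {m : ℕ} : ContDiff ℝ 1 (ta (m := m)) :=
  ((EuclideanSpace.proj (𝕜 := ℝ) (Fin.last m)).comp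
    (ContinuousLinearMap.snd ℝ (E (m + 1)) (E (m + 1)))).contDiff

theorem zt_C1 {m : ℕ} {X : W (m + 1) → W (m + 1)} {φ : ℝ → W (m + 1) → W (m + 1)}
    {M : ℝ → W (m + 1) → W (m + 1) →L[ℝ] W (m + 1)} (hφ : IsFlow X φ M) (s : ℝ) :
    ContDiff ℝ 1 (zt φ s) := by
  have h1 : ContDiff ℝ 1 (φ s) := by
    rw [contDiff_one_iff_hasFDerivAt]
    exact ⟨M s, hφ.Mcont.comp (continuous_const.prodMk continuous_id), hφ.diff s⟩
  have h3 : zt φ s = fun z => ((φ s z).1 + (-(ta z * s)) • (eL : E (m + 1)), (φ s z).2) := rfl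
  rw [h3]
  exact ((contDiff_fst.comp h1).add (((ta_C1.mul contDiff_const).neg).smul contDiff_const)).prodMk
    (contDiff_snd.comp h1)

/-- correlations of two functions -/
noncomputable def co {m : ℕ} (χ : E (m + 1) → ℝ) (w : W (m + 1) → ℝ)
    (φ : ℝ → W (m + 1) → W (m + 1)) (a b : W (m + 1) → ℝ) (s r : ℝ) : ℝ :=
  ∫ z, χ z.1 * (w z * (a (Tr r (zt φ s z)) * b z))

theorem co_set {m : ℕ} {χ : E (m + 1) → ℝ} {w : W (m + 1) → ℝ}
    {φ : ℝ → W (m + 1) → W (m + 1)} {K : Set (W (m + 1))}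
    (hs : ∀ z, z ∉ K → χ z.1 * w z = 0) (a b : W (m + 1) → ℝ) (s r : ℝ) :
    co χ w φ a b s r = ∫ z in K, χ z.1 * (w z * (a (Tr r (zt φ s z)) * b z)) := by
  unfold co
  rw [setIntegral_eq_integral_of_forall_compl_eq_zero]
  intro z hz
  rw [← mul_assoc, hs z hz, zero_mul]

/-- the integrand is continuous -/
theorem co_int {m : ℕ} {χ : E (m + 1) → ℝ} {w : W (m + 1) → ℝ}
    {φ : ℝ → W (m + 1) → W (m + 1)} (hχ : Continuous χ) (hw : Continuous w)
    (hz : Continuous (fun p : ℝ × W (m + 1) => zt φ p.1 p.2)) {a b : W (m + 1) → ℝ}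
    (ha : Continuous a) (hb : Continuous b) :
    Continuous (fun p : (ℝ × ℝ) × W (m + 1) =>
      χ p.2.1 * (w p.2 * (a (Tr p.1.2 (zt φ p.1.1 p.2)) * b p.2))) := by
  have h1 : Continuous (fun p : (ℝ × ℝ) × W (m + 1) => zt φ p.1.1 p.2) :=
    hz.comp ((continuous_fst.comp continuous_fst).prodMk continuous_snd)
  have h2 : Continuous (fun p : (ℝ × ℝ) × W (m + 1) => Tr p.1.2 (zt φ p.1.1 p.2)) :=
    cont_Tr2.comp ((continuous_snd.comp continuous_fst).prodMk h1)
  exact (hχ.comp (continuous_fst.comp continuous_snd)).mul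
    ((hw.comp continuous_snd).mul ((ha.comp h2).mul (hb.comp continuous_snd)))

theorem co_cont {m : ℕ} {χ : E (m + 1) → ℝ} {w : W (m + 1) → ℝ}
    {φ : ℝ → W (m + 1) → W (m + 1)} {K : Set (W (m + 1))} (hK : IsCompact K) (hχ : Continuous χ)
    (hw : Continuous w) (hz : Continuous (fun p : ℝ × W (m + 1) => zt φ p.1 p.2))
    (hs : ∀ z, z ∉ K → χ z.1 * w z = 0) {a b : W (m + 1) → ℝ}
    (ha : Continuous a) (hb : Continuous b) :
    Continuous (fun p : ℝ × ℝ => co χ w φ a b p.1 p.2) := by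
  have e : (fun p : ℝ × ℝ => co χ w φ a b p.1 p.2) =
      fun p => ∫ z in K, χ z.1 * (w z * (a (Tr p.2 (zt φ p.1 z)) * b z)) := by
    funext p
    exact co_set hs a b p.1 p.2
  rw [e]
  exact continuous_parametric_integral_of_continuous
    (f := fun (p : ℝ × ℝ) (z : W (m + 1)) => χ z.1 * (w z * (a (Tr p.2 (zt φ p.1 z)) * b z)))
    (co_int hχ hw hz ha hb) hK

theorem co_deriv {m : ℕ} {χ : E (m + 1) → ℝ} {w : W (m + 1) → ℝ}
    {φ : ℝ → W (m + 1) → W (m + 1)} {K : Set (W (m + 1))} (hK : IsCompact K) (hχ : Continuous χ)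
    (hw : Continuous w) (hz : Continuous (fun p : ℝ × W (m + 1) => zt φ p.1 p.2))
    (hs : ∀ z, z ∉ K → χ z.1 * w z = 0) {a b : W (m + 1) → ℝ}
    (ha : ContDiff ℝ 1 a) (hb : Continuous b) (s r : ℝ) :
    HasDerivAt (co χ w φ a b s) (co χ w φ (De a) b s r) r := by
  have e : co χ w φ a b s =
      fun r => ∫ z in K, χ z.1 * (w z * (a (Tr r (zt φ s z)) * b z)) := by
    funext r
    exact co_set hs a b s r
  rw [e, co_set hs]
  have h1 := co_int hχ hw hz ha.continuous hb
  have h2 := co_int hχ hw hz (cont_De ha) hb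
  have h3 : ∀ r : ℝ, Continuous (fun z : W (m + 1) =>
      χ z.1 * (w z * (a (Tr r (zt φ s z)) * b z))) := fun r =>
    h1.comp (Continuous.prodMk (f := fun _ : W (m + 1) => ((s, r) : ℝ × ℝ)) continuous_const
      continuous_id)
  have h4 : ∀ r : ℝ, Continuous (fun z : W (m + 1) =>
      χ z.1 * (w z * (De a (Tr r (zt φ s z)) * b z))) := fun r =>
    h2.comp (Continuous.prodMk (f := fun _ : W (m + 1) => ((s, r) : ℝ × ℝ)) continuous_const
      continuous_id)
  obtain ⟨C, hC⟩ := ((isCompact_Icc (a := ((s, r - 1) : ℝ × ℝ)) (b := (s, r + 1))).prod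
    hK).exists_bound_of_continuousOn h2.continuousOn
  have key := hasDerivAt_integral_of_dominated_loc_of_deriv_le
    (μ := (volume : Measure (W (m + 1))).restrict K)
    (F := fun (r : ℝ) (z : W (m + 1)) => χ z.1 * (w z * (a (Tr r (zt φ s z)) * b z)))
    (F' := fun (r : ℝ) (z : W (m + 1)) => χ z.1 * (w z * (De a (Tr r (zt φ s z)) * b z)))
    (x₀ := r) (s := Ioo (r - 1) (r + 1)) (bound := fun _ => C)
    (Ioo_mem_nhds (by linarith) (by linarith))
    (Eventually.of_forall fun r => (h3 r).aestronglyMeasurable)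
    ((h3 r).continuousOn.integrableOn_compact hK)
    ((h4 r).aestronglyMeasurable)
    ((ae_restrict_iff' hK.measurableSet).2 (Eventually.of_forall fun z hzK t ht =>
      hC ((s, t), z) ⟨⟨⟨le_rfl, ht.1.le⟩, ⟨le_rfl, ht.2.le⟩⟩, hzK⟩))
    (integrableOn_const (hK.measure_lt_top.ne))
    (Eventually.of_forall fun z t _ =>
      (((deriv_F ha (zt φ s z) t).mul_const (b z)).const_mul (w z)).const_mul (χ z.1))
  exact key.2

theorem co_integrable {m : ℕ} {χ : E (m + 1) → ℝ} {w : W (m + 1) → ℝ} {K : Set (W (m + 1))}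
    (hK : IsCompact K) (hχ : Continuous χ) (hw : Continuous w)
    (hs : ∀ z, z ∉ K → χ z.1 * w z = 0) {a : W (m + 1) → ℝ} (ha : Continuous a) :
    Integrable (fun z => χ z.1 * (w z * a z)) := by
  refine Continuous.integrable_of_hasCompactSupport
    ((hχ.comp continuous_fst).mul (hw.mul ha)) ?_
  refine HasCompactSupport.intro hK fun z hz => ?_
  change χ z.1 * (w z * a z) = 0
  rw [← mul_assoc, hs z hz, zero_mul]

/-- integration by parts -/
theorem co_ibp (h3 : StIbp) (h1 : StZt) (h7 : StPrd) {m : ℕ} {G : Type} [Group G]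
    [MulAction G (E (m + 1))] (hG : Cocompact (m + 1) G) (hV : Vert (m + 1) G eL)
    {gh : Form (m + 1)} {φ : ℝ → W (m + 1) → W (m + 1)}
    {M : ℝ → W (m + 1) → W (m + 1) →L[ℝ] W (m + 1)} (hg : Riem gh) (hI : Inv G gh)
    (hB : Blk gh) (hT : TInv gh eL) (hφ : IsFlow (XH (Hm gh)) φ M)
    (hlT : ∀ (a : G) (s : ℝ) (z : W (m + 1)), lft gh a (Tr s z) = Tr s (lft gh a z))
    {χ : E (m + 1) → ℝ} (hχ : PU G χ) {w : W (m + 1) → ℝ} {K : Set (W (m + 1))}
    (hK : IsCompact K) (hw : ContDiff ℝ 1 w) (hwi : GInv G gh w)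
    (hwT : ∀ h z, w (Tr h z) = w z) (hwH : ∀ z, w z ≠ 0 → Hm gh z ≤ 1)
    (hs : ∀ z, z ∉ K → χ z.1 * w z = 0) {a b : W (m + 1) → ℝ} (ha : ContDiff ℝ 1 a)
    (hb : ContDiff ℝ 1 b) (hai : GInv G gh a) (hbi : GInv G gh b) (s r : ℝ) :
    co χ w φ (De a) b s r = -co χ w φ a (De b) s r := by
  obtain ⟨z1, -, -, z4, -, -, -, -, -, z10⟩ := h1 m G hG hV gh φ M hg hI hB hT hφ
  obtain ⟨p1, p2, -⟩ := h7 m gh φ M hg hB hT hφ
  have hχc : Continuous χ := hχ.smooth.continuous
  have hζ : ContDiff ℝ 1 (zt φ s) := zt_C1 hφ s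
  have hTr : ContDiff ℝ 1 (Tr (m := m) r) := by
    unfold Tr
    fun_prop
  have hζT : ∀ h z, zt φ s (Tr h z) = Tr h (zt φ s z) := by
    intro h z
    unfold zt
    rw [p1 h s z, Tr_Tr, Tr_Tr, add_comm (-(ta (Tr h z) * s)) h]
    rfl
  set F : W (m + 1) → ℝ := fun z => w z * (a (Tr r (zt φ s z)) * b z) with hF
  have hF1 : ContDiff ℝ 1 F := hw.mul ((ha.comp (hTr.comp hζ)).mul hb)
  have hFi : GInv G gh F := by
    intro c z
    simp only [hF]
    rw [hwi c z, hbi c z, z10, ← hlT, hai]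
  have hder : ∀ z, De F z = w z * (De a (Tr r (zt φ s z)) * b z) +
      w z * (a (Tr r (zt φ s z)) * De b z) := by
    intro z
    have d1 := deriv_F hF1 z 0
    rw [Tr_zero] at d1
    have d2 := deriv_F ha (Tr r (zt φ s z)) 0
    have d3 := deriv_F hb z 0
    have d4 := (d2.mul d3).const_mul (w z)
    rw [Tr_zero, Tr_zero] at d4
    have e1 : (fun h : ℝ => F (Tr h z)) =
        fun h => w z * (a (Tr h (Tr r (zt φ s z))) * b (Tr h z)) := by
      funext h
      simp only [hF]
      rw [hwT, hζT, Tr_Tr, Tr_Tr, add_comm r h]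
    rw [e1] at d1
    have := d1.unique d4
    rw [this]
    ring
  have key := h3 m G hG hV gh hg hI hB χ hχ F 1 hF1 hFi (fun z hz => hwH z (left_ne_zero_of_mul hz))
  have hζc : Continuous (zt φ s) := hζ.continuous
  have c1 : Continuous (fun z => De a (Tr r (zt φ s z)) * b z) :=
    ((cont_De ha).comp ((cont_Tr r).comp hζc)).mul hb.continuous
  have c2 : Continuous (fun z => a (Tr r (zt φ s z)) * De b z) :=
    (ha.continuous.comp ((cont_Tr r).comp hζc)).mul (cont_De hb)
  have i1 := co_integrable hK hχc hw.continuous hs c1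
  have i2 := co_integrable hK hχc hw.continuous hs c2
  have e2 : ∫ z, χ z.1 * De F z = co χ w φ (De a) b s r + co χ w φ a (De b) s r := by
    unfold co
    rw [← integral_add i1 i2]
    refine integral_congr_ae (Eventually.of_forall fun z => ?_)
    change χ z.1 * De F z = _
    rw [hder z, mul_add]
  rw [e2] at key
  linarith

/-- Fubini -/
theorem co_fub {m : ℕ} {f : ℝ → W (m + 1) → ℝ} (hf : Continuous (Function.uncurry f))
    {K : Set (W (m + 1))} (hK : IsCompact K) (hs : ∀ r z, z ∉ K → f r z = 0) (a b : ℝ)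
    (hab : a ≤ b) : ∫ r in a..b, ∫ z, f r z = ∫ z, ∫ r in a..b, f r z := by
  have h1 : ∀ r, ∫ z, f r z = ∫ z in K, f r z := by
    intro r
    rw [setIntegral_eq_integral_of_forall_compl_eq_zero]
    exact fun z hz => hs r z hz
  have h2 : ∫ z, ∫ r in a..b, f r z = ∫ z in K, ∫ r in a..b, f r z := by
    rw [setIntegral_eq_integral_of_forall_compl_eq_zero]
    intro z hz
    have : (fun r => f r z) = fun _ => 0 := funext fun r => hs r z hz
    rw [this, intervalIntegral.integral_zero]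
  rw [h2]
  simp only [h1]
  simp only [intervalIntegral.integral_of_le hab]
  refine integral_integral_swap ?_
  rw [Measure.prod_restrict]
  have h3 : IntegrableOn (Function.uncurry f) (Icc a b ×ˢ K) ((volume : Measure ℝ).prod volume) :=
    hf.continuousOn.integrableOn_compact (isCompact_Icc.prod hK)
  exact h3.mono_set (prod_mono_left Ioc_subset_Icc_self)

end IQL2

open IQL2 in
theorem pr_L2 (h1 : StDeu) (h2 : StZt) (h3 : StIbp) (h4 : StXt) (h5 : StUA) (h6 : StLft)
    (h7 : StPrd) (h9 : StSub) (h12 : StLftA) : StL2 := by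
  intro m G _ _ hG hV g gh φ M hg hgI hgB hgP hh hhI hhB hhT hφ ψ ϑ w0 ψ1 θ1 hb χ hχ
  obtain ⟨u1, k1, uk, uT, -, umean, uinv⟩ := h1 m g gh hg hgB hh hhB hhT hgP
  obtain ⟨ui, ki⟩ := uinv G hG hV hgI hhI
  obtain ⟨z1, z2, -, -, -, -, -, -, -, -⟩ := h2 m G hG hV gh φ M hh hhI hhB hhT hφ
  obtain ⟨t1, t2, -, -, -, -, -, t8, t9, -⟩ := h4 m gh hh hhB
  obtain ⟨-, hlT, -, -, hlta⟩ := h6 m G hG hV gh gh hh hh hhI hhI hhB
  obtain ⟨-, hHi, -, -, -⟩ := h12 (m + 1) G hG gh hh hhI
  obtain ⟨-, -, -, -, -, p6, -⟩ := h7 m gh φ M hh hhB hhT hφ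
  set u := uq g gh with hu
  set k := kq g gh with hk
  set w : W (m + 1) → ℝ := fun z => w0 (ta z) * ϑ (Hh gh z) ^ 2 with hwd
  have hχc : Continuous χ := hχ.smooth.continuous
  have hw1 : ContDiff ℝ ∞ w := (hb.cw0.smooth.comp t1).mul ((hb.th.smooth.comp t2).pow 2)
  have hw : ContDiff ℝ 1 w := hw1.of_le (by exact_mod_cast le_top)
  have hHhi : ∀ (a : G) z, Hh gh (lft gh a z) = Hh gh z := by
    intro a z
    unfold Hh
    rw [hHi, hlta]
  have hHhT : ∀ h z, Hh gh (Tr h z) = Hh gh z := by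
    intro h z
    unfold Hh
    rw [p6]
    rfl
  have hwi : GInv G gh w := by
    intro a z
    simp only [hwd]
    rw [hlta, hHhi]
  have hwT : ∀ h z, w (Tr h z) = w z := by
    intro h z
    simp only [hwd]
    rw [hHhT]
    rfl
  have hwH : ∀ z, w z ≠ 0 → Hm gh z ≤ 1 := by
    intro z hz
    simp only [hwd] at hz
    have a1 := hb.cw0.supp _ (left_ne_zero_of_mul hz)
    have a2 := hb.th.supp (Hh gh z) (fun h0 => (right_ne_zero_of_mul hz) (by rw [h0]; ring))
    have a3 : ta z ^ 2 ≤ 1 := by nlinarith [a1.1, a1.2]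
    rw [t9 z]
    linarith [a2.2]
  have hw0 : ∀ z, 0 ≤ w z := fun z => mul_nonneg (hb.cw0.nonneg _) (sq_nonneg _)
  set K : Set (W (m + 1)) := {z | z.1 ∈ tsupport χ ∧ Hm gh z ≤ 1} with hKd
  have hK : IsCompact K := h9 (m + 1) gh hh (tsupport χ) 1 hχ.cpt
  have hs : ∀ z, z ∉ K → χ z.1 * w z = 0 := by
    intro z hz
    by_contra hne
    exact hz ⟨subset_tsupport _ (left_ne_zero_of_mul hne), hwH z (right_ne_zero_of_mul hne)⟩
  have hcor : ∀ f : W (m + 1) → ℝ, cor χ gh w0 ϑ φ f = co χ w φ f f := fun f => rfl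
  have u1' : ContDiff ℝ 1 u := u1.of_le (by exact_mod_cast le_top)
  have k1' : ContDiff ℝ 1 k := k1.of_le (by exact_mod_cast le_top)
  have huk : De u = k := funext uk
  have hco0 : ∀ r, co χ w φ u u 0 r = ∫ z, χ z.1 * (w z * (u (Tr r z) * u z)) := by
    intro r
    unfold co
    simp only [z2]
  -- invariance under vertical translations
  have hUA : ∀ (r : ℝ) (b : W (m + 1) → ℝ), Continuous b → GInv G gh b →
      ∫ z, χ z.1 * (w z * b (Tr r z)) = ∫ z, χ z.1 * (w z * b z) := by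
    intro r b hbc hbi
    have key := h5 (m + 1) G hG gh hh hhI χ hχ (Tr r) (Tr (-r)) (cont_Tr _) (cont_Tr _)
      (fun z => by rw [Tr_Tr, add_neg_cancel, Tr_zero])
      (fun z => by rw [Tr_Tr, neg_add_cancel, Tr_zero]) (mp_Tr r)
      (fun a z => (hlT a r z).symm) (fun z => w z * b z) 1 (hw.continuous.mul hbc)
      (fun a z => by
        change w (lft gh a z) * b (lft gh a z) = w z * b z
        rw [hwi a z, hbi a z])
      (fun z hz => hwH z (left_ne_zero_of_mul hz))
      (fun z hz => by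
        have := left_ne_zero_of_mul hz
        rw [hwT] at this
        exact hwH z this)
    simp only [hwT] at key
    exact key
  have hTi : ∀ (r : ℝ), GInv G gh (fun z => u (Tr r z)) := by
    intro r a z
    change u (Tr r (lft gh a z)) = u (Tr r z)
    rw [← hlT, ui]
  refine ⟨⟨fun s r => co χ w φ k u s r, fun s r => ?_, fun s r => ?_, ?_⟩, ?_, ?_, ?_, ?_, ?_⟩
  · rw [hcor]
    have := co_deriv hK hχc hw.continuous z1 hs u1' u1'.continuous s r
    rw [huk] at this
    exact this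
  · rw [hcor]
    have a1 := co_deriv hK hχc hw.continuous z1 hs k1' u1'.continuous s r
    have a2 := co_ibp h3 h2 h7 hG hV hh hhI hhB hhT hφ hlT hχ hK hw hwi hwT hwH hs k1' u1' ki ui
      s r
    rw [a2, huk] at a1
    exact a1
  · exact co_cont hK hχc hw.continuous z1 hs k1'.continuous u1'.continuous
  · rw [hcor]
    exact co_cont hK hχc hw.continuous z1 hs k1'.continuous k1'.continuous
  · rw [hcor]
    exact co_cont hK hχc hw.continuous z1 hs u1'.continuous u1'.continuous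
  · intro r
    rw [hcor, hco0, hco0]
    have := hUA r (fun z => u (Tr (-r) z) * u z)
      ((u1'.continuous.comp (cont_Tr _)).mul u1'.continuous)
      (fun a z => by
        change u (Tr (-r) (lft gh a z)) * u (lft gh a z) = u (Tr (-r) z) * u z
        rw [← hlT, ui, ui])
    rw [← this]
    refine integral_congr_ae (Eventually.of_forall fun z => ?_)
    change χ z.1 * (w z * (u (Tr (-r) (Tr r z)) * u (Tr r z))) =
      χ z.1 * (w z * (u (Tr r z) * u z))
    rw [Tr_Tr, neg_add_cancel, Tr_zero]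
    ring
  · intro r
    rw [hcor, hco0, hco0]
    have c1 : Continuous (fun z => u (Tr r z) ^ 2) := (u1'.continuous.comp (cont_Tr _)).pow 2
    have c2 : Continuous (fun z => u z ^ 2) := u1'.continuous.pow 2
    have i1 := co_integrable hK hχc hw.continuous hs c1
    have i2 := co_integrable hK hχc hw.continuous hs c2
    have b1 := hUA r (fun z => u z ^ 2) c2 (fun a z => by
      change u (lft gh a z) ^ 2 = u z ^ 2
      rw [ui])
    have b2 : ∫ z, χ z.1 * (w z * (u (Tr 0 z) * u z)) = ∫ z, χ z.1 * (w z * u z ^ 2) := by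
      refine integral_congr_ae (Eventually.of_forall fun z => ?_)
      change χ z.1 * (w z * (u (Tr 0 z) * u z)) = χ z.1 * (w z * u z ^ 2)
      rw [Tr_zero, sq]
    rw [b2]
    have b3 : |∫ z, χ z.1 * (w z * (u (Tr r z) * u z))| ≤
        ∫ z, (1 / 2 * (χ z.1 * (w z * u (Tr r z) ^ 2)) + 1 / 2 * (χ z.1 * (w z * u z ^ 2))) := by
      rw [← Real.norm_eq_abs]
      refine norm_integral_le_of_norm_le ((i1.const_mul _).add (i2.const_mul _))
        (Eventually.of_forall fun z => ?_)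
      rw [Real.norm_eq_abs]
      have n1 : 0 ≤ χ z.1 * w z := mul_nonneg (hχ.nonneg _) (hw0 z)
      have n2 : |χ z.1 * (w z * (u (Tr r z) * u z))| = χ z.1 * w z * |u (Tr r z) * u z| := by
        rw [← mul_assoc, abs_mul, abs_of_nonneg n1]
      have n3 : |u (Tr r z) * u z| ≤ 1 / 2 * u (Tr r z) ^ 2 + 1 / 2 * u z ^ 2 := by
        rw [abs_le]
        constructor <;> nlinarith [sq_nonneg (u (Tr r z) + u z), sq_nonneg (u (Tr r z) - u z)]
      rw [n2]
      calc χ z.1 * w z * |u (Tr r z) * u z|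
          ≤ χ z.1 * w z * (1 / 2 * u (Tr r z) ^ 2 + 1 / 2 * u z ^ 2) :=
            mul_le_mul_of_nonneg_left n3 n1
        _ = 1 / 2 * (χ z.1 * (w z * u (Tr r z) ^ 2)) + 1 / 2 * (χ z.1 * (w z * u z ^ 2)) := by
            ring
    rw [integral_add (i1.const_mul _) (i2.const_mul _), integral_const_mul, integral_const_mul,
      b1] at b3
    linarith
  · rw [hcor]
    simp only [hco0]
    rw [co_fub (f := fun r z => χ z.1 * (w z * (u (Tr r z) * u z))) ?_ hK ?_ (-1) 1 (by norm_num)]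
    · have hz : ∀ z, ∫ r in (-1 : ℝ)..1, u (Tr r z) = 0 := by
        intro z
        have hc : Continuous (fun r : ℝ => u (Tr r z)) :=
          u1'.continuous.comp (cont_Tr2.comp (continuous_id.prodMk continuous_const))
        rw [← intervalIntegral.integral_add_adjacent_intervals (hc.intervalIntegrable (-1) 0)
          (hc.intervalIntegrable 0 1), umean z, add_zero]
        have e1 : ∫ r in (0 : ℝ)..1, (fun r : ℝ => u (Tr r z)) (r - 1) =
            ∫ r in (0 - 1 : ℝ)..(1 - 1), (fun r : ℝ => u (Tr r z)) r :=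
          intervalIntegral.integral_comp_sub_right (fun r : ℝ => u (Tr r z)) 1
        rw [zero_sub, sub_self] at e1
        refine (e1.symm.trans ?_).trans (umean (Tr (-1) z))
        apply intervalIntegral.integral_congr
        intro r _
        change u (Tr (r - 1) z) = u (Tr r (Tr (-1) z))
        rw [Tr_Tr]
        rfl
      have e2 : ∀ z, ∫ r in (-1 : ℝ)..1, χ z.1 * (w z * (u (Tr r z) * u z)) = 0 := by
        intro z
        have e3 : (fun r : ℝ => χ z.1 * (w z * (u (Tr r z) * u z))) =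
            fun r => (χ z.1 * w z * u z) * u (Tr r z) := by
          funext r
          ring
        rw [e3, intervalIntegral.integral_const_mul, hz z, mul_zero]
      simp only [e2, integral_zero]
    · have c1 : Continuous (fun p : ℝ × W (m + 1) => u (Tr p.1 p.2)) :=
        u1'.continuous.comp cont_Tr2
      exact (hχc.comp (continuous_fst.comp continuous_snd)).mul
        ((hw.continuous.comp continuous_snd).mul (c1.mul (u1'.continuous.comp continuous_snd)))
    · intro r z hz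
      change χ z.1 * (w z * (u (Tr r z) * u z)) = 0
      rw [← mul_assoc, hs z hz, zero_mul]

end Pool.Agent.LQ
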