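import Pool.Agent.Work.MP_13b5d9_gt.LQ.StmtsQ

set_option autoImplicit false
set_option maxSynthPendingDepth 3

/-!
# MP_13b5d9_gt, block LQ, item L3: the correlation functions for small times
-/

open MeasureTheory Set Filter Topology
open scoped ContDiff ENNReal
open Pool.Agent.Work.MP_c9f990_an.Al (IsFlow)

namespace Pool.Agent.LQ

open Pool.Agent.MLS Pool.Agent.EC Pool.Agent.DR

namespace IQL3

variable {m : ℕ}

theorem Tr_Tr (a b : ℝ) (z : W (m + 1)) : Tr a (Tr b z) = Tr (a + b) z := by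
  show (z.1 + b • eL + a • eL, z.2) = (z.1 + (a + b) • eL, z.2)
  rw [add_smul, add_assoc, add_comm (b • eL)]

theorem ta_Tr (a : ℝ) (z : W (m + 1)) : ta (Tr a z) = ta z := rfl

theorem Tr_eq (a : ℝ) (z : W (m + 1)) : Tr a z = z + (a • eL, 0) := by
  show (z.1 + a • eL, z.2) = (z.1 + a • eL, z.2 + 0)
  rw [add_zero]

theorem XH_Tr (h7 : StPrd) {gh : Form (m + 1)} {φ : ℝ → W (m + 1) → W (m + 1)}
    {M : ℝ → W (m + 1) → W (m + 1) →L[ℝ] W (m + 1)} (hR : Riem gh) (hB : Blk gh)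
    (hT : TInv gh eL) (hf : IsFlow (XH (Hm gh)) φ M) (h : ℝ) (z : W (m + 1)) :
    XH (Hm gh) (Tr h z) = XH (Hm gh) z := by
  have h1 := hf.ode (Tr h z) 0
  rw [hf.zero] at h1
  have h2 : (fun s => φ s (Tr h z)) = fun s => φ s z + (h • eL, 0) := by
    funext s
    rw [(h7 m gh φ M hR hB hT hf).1, Tr_eq]
  rw [h2] at h1
  have h3 := (hf.ode z 0).add_const ((h • eL, 0) : W (m + 1))
  rw [hf.zero] at h3
  exact h1.unique h3

theorem cont_ta : Continuous (ta (m := m)) :=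
  (EuclideanSpace.proj (𝕜 := ℝ) (Fin.last m)).continuous.comp continuous_snd

theorem cont_Tr {X : Type} [TopologicalSpace X] {a : X → ℝ} {b : X → W (m + 1)}
    (ha : Continuous a) (hb : Continuous b) : Continuous (fun x => Tr (a x) (b x)) := by
  have : (fun x => Tr (a x) (b x)) = fun x => b x + (a x • (eL : E (m + 1)), 0) := by
    funext x
    exact Tr_eq _ _
  rw [this]
  exact hb.add ((ha.smul continuous_const).prodMk continuous_const)

theorem cont_zt {φ : ℝ → W (m + 1) → W (m + 1)} {F : W (m + 1) → W (m + 1)}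
    {M : ℝ → W (m + 1) → W (m + 1) →L[ℝ] W (m + 1)} (hf : IsFlow F φ M) (s : ℝ) :
    Continuous (zt φ s) := by
  unfold zt
  exact cont_Tr ((cont_ta.mul continuous_const).neg)
    (hf.cont.comp (continuous_const.prodMk continuous_id))

/-- the difference at one point -/
theorem ptw (h7 : StPrd) {gh : Form (m + 1)} {φ : ℝ → W (m + 1) → W (m + 1)}
    {M : ℝ → W (m + 1) → W (m + 1) →L[ℝ] W (m + 1)} (hR : Riem gh) (hB : Blk gh)
    (hT : TInv gh eL) (hf : IsFlow (XH (Hm gh)) φ M) (f : W (m + 1) → ℝ) (hfd : Differentiable ℝ f)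
    (D A : ℝ) (z : W (m + 1)) (r : ℝ) (hb : ∀ s, |s| ≤ D →
      |XX gh f (Tr r (zt φ s z)) - ta (Tr r (zt φ s z)) * De f (Tr r (zt φ s z))| ≤ A)
    (s : ℝ) (hs : |s| ≤ D) :
    |f (Tr r (zt φ s z)) - f (Tr r (zt φ 0 z))| ≤ A * |s| := by
  have hP := h7 m gh φ M hR hB hT hf
  have hD : 0 ≤ D := (abs_nonneg s).trans hs
  have hp : ∀ σ, Tr r (zt φ σ z) = φ σ z + ((r - ta z * σ) • (eL : E (m + 1)), 0) := by
    intro σ
    unfold zt
    rw [Tr_Tr, Tr_eq]
    ring_nf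
  have hta : ∀ σ, ta (Tr r (zt φ σ z)) = ta z := by
    intro σ
    show ta (φ σ z) = ta z
    exact hP.2.1 σ z
  have hder : ∀ σ, HasDerivAt (fun σ => f (Tr r (zt φ σ z)))
      (XX gh f (Tr r (zt φ σ z)) - ta (Tr r (zt φ σ z)) * De f (Tr r (zt φ σ z))) σ := by
    intro σ
    have h1 : HasDerivAt (fun σ => Tr r (zt φ σ z))
        (XH (Hm gh) (φ σ z) + ((-ta z) • (eL : E (m + 1)), 0)) σ := by
      have h2 : HasDerivAt (fun σ : ℝ => ((r - ta z * σ) • (eL : E (m + 1)), (0 : E (m + 1))))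
          ((-ta z) • (eL : E (m + 1)), (0 : E (m + 1))) σ := by
        refine HasDerivAt.prodMk ?_ (hasDerivAt_const _ _)
        refine HasDerivAt.smul_const ?_ _
        have h3 := ((hasDerivAt_id σ).const_mul (ta z)).const_sub r
        simpa using h3
      have h4 := (hf.ode z σ).add h2
      refine h4.congr_of_eventuallyEq (Eventually.of_forall fun σ' => ?_)
      exact hp σ'
    have h5 := (hfd (Tr r (zt φ σ z))).hasFDerivAt.comp_hasDerivAt σ h1
    have h6 : XH (Hm gh) (φ σ z) = XH (Hm gh) (Tr r (zt φ σ z)) := by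
      unfold zt
      rw [XH_Tr h7 hR hB hT hf, XH_Tr h7 hR hB hT hf]
    have h8 : fderiv ℝ f (Tr r (zt φ σ z)) (XH (Hm gh) (φ σ z) + ((-ta z) • (eL : E (m + 1)), 0)) =
        XX gh f (Tr r (zt φ σ z)) - ta (Tr r (zt φ σ z)) * De f (Tr r (zt φ σ z)) := by
      rw [hta, map_add, h6]
      have h9 : (((-ta z) • (eL : E (m + 1)), 0) : W (m + 1)) = (-ta z) • ((eL, 0) : W (m + 1)) := by
        show _ = ((-ta z) • (eL : E (m + 1)), (-ta z) • (0 : E (m + 1)))
        rw [smul_zero]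
      rw [h9, map_smul, smul_eq_mul]
      unfold XX De
      ring
    rw [h8] at h5
    exact h5
  have hmv := Convex.norm_image_sub_le_of_norm_hasDerivWithin_le (𝕜 := ℝ) (s := Icc (-D) D)
    (f := fun σ => f (Tr r (zt φ σ z)))
    (f' := fun σ => XX gh f (Tr r (zt φ σ z)) - ta (Tr r (zt φ σ z)) * De f (Tr r (zt φ σ z)))
    (C := A) (x := 0) (y := s) (fun σ _ => (hder σ).hasDerivWithinAt)
    (fun σ hσ => hb σ (abs_le.2 ⟨hσ.1, hσ.2⟩)) (convex_Icc _ _)
    ⟨by linarith, hD⟩ ⟨(abs_le.1 hs).1, (abs_le.1 hs).2⟩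
  rw [sub_zero, Real.norm_eq_abs, Real.norm_eq_abs] at hmv
  exact hmv

/-- integrability of functions which live over a compact set and in a bounded energy region -/
theorem integ (hSub : StSub) {gh : Form (m + 1)} (hR : Riem gh) {K : Set (E (m + 1))}
    (hK : IsCompact K) (c : ℝ) (F : W (m + 1) → ℝ) (hF : Continuous F)
    (h0 : ∀ z, F z ≠ 0 → z.1 ∈ K ∧ Hm gh z ≤ c) : Integrable F := by
  refine hF.integrable_of_hasCompactSupport ?_
  refine HasCompactSupport.intro (hSub (m + 1) gh hR K c hK) fun z hz => ?_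
  by_contra h
  exact hz (h0 z h)

end IQL3

open IQL3 in
theorem pr_L3 (h1 : StFlB) (h2 : StPb) (h4 : StDeu) (h5 : StInt) (h7 : StPrd) (h9 : StOp)
    (h10 : StSub) : StL3 := by
  intro m g gh g0 φ M φ0 M0 hA K D hK hD ψ ϑ w0 ψ1 θ1 hBm
  obtain ⟨K', C0, hK', hKK', hC0, hFl⟩ := h1 m g gh g0 φ M φ0 M0 hA K D hK
  obtain ⟨C1, hC1, hPb⟩ := h2 m g gh g0 φ M φ0 M0 hA K' hK'
  obtain ⟨C2, hC2, hInt⟩ := h5 m g gh g0 φ M φ0 M0 hA K hK ψ ϑ w0 ψ1 θ1 hBm
  set V : ℝ := (volume K).toReal with hV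
  have hV0 : 0 ≤ V := ENNReal.toReal_nonneg
  refine ⟨K', C1 ^ 2 * C2 * (V + 1), hK', hKK', by positivity, ?_⟩
  filter_upwards [hFl, hPb, hInt] with j hFl hPb hInt
  intro B hB χ hχc hχ hχK s r hs
  have hRj := hA.riem j
  have hRh := hA.riemh j
  have hBh := hA.blkh j
  have hTh := hA.tinvh j
  have hf := hA.fl j
  have hB0 : 0 ≤ B := hB.nonneg
  have hDeu := h4 m (g j) (gh j) hRj (hA.blk j) hRh hBh hTh (hA.per j)
  have hPrd := h7 m (gh j) (φ j) (M j) hRh hBh hTh hf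
  have hHm : Continuous (Hm (gh j)) := (h9 (m + 1) (gh j) hRh).2.2.2.2.2.2.2.1.continuous
  have hHh : Continuous (Hh (gh j)) := by
    unfold Hh
    exact hHm.sub ((cont_ta.pow 2).div_const 2)
  have hw0c : Continuous w0 := hBm.cw0.smooth.continuous
  have hϑc : Continuous ϑ := hBm.th.smooth.continuous
  have hθc : Continuous θ1 := hBm.th1.smooth.continuous
  -- bounds of the energy
  have hen : ∀ z : W (m + 1), ∀ c : ℝ, w0 (ta z) ≠ 0 → Hh (gh j) z ≤ c →
      Hm (gh j) z ≤ c + 1 / 2 := by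
    intro z c hw hH
    have ht := hBm.cw0.supp _ hw
    have h3 : ta z ^ 2 ≤ 1 := by nlinarith [ht.1, ht.2]
    unfold Hh at hH
    linarith
  -- the dominating function
  set P : W (m + 1) → ℝ := fun z => χ z.1 * (1 * (w0 (ta z) * θ1 (Hh (gh j) z))) with hP
  have hPc : Continuous P := (hχc.comp continuous_fst).mul (continuous_const.mul
    ((hw0c.comp cont_ta).mul (hθc.comp hHh)))
  have hPi : Integrable P := by
    refine integ h10 hRh hK (1 + 1 / 2) P hPc fun z hz => ?_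
    have h3 : χ z.1 ≠ 0 := left_ne_zero_of_mul hz
    have h4 : w0 (ta z) * θ1 (Hh (gh j) z) ≠ 0 := right_ne_zero_of_mul (right_ne_zero_of_mul hz)
    exact ⟨hχK _ h3, hen z 1 (left_ne_zero_of_mul h4)
      (hBm.th1.supp _ (right_ne_zero_of_mul h4)).2⟩
  have hχi : Integrable χ := hχc.integrable_of_hasCompactSupport
    (HasCompactSupport.intro hK fun x hx => by
      by_contra h
      exact hx (hχK x h))
  have hχV : ∫ x, χ x ≤ V := by
    have h3 : ∫ x, χ x ≤ ∫ x, K.indicator (fun _ => (1 : ℝ)) x := by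
      refine integral_mono hχi ?_ fun x => ?_
      · exact (integrable_indicator_iff hK.measurableSet).2
          (integrableOn_const (hs := hK.measure_lt_top.ne))
      · by_cases hx : x ∈ K
        · rw [indicator_of_mem hx]
          exact (hχ x).2
        · rw [indicator_of_notMem hx]
          by_contra h
          exact hx (hχK x fun h0 => h (by rw [h0]))
    rw [integral_indicator hK.measurableSet, setIntegral_const, smul_eq_mul, mul_one] at h3
    exact h3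
  have hPV : ∫ z, P z ≤ C2 * V := by
    have h3 := hInt χ (fun _ => 1) w0 hχc continuous_const hw0c (fun x => (hχ x).1)
      (fun _ => zero_le_one) hBm.cw0.nonneg hχK
      (HasCompactSupport.intro isCompact_Icc fun x hx => by
        by_contra h
        exact hx (hBm.cw0.supp x h))
    refine h3.trans ?_
    rw [hBm.cw0_int, mul_one]
    have h4 : ∫ x, χ x * (fun _ : E (m + 1) => (1 : ℝ)) x = ∫ x, χ x := by
      simp only [mul_one]
    rw [h4]
    exact mul_le_mul_of_nonneg_left hχV hC2.le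
  have hPV0 : 0 ≤ ∫ z, P z := integral_nonneg fun z =>
    mul_nonneg (hχ _).1 (mul_nonneg zero_le_one (mul_nonneg (hBm.cw0.nonneg _) (hBm.th1.nonneg _)))
  -- the estimate for one function
  have key : ∀ f : W (m + 1) → ℝ, ContDiff ℝ ∞ f → (∀ z, Rg (gh j) K' z → |f z| ≤ C1 * B) →
      (∀ z, Rg (gh j) K' z → |XX (gh j) f z - ta z * De f z| ≤ C1 * B) →
      |cor χ (gh j) w0 ϑ (φ j) f s r - cor χ (gh j) w0 ϑ (φ j) f 0 r| ≤
        C1 ^ 2 * C2 * (V + 1) * |s| * B ^ 2 := by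
    intro f hfs hf1 hf2
    have hfc : Continuous f := hfs.continuous
    have hG : ∀ σ : ℝ, Continuous fun z : W (m + 1) => χ z.1 * (w0 (ta z) * ϑ (Hh (gh j) z) ^ 2 *
        (f (Tr r (zt (φ j) σ z)) * f z)) := by
      intro σ
      refine (hχc.comp continuous_fst).mul (((hw0c.comp cont_ta).mul ((hϑc.comp hHh).pow 2)).mul
        ((hfc.comp (cont_Tr continuous_const (cont_zt hf σ))).mul hfc))
    have hsupp : ∀ σ : ℝ, ∀ z : W (m + 1), χ z.1 * (w0 (ta z) * ϑ (Hh (gh j) z) ^ 2 *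
        (f (Tr r (zt (φ j) σ z)) * f z)) ≠ 0 → z.1 ∈ K ∧ Hm (gh j) z ≤ 3 / 8 + 1 / 2 := by
      intro σ z hz
      have h3 : χ z.1 ≠ 0 := left_ne_zero_of_mul hz
      have h4 : w0 (ta z) * ϑ (Hh (gh j) z) ^ 2 ≠ 0 := left_ne_zero_of_mul (right_ne_zero_of_mul hz)
      have h5 : ϑ (Hh (gh j) z) ≠ 0 := by
        intro h
        rw [h] at h4
        simp at h4
      exact ⟨hχK _ h3, hen z (3 / 8) (left_ne_zero_of_mul h4) (hBm.th.supp _ h5).2⟩
    have hGi : ∀ σ : ℝ, Integrable fun z : W (m + 1) => χ z.1 * (w0 (ta z) * ϑ (Hh (gh j) z) ^ 2 *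
        (f (Tr r (zt (φ j) σ z)) * f z)) := fun σ =>
      integ h10 hRh hK _ _ (hG σ) (hsupp σ)
    have hpt : ∀ z : W (m + 1), |χ z.1 * (w0 (ta z) * ϑ (Hh (gh j) z) ^ 2 *
        (f (Tr r (zt (φ j) s z)) * f z)) - χ z.1 * (w0 (ta z) * ϑ (Hh (gh j) z) ^ 2 *
        (f (Tr r (zt (φ j) 0 z)) * f z))| ≤ C1 ^ 2 * B ^ 2 * |s| * P z := by
      intro z
      have hP0 : 0 ≤ P z :=
        mul_nonneg (hχ _).1 (mul_nonneg zero_le_one (mul_nonneg (hBm.cw0.nonneg _)
          (hBm.th1.nonneg _)))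
      have e1 : χ z.1 * (w0 (ta z) * ϑ (Hh (gh j) z) ^ 2 *
          (f (Tr r (zt (φ j) s z)) * f z)) - χ z.1 * (w0 (ta z) * ϑ (Hh (gh j) z) ^ 2 *
          (f (Tr r (zt (φ j) 0 z)) * f z)) =
          (χ z.1 * (w0 (ta z) * ϑ (Hh (gh j) z) ^ 2)) *
            ((f (Tr r (zt (φ j) s z)) - f (Tr r (zt (φ j) 0 z))) * f z) := by ring
      rw [e1]
      by_cases hz : χ z.1 * (w0 (ta z) * ϑ (Hh (gh j) z) ^ 2) = 0
      · rw [hz, zero_mul, abs_zero]
        exact mul_nonneg (by positivity) hP0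
      · have h3 : χ z.1 ≠ 0 := left_ne_zero_of_mul hz
        have h5 : ϑ (Hh (gh j) z) ≠ 0 := by
          intro h
          rw [h] at hz
          simp at hz
        have hH := hBm.th.supp _ h5
        have hRg : Rg (gh j) K z := ⟨⟨z.1, hχK _ h3, 0, by simp⟩, by linarith [hH.2]⟩
        have hRg' : Rg (gh j) K' z := ⟨⟨z.1, hKK' (hχK _ h3), 0, by simp⟩, by linarith [hH.2]⟩
        have hA1 := ptw h7 hRh hBh hTh hf f (hfs.differentiable (by simp)) D (C1 * B) z r
          (fun σ hσ => hf2 _ ((hFl z σ hRg hσ).2.1 r)) s hs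
        have hA2 := hf1 z hRg'
        have hθ : θ1 (Hh (gh j) z) = 1 := hBm.th1_one _ (by
          rw [abs_le]
          constructor <;> linarith [hH.1, hH.2])
        have hϑ0 := hBm.th.nonneg (Hh (gh j) z)
        have hϑ1 := hBm.th_le (Hh (gh j) z)
        have hϑ2 : ϑ (Hh (gh j) z) ^ 2 ≤ 1 := by nlinarith
        have hw := hBm.cw0.nonneg (ta z)
        have hc0 := (hχ z.1).1
        rw [abs_mul, abs_mul (f (Tr r (zt (φ j) s z)) - f (Tr r (zt (φ j) 0 z)))]
        rw [abs_of_nonneg (mul_nonneg hc0 (mul_nonneg hw (sq_nonneg _)))]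
        have hPz : χ z.1 * (w0 (ta z) * ϑ (Hh (gh j) z) ^ 2) ≤ P z := by
          show _ ≤ χ z.1 * (1 * (w0 (ta z) * θ1 (Hh (gh j) z)))
          rw [hθ, one_mul]
          exact mul_le_mul_of_nonneg_left (mul_le_mul_of_nonneg_left hϑ2 hw) hc0
        calc χ z.1 * (w0 (ta z) * ϑ (Hh (gh j) z) ^ 2) *
              (|f (Tr r (zt (φ j) s z)) - f (Tr r (zt (φ j) 0 z))| * |f z|)
            ≤ P z * ((C1 * B * |s|) * (C1 * B)) := by
              refine mul_le_mul hPz (mul_le_mul hA1 hA2 (abs_nonneg _) (by positivity))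
                (by positivity) hP0
          _ = C1 ^ 2 * B ^ 2 * |s| * P z := by ring
    unfold cor
    rw [← integral_sub (hGi s) (hGi 0)]
    calc |∫ z, (χ z.1 * (w0 (ta z) * ϑ (Hh (gh j) z) ^ 2 *
        (f (Tr r (zt (φ j) s z)) * f z)) - χ z.1 * (w0 (ta z) * ϑ (Hh (gh j) z) ^ 2 *
        (f (Tr r (zt (φ j) 0 z)) * f z)))|
        ≤ ∫ z, |χ z.1 * (w0 (ta z) * ϑ (Hh (gh j) z) ^ 2 *
        (f (Tr r (zt (φ j) s z)) * f z)) - χ z.1 * (w0 (ta z) * ϑ (Hh (gh j) z) ^ 2 *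
        (f (Tr r (zt (φ j) 0 z)) * f z))| := by
          have h3 := norm_integral_le_integral_norm (μ := volume) (fun z : W (m + 1) =>
            χ z.1 * (w0 (ta z) * ϑ (Hh (gh j) z) ^ 2 *
            (f (Tr r (zt (φ j) s z)) * f z)) - χ z.1 * (w0 (ta z) * ϑ (Hh (gh j) z) ^ 2 *
            (f (Tr r (zt (φ j) 0 z)) * f z)))
          simpa only [Real.norm_eq_abs] using h3
      _ ≤ ∫ z, C1 ^ 2 * B ^ 2 * |s| * P z :=
          integral_mono ((hGi s).sub (hGi 0)).abs (hPi.const_mul _) hpt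
      _ = C1 ^ 2 * B ^ 2 * |s| * ∫ z, P z := integral_const_mul _ _
      _ ≤ C1 ^ 2 * B ^ 2 * |s| * (C2 * (V + 1)) := by
          refine mul_le_mul_of_nonneg_left (hPV.trans ?_) (by positivity)
          exact mul_le_mul_of_nonneg_left (by linarith) hC2.le
      _ = C1 ^ 2 * C2 * (V + 1) * |s| * B ^ 2 := by ring
  have hb := hPb B hB
  exact ⟨key _ hDeu.1 (fun z hz => (hb z hz).2.2.1) (fun z hz => (hb z hz).2.2.2.2.2.2.1),
    key _ hDeu.2.1 (fun z hz => (hb z hz).2.1) (fun z hz => (hb z hz).2.2.2.2.2.2.2)⟩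

end Pool.Agent.LQ
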