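import Mathlib
import Pool.Agent.Work.MP_13b5d9_gt.LQ.StmtsQ

set_option autoImplicit false

/-!
# MP_13b5d9_gt, block LQ, Theorem Q, item Low: the lower bound
-/

open MeasureTheory Set Filter Topology
open scoped ContDiff ENNReal

namespace Pool.Agent.LQ

open Pool.Agent.MLS Pool.Agent.EC Pool.Agent.DR

namespace IQLow

theorem pu_le {n : ℕ} {G : Type} [Group G] [MulAction G (E n)] {χ : E n → ℝ} (h : PU G χ)
    (x : E n) : χ x ≤ 1 := by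
  have h1 := le_hasSum (h.sum x) 1 (fun b _ => h.nonneg _)
  simpa using h1

theorem tr0 {m : ℕ} (z : W (m + 1)) : Tr 0 z = z := by
  simp [Tr]

end IQLow

open IQLow

theorem pr_Low (h1 : StL1) (h2 : StL2) (h3 : StL3) (h4 : StL4) : StLow := by
  intro m G _ act g gh g0 χ S φ M φ0 M0 hQ hA hinv ψ ϑ w0 ψ1 θ1 hB D hD
  obtain ⟨K, C3, hKc, hSK, hC3, hev⟩ :=
    h3 m g gh g0 φ M φ0 M0 hA S D hQ.cpt hD ψ ϑ w0 ψ1 θ1 hB
  obtain ⟨C4, hC4, h4'⟩ := h4 ψ ϑ w0 ψ1 θ1 hB D hD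
  refine ⟨K, C4 * C3, hKc, mul_pos hC4 hC3, ?_⟩
  filter_upwards [hev] with j hj R hR B hNB
  letI : MulAction G (E (m + 1)) := act j
  have hcoc : Cocompact (m + 1) G := hQ.coc j
  have hvert : Vert (m + 1) G eL := hQ.vert j
  have hpu : PU G (χ j) := hQ.pu j
  have hinv1 : Inv G (g j) := hQ.inv j
  have hinv2 : Inv G (gh j) := hinv j
  have e1 := h1 m G hcoc hvert (g j) (gh j) (φ j) (M j) (hA.riem j) hinv1 (hA.blk j)
    (hA.per j) (hA.riemh j) hinv2 (hA.blkh j) (hA.tinvh j) (hA.fl j) ψ ϑ w0 ψ1 θ1 hB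
    (R ^ 2) D (by positivity) (by linarith) (χ j) hpu
  obtain ⟨⟨γ1, hg1, hg2, hg3⟩, hc1, hc2, hev0, hle0, hmean⟩ :=
    h2 m G hcoc hvert (g j) (gh j) (φ j) (M j) (hA.riem j) hinv1 (hA.blk j)
    (hA.per j) (hA.riemh j) hinv2 (hA.blkh j) (hA.tinvh j) (hA.fl j) ψ ϑ w0 ψ1 θ1 hB (χ j) hpu
  have hj' := hj B hNB (χ j) hpu.smooth.continuous (fun x => ⟨hpu.nonneg x, pu_le hpu x⟩)
    (hQ.supp j)
  have hB2 : (0 : ℝ) ≤ C3 * B ^ 2 := mul_nonneg hC3.le (sq_nonneg B)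
  have key := h4' (cor (χ j) (gh j) w0 ϑ (φ j) (uq (g j) (gh j))) γ1
    (cor (χ j) (gh j) w0 ϑ (φ j) (kq (g j) (gh j))) (C3 * B ^ 2) R hB2 hR hg1 hg2 hc1 hc2 hg3
    hev0 hle0 hmean
    (fun s r hs => by
      have := (hj' s r hs).1
      calc _ ≤ C3 * |s| * B ^ 2 := this
        _ = C3 * B ^ 2 * |s| := by ring)
    (fun s r hs => by
      have := (hj' s r hs).2
      calc _ ≤ C3 * |s| * B ^ 2 := this
        _ = C3 * B ^ 2 * |s| := by ring)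
  rw [e1]
  have hcor : cor (χ j) (gh j) w0 ϑ (φ j) (uq (g j) (gh j)) 0 0 =
      ∫ z, χ j z.1 * (w0 (ta z) * ϑ (Hh (gh j) z) ^ 2 * uq (g j) (gh j) z ^ 2) := by
    unfold cor
    congr 1
    funext z
    have hz : zt (φ j) 0 z = z := by
      unfold zt
      rw [(hA.fl j).zero z, mul_zero, neg_zero, tr0]
    rw [hz, tr0]
    ring
  rw [hcor] at key
  calc _ = 4 * D * (∫ z, χ j z.1 * (w0 (ta z) * ϑ (Hh (gh j) z) ^ 2 *
        uq (g j) (gh j) z ^ 2)) - C4 * (C3 * B ^ 2) / R := by ring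
    _ ≤ _ := key

end Pool.Agent.LQ
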