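import Pool.Agent.Work.MP_13b5d9_gt.LQ.StmtsQ

set_option autoImplicit false
set_option maxSynthPendingDepth 3

/-!
# Item NB: the two bounds
-/

open MeasureTheory Set Filter Topology
open scoped ContDiff ENNReal

namespace Pool.Agent.LQ

open Pool.Agent.MLS Pool.Agent.EC Pool.Agent.DR

namespace IQNB

theorem per_fderiv {V F : Type} [NormedAddCommGroup V] [NormedSpace ℝ V] [NormedAddCommGroup F]
    [NormedSpace ℝ F] {f : V → F} {c : V} (h : Function.Periodic f c) :
    Function.Periodic (fderiv ℝ f) c := by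
  intro x
  rw [← fderiv_comp_add_right]
  congr 1
  funext y
  exact h y

theorem per_fract {V F : Type} [NormedAddCommGroup V] [NormedSpace ℝ V] {f : V → F} {c : V}
    (h : Function.Periodic f c) (x : V) (s : ℝ) : f (x + s • c) = f (x + Int.fract s • c) := by
  have h1 := (h.zsmul ⌊s⌋) (x + Int.fract s • c)
  rw [← h1]
  congr 1
  rw [add_assoc, ← Int.cast_smul_eq_zsmul ℝ, ← add_smul, Int.fract_add_floor]

/-- derivative of an evaluation -/
theorem fderiv_ev {V F : Type} [NormedAddCommGroup V] [NormedSpace ℝ V] [NormedAddCommGroup F]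
    [NormedSpace ℝ F] {f : V → V →L[ℝ] F} (hf : Differentiable ℝ f) (u : V) (x : V) (w : V) :
    fderiv ℝ (fun y => f y u) x w = fderiv ℝ f x w u := by
  have h1 := (hf x).hasFDerivAt.clm_apply (hasFDerivAt_const u x)
  rw [h1.fderiv]
  simp

end IQNB

open IQNB

theorem pr_NB : StNB := by
  intro m K hK
  refine ⟨(fun p : E (m + 1) × ℝ => p.1 + p.2 • eL) '' (K ×ˢ Icc (0 : ℝ) 1), ?_, ?_, ?_⟩
  · exact (hK.prod isCompact_Icc).image
      (continuous_fst.add (continuous_snd.smul continuous_const))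
  · intro x hx
    refine ⟨(x, 0), ⟨hx, ⟨le_rfl, zero_le_one⟩⟩, ?_⟩
    simp
  · intro g hper B hB hNB
    set F : E (m + 1) → E (m + 1) →L[ℝ] E (m + 1) →L[ℝ] ℝ := fun y => fderiv ℝ g.val y eL with hF
    have hFs : ContDiff ℝ ∞ F := (g.smooth.fderiv_right (by norm_num)).clm_apply contDiff_const
    have hFd : Differentiable ℝ F := hFs.differentiable (by simp)
    have hF1 : ContDiff ℝ ∞ (fderiv ℝ F) := hFs.fderiv_right (by norm_num)
    have hF1d : Differentiable ℝ (fderiv ℝ F) := hF1.differentiable (by simp)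
    have hp0 : Function.Periodic g.val eL := hper
    have hp1 : Function.Periodic F eL := fun y => by
      rw [hF]
      show fderiv ℝ g.val (y + eL) eL = fderiv ℝ g.val y eL
      rw [per_fderiv hp0 y]
    have hp2 : Function.Periodic (fderiv ℝ F) eL := per_fderiv hp1
    have hp3 : Function.Periodic (fderiv ℝ (fderiv ℝ F)) eL := per_fderiv hp2
    have hmem : ∀ x ∈ K, ∀ s : ℝ, x + Int.fract s • eL ∈
        (fun p : E (m + 1) × ℝ => p.1 + p.2 • eL) '' (K ×ˢ Icc (0 : ℝ) 1) := fun x hx s =>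
      ⟨(x, Int.fract s), ⟨hx, ⟨Int.fract_nonneg s, (Int.fract_lt_one s).le⟩⟩, rfl⟩
    have hb0 : ∀ x ∈ K, ∀ s : ℝ, ‖F (x + s • eL)‖ ≤ B := by
      intro x hx s
      have h1 := hNB 0 (by norm_num) _ (hmem x hx s)
      rw [norm_iteratedFDeriv_zero] at h1
      rw [per_fract hp1]
      exact h1
    have hb1 : ∀ x ∈ K, ∀ s : ℝ, ‖fderiv ℝ F (x + s • eL)‖ ≤ B := by
      intro x hx s
      have h1 := hNB 1 (by norm_num) _ (hmem x hx s)
      rw [norm_iteratedFDeriv_one] at h1
      rw [per_fract hp2]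
      exact h1
    have hb2 : ∀ x ∈ K, ∀ s : ℝ, ‖fderiv ℝ (fderiv ℝ F) (x + s • eL)‖ ≤ B := by
      intro x hx s
      have h1 := hNB 2 le_rfl _ (hmem x hx s)
      rw [← norm_iteratedFDeriv_fderiv, norm_iteratedFDeriv_one] at h1
      rw [per_fract hp3]
      exact h1
    refine ⟨hB, ?_, ?_, ?_⟩
    · intro x hx s u v
      have h1 : ‖F (x + s • eL) u v‖ ≤ ‖F (x + s • eL)‖ * ‖u‖ * ‖v‖ := (F _).le_opNorm₂ u v
      rw [Real.norm_eq_abs] at h1
      refine h1.trans ?_
      gcongr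
      exact hb0 x hx s
    · intro x hx s u v w
      have e1 : fderiv ℝ (fun y => fderiv ℝ g.val y eL u v) (x + s • eL) w =
          fderiv ℝ F (x + s • eL) w u v := by
        have h2 : Differentiable ℝ fun y => F y u := hFd.clm_apply (differentiable_const u)
        have h3 := fderiv_ev (f := fun y => F y u) h2 v (x + s • eL) w
        rw [fderiv_ev hFd u (x + s • eL) w] at h3
        exact h3
      rw [e1]
      have h1 : ‖fderiv ℝ F (x + s • eL) w u v‖ ≤ ‖fderiv ℝ F (x + s • eL) w‖ * ‖u‖ * ‖v‖ :=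
        ContinuousLinearMap.le_opNorm₂ _ u v
      rw [Real.norm_eq_abs] at h1
      have h2 : ‖fderiv ℝ F (x + s • eL) w‖ ≤ B * ‖w‖ :=
        ((fderiv ℝ F (x + s • eL)).le_opNorm w).trans
          (mul_le_mul_of_nonneg_right (hb1 x hx s) (norm_nonneg _))
      calc |fderiv ℝ F (x + s • eL) w u v| ≤ ‖fderiv ℝ F (x + s • eL) w‖ * ‖u‖ * ‖v‖ := h1
        _ ≤ B * ‖w‖ * ‖u‖ * ‖v‖ := by gcongr
        _ = B * ‖u‖ * ‖v‖ * ‖w‖ := by ring
    · intro x hx s u v w w'
      have e0 : ∀ y, fderiv ℝ (fun y' => fderiv ℝ g.val y' eL u v) y w = fderiv ℝ F y w u v := by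
        intro y
        have h2 : Differentiable ℝ fun y => F y u := hFd.clm_apply (differentiable_const u)
        have h3 := fderiv_ev (f := fun y => F y u) h2 v y w
        rw [fderiv_ev hFd u y w] at h3
        exact h3
      have e1 : fderiv ℝ (fun y => fderiv ℝ (fun y' => fderiv ℝ g.val y' eL u v) y w)
          (x + s • eL) w' = fderiv ℝ (fderiv ℝ F) (x + s • eL) w' w u v := by
        have h0 : (fun y => fderiv ℝ (fun y' => fderiv ℝ g.val y' eL u v) y w) =
            fun y => fderiv ℝ F y w u v := funext e0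
        rw [h0]
        have h2 : Differentiable ℝ fun y => fderiv ℝ F y w :=
          hF1d.clm_apply (differentiable_const w)
        have h3 : Differentiable ℝ fun y => fderiv ℝ F y w u :=
          h2.clm_apply (differentiable_const u)
        have h4 := fderiv_ev (f := fun y => fderiv ℝ F y w u) h3 v (x + s • eL) w'
        rw [fderiv_ev (f := fun y => fderiv ℝ F y w) h2 u (x + s • eL) w',
          fderiv_ev hF1d w (x + s • eL) w'] at h4
        exact h4
      rw [e1]
      have h1 : ‖fderiv ℝ (fderiv ℝ F) (x + s • eL) w' w u v‖ ≤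
          ‖fderiv ℝ (fderiv ℝ F) (x + s • eL) w' w‖ * ‖u‖ * ‖v‖ :=
        ContinuousLinearMap.le_opNorm₂ _ u v
      rw [Real.norm_eq_abs] at h1
      have h2 : ‖fderiv ℝ (fderiv ℝ F) (x + s • eL) w' w‖ ≤ B * ‖w'‖ * ‖w‖ := by
        refine (ContinuousLinearMap.le_opNorm₂ _ w' w).trans ?_
        gcongr
        exact hb2 x hx s
      calc |fderiv ℝ (fderiv ℝ F) (x + s • eL) w' w u v| ≤
            ‖fderiv ℝ (fderiv ℝ F) (x + s • eL) w' w‖ * ‖u‖ * ‖v‖ := h1
        _ ≤ B * ‖w'‖ * ‖w‖ * ‖u‖ * ‖v‖ := by gcongr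
        _ = B * ‖u‖ * ‖v‖ * ‖w‖ * ‖w'‖ := by ring

end Pool.Agent.LQ
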