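import Mathlib
import Pool.Agent.Work.MP_13b5d9_gt.LQ.StmtsQ

set_option autoImplicit false

/-!
# MP_13b5d9_gt, block LQ, item ODE: continuous dependence of the flow on the equation
-/

open MeasureTheory Set Filter Topology
open scoped ContDiff ENNReal

namespace Pool.Agent.LQ

open Pool.Agent.MLS Pool.Agent.EC Pool.Agent.DR

namespace IQODE

section

variable {Q : Type} [NormedAddCommGroup Q] [NormedSpace ℝ Q]

/-- barrier argument for positive times -/
theorem fwd (G G0 : Q → Q) (f g : ℝ → Q) (T Λ η c ε : ℝ) (hΛ : 0 ≤ Λ) (hc : 0 < c)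
    (hε1 : ε ≤ 1) (hηc : η < c) (hcε : c * Real.exp ((Λ + 1) * T) ≤ ε)
    (hf : ∀ t, HasDerivAt f (G (f t)) t) (hg : ∀ t, HasDerivAt g (G0 (g t)) t)
    (hL : ∀ t, 0 ≤ t → t ≤ T → ∀ a, ‖a - g t‖ ≤ 1 → ‖G0 a - G0 (g t)‖ ≤ Λ * ‖a - g t‖)
    (hη : ∀ t, 0 ≤ t → t ≤ T → ∀ a, ‖a - g t‖ ≤ 1 → ‖G a - G0 a‖ ≤ η)
    (h0 : ‖f 0 - g 0‖ ≤ c) (t : ℝ) (ht0 : 0 ≤ t) (htT : t ≤ T) : ‖f t - g t‖ ≤ ε := by
  have hB : ∀ x : ℝ, HasDerivAt (fun x => c * Real.exp ((Λ + 1) * x))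
      ((Λ + 1) * (c * Real.exp ((Λ + 1) * x))) x := by
    intro x
    have h1 : HasDerivAt (fun x : ℝ => (Λ + 1) * x) (Λ + 1) x := by
      simpa using (hasDerivAt_id x).const_mul (Λ + 1)
    have h2 := (h1.exp).const_mul c
    have h3 : c * (Real.exp ((Λ + 1) * x) * (Λ + 1)) = (Λ + 1) * (c * Real.exp ((Λ + 1) * x)) := by
      ring
    rw [h3] at h2
    exact h2
  have hmono : ∀ x, x ≤ T → c * Real.exp ((Λ + 1) * x) ≤ ε := by
    intro x hx
    refine le_trans ?_ hcε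
    apply mul_le_mul_of_nonneg_left _ hc.le
    apply Real.exp_le_exp.2
    nlinarith
  have hlow : ∀ x, 0 ≤ x → c ≤ c * Real.exp ((Λ + 1) * x) := by
    intro x hx
    have h1 : 1 ≤ Real.exp ((Λ + 1) * x) := Real.one_le_exp (by positivity)
    nlinarith
  have key := image_norm_le_of_norm_deriv_right_lt_deriv_boundary (a := 0) (b := T)
    (f := fun t => f t - g t) (f' := fun t => G (f t) - G0 (g t))
    (fun x _ => ((hf x).sub (hg x)).continuousAt.continuousWithinAt)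
    (fun x _ => ((hf x).sub (hg x)).hasDerivWithinAt)
    (B := fun x => c * Real.exp ((Λ + 1) * x))
    (B' := fun x => (Λ + 1) * (c * Real.exp ((Λ + 1) * x)))
    (by simpa using h0) hB (by
      intro x hx hxB
      have h1 : ‖f x - g x‖ ≤ 1 := by
        rw [hxB]
        exact le_trans (hmono x hx.2.le) hε1
      have h2 := hL x hx.1 hx.2.le (f x) h1
      have h3 := hη x hx.1 hx.2.le (f x) h1
      have h4 := hlow x hx.1
      have h5 : ‖G (f x) - G0 (g x)‖ ≤ η + Λ * ‖f x - g x‖ := by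
        calc ‖G (f x) - G0 (g x)‖ = ‖(G (f x) - G0 (f x)) + (G0 (f x) - G0 (g x))‖ := by
              congr 1
              abel
          _ ≤ ‖G (f x) - G0 (f x)‖ + ‖G0 (f x) - G0 (g x)‖ := norm_add_le _ _
          _ ≤ η + Λ * ‖f x - g x‖ := add_le_add h3 h2
      rw [hxB] at h5
      refine lt_of_le_of_lt h5 ?_
      nlinarith)
  exact le_trans (key ⟨ht0, htT⟩) (hmono t htT)

variable [FiniteDimensional ℝ Q]

/-- uniform estimate near a solution of the limit equation -/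
theorem unif (F : ℕ → Q → Q) (F0 : Q → Q) (hCC : CC F F0) (hF0 : ContDiff ℝ 1 F0)
    (φ : ℕ → ℝ → Q → Q) (g : ℝ → Q) (h0 : ∀ j z, φ j 0 z = z)
    (hφ : ∀ j z t, HasDerivAt (fun s => φ j s z) (F j (φ j t z)) t)
    (hg : ∀ t, HasDerivAt g (F0 (g t)) t) (T ε : ℝ) (hε : 0 < ε) (hε1 : ε ≤ 1) :
    ∃ c : ℝ, 0 < c ∧ ∀ᶠ j in atTop, ∀ z, ‖z - g 0‖ ≤ c → ∀ t, |t| ≤ T →
      ‖φ j t z - g t‖ ≤ ε := by
  have hprop : ProperSpace Q := FiniteDimensional.proper ℝ Q
  have hgc : Continuous g := continuous_iff_continuousAt.2 fun t => (hg t).continuousAt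
  have hK0 : IsCompact (g '' Icc (-T) T) := isCompact_Icc.image hgc
  have hK : IsCompact (Metric.cthickening 1 (g '' Icc (-T) T)) := hK0.cthickening
  have hball : ∀ t, |t| ≤ T → Metric.closedBall (g t) 1 ⊆
      Metric.cthickening 1 (g '' Icc (-T) T) := by
    intro t ht
    exact Metric.closedBall_subset_cthickening (mem_image_of_mem g (abs_le.1 ht)) 1
  obtain ⟨Λ', hΛ'⟩ := hK.exists_bound_of_continuousOn
    (hF0.continuous_fderiv (by norm_num)).continuousOn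
  obtain ⟨Λ, hΛ0, hΛ⟩ : ∃ Λ : ℝ, 0 ≤ Λ ∧ ∀ a ∈ Metric.cthickening 1 (g '' Icc (-T) T),
      ‖fderiv ℝ F0 a‖ ≤ Λ :=
    ⟨max Λ' 0, le_max_right _ _, fun a ha => le_trans (hΛ' a ha) (le_max_left _ _)⟩
  set c := ε * Real.exp (-((Λ + 1) * T)) with hcdef
  have hc : 0 < c := mul_pos hε (Real.exp_pos _)
  have hcε : c * Real.exp ((Λ + 1) * T) ≤ ε := by
    rw [hcdef, mul_assoc, ← Real.exp_add]
    simp
  refine ⟨c, hc, ?_⟩
  filter_upwards [hCC.unif hK (half_pos hc)] with j hj z hz t ht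
  have hLip : ∀ t, |t| ≤ T → ∀ a, ‖a - g t‖ ≤ 1 → ‖F0 a - F0 (g t)‖ ≤ Λ * ‖a - g t‖ := by
    intro t ht a ha
    have h1 : a ∈ Metric.closedBall (g t) 1 := by
      rw [Metric.mem_closedBall, dist_eq_norm]
      exact ha
    exact (convex_closedBall (g t) 1).norm_image_sub_le_of_norm_fderiv_le
      (fun x _ => (hF0.differentiable (by norm_num)) x) (fun x hx => hΛ x (hball t ht hx))
      (Metric.mem_closedBall_self zero_le_one) h1
  have hcl : ∀ t, |t| ≤ T → ∀ a, ‖a - g t‖ ≤ 1 → ‖F j a - F0 a‖ ≤ c / 2 := by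
    intro t ht a ha
    have h1 : a ∈ Metric.closedBall (g t) 1 := by
      rw [Metric.mem_closedBall, dist_eq_norm]
      exact ha
    have h2 := hj a (hball t ht h1)
    rw [dist_eq_norm] at h2
    exact h2.le
  rcases le_total 0 t with h | h
  · rw [abs_of_nonneg h] at ht
    exact fwd (F j) F0 (fun s => φ j s z) g T Λ (c / 2) c ε hΛ0 hc hε1 (by linarith) hcε
      (hφ j z) hg (fun s hs hsT => hLip s (by rw [abs_of_nonneg hs]; exact hsT))
      (fun s hs hsT => hcl s (by rw [abs_of_nonneg hs]; exact hsT)) (by rw [h0]; exact hz) t h ht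
  · rw [abs_of_nonpos h] at ht
    have hrev : ∀ (f : ℝ → Q) (G : Q → Q), (∀ t, HasDerivAt f (G (f t)) t) → ∀ t,
        HasDerivAt (fun s => f (-s)) ((fun q => -G q) ((fun s => f (-s)) t)) t := by
      intro f G hf t
      have h1 := (hf (-t)).scomp t (hasDerivAt_neg t)
      rw [neg_one_smul] at h1
      exact h1
    have h1 := fwd (fun q => -F j q) (fun q => -F0 q) (fun s => φ j (-s) z) (fun s => g (-s)) T Λ
      (c / 2) c ε hΛ0 hc hε1 (by linarith) hcε (hrev (fun s => φ j s z) (F j) (hφ j z))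
      (hrev g F0 hg)
      (fun s hs hsT a ha => by
        have h2 := hLip (-s) (by rw [abs_neg, abs_of_nonneg hs]; exact hsT) a ha
        have h3 : ‖-F0 a - -F0 (g (-s))‖ = ‖F0 a - F0 (g (-s))‖ := by
          rw [← norm_neg]
          congr 1
          abel
        exact h3.trans_le h2)
      (fun s hs hsT a ha => by
        have h2 := hcl (-s) (by rw [abs_neg, abs_of_nonneg hs]; exact hsT) a ha
        have h3 : ‖-F j a - -F0 a‖ = ‖F j a - F0 a‖ := by
          rw [← norm_neg]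
          congr 1
          abel
        exact h3.trans_le h2)
      (by simp only [neg_zero]; rw [h0]; exact hz) (-t) (by linarith) ht
    simpa using h1

end

end IQODE

open IQODE in
/-- Item ODE. -/
theorem pr_ODE : StODE := by
  intro Q _ _ _ F F0 hCC hF0 φ φ0 h0 h00 hφ hφ0
  rintro ⟨s0, z0⟩
  rw [Metric.tendsto_nhds]
  intro ε hε
  obtain ⟨c, hc, hev⟩ := unif F F0 hCC hF0 φ (fun s => φ0 s z0) h0 hφ (hφ0 z0) (|s0| + 1)
    (min (ε / 2) 1) (lt_min (half_pos hε) one_pos) (min_le_right _ _)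
  have hcont : ∀ᶠ s in 𝓝 s0, dist (φ0 s z0) (φ0 s0 z0) < ε / 2 :=
    Metric.tendsto_nhds.1 (hφ0 z0 s0).continuousAt _ (half_pos hε)
  have hs : ∀ᶠ s in 𝓝 s0, |s| ≤ |s0| + 1 := by
    have h1 : Tendsto (fun s : ℝ => |s|) (𝓝 s0) (𝓝 |s0|) := continuous_abs.tendsto s0
    exact (h1.eventually_lt_const (show |s0| < |s0| + 1 by linarith)).mono fun s hs => hs.le
  have hz : ∀ᶠ z in 𝓝 z0, ‖z - z0‖ ≤ c := by
    filter_upwards [Metric.closedBall_mem_nhds z0 hc] with z hz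
    rw [← dist_eq_norm]
    exact hz
  have h1 : ∀ᶠ p : ℝ × Q in 𝓝 (s0, z0), (dist (φ0 p.1 z0) (φ0 s0 z0) < ε / 2 ∧
      |p.1| ≤ |s0| + 1) ∧ ‖p.2 - z0‖ ≤ c := by
    rw [nhds_prod_eq]
    exact (hcont.and hs).prod_mk hz
  filter_upwards [hev.prod_mk h1] with y hy
  obtain ⟨hy1, ⟨hy2, hy3⟩, hy4⟩ := hy
  have h2 := hy1 y.2.2 (by rw [h00]; exact hy4) y.2.1 hy3
  calc dist (φ y.1 y.2.1 y.2.2) (φ0 s0 z0)
      ≤ dist (φ y.1 y.2.1 y.2.2) (φ0 y.2.1 z0) + dist (φ0 y.2.1 z0) (φ0 s0 z0) :=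
        dist_triangle _ _ _
    _ < ε / 2 + ε / 2 := by
        apply add_lt_add_of_le_of_lt _ hy2
        rw [dist_eq_norm]
        exact le_trans h2 (min_le_left _ _)
    _ = ε := by ring

end Pool.Agent.LQ
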