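import Pool.Agent.Work.MP_13b5d9_gt.LQ.StmtsQ

set_option autoImplicit false

/-!
# MP_13b5d9_gt, block LQ: item Pb (pointwise bounds by `B`)
-/

open MeasureTheory Set Filter Topology
open scoped ContDiff ENNReal
open Pool.Agent.Work.MP_c9f990_an.Al (IsFlow)

namespace Pool.Agent.LQ

open Pool.Agent.MLS Pool.Agent.EC Pool.Agent.DR

namespace IQPb

variable {m : ℕ}

/-- the derivative of the metric in the direction `e` -/
noncomputable def DG (g : Form (m + 1)) (y : E (m + 1)) : E (m + 1) →L[ℝ] E (m + 1) →L[ℝ] ℝ :=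
  fderiv ℝ g.val y eL

theorem dg_smooth (g : Form (m + 1)) : ContDiff ℝ ∞ (DG g) :=
  (g.smooth.fderiv_right (m := ∞) (by simp)).clm_apply contDiff_const

/-- the derivative of `DG` in a direction -/
noncomputable def DD (g : Form (m + 1)) (w : E (m + 1)) (y : E (m + 1)) :
    E (m + 1) →L[ℝ] E (m + 1) →L[ℝ] ℝ := fderiv ℝ (DG g) y w

theorem dd_smooth (g : Form (m + 1)) (w : E (m + 1)) : ContDiff ℝ ∞ (DD g w) :=
  ((dg_smooth g).fderiv_right (m := ∞) (by simp)).clm_apply contDiff_const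

theorem fderiv_eval {F : E (m + 1) → E (m + 1) →L[ℝ] E (m + 1) →L[ℝ] ℝ} (hF : ContDiff ℝ ∞ F)
    (x w u v : E (m + 1)) : fderiv ℝ (fun y => F y u v) x w = fderiv ℝ F x w u v := by
  have hd : HasFDerivAt F (fderiv ℝ F x) x := (hF.differentiable (by simp)).differentiableAt.hasFDerivAt
  have h1 : HasFDerivAt (fun y => F y u) ((fderiv ℝ F x).flip u) x := by
    have h := hd.clm_apply (hasFDerivAt_const u x)
    refine h.congr_fderiv ?_
    ext a
    simp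
  have h2 : HasFDerivAt (fun y => F y u v) (((fderiv ℝ F x).flip u).flip v) x := by
    have h := h1.clm_apply (hasFDerivAt_const v x)
    refine h.congr_fderiv ?_
    ext a
    simp
  rw [h2.fderiv]
  rfl

theorem symm_of {F : E (m + 1) → E (m + 1) →L[ℝ] E (m + 1) →L[ℝ] ℝ} (hF : ContDiff ℝ ∞ F)
    (hs : ∀ x u v, F x u v = F x v u) (x w u v : E (m + 1)) :
    fderiv ℝ F x w u v = fderiv ℝ F x w v u := by
  rw [← fderiv_eval hF, ← fderiv_eval hF]
  congr 2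
  funext y
  exact hs y u v

theorem zero_of {F : E (m + 1) → E (m + 1) →L[ℝ] E (m + 1) →L[ℝ] ℝ} (hF : ContDiff ℝ ∞ F)
    (h0 : ∀ x v, F x eL v = 0) (x w v : E (m + 1)) : fderiv ℝ F x w eL v = 0 := by
  rw [← fderiv_eval hF]
  have h : (fun y => F y eL v) = fun _ => 0 := funext fun y => h0 y v
  rw [h]
  simp

theorem dg_symm (g : Form (m + 1)) (x u v : E (m + 1)) : DG g x u v = DG g x v u :=
  symm_of g.smooth g.symm x eL u v

theorem dd_symm (g : Form (m + 1)) (w x u v : E (m + 1)) : DD g w x u v = DD g w x v u :=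
  symm_of (dg_smooth g) (dg_symm g) x w u v

/-- a symmetric form which vanishes on `e` may be evaluated at the horizontal parts -/
theorem hor {Q : E (m + 1) →L[ℝ] E (m + 1) →L[ℝ] ℝ} (hs : ∀ u v, Q u v = Q v u)
    (h0 : ∀ v, Q eL v = 0) (a b : ℝ) (u v : E (m + 1)) : Q (u - a • eL) (v - b • eL) = Q u v := by
  have h1 : ∀ v, Q v eL = 0 := fun v => by rw [hs]; exact h0 v
  simp [map_sub, h0, h1]

/-- the derivative of a form evaluated at a vector field along a curve -/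
theorem fderiv_quad {F : E (m + 1) → E (m + 1) →L[ℝ] E (m + 1) →L[ℝ] ℝ} (hF : ContDiff ℝ ∞ F)
    {v : W (m + 1) → E (m + 1)} {z : W (m + 1)} (hv : DifferentiableAt ℝ v z) (w : W (m + 1)) :
    fderiv ℝ (fun z => F z.1 (v z) (v z)) z w = fderiv ℝ F z.1 w.1 (v z) (v z) +
      F z.1 (fderiv ℝ v z w) (v z) + F z.1 (v z) (fderiv ℝ v z w) := by
  have hd : HasFDerivAt F (fderiv ℝ F z.1) z.1 :=
    (hF.differentiable (by simp)).differentiableAt.hasFDerivAt
  have h1 : HasFDerivAt (fun z : W (m + 1) => F z.1)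
      ((fderiv ℝ F z.1).comp (ContinuousLinearMap.fst ℝ (E (m + 1)) (E (m + 1)))) z := by
    have hf : HasFDerivAt (fun z : W (m + 1) => z.1)
        (ContinuousLinearMap.fst ℝ (E (m + 1)) (E (m + 1))) z := hasFDerivAt_fst
    exact HasFDerivAt.comp (g := F) z hd hf
  have h2 := (h1.clm_apply hv.hasFDerivAt).clm_apply hv.hasFDerivAt
  rw [h2.fderiv]
  simp
  ring

end IQPb

open IQPb in
theorem pr_Pb (h1 : StHP) (h2 : StDf) (h6 : StHd) (h7 : StBas) (h8 : StOp) : StPb := by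
  intro m g gh g0 φ M φ0 M0 hS K hK
  obtain ⟨C1, hC1, hP⟩ := h1 m g gh g0 φ M φ0 M0 hS K hK
  obtain ⟨C2, hC2, hD⟩ := h2 m g gh g0 φ M φ0 M0 hS K hK
  set Q : ℝ := C1 ^ 2 with hQ
  have hQ0 : 0 < Q := by positivity
  refine ⟨C1 ^ 2 + 2 * C1 * C2 + 3 * C1 ^ 2 + 3 * C1 ^ 3 + 1, by positivity, ?_⟩
  filter_upwards [hP, hD] with j hPj hDj
  intro B hB z hz
  obtain ⟨ha, hb, hX, hi, hih, hHh, hDv⟩ := hPj z hz
  obtain ⟨hvv, hHH, hXX⟩ := hDj B hB z hz
  have hB0 := hB.nonneg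
  obtain ⟨x, hxK, s, hx⟩ := hz.1
  have hr := hS.riem j
  have hbl := hS.blk j
  have hbas := h7 m (g j) hr hbl
  have hz0 : ∀ x v, DG (g j) x eL v = 0 := by
    intro x v
    have h := (hbas.2.2.2.2.2.2.2 x eL).2
    change fderiv ℝ (g j).val x eL eL v = 0
    rw [h]
    rfl
  have hD0 : ∀ w x v, DD (g j) w x eL v = 0 := fun w x v => zero_of (dg_smooth (g j)) hz0 x w v
  have hD20 : ∀ x w v, fderiv ℝ (DD (g j) eL) x w eL v = 0 := fun x w v =>
    zero_of (dd_smooth (g j) eL) (hD0 eL) x w v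
  -- the three bounds
  have b0 : ∀ u v, |DG (g j) z.1 u v| ≤ B * ‖u‖ * ‖v‖ := by
    intro u v
    rw [hx]
    exact hB.b0 x hxK s u v
  have b1 : ∀ w u v, |DD (g j) w z.1 u v| ≤ B * ‖u‖ * ‖v‖ * ‖w‖ := by
    intro w u v
    have h := hB.b1 x hxK s u v w
    rw [← hx, fderiv_eval (F := fun y => fderiv ℝ (g j).val y eL) (dg_smooth (g j))] at h
    exact h
  have he : ‖(eL : E (m + 1))‖ = 1 := by
    simp [eL, ee]
  have b1e : ∀ u v, |DD (g j) eL z.1 u v| ≤ B * ‖u‖ * ‖v‖ := by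
    intro u v
    have h := b1 eL u v
    rwa [he, mul_one] at h
  have b2 : ∀ w u v, |fderiv ℝ (DD (g j) eL) z.1 w u v| ≤ B * ‖u‖ * ‖v‖ * ‖w‖ := by
    intro w u v
    have h := hB.b2 x hxK s u v eL w
    have h3 : (fun y => fderiv ℝ (fun y' => fderiv ℝ (g j).val y' eL u v) y eL) =
        fun y => DD (g j) eL y u v := by
      funext y
      exact fderiv_eval (F := fun y => fderiv ℝ (g j).val y eL) (dg_smooth (g j)) y eL u v
    rw [h3, ← hx, fderiv_eval (dd_smooth (g j) eL), he, mul_one] at h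
    exact h
  -- horizontal parts
  set a : E (m + 1) := vel (g j) z - ta z • eL with hadef
  set b : E (m + 1) := vel (gh j) z - ta z • eL with hbdef
  have hg0 : ∀ u v, DG (g j) z.1 (u - ta z • eL) (v - ta z • eL) = DG (g j) z.1 u v := fun u v =>
    hor (dg_symm (g j) z.1) (hz0 z.1) _ _ u v
  have hgl : ∀ u v, DG (g j) z.1 (u - ta z • eL) v = DG (g j) z.1 u v := fun u v => by
    have h := hor (dg_symm (g j) z.1) (hz0 z.1) (ta z) 0 u v
    rwa [zero_smul, sub_zero] at h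
  have hgr : ∀ u v, DG (g j) z.1 u (v - ta z • eL) = DG (g j) z.1 u v := fun u v => by
    have h := hor (dg_symm (g j) z.1) (hz0 z.1) 0 (ta z) u v
    rwa [zero_smul, sub_zero] at h
  have hd0 : ∀ w u v, DD (g j) w z.1 (u - ta z • eL) (v - ta z • eL) = DD (g j) w z.1 u v :=
    fun w u v => hor (dd_symm (g j) w z.1) (hD0 w z.1) _ _ u v
  have hdl : ∀ w u v, DD (g j) w z.1 (u - ta z • eL) v = DD (g j) w z.1 u v := fun w u v => by
    have h := hor (dd_symm (g j) w z.1) (hD0 w z.1) (ta z) 0 u v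
    rwa [zero_smul, sub_zero] at h
  have hdr : ∀ w u v, DD (g j) w z.1 u (v - ta z • eL) = DD (g j) w z.1 u v := fun w u v => by
    have h := hor (dd_symm (g j) w z.1) (hD0 w z.1) 0 (ta z) u v
    rwa [zero_smul, sub_zero] at h
  have he0 : ∀ w u v, fderiv ℝ (DD (g j) eL) z.1 w (u - ta z • eL) (v - ta z • eL) =
      fderiv ℝ (DD (g j) eL) z.1 w u v := fun w u v =>
    hor (symm_of (dd_smooth (g j) eL) (dd_symm (g j) eL) z.1 w) (hD20 z.1 w) _ _ u v
  have hw1 : ∀ w : W (m + 1), ‖w.1‖ ≤ ‖w‖ := fun w => norm_fst_le w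
  -- formulas
  have fd2 : ∀ v, d2 (g j) z.1 v = DD (g j) eL z.1 v v := fun v =>
    fderiv_eval (F := fun y => fderiv ℝ (g j).val y eL) (dg_smooth (g j)) z.1 eL v v
  have fkq : kq (g j) (gh j) = fun z => DD (g j) eL z.1 (vel (gh j) z) (vel (gh j) z) := by
    funext z
    exact fderiv_eval (F := fun y => fderiv ℝ (g j).val y eL) (dg_smooth (g j)) z.1 eL _ _
  have fuq : uq (g j) (gh j) = fun z => DG (g j) z.1 (vel (gh j) z) (vel (gh j) z) := rfl
  have hvd : DifferentiableAt ℝ (vel (gh j)) z := by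
    have hop := h8 (m + 1) (gh j) (hS.riemh j)
    have hsm : ContDiff ℝ ∞ (vel (gh j)) :=
      (hop.2.2.2.2.2.2.1.comp contDiff_fst).clm_apply contDiff_snd
    exact (hsm.differentiable (by simp)).differentiableAt
  have na : ‖a‖ ≤ C1 := ha
  have nb : ‖b‖ ≤ C1 := hb
  have nab : ‖a - b‖ ≤ C2 * B := by
    have h : a - b = vel (g j) z - vel (gh j) z := by
      rw [hadef, hbdef]
      abel
    rw [h]
    exact hvv
  have q1 : |DD (g j) eL z.1 a a| ≤ C1 ^ 2 * B := by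
    refine (b1e a a).trans ?_
    nlinarith [mul_le_mul na na (norm_nonneg _) hC1.le, norm_nonneg a]
  have q2 : |DD (g j) eL z.1 b b| ≤ C1 ^ 2 * B := by
    refine (b1e b b).trans ?_
    nlinarith [mul_le_mul nb nb (norm_nonneg _) hC1.le, norm_nonneg b]
  have q3 : |DG (g j) z.1 b b| ≤ C1 ^ 2 * B := by
    refine (b0 b b).trans ?_
    nlinarith [mul_le_mul nb nb (norm_nonneg _) hC1.le, norm_nonneg b]
  have q4 : |DD (g j) eL z.1 a a - DD (g j) eL z.1 b b| ≤ 2 * C1 * C2 * B ^ 2 := by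
    have h : DD (g j) eL z.1 a a - DD (g j) eL z.1 b b =
        DD (g j) eL z.1 (a - b) a + DD (g j) eL z.1 b (a - b) := by
      simp [map_sub]
    rw [h]
    have e1 : |DD (g j) eL z.1 (a - b) a| ≤ B * (C2 * B) * C1 :=
      (b1e _ _).trans (mul_le_mul (mul_le_mul_of_nonneg_left nab hB0) na (norm_nonneg _)
        (by positivity))
    have e2 : |DD (g j) eL z.1 b (a - b)| ≤ B * C1 * (C2 * B) :=
      (b1e _ _).trans (mul_le_mul (mul_le_mul_of_nonneg_left nb hB0) nab (norm_nonneg _)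
        (by positivity))
    calc |DD (g j) eL z.1 (a - b) a + DD (g j) eL z.1 b (a - b)|
        ≤ |DD (g j) eL z.1 (a - b) a| + |DD (g j) eL z.1 b (a - b)| := abs_add_le _ _
      _ ≤ B * (C2 * B) * C1 + B * C1 * (C2 * B) := add_le_add e1 e2
      _ = 2 * C1 * C2 * B ^ 2 := by ring
  -- derivatives
  have du : ∀ w, |fderiv ℝ (uq (g j) (gh j)) z w| ≤ 3 * C1 ^ 2 * B * ‖w‖ := by
    intro w
    rw [fuq, fderiv_quad (dg_smooth (g j)) hvd w]
    set D : E (m + 1) := fderiv ℝ (vel (gh j)) z w with hDdef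
    have nD : ‖D‖ ≤ C1 * ‖w‖ := hDv w
    have t1 : |fderiv ℝ (DG (g j)) z.1 w.1 (vel (gh j) z) (vel (gh j) z)| ≤ C1 ^ 2 * B * ‖w‖ := by
      have h := hd0 w.1 (vel (gh j) z) (vel (gh j) z)
      change |DD (g j) w.1 z.1 (vel (gh j) z) (vel (gh j) z)| ≤ _
      rw [← h]
      refine (b1 w.1 b b).trans ?_
      calc B * ‖b‖ * ‖b‖ * ‖w.1‖ ≤ B * C1 * C1 * ‖w‖ := by gcongr; exact hw1 w
        _ = C1 ^ 2 * B * ‖w‖ := by ring
    have t2 : |DG (g j) z.1 D (vel (gh j) z)| ≤ C1 ^ 2 * B * ‖w‖ := by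
      rw [← hgr]
      refine (b0 D b).trans ?_
      calc B * ‖D‖ * ‖b‖ ≤ B * (C1 * ‖w‖) * C1 := by gcongr
        _ = C1 ^ 2 * B * ‖w‖ := by ring
    have t3 : |DG (g j) z.1 (vel (gh j) z) D| ≤ C1 ^ 2 * B * ‖w‖ := by
      rw [dg_symm]
      exact t2
    calc _ ≤ |fderiv ℝ (DG (g j)) z.1 w.1 (vel (gh j) z) (vel (gh j) z)| +
          |DG (g j) z.1 D (vel (gh j) z)| + |DG (g j) z.1 (vel (gh j) z) D| :=
        abs_add_three _ _ _
      _ ≤ C1 ^ 2 * B * ‖w‖ + C1 ^ 2 * B * ‖w‖ + C1 ^ 2 * B * ‖w‖ :=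
        add_le_add (add_le_add t1 t2) t3
      _ = 3 * C1 ^ 2 * B * ‖w‖ := by ring
  have dk : ∀ w, |fderiv ℝ (kq (g j) (gh j)) z w| ≤ 3 * C1 ^ 2 * B * ‖w‖ := by
    intro w
    rw [fkq, fderiv_quad (dd_smooth (g j) eL) hvd w]
    set D : E (m + 1) := fderiv ℝ (vel (gh j)) z w with hDdef
    have nD : ‖D‖ ≤ C1 * ‖w‖ := hDv w
    have t1 : |fderiv ℝ (DD (g j) eL) z.1 w.1 (vel (gh j) z) (vel (gh j) z)| ≤
        C1 ^ 2 * B * ‖w‖ := by
      rw [← he0 w.1 (vel (gh j) z) (vel (gh j) z)]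
      refine (b2 w.1 b b).trans ?_
      calc B * ‖b‖ * ‖b‖ * ‖w.1‖ ≤ B * C1 * C1 * ‖w‖ := by gcongr; exact hw1 w
        _ = C1 ^ 2 * B * ‖w‖ := by ring
    have t2 : |DD (g j) eL z.1 D (vel (gh j) z)| ≤ C1 ^ 2 * B * ‖w‖ := by
      rw [← hdr]
      refine (b1e D b).trans ?_
      calc B * ‖D‖ * ‖b‖ ≤ B * (C1 * ‖w‖) * C1 := by gcongr
        _ = C1 ^ 2 * B * ‖w‖ := by ring
    have t3 : |DD (g j) eL z.1 (vel (gh j) z) D| ≤ C1 ^ 2 * B * ‖w‖ := by
      rw [dd_symm]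
      exact t2
    calc _ ≤ |fderiv ℝ (DD (g j) eL) z.1 w.1 (vel (gh j) z) (vel (gh j) z)| +
          |DD (g j) eL z.1 D (vel (gh j) z)| + |DD (g j) eL z.1 (vel (gh j) z) D| :=
        abs_add_three _ _ _
      _ ≤ C1 ^ 2 * B * ‖w‖ + C1 ^ 2 * B * ‖w‖ + C1 ^ 2 * B * ‖w‖ :=
        add_le_add (add_le_add t1 t2) t3
      _ = 3 * C1 ^ 2 * B * ‖w‖ := by ring
  -- the flow
  have hY : ∀ f : W (m + 1) → ℝ, XX (gh j) f z - ta z * De f z =
      fderiv ℝ f z (XH (Hm (gh j)) z - (ta z • eL, 0)) := by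
    intro f
    have h : (ta z • (eL : E (m + 1)), (0 : E (m + 1))) =
        ta z • ((eL : E (m + 1)), (0 : E (m + 1))) := by
      simp
    rw [map_sub, h, map_smul, smul_eq_mul]
    rfl
  have nY : ‖XH (Hm (gh j)) z - (ta z • eL, 0)‖ ≤ C1 := by
    rw [Prod.norm_def]
    refine max_le ?_ ?_
    · change ‖(XH (Hm (gh j)) z).1 - ta z • eL‖ ≤ C1
      rw [(h6 (m + 1) (gh j) (hS.riemh j) z).1]
      exact hb
    · change ‖(XH (Hm (gh j)) z).2 - 0‖ ≤ C1
      rw [sub_zero]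
      exact hX
  have hBC : ∀ c : ℝ, c ≤ C1 ^ 2 + 2 * C1 * C2 + 3 * C1 ^ 2 + 3 * C1 ^ 3 + 1 →
      c * B ≤ (C1 ^ 2 + 2 * C1 * C2 + 3 * C1 ^ 2 + 3 * C1 ^ 3 + 1) * B :=
    fun c hc => mul_le_mul_of_nonneg_right hc hB0
  have p1 : 0 < C1 ^ 2 := by positivity
  have p2 : 0 < C1 ^ 3 := by positivity
  have p3 : 0 < C1 * C2 := by positivity
  refine ⟨?_, ?_, ?_, ?_, ?_, ?_, ?_, ?_⟩
  · have h : dd2 (g j) z = DD (g j) eL z.1 a a := by
      rw [hd0 eL]
      exact fd2 _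
    rw [h]
    exact q1.trans (hBC _ (by nlinarith))
  · have h : kq (g j) (gh j) z = DD (g j) eL z.1 b b := by
      rw [hd0 eL, fkq]
    rw [h]
    exact q2.trans (hBC _ (by nlinarith))
  · have h : uq (g j) (gh j) z = DG (g j) z.1 b b := by
      rw [hg0, fuq]
    rw [h]
    exact q3.trans (hBC _ (by nlinarith))
  · have h : dd2 (g j) z = DD (g j) eL z.1 a a := by
      rw [hd0 eL]
      exact fd2 _
    have h' : kq (g j) (gh j) z = DD (g j) eL z.1 b b := by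
      rw [hd0 eL, fkq]
    rw [h, h']
    exact q4.trans (mul_le_mul_of_nonneg_right (by nlinarith) (by positivity))
  · intro w
    exact (du w).trans (mul_le_mul_of_nonneg_right (hBC _ (by nlinarith)) (norm_nonneg _))
  · intro w
    exact (dk w).trans (mul_le_mul_of_nonneg_right (hBC _ (by nlinarith)) (norm_nonneg _))
  · rw [hY]
    refine (du _).trans ?_
    calc 3 * C1 ^ 2 * B * ‖XH (Hm (gh j)) z - (ta z • eL, 0)‖ ≤ 3 * C1 ^ 2 * B * C1 := by gcongr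
      _ = 3 * C1 ^ 3 * B := by ring
      _ ≤ _ := hBC _ (by nlinarith)
  · rw [hY]
    refine (dk _).trans ?_
    calc 3 * C1 ^ 2 * B * ‖XH (Hm (gh j)) z - (ta z • eL, 0)‖ ≤ 3 * C1 ^ 2 * B * C1 := by gcongr
      _ = 3 * C1 ^ 3 * B := by ring
      _ ≤ _ := hBC _ (by nlinarith)

end Pool.Agent.LQ
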