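import Pool.Agent.Work.MP_13b5d9_gt.LQ.StmtsQ

set_option autoImplicit false

/-!
# MP_13b5d9_gt, block LQ, item Per: periodicity of the metric
-/

namespace Pool.Agent.LQ

open Pool.Agent.MLS Pool.Agent.EC Pool.Agent.DR

theorem pr_Per : StPer := by
  intro m G _ _ g hI hz x
  obtain ⟨z, hz⟩ := hz
  have h1 : (fun y : E (m + 1) => z • y) = fun y => y + eL := funext hz
  have h2 : ∀ v : E (m + 1), dac z x v = v := by
    intro v
    unfold dac
    rw [h1, fderiv_add_const, fderiv_fun_id]
    rfl
  ext u v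
  have h3 := hI z x u v
  rw [h2, h2, hz] at h3
  exact h3

end Pool.Agent.LQ
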