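import Pool.Agent.Work.MP_13b5d9_gt.LQ.StmtsQ

set_option autoImplicit false

/-!
# MP_13b5d9_gt, block LQ, item Phi: the test function is admissible
-/

open MeasureTheory Set Filter Topology
open scoped ContDiff ENNReal
open Pool.Agent.Work.MP_c9f990_an.Al (IsFlow)

namespace Pool.Agent.LQ

open Pool.Agent.MLS Pool.Agent.EC Pool.Agent.DR

namespace IQPhi

theorem bet_smooth : ContDiff ℝ ∞ bet := by
  unfold bet
  have hp : ∀ x : ℝ, 0 < 1 + x ^ 2 := fun x => by positivity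
  refine ContDiff.inv (ContDiff.sqrt (contDiff_const.add (contDiff_id.pow 2)) fun x => ?_)
    fun x => ?_
  · exact (hp x).ne'
  · exact (Real.sqrt_pos.2 (hp x)).ne'

/-- comparison of the energies at fixed momentum -/
theorem cmp (hOp : StOp) {n : ℕ} (g g' : Form n) (hg : Riem g) (hg' : Riem g') (A : ℝ)
    (hA : 0 < A) (h : ∀ x v, nrm g x v ≤ A * nrm g' x v) (z : W n) :
    Hm g' z ≤ A ^ 2 * Hm g z := by
  obtain ⟨-, o2, o3, o4, -, -, -, -, o9⟩ := hOp n g hg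
  obtain ⟨-, o2', o3', o4', -, -, -, -, o9'⟩ := hOp n g' hg'
  set v := vel g z with hv
  set v' := vel g' z with hv'
  have e1 : g.val z.1 v v' = inner ℝ z.2 v' := by
    rw [← o2, hv, vel, o4]
  have e2 : g'.val z.1 v' v' = inner ℝ z.2 v' := by
    rw [← o2', hv', vel, o4']
  have e3 : Hm g z = 1 / 2 * g.val z.1 v v := o9 z
  have e4 : Hm g' z = 1 / 2 * g'.val z.1 v' v' := o9' z
  have e5 : g.val z.1 v' v' ≤ A ^ 2 * g'.val z.1 v' v' := by
    have h1 := h z.1 v'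
    have h2 : 0 ≤ nrm g z.1 v' := Real.sqrt_nonneg _
    have h3 : nrm g z.1 v' ^ 2 ≤ (A * nrm g' z.1 v') ^ 2 := pow_le_pow_left₀ h2 h1 2
    rw [mul_pow, nrm, nrm, Real.sq_sqrt (g.nonneg _ _), Real.sq_sqrt (g'.nonneg _ _)] at h3
    exact h3
  set t : ℝ := 1 / A ^ 2 with ht
  have hA2 : 0 < A ^ 2 := by positivity
  have hn := g.nonneg z.1 (v - t • v')
  have e6 : g.val z.1 (v - t • v') (v - t • v') =
      g.val z.1 v v - 2 * t * g.val z.1 v v' + t ^ 2 * g.val z.1 v' v' := by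
    simp only [map_sub, map_smul, ContinuousLinearMap.sub_apply, ContinuousLinearMap.smul_apply,
      smul_eq_mul]
    rw [g.symm z.1 v' v]
    ring
  rw [e6, e1, ← e2] at hn
  have e7 : t ^ 2 * g.val z.1 v' v' ≤ t ^ 2 * (A ^ 2 * g'.val z.1 v' v') :=
    mul_le_mul_of_nonneg_left e5 (sq_nonneg t)
  have e8 : t * A ^ 2 = 1 := by rw [ht]; field_simp
  have e9 : t ^ 2 * (A ^ 2 * g'.val z.1 v' v') = t * g'.val z.1 v' v' := by
    calc t ^ 2 * (A ^ 2 * g'.val z.1 v' v') = t * (t * A ^ 2) * g'.val z.1 v' v' := by ring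
      _ = t * g'.val z.1 v' v' := by rw [e8, mul_one]
  have e10 : t * g'.val z.1 v' v' ≤ g.val z.1 v v := by linarith
  have e11 : A ^ 2 * (t * g'.val z.1 v' v') ≤ A ^ 2 * g.val z.1 v v :=
    mul_le_mul_of_nonneg_left e10 hA2.le
  have e12 : A ^ 2 * (t * g'.val z.1 v' v') = g'.val z.1 v' v' := by
    calc A ^ 2 * (t * g'.val z.1 v' v') = (t * A ^ 2) * g'.val z.1 v' v' := by ring
      _ = g'.val z.1 v' v' := by rw [e8, one_mul]
  rw [e3, e4]
  linarith

end IQPhi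

open IQPhi in
theorem pr_Phi (h1 : StWt) (h2 : StXt) (h3 : StTn) (h4 : StDeu) (h5 : StEqF) (h6 : StLft)
    (h7 : StLftA) (h9 : StOp) (h11 : StCmp) : StPhi := by
  intro m G _ _ hcoc hvert g gh φ M hg hI hB hper hgh hIh hBh hTh hfl ψ ϑ w0 ψ1 θ1 hbmp T D hT hD
  obtain ⟨x1, x2, -, -, -, -, -, -, x9, -⟩ := h2 m g hg hB
  obtain ⟨-, -, -, -, -, -, -, -, x9', -⟩ := h2 m gh hgh hBh
  obtain ⟨-, w2, -, w4, -, -, -, -, w9⟩ :=
    h1 m G hcoc hvert gh φ M hgh hIh hBh hTh hfl ψ ϑ w0 ψ1 θ1 hbmp T hT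
  obtain ⟨-, u2, -, -, -, -, u7⟩ := h4 m g gh hg hB hgh hBh hTh hper
  obtain ⟨-, hk⟩ := u7 G hcoc hvert hI hIh
  obtain ⟨l1, -, -, -, l5⟩ := h6 m G hcoc hvert g gh hg hgh hI hIh hB
  have hHm : ∀ (a : G) (z : W (m + 1)), Hm g (lft g a z) = Hm g z :=
    (h7 (m + 1) G hcoc g hg hI).2.1
  have heq := h5 (m + 1) G hcoc gh hgh hIh φ M hfl
  obtain ⟨t1, -, -⟩ := h3 (W (m + 1)) (XH (Hm gh)) φ M hfl (kq g gh) D
    (u2.of_le (by exact_mod_cast le_top)) hD
  have hHh : ∀ (a : G) (z : W (m + 1)), Hh g (lft g a z) = Hh g z := by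
    intro a z
    rw [Hh, Hh, hHm, l5]
  refine ⟨?_, ?_, fun a z => ?_, fun a z => ?_, ?_⟩
  · have e1 : ContDiff ℝ ∞ (phi0 g ψ ϑ T) := by
      unfold phi0
      exact ((hbmp.psi.smooth.comp (x1.div_const T)).mul (bet_smooth.comp x1)).mul
        (hbmp.th.smooth.comp x2)
    exact e1.of_le (by exact_mod_cast le_top)
  · unfold phi1
    exact (w2.of_le (by exact_mod_cast le_top)).mul t1
  · rw [phi0, phi0, l5, hHh]
  · rw [phi1, phi1, ← l1, w4 a z]
    congr 1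
    rw [tnt, tnt]
    refine intervalIntegral.integral_congr fun s _ => ?_
    change (D - |s|) * kq g gh (φ s (lft gh a z)) = (D - |s|) * kq g gh (φ s z)
    rw [heq, hk]
  · obtain ⟨A, hA, hA', -⟩ := h11 (m + 1) G hcoc g gh hg hI hIh
    obtain ⟨A2, hA2, hA2', -⟩ := h11 (m + 1) G hcoc gh g hgh hIh hI
    -- `hA' : nrm gh ≤ A nrm g`, `hA2' : nrm g ≤ A2 nrm gh`
    have c1 : ∀ z, Hm g z ≤ A ^ 2 * Hm gh z := cmp h9 gh g hgh hg A hA hA'
    have c2 : ∀ z, Hm gh z ≤ A2 ^ 2 * Hm g z := cmp h9 g gh hg hgh A2 hA2 hA2'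
    have p2 : 0 < A2 ^ 2 := by positivity
    refine ⟨min (1 / 8) (1 / 8 / A2 ^ 2), max (3 / 8 + T ^ 2 / 2) (A ^ 2 * (3 / 8 + T ^ 2 / 2)),
      lt_min (by norm_num) (by positivity), fun z hz => ?_⟩
    have hta : ∀ z : W (m + 1), |ta z| ≤ T → 0 ≤ ta z ^ 2 / 2 ∧ ta z ^ 2 / 2 ≤ T ^ 2 / 2 := by
      intro z h
      have := sq_le_sq' (neg_le_of_abs_le h) (le_of_abs_le h)
      exact ⟨by positivity, by linarith⟩
    by_cases h0 : phi0 g ψ ϑ T z = 0
    · have h0' : phi1 g gh ψ ϑ T D φ z ≠ 0 := by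
        intro h
        apply hz
        rw [phi, h0, h]
        ring
      have h0'' : cf gh ψ ϑ T z ≠ 0 := left_ne_zero_of_mul h0'
      obtain ⟨q1, q2, q3⟩ := w9 z h0''
      obtain ⟨r1, r2⟩ := hta z q3
      have s1 := x9' z
      have s2 : 1 / 8 ≤ Hm gh z := by linarith
      have s3 : Hm gh z ≤ 3 / 8 + T ^ 2 / 2 := by linarith
      constructor
      · refine le_trans (min_le_right _ _) ?_
        rw [div_le_iff₀ p2]
        have := c2 z
        linarith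
      · refine le_trans ?_ (le_max_right _ _)
        exact (c1 z).trans (mul_le_mul_of_nonneg_left s3 (by positivity))
    · have k1 : ϑ (Hh g z) ≠ 0 := right_ne_zero_of_mul h0
      have k2 : ψ (ta z / T) ≠ 0 := left_ne_zero_of_mul (left_ne_zero_of_mul h0)
      obtain ⟨q1, q2⟩ := hbmp.th.supp _ k1
      obtain ⟨q3, q4⟩ := hbmp.psi.supp _ k2
      have q5 : |ta z| ≤ T := by
        rw [abs_le]
        rw [le_div_iff₀ hT] at q3
        rw [div_le_iff₀ hT] at q4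
        constructor <;> linarith
      obtain ⟨r1, r2⟩ := hta z q5
      have s1 := x9 z
      constructor
      · refine le_trans (min_le_left _ _) ?_
        linarith
      · refine le_trans ?_ (le_max_left _ _)
        linarith

end Pool.Agent.LQ
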