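import Pool.Agent.Work.MP_13b5d9_gt.LQ.StmtsQ

set_option autoImplicit false

/-!
# MP_13b5d9_gt, block LQ, item Pin: vertical means of smooth functions are smooth
-/

open MeasureTheory Set Filter Topology
open scoped ContDiff ENNReal

namespace Pool.Agent.LQ

open Pool.Agent.MLS Pool.Agent.EC Pool.Agent.DR

namespace IQPin

theorem cont_aux {V Q : Type} [NormedAddCommGroup V] [NormedSpace ℝ V] [NormedAddCommGroup Q]
    {F : V → Q} (hF : Continuous F) (e : V) :
    Continuous (Function.uncurry fun (x : V) (s : ℝ) => F (x + s • e)) :=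
  hF.comp (continuous_fst.add (continuous_snd.smul continuous_const))

theorem mean_deriv {V Q : Type} [NormedAddCommGroup V] [NormedSpace ℝ V] [ProperSpace V]
    [NormedAddCommGroup Q] [NormedSpace ℝ Q] {F : V → Q} (hF : ContDiff ℝ 1 F) (e z₀ : V) :
    HasFDerivAt (fun x : V => ∫ s in (0 : ℝ)..1, F (x + s • e))
      (∫ s in (0 : ℝ)..1, fderiv ℝ F (z₀ + s • e)) z₀ := by
  have hF1 : Continuous (fderiv ℝ F) := hF.continuous_fderiv (by simp)
  have hu := cont_aux hF.continuous e
  have hu' := cont_aux hF1 e
  have hK : IsCompact (Metric.closedBall z₀ 1 ×ˢ Set.uIcc (0 : ℝ) 1) :=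
    (isCompact_closedBall z₀ 1).prod isCompact_uIcc
  obtain ⟨C, hC⟩ := hK.exists_bound_of_continuousOn hu'.continuousOn
  have hFs : ∀ z : V, Continuous fun s : ℝ => F (z + s • e) := fun z =>
    hu.comp (continuous_const.prodMk continuous_id)
  have hFs' : ∀ z : V, Continuous fun s : ℝ => fderiv ℝ F (z + s • e) := fun z =>
    hu'.comp (continuous_const.prodMk continuous_id)
  apply intervalIntegral.hasFDerivAt_integral_of_dominated_of_fderiv_le
    (F' := fun x s => fderiv ℝ F (x + s • e))
    (s := Metric.closedBall z₀ 1) (bound := fun _ => C) (Metric.closedBall_mem_nhds z₀ one_pos)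
  · exact Filter.Eventually.of_forall fun z => (hFs z).aestronglyMeasurable
  · exact (hFs z₀).intervalIntegrable 0 1
  · exact (hFs' z₀).aestronglyMeasurable
  · refine Filter.Eventually.of_forall fun t ht z hz => ?_
    exact hC (z, t) ⟨hz, Set.uIoc_subset_uIcc ht⟩
  · exact intervalIntegrable_const
  · refine Filter.Eventually.of_forall fun t _ z _ => ?_
    have h1 : HasFDerivAt F (fderiv ℝ F (z + t • e)) (z + t • e) :=
      (hF.differentiable (by simp) _).hasFDerivAt
    have h2 : HasFDerivAt (fun x : V => x + t • e) (ContinuousLinearMap.id ℝ V) z :=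
      (hasFDerivAt_id z).add_const _
    have h3 := h1.comp z h2
    rw [ContinuousLinearMap.comp_id] at h3
    exact h3

theorem mean_smooth (n : ℕ) : ∀ {V Q : Type} [NormedAddCommGroup V] [NormedSpace ℝ V]
    [ProperSpace V] [NormedAddCommGroup Q] [NormedSpace ℝ Q] {F : V → Q} (_ : ContDiff ℝ n F)
    (e : V), ContDiff ℝ n (fun x : V => ∫ s in (0 : ℝ)..1, F (x + s • e)) := by
  induction n with
  | zero =>
    intro V Q _ _ _ _ _ F hF e
    rw [Nat.cast_zero, contDiff_zero] at hF ⊢
    exact intervalIntegral.continuous_parametric_intervalIntegral_of_continuous'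
      (cont_aux hF e) 0 1
  | succ n ih =>
    intro V Q _ _ _ _ _ F hF e
    have h1 : ContDiff ℝ 1 F := hF.of_le (by
      rw [Nat.cast_add, Nat.cast_one]
      exact le_add_self)
    rw [Nat.cast_add, Nat.cast_one] at hF ⊢
    rw [contDiff_succ_iff_fderiv] at hF ⊢
    refine ⟨fun z => (mean_deriv h1 e z).differentiableAt, fun h => ?_, ?_⟩
    · exact absurd h (by simp)
    · have h2 : fderiv ℝ (fun x : V => ∫ s in (0 : ℝ)..1, F (x + s • e)) =
          fun z => ∫ s in (0 : ℝ)..1, fderiv ℝ F (z + s • e) := by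
        funext z
        exact (mean_deriv h1 e z).fderiv
      rw [h2]
      exact ih hF.2.2 e

end IQPin

theorem pr_Pin : StPin := by
  intro m F hF
  have h1 : ContDiff ℝ 1 F := hF.of_le (by exact_mod_cast le_top)
  refine ⟨?_, fun x w => ?_⟩
  · rw [contDiff_infty]
    intro n
    exact IQPin.mean_smooth n (hF.of_le (by exact_mod_cast le_top)) eL
  · rw [(IQPin.mean_deriv h1 eL x).fderiv]
    refine ContinuousLinearMap.intervalIntegral_apply ?_ w
    have hF1 : Continuous (fderiv ℝ F) := h1.continuous_fderiv (by simp)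
    exact ((IQPin.cont_aux hF1 eL).comp (continuous_const.prodMk continuous_id)).intervalIntegrable
      0 1

end Pool.Agent.LQ
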