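import Mathlib
import Pool.Agent.Work.MP_13b5d9_gt.LQ.StmtsQ
import Pool.Agent.Work.MP_13b5d9_gt.LQ.Q_A0

set_option autoImplicit false

/-!
# MP_13b5d9_gt, block LQ, item Pt: pointwise upper bound of the second variation
-/

open MeasureTheory Set Filter Topology
open scoped ContDiff ENNReal
open Pool.Agent.Work.MP_c9f990_an.Al (IsFlow)

namespace Pool.Agent.LQ

open Pool.Agent.MLS Pool.Agent.EC Pool.Agent.DR

namespace IQPt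

theorem nbd_mono {m : ℕ} {g : Form (m + 1)} {K K' : Set (E (m + 1))} (h : K ⊆ K') {B : ℝ}
    (hN : NBd g K' B) : NBd g K B :=
  ⟨hN.nonneg, fun x hx => hN.b0 x (h hx), fun x hx => hN.b1 x (h hx), fun x hx => hN.b2 x (h hx)⟩

/-- the term with the second derivative of the metric -/
theorem term1 {a p d2 w tn k β B C C2 T : ℝ} (hB0 : 0 ≤ B) (hC : 0 ≤ C)
    (hC2 : 0 ≤ C2) (hT : 2 ≤ T) (hβT : β⁻¹ ≤ 2 * T) (hp : |p| ≤ C * B * β⁻¹)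
    (hd2 : |d2| ≤ C * B) (hap : |a * p * d2 - w * (tn * k)| ≤ C2 * B ^ 3) :
    1 / 4 * (a - 1 / 16 * p) ^ 2 * d2 ≤
      1 / 4 * (a ^ 2 * d2) - 1 / 32 * (w * (tn * k)) + (C2 + C ^ 3) * (T ^ 2 * B ^ 3) := by
  have hB3 : 0 ≤ B ^ 3 := by positivity
  have hT0 : 0 ≤ T := by linarith
  have e1 : p ^ 2 * d2 ≤ 4 * C ^ 3 * (T ^ 2 * B ^ 3) := by
    have h1 : |p| ≤ C * B * (2 * T) := hp.trans (by gcongr)
    calc p ^ 2 * d2 ≤ |p| ^ 2 * |d2| := by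
          rw [sq_abs]
          exact mul_le_mul_of_nonneg_left (le_abs_self _) (sq_nonneg _)
      _ ≤ (C * B * (2 * T)) ^ 2 * (C * B) := by gcongr
      _ = 4 * C ^ 3 * (T ^ 2 * B ^ 3) := by ring
  have e2 := (abs_le.1 hap).1
  have e3 : C2 * B ^ 3 ≤ C2 * (T ^ 2 * B ^ 3) := by
    refine mul_le_mul_of_nonneg_left ?_ hC2
    have : 1 ≤ T ^ 2 := by nlinarith
    nlinarith
  have e4 : 0 ≤ C2 * (T ^ 2 * B ^ 3) := by positivity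
  have e5 : 0 ≤ C ^ 3 * (T ^ 2 * B ^ 3) := by positivity
  have e6 : 1 / 4 * (a - 1 / 16 * p) ^ 2 * d2 =
      1 / 4 * (a ^ 2 * d2) - 1 / 32 * (a * p * d2) + 1 / 1024 * (p ^ 2 * d2) := by ring
  rw [e6]
  linarith

/-- the term with the square of the derivative along the flow -/
theorem term2 {a0 cf dt r w β B N C C0 T : ℝ} (hβ0 : 0 < β) (hB0 : 0 ≤ B) (hB1 : B ≤ 1)
    (hT : 2 ≤ T) (hw : β ^ 2 * cf ^ 2 = w) (ha0 : |a0| ≤ C0 * N)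
    (hr : |r| ≤ C * B ^ 2 * β⁻¹) :
    1 / 2 * β ^ 2 * (a0 - 1 / 16 * (cf * dt + r)) ^ 2 ≤
      3 / 1024 * (w * dt ^ 2) + 3 * C0 ^ 2 * (β ^ 2 * N ^ 2) + C ^ 2 * (T ^ 2 * B ^ 3) := by
  have h1 : (a0 - 1 / 16 * (cf * dt + r)) ^ 2 ≤
      3 / 2 * (1 / 256) * (cf * dt) ^ 2 + 6 * a0 ^ 2 + 6 * (1 / 256) * r ^ 2 := by
    nlinarith [sq_nonneg (1 / 16 * (cf * dt) + 2 * (a0 - 1 / 16 * r)),
      sq_nonneg (a0 + 1 / 16 * r)]
  have h2 : a0 ^ 2 ≤ C0 ^ 2 * N ^ 2 := by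
    rw [← mul_pow, ← sq_abs]
    exact pow_le_pow_left₀ (abs_nonneg _) ha0 2
  have h3 : β ^ 2 * r ^ 2 ≤ C ^ 2 * (T ^ 2 * B ^ 3) := by
    have h4 : r ^ 2 ≤ (C * B ^ 2 * β⁻¹) ^ 2 := by
      rw [← sq_abs r]
      exact pow_le_pow_left₀ (abs_nonneg _) hr 2
    calc β ^ 2 * r ^ 2 ≤ β ^ 2 * (C * B ^ 2 * β⁻¹) ^ 2 := by gcongr
      _ = C ^ 2 * (B * B ^ 3) := by
          field_simp
      _ ≤ C ^ 2 * (T ^ 2 * B ^ 3) := by
          have : B ≤ T ^ 2 := by nlinarith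
          gcongr
  have hβ2 : 0 ≤ β ^ 2 := sq_nonneg _
  calc 1 / 2 * β ^ 2 * (a0 - 1 / 16 * (cf * dt + r)) ^ 2
      ≤ 1 / 2 * β ^ 2 * (3 / 2 * (1 / 256) * (cf * dt) ^ 2 + 6 * (C0 ^ 2 * N ^ 2) +
        6 * (1 / 256) * r ^ 2) := by gcongr; linarith
    _ = 3 / 1024 * ((β ^ 2 * cf ^ 2) * dt ^ 2) + 3 * C0 ^ 2 * (β ^ 2 * N ^ 2) +
        3 / 256 * (β ^ 2 * r ^ 2) := by ring
    _ ≤ 3 / 1024 * (w * dt ^ 2) + 3 * C0 ^ 2 * (β ^ 2 * N ^ 2) + C ^ 2 * (T ^ 2 * B ^ 3) := by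
      rw [hw]
      have : 0 ≤ C ^ 2 * (T ^ 2 * B ^ 3) := by positivity
      linarith

/-- the mixed term -/
theorem term3 {a a0 p cf dt r w d1 β B N C C0 Cp T q : ℝ} (hβ0 : 0 < β) (hβ1 : β ≤ 1)
    (hB0 : 0 ≤ B) (hB1 : B ≤ 1) (hN0 : 0 ≤ N) (hNB : N ≤ B)
    (hC : 0 ≤ C) (hC0 : 0 ≤ C0) (hCp : 0 ≤ Cp)
    (hT : 2 ≤ T) (hβT : β⁻¹ ≤ 2 * T) (hw : β ^ 2 * cf ^ 2 = w) (hq : |q| ≤ 4 * β)
    (ha : |a| ≤ β) (ha0 : |a0| ≤ C0 * N) (hp : |p| ≤ C * B * β⁻¹)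
    (hr : |r| ≤ C * B ^ 2 * β⁻¹) (hcf : |cf| ≤ β⁻¹) (hdt : |dt| ≤ C * B) (hd1 : |d1| ≤ Cp * N) :
    |q * ((a - 1 / 16 * p) * d1 * (a0 - 1 / 16 * (cf * dt + r)))| ≤
      1 / 1024 * (w * dt ^ 2) + (4 * Cp * C0 + 16 * Cp ^ 2) * (β ^ 2 * N ^ 2) +
        (4 * Cp * C + 4 * C * Cp * (C0 + 2 * C)) * (T ^ 2 * B ^ 3) := by
  have hT0 : 0 ≤ T := by linarith
  have hβi : 0 < β⁻¹ := inv_pos.2 hβ0
  have hbb : β * β⁻¹ = 1 := mul_inv_cancel₀ hβ0.ne'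
  set X := a0 - 1 / 16 * (cf * dt + r) with hX
  have hX1 : |X| ≤ |a0| + 1 / 16 * |cf * dt| + 1 / 16 * |r| := by
    have e1 : X = a0 + -(1 / 16 * (cf * dt)) + -(1 / 16 * r) := by rw [hX]; ring
    rw [e1]
    refine (abs_add_three _ _ _).trans ?_
    rw [abs_neg, abs_neg, abs_mul (1 / 16) (cf * dt), abs_mul (1 / 16) r,
      abs_of_pos (by norm_num : (0 : ℝ) < 1 / 16)]
  have hcd : |cf * dt| ≤ C * B * β⁻¹ := by
    rw [abs_mul]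
    calc |cf| * |dt| ≤ β⁻¹ * (C * B) := mul_le_mul hcf hdt (abs_nonneg _) hβi.le
      _ = C * B * β⁻¹ := by ring
  -- the bound of the derivative
  have hX2 : |X| ≤ (C0 + 2 * C) * (2 * T) * B := by
    have h1 : (1 : ℝ) ≤ 2 * T := by linarith
    have h2 : |a0| ≤ C0 * (2 * T) * B := by
      calc |a0| ≤ C0 * N := ha0
        _ ≤ C0 * B := by gcongr
        _ = C0 * 1 * B := by ring
        _ ≤ C0 * (2 * T) * B := by gcongr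
    have h3 : |cf * dt| ≤ C * (2 * T) * B := by
      calc |cf * dt| ≤ C * B * β⁻¹ := hcd
        _ ≤ C * B * (2 * T) := by gcongr
        _ = C * (2 * T) * B := by ring
    have h4 : |r| ≤ C * (2 * T) * B := by
      calc |r| ≤ C * B ^ 2 * β⁻¹ := hr
        _ = C * (B * B) * β⁻¹ := by ring
        _ ≤ C * (B * 1) * (2 * T) := by gcongr
        _ = C * (2 * T) * B := by ring
    have h5 : 0 ≤ C * (2 * T) * B := by positivity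
    calc |X| ≤ |a0| + 1 / 16 * |cf * dt| + 1 / 16 * |r| := hX1
      _ ≤ C0 * (2 * T) * B + C * (2 * T) * B + C * (2 * T) * B := by linarith [abs_nonneg r]
      _ = (C0 + 2 * C) * (2 * T) * B := by ring
  have hsplit : |q * ((a - 1 / 16 * p) * d1 * X)| ≤
      4 * β * (β * (Cp * N) * (|a0| + 1 / 16 * |cf * dt| + 1 / 16 * |r|)) +
      4 * β * (1 / 16 * |p| * (Cp * N) * |X|) := by
    have e1 : |a - 1 / 16 * p| ≤ β + 1 / 16 * |p| := by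
      refine (abs_sub _ _).trans ?_
      rw [abs_mul, abs_of_pos (by norm_num : (0 : ℝ) < 1 / 16)]
      linarith
    calc |q * ((a - 1 / 16 * p) * d1 * X)| = |q| * (|a - 1 / 16 * p| * |d1| * |X|) := by
          rw [abs_mul, abs_mul, abs_mul]
      _ ≤ 4 * β * ((β + 1 / 16 * |p|) * (Cp * N) * |X|) := by gcongr
      _ = 4 * β * (β * (Cp * N) * |X|) + 4 * β * (1 / 16 * |p| * (Cp * N) * |X|) := by ring
      _ ≤ _ := by gcongr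
  have p1 : 4 * β * (β * (Cp * N) * |a0|) ≤ 4 * Cp * C0 * (β ^ 2 * N ^ 2) := by
    calc 4 * β * (β * (Cp * N) * |a0|) ≤ 4 * β * (β * (Cp * N) * (C0 * N)) := by gcongr
      _ = 4 * Cp * C0 * (β ^ 2 * N ^ 2) := by ring
  have p2 : 4 * β * (β * (Cp * N) * (1 / 16 * |cf * dt|)) ≤
      1 / 1024 * (w * dt ^ 2) + 16 * Cp ^ 2 * (β ^ 2 * N ^ 2) := by
    have e1 : w * dt ^ 2 = (β * |cf * dt|) ^ 2 := by
      rw [mul_pow, sq_abs, ← hw]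
      ring
    rw [e1]
    nlinarith [sq_nonneg (1 / 32 * (β * |cf * dt|) - 4 * Cp * (β * N))]
  have hBT : B ^ 3 ≤ T ^ 2 * B ^ 3 := by
    have h1 : 1 ≤ T ^ 2 := by nlinarith
    have h2 : 0 ≤ B ^ 3 := by positivity
    nlinarith
  have p3 : 4 * β * (β * (Cp * N) * (1 / 16 * |r|)) ≤ 4 * Cp * C * (T ^ 2 * B ^ 3) := by
    calc 4 * β * (β * (Cp * N) * (1 / 16 * |r|))
        ≤ 4 * β * (β * (Cp * B) * (1 * (C * B ^ 2 * β⁻¹))) := by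
          gcongr
          norm_num
      _ = 4 * Cp * C * (β * (β * β⁻¹) * B ^ 3) := by ring
      _ = 4 * Cp * C * (β * B ^ 3) := by rw [hbb]; ring
      _ ≤ 4 * Cp * C * (1 * (T ^ 2 * B ^ 3)) := by gcongr
      _ = 4 * Cp * C * (T ^ 2 * B ^ 3) := by ring
  have p4 : 4 * β * (1 / 16 * |p| * (Cp * N) * |X|) ≤
      4 * C * Cp * (C0 + 2 * C) * (T ^ 2 * B ^ 3) := by
    calc 4 * β * (1 / 16 * |p| * (Cp * N) * |X|)
        ≤ 4 * β * (1 / 16 * (C * B * β⁻¹) * (Cp * B) * ((C0 + 2 * C) * (2 * T) * B)) := by gcongr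
      _ = 1 / 2 * C * Cp * (C0 + 2 * C) * (β * β⁻¹) * (T * B ^ 3) := by ring
      _ = 1 / 2 * C * Cp * (C0 + 2 * C) * (T * B ^ 3) := by rw [hbb]; ring
      _ ≤ 4 * C * Cp * (C0 + 2 * C) * (T ^ 2 * B ^ 3) := by
          have h1 : T ≤ T ^ 2 := by nlinarith
          gcongr
          norm_num
  calc |q * ((a - 1 / 16 * p) * d1 * X)|
      ≤ 4 * β * (β * (Cp * N) * (|a0| + 1 / 16 * |cf * dt| + 1 / 16 * |r|)) +
        4 * β * (1 / 16 * |p| * (Cp * N) * |X|) := hsplit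
    _ = 4 * β * (β * (Cp * N) * |a0|) + 4 * β * (β * (Cp * N) * (1 / 16 * |cf * dt|)) +
        4 * β * (β * (Cp * N) * (1 / 16 * |r|)) + 4 * β * (1 / 16 * |p| * (Cp * N) * |X|) := by ring
    _ ≤ 4 * Cp * C0 * (β ^ 2 * N ^ 2) + (1 / 1024 * (w * dt ^ 2) + 16 * Cp ^ 2 * (β ^ 2 * N ^ 2)) +
        4 * Cp * C * (T ^ 2 * B ^ 3) + 4 * C * Cp * (C0 + 2 * C) * (T ^ 2 * B ^ 3) := by
      gcongr
    _ = _ := by ring

/-- the expansion of the square -/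
theorem expand {f d1 d2 X τ H β R1 R2 R3 : ℝ} (hH : 0 < H)
    (hb1 : 1 - τ ^ 2 / (2 * H) ≤ β ^ 2) (h1 : 1 / 4 * f ^ 2 * d2 ≤ R1)
    (h2 : 1 / 2 * β ^ 2 * X ^ 2 ≤ R2) (h3 : |τ / (4 * H) * (f * d1 * X)| ≤ R3) :
    1 / 4 * f ^ 2 * d2 + 1 / 2 * X ^ 2 - (f * d1 + 2 * τ * X) ^ 2 / (16 * H) ≤ R1 + R2 + R3 := by
  have e1 : 1 / 4 * f ^ 2 * d2 + 1 / 2 * X ^ 2 - (f * d1 + 2 * τ * X) ^ 2 / (16 * H) =
      1 / 4 * f ^ 2 * d2 + 1 / 2 * (1 - τ ^ 2 / (2 * H)) * X ^ 2 - τ / (4 * H) * (f * d1 * X) -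
        (f * d1) ^ 2 / (16 * H) := by
    field_simp
    ring
  rw [e1]
  have e2 : 0 ≤ (f * d1) ^ 2 / (16 * H) := by positivity
  have e3 : 1 / 2 * (1 - τ ^ 2 / (2 * H)) * X ^ 2 ≤ 1 / 2 * β ^ 2 * X ^ 2 := by gcongr
  have e4 := (abs_le.1 h3).1
  linarith

theorem bet_inv_le {τ T : ℝ} (hT : 2 ≤ T) (hτ : |τ| ≤ T) : (bet τ)⁻¹ ≤ 2 * T := by
  unfold bet
  rw [inv_inv]
  have h1 : τ ^ 2 ≤ T ^ 2 := by
    rw [← sq_abs]
    exact pow_le_pow_left₀ (abs_nonneg _) hτ 2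
  refine Real.sqrt_le_iff.2 ⟨by linarith, by nlinarith⟩

theorem quot_le {τ H : ℝ} (hH : 1 / 16 + τ ^ 2 / 2 ≤ H) : |τ / (4 * H)| ≤ 4 * bet τ := by
  have h1 := IQA0.bet_sq τ
  have h2 := IQA0.abs_mul_bet τ
  have h3 := IQA0.bet_pos τ
  have hp : (0 : ℝ) < 1 + τ ^ 2 := by positivity
  have hH0 : 0 < H := by nlinarith [sq_nonneg τ]
  rw [abs_div, abs_of_pos (by positivity : (0 : ℝ) < 4 * H), div_le_iff₀ (by positivity)]
  have h4 : 1 ≤ bet τ ^ 2 * (16 * H) := by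
    rw [h1, one_div, inv_mul_eq_div, le_div_iff₀ hp]
    nlinarith [sq_nonneg τ]
  calc |τ| = |τ| * 1 := (mul_one _).symm
    _ ≤ |τ| * (bet τ ^ 2 * (16 * H)) := mul_le_mul_of_nonneg_left h4 (abs_nonneg _)
    _ = (|τ| * bet τ) * (bet τ * (16 * H)) := by ring
    _ ≤ 1 * (bet τ * (16 * H)) := by gcongr
    _ = 4 * bet τ * (4 * H) := by ring

theorem cut_lip {η : ℝ → ℝ} {a b Mt : ℝ} (h : Cut η a b) (hM : ∀ x, |deriv η x| ≤ Mt) (x y : ℝ) :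
    |η x - η y| ≤ Mt * |x - y| := by
  have := Convex.norm_image_sub_le_of_norm_deriv_le (f := η) (s := univ) (C := Mt) (x := y) (y := x)
    (fun t _ => (h.smooth.differentiable (by simp) t)) (fun t _ => by simpa using hM t)
    convex_univ (mem_univ _) (mem_univ _)
  simpa using this

theorem prod_bd {s t1 t2 tn d2 k B C Cd Mt δ : ℝ} (hB0 : 0 ≤ B) (hC : 0 ≤ C) (hMt : 0 ≤ Mt)
    (hs0 : 0 ≤ s) (hs1 : s ≤ 1) (ht20 : 0 ≤ t2) (ht21 : t2 ≤ 1) (hδ : |δ| ≤ Cd * B)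
    (hl : |t1 - t2| ≤ Mt * |δ|) (htn : |tn| ≤ C * B) (hd2 : |d2| ≤ C * B)
    (hk : |d2 - k| ≤ C * B ^ 2) :
    |s ^ 2 * t1 * t2 * tn * d2 - s ^ 2 * t2 ^ 2 * (tn * k)| ≤
      C * (Mt * Cd * C + C) * B ^ 3 := by
  have e1 : s ^ 2 * t1 * t2 * tn * d2 - s ^ 2 * t2 ^ 2 * (tn * k) =
      s ^ 2 * t2 * tn * ((t1 - t2) * d2 + t2 * (d2 - k)) := by ring
  have hs2 : s ^ 2 ≤ 1 := by nlinarith
  have e2 : |(t1 - t2) * d2 + t2 * (d2 - k)| ≤ Mt * (Cd * B) * (C * B) + 1 * (C * B ^ 2) := by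
    refine (abs_add_le _ _).trans (add_le_add ?_ ?_)
    · rw [abs_mul]
      refine mul_le_mul (hl.trans (mul_le_mul_of_nonneg_left hδ hMt)) hd2 (abs_nonneg _) ?_
      exact mul_nonneg hMt ((abs_nonneg _).trans hδ)
    · rw [abs_mul, abs_of_nonneg ht20]
      exact mul_le_mul ht21 hk (abs_nonneg _) zero_le_one
  rw [e1, abs_mul, abs_mul, abs_mul, abs_of_nonneg (sq_nonneg s), abs_of_nonneg ht20]
  calc s ^ 2 * t2 * |tn| * |(t1 - t2) * d2 + t2 * (d2 - k)|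
      ≤ 1 * 1 * (C * B) * (Mt * (Cd * B) * (C * B) + 1 * (C * B ^ 2)) := by gcongr
    _ = C * (Mt * Cd * C + C) * B ^ 3 := by ring

end IQPt

open IQPt IQA0 in
theorem pr_Pt (h1 : StA0) (h2 : StR1) (h3 : StPw) (h4 : StPb) (h6 : StYT) (h7 : StXt)
    (h8 : StDf) (h9 : StTn) (h10 : StDeu) : StPt := by
  intro m g gh g0 φ M φ0 M0 hS K hK ψ ϑ w0 ψ1 θ1 hB
  obtain ⟨C0, hC0, ev0⟩ := h1 m g gh g0 φ M φ0 M0 hS K hK ψ ϑ w0 ψ1 θ1 hB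
  obtain ⟨Cp, hCp, evp⟩ := h3 m g gh g0 φ M φ0 M0 hS K hK
  obtain ⟨Cb, hCb, evb⟩ := h4 m g gh g0 φ M φ0 M0 hS K hK
  obtain ⟨Cd, hCd, evd⟩ := h8 m g gh g0 φ M φ0 M0 hS K hK
  obtain ⟨Mt, hMt0, hMt⟩ := cut_bound hB.th
  refine ⟨3 * C0 ^ 2 + (4 * Cp * C0 + 16 * Cp ^ 2), by positivity, fun D hD => ?_⟩
  obtain ⟨K1, C1, hK1, hKK1, hC1, ev1⟩ := h2 m g gh g0 φ M φ0 M0 hS K D hK hD ψ ϑ w0 ψ1 θ1 hB
  obtain ⟨K2, C2, hK2, hKK2, hC2, ev2⟩ := h6 m g gh g0 φ M φ0 M0 hS K D hK hD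
  obtain ⟨C, hC, hCC1, hCC2, hCCb⟩ : ∃ C : ℝ, 0 < C ∧ C1 ≤ C ∧ C2 ≤ C ∧ Cb ≤ C :=
    ⟨C1 + C2 + Cb, by positivity, by linarith, by linarith, by linarith⟩
  refine ⟨K1 ∪ K2, C * (Mt * Cd * C + C) + C ^ 3 + C ^ 2 +
    (4 * Cp * C + 4 * C * Cp * (C0 + 2 * C)), hK1.union hK2, hKK1.trans subset_union_left,
    by positivity, ?_⟩
  filter_upwards [ev0, evp, evb, evd, ev1, ev2] with j j0 jp jb jd j1 j2
  intro T hT B hN hTB z hz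
  have hT0 : 0 < T := by linarith
  have hNK : NBd (g j) K B := nbd_mono (hKK1.trans subset_union_left) hN
  have hN1 : NBd (g j) K1 B := nbd_mono subset_union_left hN
  have hN2 : NBd (g j) K2 B := nbd_mono subset_union_right hN
  have hB0 : 0 ≤ B := hN.nonneg
  have hB1 : B ≤ 1 := by nlinarith
  obtain ⟨s0, b0, x0, q0⟩ := j0 T hT z hz
  obtain ⟨s1, b1, x1⟩ := j1 T hT B hN1 z hz
  obtain ⟨sta, sH, -, -, -, -, -, hH0, hHm, -⟩ := h7 m (g j) (hS.riem j) (hS.blk j)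
  obtain ⟨-, sHh, -, -, -, -, -, hHh0, -, -⟩ := h7 m (gh j) (hS.riemh j) (hS.blkh j)
  obtain ⟨-, sk, -⟩ := h10 m (g j) (gh j) (hS.riem j) (hS.blk j) (hS.riemh j) (hS.blkh j)
    (hS.tinvh j) (hS.per j)
  -- notation
  have hβ0 := bet_pos (ta z)
  have hβ1 := bet_le (ta z)
  have hw : bet (ta z) ^ 2 * cf (gh j) ψ ϑ T z ^ 2 = wT (gh j) ψ ϑ T z := by
    unfold cf wT
    field_simp
  have hcfb : |cf (gh j) ψ ϑ T z| ≤ (bet (ta z))⁻¹ := by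
    unfold cf
    have a1 := hB.psi_le (ta z / T)
    have a2 := hB.th_le (Hh (gh j) z)
    have a3 := hB.psi.nonneg (ta z / T)
    have a4 := hB.th.nonneg (Hh (gh j) z)
    have a5 : 0 < (bet (ta z))⁻¹ := inv_pos.2 hβ0
    rw [abs_of_nonneg (by positivity)]
    calc ψ (ta z / T) * (bet (ta z))⁻¹ * ϑ (Hh (gh j) z) ≤ 1 * (bet (ta z))⁻¹ * 1 := by gcongr
      _ = (bet (ta z))⁻¹ := by ring
  -- differentiability of the test function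
  have dbet : DifferentiableAt ℝ bet (ta z) := by
    obtain ⟨d, hd, -⟩ := bet_deriv (ta z)
    exact hd.differentiableAt
  have dta : DifferentiableAt ℝ (ta (m := m)) z := sta.differentiable (by simp) z
  have dtaT : DifferentiableAt ℝ (fun y : W (m + 1) => ta y / T) z := by
    simp only [div_eq_mul_inv]
    exact dta.mul_const _
  have dψ : DifferentiableAt ℝ (fun y : W (m + 1) => ψ (ta y / T)) z :=
    (hB.psi.smooth.differentiable (by simp) (ta z / T)).comp z dtaT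
  have dβ : DifferentiableAt ℝ (fun y : W (m + 1) => bet (ta y)) z := dbet.comp z dta
  have dH : DifferentiableAt ℝ (fun y : W (m + 1) => ϑ (Hh (g j) y)) z :=
    (hB.th.smooth.differentiable (by simp) _).comp z (sH.differentiable (by simp) z)
  have dHh : DifferentiableAt ℝ (fun y : W (m + 1) => ϑ (Hh (gh j) y)) z :=
    (hB.th.smooth.differentiable (by simp) _).comp z (sHh.differentiable (by simp) z)
  have dphi0 : DifferentiableAt ℝ (phi0 (g j) ψ ϑ T) z := (dψ.mul dβ).mul dH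
  have dtnt : DifferentiableAt ℝ (tnt (φ j) D (kq (g j) (gh j))) z :=
    (h9 (W (m + 1)) (XH (Hm (gh j))) (φ j) (M j) (hS.fl j) (kq (g j) (gh j)) D
      (sk.of_le (by simp)) (by linarith)).1.differentiable (by simp) z
  have dphi1 : DifferentiableAt ℝ (phi1 (g j) (gh j) ψ ϑ T D (φ j)) z :=
    ((dψ.mul (dβ.inv hβ0.ne')).mul dHh).mul dtnt
  have hXX : XX (g j) (phi (g j) (gh j) ψ ϑ T D (φ j)) z =
      XX (g j) (phi0 (g j) ψ ϑ T) z - 1 / 16 * XX (g j) (phi1 (g j) (gh j) ψ ϑ T D (φ j)) z := by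
    have e1 := dphi0.hasFDerivAt.sub (dphi1.hasFDerivAt.const_mul (1 / 16))
    have e2 : HasFDerivAt (phi (g j) (gh j) ψ ϑ T D (φ j)) _ z := e1
    unfold XX
    rw [e2.fderiv]
    simp only [_root_.sub_apply, _root_.smul_apply, smul_eq_mul]
  have hphi : phi (g j) (gh j) ψ ϑ T D (φ j) z =
      phi0 (g j) ψ ϑ T z - 1 / 16 * phi1 (g j) (gh j) ψ ϑ T D (φ j) z := rfl
  have hψ10 := hB.psi1.nonneg (ta z / T)
  have hθ10 := hB.th1.nonneg (Hh (gh j) z)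
  have hNN := NN_nonneg (g j) z.1
  by_cases hne : (phi0 (g j) ψ ϑ T z ≠ 0 ∨ XX (g j) (phi0 (g j) ψ ϑ T) z ≠ 0) ∨
      (phi1 (g j) (gh j) ψ ϑ T D (φ j) z ≠ 0 ∨
        XX (g j) (phi1 (g j) (gh j) ψ ϑ T D (φ j)) z ≠ 0)
  swap
  · push Not at hne
    obtain ⟨⟨z1, z2⟩, z3, z4⟩ := hne
    have e1 : SS (g j) (phi (g j) (gh j) ψ ϑ T D (φ j)) z = 0 := by
      unfold SS
      rw [hXX, hphi, z1, z2, z3, z4]
      simp
    have e2 : wT (gh j) ψ ϑ T z * (tnt (φ j) D (kq (g j) (gh j)) z * kq (g j) (gh j) z) = 0 := by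
      have e3 : cf (gh j) ψ ϑ T z * tnt (φ j) D (kq (g j) (gh j)) z = 0 := z3
      have e4 : bet (ta z) ^ 2 * cf (gh j) ψ ϑ T z ^ 2 *
          (tnt (φ j) D (kq (g j) (gh j)) z * kq (g j) (gh j) z) =
          bet (ta z) ^ 2 * cf (gh j) ψ ϑ T z * kq (g j) (gh j) z *
            (cf (gh j) ψ ϑ T z * tnt (φ j) D (kq (g j) (gh j)) z) := by ring
      rw [← hw, e4, e3, mul_zero]
    have e5 : 0 ≤ wT (gh j) ψ ϑ T z * dtn (φ j) D (kq (g j) (gh j)) z ^ 2 := by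
      rw [← hw]
      positivity
    have e6 : 0 ≤ (3 * C0 ^ 2 + (4 * Cp * C0 + 16 * Cp ^ 2)) * bet (ta z) ^ 2 *
        NN (g j) z.1 ^ 2 + (C * (Mt * Cd * C + C) + C ^ 3 + C ^ 2 +
          (4 * Cp * C + 4 * C * Cp * (C0 + 2 * C))) * T ^ 2 * B ^ 3 := by positivity
    have e7 := mul_nonneg e6 (mul_nonneg hψ10 hθ10)
    rw [e1, e2, z1]
    linarith
  -- the support
  obtain ⟨k1, k2, k3, k4⟩ : |ta z| ≤ T ∧ 1 / 16 ≤ Hh (g j) z ∧ Hh (g j) z ≤ 1 / 2 ∧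
      Hh (gh j) z ≤ 1 / 2 := by
    rcases hne with h | h
    · obtain ⟨k1, k2, k3, k4⟩ := s0 h
      exact ⟨k1, by linarith, by linarith, k4⟩
    · obtain ⟨k1, k2, k3, k4⟩ := s1 h
      exact ⟨k1, k3, k4, by linarith⟩
  have hRg : Rg (gh j) K z := ⟨⟨z.1, hz, 0, by rw [zero_smul, add_zero]⟩, by linarith⟩
  have hψ11 : ψ1 (ta z / T) = 1 := by
    refine hB.psi1_one _ ?_
    rw [abs_div, abs_of_pos hT0, div_le_one hT0]
    exact k1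
  have hθ11 : θ1 (Hh (gh j) z) = 1 := by
    refine hB.th1_one _ ?_
    rw [abs_of_nonneg (hHh0 z)]
    exact k4
  have hHm' := hHm z
  have hHge : 1 / 16 + ta z ^ 2 / 2 ≤ Hm (g j) z := by linarith
  have hHpos : 0 < Hm (g j) z := by nlinarith [sq_nonneg (ta z)]
  obtain ⟨p1, -, -, -, p5⟩ := jp z hRg
  obtain ⟨u1, u2, -, u4, -, -, -, -⟩ := jb B hNK z hRg
  obtain ⟨-, v2, -⟩ := jd B hNK z hRg
  obtain ⟨y1, y2, -⟩ := j2 B hN2 z hRg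
  have hNB := p5 B hNK
  have hβT := bet_inv_le hT k1
  have hq := quot_le hHge
  have hβi : 0 < (bet (ta z))⁻¹ := inv_pos.2 hβ0
  obtain ⟨r, hr⟩ : ∃ r, r = XX (g j) (phi1 (g j) (gh j) ψ ϑ T D (φ j)) z -
      cf (gh j) ψ ϑ T z * dtn (φ j) D (kq (g j) (gh j)) z := ⟨_, rfl⟩
  have hrb : |r| ≤ C * B ^ 2 * (bet (ta z))⁻¹ := by
    rw [hr]
    exact x1.trans (by gcongr)
  have hpb : |phi1 (g j) (gh j) ψ ϑ T D (φ j) z| ≤ C * B * (bet (ta z))⁻¹ :=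
    b1.trans (by gcongr)
  have hd2 : |dd2 (g j) z| ≤ C * B := u1.trans (by gcongr)
  have hdk : |dd2 (g j) z - kq (g j) (gh j) z| ≤ C * B ^ 2 := u4.trans (by gcongr)
  have htn : |tnt (φ j) D (kq (g j) (gh j)) z| ≤ C * B := y1.trans (by gcongr)
  have hdt : |dtn (φ j) D (kq (g j) (gh j)) z| ≤ C * B := y2.trans (by gcongr)
  have hap : |phi0 (g j) ψ ϑ T z * phi1 (g j) (gh j) ψ ϑ T D (φ j) z * dd2 (g j) z -
      wT (gh j) ψ ϑ T z * (tnt (φ j) D (kq (g j) (gh j)) z * kq (g j) (gh j) z)| ≤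
      C * (Mt * Cd * C + C) * B ^ 3 := by
    have e1 : phi0 (g j) ψ ϑ T z * phi1 (g j) (gh j) ψ ϑ T D (φ j) z =
        ψ (ta z / T) ^ 2 * ϑ (Hh (g j) z) * ϑ (Hh (gh j) z) *
          tnt (φ j) D (kq (g j) (gh j)) z := by
      unfold phi0 phi1 cf
      field_simp
    rw [e1]
    unfold wT
    exact prod_bd hB0 hC.le hMt0 (hB.psi.nonneg _) (hB.psi_le _) (hB.th.nonneg _) (hB.th_le _)
      v2 (cut_lip hB.th hMt _ _) htn hd2 hdk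
  have t1 := term1 hB0 hC.le (by positivity : 0 ≤ C * (Mt * Cd * C + C)) hT hβT hpb hd2 hap
  have t2 := term2 (dt := dtn (φ j) D (kq (g j) (gh j)) z) hβ0 hB0 hB1 hT hw x0 hrb
  have t3 := term3 hβ0 hβ1 hB0 hB1 hNN hNB hC.le hC0.le hCp.le hT hβT hw hq b0 x0 hpb hrb hcfb
    hdt p1
  have hXr : XX (g j) (phi (g j) (gh j) ψ ϑ T D (φ j)) z =
      XX (g j) (phi0 (g j) ψ ϑ T) z - 1 / 16 * (cf (gh j) ψ ϑ T z *
        dtn (φ j) D (kq (g j) (gh j)) z + r) := by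
    rw [hXX, hr]
    ring
  have fin := expand hHpos ((q0 k3).2 hHpos) t1 t2 t3
  have hSS : SS (g j) (phi (g j) (gh j) ψ ϑ T D (φ j)) z =
      1 / 4 * (phi0 (g j) ψ ϑ T z - 1 / 16 * phi1 (g j) (gh j) ψ ϑ T D (φ j) z) ^ 2 *
        dd2 (g j) z + 1 / 2 * (XX (g j) (phi0 (g j) ψ ϑ T) z - 1 / 16 * (cf (gh j) ψ ϑ T z *
        dtn (φ j) D (kq (g j) (gh j)) z + r)) ^ 2 -
      ((phi0 (g j) ψ ϑ T z - 1 / 16 * phi1 (g j) (gh j) ψ ϑ T D (φ j) z) * dd1 (g j) z +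
        2 * ta z * (XX (g j) (phi0 (g j) ψ ϑ T) z - 1 / 16 * (cf (gh j) ψ ϑ T z *
        dtn (φ j) D (kq (g j) (gh j)) z + r))) ^ 2 / (16 * Hm (g j) z) := by
    rw [← hXr, ← hphi]
    rfl
  rw [hSS, hψ11, hθ11]
  refine fin.trans (le_of_eq ?_)
  ring

end Pool.Agent.LQ
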