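import Mathlib
import Pool.Agent.Work.MP_13b5d9_gt.LQ.StmtsQ

set_option autoImplicit false

/-!
# MP_13b5d9_gt, block LQ, item R1: the second part of the test function
-/

open MeasureTheory Set Filter Topology
open scoped ContDiff ENNReal
open Pool.Agent.Work.MP_c9f990_an.Al (IsFlow)

namespace Pool.Agent.LQ

open Pool.Agent.MLS Pool.Agent.EC Pool.Agent.DR

namespace IQR1

theorem cut_deriv {η : ℝ → ℝ} {a b : ℝ} (h : Cut η a b) (x : ℝ) (hx : deriv η x ≠ 0) :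
    a ≤ x ∧ x ≤ b := by
  by_contra hcon
  have hx' : x ∉ Icc a b := fun hm => hcon ⟨hm.1, hm.2⟩
  have hnhds : (Icc a b)ᶜ ∈ 𝓝 x := isClosed_Icc.isOpen_compl.mem_nhds hx'
  have heq : η =ᶠ[𝓝 x] fun _ => 0 := by
    filter_upwards [hnhds] with y hy
    by_contra hne
    exact hy ⟨(h.supp y hne).1, (h.supp y hne).2⟩
  apply hx
  rw [heq.deriv_eq]
  simp

theorem cut_bound {η : ℝ → ℝ} {a b : ℝ} (h : Cut η a b) : ∃ M, 0 ≤ M ∧ ∀ x, |deriv η x| ≤ M := by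
  have hc : Continuous (deriv η) := h.smooth.continuous_deriv (by simp)
  obtain ⟨M, hM⟩ := isCompact_Icc.exists_bound_of_continuousOn (s := Icc a b) hc.continuousOn
  refine ⟨|M|, abs_nonneg _, fun x => ?_⟩
  by_cases hx : deriv η x = 0
  · rw [hx, abs_zero]
    exact abs_nonneg _
  · have := hM x ⟨(cut_deriv h x hx).1, (cut_deriv h x hx).2⟩
    rw [Real.norm_eq_abs] at this
    exact this.trans (le_abs_self _)

theorem cut_T {T : ℝ} (hT : 0 < T) {τ : ℝ} (h : -1 ≤ τ / T ∧ τ / T ≤ 1) :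
    |τ| ≤ T := by
  rw [abs_le]
  constructor
  · have := h.1
    rw [le_div_iff₀ hT] at this
    linarith
  · have := h.2
    rw [div_le_iff₀ hT] at this
    linarith

theorem inv_bet (τ : ℝ) : (bet τ)⁻¹ = Real.sqrt (1 + τ ^ 2) := inv_inv _

theorem one_le_sqrt (τ : ℝ) : 1 ≤ Real.sqrt (1 + τ ^ 2) :=
  Real.one_le_sqrt.2 (by nlinarith [sq_nonneg τ])

theorem abs_le_sqrt' (τ : ℝ) : |τ| ≤ Real.sqrt (1 + τ ^ 2) :=
  Real.abs_le_sqrt (by linarith)

theorem sqrt_le (τ : ℝ) : Real.sqrt (1 + τ ^ 2) ≤ 1 + |τ| := by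
  rw [Real.sqrt_le_left (by positivity)]
  nlinarith [sq_abs τ, abs_nonneg τ]

/-- the function of the vertical momentum -/
theorem eta_deriv {ψ : ℝ → ℝ} (hψ : Cut ψ (-1) 1) (hψ1 : ∀ x, ψ x ≤ 1) {M : ℝ}
    (hM : ∀ x, |deriv ψ x| ≤ M) {T : ℝ} (hT : 2 ≤ T) (τ : ℝ) :
    ∃ d, HasDerivAt (fun t => ψ (t / T) * (bet t)⁻¹) d τ ∧ |d| ≤ 2 * M + 1 ∧
      (d ≠ 0 → |τ| ≤ T) := by
  have hT0 : 0 < T := by linarith
  have hM0 : 0 ≤ M := (abs_nonneg _).trans (hM 0)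
  have hp : (0 : ℝ) < 1 + τ ^ 2 := by positivity
  have h0 : HasDerivAt (fun t : ℝ => 1 + t ^ 2) (2 * τ) τ := by
    simpa using ((hasDerivAt_id τ).pow 2).const_add 1
  have hb' : HasDerivAt (fun t => (bet t)⁻¹) (2 * τ / (2 * Real.sqrt (1 + τ ^ 2))) τ := by
    have h := h0.sqrt hp.ne'
    have he : (fun t => (bet t)⁻¹) = fun t : ℝ => Real.sqrt (1 + t ^ 2) := funext inv_bet
    rw [he]
    exact h
  have hd : HasDerivAt ψ (deriv ψ (τ / T)) (τ / T) :=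
    (hψ.smooth.differentiable (by simp) _).hasDerivAt
  have h1 : HasDerivAt (fun t => ψ (t / T)) (deriv ψ (τ / T) * (1 / T)) τ :=
    hd.comp τ ((hasDerivAt_id τ).div_const T)
  have h2 := h1.mul hb'
  have h3 := one_le_sqrt τ
  have h4 := abs_le_sqrt' τ
  have h5 : 0 < Real.sqrt (1 + τ ^ 2) := lt_of_lt_of_le one_pos h3
  refine ⟨_, h2, ?_, ?_⟩
  · have e1 : |deriv ψ (τ / T) * (1 / T) * (bet τ)⁻¹| ≤ 2 * M := by
      by_cases hz : deriv ψ (τ / T) = 0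
      · rw [hz, zero_mul, zero_mul, abs_zero]
        positivity
      · have h6 := cut_T hT0 (cut_deriv hψ _ hz)
        have h7 := sqrt_le τ
        rw [inv_bet, abs_mul, abs_mul, abs_of_pos h5, abs_of_pos (by positivity : (0 : ℝ) < 1 / T)]
        have h8 : 1 / T * Real.sqrt (1 + τ ^ 2) ≤ 2 := by
          rw [one_div, inv_mul_le_iff₀ hT0]
          linarith
        calc |deriv ψ (τ / T)| * (1 / T) * Real.sqrt (1 + τ ^ 2)
            = |deriv ψ (τ / T)| * (1 / T * Real.sqrt (1 + τ ^ 2)) := by ring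
          _ ≤ M * 2 := mul_le_mul (hM _) h8 (by positivity) hM0
          _ = 2 * M := by ring
    have e2 : |ψ (τ / T) * (2 * τ / (2 * Real.sqrt (1 + τ ^ 2)))| ≤ 1 := by
      have e3 : |2 * τ / (2 * Real.sqrt (1 + τ ^ 2))| ≤ 1 := by
        rw [mul_div_mul_left _ _ (by norm_num : (2 : ℝ) ≠ 0), abs_div, abs_of_pos h5,
          div_le_one h5]
        exact h4
      rw [abs_mul, abs_of_nonneg (hψ.nonneg _)]
      exact mul_le_one₀ (hψ1 _) (abs_nonneg _) e3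
    exact (abs_add_le _ _).trans (add_le_add e1 e2)
  · intro hne
    have h8 : deriv ψ (τ / T) ≠ 0 ∨ ψ (τ / T) ≠ 0 := by
      by_contra hcon
      push Not at hcon
      apply hne
      rw [hcon.1, hcon.2]
      ring
    rcases h8 with h | h
    · exact cut_T hT0 (cut_deriv hψ _ h)
    · exact cut_T hT0 (hψ.supp _ h)

theorem NBd_mono {m : ℕ} {g : Form (m + 1)} {K K' : Set (E (m + 1))} {B : ℝ} (h : NBd g K' B)
    (hK : K ⊆ K') : NBd g K B :=
  ⟨h.nonneg, fun x hx => h.b0 x (hK hx), fun x hx => h.b1 x (hK hx), fun x hx => h.b2 x (hK hx)⟩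

end IQR1

open IQR1 in
theorem pr_R1 (h1 : StYT) (h2 : StXt) (h3 : StHP) (h4 : StDf) (h5 : StHc) (h6 : StPw)
    (h7 : StTn) (h9 : StDeu) : StR1 := by
  intro m g gh g0 φ M φ0 M0 hS K D hK hD ψ ϑ w0 ψ1 θ1 hB
  obtain ⟨K', C1, hK', hKK', hC1, ev1⟩ := h1 m g gh g0 φ M φ0 M0 hS K D hK hD
  obtain ⟨C3, hC3, ev3⟩ := h3 m g gh g0 φ M φ0 M0 hS K hK
  obtain ⟨C4, hC4, ev4⟩ := h4 m g gh g0 φ M φ0 M0 hS K hK
  have ev5 := h5 m g gh g0 φ M φ0 M0 hS K hK (1 / 16) (by norm_num)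
  obtain ⟨C6, hC6, ev6⟩ := h6 m g gh g0 φ M φ0 M0 hS K hK
  obtain ⟨Mp, hMp0, hMp⟩ := cut_bound hB.psi
  obtain ⟨Mt, hMt0, hMt⟩ := cut_bound hB.th
  refine ⟨K', C1 + (C1 * ((2 * Mp + 1) * (1 / 2 * C6) + Mt * (C3 * C4)) + C1), hK', hKK',
    by positivity, ?_⟩
  filter_upwards [ev1, ev3, ev4, ev5, ev6] with j j1 j3 j4 j5 j6
  intro T hT B hNB z hz
  have hT0 : 0 < T := by linarith
  have hB0 : 0 ≤ B := hNB.nonneg
  have hNB' : NBd (g j) K B := NBd_mono hNB hKK'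
  obtain ⟨sta, -, xta, -, -, -, -, -, -, -⟩ := h2 m (g j) (hS.riem j) (hS.blk j)
  obtain ⟨-, sH, -, -, -, -, -, -, -, xH⟩ := h2 m (gh j) (hS.riemh j) (hS.blkh j)
  obtain ⟨-, sk, -⟩ := h9 m (g j) (gh j) (hS.riem j) (hS.blk j) (hS.riemh j) (hS.blkh j)
    (hS.tinvh j) (hS.per j)
  obtain ⟨d, hd, hdM, hdT⟩ := eta_deriv hB.psi hB.psi_le hMp hT (ta z)
  obtain ⟨t1, -, t3⟩ := h7 (W (m + 1)) (XH (Hm (gh j))) (φ j) (M j) (hS.fl j)
    (kq (g j) (gh j)) D (sk.of_le (by simp)) (by linarith)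
  -- derivatives
  have hta : HasFDerivAt (ta (m := m)) (fderiv ℝ ta z) z :=
    (sta.differentiable (by simp) z).hasFDerivAt
  have hHd : HasFDerivAt (Hh (gh j)) (fderiv ℝ (Hh (gh j)) z) z :=
    (sH.differentiable (by simp) z).hasFDerivAt
  have hϑ : HasDerivAt ϑ (deriv ϑ (Hh (gh j) z)) (Hh (gh j) z) :=
    (hB.th.smooth.differentiable (by simp) _).hasDerivAt
  have htn : HasFDerivAt (tnt (φ j) D (kq (g j) (gh j)))
      (fderiv ℝ (tnt (φ j) D (kq (g j) (gh j))) z) z :=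
    (t1.differentiable (by simp) z).hasFDerivAt
  have t3' : fderiv ℝ (tnt (φ j) D (kq (g j) (gh j))) z (XH (Hm (gh j)) z) =
      dtn (φ j) D (kq (g j) (gh j)) z := t3 z
  have x1 : fderiv ℝ (ta (m := m)) z (XH (Hm (g j)) z) = 1 / 2 * dd1 (g j) z := xta z
  have x2 : fderiv ℝ (Hh (gh j)) z (XH (Hm (g j)) z) =
      fderiv ℝ (Hh (gh j)) z (XH (Hm (g j)) z - XH (Hm (gh j)) z) := by
    have x4 : fderiv ℝ (Hh (gh j)) z (XH (Hm (gh j)) z) = 0 := xH (hS.tinvh j) z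
    rw [map_sub, x4, sub_zero]
  have x3 : fderiv ℝ (tnt (φ j) D (kq (g j) (gh j))) z (XH (Hm (g j)) z) =
      dtn (φ j) D (kq (g j) (gh j)) z + fderiv ℝ (tnt (φ j) D (kq (g j) (gh j))) z
        (XH (Hm (g j)) z - XH (Hm (gh j)) z) := by
    rw [map_sub, t3']
    ring
  have e2 : XX (g j) (phi1 (g j) (gh j) ψ ϑ T D (φ j)) z =
      tnt (φ j) D (kq (g j) (gh j)) z * (d * (1 / 2 * dd1 (g j) z) * ϑ (Hh (gh j) z) +
        ψ (ta z / T) * (bet (ta z))⁻¹ * deriv ϑ (Hh (gh j) z) *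
          fderiv ℝ (Hh (gh j)) z (XH (Hm (g j)) z - XH (Hm (gh j)) z)) +
      ψ (ta z / T) * (bet (ta z))⁻¹ * ϑ (Hh (gh j) z) *
        (dtn (φ j) D (kq (g j) (gh j)) z + fderiv ℝ (tnt (φ j) D (kq (g j) (gh j))) z
          (XH (Hm (g j)) z - XH (Hm (gh j)) z)) := by
    have e1 := ((hd.comp_hasFDerivAt z hta).mul (hϑ.comp_hasFDerivAt z hHd)).mul htn
    have e3 : HasFDerivAt (phi1 (g j) (gh j) ψ ϑ T D (φ j)) _ z := e1
    unfold XX
    rw [e3.fderiv]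
    simp only [_root_.add_apply, _root_.smul_apply, smul_eq_mul, Function.comp_apply,
      Pi.mul_apply, x1, x2, x3]
    ring
  have hψ0 : 0 ≤ ψ (ta z / T) := hB.psi.nonneg _
  have hϑ0 : 0 ≤ ϑ (Hh (gh j) z) := hB.th.nonneg _
  have hs1 : 1 ≤ (bet (ta z))⁻¹ := by
    rw [inv_bet]
    exact one_le_sqrt _
  have hs0 : 0 ≤ (bet (ta z))⁻¹ := zero_le_one.trans hs1
  have hη : ψ (ta z / T) * (bet (ta z))⁻¹ ≤ (bet (ta z))⁻¹ :=
    mul_le_of_le_one_left hs0 (hB.psi_le _)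
  have hη0 : 0 ≤ ψ (ta z / T) * (bet (ta z))⁻¹ := mul_nonneg hψ0 hs0
  have hzK : ∃ x ∈ K, ∃ s : ℝ, z.1 = x + s • eL := ⟨z.1, hz, 0, by rw [zero_smul, add_zero]⟩
  by_cases hr : 1 / 8 ≤ Hh (gh j) z ∧ Hh (gh j) z ≤ 3 / 8
  · -- the main case
    have hRg : Rg (gh j) K z := ⟨hzK, by linarith [hr.2]⟩
    obtain ⟨y1, -, y3⟩ := j1 B hNB z hRg
    obtain ⟨-, -, -, -, -, p6, -⟩ := j3 z hRg
    obtain ⟨-, -, d3⟩ := j4 B hNB' z hRg
    obtain ⟨q1, -, -, -, q5⟩ := j6 z hRg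
    have hhc := j5 z hzK (Or.inr (by linarith [hr.2]))
    rw [abs_le] at hhc
    refine ⟨?_, ?_, ?_⟩
    · intro h
      refine ⟨?_, hr.2, by linarith [hr.1, hhc.1], by linarith [hr.2, hhc.2]⟩
      by_contra hcon
      have c1 : d = 0 := by
        by_contra hne
        exact hcon (hdT hne)
      have c2 : ψ (ta z / T) = 0 := by
        by_contra hne
        exact hcon (cut_T hT0 (hB.psi.supp _ hne))
      rcases h with h | h
      · apply h
        unfold phi1 cf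
        rw [c2]
        ring
      · apply h
        rw [e2, c1, c2]
        ring
    · unfold phi1 cf
      rw [abs_mul, abs_of_nonneg (mul_nonneg hη0 hϑ0)]
      calc ψ (ta z / T) * (bet (ta z))⁻¹ * ϑ (Hh (gh j) z) *
            |tnt (φ j) D (kq (g j) (gh j)) z| ≤ (bet (ta z))⁻¹ * 1 * (C1 * B) :=
            mul_le_mul (mul_le_mul hη (hB.th_le _) hϑ0 hs0) y1 (abs_nonneg _) (by positivity)
        _ = C1 * B * (bet (ta z))⁻¹ := by ring
        _ ≤ _ := by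
          have : 0 ≤ (C1 * ((2 * Mp + 1) * (1 / 2 * C6) + Mt * (C3 * C4)) + C1) * B *
              (bet (ta z))⁻¹ := by positivity
          linarith [this]
    · have hdd : |dd1 (g j) z| ≤ C6 * B :=
        q1.trans (mul_le_mul_of_nonneg_left (q5 B hNB') hC6.le)
      have hy2 : |fderiv ℝ (Hh (gh j)) z (XH (Hm (g j)) z - XH (Hm (gh j)) z)| ≤
          C3 * (C4 * B) := (p6 _).trans (mul_le_mul_of_nonneg_left d3 hC3.le)
      have e5 : XX (g j) (phi1 (g j) (gh j) ψ ϑ T D (φ j)) z -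
          cf (gh j) ψ ϑ T z * dtn (φ j) D (kq (g j) (gh j)) z =
          tnt (φ j) D (kq (g j) (gh j)) z * (d * (1 / 2 * dd1 (g j) z) * ϑ (Hh (gh j) z) +
            ψ (ta z / T) * (bet (ta z))⁻¹ * deriv ϑ (Hh (gh j) z) *
              fderiv ℝ (Hh (gh j)) z (XH (Hm (g j)) z - XH (Hm (gh j)) z)) +
          ψ (ta z / T) * (bet (ta z))⁻¹ * ϑ (Hh (gh j) z) *
            fderiv ℝ (tnt (φ j) D (kq (g j) (gh j))) z
              (XH (Hm (g j)) z - XH (Hm (gh j)) z) := by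
        rw [e2]
        unfold cf
        ring
      have f1 : |d * (1 / 2 * dd1 (g j) z) * ϑ (Hh (gh j) z)| ≤
          (2 * Mp + 1) * (1 / 2 * (C6 * B)) * 1 := by
        rw [abs_mul, abs_mul, abs_mul, abs_of_nonneg hϑ0, abs_of_pos (by norm_num : (0 : ℝ) < 1 / 2)]
        have := hB.th_le (Hh (gh j) z)
        gcongr
      have f2 : |ψ (ta z / T) * (bet (ta z))⁻¹ * deriv ϑ (Hh (gh j) z) *
          fderiv ℝ (Hh (gh j)) z (XH (Hm (g j)) z - XH (Hm (gh j)) z)| ≤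
          (bet (ta z))⁻¹ * Mt * (C3 * (C4 * B)) := by
        rw [abs_mul, abs_mul, abs_of_nonneg hη0]
        have := hMt (Hh (gh j) z)
        gcongr
      have f3 : |ψ (ta z / T) * (bet (ta z))⁻¹ * ϑ (Hh (gh j) z) *
            fderiv ℝ (tnt (φ j) D (kq (g j) (gh j))) z
              (XH (Hm (g j)) z - XH (Hm (gh j)) z)| ≤ (bet (ta z))⁻¹ * 1 * (C1 * B ^ 2) := by
        rw [abs_mul, abs_mul, abs_of_nonneg hη0, abs_of_nonneg hϑ0]
        have := hB.th_le (Hh (gh j) z)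
        gcongr
      have f4 : |d * (1 / 2 * dd1 (g j) z) * ϑ (Hh (gh j) z) +
            ψ (ta z / T) * (bet (ta z))⁻¹ * deriv ϑ (Hh (gh j) z) *
              fderiv ℝ (Hh (gh j)) z (XH (Hm (g j)) z - XH (Hm (gh j)) z)| ≤
          ((2 * Mp + 1) * (1 / 2 * C6) + Mt * (C3 * C4)) * B * (bet (ta z))⁻¹ := by
        refine (abs_add_le _ _).trans ((add_le_add f1 f2).trans ?_)
        have f5 : (2 * Mp + 1) * (1 / 2 * (C6 * B)) * 1 ≤
            (2 * Mp + 1) * (1 / 2 * (C6 * B)) * (bet (ta z))⁻¹ :=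
          mul_le_mul_of_nonneg_left hs1 (by positivity)
        calc (2 * Mp + 1) * (1 / 2 * (C6 * B)) * 1 + (bet (ta z))⁻¹ * Mt * (C3 * (C4 * B))
            ≤ (2 * Mp + 1) * (1 / 2 * (C6 * B)) * (bet (ta z))⁻¹ +
              (bet (ta z))⁻¹ * Mt * (C3 * (C4 * B)) := by linarith
          _ = _ := by ring
      rw [e5]
      refine (abs_add_le _ _).trans ?_
      rw [abs_mul]
      have f6 : |tnt (φ j) D (kq (g j) (gh j)) z| *
          |d * (1 / 2 * dd1 (g j) z) * ϑ (Hh (gh j) z) +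
            ψ (ta z / T) * (bet (ta z))⁻¹ * deriv ϑ (Hh (gh j) z) *
              fderiv ℝ (Hh (gh j)) z (XH (Hm (g j)) z - XH (Hm (gh j)) z)| ≤
          C1 * B * (((2 * Mp + 1) * (1 / 2 * C6) + Mt * (C3 * C4)) * B * (bet (ta z))⁻¹) :=
        mul_le_mul y1 f4 (abs_nonneg _) (by positivity)
      have f7 : 0 ≤ C1 * B ^ 2 * (bet (ta z))⁻¹ := by positivity
      calc _ ≤ C1 * B * (((2 * Mp + 1) * (1 / 2 * C6) + Mt * (C3 * C4)) * B *
              (bet (ta z))⁻¹) + (bet (ta z))⁻¹ * 1 * (C1 * B ^ 2) := add_le_add f6 f3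
        _ = (C1 * ((2 * Mp + 1) * (1 / 2 * C6) + Mt * (C3 * C4)) + C1) * B ^ 2 *
            (bet (ta z))⁻¹ := by ring
        _ ≤ _ := by linarith [f7]
  · -- outside of the support
    have c1 : ϑ (Hh (gh j) z) = 0 := by
      by_contra hne
      exact hr (hB.th.supp _ hne)
    have c2 : deriv ϑ (Hh (gh j) z) = 0 := by
      by_contra hne
      exact hr (cut_deriv hB.th _ hne)
    have c3 : cf (gh j) ψ ϑ T z = 0 := by
      unfold cf
      rw [c1, mul_zero]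
    have c4 : phi1 (g j) (gh j) ψ ϑ T D (φ j) z = 0 := by
      unfold phi1
      rw [c3, zero_mul]
    have c5 : XX (g j) (phi1 (g j) (gh j) ψ ϑ T D (φ j)) z = 0 := by
      rw [e2, c1, c2]
      ring
    refine ⟨?_, ?_, ?_⟩
    · rintro (h | h)
      · exact absurd c4 h
      · exact absurd c5 h
    · rw [c4, abs_zero]
      positivity
    · rw [c5, c3, zero_mul, sub_zero, abs_zero]
      positivity

end Pool.Agent.LQ
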