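import Pool.Agent.Work.MP_13b5d9_gt.LQ.StmtsQ

set_option autoImplicit false
set_option maxSynthPendingDepth 3

/-!
# MP_13b5d9_gt, block LQ, item SecB: second variation for all energies
-/

open MeasureTheory Set Filter Topology
open scoped ContDiff ENNReal

namespace Pool.Agent.LQ

open Pool.Agent.MLS Pool.Agent.EC Pool.Agent.DR

namespace IQSecB

/-- the dilation as a linear equivalence -/
noncomputable def DlL (m : ℕ) (r : ℝ) (hr : r ≠ 0) : W (m + 1) ≃ₗ[ℝ] W (m + 1) where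
  toFun := Dl r
  invFun := Dl r⁻¹
  map_add' := fun x y => by
    unfold Dl
    simp only [Prod.fst_add, Prod.snd_add, smul_add, Prod.mk_add_mk]
  map_smul' := fun c x => by
    unfold Dl
    simp only [Prod.smul_fst, Prod.smul_snd, RingHom.id_apply, Prod.smul_mk]
    rw [smul_comm]
  left_inv := fun x => by
    unfold Dl
    simp only [smul_smul, inv_mul_cancel₀ hr, one_smul]
  right_inv := fun x => by
    unfold Dl
    simp only [smul_smul, mul_inv_cancel₀ hr, one_smul]

theorem DlL_apply (m : ℕ) (r : ℝ) (hr : r ≠ 0) (z : W (m + 1)) : DlL m r hr z = Dl r z := rfl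

theorem fd_smooth {m : ℕ} (g : Form (m + 1)) (v : E (m + 1)) :
    ContDiff ℝ ∞ (fun y => fderiv ℝ g.val y (eL (m := m)) v v) := by
  have h1 : ContDiff ℝ ∞ (fderiv ℝ g.val) := g.smooth.fderiv_right (by norm_num)
  exact ((h1.clm_apply contDiff_const).clm_apply contDiff_const).clm_apply contDiff_const

/-- change of variables -/
theorem int_Dl (m : ℕ) (r : ℝ) (hr : r ≠ 0) : ∃ c : ℝ, 0 < c ∧ ∀ F : W (m + 1) → ℝ,
    ∫ z, F (Dl r z) = c * ∫ z, F z := by
  have hv : (volume : Measure (W (m + 1))).IsAddHaarMeasure := by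
    change ((volume : Measure (E (m + 1))).prod (volume : Measure (E (m + 1)))).IsAddHaarMeasure
    exact Measure.prod.instIsAddHaarMeasure _ _
  have hdet : LinearMap.det ((DlL m r hr : W (m + 1) ≃ₗ[ℝ] W (m + 1)) :
      W (m + 1) →ₗ[ℝ] W (m + 1)) ≠ 0 := (LinearEquiv.isUnit_det' (DlL m r hr)).ne_zero
  refine ⟨|(LinearMap.det ((DlL m r hr : W (m + 1) ≃ₗ[ℝ] W (m + 1)) :
      W (m + 1) →ₗ[ℝ] W (m + 1)))⁻¹|, abs_pos.2 (inv_ne_zero hdet), fun F => ?_⟩
  have h1 := Measure.map_linearMap_addHaar_eq_smul_addHaar (volume : Measure (W (m + 1))) hdet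
  have hemb : MeasurableEmbedding (fun z : W (m + 1) => Dl r z) :=
    (DlL m r hr).toContinuousLinearEquiv.toHomeomorph.measurableEmbedding
  have h2 := hemb.integral_map (μ := (volume : Measure (W (m + 1)))) F
  have h3 : Measure.map (fun z : W (m + 1) => Dl r z) volume =
      ENNReal.ofReal |(LinearMap.det ((DlL m r hr : W (m + 1) ≃ₗ[ℝ] W (m + 1)) :
        W (m + 1) →ₗ[ℝ] W (m + 1)))⁻¹| • (volume : Measure (W (m + 1))) := h1
  rw [h3, integral_smul_measure, ENNReal.toReal_ofReal (abs_nonneg _), smul_eq_mul] at h2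
  exact h2.symm

end IQSecB

open IQSecB

theorem pr_SecB (h1 : StSec) (h2 : StBas) (h3 : StLft) (h4 : StHd) (h5 : StOp) : StSecB := by
  intro m G _ _ hG hV g hg hI hM hB φ hφ hinv hsupp χ hχ
  obtain ⟨δ, R, hδ, hsupp⟩ := hsupp
  obtain ⟨-, -, b3, -, b5, b6, -, -⟩ := h2 m g hg hB
  obtain ⟨-, -, -, -, -, -, -, hHs, -⟩ := h5 (m + 1) g hg
  have hHc : Continuous (Hm g) := hHs.continuous
  set r : ℝ := 1 + |R| with hr
  have hr1 : 1 ≤ r := by
    have := abs_nonneg R
    linarith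
  have hr0 : r ≠ 0 := by linarith
  have hrR : R ≤ r ^ 2 / 2 := by
    have a1 := le_abs_self R
    have a2 := abs_nonneg R
    rw [hr]
    nlinarith
  -- the dilated function
  set φr : W (m + 1) → ℝ := fun z => φ (Dl r z) with hφr
  have hDd : ∀ z : W (m + 1), HasFDerivAt (fun z : W (m + 1) => Dl r z)
      (((DlL m r hr0).toContinuousLinearEquiv : W (m + 1) →L[ℝ] W (m + 1))) z := fun z =>
    ((DlL m r hr0).toContinuousLinearEquiv).hasFDerivAt
  have hDs : ContDiff ℝ 1 (fun z : W (m + 1) => Dl r z) :=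
    ((DlL m r hr0).toContinuousLinearEquiv).contDiff
  have hφrs : ContDiff ℝ 1 φr := hφ.comp hDs
  have hφri : GInv G g φr := by
    intro a z
    show φ (Dl r (lft g a z)) = φ (Dl r z)
    rw [← (h3 m G hG hV g g hg hg hI hI hB).2.2.2.1, hinv]
  -- the Hamiltonian field
  have hX2 : ∀ z : W (m + 1), (XH (Hm g) (Dl r z)).2 = r ^ 2 • (XH (Hm g) z).2 := by
    intro z
    refine ext_inner_right ℝ fun w => ?_
    rw [(h4 (m + 1) g hg (Dl r z)).2, inner_smul_left, (h4 (m + 1) g hg z).2, b3]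
    have e0 : (Dl r z).1 = z.1 := rfl
    rw [e0]
    simp only [map_smul, smul_apply, smul_eq_mul, conj_trivial]
    ring
  have hX1 : ∀ z : W (m + 1), (XH (Hm g) (Dl r z)).1 = r • (XH (Hm g) z).1 := by
    intro z
    rw [(h4 (m + 1) g hg (Dl r z)).1, (h4 (m + 1) g hg z).1, b3]
  have hX : ∀ z : W (m + 1), XH (Hm g) (Dl r z) = r • Dl r (XH (Hm g) z) := by
    intro z
    refine Prod.ext ?_ ?_
    · rw [hX1]
      rfl
    · rw [hX2]
      show r ^ 2 • (XH (Hm g) z).2 = r • r • (XH (Hm g) z).2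
      rw [smul_smul, pow_two]
  have hXX : ∀ z : W (m + 1), XX g φ (Dl r z) = r * XX g φr z := by
    intro z
    unfold XX
    have a1 : HasFDerivAt φr ((fderiv ℝ φ (Dl r z)).comp
        (((DlL m r hr0).toContinuousLinearEquiv : W (m + 1) →L[ℝ] W (m + 1)))) z :=
      ((hφ.differentiable one_ne_zero) (Dl r z)).hasFDerivAt.comp z (hDd z)
    rw [a1.fderiv, hX, map_smul, smul_eq_mul]
    rfl
  have hd1 : ∀ z : W (m + 1), d1 g (Dl r z).1 (vel g (Dl r z)) = r ^ 2 * d1 g z.1 (vel g z) := by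
    intro z
    unfold d1
    rw [b3]
    have e0 : (Dl r z).1 = z.1 := rfl
    rw [e0]
    simp only [map_smul, smul_apply, smul_eq_mul]
    ring
  have hd2 : ∀ z : W (m + 1), d2 g (Dl r z).1 (vel g (Dl r z)) = r ^ 2 * d2 g z.1 (vel g z) := by
    intro z
    unfold d2
    rw [b3]
    have e0 : (Dl r z).1 = z.1 := rfl
    rw [e0]
    have e1 : (fun y => fderiv ℝ g.val y eL (r • vel g z) (r • vel g z)) =
        fun y => r ^ 2 * fderiv ℝ g.val y eL (vel g z) (vel g z) := by
      funext y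
      simp only [map_smul, smul_apply, smul_eq_mul]
      ring
    have e2 : DifferentiableAt ℝ (fun y => fderiv ℝ g.val y eL (vel g z) (vel g z)) z.1 := by
      exact ((fd_smooth g (vel g z)).differentiable (by norm_num)) _
    rw [e1, fderiv_const_mul e2]
    rfl
  have hSS : ∀ z : W (m + 1), SS g φ (Dl r z) = r ^ 2 * SS g φr z := by
    intro z
    unfold SS
    rw [hd1, hd2, hXX, b5]
    have e0 : ta (Dl r z) = r * ta z := rfl
    have e1 : φ (Dl r z) = φr z := rfl
    rw [e0, e1]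
    have e2 : (φr z * (r ^ 2 * d1 g z.1 (vel g z)) + 2 * (r * ta z) * (r * XX g φr z)) ^ 2 /
        (16 * (r ^ 2 * Hm g z)) =
        r ^ 2 * ((φr z * d1 g z.1 (vel g z) + 2 * ta z * XX g φr z) ^ 2 / (16 * Hm g z)) := by
      have e3 : (φr z * (r ^ 2 * d1 g z.1 (vel g z)) + 2 * (r * ta z) * (r * XX g φr z)) ^ 2 =
          r ^ 2 * (r ^ 2 * (φr z * d1 g z.1 (vel g z) + 2 * ta z * XX g φr z) ^ 2) := by ring
      have e4 : 16 * (r ^ 2 * Hm g z) = r ^ 2 * (16 * Hm g z) := by ring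
      rw [e3, e4, mul_div_mul_left _ _ (pow_ne_zero 2 hr0), mul_div_assoc]
    rw [e2]
    ring
  -- `SS g φ` vanishes at large energies
  have hzero : ∀ z : W (m + 1), R < Hm g z → SS g φ z = 0 := by
    intro z hz
    have a1 : ∀ᶠ y in 𝓝 z, φ y = 0 := by
      filter_upwards [(isOpen_lt continuous_const hHc).mem_nhds hz] with y hy
      by_contra hne
      exact absurd (hsupp y hne).2 (not_le.2 hy)
    have a2 : φ z = 0 := a1.self_of_nhds
    have a3 : fderiv ℝ φ z = 0 := by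
      have a4 : φ =ᶠ[𝓝 z] fun _ => (0 : ℝ) := a1
      rw [a4.fderiv_eq]
      simp
    unfold SS XX
    rw [a2, a3]
    simp
  have hfinal := h1 m G hG hV g hg hI hM hB φr hφrs hφri χ hχ
  have hfull : ∫ z in Disk g, χ z.1 * SS g φr z = ∫ z, χ z.1 * SS g φr z := by
    refine setIntegral_eq_integral_of_forall_compl_eq_zero fun z hz => ?_
    have a1 : 1 / 2 < Hm g z := not_le.1 hz
    have a2 : SS g φ (Dl r z) = 0 := by
      refine hzero _ ?_
      rw [b5]
      have a3 : 0 < r ^ 2 := by positivity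
      nlinarith
    rw [hSS] at a2
    have a4 : SS g φr z = 0 := by
      rcases mul_eq_zero.1 a2 with h | h
      · exact absurd h (pow_ne_zero 2 hr0)
      · exact h
    rw [a4, mul_zero]
  rw [hfull] at hfinal
  obtain ⟨c, hc, hcv⟩ := int_Dl m r hr0
  have e5 : ∫ z : W (m + 1), χ (Dl r z).1 * SS g φ (Dl r z) = c * ∫ z, χ z.1 * SS g φ z :=
    hcv fun z => χ z.1 * SS g φ z
  have e6 : ∫ z : W (m + 1), χ (Dl r z).1 * SS g φ (Dl r z) =
      r ^ 2 * ∫ z, χ z.1 * SS g φr z := by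
    rw [← integral_const_mul]
    refine integral_congr_ae (Eventually.of_forall fun z => ?_)
    show χ (Dl r z).1 * SS g φ (Dl r z) = r ^ 2 * (χ z.1 * SS g φr z)
    rw [hSS]
    have e0 : (Dl r z).1 = z.1 := rfl
    rw [e0]
    ring
  rw [e6] at e5
  have e7 : 0 ≤ c * ∫ z, χ z.1 * SS g φ z := by
    rw [← e5]
    positivity
  exact nonneg_of_mul_nonneg_right e7 hc

end Pool.Agent.LQ
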