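import Mathlib
import Pool.Agent.Work.MP_13b5d9_gt.LQ.StmtsQ

set_option autoImplicit false
set_option maxSynthPendingDepth 3

/-!
# MP_13b5d9_gt, block LQ, part Q: item Set (from the interface `SetupQ` to `SetA`)
-/

open MeasureTheory Set Filter Topology
open scoped ContDiff ENNReal
open Pool.Agent.Work.MP_c9f990_an.Al (IsFlow)

namespace Pool.Agent.LQ

open Pool.Agent.MLS Pool.Agent.EC Pool.Agent.DR

namespace IQSet

/-- the elementary forms -/
noncomputable def bf {n : ℕ} (i k : Fin n) : E n →L[ℝ] E n →L[ℝ] ℝ :=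
  (EuclideanSpace.proj i : E n →L[ℝ] ℝ).smulRight (EuclideanSpace.proj k : E n →L[ℝ] ℝ)

theorem bf_apply {n : ℕ} (i k : Fin n) (u v : E n) : bf i k u v = u i * v k := by
  simp [bf]

theorem sum_ee {n : ℕ} (u : E n) : ∑ i, u i • (ee i : E n) = u := by
  ext k
  simp [ee, Finset.sum_apply, Pi.single_apply]

theorem form_eq {n : ℕ} (A : E n →L[ℝ] E n →L[ℝ] ℝ) :
    ∑ i, ∑ k, A (ee i) (ee k) • bf i k = A := by
  refine ContinuousLinearMap.ext fun u => ContinuousLinearMap.ext fun v => ?_
  have h1 : A u v = ∑ i, u i * A (ee i) v := by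
    conv_lhs => rw [← sum_ee u]
    simp
  have h2 : ∀ i, A (ee i) v = ∑ k, v k * A (ee i) (ee k) := by
    intro i
    conv_lhs => rw [← sum_ee v]
    simp
  rw [h1]
  simp only [FunLike.coe_sum, FunLike.coe_smul, Finset.sum_apply, Pi.smul_apply, bf_apply,
    smul_eq_mul, h2, Finset.mul_sum]
  refine Finset.sum_congr rfl fun i _ => Finset.sum_congr rfl fun k _ => ?_
  ring

/-- continuous convergence of forms from that of the entries -/
theorem cc_form {n : ℕ} {α : Type*} [TopologicalSpace α] {F : ℕ → α → E n →L[ℝ] E n →L[ℝ] ℝ}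
    {f : α → E n →L[ℝ] E n →L[ℝ] ℝ}
    (h : ∀ u v, CC (fun j x => F j x u v) (fun x => f x u v)) : CC F f := by
  have h1 : CC (fun j x => ∑ i, ∑ k, F j x (ee i) (ee k) • bf i k)
      (fun x => ∑ i, ∑ k, f x (ee i) (ee k) • bf i k) :=
    CC.sum _ fun i _ => CC.sum _ fun k _ => CC.smul (h (ee i) (ee k)) (CC.const continuous_const)
  exact h1.congr (fun j x => form_eq _) (fun x => form_eq _)

theorem mean_const {m : ℕ} (f : E (m + 1) → ℝ) (hf : ∀ x (s : ℝ), f (x + s • eL) = f x)
    (x : E (m + 1)) : ∫ s in (0 : ℝ)..1, f (x + s • eL) = f x := by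
  simp [hf]

theorem tinv_fderiv {V X : Type*} [NormedAddCommGroup V] [NormedSpace ℝ V]
    [NormedAddCommGroup X] [NormedSpace ℝ X] (F : V → X) (e : V)
    (hF : ∀ x (s : ℝ), F (x + s • e) = F x) (x : V) (s : ℝ) :
    fderiv ℝ F (x + s • e) = fderiv ℝ F x := by
  rw [← fderiv_comp_add_right]
  congr 1
  funext y
  exact hF y s

section comp
variable {m : ℕ}

theorem sm0 (g : Form (m + 1)) (u v : E (m + 1)) : ContDiff ℝ ∞ (fun x => g.val x u v) :=
  (g.smooth.clm_apply contDiff_const).clm_apply contDiff_const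

theorem sm1 (g : Form (m + 1)) (u v w : E (m + 1)) :
    ContDiff ℝ ∞ (fun x => fderiv ℝ g.val x u v w) :=
  (((g.smooth.fderiv_right (m := ∞) (by norm_num)).clm_apply contDiff_const).clm_apply
    contDiff_const).clm_apply contDiff_const

theorem df0 (g : Form (m + 1)) (x w u v : E (m + 1)) :
    fderiv ℝ (fun y => g.val y u v) x w = fderiv ℝ g.val x w u v := by
  have h : HasFDerivAt g.val (fderiv ℝ g.val x) x :=
    (g.smooth.differentiable (by norm_num) x).hasFDerivAt
  have h1 := (h.clm_apply (hasFDerivAt_const u x)).clm_apply (hasFDerivAt_const v x)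
  rw [h1.fderiv]
  simp

theorem df1 (g : Form (m + 1)) (x u' u v w : E (m + 1)) :
    fderiv ℝ (fun y => fderiv ℝ g.val y u v w) x u' =
      fderiv ℝ (fderiv ℝ g.val) x u' u v w := by
  have h0 : ContDiff ℝ ∞ (fderiv ℝ g.val) := g.smooth.fderiv_right (m := ∞) (by norm_num)
  have h : HasFDerivAt (fderiv ℝ g.val) (fderiv ℝ (fderiv ℝ g.val) x) x :=
    (h0.differentiable (by norm_num) x).hasFDerivAt
  have h1 := ((h.clm_apply (hasFDerivAt_const u x)).clm_apply (hasFDerivAt_const v x)).clm_apply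
    (hasFDerivAt_const w x)
  rw [h1.fderiv]
  simp

/-- entries of the mean -/
theorem av0 {g gh : Form (m + 1)} (h : IsAvg g gh) (u v : E (m + 1)) :
    (fun x => gh.val x u v) = fun x => ∫ s in (0 : ℝ)..1, g.val (x + s • eL) u v :=
  funext fun x => h x u v

theorem av1 (hP : StPin) {g gh : Form (m + 1)} (h : IsAvg g gh) (w u v x : E (m + 1)) :
    fderiv ℝ gh.val x w u v = ∫ s in (0 : ℝ)..1, fderiv ℝ g.val (x + s • eL) w u v := by
  rw [← df0, av0 h u v]
  have h1 := (hP m _ (sm0 g u v)).2 x w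
  rw [h1]
  refine intervalIntegral.integral_congr fun s _ => ?_
  exact df0 g _ w u v

theorem av2 (hP : StPin) {g gh : Form (m + 1)} (h : IsAvg g gh) (u v w u' x : E (m + 1)) :
    fderiv ℝ (fun y => fderiv ℝ gh.val y u v w) x u' =
      ∫ s in (0 : ℝ)..1, fderiv ℝ (fun y => fderiv ℝ g.val y u v w) (x + s • eL) u' := by
  have h0 : (fun y => fderiv ℝ gh.val y u v w) =
      fun y => ∫ s in (0 : ℝ)..1, fderiv ℝ g.val (y + s • eL) u v w :=
    funext fun y => av1 hP h u v w y
  rw [h0]
  exact (hP m _ (sm1 g u v w)).2 x u'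

end comp

/-- evaluation of the convergence of iterated derivatives -/
theorem ccI {m : ℕ} {g : ℕ → Form (m + 1)} {g0 : Form (m + 1)} {i : ℕ}
    (h : TendstoLocallyUniformly (fun j => iteratedFDeriv ℝ i (g j).val)
      (iteratedFDeriv ℝ i g0.val) atTop) (w : Fin i → E (m + 1)) :
    CC (fun j x => iteratedFDeriv ℝ i (g j).val x w)
      (fun x => iteratedFDeriv ℝ i g0.val x w) := by
  have h1 : Continuous (iteratedFDeriv ℝ i g0.val) :=
    g0.smooth.continuous_iteratedFDeriv (by exact_mod_cast le_top)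
  exact (CC.of_locUnif h h1).comp' (ContinuousMultilinearMap.apply ℝ _ _ w).continuous

end IQSet

open IQSet

theorem pr_Set (h1 : StPer) (h2 : StPin) (h3 : StAvE) (h4 : StAvC) (h5 : StFlow) : StSet := by
  intro m G _ act g g0 χ S hS
  have hg : ∀ j, ∃ gh : Form (m + 1), IsAvg (g j) gh ∧ Riem gh ∧
      @MLS.Inv (m + 1) G _ (act j) gh ∧ Blk gh ∧ TInv gh eL := by
    intro j
    let _ := act j
    exact h3 m G (hS.vert j) (hS.per j) (g j) (hS.riem j) (hS.inv j) (hS.blk j)
  choose gh a1 a2 a3 a4 a5 using hg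
  have hf : ∀ j, ∃ (φ : ℝ → W (m + 1) → W (m + 1))
      (M : ℝ → W (m + 1) → W (m + 1) →L[ℝ] W (m + 1)), IsFlow (XH (Hm (gh j))) φ M := by
    intro j
    let _ := act j
    exact h5 (m + 1) G (hS.coc j) (gh j) (a2 j) (a3 j)
  choose φ M hφ using hf
  obtain ⟨φ0, M0, hφ0⟩ := hS.flow0
  have c0 : CC (fun j => (g j).val) g0.val :=
    (ccI (hS.conv 0) ![]).congr (fun j x => iteratedFDeriv_zero_apply _)
      (fun x => iteratedFDeriv_zero_apply _)
  have c1 : ∀ u, CC (fun j x => fderiv ℝ (g j).val x u) (fun x => fderiv ℝ g0.val x u) :=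
    fun u => (ccI (hS.conv 1) ![u]).congr (fun j x => iteratedFDeriv_one_apply _)
      (fun x => iteratedFDeriv_one_apply _)
  have c2 : ∀ u v w u', CC (fun j x => fderiv ℝ (fun y => fderiv ℝ (g j).val y u v w) x u')
      (fun x => fderiv ℝ (fun y => fderiv ℝ g0.val y u v w) x u') := by
    intro u v w u'
    have h := ccI (hS.conv 2) ![u', u]
    have h' : CC (fun j x => iteratedFDeriv ℝ 2 (g j).val x ![u', u] v w)
        (fun x => iteratedFDeriv ℝ 2 g0.val x ![u', u] v w) :=
      (h.clm_apply (CC.const continuous_const)).clm_apply (CC.const continuous_const)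
    refine h'.congr (fun j x => ?_) (fun x => ?_)
    · rw [df1, iteratedFDeriv_two_apply]
      rfl
    · rw [df1, iteratedFDeriv_two_apply]
      rfl
  have t0 : ∀ x (s : ℝ), g0.val (x + s • eL) = g0.val x := hS.tinv0
  have t1 : ∀ x (s : ℝ), fderiv ℝ g0.val (x + s • eL) = fderiv ℝ g0.val x :=
    tinv_fderiv _ _ t0
  have t2 : ∀ u v w x (s : ℝ), fderiv ℝ (fun y => fderiv ℝ g0.val y u v w) (x + s • eL) =
      fderiv ℝ (fun y => fderiv ℝ g0.val y u v w) x := by
    intro u v w
    refine tinv_fderiv _ _ fun x s => ?_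
    rw [t1]
  have h0 : CC (fun j => (gh j).val) g0.val := by
    refine cc_form fun u v => ?_
    have h := h4 m (fun j x => (g j).val x u v) (fun x => g0.val x u v)
      (fun j => (sm0 (g j) u v).continuous)
      ((c0.clm_apply (CC.const continuous_const)).clm_apply (CC.const continuous_const))
    refine h.congr (fun j x => (a1 j x u v).symm) (fun x => ?_)
    exact mean_const (fun x => g0.val x u v) (fun x s => by rw [t0]) x
  have h1' : ∀ u, CC (fun j x => fderiv ℝ (gh j).val x u) (fun x => fderiv ℝ g0.val x u) := by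
    intro w
    refine cc_form fun u v => ?_
    have h := h4 m (fun j x => fderiv ℝ (g j).val x w u v) (fun x => fderiv ℝ g0.val x w u v)
      (fun j => (sm1 (g j) w u v).continuous)
      (((c1 w).clm_apply (CC.const continuous_const)).clm_apply (CC.const continuous_const))
    refine h.congr (fun j x => (av1 h2 (a1 j) w u v x).symm) (fun x => ?_)
    exact mean_const (fun x => fderiv ℝ g0.val x w u v) (fun x s => by rw [t1]) x
  have h2' : ∀ u v w u', CC (fun j x => fderiv ℝ (fun y => fderiv ℝ (gh j).val y u v w) x u')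
      (fun x => fderiv ℝ (fun y => fderiv ℝ g0.val y u v w) x u') := by
    intro u v w u'
    have h := h4 m (fun j x => fderiv ℝ (fun y => fderiv ℝ (g j).val y u v w) x u')
      (fun x => fderiv ℝ (fun y => fderiv ℝ g0.val y u v w) x u')
      (fun j => (((sm1 (g j) u v w).fderiv_right (m := ∞) (by norm_num)).clm_apply
        contDiff_const).continuous) (c2 u v w u')
    refine h.congr (fun j x => (av2 h2 (a1 j) u v w u' x).symm) (fun x => ?_)
    exact mean_const (fun x => fderiv ℝ (fun y => fderiv ℝ g0.val y u v w) x u')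
      (fun x s => by rw [t2]) x
  refine ⟨gh, φ, M, φ0, M0, ⟨hS.riem, hS.blk, ?_, a1, a2, a4, a5, hS.riem0, hS.blk0, hS.tinv0,
    c0, c1, c2, h0, h1', h2', hφ, hφ0⟩, a3⟩
  intro j
  let _ := act j
  exact h1 m G (g j) (hS.inv j) (hS.per j)

end Pool.Agent.LQ
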