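import Mathlib
import Pool.Agent.Work.MP_13b5d9_gt.LQ.StmtsQ
import Pool.Agent.Work.MP_13b5d9_gt.DR.I_TenB

set_option autoImplicit false

/-!
# MP_13b5d9_gt, block LQ, Theorem Q, item Tn: tent averages
-/

open MeasureTheory Set Filter Topology
open scoped ContDiff ENNReal
open Pool.Agent.Work.MP_c9f990_an.Al (IsFlow)

namespace Pool.Agent.LQ

open Pool.Agent.MLS Pool.Agent.EC Pool.Agent.DR

namespace IQTn

/-- integrals of continuously differentiable functions with a parameter -/
theorem par {V : Type} [NormedAddCommGroup V] [NormedSpace ℝ V] [ProperSpace V]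
    (F : V → ℝ → ℝ) (F' : V → ℝ → V →L[ℝ] ℝ) (hF : Continuous (Function.uncurry F))
    (hF' : Continuous (Function.uncurry F')) (hd : ∀ z s, HasFDerivAt (fun y => F y s) (F' z s) z)
    (a b : ℝ) : ∀ z, HasFDerivAt (fun z => ∫ s in a..b, F z s) (∫ s in a..b, F' z s) z := by
  intro z₀
  have hK : IsCompact (Metric.closedBall z₀ 1 ×ˢ Set.uIcc a b) :=
    (isCompact_closedBall z₀ 1).prod isCompact_uIcc
  obtain ⟨C, hC⟩ := hK.exists_bound_of_continuousOn (f := Function.uncurry F') hF'.continuousOn
  have hFs : ∀ z, Continuous (F z) := fun z => hF.comp (continuous_const.prodMk continuous_id)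
  have hFs' : ∀ z, Continuous (F' z) := fun z => hF'.comp (continuous_const.prodMk continuous_id)
  apply intervalIntegral.hasFDerivAt_integral_of_dominated_of_fderiv_le
    (s := Metric.closedBall z₀ 1) (bound := fun _ => C) (Metric.closedBall_mem_nhds z₀ one_pos)
  · exact Filter.Eventually.of_forall fun z => (hFs z).aestronglyMeasurable
  · exact (hFs z₀).intervalIntegrable a b
  · exact (hFs' z₀).aestronglyMeasurable
  · refine Filter.Eventually.of_forall fun t ht z hz => ?_
    exact hC (z, t) ⟨hz, Set.uIoc_subset_uIcc ht⟩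
  · exact intervalIntegrable_const
  · exact Filter.Eventually.of_forall fun t _ z _ => hd z t

end IQTn

theorem pr_Tn : StTn := by
  intro Q _ _ _ F φ M hφ k D hk hD
  have hd : ∀ z, HasFDerivAt k (fderiv ℝ k z) z := fun z => (hk.differentiable one_ne_zero z).hasFDerivAt
  have hk' : Continuous (fderiv ℝ k) := hk.continuous_fderiv one_ne_zero
  have hφc : Continuous (fun p : Q × ℝ => φ p.2 p.1) :=
    hφ.cont.comp (continuous_snd.prodMk continuous_fst)
  have hMc : Continuous (fun p : Q × ℝ => M p.2 p.1) :=
    hφ.Mcont.comp (continuous_snd.prodMk continuous_fst)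
  have hw : Continuous (fun p : Q × ℝ => D - |p.2|) :=
    continuous_const.sub (continuous_abs.comp continuous_snd)
  have hF' : Continuous (Function.uncurry (fun (z : Q) (s : ℝ) => (D - |s|) • (fderiv ℝ k (φ s z)).comp (M s z))) :=
    hw.smul ((hk'.comp hφc).clm_comp hMc)
  have hp := IQTn.par (fun z s => (D - |s|) * k (φ s z))
    (fun z s => (D - |s|) • (fderiv ℝ k (φ s z)).comp (M s z)) (hw.mul (hk.continuous.comp hφc)) hF'
    (fun z s => ((hd (φ s z)).comp z (hφ.diff s z)).const_mul (D - |s|)) (-D) D
  refine ⟨?_, ?_, ?_⟩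
  · rw [contDiff_one_iff_hasFDerivAt]
    exact ⟨_, intervalIntegral.continuous_parametric_intervalIntegral_of_continuous' hF' (-D) D, hp⟩
  · intro z w
    rw [(hp z).fderiv, ContinuousLinearMap.intervalIntegral_apply]
    · refine intervalIntegral.integral_congr fun s _ => ?_
      rfl
    · exact (hF'.comp (continuous_const.prodMk continuous_id)).intervalIntegrable _ _
  · intro z
    have hφz : Continuous fun s => φ s z := hφ.cont.comp (continuous_id.prodMk continuous_const)
    have hcurve : HasDerivAt (fun t => φ t z) (F z) 0 := by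
      have := hφ.ode z 0
      rwa [hφ.zero] at this
    set f : Q → ℝ := fun z => ∫ s in (-D)..D, (D - |s|) * k (φ s z) with hf
    have hff : HasFDerivAt f (fderiv ℝ f z) (φ 0 z) := by
      rw [hφ.zero]
      exact (hp z).differentiableAt.hasFDerivAt
    have hd1 : HasDerivAt (fun t => f (φ t z)) (fderiv ℝ f z (F z)) 0 := by
      have h := hff.comp_hasDerivAt (0 : ℝ) hcurve
      exact h
    have hd2 : HasDerivAt (fun t => f (φ t z))
        ((∫ s in (0 : ℝ)..D, k (φ s z)) - ∫ s in (-D)..0, k (φ s z)) 0 := by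
      have h := IDRTenB.tent_deriv (fun s => k (φ s z)) (hk.continuous.comp hφz) D hD
      refine h.congr_of_eventuallyEq (Eventually.of_forall fun t => ?_)
      show (∫ s in (-D)..D, (D - |s|) * k (φ s (φ t z))) = ∫ s in (-D)..D, (D - |s|) * k (φ (s + t) z)
      refine intervalIntegral.integral_congr fun s _ => ?_
      show (D - |s|) * k (φ s (φ t z)) = (D - |s|) * k (φ (s + t) z)
      rw [hφ.add]
    exact hd1.unique hd2

end Pool.Agent.LQ
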