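import Mathlib
import Pool.Agent.Work.MP_13b5d9_gt.LQ.StmtsQ
import Pool.Agent.Work.MP_13b5d9_gt.DR.I_Sec

set_option autoImplicit false
set_option maxSynthPendingDepth 3

/-!
# MP_13b5d9_gt, block LQ, Theorem Q, item Up: the upper bound of `V`
-/

open MeasureTheory Set Filter Topology
open scoped ContDiff ENNReal
open Pool.Agent.Work.MP_c9f990_an.Al (IsFlow)

namespace Pool.Agent.LQ

open Pool.Agent.MLS Pool.Agent.EC Pool.Agent.DR

namespace IQUp

variable {m : ℕ}

/-- integrability of continuous functions of bounded energy -/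
theorem hint (h : StSub) (g : Form (m + 1)) (hR : Riem g) {χ : E (m + 1) → ℝ}
    (hc : Continuous χ) (hs : HasCompactSupport χ) {F : W (m + 1) → ℝ} (hF : Continuous F) (R : ℝ)
    (hb : ∀ z, F z ≠ 0 → Hm g z ≤ R) : Integrable (fun z : W (m + 1) => χ z.1 * F z) := by
  have hQ := h (m + 1) g hR (tsupport χ) R hs
  apply ((hc.comp continuous_fst).mul hF).integrable_of_hasCompactSupport
  apply HasCompactSupport.intro hQ
  intro z hz
  show χ z.1 * F z = 0
  by_cases hz1 : z.1 ∈ tsupport χ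
  · have h0 : F z = 0 := by
      by_contra hne
      exact hz ⟨hz1, hb z hne⟩
    rw [h0, mul_zero]
  · rw [image_eq_zero_of_notMem_tsupport hz1, zero_mul]

theorem fderiv_zero {φ : W (m + 1) → ℝ} {U : Set (W (m + 1))} (hU : IsOpen U)
    (h : ∀ z ∈ U, φ z = 0) {z : W (m + 1)} (hz : z ∈ U) : fderiv ℝ φ z = 0 := by
  have h1 : φ =ᶠ[𝓝 z] fun _ => (0 : ℝ) := by
    filter_upwards [hU.mem_nhds hz] with y hy using h y hy
  rw [h1.fderiv_eq]
  simp

/-- the second variation of a function supported in `δ ≤ Hm g ≤ R` -/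
theorem int_SS (h5 : StSub) (h7 : StOp) (g : Form (m + 1)) (hR : Riem g) {χ : E (m + 1) → ℝ}
    (hc : Continuous χ) (hs : HasCompactSupport χ) {φ : W (m + 1) → ℝ} (hφ : ContDiff ℝ 1 φ)
    {δ R : ℝ} (hδ : 0 < δ) (hsup : ∀ z, φ z ≠ 0 → δ ≤ Hm g z ∧ Hm g z ≤ R) :
    Integrable (fun z : W (m + 1) => χ z.1 * SS g φ z) := by
  have hHc := IDRSec.cont_Hm h7 g hR
  have hLc := IDRSec.cont_L h7 g hR φ hφ
  have hz1 : ∀ z, Hm g z < δ → φ z = 0 ∧ XX g φ z = 0 := by
    intro z hz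
    have hU : IsOpen {z : W (m + 1) | Hm g z < δ} := isOpen_lt hHc continuous_const
    have h0 : ∀ z ∈ {z : W (m + 1) | Hm g z < δ}, φ z = 0 := by
      intro y hy
      by_contra hne
      exact absurd (hsup y hne).1 (not_le.2 hy)
    refine ⟨h0 z hz, ?_⟩
    unfold XX
    rw [fderiv_zero hU h0 (show z ∈ {z : W (m + 1) | Hm g z < δ} from hz)]
    simp
  have hz2 : ∀ z, R < Hm g z → φ z = 0 ∧ XX g φ z = 0 := by
    intro z hz
    have hU : IsOpen {z : W (m + 1) | R < Hm g z} := isOpen_lt continuous_const hHc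
    have h0 : ∀ z ∈ {z : W (m + 1) | R < Hm g z}, φ z = 0 := by
      intro y hy
      by_contra hne
      exact absurd (hsup y hne).2 (not_le.2 hy)
    refine ⟨h0 z hz, ?_⟩
    unfold XX
    rw [fderiv_zero hU h0 (show z ∈ {z : W (m + 1) | R < Hm g z} from hz)]
    simp
  have hmax : ∀ z : W (m + 1), 0 < max (Hm g z) δ := fun z => lt_max_of_lt_right hδ
  have heq : SS g φ = fun z => IDRSec.S1 g φ z -
      (φ z * DR.d1 g z.1 (vel g z) + 2 * ta z * XX g φ z) ^ 2 / (16 * max (Hm g z) δ) := by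
    funext z
    show IDRSec.S1 g φ z - (φ z * DR.d1 g z.1 (vel g z) + 2 * ta z * XX g φ z) ^ 2 / (16 * Hm g z) = _
    rcases lt_or_ge (Hm g z) δ with h | h
    · obtain ⟨a, b⟩ := hz1 z h
      rw [a, b]
      simp
    · rw [max_eq_left h]
  have hcont : Continuous (SS g φ) := by
    rw [heq]
    refine (IDRSec.cont_S1 h7 g hR φ hφ).sub ?_
    refine (hLc.pow 2).div (continuous_const.mul (hHc.max continuous_const)) ?_
    intro z
    have := hmax z
    positivity
  refine hint h5 g hR hc hs hcont R ?_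
  intro z hz
  by_contra hlt
  push Not at hlt
  obtain ⟨a, b⟩ := hz2 z hlt
  apply hz
  unfold SS
  rw [a, b]
  simp

theorem cont_bet : Continuous bet := by
  unfold bet
  have h1 : Continuous (fun τ : ℝ => Real.sqrt (1 + τ ^ 2)) := by fun_prop
  refine h1.inv₀ ?_
  intro τ
  exact (Real.sqrt_pos.2 (by positivity)).ne'

theorem bet_sq (τ : ℝ) : bet τ ^ 2 = (1 + τ ^ 2)⁻¹ := by
  unfold bet
  rw [inv_pow, Real.sq_sqrt (by positivity)]

theorem bet_pos (τ : ℝ) : 0 < bet τ := by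
  unfold bet
  exact inv_pos.2 (Real.sqrt_pos.2 (by positivity))

/-- integrals along the orbits are continuous -/
theorem cont {n : ℕ} {φ : ℝ → W n → W n}
    (hφ : Continuous (fun p : ℝ × W n => φ p.1 p.2)) {c : ℝ → W n → ℝ}
    (hc : Continuous (fun p : ℝ × W n => c p.1 p.2)) (a b : ℝ) :
    Continuous (fun z => ∫ s in a..b, c s (φ s z)) := by
  apply intervalIntegral.continuous_parametric_intervalIntegral_of_continuous'
  have e : Continuous (fun p : W n × ℝ => (p.2, p.1)) := continuous_snd.prodMk continuous_fst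
  have e2 : Continuous (fun p : W n × ℝ => (p.2, φ p.2 p.1)) := continuous_snd.prodMk (hφ.comp e)
  exact hc.comp e2

theorem psi1_supp {ψ ϑ w0 ψ1 θ1 : ℝ → ℝ} (hb : Bmp ψ ϑ w0 ψ1 θ1) {T : ℝ} (hT : 0 < T) {t : ℝ}
    (h : ψ1 (t / T) ≠ 0) : |t| ≤ 2 * T := by
  obtain ⟨a, b⟩ := hb.psi1.supp _ h
  rw [le_div_iff₀ hT] at a
  rw [div_le_iff₀ hT] at b
  rw [abs_le]
  constructor <;> linarith

theorem cpt_psi1 {ψ ϑ w0 ψ1 θ1 : ℝ → ℝ} (hb : Bmp ψ ϑ w0 ψ1 θ1) {T : ℝ} (hT : 0 < T) (f : ℝ → ℝ) :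
    HasCompactSupport (fun t => f t * ψ1 (t / T)) := by
  apply HasCompactSupport.intro (isCompact_Icc (a := -(2 * T)) (b := 2 * T))
  intro t ht
  have h0 : ψ1 (t / T) = 0 := by
    by_contra hne
    exact ht (abs_le.1 (psi1_supp hb hT hne))
  simp [h0]

theorem int_psi1 {ψ ϑ w0 ψ1 θ1 : ℝ → ℝ} (hb : Bmp ψ ϑ w0 ψ1 θ1) {T : ℝ} (hT : 0 < T) :
    ∫ t, 1 * ψ1 (t / T) ≤ 4 * T := by
  have h1 : ∫ t, 1 * ψ1 (t / T) ≤ ∫ t, (Icc (-(2 * T)) (2 * T)).indicator (fun _ => (1 : ℝ)) t := by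
    apply integral_mono_of_nonneg
    · exact Eventually.of_forall fun t => mul_nonneg zero_le_one (hb.psi1.nonneg _)
    · exact (integrable_indicator_iff measurableSet_Icc).2 (by simp)
    · refine Eventually.of_forall fun t => ?_
      show 1 * ψ1 (t / T) ≤ _
      by_cases h : ψ1 (t / T) = 0
      · rw [h, mul_zero]
        exact indicator_nonneg (fun _ _ => zero_le_one) _
      · rw [indicator_of_mem (show t ∈ Icc (-(2 * T)) (2 * T) from abs_le.1 (psi1_supp hb hT h)), one_mul]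
        exact hb.psi1_le _
  refine h1.trans (le_of_eq ?_)
  rw [integral_indicator measurableSet_Icc]
  simp
  rw [max_eq_left (by linarith)]
  ring

theorem int_bet {ψ ϑ w0 ψ1 θ1 : ℝ → ℝ} (hb : Bmp ψ ϑ w0 ψ1 θ1) {T : ℝ} :
    ∫ t, bet t ^ 2 * ψ1 (t / T) ≤ Real.pi := by
  rw [← integral_univ_inv_one_add_sq]
  apply integral_mono_of_nonneg
  · exact Eventually.of_forall fun t => mul_nonneg (sq_nonneg _) (hb.psi1.nonneg _)
  · exact integrable_inv_one_add_sq
  · refine Eventually.of_forall fun t => ?_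
    show bet t ^ 2 * ψ1 (t / T) ≤ (1 + t ^ 2)⁻¹
    rw [bet_sq]
    have h1 : (0 : ℝ) ≤ (1 + t ^ 2)⁻¹ := by positivity
    calc (1 + t ^ 2)⁻¹ * ψ1 (t / T) ≤ (1 + t ^ 2)⁻¹ * 1 :=
          mul_le_mul_of_nonneg_left (hb.psi1_le _) h1
      _ = _ := mul_one _

theorem deriv_bdd {ψ ϑ w0 ψ1 θ1 : ℝ → ℝ} (hb : Bmp ψ ϑ w0 ψ1 θ1) :
    ∃ C, 0 < C ∧ ∀ x, |deriv ϑ x| ≤ C := by
  have h1 : HasCompactSupport ϑ := by
    apply HasCompactSupport.intro (isCompact_Icc (a := (1 / 8 : ℝ)) (b := 3 / 8))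
    intro t ht
    by_contra hne
    exact ht (hb.th.supp _ hne)
  have h2 : Continuous (deriv ϑ) := hb.th.smooth.continuous_deriv (by norm_num)
  obtain ⟨C, hC⟩ := h2.bounded_above_of_compact_support h1.deriv
  exact ⟨|C| + 1, by positivity, fun x => by
    have := hC x
    rw [Real.norm_eq_abs] at this
    exact this.trans ((le_abs_self C).trans (by linarith))⟩

/-- the integral of a partition of unity -/
theorem int_chi {G : Type} [Group G] [MulAction G (E (m + 1))] {χ : E (m + 1) → ℝ} (hχ : PU G χ)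
    {S : Set (E (m + 1))} (hS : IsCompact S) (hs : ∀ x, χ x ≠ 0 → x ∈ S) :
    ∫ x, χ x ≤ (volume S).toReal := by
  have h1 : ∀ x, χ x ≤ 1 := by
    intro x
    have h2 := le_hasSum (hχ.sum x) (1 : G) (fun a _ => hχ.nonneg _)
    rwa [one_smul] at h2
  have h3 : ∫ x, χ x ≤ ∫ x, S.indicator (fun _ => (1 : ℝ)) x := by
    apply integral_mono_of_nonneg
    · exact Eventually.of_forall fun x => hχ.nonneg x
    · exact (integrable_indicator_iff hS.measurableSet).2
        (integrableOn_const hS.measure_lt_top.ne)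
    · refine Eventually.of_forall fun x => ?_
      by_cases h : χ x = 0
      · show χ x ≤ _
        rw [h]
        exact indicator_nonneg (fun _ _ => zero_le_one) _
      · show χ x ≤ _
        rw [indicator_of_mem (hs x h)]
        exact h1 x
  refine h3.trans (le_of_eq ?_)
  rw [integral_indicator hS.measurableSet]
  simp [Measure.real]

end IQUp

open IQUp

theorem pr_Up (h1 : StPt) (h2 : StSecB) (h3 : StPhi) (h4 : StC0) (h5 : StFB) (h6 : StFC)
    (h7 : StWt) (h8 : StDeu) (h9 : StInt) (h10 : StPw) (h12 : StSub) (h13 : StOp)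
    (h14 : StXt) (h15 : StA0) : StUp := by
  intro m G _ act g gh g0 χ S φ M φ0 M0 hQ hA hinvh ψ ϑ w0 ψ1 θ1 hb
  obtain ⟨C1p, hC1p, hPt⟩ := h1 m g gh g0 φ M φ0 M0 hA S hQ.cpt ψ ϑ w0 ψ1 θ1 hb
  obtain ⟨Cw, hCw, hPw⟩ := h10 m g gh g0 φ M φ0 M0 hA S hQ.cpt
  obtain ⟨Ci, hCi, hInt⟩ := h9 m g gh g0 φ M φ0 M0 hA S hQ.cpt ψ ϑ w0 ψ1 θ1 hb
  obtain ⟨Ca, hCa, hA0⟩ := h15 m g gh g0 φ M φ0 M0 hA S hQ.cpt ψ ϑ w0 ψ1 θ1 hb
  obtain ⟨Ct, hCt, hth⟩ := deriv_bdd hb
  set vol : ℝ := (volume S).toReal with hvol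
  have hvol0 : 0 ≤ vol := ENNReal.toReal_nonneg
  set c0 : ℝ := Ct * Cw ^ 2 + 2 * Cw with hc0
  have hc0p : 0 < c0 := by positivity
  have hpi := Real.pi_pos
  refine ⟨64 * ((c0 / 4 + C1p) * (Ci * Real.pi)), by positivity, ?_⟩
  intro D hD
  obtain ⟨K, Cp, hK, hSK, hCp, hPt'⟩ := hPt D hD
  refine ⟨K, 64 * (Cp * (Ci * 4 * (vol + 1))), hK, by positivity, ?_⟩
  filter_upwards [hPt', hPw, hInt, hA0] with j jPt jPw jInt jA0
  intro T hT B hNB hTB
  letI := act j
  have hTp : 0 < T := by linarith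
  have hD0 : 0 ≤ D := by linarith
  have hB0 : 0 ≤ B := hNB.nonneg
  have hR := hA.riem j
  have hBl := hA.blk j
  have hRh := hA.riemh j
  have hBh := hA.blkh j
  have hI := hQ.inv j
  have hIh := hinvh j
  have hχ := hQ.pu j
  have hχc : Continuous (χ j) := hχ.smooth.continuous
  have hfl := hA.fl j
  obtain ⟨w1, w2, w3, w4, w5, w6, w7, w8, w9⟩ := h7 m G (hQ.coc j) (hQ.vert j) (gh j) (φ j) (M j)
    hRh hIh hBh (hA.tinvh j) hfl ψ ϑ w0 ψ1 θ1 hb T hTp
  obtain ⟨u1, u2, u3, u4, u5, u6, u7⟩ := h8 m (g j) (gh j) hR hBl hRh hBh (hA.tinvh j) (hA.per j)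
  obtain ⟨-, u9⟩ := u7 G (hQ.coc j) (hQ.vert j) hI hIh
  obtain ⟨p1, p2, p3, p4, δ, R, hδ, hsup⟩ := h3 m G (hQ.coc j) (hQ.vert j) (g j) (gh j) (φ j) (M j)
    hR hI hBl (hA.per j) hRh hIh hBh (hA.tinvh j) hfl ψ ϑ w0 ψ1 θ1 hb T D hTp hD0
  obtain ⟨x1, x2, -, -, -, -, -, x8, x9, -⟩ := h14 m (g j) hR hBl
  obtain ⟨-, y2, -, -, -, -, -, y8, y9, -⟩ := h14 m (gh j) hRh hBh
  -- the functions
  set P : W (m + 1) → ℝ := phi (g j) (gh j) ψ ϑ T D (φ j) with hPd
  have hPc : ContDiff ℝ 1 P := p1.sub (contDiff_const.mul p2)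
  have hPi : GInv G (g j) P := by
    intro a z
    show phi0 (g j) ψ ϑ T (lft (g j) a z) -
      1 / 16 * phi1 (g j) (gh j) ψ ϑ T D (φ j) (lft (g j) a z) = _
    rw [p3 a z, p4 a z]
    rfl
  have hsec := h2 m G (hQ.coc j) (hQ.vert j) (g j) hR hI (hQ.minz j) hBl P hPc hPi
    ⟨δ, R, hδ, hsup⟩ (χ j) hχ
  have iSS := int_SS h12 h13 (g j) hR hχc hχ.cpt hPc hδ hsup
  set FA : W (m + 1) → ℝ := fun z => phi0 (g j) ψ ϑ T z ^ 2 * dd2 (g j) z with hFA
  set FB : W (m + 1) → ℝ := fun z => wT (gh j) ψ ϑ T z *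
    (tnt (φ j) D (kq (g j) (gh j)) z * kq (g j) (gh j) z) with hFB
  set FC : W (m + 1) → ℝ := fun z => wT (gh j) ψ ϑ T z *
    dtn (φ j) D (kq (g j) (gh j)) z ^ 2 with hFC
  set FD : W (m + 1) → ℝ := fun z => NN (g j) z.1 ^ 2 *
    (bet (ta z) ^ 2 * ψ1 (ta z / T) * θ1 (Hh (gh j) z)) with hFD
  set FE : W (m + 1) → ℝ := fun z => (1 : ℝ) * (1 * ψ1 (ta z / T) * θ1 (Hh (gh j) z)) with hFE
  have ck : Continuous (kq (g j) (gh j)) := u2.continuous
  have cta : Continuous (ta (m := m)) := x1.continuous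
  have cNN : Continuous (NN (g j)) := (IDRSec.cont_fd (g j)).continuous.norm
  have cFA : Continuous FA := (p1.continuous.pow 2).mul (IDRSec.cont_d2 h13 (g j) hR)
  have ctnt : Continuous (tnt (φ j) D (kq (g j) (gh j))) := by
    unfold tnt
    exact cont hfl.cont (c := fun s z => (D - |s|) * kq (g j) (gh j) z)
      ((continuous_const.sub continuous_fst.abs).mul (ck.comp continuous_snd)) (-D) D
  have cdtn : Continuous (dtn (φ j) D (kq (g j) (gh j))) := by
    unfold dtn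
    exact (cont hfl.cont (c := fun s z => kq (g j) (gh j) z) (ck.comp continuous_snd) 0 D).sub
      (cont hfl.cont (c := fun s z => kq (g j) (gh j) z) (ck.comp continuous_snd) (-D) 0)
  have cFB : Continuous FB := w1.continuous.mul (ctnt.mul ck)
  have cFC : Continuous FC := w1.continuous.mul (cdtn.pow 2)
  have cψ1 : Continuous (fun z : W (m + 1) => ψ1 (ta z / T)) :=
    hb.psi1.smooth.continuous.comp (cta.div_const T)
  have cθ1 : Continuous (fun z : W (m + 1) => θ1 (Hh (gh j) z)) :=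
    hb.th1.smooth.continuous.comp y2.continuous
  have cb : Continuous (fun z : W (m + 1) => bet (ta z)) := cont_bet.comp cta
  have cFD : Continuous FD :=
    ((cNN.comp continuous_fst).pow 2).mul (((cb.pow 2).mul cψ1).mul cθ1)
  have cFE : Continuous FE := continuous_const.mul ((continuous_const.mul cψ1).mul cθ1)
  -- supports
  have s0 : ∀ t : ℝ, |t| ≤ T → t ^ 2 ≤ T ^ 2 := fun t ht => by
    rw [← sq_abs]
    exact pow_le_pow_left₀ (abs_nonneg _) ht 2
  have sA : ∀ z, phi0 (g j) ψ ϑ T z ≠ 0 → Hm (g j) z ≤ 3 / 8 + T ^ 2 / 2 := by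
    intro z hz
    unfold phi0 at hz
    have e1 : ψ (ta z / T) ≠ 0 := fun h => hz (by rw [h]; ring)
    have e2 : ϑ (Hh (g j) z) ≠ 0 := fun h => hz (by rw [h]; ring)
    obtain ⟨a, b⟩ := hb.psi.supp _ e1
    obtain ⟨-, d⟩ := hb.th.supp _ e2
    rw [le_div_iff₀ hTp] at a
    rw [div_le_iff₀ hTp] at b
    have := s0 (ta z) (abs_le.2 ⟨by linarith, by linarith⟩)
    rw [x9 z]
    linarith
  have sD : ∀ z, ψ1 (ta z / T) * θ1 (Hh (gh j) z) ≠ 0 → Hm (gh j) z ≤ 1 + 2 * T ^ 2 := by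
    intro z hz
    have e1 : ψ1 (ta z / T) ≠ 0 := left_ne_zero_of_mul hz
    have e2 : θ1 (Hh (gh j) z) ≠ 0 := right_ne_zero_of_mul hz
    have a := psi1_supp hb hTp e1
    obtain ⟨-, d⟩ := hb.th1.supp _ e2
    have e3 : ta z ^ 2 ≤ (2 * T) ^ 2 := by
      rw [← sq_abs]
      exact pow_le_pow_left₀ (abs_nonneg _) a 2
    rw [y9 z]
    nlinarith
  have iA : Integrable (fun z : W (m + 1) => χ j z.1 * FA z) :=
    hint h12 (g j) hR hχc hχ.cpt cFA (3 / 8 + T ^ 2 / 2) fun z hz =>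
      sA z fun h => hz (by simp only [hFA]; rw [h]; ring)
  have iB : Integrable (fun z : W (m + 1) => χ j z.1 * FB z) :=
    hint h12 (gh j) hRh hχc hχ.cpt cFB (3 / 8 + T ^ 2 / 2) fun z hz =>
      (w8 z (left_ne_zero_of_mul hz)).2
  have iC : Integrable (fun z : W (m + 1) => χ j z.1 * FC z) :=
    hint h12 (gh j) hRh hχc hχ.cpt cFC (3 / 8 + T ^ 2 / 2) fun z hz =>
      (w8 z (left_ne_zero_of_mul hz)).2
  have iD : Integrable (fun z : W (m + 1) => χ j z.1 * FD z) :=
    hint h12 (gh j) hRh hχc hχ.cpt cFD (1 + 2 * T ^ 2) fun z hz =>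
      sD z fun h => hz (by
        simp only [hFD]
        rw [mul_assoc (bet (ta z) ^ 2), h]
        ring)
  have iE : Integrable (fun z : W (m + 1) => χ j z.1 * FE z) :=
    hint h12 (gh j) hRh hχc hχ.cpt cFE (1 + 2 * T ^ 2) fun z hz =>
      sD z fun h => hz (by
        simp only [hFE]
        rw [mul_assoc (1 : ℝ), h]
        ring)
  -- step one: integrate the pointwise bound
  have st1 : ∫ z, χ j z.1 * SS (g j) P z ≤ 1 / 4 * (∫ z, χ j z.1 * FA z) -
      1 / 32 * (∫ z, χ j z.1 * FB z) + 1 / 256 * (∫ z, χ j z.1 * FC z) +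
      C1p * (∫ z, χ j z.1 * FD z) + Cp * T ^ 2 * B ^ 3 * ∫ z, χ j z.1 * FE z := by
    have e1 : ∫ z, χ j z.1 * SS (g j) P z ≤ ∫ z, (1 / 4 * (χ j z.1 * FA z) -
        1 / 32 * (χ j z.1 * FB z) + 1 / 256 * (χ j z.1 * FC z) +
        C1p * (χ j z.1 * FD z) + Cp * T ^ 2 * B ^ 3 * (χ j z.1 * FE z)) := by
      apply integral_mono iSS
      · exact ((((iA.const_mul _).sub (iB.const_mul _)).add (iC.const_mul _)).add
          (iD.const_mul _)).add (iE.const_mul _)
      · intro z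
        show χ j z.1 * SS (g j) P z ≤ 1 / 4 * (χ j z.1 * FA z) -
          1 / 32 * (χ j z.1 * FB z) + 1 / 256 * (χ j z.1 * FC z) +
          C1p * (χ j z.1 * FD z) + Cp * T ^ 2 * B ^ 3 * (χ j z.1 * FE z)
        by_cases hz : χ j z.1 = 0
        · rw [hz]
          simp
        · have hzS := hQ.supp j z.1 hz
          have a1 := mul_le_mul_of_nonneg_left (jPt T hT B hNB hTB z hzS) (hχ.nonneg z.1)
          refine a1.trans (le_of_eq ?_)
          simp only [hFA, hFB, hFC, hFD, hFE]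
          ring
    refine e1.trans (le_of_eq ?_)
    have i1 := iA.const_mul (1 / 4)
    have i2 := iB.const_mul (1 / 32)
    have i3 := iC.const_mul (1 / 256)
    have i4 := iD.const_mul C1p
    have i5 := iE.const_mul (Cp * T ^ 2 * B ^ 3)
    have i12 : Integrable (fun z : W (m + 1) => 1 / 4 * (χ j z.1 * FA z) -
      1 / 32 * (χ j z.1 * FB z)) := i1.sub i2
    have i123 : Integrable (fun z : W (m + 1) => 1 / 4 * (χ j z.1 * FA z) -
      1 / 32 * (χ j z.1 * FB z) + 1 / 256 * (χ j z.1 * FC z)) := i12.add i3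
    have i1234 : Integrable (fun z : W (m + 1) => 1 / 4 * (χ j z.1 * FA z) -
      1 / 32 * (χ j z.1 * FB z) + 1 / 256 * (χ j z.1 * FC z) +
      C1p * (χ j z.1 * FD z)) := i123.add i4
    rw [integral_add i1234 i5, integral_add i123 i4, integral_add i12 i3, integral_sub i1 i2,
      integral_const_mul, integral_const_mul, integral_const_mul, integral_const_mul,
      integral_const_mul]
  -- step two: the leading term
  have hRg : ∀ z : W (m + 1), z.1 ∈ S → Hh (gh j) z ≤ 1 → Rg (gh j) S z :=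
    fun z hz hz' => ⟨⟨z.1, hz, 0, by simp⟩, hz'⟩
  have hone : ∀ z : W (m + 1), z.1 ∈ S → phi0 (g j) ψ ϑ T z ≠ 0 →
      Rg (gh j) S z ∧ ψ1 (ta z / T) = 1 ∧ θ1 (Hh (gh j) z) = 1 := by
    intro z hz hz'
    obtain ⟨a1, -, -, a4⟩ := (jA0 T hT z hz).1 (Or.inl hz')
    refine ⟨hRg z hz (by linarith), hb.psi1_one _ ?_, hb.th1_one _ ?_⟩
    · rw [abs_div, abs_of_pos hTp, div_le_one hTp]
      exact a1
    · rw [abs_of_nonneg (y8 z)]
      exact a4
  have st2 : ∫ z, χ j z.1 * FA z ≤ c0 * ∫ z, χ j z.1 * FD z := by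
    have e1 := h4 m G (hQ.coc j) (hQ.vert j) (g j) hR hI hBl ψ ϑ w0 ψ1 θ1 hb T hTp (χ j) hχ
    have e2 : ∫ z, χ j z.1 * ((ψ (ta z / T) * bet (ta z)) ^ 2 * ϑ (Hh (g j) z) *
        deriv ϑ (Hh (g j) z) * dd1 (g j) z ^ 2) ≤ ∫ z, Ct * Cw ^ 2 * (χ j z.1 * FD z) := by
      apply integral_mono _ (iD.const_mul _)
      · intro z
        show χ j z.1 * ((ψ (ta z / T) * bet (ta z)) ^ 2 * ϑ (Hh (g j) z) *
          deriv ϑ (Hh (g j) z) * dd1 (g j) z ^ 2) ≤ Ct * Cw ^ 2 * (χ j z.1 * FD z)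
        by_cases hz : χ j z.1 = 0
        · rw [hz]
          simp
        · have hzS := hQ.supp j z.1 hz
          have hFD0 : 0 ≤ FD z := by
            simp only [hFD]
            have := hb.psi1.nonneg (ta z / T)
            have := hb.th1.nonneg (Hh (gh j) z)
            positivity
          have key : (ψ (ta z / T) * bet (ta z)) ^ 2 * ϑ (Hh (g j) z) *
              deriv ϑ (Hh (g j) z) * dd1 (g j) z ^ 2 ≤ Ct * Cw ^ 2 * FD z := by
            by_cases hp : phi0 (g j) ψ ϑ T z = 0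
            · have h0 : (ψ (ta z / T) * bet (ta z)) ^ 2 * ϑ (Hh (g j) z) *
                  deriv ϑ (Hh (g j) z) * dd1 (g j) z ^ 2 = 0 := by
                have e : (ψ (ta z / T) * bet (ta z)) ^ 2 * ϑ (Hh (g j) z) *
                  deriv ϑ (Hh (g j) z) * dd1 (g j) z ^ 2 = phi0 (g j) ψ ϑ T z *
                  (ψ (ta z / T) * bet (ta z) * deriv ϑ (Hh (g j) z) * dd1 (g j) z ^ 2) := by
                  unfold phi0
                  ring
                rw [e, hp, zero_mul]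
              rw [h0]
              positivity
            · obtain ⟨r1, r2, r3⟩ := hone z hzS hp
              obtain ⟨q1, -, -, -, -⟩ := jPw z r1
              have v1 : ψ (ta z / T) ^ 2 ≤ 1 := by
                have := hb.psi.nonneg (ta z / T)
                have := hb.psi_le (ta z / T)
                nlinarith
              have v2 : |ϑ (Hh (g j) z) * deriv ϑ (Hh (g j) z)| ≤ Ct := by
                rw [abs_mul, abs_of_nonneg (hb.th.nonneg _)]
                have := hth (Hh (g j) z)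
                calc ϑ (Hh (g j) z) * |deriv ϑ (Hh (g j) z)| ≤ 1 * Ct :=
                      mul_le_mul (hb.th_le _) this (abs_nonneg _) zero_le_one
                  _ = Ct := one_mul _
              have v3 : dd1 (g j) z ^ 2 ≤ Cw ^ 2 * NN (g j) z.1 ^ 2 := by
                rw [← sq_abs, ← mul_pow]
                exact pow_le_pow_left₀ (abs_nonneg _) q1 2
              have v4 : 0 ≤ bet (ta z) ^ 2 := sq_nonneg _
              calc (ψ (ta z / T) * bet (ta z)) ^ 2 * ϑ (Hh (g j) z) *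
                  deriv ϑ (Hh (g j) z) * dd1 (g j) z ^ 2
                  = (ψ (ta z / T) ^ 2 * bet (ta z) ^ 2) *
                    ((ϑ (Hh (g j) z) * deriv ϑ (Hh (g j) z)) * dd1 (g j) z ^ 2) := by ring
                _ ≤ (ψ (ta z / T) ^ 2 * bet (ta z) ^ 2) * (Ct * (Cw ^ 2 * NN (g j) z.1 ^ 2)) := by
                    apply mul_le_mul_of_nonneg_left _ (by positivity)
                    calc (ϑ (Hh (g j) z) * deriv ϑ (Hh (g j) z)) * dd1 (g j) z ^ 2
                        ≤ Ct * dd1 (g j) z ^ 2 :=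
                          mul_le_mul_of_nonneg_right ((le_abs_self _).trans v2) (sq_nonneg _)
                      _ ≤ _ := mul_le_mul_of_nonneg_left v3 hCt.le
                _ ≤ (1 * bet (ta z) ^ 2) * (Ct * (Cw ^ 2 * NN (g j) z.1 ^ 2)) := by
                    apply mul_le_mul_of_nonneg_right _ (by positivity)
                    exact mul_le_mul_of_nonneg_right v1 v4
                _ = Ct * Cw ^ 2 * FD z := by
                    simp only [hFD]
                    rw [r2, r3]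
                    ring
          calc χ j z.1 * ((ψ (ta z / T) * bet (ta z)) ^ 2 * ϑ (Hh (g j) z) *
              deriv ϑ (Hh (g j) z) * dd1 (g j) z ^ 2) ≤ χ j z.1 * (Ct * Cw ^ 2 * FD z) :=
                mul_le_mul_of_nonneg_left key (hχ.nonneg _)
            _ = _ := by ring
      · have cF : Continuous (fun z : W (m + 1) => (ψ (ta z / T) * bet (ta z)) ^ 2 *
            ϑ (Hh (g j) z) * deriv ϑ (Hh (g j) z) * dd1 (g j) z ^ 2) := by
          have c1 : Continuous (fun z : W (m + 1) => ψ (ta z / T)) :=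
            hb.psi.smooth.continuous.comp (cta.div_const T)
          have c2 : Continuous (fun z : W (m + 1) => ϑ (Hh (g j) z)) :=
            hb.th.smooth.continuous.comp x2.continuous
          have c3 : Continuous (fun z : W (m + 1) => deriv ϑ (Hh (g j) z)) :=
            (hb.th.smooth.continuous_deriv (by norm_num)).comp x2.continuous
          exact ((((c1.mul cb).pow 2).mul c2).mul c3).mul ((IDRSec.cont_d1 h13 (g j) hR).pow 2)
        refine hint h12 (g j) hR hχc hχ.cpt cF (3 / 8 + T ^ 2 / 2) fun z hz => sA z fun hp => ?_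
        apply hz
        have e : (ψ (ta z / T) * bet (ta z)) ^ 2 * ϑ (Hh (g j) z) *
            deriv ϑ (Hh (g j) z) * dd1 (g j) z ^ 2 = phi0 (g j) ψ ϑ T z *
            (ψ (ta z / T) * bet (ta z) * deriv ϑ (Hh (g j) z) * dd1 (g j) z ^ 2) := by
          unfold phi0
          ring
        rw [e, hp, zero_mul]
    have e3 : ∫ z, χ j z.1 * (phi0 (g j) ψ ϑ T z ^ 2 * qq (g j) z) ≤
        ∫ z, Cw * (χ j z.1 * FD z) := by
      have hpt : ∀ z : W (m + 1), 0 ≤ χ j z.1 * (phi0 (g j) ψ ϑ T z ^ 2 * qq (g j) z) ∧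
          χ j z.1 * (phi0 (g j) ψ ϑ T z ^ 2 * qq (g j) z) ≤ Cw * (χ j z.1 * FD z) := by
        intro z
        have hFD0 : 0 ≤ FD z := by
          simp only [hFD]
          have := hb.psi1.nonneg (ta z / T)
          have := hb.th1.nonneg (Hh (gh j) z)
          positivity
        by_cases hz : χ j z.1 = 0
        · rw [hz]
          simp
        · have hzS := hQ.supp j z.1 hz
          by_cases hp : phi0 (g j) ψ ϑ T z = 0
          · rw [hp]
            have := mul_nonneg hCw.le (mul_nonneg (hχ.nonneg z.1) hFD0)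
            constructor
            · simp
            · simpa using this
          · obtain ⟨r1, r2, r3⟩ := hone z hzS hp
            obtain ⟨-, -, q3, q4, -⟩ := jPw z r1
            have v1 : phi0 (g j) ψ ϑ T z ^ 2 ≤ bet (ta z) ^ 2 := by
              rw [← sq_abs]
              exact pow_le_pow_left₀ (abs_nonneg _) (jA0 T hT z hzS).2.1 2
            refine ⟨mul_nonneg (hχ.nonneg _) (mul_nonneg (sq_nonneg _) q3), ?_⟩
            have key : phi0 (g j) ψ ϑ T z ^ 2 * qq (g j) z ≤ Cw * FD z := by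
              calc phi0 (g j) ψ ϑ T z ^ 2 * qq (g j) z
                  ≤ bet (ta z) ^ 2 * (Cw * NN (g j) z.1 ^ 2) :=
                    mul_le_mul v1 q4 q3 (sq_nonneg _)
                _ = Cw * FD z := by
                    simp only [hFD]
                    rw [r2, r3]
                    ring
            calc χ j z.1 * (phi0 (g j) ψ ϑ T z ^ 2 * qq (g j) z) ≤ χ j z.1 * (Cw * FD z) :=
                  mul_le_mul_of_nonneg_left key (hχ.nonneg _)
              _ = _ := by ring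
      exact integral_mono_of_nonneg (Eventually.of_forall fun z => (hpt z).1)
        (iD.const_mul _) (Eventually.of_forall fun z => (hpt z).2)
    rw [integral_const_mul] at e2 e3
    have e4 : ∫ z, χ j z.1 * FA z = ∫ z, χ j z.1 * (phi0 (g j) ψ ϑ T z ^ 2 * dd2 (g j) z) := rfl
    rw [e4, e1]
    calc _ ≤ Ct * Cw ^ 2 * (∫ z, χ j z.1 * FD z) + 2 * (Cw * ∫ z, χ j z.1 * FD z) := by linarith
      _ = _ := by rw [hc0]; ring
  -- step three: the energy
  have st3 : ∫ z, χ j z.1 * FD z ≤ Ci * Real.pi * EE (χ j) (g j) := by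
    have e1 := jInt (χ j) (fun x => NN (g j) x ^ 2) (fun τ => bet τ ^ 2 * ψ1 (τ / T)) hχc
      (cNN.pow 2) ((cont_bet.pow 2).mul (hb.psi1.smooth.continuous.comp (continuous_id.div_const T)))
      hχ.nonneg (fun x => sq_nonneg _) (fun τ => mul_nonneg (sq_nonneg _) (hb.psi1.nonneg _))
      (hQ.supp j) (cpt_psi1 hb hTp _)
    have hEE : 0 ≤ ∫ x, χ j x * NN (g j) x ^ 2 :=
      integral_nonneg fun x => mul_nonneg (hχ.nonneg _) (sq_nonneg _)
    calc ∫ z, χ j z.1 * FD z ≤ Ci * (∫ τ, bet τ ^ 2 * ψ1 (τ / T)) * ∫ x, χ j x * NN (g j) x ^ 2 := e1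
      _ ≤ Ci * Real.pi * ∫ x, χ j x * NN (g j) x ^ 2 := by
          apply mul_le_mul_of_nonneg_right _ hEE
          exact mul_le_mul_of_nonneg_left (int_bet hb) hCi.le
      _ = _ := rfl
  have st4 : ∫ z, χ j z.1 * FE z ≤ Ci * (4 * T) * vol := by
    have e1 := jInt (χ j) (fun _ => (1 : ℝ)) (fun τ => 1 * ψ1 (τ / T)) hχc
      continuous_const (continuous_const.mul (hb.psi1.smooth.continuous.comp (continuous_id.div_const T)))
      hχ.nonneg (fun x => zero_le_one) (fun τ => mul_nonneg zero_le_one (hb.psi1.nonneg _))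
      (hQ.supp j) (cpt_psi1 hb hTp _)
    have hEE : 0 ≤ ∫ x, χ j x * 1 :=
      integral_nonneg fun x => mul_nonneg (hχ.nonneg _) zero_le_one
    have hχi : ∫ x, χ j x * 1 ≤ vol := by
      simp only [mul_one]
      exact int_chi hχ hQ.cpt (hQ.supp j)
    calc ∫ z, χ j z.1 * FE z ≤ Ci * (∫ τ, 1 * ψ1 (τ / T)) * ∫ x, χ j x * 1 := e1
      _ ≤ Ci * (4 * T) * ∫ x, χ j x * 1 := by
          apply mul_le_mul_of_nonneg_right _ hEE
          exact mul_le_mul_of_nonneg_left (int_psi1 hb hTp) hCi.le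
      _ ≤ Ci * (4 * T) * vol := mul_le_mul_of_nonneg_left hχi (by positivity)
  -- step four: the correlation identities
  have hwi : ∀ (a : G) z, wT (gh j) ψ ϑ T (lft (gh j) a z) = wT (gh j) ψ ϑ T z := w3
  have hki : ∀ (a : G) z, kq (g j) (gh j) (lft (gh j) a z) = kq (g j) (gh j) z := u9
  have st5 := h5 (m + 1) G (hQ.coc j) (gh j) (φ j) (M j) hRh hIh hfl (χ j) hχ
    (wT (gh j) ψ ϑ T) (kq (g j) (gh j)) (3 / 8 + T ^ 2 / 2) D w1.continuous ck hwi hki w5
    (fun z hz => (w8 z hz).2) hD0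
  have st6 := h6 (m + 1) G (hQ.coc j) (gh j) (φ j) (M j) hRh hIh hfl (χ j) hχ
    (wT (gh j) ψ ϑ T) (kq (g j) (gh j)) (3 / 8 + T ^ 2 / 2) D w1.continuous ck hwi hki w5
    (fun z hz => (w8 z hz).2) w7 hD0
  have st5' : VQ (χ j) (g j) (gh j) ψ ϑ T D (φ j) = ∫ z, χ j z.1 * FB z := st5
  have st6' : ∫ z, χ j z.1 * FC z ≤ 4 * VQ (χ j) (g j) (gh j) ψ ϑ T D (φ j) := st6
  have hE1 : c0 * (∫ z, χ j z.1 * FD z) ≤ c0 * (Ci * Real.pi * EE (χ j) (g j)) :=
    mul_le_mul_of_nonneg_left st3 hc0p.le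
  have hE2 : C1p * (∫ z, χ j z.1 * FD z) ≤ C1p * (Ci * Real.pi * EE (χ j) (g j)) :=
    mul_le_mul_of_nonneg_left st3 hC1p.le
  have hE3 : Cp * T ^ 2 * B ^ 3 * (∫ z, χ j z.1 * FE z) ≤
      Cp * T ^ 2 * B ^ 3 * (Ci * (4 * T) * (vol + 1)) := by
    apply mul_le_mul_of_nonneg_left _ (by positivity)
    refine st4.trans ?_
    apply mul_le_mul_of_nonneg_left _ (by positivity)
    linarith
  rw [← st5'] at st1
  set V := VQ (χ j) (g j) (gh j) ψ ϑ T D (φ j) with hV
  have hfin : V ≤ 64 * (c0 / 4 * (Ci * Real.pi * EE (χ j) (g j)) +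
      C1p * (Ci * Real.pi * EE (χ j) (g j)) +
      Cp * T ^ 2 * B ^ 3 * (Ci * (4 * T) * (vol + 1))) := by linarith
  refine hfin.trans (le_of_eq ?_)
  ring

end Pool.Agent.LQ
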