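import Mathlib
import Pool.Agent.Work.MP_13b5d9_gt.LQ.StmtsQ

set_option autoImplicit false

/-!
# MP_13b5d9_gt, block LQ, Theorem Q, item Wt: the weights
-/

open MeasureTheory Set Filter Topology
open scoped ContDiff ENNReal

namespace Pool.Agent.LQ

open Pool.Agent.MLS Pool.Agent.EC Pool.Agent.DR

namespace IQWt

variable {m : ℕ}

theorem bet_inv (τ : ℝ) : (bet τ)⁻¹ = Real.sqrt (1 + τ ^ 2) := by
  rw [bet, inv_inv]

theorem bet_smooth : ContDiff ℝ ∞ (fun τ : ℝ => (bet τ)⁻¹) := by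
  have h : (fun τ : ℝ => (bet τ)⁻¹) = fun τ : ℝ => Real.sqrt (1 + τ ^ 2) := by
    funext τ
    exact bet_inv τ
  rw [h]
  exact (contDiff_const.add (contDiff_id.pow 2)).sqrt fun τ => by
    have : 0 ≤ τ ^ 2 := sq_nonneg τ
    have h1 : (0 : ℝ) < 1 + τ ^ 2 := by linarith
    exact h1.ne'

theorem supp {ψ ϑ w0 ψ1 θ1 : ℝ → ℝ} (hB : Bmp ψ ϑ w0 ψ1 θ1) {T : ℝ} (hT : 0 < T)
    {t h : ℝ} (h1 : ψ (t / T) ≠ 0) (h2 : ϑ h ≠ 0) :
    1 / 8 ≤ h ∧ h ≤ 3 / 8 ∧ |t| ≤ T := by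
  obtain ⟨a, b⟩ := hB.psi.supp _ h1
  obtain ⟨c, d⟩ := hB.th.supp _ h2
  refine ⟨c, d, ?_⟩
  rw [le_div_iff₀ hT] at a
  rw [div_le_iff₀ hT] at b
  rw [abs_le]
  constructor <;> linarith

end IQWt

open IQWt in
theorem pr_Wt (h1 : StXt) (h3 : StPrd) (h4 : StLft) (h5 : StLftA) : StWt := by
  intro m G _ _ hG hV gh φ M hR hI hBl hT hφ ψ ϑ w0 ψ1 θ1 hB T hTp
  obtain ⟨hta, hHh, -, -, -, -, -, -, hHm, -⟩ := h1 m gh hR hBl
  obtain ⟨-, htaφ, -, -, hHφ, hHT, -⟩ := h3 m gh φ M hR hBl hT hφ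
  obtain ⟨-, -, -, -, htaG⟩ := h4 m G hG hV gh gh hR hR hI hI hBl
  obtain ⟨-, hHG, -, -, -⟩ := h5 (m + 1) G hG gh hR hI
  have hHhG : ∀ (a : G) (z : W (m + 1)), Hh gh (lft gh a z) = Hh gh z := fun a z => by
    have e1 := hHm (lft gh a z)
    have e2 := hHm z
    rw [hHG, htaG] at e1
    linarith
  have hHhφ : ∀ s z, Hh gh (φ s z) = Hh gh z := fun s z => by
    have e1 := hHm (φ s z)
    have e2 := hHm z
    rw [hHφ, htaφ] at e1
    linarith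
  have htaT : ∀ (s : ℝ) (z : W (m + 1)), ta (Tr s z) = ta z := fun s z => rfl
  have hHhT : ∀ s z, Hh gh (Tr s z) = Hh gh z := fun s z => by
    have e1 := hHm (Tr s z)
    have e2 := hHm z
    rw [hHT, htaT] at e1
    linarith
  have hψ : ContDiff ℝ ∞ fun z : W (m + 1) => ψ (ta z / T) :=
    hB.psi.smooth.comp (hta.div_const T)
  have hϑ : ContDiff ℝ ∞ fun z : W (m + 1) => ϑ (Hh gh z) := hB.th.smooth.comp hHh
  have hβ : ContDiff ℝ ∞ fun z : W (m + 1) => (bet (ta z))⁻¹ := bet_smooth.comp hta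
  refine ⟨(hψ.pow 2).mul (hϑ.pow 2), (hψ.mul hβ).mul hϑ, ?_, ?_, ?_, ?_, ?_, ?_, ?_⟩
  · intro a z
    unfold wT
    rw [htaG, hHhG]
  · intro a z
    unfold cf
    rw [htaG, hHhG]
  · intro s z
    unfold wT
    rw [htaφ, hHhφ]
  · intro s z
    unfold wT
    rw [htaT, hHhT]
  · intro z
    unfold wT
    positivity
  · intro z hz
    unfold wT at hz
    have e1 : ψ (ta z / T) ≠ 0 := fun h => hz (by rw [h]; ring)
    have e2 : ϑ (Hh gh z) ≠ 0 := fun h => hz (by rw [h]; ring)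
    obtain ⟨a, b, c⟩ := supp hB hTp e1 e2
    have e3 := hHm z
    have e4 : ta z ^ 2 ≤ T ^ 2 := by
      rw [← sq_abs (ta z)]
      exact pow_le_pow_left₀ (abs_nonneg _) c 2
    have e5 : 0 ≤ ta z ^ 2 := sq_nonneg _
    constructor <;> linarith
  · intro z hz
    unfold cf at hz
    have e1 : ψ (ta z / T) ≠ 0 := fun h => hz (by rw [h]; ring)
    have e2 : ϑ (Hh gh z) ≠ 0 := fun h => hz (by rw [h]; ring)
    exact supp hB hTp e1 e2

end Pool.Agent.LQ
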