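import Pool.Agent.Work.MP_13b5d9_gt.LQ.StmtsQ

set_option autoImplicit false
set_option maxSynthPendingDepth 3

/-!
# MP_13b5d9_gt, block LQ, item Xt: exact formulas for one metric
-/

open MeasureTheory Set Filter Topology
open scoped ContDiff ENNReal
open Pool.Agent.Work.MP_c9f990_an.Al (IsFlow)

namespace Pool.Agent.LQ

open Pool.Agent.MLS Pool.Agent.EC Pool.Agent.DR

namespace IQXt

variable {m : ℕ}

/-- the vertical momentum as a linear function -/
noncomputable def taL : W (m + 1) →L[ℝ] ℝ :=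
  (EuclideanSpace.proj (𝕜 := ℝ) (Fin.last m)).comp
    (ContinuousLinearMap.snd ℝ (E (m + 1)) (E (m + 1)))

theorem ta_eq (z : W (m + 1)) : ta z = taL z := rfl

theorem ta_fun : (ta (m := m)) = fun z => taL z := rfl

theorem fd_ta (z v : W (m + 1)) : fderiv ℝ (ta (m := m)) z v = ta v := by
  rw [ta_fun, ContinuousLinearMap.fderiv]

theorem inner_eL (w : E (m + 1)) : inner ℝ w (eL : E (m + 1)) = w (Fin.last m) := by
  unfold eL ee
  simp [EuclideanSpace.inner_single_right]

end IQXt

open IQXt in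
theorem pr_Xt (h1 : StBas) (h2 : StHd) (h3 : StOp) (h4 : StTr0) : StXt := by
  intro m g hg hb
  obtain ⟨-, -, -, -, -, hpos, -, -⟩ := h1 m g hg hb
  obtain ⟨hsh, -, -, -, -, -, -, hH, -⟩ := h3 (m + 1) g hg
  have hta : ContDiff ℝ ∞ (ta (m := m)) := (taL (m := m)).contDiff
  have hHh : ContDiff ℝ ∞ (Hh g) := by
    unfold Hh
    exact hH.sub ((hta.pow 2).div_const 2)
  have e1 : ∀ z, XX g ta z = 1 / 2 * dd1 g z := by
    intro z
    unfold XX dd1 d1
    rw [fd_ta, ← (h2 (m + 1) g hg z).2 eL, inner_eL]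
    rfl
  have e2 : ∀ z, XX g (Hm g) z = 0 := fun z => (h4 (m + 1) (Hm g) hH).2.2 z
  have hd : ∀ z v, fderiv ℝ (Hh g) z v = fderiv ℝ (Hm g) z v - ta z * fderiv ℝ ta z v := by
    intro z v
    have hm : HasFDerivAt (Hm g) (fderiv ℝ (Hm g) z) z :=
      ((hH.differentiable (by norm_num)) z).hasFDerivAt
    have ht : HasFDerivAt (ta (m := m)) (fderiv ℝ ta z) z :=
      ((hta.differentiable (by norm_num)) z).hasFDerivAt
    have h5 : HasFDerivAt (Hh g)
        (fderiv ℝ (Hm g) z - (1 / 2 : ℝ) • (ta z • fderiv ℝ ta z + ta z • fderiv ℝ ta z)) z := by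
      have h6 := hm.sub ((ht.mul ht).const_mul (1 / 2 : ℝ))
      refine h6.congr_of_eventuallyEq (Filter.Eventually.of_forall fun y => ?_)
      simp only [Hh, Pi.sub_apply, Pi.mul_apply]
      ring
    rw [h5.fderiv]
    simp only [sub_apply, smul_apply, add_apply, smul_eq_mul]
    ring
  have e3 : ∀ z, XX g (Hh g) z = -(1 / 2 * ta z * dd1 g z) := by
    intro z
    have h5 := hd z (XH (Hm g) z)
    have h6 := e1 z
    have h7 := e2 z
    unfold XX at h6 h7 ⊢
    rw [h5, h6, h7]
    ring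
  have e4 : ∀ z : W (m + 1), De ta z = 0 := by
    intro z
    unfold De
    rw [fd_ta]
    unfold ta
    simp
  have e5 : ∀ z, De (Hm g) z = -(1 / 2 * dd1 g z) := by
    intro z
    have h5 := (h2 (m + 1) g hg z).2 eL
    have h6 : inner ℝ (XH (Hm g) z).2 (eL : E (m + 1)) = -fderiv ℝ (Hm g) z (eL, 0) := by
      unfold XH
      simp only
      rw [inner_neg_left, hsh]
      simp
    unfold De dd1 d1
    rw [← h5, h6, neg_neg]
  refine ⟨hta, hHh, e1, e2, e3, e4, fun z => ?_, fun z => ?_, fun z => ?_, fun hT z => ?_⟩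
  · have h5 := hd z (eL, 0)
    have h6 := e4 z
    have h7 := e5 z
    unfold De at h6 h7 ⊢
    rw [h5, h6, h7]
    ring
  · have := (hpos z).2
    unfold Hh
    linarith
  · unfold Hh
    ring
  · rw [e3]
    have : dd1 g z = 0 := by
      unfold dd1 d1
      have h5 : HasDerivAt (fun s : ℝ => g.val (z.1 + s • (eL : E (m + 1))))
          (fderiv ℝ g.val z.1 eL) 0 := by
        have hd' : DifferentiableAt ℝ g.val (z.1 + (0 : ℝ) • (eL : E (m + 1))) :=
          (g.smooth.differentiable (by norm_num)) _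
        have hl : HasDerivAt (fun s : ℝ => z.1 + s • (eL : E (m + 1))) eL 0 := by
          have h := ((hasDerivAt_id (0 : ℝ)).smul_const (eL : E (m + 1))).const_add z.1
          simpa using h
        have h0 : z.1 + (0 : ℝ) • (eL : E (m + 1)) = z.1 := by rw [zero_smul, add_zero]
        have h6 : HasDerivAt (fun s : ℝ => g.val (z.1 + s • (eL : E (m + 1))))
            (fderiv ℝ g.val (z.1 + (0 : ℝ) • (eL : E (m + 1))) eL) 0 :=
          hd'.hasFDerivAt.comp_hasDerivAt 0 hl
        rw [h0] at h6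
        exact h6
      have h6 : (fun s : ℝ => g.val (z.1 + s • (eL : E (m + 1)))) = fun _ => g.val z.1 := by
        funext s
        exact hT z.1 s
      rw [h6] at h5
      have h7 := h5.unique (hasDerivAt_const (0 : ℝ) (g.val z.1))
      rw [h7]
      rfl
    rw [this]
    ring

end Pool.Agent.LQ
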