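import Pool.Agent.Work.MP_25cd3b_gt.M.All
import Pool.Agent.Work.MP_13b5d9_gt.DR.All
import Pool.Agent.Work.MP_13b5d9_gt.LQ.Q_A0
import Pool.Agent.Work.MP_13b5d9_gt.LQ.Q_AvC
import Pool.Agent.Work.MP_13b5d9_gt.LQ.Q_AvE
import Pool.Agent.Work.MP_13b5d9_gt.LQ.Q_Bmp
import Pool.Agent.Work.MP_13b5d9_gt.LQ.Q_C0
import Pool.Agent.Work.MP_13b5d9_gt.LQ.Q_CvD
import Pool.Agent.Work.MP_13b5d9_gt.LQ.Q_CvH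
import Pool.Agent.Work.MP_13b5d9_gt.LQ.Q_Deu
import Pool.Agent.Work.MP_13b5d9_gt.LQ.Q_Df
import Pool.Agent.Work.MP_13b5d9_gt.LQ.Q_Dg
import Pool.Agent.Work.MP_13b5d9_gt.LQ.Q_Eqv
import Pool.Agent.Work.MP_13b5d9_gt.LQ.Q_FA
import Pool.Agent.Work.MP_13b5d9_gt.LQ.Q_FB
import Pool.Agent.Work.MP_13b5d9_gt.LQ.Q_FC
import Pool.Agent.Work.MP_13b5d9_gt.LQ.Q_FinQ
import Pool.Agent.Work.MP_13b5d9_gt.LQ.Q_FlB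
import Pool.Agent.Work.MP_13b5d9_gt.LQ.Q_FlC
import Pool.Agent.Work.MP_13b5d9_gt.LQ.Q_HB
import Pool.Agent.Work.MP_13b5d9_gt.LQ.Q_HP
import Pool.Agent.Work.MP_13b5d9_gt.LQ.Q_Hc
import Pool.Agent.Work.MP_13b5d9_gt.LQ.Q_Int
import Pool.Agent.Work.MP_13b5d9_gt.LQ.Q_L1
import Pool.Agent.Work.MP_13b5d9_gt.LQ.Q_L2
import Pool.Agent.Work.MP_13b5d9_gt.LQ.Q_L3
import Pool.Agent.Work.MP_13b5d9_gt.LQ.Q_L4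
import Pool.Agent.Work.MP_13b5d9_gt.LQ.Q_Low
import Pool.Agent.Work.MP_13b5d9_gt.LQ.Q_NB
import Pool.Agent.Work.MP_13b5d9_gt.LQ.Q_ODE
import Pool.Agent.Work.MP_13b5d9_gt.LQ.Q_Pb
import Pool.Agent.Work.MP_13b5d9_gt.LQ.Q_Per
import Pool.Agent.Work.MP_13b5d9_gt.LQ.Q_Phi
import Pool.Agent.Work.MP_13b5d9_gt.LQ.Q_Pin
import Pool.Agent.Work.MP_13b5d9_gt.LQ.Q_Pt
import Pool.Agent.Work.MP_13b5d9_gt.LQ.Q_Pw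
import Pool.Agent.Work.MP_13b5d9_gt.LQ.Q_R1
import Pool.Agent.Work.MP_13b5d9_gt.LQ.Q_SecB
import Pool.Agent.Work.MP_13b5d9_gt.LQ.Q_Set
import Pool.Agent.Work.MP_13b5d9_gt.LQ.Q_Shf
import Pool.Agent.Work.MP_13b5d9_gt.LQ.Q_Tn
import Pool.Agent.Work.MP_13b5d9_gt.LQ.Q_Up
import Pool.Agent.Work.MP_13b5d9_gt.LQ.Q_Wt
import Pool.Agent.Work.MP_13b5d9_gt.LQ.Q_Xt
import Pool.Agent.Work.MP_13b5d9_gt.LQ.Q_YT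

set_option autoImplicit false

/-!
# MP_13b5d9_gt, block LQ, part Q: all items assembled
-/

namespace Pool.Agent.LQ

open Pool.Agent

theorem q_Per : StPer := pr_Per 
theorem q_Pin : StPin := pr_Pin 
theorem q_AvE : StAvE := pr_AvE q_Per q_Pin
theorem q_AvC : StAvC := pr_AvC 
theorem q_Set : StSet := pr_Set q_Per q_Pin q_AvE q_AvC MLS.p_Flow
theorem q_NB : StNB := pr_NB 
theorem q_Shf : StShf := pr_Shf DR.q_Bas MLS.p_Hd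
theorem q_Xt : StXt := pr_Xt DR.q_Bas MLS.p_Hd MLS.pr_Op MLS.pr_Tr0
theorem q_Deu : StDeu := pr_Deu MLS.pr_Op MLS.p_LftA
theorem q_CvH : StCvH := pr_CvH MLS.pr_Op MLS.p_Hd
theorem q_CvD : StCvD := pr_CvD q_CvH MLS.pr_Op MLS.p_Hd
theorem q_HB : StHB := pr_HB q_CvH q_Shf MLS.pr_Op DR.q_Bas
theorem q_HP : StHP := pr_HP q_HB q_Shf q_CvH MLS.pr_Op DR.q_Bas MLS.p_Hd
theorem q_Dg : StDg := pr_Dg q_Pin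
theorem q_Df : StDf := pr_Df q_Dg q_HP MLS.pr_Op MLS.p_Hd DR.q_Bas
theorem q_Hc : StHc := pr_Hc q_CvH q_Shf MLS.pr_Op
theorem q_Pw : StPw := pr_Pw q_HP q_Shf MLS.pr_Op
theorem q_Pb : StPb := pr_Pb q_HP q_Df MLS.p_Hd DR.q_Bas MLS.pr_Op
theorem q_ODE : StODE := pr_ODE 
theorem q_FlC : StFlC := pr_FlC q_ODE q_CvH q_CvD MLS.pr_Tr0 MLS.pr_Op
theorem q_FlB : StFlB := pr_FlB q_FlC q_HB DR.q_Prd
theorem q_Tn : StTn := pr_Tn 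
theorem q_YT : StYT := pr_YT q_FlB q_Pb q_Tn q_Df q_Deu
theorem q_SecB : StSecB := pr_SecB DR.q_Sec DR.q_Bas DR.q_Lft MLS.p_Hd MLS.pr_Op
theorem q_FA : StFA := pr_FA DR.q_UA MLS.p_MP MLS.pr_Op MLS.p_EqF MLS.p_Sub
theorem q_FB : StFB := pr_FB q_FA MLS.p_Sub
theorem q_FC : StFC := pr_FC DR.q_UA MLS.p_MP MLS.pr_Op MLS.p_EqF MLS.p_Sub
theorem q_Wt : StWt := pr_Wt q_Xt DR.q_Prd DR.q_Lft MLS.p_LftA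
theorem q_Phi : StPhi := pr_Phi q_Wt q_Xt q_Tn q_Deu MLS.p_EqF DR.q_Lft MLS.p_LftA MLS.pr_Op MLS.p_Cmp
theorem q_C0 : StC0 := pr_C0 DR.q_Ibp2 q_Xt DR.q_Lft MLS.p_LftA
theorem q_Int : StInt := pr_Int DR.q_Bas DR.q_Fub q_HB MLS.pr_Op
theorem q_A0 : StA0 := pr_A0 q_Xt q_Pw q_Hc
theorem q_R1 : StR1 := pr_R1 q_YT q_Xt q_HP q_Df q_Hc q_Pw q_Tn q_Deu
theorem q_Pt : StPt := pr_Pt q_A0 q_R1 q_Pw q_Pb q_YT q_Xt q_Df q_Tn q_Deu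
theorem q_Up : StUp := pr_Up q_Pt q_SecB q_Phi q_C0 q_FB q_FC q_Wt q_Deu q_Int q_Pw MLS.p_Sub MLS.pr_Op q_Xt q_A0
theorem q_L1 : StL1 := pr_L1 q_FA q_Wt q_Deu DR.q_Zt q_Shf MLS.p_Sub MLS.pr_Op
theorem q_L2 : StL2 := pr_L2 q_Deu DR.q_Zt DR.q_Ibp q_Xt DR.q_UA DR.q_Lft DR.q_Prd MLS.p_Sub MLS.p_LftA
theorem q_L3 : StL3 := pr_L3 q_FlB q_Pb q_Deu q_Int DR.q_Prd MLS.pr_Op MLS.p_Sub
theorem q_L4 : StL4 := pr_L4 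
theorem q_Low : StLow := pr_Low q_L1 q_L2 q_L3 q_L4
theorem q_Eqv : StEqv := pr_Eqv q_CvH DR.q_Bas q_HB MLS.pr_Op
theorem q_Bmp : StBmp := pr_Bmp 
theorem q_FinQ : StFinQ := pr_FinQ 

/-- THEOREM Q, without hypotheses. -/
theorem thQ : StQ := q_FinQ q_Set q_NB q_Up q_Low q_Eqv q_Bmp

end Pool.Agent.LQ
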