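import Pool.Agent.Work.MP_13b5d9_gt.LQ.FGrp
import Pool.Agent.Work.MP_13b5d9_gt.LQ.KStmts
import Pool.Agent.Work.MP_13b5d9_gt.LQ.I_RW

set_option autoImplicit false
set_option maxSynthPendingDepth 3

/-!
# MP_13b5d9_gt, block LQ: openness of the split metrics for every central element

The openness theorem `TOpn` assumes a homomorphism `k : G → Z` with `k z = 1`.  If some metric is split
along `z` then there is a homomorphism with `k z = d > 0` (the group is finitely generated), and
`TOpn` applies to the subgroup `k ∈ d Z` of finite index.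
-/

open MeasureTheory Set Filter Topology
open scoped ContDiff ENNReal
open Pool.Agent.Work.MP_c9f990_an.Al (IsFlow)

namespace Pool.Agent.LQF

open Pool.Agent.MLS Pool.Agent.EC Pool.Agent.STR Pool.Agent.DR Pool.Agent.LQR Pool.Agent.LQT
open Pool.Agent.LQK

/-- the canonical field of an element does not depend on the group -/
theorem uq (hFl : StFlow) (hAx : StAx) (n : ℕ) (G : Type) [Group G] [MulAction G (E n)]
    (hG : Cocompact n G) (g : Form n) (hR : Riem g) (hI : Inv G g) (hN : NoConj g) (z : G)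
    (hz : z ≠ 1) (hc : ∀ a : G, a * z = z * a) (H : Subgroup G) (hzH : z ∈ H)
    (hP : Par n H ⟨z, hzH⟩ g) : Par n G z g := by
  obtain ⟨l', V', τ', ψ', hA', hpar⟩ := hP
  obtain ⟨l, V, τ, ψ, hA⟩ := hAx n G hG g hR hI hN z hz hc
  obtain ⟨φ, M, hφ⟩ := hFl n G hG g hR hI
  have h1 : ∀ x, l • V x = l' • V' x := by
    intro x
    have h2 := IRW.expo_axis hR hA hφ x
    have h3 := IRW.expo_axis hR hA' hφ x
    exact IRW.inj hR hN hφ x (h2.trans h3.symm)
  have h4 : l = l' := by
    have h5 : g.val 0 (l • V 0) (l • V 0) = g.val 0 (l' • V' 0) (l' • V' 0) := by rw [h1]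
    simp only [map_smul, smul_apply, smul_eq_mul, hA.unit, hA'.unit, mul_one] at h5
    nlinarith [hA.pos, hA'.pos]
  have h6 : V = V' := by
    funext x
    have h7 := h1 x
    rw [← h4] at h7
    exact smul_right_injective _ hA.pos.ne' h7
  exact ⟨l, V, τ, ψ, hA, by rw [h6]; exact hpar⟩

/-- OPENNESS for every central element -/
theorem opn (hFl : StFlow) (hAx : StAx) (hT : TOpn) (hSP : TSP) (hPS : TPS) (m : ℕ) (G : Type)
    [Group G] [MulAction G (E (m + 1))] (hG : Cocompact (m + 1) G) (z : G)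
    (hz : z ≠ 1) (hc : ∀ a : G, a * z = z * a) : Opn m G z := by
  intro g0 hR0 hI0 hN0 hS
  obtain ⟨l, κ, Θ, hΘ⟩ := hS
  -- the deck homomorphism
  choose f h hf using hΘ.deck
  have hadd : ∀ a b, h (a * b) = h a + h b := by
    intro a b
    have h1 := hf (a * b) 0
    rw [mul_smul, hf a, hf b] at h1
    have h2 := congrArg Prod.snd h1
    simp only at h2
    linarith
  have hzl : h z = l := by
    have h1 := (hf z 0).symm.trans (hΘ.zt 0)
    have h2 := congrArg Prod.snd h1
    simp only at h2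
    linarith
  obtain ⟨S, hS, hgen⟩ := fg (m + 1) G hG
  obtain ⟨k, hk, hkz⟩ := homZ G S hS hgen h hadd z (by rw [hzl]; exact hΘ.pos.ne')
  -- the subgroup
  have hzH : z ∈ sub k hk (k z) := dvd_refl (k z)
  have hH := coc_sub (m + 1) G hG k hk z hkz
  have hIH : ∀ g : Form (m + 1), Inv G g → Inv (sub k hk (k z)) g := fun g hg a x u v =>
    hg (a : G) x u v
  obtain ⟨r, hr⟩ := hT m (sub k hk (k z)) hH ⟨z, hzH⟩ (fun a => k (a : G) / k z)
    (fun a b => by
      show k ((a : G) * (b : G)) / k z = k (a : G) / k z + k (b : G) / k z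
      rw [hk]
      exact Int.add_ediv_of_dvd_left a.2)
    (Int.ediv_self hkz.ne') g0 hR0 (hIH g0 hI0)
    ⟨l, κ, Θ, ⟨hΘ.pos, hΘ.riem, hΘ.smooth, hΘ.smooth_symm, hΘ.metric,
      fun a => hΘ.deck (a : G), hΘ.zt⟩⟩
  refine ⟨r, fun g hR hI hN hnear => ?_⟩
  have h1 := hr g hR (hIH g hI) hN hnear
  have h2 := hSP m (sub k hk (k z)) hH g hR ⟨z, hzH⟩ h1
  exact hPS m G hG g hR hI hN z (uq hFl hAx (m + 1) G hG g hR hI hN z hz hc _ hzH h2)

end Pool.Agent.LQF
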