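import Pool.Agent.Work.MP_13b5d9_gt.LQ.KStmts

set_option autoImplicit false
set_option maxSynthPendingDepth 3

/-!
# MP_13b5d9_gt, block LQ, part K, item KAf: an affine potential has a parallel gradient
-/

open MeasureTheory Set Filter Topology
open scoped ContDiff ENNReal
open Pool.Agent.Work.MP_c9f990_an.Al (IsFlow)

namespace Pool.Agent.LQK

open Pool.Agent.MLS Pool.Agent.EC Pool.Agent.STR Pool.Agent.DR Pool.Agent.LQR Pool.Agent.LQT

namespace IKAf

variable {n : ℕ}

/-- the covariant derivative of a gradient is symmetric -/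
theorem symB (h1 : NcGa) (h6 : NgMet) {g : Form n} (hg : Riem g) {V : E n → E n} {τ : E n → ℝ}
    (hV : ContDiff ℝ ∞ V) (hT : ContDiff ℝ ∞ τ)
    (hgrad : ∀ x v, fderiv ℝ τ x v = g.val x (V x) v) (x u w : E n) :
    g.val x (fderiv ℝ V x u + Ga g x u (V x)) w = g.val x (fderiv ℝ V x w + Ga g x w (V x)) u := by
  obtain ⟨hmet, -, -⟩ := h6 n g hg
  obtain ⟨-, -, hGs, -⟩ := h1 n g hg
  have hfd : fderiv ℝ τ = fun y => g.val y (V y) := by
    funext y
    ext v
    exact hgrad y v
  have hgd : HasFDerivAt g.val (fderiv ℝ g.val x) x :=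
    (g.smooth.differentiable (by norm_num) x).hasFDerivAt
  have hVd : HasFDerivAt V (fderiv ℝ V x) x := (hV.differentiable (by norm_num) x).hasFDerivAt
  have h2 : ∀ a b, fderiv ℝ (fderiv ℝ τ) x a b =
      fderiv ℝ g.val x a (V x) b + g.val x (fderiv ℝ V x a) b := by
    intro a b
    rw [hfd, (hgd.clm_apply hVd).fderiv]
    simp only [_root_.add_apply, ContinuousLinearMap.comp_apply, ContinuousLinearMap.flip_apply]
    ring
  have hsym : fderiv ℝ (fderiv ℝ τ) x u w = fderiv ℝ (fderiv ℝ τ) x w u :=
    (hT.contDiffAt (x := x)).isSymmSndFDerivAt (by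
      rw [minSmoothness_of_isRCLikeNormedField]; exact WithTop.coe_le_coe.2 (le_top : (2 : ℕ∞) ≤ ⊤))
      u w
  rw [h2, h2, hmet, hmet, hGs x w u] at hsym
  rw [map_add, map_add, _root_.add_apply, _root_.add_apply]
  linarith

end IKAf

theorem pr_KAf (h1 : NcGa) (h3 : NcExp) (h4 : StGeo1) (h5 : StOp) (h6 : NgMet) : StKAf := by
  intro n G _ _ g z l V τ ψ hg hA φ M hφ hτ x u
  obtain ⟨-, hmet2, hcov⟩ := h6 n g hg
  have hdiag : ∀ v, g.val x (fderiv ℝ V x v + Ga g x v (V x)) v = 0 := by
    intro v
    obtain ⟨hgeo, hder, -⟩ := h4 n g hg (fun t => φ t (x, op g x v)) (fun t => hφ.ode _ t)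
    set c : ℝ → E n := fun t => (φ t (x, op g x v)).1 with hc
    have hc0 : c 0 = x := by
      simp only [hc, hφ.zero]
    have hc0' : deriv c 0 = v := by
      rw [hder 0]
      change iop g (φ 0 (x, op g x v)).1 (φ 0 (x, op g x v)).2 = v
      rw [hφ.zero]
      exact (h5 n g hg).2.2.1 x v
    have hcd : ∀ t, HasDerivAt c (deriv c t) t := fun t =>
      ((hgeo.smooth.differentiable (by norm_num)) t).hasDerivAt
    have hdd : Differentiable ℝ (deriv c) := by
      have h : ContDiff ℝ (1 + 1) c := by
        have := hgeo.smooth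
        norm_num
        exact this
      exact (contDiff_succ_iff_deriv.1 h).2.2.differentiable (by norm_num)
    have hexp : ∀ t, c t = expo φ g x (t • v) := fun t => (h3 n g φ M hg hφ x).2.2.1 t v
    have hlin : ∀ t, τ (c t) = τ x + t * g.val x (V x) v := by
      intro t
      rw [hexp t, hτ, map_smul, smul_eq_mul]
    have hconst : ∀ t, g.val (c t) (V (c t)) (deriv c t) = g.val x (V x) v := by
      intro t
      have e1 : HasDerivAt (fun s => τ (c s)) (fderiv ℝ τ (c t) (deriv c t)) t :=
        ((hA.smoothT.differentiable (by norm_num) (c t)).hasFDerivAt).comp_hasDerivAt t (hcd t)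
      have e2 : HasDerivAt (fun s => τ (c s)) (g.val x (V x) v) t := by
        have h7 : (fun s => τ (c s)) = fun s => τ x + s * g.val x (V x) v := funext hlin
        rw [h7]
        simpa using ((hasDerivAt_id t).mul_const (g.val x (V x) v)).const_add (τ x)
      rw [← hA.grad]
      exact e1.unique e2
    have hVd : DifferentiableAt ℝ (fun s => V (c s)) 0 :=
      (hA.smoothV.differentiable (by norm_num) (c 0)).comp (0 : ℝ) (hcd 0).differentiableAt
    have e3 := hmet2 c (fun s => V (c s)) (deriv c) 0 (hcd 0).differentiableAt hVd (hdd 0)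
    have e4 : (fun s => g.val (c s) (V (c s)) (deriv c s)) = fun _ => g.val x (V x) v :=
      funext hconst
    rw [e4] at e3
    have e5 := e3.unique (hasDerivAt_const (0 : ℝ) (g.val x (V x) v))
    rw [hcov c hgeo 0, map_zero, add_zero] at e5
    have e6 : cov g c (fun s => V (c s)) 0 = fderiv ℝ V x v + Ga g x v (V x) := by
      have e7 : HasDerivAt (fun s => V (c s)) (fderiv ℝ V (c 0) (deriv c 0)) 0 :=
        ((hA.smoothV.differentiable (by norm_num) (c 0)).hasFDerivAt).comp_hasDerivAt 0 (hcd 0)
      have e8 : cov g c (fun s => V (c s)) 0 =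
          fderiv ℝ V (c 0) (deriv c 0) + Ga g (c 0) (deriv c 0) (V (c 0)) := by
        unfold cov
        rw [e7.deriv]
      rw [e8, hc0', hc0]
    rw [e6, hc0, hc0'] at e5
    exact e5
  have hB : ∀ w, g.val x (fderiv ℝ V x u + Ga g x u (V x)) w = 0 := by
    intro w
    have hs := IKAf.symB h1 h6 hg hA.smoothV hA.smoothT hA.grad x u w
    have h8 := hdiag (u + w)
    have h9 := hdiag u
    have h10 := hdiag w
    have h11 : fderiv ℝ V x (u + w) + Ga g x (u + w) (V x) =
        (fderiv ℝ V x u + Ga g x u (V x)) + (fderiv ℝ V x w + Ga g x w (V x)) := by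
      rw [map_add, map_add, _root_.add_apply]
      abel
    rw [h11] at h8
    generalize fderiv ℝ V x u + Ga g x u (V x) = P at h8 h9 hs ⊢
    generalize fderiv ℝ V x w + Ga g x w (V x) = R at h8 h10 hs
    have h13 : g.val x (P + R) (u + w) =
        g.val x P u + g.val x P w + (g.val x R u + g.val x R w) := by
      rw [(g.val x).map_add P R, _root_.add_apply, (g.val x P).map_add u w,
        (g.val x R).map_add u w]
    rw [h13, h9, h10] at h8
    linarith
  by_contra hne
  have h12 := hg x _ hne
  rw [hB] at h12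
  exact lt_irrefl _ h12

end Pool.Agent.LQK
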