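import Pool.Agent.Work.MP_13b5d9_gt.LQ.KStmts

set_option autoImplicit false

/-!
# MP_13b5d9_gt, block LQ, part K, item KCl: the split metrics are closed along families
-/

open MeasureTheory Set Filter Topology
open scoped ContDiff ENNReal
open Pool.Agent.Work.MP_c9f990_an.Al (IsFlow)

namespace Pool.Agent.LQK

open Pool.Agent.MLS Pool.Agent.EC Pool.Agent.STR Pool.Agent.DR Pool.Agent.LQR Pool.Agent.LQT

namespace IKCl

theorem sj_zero : Tendsto sj atTop (𝓝 0) :=
  tendsto_pow_atTop_nhds_zero_of_lt_one (by norm_num) (by norm_num)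

end IKCl

theorem pr_KCl (h1 : StRExp) (h2 : StKCv) (h3 : StKT) (h4 : TEh) (h5 : StKAf) (h6 : STR.StAx) :
    StKCl := by
  intro n G _ _ hG F hF hinv hnc0 hnc z hz hcen hpar
  choose l V τ ψ hax hp using hpar
  obtain ⟨l0, V0, τ0, ψ0, hax0⟩ := h6 n G hG (F 0) (hF.riem 0) (hinv 0) hnc0 z hz hcen
  obtain ⟨Φ, hΦ, hfl⟩ := h1 n G hG F hF hinv
  obtain ⟨M0, hM0⟩ := hfl 0
  refine ⟨l0, V0, τ0, ψ0, hax0, h5 n G (F 0) z l0 V0 τ0 ψ0 (hF.riem 0) hax0 (Φ 0) M0 hM0 ?_⟩
  intro x v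
  have hV := (h2 n G hG F hF hinv hnc0 hnc z l V τ ψ hax l0 V0 τ0 ψ0 hax0).2 x
  -- the end points converge
  have hy : Tendsto (fun j => expo (Φ (sj j)) (F (sj j)) x v) atTop
      (𝓝 (expo (Φ 0) (F 0) x v)) := by
    have hc : Continuous fun s : ℝ => expo (Φ s) (F s) x v :=
      hΦ.continuous.comp (by fun_prop : Continuous fun s : ℝ => ((s, x, v) : ℝ × E n × E n))
    exact (hc.tendsto 0).comp IKCl.sj_zero
  have hT := h3 n G hG F hF hinv hnc0 hnc z l V τ ψ hax l0 V0 τ0 ψ0 hax0 x _ _ hy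
  -- the right sides converge
  have hFx : Tendsto (fun j => (F (sj j)).val x) atTop (𝓝 ((F 0).val x)) := by
    have hc : Continuous fun s : ℝ => (F s).val x :=
      hF.smooth.continuous.comp (by fun_prop : Continuous fun s : ℝ => ((s, x) : ℝ × E n))
    exact (hc.tendsto 0).comp IKCl.sj_zero
  have hR : Tendsto (fun j => (F (sj j)).val x (V j x) v) atTop (𝓝 ((F 0).val x (V0 x) v)) :=
    ((isBoundedBilinearMap_apply.continuous.tendsto _).comp
      (Filter.Tendsto.prodMk_nhds ((isBoundedBilinearMap_apply.continuous.tendsto _).comp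
        (Filter.Tendsto.prodMk_nhds hFx hV)) (tendsto_const_nhds (x := v))) :)
  have heq : (fun j => τ j (expo (Φ (sj j)) (F (sj j)) x v) - τ j x) =
      fun j => (F (sj j)).val x (V j x) v := by
    funext j
    obtain ⟨M, hM⟩ := hfl (sj j)
    rw [h4 n G (F (sj j)) z (l j) (V j) (τ j) (ψ j) (hF.riem _) (hax j) (hp j) (Φ (sj j)) M hM x v,
      add_sub_cancel_left]
  rw [heq] at hT
  have h := tendsto_nhds_unique hT hR
  linarith

end Pool.Agent.LQK
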