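import Pool.Agent.Work.MP_13b5d9_gt.LQ.KStmts

set_option autoImplicit false

/-!
# MP_13b5d9_gt, block LQ, item KCv: canonical fields of a family converge pointwise
-/

open MeasureTheory Set Filter Topology
open scoped ContDiff ENNReal
open Pool.Agent.Work.MP_c9f990_an.Al (IsFlow)

namespace Pool.Agent.LQK

open Pool.Agent.MLS Pool.Agent.EC Pool.Agent.STR Pool.Agent.DR Pool.Agent.LQR Pool.Agent.LQT

namespace IKCv

/-- the exponential map sends `l V x` to `z x` -/
theorem expo_axis (h2 : NcGx) {n : ℕ} {G : Type} [Group G] [MulAction G (E n)] {g : Form n} {z : G}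
    {l : ℝ} {V : E n → E n} {τ : E n → ℝ} {ψ : ℝ → E n → E n} (hg : Riem g)
    (hA : Axis n G g z l V τ ψ) {φ : ℝ → W n → W n} {M : ℝ → W n → W n →L[ℝ] W n}
    (hF : IsFlow (XH (Hm g)) φ M) (x : E n) : expo φ g x (l • V x) = z • x := by
  have h1 := (h2 n g φ M hg hF (fun t => ψ t x) (hA.geo x) 0 l).2
  have h3 : deriv (fun t => ψ t x) 0 = V x := by
    have h4 := (hA.ode x 0).deriv
    rw [hA.zero] at h4
    exact h4
  simp only [h3, hA.zero, sub_zero] at h1
  rw [← h1, hA.period]

/-- the norm of `l V x` is `l` -/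
theorem nrm_axis {n : ℕ} {G : Type} [Group G] [MulAction G (E n)] {g : Form n} {z : G}
    {l : ℝ} {V : E n → E n} {τ : E n → ℝ} {ψ : ℝ → E n → E n}
    (hA : Axis n G g z l V τ ψ) (x : E n) :
    Real.sqrt (g.val x (l • V x) (l • V x)) = l := by
  have h1 : g.val x (l • V x) (l • V x) = l ^ 2 := by
    rw [map_smul, map_smul, ContinuousLinearMap.smul_apply, hA.unit]
    simp only [smul_eq_mul]
    ring
  rw [h1, Real.sqrt_sq hA.pos.le]

end IKCv

open IKCv

theorem pr_KCv (h1 : StRExp) (h2 : NcGx) (h3 : NcDist) (h4 : NcInj) (h5 : NcOne) (h6 : StGd) :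
    StKCv := by
  intro n G _ _ hcoc F hF hinv hN0 hNj z l V τ ψ hAx l0 V0 τ0 ψ0 hAx0
  obtain ⟨Φ, hΦ, hfl⟩ := h1 n G hcoc F hF hinv
  have hs : Tendsto sj atTop (𝓝 0) :=
    tendsto_pow_atTop_nhds_zero_of_lt_one (by norm_num) (by norm_num)
  have hs01 : ∀ j, sj j ∈ Icc (0 : ℝ) 1 := fun j =>
    ⟨pow_nonneg (by norm_num) j, pow_le_one₀ (by norm_num) (by norm_num)⟩
  -- continuity
  have hFc : Continuous (fun q : ℝ × E n => (F q.1).val q.2) := hF.smooth.continuous
  have hFv : Continuous (fun q : ℝ × E n × E n => (F q.1).val q.2.1 q.2.2 q.2.2) := by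
    have e1 : Continuous (fun q : ℝ × E n × E n => (F q.1).val q.2.1) :=
      hFc.comp (continuous_fst.prodMk (continuous_fst.comp continuous_snd))
    exact (e1.clm_apply (continuous_snd.comp continuous_snd)).clm_apply
      (continuous_snd.comp continuous_snd)
  -- pointwise
  have key : ∀ x : E n, Tendsto (fun j => l j • V j x) atTop (𝓝 (l0 • V0 x)) := by
    intro x
    have hexp : ∀ j, expo (Φ (sj j)) (F (sj j)) x (l j • V j x) = z • x := by
      intro j
      obtain ⟨M, hM⟩ := hfl (sj j)
      exact expo_axis h2 (hF.riem _) (hAx j) hM x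
    obtain ⟨M0, hM0⟩ := hfl 0
    have hexp0 : expo (Φ 0) (F 0) x (l0 • V0 x) = z • x :=
      expo_axis h2 (hF.riem _) hAx0 hM0 x
    have hinj0 : Function.Injective (expo (Φ 0) (F 0) x) :=
      h5 n (F 0) (Φ 0) M0 (hF.riem 0) hM0 x
        (fun v w h => h4 n (F 0) (Φ 0) M0 (hF.riem 0) hM0 hN0 x v w h)
    -- upper bound for the distance
    obtain ⟨B, hB⟩ : ∃ B : ℝ, ∀ s ∈ Icc (0 : ℝ) 1, gd (F s) x (z • x) ≤ B := by
      have hc : Continuous (fun q : ℝ × ℝ => Real.sqrt ((F q.1).val
          (x + q.2 • (z • x - x)) (z • x - x) (z • x - x))) := by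
        refine Real.continuous_sqrt.comp ?_
        exact hFv.comp (continuous_fst.prodMk ((continuous_const.add
          (continuous_snd.smul continuous_const)).prodMk continuous_const))
      obtain ⟨B, hB⟩ := (isCompact_Icc.prod isCompact_Icc :
        IsCompact (Icc (0 : ℝ) 1 ×ˢ Icc (0 : ℝ) 1)).bddAbove_image hc.continuousOn
      refine ⟨B, fun s hs1 => ?_⟩
      have hcd : ContDiff ℝ 1 (fun t : ℝ => x + t • (z • x - x)) :=
        contDiff_const.add (contDiff_id.smul contDiff_const)
      have hder : ∀ t : ℝ, deriv (fun t : ℝ => x + t • (z • x - x)) t = z • x - x := by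
        intro t
        have h7 : HasDerivAt (fun t : ℝ => x + t • (z • x - x)) ((1 : ℝ) • (z • x - x)) t :=
          ((hasDerivAt_id t).smul_const (z • x - x)).const_add x
        rw [h7.deriv, one_smul]
      have h8 := (h6 n (F s)).2.2.2 (fun t : ℝ => x + t • (z • x - x)) 0 1 hcd zero_le_one
      have e0 : x + (0 : ℝ) • (z • x - x) = x := by simp
      have e1 : x + (1 : ℝ) • (z • x - x) = z • x := by simp
      simp only [e0, e1] at h8
      refine h8.trans ?_
      have h9 : ∫ t in (0 : ℝ)..1, nrm (F s) ((fun t : ℝ => x + t • (z • x - x)) t)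
          (deriv (fun t : ℝ => x + t • (z • x - x)) t) ≤ ∫ t in (0 : ℝ)..1, B := by
        refine intervalIntegral.integral_mono_on zero_le_one ?_ ?_ ?_
        · refine Continuous.intervalIntegrable ?_ _ _
          simp only [hder]
          exact hc.comp (continuous_const.prodMk continuous_id)
        · exact continuous_const.intervalIntegrable _ _
        · intro t ht
          simp only [hder]
          exact hB ⟨(s, t), ⟨hs1, ht⟩, rfl⟩
      simpa using h9
    -- lower bound for the form
    obtain ⟨c, hc, hlow⟩ : ∃ c : ℝ, 0 < c ∧ ∀ s ∈ Icc (0 : ℝ) 1, ∀ v : E n,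
        c * ‖v‖ ^ 2 ≤ (F s).val x v v := by
      have hcv : Continuous (fun q : ℝ × E n => (F q.1).val x q.2 q.2) :=
        hFv.comp (continuous_fst.prodMk (continuous_const.prodMk continuous_snd))
      have hK : IsCompact (Icc (0 : ℝ) 1 ×ˢ Metric.sphere (0 : E n) 1) :=
        isCompact_Icc.prod (isCompact_sphere _ _)
      by_cases hne : (Icc (0 : ℝ) 1 ×ˢ Metric.sphere (0 : E n) 1).Nonempty
      · obtain ⟨q, hq, hmin⟩ := hK.exists_isMinOn hne hcv.continuousOn
        refine ⟨(F q.1).val x q.2 q.2, ?_, ?_⟩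
        · refine hF.riem _ _ _ ?_
          intro h0
          have := hq.2
          rw [h0] at this
          simp at this
        · intro s hs1 v
          by_cases hv : v = 0
          · subst hv
            simp
          · have hvn : 0 < ‖v‖ := norm_pos_iff.mpr hv
            have hu : (‖v‖⁻¹ • v) ∈ Metric.sphere (0 : E n) 1 := by
              rw [mem_sphere_zero_iff_norm, norm_smul, norm_inv, norm_norm,
                inv_mul_cancel₀ hvn.ne']
            have h7 : (F q.1).val x q.2 q.2 ≤ (F s).val x (‖v‖⁻¹ • v) (‖v‖⁻¹ • v) :=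
              hmin (show (s, ‖v‖⁻¹ • v) ∈ _ from ⟨hs1, hu⟩)
            have h8 : (F s).val x (‖v‖⁻¹ • v) (‖v‖⁻¹ • v) = (‖v‖ ^ 2)⁻¹ * (F s).val x v v := by
              rw [map_smul, map_smul, ContinuousLinearMap.smul_apply]
              simp only [smul_eq_mul]
              rw [sq, mul_inv]
              ring
            rw [h8] at h7
            have h9 : (F q.1).val x q.2 q.2 * ‖v‖ ^ 2 ≤
                (‖v‖ ^ 2)⁻¹ * (F s).val x v v * ‖v‖ ^ 2 :=
              mul_le_mul_of_nonneg_right h7 (sq_nonneg _)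
            have h10 : (‖v‖ ^ 2)⁻¹ * (F s).val x v v * ‖v‖ ^ 2 = (F s).val x v v := by
              field_simp
            rw [h10] at h9
            exact h9
      · refine ⟨1, one_pos, fun s hs1 v => ?_⟩
        by_cases hv : v = 0
        · subst hv
          simp
        · exfalso
          apply hne
          have hvn : 0 < ‖v‖ := norm_pos_iff.mpr hv
          refine ⟨(0, ‖v‖⁻¹ • v), ⟨⟨le_refl _, zero_le_one⟩, ?_⟩⟩
          show ‖v‖⁻¹ • v ∈ Metric.sphere (0 : E n) 1
          rw [mem_sphere_zero_iff_norm, norm_smul, norm_inv, norm_norm,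
            inv_mul_cancel₀ hvn.ne']
    -- boundedness
    have hbd : ∀ j, l j • V j x ∈ Metric.closedBall (0 : E n) (Real.sqrt (B ^ 2 / c)) := by
      intro j
      rw [mem_closedBall_zero_iff]
      obtain ⟨M, hM⟩ := hfl (sj j)
      have h7 := (h3 n (F (sj j)) (Φ (sj j)) M (hF.riem _) hM x
        (fun v w h => h4 n _ _ M (hF.riem _) hM (hNj j) x v w h)).2 (l j • V j x)
      rw [hexp j] at h7
      have h8 : Real.sqrt ((F (sj j)).val x (l j • V j x) (l j • V j x)) ≤ B := by
        have := hB (sj j) (hs01 j)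
        rw [h7] at this
        exact this
      have h9 : (F (sj j)).val x (l j • V j x) (l j • V j x) ≤ B ^ 2 := by
        have h10 := (F (sj j)).nonneg x (l j • V j x)
        have h11 := Real.sq_sqrt h10
        have h12 := Real.sqrt_nonneg ((F (sj j)).val x (l j • V j x) (l j • V j x))
        nlinarith
      refine Real.le_sqrt_of_sq_le ?_
      rw [le_div_iff₀ hc]
      have := hlow (sj j) (hs01 j) (l j • V j x)
      linarith
    -- subsequences
    refine tendsto_of_subseq_tendsto fun ns hns => ?_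
    obtain ⟨a, -, ms, hms, hconv⟩ := (isCompact_closedBall (0 : E n)
      (Real.sqrt (B ^ 2 / c))).tendsto_subseq (fun i => hbd (ns i))
    refine ⟨ms, ?_⟩
    have hcont : Continuous (fun q : ℝ × E n => expo (Φ q.1) (F q.1) x q.2) :=
      hΦ.continuous.comp (continuous_fst.prodMk (continuous_const.prodMk continuous_snd))
    have hsub : Tendsto (fun i => sj (ns (ms i))) atTop (𝓝 0) :=
      hs.comp (hns.comp hms.tendsto_atTop)
    have hlim := (hcont.tendsto (0, a)).comp (hsub.prodMk_nhds hconv)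
    have hconst : ((fun q : ℝ × E n => expo (Φ q.1) (F q.1) x q.2) ∘
        fun i => (sj (ns (ms i)), ((fun i => l (ns i) • V (ns i) x) ∘ ms) i)) =
        fun _ => z • x := by
      funext i
      exact hexp (ns (ms i))
    rw [hconst] at hlim
    have ha : z • x = expo (Φ 0) (F 0) x a := tendsto_nhds_unique tendsto_const_nhds hlim
    have ha2 : a = l0 • V0 x := hinj0 (ha.symm.trans hexp0.symm)
    rw [← ha2]
    exact hconv
  have hl : Tendsto l atTop (𝓝 l0) := by
    have h7 : Tendsto (fun j => Real.sqrt ((F (sj j)).val (0 : E n) (l j • V j 0)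
        (l j • V j 0))) atTop
        (𝓝 (Real.sqrt ((F 0).val (0 : E n) (l0 • V0 0) (l0 • V0 0)))) := by
      have h8 := ((Real.continuous_sqrt.comp hFv).tendsto ((0 : ℝ), (0 : E n), l0 • V0 0)).comp
        (hs.prodMk_nhds ((tendsto_const_nhds (x := (0 : E n))).prodMk_nhds (key 0)))
      exact h8
    rw [nrm_axis hAx0] at h7
    refine h7.congr fun j => ?_
    exact nrm_axis (hAx j) 0
  refine ⟨hl, fun x => ?_⟩
  have h7 := (hl.inv₀ hAx0.pos.ne').smul (key x)
  have h8 : l0⁻¹ • l0 • V0 x = V0 x := by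
    rw [smul_smul, inv_mul_cancel₀ hAx0.pos.ne', one_smul]
  rw [h8] at h7
  refine h7.congr fun j => ?_
  rw [smul_smul, inv_mul_cancel₀ (hAx j).pos.ne', one_smul]

end Pool.Agent.LQK
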