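import Pool.Agent.Work.MP_13b5d9_gt.LQ.KStmts

set_option autoImplicit false

/-!
Item KFin: the set of the split metrics is open and closed.
-/

open MeasureTheory Set Filter Topology
open scoped ContDiff ENNReal

namespace Pool.Agent.LQK

open Pool.Agent.MLS Pool.Agent.EC Pool.Agent.STR Pool.Agent.DR Pool.Agent.LQR Pool.Agent.LQT

theorem pr_KFin (h1 : StKSq) (h2 : StKNb) (h3 : TPS) (h4 : TSP) : StKFin := by
  intro m G _ _ hco z hz hcen hop S _ g hg
  constructor
  · refine isClosed_of_closure_subset fun s0 hs0 => ?_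
    refine h3 m G hco (g s0) (hg.riem s0) (hg.inv s0) (hg.noc s0) z ?_
    refine h1 (m + 1) G hco z hz hcen (g s0) (hg.riem s0) (hg.inv s0) (hg.noc s0) fun r => ?_
    obtain ⟨s, hs, hn⟩ := ((mem_closure_iff_frequently.1 hs0).and_eventually
      (h2 (m + 1) G S g hg r s0)).exists
    exact ⟨g s, hg.riem s, hg.inv s, hg.noc s, hn, h4 m G hco (g s) (hg.riem s) z hs⟩
  · rw [isOpen_iff_mem_nhds]
    intro s0 hs0
    obtain ⟨r, hr⟩ := hop (g s0) (hg.riem s0) (hg.inv s0) (hg.noc s0) hs0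
    filter_upwards [h2 (m + 1) G S g hg r s0] with s hs
    exact hr (g s) (hg.riem s) (hg.inv s) (hg.noc s) hs

end Pool.Agent.LQK
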