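import Pool.Agent.Work.MP_13b5d9_gt.LQ.KStmts
import Mathlib

set_option autoImplicit false

/-!
# Item KNb of the block LQ, part K: continuous families are close at close parameters.
-/

open MeasureTheory Set Filter Topology
open scoped ContDiff ENNReal
open Pool.Agent.Work.MP_c9f990_an.Al (IsFlow)

namespace Pool.Agent.LQK

open Pool.Agent.MLS Pool.Agent.EC Pool.Agent.STR Pool.Agent.DR Pool.Agent.LQR Pool.Agent.LQT

namespace IKNb

theorem one {n : ℕ} {G : Type} [Group G] [MulAction G (E n)] {S : Type} [TopologicalSpace S]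
    {g : S → Form n} (h : CF n G S g) (r : ℕ) (s0 : S) (i : ℕ) :
    ∀ᶠ s in 𝓝 s0, ∀ y ∈ Metric.closedBall (0 : E n) r,
      ‖iteratedFDeriv ℝ i (fun x => (g s).val x - (g s0).val x) y‖ ≤ 1 / ((r : ℝ) + 1) := by
  have hc : Continuous (fun p : S × E n =>
      iteratedFDeriv ℝ i (g p.1).val p.2 - iteratedFDeriv ℝ i (g s0).val p.2) := by
    refine (h.cts i).sub ?_
    exact (h.cts i).comp (continuous_const.prodMk continuous_snd : Continuous (fun p : S × E n => (s0, p.2)))
  have hpos : (0 : ℝ) < 1 / ((r : ℝ) + 1) := by positivity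
  have key : ∀ᶠ s in 𝓝 s0, ∀ y ∈ Metric.closedBall (0 : E n) r,
      ‖iteratedFDeriv ℝ i (g s).val y - iteratedFDeriv ℝ i (g s0).val y‖ < 1 / ((r : ℝ) + 1) := by
    refine IsCompact.eventually_forall_of_forall_eventually (isCompact_closedBall (0 : E n) r)
      (P := fun s y => ‖iteratedFDeriv ℝ i (g s).val y - iteratedFDeriv ℝ i (g s0).val y‖ < 1 / ((r : ℝ) + 1)) ?_
    intro y _
    have hn := (hc.norm).continuousAt (x := (s0, y))
    refine hn.eventually_lt (continuousAt_const (y := 1 / ((r : ℝ) + 1))) ?_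
    simpa using hpos
  filter_upwards [key] with s hs y hy
  have e : iteratedFDeriv ℝ i (fun x => (g s).val x - (g s0).val x) y =
      iteratedFDeriv ℝ i (g s).val y - iteratedFDeriv ℝ i (g s0).val y := by
    have h1 : ContDiffAt ℝ i (g s).val y := ((g s).smooth.of_le (by exact_mod_cast le_top)).contDiffAt
    have h2 : ContDiffAt ℝ i (g s0).val y := ((g s0).smooth.of_le (by exact_mod_cast le_top)).contDiffAt
    exact iteratedFDeriv_sub_apply h1 h2
  rw [e]
  exact (hs y hy).le

end IKNb

theorem pr_KNb : StKNb := by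
  intro n G _ _ S _ g h r s0
  have : ∀ᶠ s in 𝓝 s0, ∀ i ∈ Finset.range (r + 1), ∀ y ∈ Metric.closedBall (0 : E n) r,
      ‖iteratedFDeriv ℝ i (fun x => (g s).val x - (g s0).val x) y‖ ≤ 1 / ((r : ℝ) + 1) := by
    rw [Filter.eventually_all_finset]
    intro i _
    exact IKNb.one h r s0 i
  filter_upwards [this] with s hs i hi y hy
  exact hs i (Finset.mem_range.2 (by omega)) y (by simpa using hy)

end Pool.Agent.LQK
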