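import Pool.Agent.Work.MP_13b5d9_gt.LQ.KStmts

set_option autoImplicit false

/-!
# MP_13b5d9_gt, block LQ, item KSq (helper35): closedness, from families to neighbourhoods
-/

open MeasureTheory Set Filter Topology
open scoped ContDiff ENNReal
open Pool.Agent.Work.MP_c9f990_an.Al (IsFlow)

namespace Pool.Agent.LQK

open Pool.Agent.MLS Pool.Agent.EC Pool.Agent.STR Pool.Agent.DR Pool.Agent.LQR Pool.Agent.LQT

namespace IKSq

theorem inv_comb {n : ℕ} {G : Type} [Group G] [MulAction G (E n)] {g0 g1 g : Form n} {θ : ℝ}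
    (h0 : MLS.Inv G g0) (h1 : MLS.Inv G g1)
    (h : ∀ x, g.val x = (1 - θ) • g0.val x + θ • g1.val x) : MLS.Inv G g := by
  intro a x u v
  rw [h, h]
  have e0 := h0 a x u v
  have e1 := h1 a x u v
  simp only [ContinuousLinearMap.add_apply, ContinuousLinearMap.smul_apply, smul_eq_mul]
  rw [e0, e1]

theorem rate (j : ℕ) : (1 : ℝ) / (((max j (2 ^ (j * j)) : ℕ) : ℝ) + 1) ≤ (1 / 2 : ℝ) ^ (j * j) := by
  rw [one_div_pow]
  apply one_div_le_one_div_of_le (by positivity)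
  have h1 : (2 ^ (j * j) : ℕ) ≤ max j (2 ^ (j * j)) := le_max_right _ _
  have h2 : ((2 ^ (j * j) : ℕ) : ℝ) ≤ ((max j (2 ^ (j * j)) : ℕ) : ℝ) := by exact_mod_cast h1
  have h3 : ((2 ^ (j * j) : ℕ) : ℝ) = (2 : ℝ) ^ (j * j) := by push_cast; rfl
  linarith

end IKSq

open IKSq in
theorem pr_KSq (h1 : StKCl) (h2 : StRCur) : StKSq := by
  intro n G _ _ hG z hz hzc g0 hg0 hI0 hN0 hcl
  choose g' hg' hI' hN' hc' hP' using hcl
  let r : ℕ → ℕ := fun j => max j (2 ^ (j * j))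
  have hclose : ∀ j : ℕ, ∀ i ≤ j, ∀ x : E n, ‖x‖ ≤ j →
      ‖iteratedFDeriv ℝ i (fun y => (g' (r j)).val y - g0.val y) x‖ ≤ (1 / 2 : ℝ) ^ (j * j) := by
    intro j i hi x hx
    have hjr : j ≤ r j := le_max_left _ _
    have hjr' : (j : ℝ) ≤ (r j : ℝ) := by exact_mod_cast hjr
    exact (hc' (r j) i (hi.trans hjr) x (hx.trans hjr')).trans (rate j)
  obtain ⟨F, hF, hF0, hFj, hFc⟩ := h2 n g0 (fun j => g' (r j)) hg0 (fun j => hg' (r j)) hclose
  have hFI : ∀ s, MLS.Inv G (F s) := by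
    intro s
    obtain ⟨j, θ, -, -, hθ⟩ := hFc s
    exact inv_comb hI0 (hI' (r j)) hθ
  have hNj : ∀ j, NoConj (F (sj j)) := by
    intro j
    rw [hFj j]
    exact hN' (r j)
  have hfin := h1 n G hG F hF hFI (by rw [hF0]; exact hN0) hNj z hz hzc
    (fun j => by rw [hFj j]; exact hP' (r j))
  rwa [hF0] at hfin

end Pool.Agent.LQK
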