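import Mathlib
import Pool.Agent.Work.MP_13b5d9_gt.LQ.RStmts

set_option autoImplicit false

/-!
# MP_13b5d9_gt, block LQ, item RAct: twisted actions
-/

open MeasureTheory Set Filter Topology
open scoped ContDiff ENNReal
open Pool.Agent.Work.MP_c9f990_an.Al (IsFlow)

namespace Pool.Agent.LQR

open Pool.Agent.MLS Pool.Agent.EC Pool.Agent.STR Pool.Agent.DR

theorem pr_RAct (h1 : StRLin) (h2 : StRPd) : StRAct := by
  intro m Γ G _ _ _ iA p k hP
  obtain ⟨l1, l2, l3, l4, l5, l6, l7, l8, l9, l10, l11, l12, l13⟩ := h1 m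
  obtain ⟨hk, -, -, -⟩ := h2 m Γ G p k hP
  have hcoc := hP.coc
  have hbij := hP.bij
  intro η hη A hA
  have hη1 : η 1 = 0 := by
    have := hη 1 1
    rw [mul_one] at this
    linarith
  have hk1 : k 1 = 0 := by
    have := hk 1 1
    rw [mul_one] at this
    linarith
  have hinj : Function.Injective (fun a : G => (p a, k a)) := by
    intro a b hab
    obtain ⟨c, -, hc⟩ := hbij (p a) (k a)
    have e1 : p a = p b := congrArg Prod.fst hab
    have e2 : k a = k b := congrArg Prod.snd hab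
    rw [hc a ⟨rfl, rfl⟩, hc b ⟨e1.symm, e2.symm⟩]
  have hpr : ∀ (a : G) (y : E (m + 1)), pr (A.smul a y) = p a • pr y := fun a y => by rw [hA, l6]
  have hht : ∀ (a : G) (y : E (m + 1)), ht (A.smul a y) = ht y + k a + η (p a) := fun a y => by rw [hA, l7]
  have hjn : Continuous (fun q : E m × ℝ => (jn q.1 q.2 : E (m + 1))) := by
    unfold jn
    exact (inc.continuous.comp continuous_fst).add (continuous_snd.smul continuous_const)
  have hvert : @Vert (m + 1) G _ A eL := by
    refine @Vert.mk (m + 1) G _ A eL ?_ ?_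
    · intro h
      rw [h, map_zero] at l4
      exact zero_ne_one l4
    · intro a x s
      show A.smul a (x + s • eL) = A.smul a x + s • eL
      rw [hA, hA, map_add, map_add, map_smul, map_smul, l3, l4, smul_zero, add_zero, smul_eq_mul, mul_one,
        show ht x + s + (k a : ℝ) + η (p a) = (ht x + k a + η (p a)) + s by ring, l13]
  refine ⟨@Cocompact.mk (m + 1) G _ A ?_ ?_ ?_ ?_, hvert, ?_⟩
  · intro a
    show ContDiff ℝ ∞ (fun x : E (m + 1) => A.smul a x)
    have e : (fun x : E (m + 1) => A.smul a x) = fun x => inc (p a • pr x) + (ht x + k a + η (p a)) • eL := by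
      funext x; rw [hA]; rfl
    rw [e]
    have s1 : ContDiff ℝ ∞ (fun x : E (m + 1) => p a • pr x) := (hcoc.smooth (p a)).comp pr.contDiff
    have s2 : ContDiff ℝ ∞ (fun x : E (m + 1) => ht x + (k a : ℝ) + η (p a)) :=
      (ht.contDiff.add contDiff_const).add contDiff_const
    exact (inc.contDiff.comp s1).add (s2.smul contDiff_const)
  · intro a x hax
    have hax' : A.smul a x = x := hax
    have e1 : p a • pr x = pr x := by rw [← hpr, hax']
    have e2 : p a = 1 := hcoc.free _ _ e1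
    have e3 : ht x + k a + η (p a) = ht x := by rw [← hht, hax']
    rw [e2, hη1] at e3
    have e4 : (k a : ℝ) = 0 := by linarith
    have e5 : k a = 0 := by exact_mod_cast e4
    apply hinj
    show (p a, k a) = (p 1, k 1)
    rw [e2, e5, map_one, hk1]
  · intro K hK
    have hKc : IsCompact (pr '' K) := hK.image pr.continuous
    have hfin := hcoc.proper _ hKc
    set S : Set Γ := {a : Γ | ((fun x : E m => a • x) '' (pr '' K) ∩ (pr '' K)).Nonempty} with hS
    obtain ⟨R, hR⟩ := hK.isBounded.exists_norm_le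
    obtain ⟨B, hB⟩ := (hfin.image fun γ => |η γ|).bddAbove
    obtain ⟨N, hN⟩ := exists_nat_ge (2 * R + B)
    have hsub : {a : G | ((fun x : E (m + 1) => A.smul a x) '' K ∩ K).Nonempty} ⊆ (fun a : G => (p a, k a)) ⁻¹' (S ×ˢ Set.Icc (-(N : ℤ)) N) := by
      rintro a ⟨y', ⟨y, hy, hy1⟩, hy2⟩
      have hy1' : A.smul a y = y' := hy1
      have hpS : p a ∈ S := by
        refine ⟨pr y', ⟨pr y, ⟨y, hy, rfl⟩, ?_⟩, ⟨y', hy2, rfl⟩⟩
        show p a • pr y = pr y'
        rw [← hpr, hy1']
      refine ⟨hpS, ?_⟩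
      have e1 : |ht y| ≤ R := (l10 y).trans (hR y hy)
      have e2 : |ht y'| ≤ R := (l10 y').trans (hR y' hy2)
      have e3 : |η (p a)| ≤ B := hB ⟨p a, hpS, rfl⟩
      have e4 : ht y' = ht y + k a + η (p a) := by rw [← hy1', hht]
      have f1 := abs_le.1 e1
      have f2 := abs_le.1 e2
      have f3 := abs_le.1 e3
      have e5 : (k a : ℝ) ≤ N := by linarith [f1.1, f2.2, f3.1]
      have e6 : -(N : ℝ) ≤ k a := by linarith [f1.2, f2.1, f3.2]
      exact ⟨by exact_mod_cast e6, by exact_mod_cast e5⟩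
    exact ((hfin.prod (Set.finite_Icc _ _)).preimage hinj.injOn).subset hsub
  · obtain ⟨K, hK, hcov⟩ := hcoc.cocompact
    refine ⟨(fun q : E m × ℝ => (jn q.1 q.2 : E (m + 1))) '' (K ×ˢ Set.Icc (0 : ℝ) 1), (hK.prod isCompact_Icc).image hjn, ?_⟩
    intro x
    obtain ⟨γ, hγ⟩ := hcov (pr x)
    obtain ⟨a, ⟨ha1, ha2⟩, -⟩ := hbij γ (-⌊ht x + η γ⌋)
    refine ⟨a, ⟨(p a • pr x, ht x + k a + η (p a)), ⟨?_, ?_⟩, ?_⟩⟩
    · show p a • pr x ∈ K
      rw [ha1]; exact hγ
    · show ht x + k a + η (p a) ∈ Set.Icc (0 : ℝ) 1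
      rw [ha1, ha2]
      push_cast
      have f1 := Int.floor_le (ht x + η γ)
      have f2 := Int.lt_floor_add_one (ht x + η γ)
      constructor <;> linarith
    · show jn (p a • pr x) (ht x + k a + η (p a)) = A.smul a x
      rw [hA]
  · obtain ⟨z, ⟨hz1, hz2⟩, -⟩ := hbij 1 1
    refine ⟨z, fun x => ?_⟩
    rw [hA, hz1, hz2, hη1, one_smul]
    push_cast
    rw [add_zero, l13, one_smul]
    show inc (pr x) + ht x • eL + eL = x + eL
    rw [l5]

end Pool.Agent.LQR
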