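import Pool.Agent.Work.MP_13b5d9_gt.LQ.RStmts

set_option autoImplicit false

/-!
# MP_13b5d9_gt, block LQ, item RCur: the special curve lemma
-/

open MeasureTheory Set Filter Topology
open scoped ContDiff ENNReal
open Pool.Agent.Work.MP_c9f990_an.Al (IsFlow)

namespace Pool.Agent.LQR

open Pool.Agent.MLS Pool.Agent.EC Pool.Agent.STR Pool.Agent.DR

namespace IRCur

/-- the bump function on the line -/
noncomputable def rho : ContDiffBump (0 : ℝ) := ⟨1 / 8, 1 / 4, by norm_num, by norm_num⟩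

theorem rho_ne {u : ℝ} (h : rho u ≠ 0) : |u| < 1 / 4 := by
  have h1 : u ∈ Function.support rho := h
  rw [ContDiffBump.support_eq, Metric.mem_ball, dist_zero_right] at h1
  exact h1

/-- the bump functions near `2^(-j)` -/
noncomputable def rj (j : ℕ) (s : ℝ) : ℝ := rho (2 ^ j * s - 1)

theorem rj_ne {j : ℕ} {s : ℝ} (h : rj j s ≠ 0) : 3 / 4 < 2 ^ j * s ∧ 2 ^ j * s < 5 / 4 := by
  have h1 := abs_lt.1 (rho_ne h)
  constructor <;> linarith [h1.1, h1.2]

theorem rj_lt {i j : ℕ} {s : ℝ} (hi : rj i s ≠ 0) (hij : i < j) : rj j s = 0 := by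
  by_contra hj
  have h1 := rj_ne hi
  have h2 := rj_ne hj
  obtain ⟨r, rfl⟩ := Nat.exists_eq_add_of_lt hij
  have h3 : (2 : ℝ) ^ (i + r + 1) * s = 2 ^ r * 2 * (2 ^ i * s) := by ring
  rw [h3] at h2
  have h4 : (1 : ℝ) ≤ 2 ^ r := one_le_pow₀ (by norm_num)
  nlinarith [h1.1, h2.2]

theorem rj_single {i j : ℕ} {s : ℝ} (hi : rj i s ≠ 0) (hij : j ≠ i) : rj j s = 0 := by
  rcases lt_or_gt_of_ne hij with h | h
  · by_contra hj
    exact hi (rj_lt hj h)
  · exact rj_lt hi h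

theorem rj_zero (j : ℕ) : rj j 0 = 0 := by
  by_contra h
  have h1 := (rj_ne h).1
  rw [mul_zero] at h1
  linarith

theorem rj_self (j : ℕ) : rj j ((1 / 2 : ℝ) ^ j) = 1 := by
  have h1 : (2 : ℝ) ^ j * (1 / 2 : ℝ) ^ j - 1 = 0 := by
    rw [← mul_pow]
    norm_num
  rw [rj, h1]
  exact ContDiffBump.one_of_mem_closedBall _ (Metric.mem_closedBall_self (by norm_num [rho]))

section

variable {V W : Type} [NormedAddCommGroup V] [NormedSpace ℝ V] [FiniteDimensional ℝ V]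
  [HasContDiffBump V] [NormedAddCommGroup W] [NormedSpace ℝ W] [CompleteSpace W]

theorem bd_cpt {X Y : Type} [NormedAddCommGroup X] [NormedSpace ℝ X] [NormedAddCommGroup Y]
    [NormedSpace ℝ Y] (f : X → Y) (hf : ContDiff ℝ ∞ f) (hc : HasCompactSupport f) (i : ℕ) :
    ∃ C, 0 ≤ C ∧ ∀ x, ‖iteratedFDeriv ℝ i f x‖ ≤ C := by
  obtain ⟨C, hC⟩ := (hc.iteratedFDeriv (𝕜 := ℝ) i).exists_bound_of_continuous
    (hf.continuous_iteratedFDeriv (m := i) (by exact_mod_cast le_top))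
  exact ⟨max C 0, le_max_right _ _, fun x => (hC x).trans (le_max_left _ _)⟩

theorem bd_rj (V : Type) [NormedAddCommGroup V] [NormedSpace ℝ V] (i : ℕ) :
    ∃ C, 0 ≤ C ∧ ∀ (j : ℕ) (q : ℝ × V),
      ‖iteratedFDeriv ℝ i (fun q : ℝ × V => rj j q.1) q‖ ≤ C * (2 ^ j) ^ i := by
  set h : ℝ → ℝ := fun u => rho (u - 1) with hh
  have hs : ContDiff ℝ ∞ h := rho.contDiff.comp (contDiff_id.sub contDiff_const)
  have hc : HasCompactSupport h := by
    have h1 : HasCompactSupport (rho : ℝ → ℝ) := rho.hasCompactSupport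
    exact h1.comp_homeomorph (Homeomorph.subRight (1 : ℝ))
  obtain ⟨C, hC0, hC⟩ := bd_cpt h hs hc i
  refine ⟨C, hC0, fun j q => ?_⟩
  set L : ℝ × V →L[ℝ] ℝ := (2 ^ j : ℝ) • ContinuousLinearMap.fst ℝ ℝ V with hL
  have e : (fun q : ℝ × V => rj j q.1) = h ∘ L := by
    funext q
    simp [rj, hh, hL]
  have hn : ‖L‖ ≤ 2 ^ j := by
    rw [hL]
    rw [norm_smul, Real.norm_of_nonneg (by positivity)]
    exact mul_le_of_le_one_right (by positivity) (ContinuousLinearMap.norm_fst_le ℝ ℝ V)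
  rw [e, L.iteratedFDeriv_comp_right hs q (i := i) (by exact_mod_cast le_top)]
  refine (ContinuousMultilinearMap.norm_compContinuousLinearMap_le _ _).trans ?_
  rw [Finset.prod_const, Finset.card_univ, Fintype.card_fin]
  exact mul_le_mul (hC _) (pow_le_pow_left₀ (norm_nonneg _) hn i) (by positivity) hC0

omit [FiniteDimensional ℝ V] [HasContDiffBump V] [CompleteSpace W] in
theorem bd_snd (f : V → W) (hf : ContDiff ℝ ∞ f) (i : ℕ) (q : ℝ × V) :
    ‖iteratedFDeriv ℝ i (fun q : ℝ × V => f q.2) q‖ ≤ ‖iteratedFDeriv ℝ i f q.2‖ := by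
  have e : (fun q : ℝ × V => f q.2) = f ∘ ContinuousLinearMap.snd ℝ ℝ V := rfl
  rw [e, (ContinuousLinearMap.snd ℝ ℝ V).iteratedFDeriv_comp_right hf q (i := i)
    (by exact_mod_cast le_top)]
  refine (ContinuousMultilinearMap.norm_compContinuousLinearMap_le _ _).trans ?_
  rw [Finset.prod_const, Finset.card_univ, Fintype.card_fin]
  refine mul_le_of_le_one_right (norm_nonneg _) (pow_le_one₀ (norm_nonneg _) ?_)
  exact ContinuousLinearMap.norm_snd_le ℝ ℝ V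

omit [CompleteSpace W] in
theorem bd_prod (κ : ContDiffBump (0 : V)) (D : ℕ → V → W) (hD : ∀ j, ContDiff ℝ ∞ (D j))
    (hb : ∀ j : ℕ, ∀ i ≤ j, ∀ x : V, ‖x‖ ≤ j → ‖iteratedFDeriv ℝ i (D j) x‖ ≤
      (1 / 2 : ℝ) ^ (j * j)) (i : ℕ) :
    ∃ C, 0 ≤ C ∧ ∀ j : ℕ, i ≤ j → κ.rOut ≤ j → ∀ x : V,
      ‖iteratedFDeriv ℝ i (fun x => κ x • D j x) x‖ ≤ C * (1 / 2) ^ (j * j) := by
  choose K hK0 hK using fun l => bd_cpt (κ : V → ℝ) κ.contDiff κ.hasCompactSupport l
  refine ⟨∑ l ∈ Finset.range (i + 1), (i.choose l : ℝ) * K l,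
    Finset.sum_nonneg fun l _ => mul_nonneg (Nat.cast_nonneg _) (hK0 l), fun j hij hj x => ?_⟩
  refine (norm_iteratedFDeriv_smul_le (N := ∞) κ.contDiff (hD j) x (n := i)
    (by exact_mod_cast le_top)).trans ?_
  rw [Finset.sum_mul]
  refine Finset.sum_le_sum fun l _ => ?_
  rw [mul_assoc, mul_assoc]
  refine mul_le_mul_of_nonneg_left ?_ (Nat.cast_nonneg _)
  by_cases hx : ‖x‖ ≤ j
  · exact mul_le_mul (hK l x) (hb j _ (by omega) x hx) (norm_nonneg _) (hK0 l)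
  · have h0 : iteratedFDeriv ℝ l (κ : V → ℝ) x = 0 := by
      by_contra hne
      have h1 := support_iteratedFDeriv_subset (𝕜 := ℝ) (f := (κ : V → ℝ)) l hne
      rw [ContDiffBump.tsupport_eq, Metric.mem_closedBall, dist_zero_right] at h1
      exact hx (h1.trans hj)
    rw [h0, norm_zero, zero_mul]
    exact mul_nonneg (hK0 l) (by positivity)

theorem smooth_cut (κ : ContDiffBump (0 : V)) (D : ℕ → V → W) (hD : ∀ j, ContDiff ℝ ∞ (D j))
    (hb : ∀ j : ℕ, ∀ i ≤ j, ∀ x : V, ‖x‖ ≤ j → ‖iteratedFDeriv ℝ i (D j) x‖ ≤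
      (1 / 2 : ℝ) ^ (j * j)) :
    ContDiff ℝ ∞ (fun q : ℝ × V => ∑' j, rj j q.1 • (κ q.2 • D j q.2)) := by
  choose A hA0 hA using bd_rj V
  choose B hB0 hB using bd_prod κ D hD hb
  have hr : ∀ j, ContDiff ℝ ∞ (fun q : ℝ × V => rj j q.1) := fun j =>
    rho.contDiff.comp ((contDiff_const.mul contDiff_fst).sub contDiff_const)
  have hk : ∀ j, ContDiff ℝ ∞ (fun x : V => κ x • D j x) := fun j =>
    κ.contDiff.smul (hD j)
  have hk2 : ∀ j, ContDiff ℝ ∞ (fun q : ℝ × V => κ q.2 • D j q.2) := fun j =>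
    (hk j).comp contDiff_snd
  refine contDiff_tsum_of_eventually (N := ⊤)
    (v := fun k j => (∑ l ∈ Finset.range (k + 1), (k.choose l : ℝ) * A l * B (k - l)) *
      (1 / 2 : ℝ) ^ j) (fun j => (hr j).smul (hk2 j)) (fun k _ => ?_) fun k _ => ?_
  · exact (summable_geometric_of_lt_one (by norm_num) (by norm_num)).mul_left _
  · rw [Nat.cofinite_eq_atTop]
    filter_upwards [eventually_ge_atTop (k + 1), eventually_ge_atTop ⌈κ.rOut⌉₊] with j hj1 hj2 q
    have hj3 : κ.rOut ≤ j := Nat.ceil_le.1 hj2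
    refine (norm_iteratedFDeriv_smul_le (N := ∞) (hr j) (hk2 j) q (n := k)
      (by exact_mod_cast le_top)).trans ?_
    rw [Finset.sum_mul]
    refine Finset.sum_le_sum fun l hl => ?_
    have hlk : l ≤ k := Nat.lt_succ_iff.1 (Finset.mem_range.1 hl)
    rw [mul_assoc, mul_assoc, mul_assoc]
    refine mul_le_mul_of_nonneg_left ?_ (Nat.cast_nonneg _)
    have h1 := hA l j q
    have h2 := (bd_snd (fun x : V => κ x • D j x) (hk j) (k - l) q).trans
      (hB (k - l) j (by omega) hj3 q.2)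
    refine (mul_le_mul h1 h2 (norm_nonneg _) (mul_nonneg (hA0 l) (by positivity))).trans ?_
    have h3 : ((2 : ℝ) ^ j) ^ l * (1 / 2) ^ (j * j) ≤ (1 / 2) ^ j := by
      have h4 : ((2 : ℝ) ^ j) ^ l ≤ 2 ^ (j * (j - 1)) := by
        rw [← pow_mul]
        exact pow_le_pow_right₀ (by norm_num) (Nat.mul_le_mul_left j (by omega))
      have h5 : (1 / 2 : ℝ) ^ (j * j) = (1 / 2) ^ (j * (j - 1)) * (1 / 2) ^ j := by
        rw [← pow_add]
        congr 1
        obtain ⟨r, rfl⟩ := Nat.exists_eq_add_of_le' (by omega : 1 ≤ j)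
        simp
        ring
      calc ((2 : ℝ) ^ j) ^ l * (1 / 2) ^ (j * j)
          ≤ 2 ^ (j * (j - 1)) * (1 / 2) ^ (j * j) :=
            mul_le_mul_of_nonneg_right h4 (by positivity)
        _ = (2 ^ (j * (j - 1)) * (1 / 2) ^ (j * (j - 1))) * (1 / 2) ^ j := by
            rw [h5]
            ring
        _ = (1 / 2) ^ j := by
            rw [← mul_pow]
            norm_num
    calc A l * (2 ^ j) ^ l * (B (k - l) * (1 / 2) ^ (j * j))
        = A l * B (k - l) * ((2 ^ j) ^ l * (1 / 2) ^ (j * j)) := by ring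
      _ ≤ A l * B (k - l) * (1 / 2) ^ j :=
          mul_le_mul_of_nonneg_left h3 (mul_nonneg (hA0 l) (hB0 _))
      _ = A l * (B (k - l) * (1 / 2) ^ j) := by ring

theorem smooth_sum (D : ℕ → V → W) (hD : ∀ j, ContDiff ℝ ∞ (D j))
    (hb : ∀ j : ℕ, ∀ i ≤ j, ∀ x : V, ‖x‖ ≤ j → ‖iteratedFDeriv ℝ i (D j) x‖ ≤
      (1 / 2 : ℝ) ^ (j * j)) :
    ContDiff ℝ ∞ (fun q : ℝ × V => ∑' j, rj j q.1 • D j q.2) := by
  rw [contDiff_iff_contDiffAt]
  intro q₀
  set κ : ContDiffBump (0 : V) := ⟨‖q₀.2‖ + 1, ‖q₀.2‖ + 2, by positivity, by linarith⟩ with hκ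
  refine (smooth_cut κ D hD hb).contDiffAt.congr_of_eventuallyEq ?_
  have h1 : ∀ᶠ q : ℝ × V in 𝓝 q₀, ‖q.2‖ < ‖q₀.2‖ + 1 :=
    (continuous_snd.norm.tendsto q₀).eventually_lt_const (by linarith)
  filter_upwards [h1] with q hq
  have h2 : κ q.2 = 1 := κ.one_of_mem_closedBall (by
    rw [Metric.mem_closedBall, dist_zero_right]
    exact hq.le)
  simp only [h2, one_smul]

theorem gen (a : V → W) (b : ℕ → V → W) (ha : ContDiff ℝ ∞ a) (hb : ∀ j, ContDiff ℝ ∞ (b j))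
    (hbd : ∀ j : ℕ, ∀ i ≤ j, ∀ x : V, ‖x‖ ≤ j →
      ‖iteratedFDeriv ℝ i (fun y => b j y - a y) x‖ ≤ (1 / 2 : ℝ) ^ (j * j)) :
    ∃ Fv : ℝ × V → W, ContDiff ℝ ∞ Fv ∧ (∀ x, Fv (0, x) = a x) ∧
      (∀ (j : ℕ) x, Fv ((1 / 2 : ℝ) ^ j, x) = b j x) ∧
      ∀ s, ∃ (j : ℕ) (θ : ℝ), 0 ≤ θ ∧ θ ≤ 1 ∧ ∀ x, Fv (s, x) = (1 - θ) • a x + θ • b j x := by
  have hD : ∀ j, ContDiff ℝ ∞ (fun y => b j y - a y) := fun j => (hb j).sub ha
  have hsm := smooth_sum (fun j y => b j y - a y) hD hbd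
  have hone : ∀ (s : ℝ) (j : ℕ), rj j s ≠ 0 → ∀ x,
      a x + ∑' i, rj i s • (b i x - a x) = (1 - rj j s) • a x + rj j s • b j x := by
    intro s j hj x
    have h1 : ∑' i, rj i s • (b i x - a x) = rj j s • (b j x - a x) :=
      tsum_eq_single j fun i hi => by rw [rj_single hj hi, zero_smul]
    rw [h1, sub_smul, one_smul, smul_sub]
    abel
  have hnone : ∀ s : ℝ, (∀ j, rj j s = 0) → ∀ x,
      a x + ∑' i, rj i s • (b i x - a x) = a x := by
    intro s hs x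
    simp only [hs, zero_smul, tsum_zero, add_zero]
  refine ⟨fun q => a q.2 + ∑' j, rj j q.1 • (b j q.2 - a q.2), (ha.comp contDiff_snd).add hsm,
    fun x => hnone 0 (fun j => rj_zero j) x, fun j x => ?_, fun s => ?_⟩
  · have h1 : rj j ((1 / 2 : ℝ) ^ j) = 1 := rj_self j
    have h2 := hone ((1 / 2 : ℝ) ^ j) j (by rw [h1]; exact one_ne_zero) x
    rw [h1, sub_self, zero_smul, zero_add, one_smul] at h2
    exact h2
  · by_cases h : ∃ j, rj j s ≠ 0
    · obtain ⟨j, hj⟩ := h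
      exact ⟨j, rj j s, ContDiffBump.nonneg _, ContDiffBump.le_one _, fun x => hone s j hj x⟩
    · push Not at h
      refine ⟨0, 0, le_rfl, zero_le_one, fun x => ?_⟩
      rw [sub_zero, one_smul, zero_smul, add_zero]
      exact hnone s h x

end

end IRCur

open IRCur in
theorem pr_RCur : StRCur := by
  intro n g0 g hR0 hR hb
  obtain ⟨Fv, hFs, hF0, hFj, key⟩ := gen (V := E n) (W := E n →L[ℝ] E n →L[ℝ] ℝ) g0.val
    (fun j => (g j).val) g0.smooth (fun j => (g j).smooth) hb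
  have hnn : ∀ s x v, 0 ≤ Fv (s, x) v v := by
    intro s x v
    obtain ⟨j, θ, h0, h1, h⟩ := key s
    rw [h x]
    exact add_nonneg (mul_nonneg (by linarith) (g0.nonneg x v)) (mul_nonneg h0 ((g j).nonneg x v))
  have hsy : ∀ s x u v, Fv (s, x) u v = Fv (s, x) v u := by
    intro s x u v
    obtain ⟨j, θ, h0, h1, h⟩ := key s
    rw [h x]
    change (1 - θ) * g0.val x u v + θ * (g j).val x u v =
      (1 - θ) * g0.val x v u + θ * (g j).val x v u
    rw [g0.symm x u v, (g j).symm x u v]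
  let F : ℝ → Form n := fun s =>
    { val := fun x => Fv (s, x)
      smooth := hFs.comp (contDiff_const.prodMk contDiff_id)
      symm := hsy s
      nonneg := hnn s }
  refine ⟨F, ⟨hFs, fun s x v hv => ?_⟩, ?_, fun j => ?_, key⟩
  · obtain ⟨j, θ, h0, h1, h⟩ := key s
    change 0 < Fv (s, x) v v
    rw [h x]
    change 0 < (1 - θ) * g0.val x v v + θ * (g j).val x v v
    have ha := hR0 x v hv
    have hb' := hR j x v hv
    rcases h1.lt_or_eq with h2 | h2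
    · exact add_pos_of_pos_of_nonneg (mul_pos (by linarith) ha) (mul_nonneg h0 hb'.le)
    · rw [h2, sub_self, zero_mul, zero_add, one_mul]
      exact hb'
  · apply Form.ext
    funext x
    exact hF0 x
  · apply Form.ext
    funext x
    exact hFj j x

end Pool.Agent.LQR
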