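import Pool.Agent.Work.MP_13b5d9_gt.LQ.RStmts

set_option autoImplicit false

/-!
# MP_13b5d9_gt, block LQ, item RDif: adapted coordinates are a diffeomorphism
-/

open MeasureTheory Set Filter Topology
open scoped ContDiff ENNReal
open Pool.Agent.Work.MP_c9f990_an.Al (IsFlow)

namespace Pool.Agent.LQR

open Pool.Agent.MLS Pool.Agent.EC Pool.Agent.STR Pool.Agent.DR

namespace IRDif

/-- the inverse of a smooth bijection with injective derivatives is smooth -/
theorem inv_smooth {n : ℕ} (F : E n → E n) (G : E n → E n) (hF : ContDiff ℝ ∞ F)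
    (hFG : ∀ y, F (G y) = y) (hGF : ∀ x, G (F x) = x)
    (hinj : ∀ x v, fderiv ℝ F x v = 0 → v = 0) : ContDiff ℝ ∞ G := by
  rw [contDiff_iff_contDiffAt]
  intro y
  have hi : Function.Injective (fderiv ℝ F (G y) : E n →ₗ[ℝ] E n) := by
    rw [← LinearMap.ker_eq_bot, LinearMap.ker_eq_bot']
    exact fun v hv => hinj _ v hv
  let e : E n ≃L[ℝ] E n :=
    (LinearEquiv.ofInjectiveEndo (fderiv ℝ F (G y) : E n →ₗ[ℝ] E n) hi).toContinuousLinearEquiv
  have he : (e : E n →L[ℝ] E n) = fderiv ℝ F (G y) := by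
    ext v
    rfl
  have hd : HasFDerivAt F (e : E n →L[ℝ] E n) (G y) := by
    rw [he]
    exact (hF.differentiable (by simp) (G y)).hasFDerivAt
  have hFa : ContDiffAt ℝ ∞ F (G y) := hF.contDiffAt
  have h1 := hFa.to_localInverse hd (by simp)
  have hs := hFa.hasStrictFDerivAt' hd (by simp)
  have h2 : ∀ᶠ z in 𝓝 (F (G y)), F (hs.localInverse F e (G y) z) = z :=
    hs.eventually_right_inverse
  rw [hFG] at h1 h2
  refine h1.congr_of_eventuallyEq ?_
  filter_upwards [h2] with z hz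
  have h3 : G z = hs.localInverse F e (G y) z := by
    rw [← hGF (hs.localInverse F e (G y) z), hz]
  exact h3

section

variable {m : ℕ} {G : Type} [Group G] [MulAction G (E (m + 1))] {g : Form (m + 1)} {z : G}
  {l : ℝ} {V : E (m + 1) → E (m + 1)} {τ : E (m + 1) → ℝ} {ψ : ℝ → E (m + 1) → E (m + 1)}

theorem deriv_ht (hA : Axis (m + 1) G g z l V τ ψ) (x : E (m + 1)) (t : ℝ) :
    HasDerivAt (fun s => ht (ψ s x)) (ht (V (ψ t x))) t :=
  (ht (m := m)).hasFDerivAt.comp_hasDerivAt t (hA.ode x t)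

theorem ht_mono (hA : Axis (m + 1) G g z l V τ ψ) (hT : Tr V τ) (x : E (m + 1)) :
    StrictMono (fun s => ht (ψ s x)) :=
  strictMono_of_deriv_pos fun t => by
    rw [(deriv_ht hA x t).deriv]
    linarith [hT.pos (ψ t x)]

theorem ht_ge (hA : Axis (m + 1) G g z l V τ ψ) (hT : Tr V τ) (x : E (m + 1)) (s t : ℝ)
    (hst : s ≤ t) : (t - s) / 2 ≤ ht (ψ t x) - ht (ψ s x) := by
  have h1 : Monotone (fun s => ht (ψ s x) - s / 2) := by
    have hd : ∀ r, HasDerivAt (fun s => ht (ψ s x) - s / 2) (ht (V (ψ r x)) - 1 / 2) r :=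
      fun r => (deriv_ht hA x r).sub ((hasDerivAt_id r).div_const 2)
    refine monotone_of_deriv_nonneg (fun r => (hd r).differentiableAt) fun r => ?_
    rw [(hd r).deriv]
    linarith [hT.pos (ψ r x)]
  have h2 := h1 hst
  simp only at h2
  linarith

theorem exists_zero (hA : Axis (m + 1) G g z l V τ ψ) (hT : Tr V τ) (x : E (m + 1)) :
    ∃ r : ℝ, ht (ψ r x) = 0 := by
  have hc : Continuous (fun s => ht (ψ s x)) :=
    continuous_iff_continuousAt.2 fun t => (deriv_ht hA x t).continuousAt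
  set c := ht (ψ 0 x) with hcdef
  have h1 := ht_ge hA hT x 0 (2 * |c|) (by positivity)
  have h2 := ht_ge hA hT x (-(2 * |c|)) 0 (by simp)
  have h3 : ht (ψ (-(2 * |c|)) x) ≤ 0 := by
    have := le_abs_self c
    linarith
  have h4 : 0 ≤ ht (ψ (2 * |c|) x) := by
    have := neg_abs_le c
    linarith
  have h5 : (0 : ℝ) ∈ Icc (ht (ψ (-(2 * |c|)) x)) (ht (ψ (2 * |c|) x)) := ⟨h3, h4⟩
  have h6 := intermediate_value_Icc (by linarith [abs_nonneg c] : -(2 * |c|) ≤ 2 * |c|)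
    hc.continuousOn h5
  obtain ⟨r, -, hr⟩ := h6
  exact ⟨r, hr⟩

theorem smooth_psi (hA : Axis (m + 1) G g z l V τ ψ) (s : ℝ) : ContDiff ℝ ∞ (ψ s) :=
  hA.smoothF.comp (contDiff_const.prodMk contDiff_id)

/-- the derivative of the flow is injective -/
theorem dpsi_inj (hA : Axis (m + 1) G g z l V τ ψ) (s : ℝ) (x w : E (m + 1))
    (h : fderiv ℝ (ψ s) x w = 0) : w = 0 := by
  have h1 : (fun y => ψ (-s) (ψ s y)) = id := by
    funext y
    rw [← hA.add, neg_add_cancel, hA.zero]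
    rfl
  have h2 : fderiv ℝ (fun y => ψ (-s) (ψ s y)) x =
      (fderiv ℝ (ψ (-s)) (ψ s x)).comp (fderiv ℝ (ψ s) x) :=
    fderiv_comp x ((smooth_psi hA (-s)).differentiable (by simp) _)
      ((smooth_psi hA s).differentiable (by simp) _)
  rw [h1, fderiv_id] at h2
  have h3 := congrArg (fun L : E (m + 1) →L[ℝ] E (m + 1) => L w) h2
  simpa [h] using h3

/-- the flow maps the field to itself -/
theorem dpsi_V (hA : Axis (m + 1) G g z l V τ ψ) (s : ℝ) (x : E (m + 1)) :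
    fderiv ℝ (ψ s) x (V x) = V (ψ s x) := by
  have h1 : HasDerivAt (fun r => ψ r x) (V x) 0 := by
    have := hA.ode x 0
    rwa [hA.zero] at this
  have h2 : HasDerivAt (fun r => ψ s (ψ r x)) (fderiv ℝ (ψ s) x (V x)) 0 := by
    have h3 : HasFDerivAt (ψ s) (fderiv ℝ (ψ s) x) (ψ 0 x) := by
      rw [hA.zero]
      exact ((smooth_psi hA s).differentiable (by simp) x).hasFDerivAt
    exact h3.comp_hasDerivAt 0 h1
  have h4 : HasDerivAt (fun r => ψ (s + r) x) (V (ψ s x)) 0 := by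
    have h5 : HasDerivAt (fun r => ψ r x) (V (ψ s x)) (s + 0) := by
      rw [add_zero]
      exact hA.ode x s
    exact h5.comp_const_add s 0
  have h6 : (fun r => ψ s (ψ r x)) = fun r => ψ (s + r) x := by
    funext r
    rw [hA.add]
  rw [h6] at h2
  exact h2.unique h4

/-- derivative of the adapted coordinates on horizontal vectors -/
theorem dPs (hL : StRLin) (hA : Axis (m + 1) G g z l V τ ψ) (y w : E (m + 1)) (hw : ht w = 0) :
    ∃ (s c : ℝ), fderiv ℝ (Ps l τ ψ) y w =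
      fderiv ℝ (ψ s) (jn (pr y) 0) (c • V (jn (pr y) 0) + w) := by
  obtain ⟨-, -, -, -, hdec, -, -, -, -, -, -, -, -⟩ := hL m
  have hw' : inc (pr w) = w := by
    have := hdec w
    rwa [hw, zero_smul, add_zero] at this
  set s : ℝ := l * ht y - τ (jn (pr y) 0) with hs
  have hx : HasFDerivAt (fun y : E (m + 1) => (jn (pr y) 0 : E (m + 1)))
      ((inc (m := m)).comp (pr (m := m))) y := by
    have h1 : (fun y : E (m + 1) => (jn (pr y) 0 : E (m + 1))) =
        ((inc (m := m)).comp (pr (m := m)) : E (m + 1) →L[ℝ] E (m + 1)) := by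
      funext y
      simp [jn]
    rw [h1]
    exact ContinuousLinearMap.hasFDerivAt _
  have hτ : HasFDerivAt τ (fderiv ℝ τ (jn (pr y) 0)) (jn (pr y) 0) :=
    (hA.smoothT.differentiable (by simp) _).hasFDerivAt
  have hσ : HasFDerivAt (fun y : E (m + 1) => l * ht y - τ (jn (pr y) 0))
      (l • (ht (m := m)) - (fderiv ℝ τ (jn (pr y) 0)).comp ((inc (m := m)).comp (pr (m := m)))) y :=
    ((ht (m := m)).hasFDerivAt.const_mul l).sub (hτ.comp y hx)
  set c : ℝ := -(fderiv ℝ τ (jn (pr y) 0) w) with hc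
  refine ⟨s, c, ?_⟩
  have hP : HasFDerivAt (fun p : ℝ × E (m + 1) => ψ p.1 p.2)
      (fderiv ℝ (fun p : ℝ × E (m + 1) => ψ p.1 p.2) (s, jn (pr y) 0)) (s, jn (pr y) 0) :=
    (hA.smoothF.differentiable (by simp) _).hasFDerivAt
  have hPs : HasFDerivAt (Ps l τ ψ)
      ((fderiv ℝ (fun p : ℝ × E (m + 1) => ψ p.1 p.2) (s, jn (pr y) 0)).comp
        ((l • (ht (m := m)) - (fderiv ℝ τ (jn (pr y) 0)).comp
          ((inc (m := m)).comp (pr (m := m)))).prod ((inc (m := m)).comp (pr (m := m))))) y :=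
    HasFDerivAt.comp (g := fun p : ℝ × E (m + 1) => ψ p.1 p.2)
      (f := fun y : E (m + 1) => (l * ht y - τ (jn (pr y) 0), (jn (pr y) 0 : E (m + 1)))) y hP
      (hσ.prodMk hx)
  have hv : fderiv ℝ (fun p : ℝ × E (m + 1) => ψ p.1 p.2) (s, jn (pr y) 0) (c, w) =
      c • V (ψ s (jn (pr y) 0)) + fderiv ℝ (ψ s) (jn (pr y) 0) w := by
    have h1 : ((c, w) : ℝ × E (m + 1)) = c • ((1 : ℝ), (0 : E (m + 1))) + (0, w) := by
      simp
    have e1 : fderiv ℝ (fun p : ℝ × E (m + 1) => ψ p.1 p.2) (s, jn (pr y) 0) (1, 0) =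
        V (ψ s (jn (pr y) 0)) := by
      have h2 : HasDerivAt (fun r : ℝ => ((r, jn (pr y) 0) : ℝ × E (m + 1))) (1, 0) s :=
        (hasDerivAt_id s).prodMk (hasDerivAt_const s _)
      exact (hP.comp_hasDerivAt s h2).unique (hA.ode (jn (pr y) 0) s)
    have e2 : fderiv ℝ (fun p : ℝ × E (m + 1) => ψ p.1 p.2) (s, jn (pr y) 0) (0, w) =
        fderiv ℝ (ψ s) (jn (pr y) 0) w := by
      have h3 : HasFDerivAt (fun x : E (m + 1) => ((s, x) : ℝ × E (m + 1)))
          (ContinuousLinearMap.inr ℝ ℝ (E (m + 1))) (jn (pr y) 0) :=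
        hasFDerivAt_prodMk_right s _
      have h4 := (hP.comp (jn (pr y) 0) h3).fderiv
      have h5 := congrArg (fun L : E (m + 1) →L[ℝ] E (m + 1) => L w) h4
      exact h5.symm
    rw [h1, map_add, map_smul, e1, e2]
  rw [hPs.fderiv, map_add, map_smul, dpsi_V hA, ← hv]
  simp only [ContinuousLinearMap.comp_apply, ContinuousLinearMap.prod_apply, hw']
  congr 2
  simp [hw, hw', hc]

theorem dPs_inj (hL : StRLin) (hR : StRPs) (hA : Axis (m + 1) G g z l V τ ψ) (hT : Tr V τ)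
    (y w : E (m + 1)) (h : fderiv ℝ (Ps l τ ψ) y w = 0) : w = 0 := by
  obtain ⟨-, -, -, h3⟩ := hR m G g z l V τ ψ hA
  have hw : ht w = 0 := by
    have h4 := h3 y w
    rw [h, map_zero] at h4
    have h5 := hA.pos
    rcases mul_eq_zero.1 h4.symm with h6 | h6
    · exact absurd h6 h5.ne'
    · exact h6
  obtain ⟨s, c, hsc⟩ := dPs hL hA y w hw
  rw [h] at hsc
  have h6 := dpsi_inj hA s _ _ hsc.symm
  have h7 : c * ht (V (jn (pr y) 0)) = 0 := by
    have h8 := congrArg (ht (m := m)) h6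
    simpa [hw] using h8
  have h9 := hT.pos (jn (pr y) 0)
  have h10 : c = 0 := by
    rcases mul_eq_zero.1 h7 with h11 | h11
    · exact h11
    · linarith
  rw [h10, zero_smul, zero_add] at h6
  exact h6

end

end IRDif

open IRDif in
theorem pr_RDif (h1 : StRLin) (h2 : StRPs) : StRDif := by
  intro m G _ _ g z l V τ ψ hA hT
  obtain ⟨-, -, -, -, hdec, hprj, hhtj, -, -, -, -, -, -⟩ := h1 m
  obtain ⟨hsm, hτ, -, -⟩ := h2 m G g z l V τ ψ hA
  have hx0 : ∀ x : E (m + 1), ht x = 0 → jn (pr x) 0 = x := by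
    intro x hx
    have := hdec x
    rw [hx, zero_smul, add_zero] at this
    simp [jn, this]
  have hinj : Function.Injective (Ps l τ ψ) := by
    intro y y' hyy
    have h3 : ht y = ht y' := by
      have h4 := hτ y
      rw [hyy, hτ y'] at h4
      exact (mul_left_cancel₀ hA.pos.ne' h4).symm
    have h5 : ψ (l * ht y - τ (jn (pr y) 0)) (jn (pr y) 0) =
      ψ (l * ht y' - τ (jn (pr y') 0)) (jn (pr y') 0) := hyy
    set s := l * ht y - τ (jn (pr y) 0)
    set s' := l * ht y' - τ (jn (pr y') 0)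
    have h6 : (jn (pr y') 0 : E (m + 1)) = ψ (-s' + s) (jn (pr y) 0) := by
      rw [hA.add, h5, ← hA.add, neg_add_cancel, hA.zero]
    have h7 : ht (ψ (-s' + s) (jn (pr y) 0)) = ht (ψ 0 (jn (pr y) 0)) := by
      rw [← h6, hA.zero, hhtj, hhtj]
    have h8 : -s' + s = 0 := (ht_mono hA hT (jn (pr y) 0)).injective h7
    rw [h8, hA.zero] at h6
    have h9 : pr y' = pr y := by
      have h10 := congrArg (pr (m := m)) h6
      rwa [hprj, hprj] at h10
    rw [← hdec y, ← hdec y', h9, h3]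
  have hsurj : Function.Surjective (Ps l τ ψ) := by
    intro y
    obtain ⟨r, hr⟩ := exists_zero hA hT y
    refine ⟨jn (pr (ψ r y)) (τ y / l), ?_⟩
    rw [Ps, hprj, hhtj, hx0 _ hr, hA.height, mul_div_cancel₀ _ hA.pos.ne', ← hA.add]
    have h3 : τ y - (τ y + r) + r = 0 := by ring
    rw [h3, hA.zero]
  refine ⟨Equiv.ofBijective (Ps l τ ψ) ⟨hinj, hsurj⟩, fun y => rfl, hsm, ?_⟩
  refine inv_smooth (Ps l τ ψ) _ hsm (fun y => ?_) (fun x => ?_) (dPs_inj h1 h2 hA hT)
  · exact (Equiv.ofBijective (Ps l τ ψ) ⟨hinj, hsurj⟩).apply_symm_apply y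
  · exact (Equiv.ofBijective (Ps l τ ψ) ⟨hinj, hsurj⟩).symm_apply_apply x

end Pool.Agent.LQR
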