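import Pool.Agent.Work.MP_13b5d9_gt.LQ.RStmts

set_option autoImplicit false

/-!
# Item REq: equivariance of the adapted coordinates
-/

open MeasureTheory Set Filter Topology
open scoped ContDiff ENNReal
open Pool.Agent.Work.MP_c9f990_an.Al (IsFlow)

namespace Pool.Agent.LQR

open Pool.Agent.MLS Pool.Agent.EC Pool.Agent.STR Pool.Agent.DR

namespace IREq

theorem zpow_smul {m : ℕ} {G : Type} [Group G] [MulAction G (E (m + 1))] {z : G}
    (hz : ∀ x : E (m + 1), z • x = x + eL) (j : ℤ) :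
    ∀ x : E (m + 1), z ^ j • x = x + (j : ℝ) • eL := by
  have hz' : ∀ x : E (m + 1), z⁻¹ • x = x - eL := by
    intro x
    rw [inv_smul_eq_iff, hz, sub_add_cancel]
  induction j using Int.induction_on with
  | zero => intro x; simp
  | succ i ih =>
    intro x
    rw [zpow_add_one, mul_smul, hz, ih]
    push_cast
    rw [add_smul, one_smul]
    abel
  | pred i ih =>
    intro x
    rw [zpow_sub_one, mul_smul, hz', ih]
    push_cast
    rw [sub_smul, one_smul]
    abel

theorem psi_zpow {n : ℕ} {G : Type} [Group G] [MulAction G (E n)] {g : Form n} {z : G} {l : ℝ}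
    {V : E n → E n} {τ : E n → ℝ} {ψ : ℝ → E n → E n} (A : Axis n G g z l V τ ψ) (j : ℤ) :
    ∀ x : E n, ψ ((j : ℝ) * l) x = z ^ j • x := by
  have hneg : ∀ x, ψ (-l) x = z⁻¹ • x := by
    intro x
    rw [eq_inv_smul_iff, ← A.period, ← A.add, add_neg_cancel, A.zero]
  induction j using Int.induction_on with
  | zero => intro x; simp [A.zero]
  | succ i ih =>
    intro x
    rw [zpow_add_one, mul_smul, ← A.period, ← ih, ← A.add]
    congr 1
    push_cast
    ring
  | pred i ih =>
    intro x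
    rw [zpow_sub_one, mul_smul, ← hneg, ← ih, ← A.add]
    congr 1
    push_cast
    ring

end IREq

open IREq in
theorem pr_REq (h1 : StRLin) : StREq := by
  intro m Γ G _ _ _ _ p k hP g z l V τ ψ hz A
  obtain ⟨-, -, -, -, -, hpr, hht, -, -, -, -, -, hjn⟩ := h1 m
  have hl : l ≠ 0 := A.pos.ne'
  -- the action on the points of height zero
  have hact : ∀ (a : G) (x : E m), a • jn x 0 = ψ ((k a : ℝ) * l) (jn (p a • x) 0) := by
    intro a x
    rw [hP.act, hpr, hht, hjn, psi_zpow A, zpow_smul hz]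
  -- the height differences are constant
  have hconst : ∀ a : G, ∃ c : ℝ, ∀ x : E m, τ (jn (p a • x) 0) - τ (jn x 0) = c := by
    intro a
    obtain ⟨h, hh⟩ := A.deck a
    refine ⟨h - (k a : ℝ) * l, fun x => ?_⟩
    have e1 := hh (jn x 0)
    rw [hact, A.height] at e1
    linarith
  have hη : ∀ (γ : Γ) (x : E m), τ (jn (γ • x) 0) - τ (jn x 0) =
      l * ((τ (jn (γ • (0 : E m)) 0) - τ (jn 0 0)) / l) := by
    intro γ x
    obtain ⟨a, ⟨ha, -⟩, -⟩ := hP.bij γ 0
    obtain ⟨c, hc⟩ := hconst a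
    rw [mul_div_cancel₀ _ hl, ← ha, hc, hc]
  refine ⟨fun γ => (τ (jn (γ • (0 : E m)) 0) - τ (jn 0 0)) / l, fun a b => ?_, fun a y => ?_⟩
  · have e1 := hη a (b • (0 : E m))
    have e2 := hη b (0 : E m)
    have e3 := hη (a * b) (0 : E m)
    have e4 : l * ((τ (jn ((a * b) • (0 : E m)) 0) - τ (jn 0 0)) / l) =
        l * ((τ (jn (a • (0 : E m)) 0) - τ (jn 0 0)) / l +
          (τ (jn (b • (0 : E m)) 0) - τ (jn 0 0)) / l) := by
      rw [mul_add, ← e1, ← e2, ← e3, mul_smul]
      ring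
    exact mul_left_cancel₀ hl e4
  · have e1 := hη (p a) (pr y)
    unfold Ps
    rw [← A.comm, hact, ← A.add, hpr, hht]
    congr 1
    have : l * (ht y + (k a : ℝ) + (τ (jn (p a • (0 : E m)) 0) - τ (jn 0 0)) / l) =
        l * ht y + l * (k a : ℝ) + (τ (jn (p a • pr y) 0) - τ (jn (pr y) 0)) := by
      rw [e1]; ring
    rw [this]
    ring

end Pool.Agent.LQR
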