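import Pool.Agent.Work.MP_13b5d9_gt.LQ.RStmts

set_option autoImplicit false

/-!
# Item RExp: exponential maps of a family
-/

open MeasureTheory Set Filter Topology
open scoped ContDiff ENNReal
open Pool.Agent.Work.MP_c9f990_an.Al (IsFlow)

namespace Pool.Agent.LQR

open Pool.Agent.MLS Pool.Agent.EC Pool.Agent.STR Pool.Agent.DR

namespace IRExp

theorem smOp {n : ℕ} (F : ℝ → Form n) (hF : Fam n F) :
    ContDiff ℝ ∞ (fun q : ℝ × E n × E n => op (F q.1) q.2.1 q.2.2) := by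
  have h1 : ContDiff ℝ ∞ (fun q : ℝ × E n × E n => (F q.1).val q.2.1) :=
    hF.smooth.comp (contDiff_fst.prodMk (contDiff_fst.comp contDiff_snd))
  have h2 : ContDiff ℝ ∞ (fun q : ℝ × E n × E n => (F q.1).val q.2.1 q.2.2) :=
    h1.clm_apply (contDiff_snd.comp contDiff_snd)
  exact (sh (n := n)).contDiff.comp h2

end IRExp

open IRExp in
theorem pr_RExp (h : StRFl) : StRExp := by
  intro n G _ _ hG F hF hI
  obtain ⟨Φ, h1, h2⟩ := h n G hG F hF hI
  refine ⟨Φ, ?_, h2⟩
  have h3 : ContDiff ℝ ∞ (fun q : ℝ × E n × E n =>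
      (q.1, (1 : ℝ), ((q.2.1, op (F q.1) q.2.1 q.2.2) : W n))) :=
    contDiff_fst.prodMk (contDiff_const.prodMk
      ((contDiff_fst.comp contDiff_snd).prodMk (smOp F hF)))
  have h4 := h1.comp h3
  exact contDiff_fst.comp h4

end Pool.Agent.LQR
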