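import Mathlib
import Pool.Agent.Work.MP_13b5d9_gt.LQ.RStmts
import Pool.Agent.Work.MP_13b5d9_gt.ST.I_SmF

set_option autoImplicit false

/-!
# MP_13b5d9_gt, block LQ, item RFC: flows of families of fields which are constant at `s = 0`
-/

open MeasureTheory Set Filter Topology
open scoped ContDiff ENNReal
open Pool.Agent.Work.MP_c9f990_an.Al (IsFlow)

namespace Pool.Agent.LQR

open Pool.Agent.MLS Pool.Agent.EC Pool.Agent.STR Pool.Agent.DR

namespace IRFC

/-- the closed ball argument: two curves which agree at `0` and such that agreement propagates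
locally agree on the interval -/
theorem prop {Q : Type} [NormedAddCommGroup Q] {f g : ℝ → Q} {R : ℝ} (hR : 0 < R)
    (hf : Continuous f) (hg : Continuous g) (h0 : f 0 = g 0)
    (h : ∀ t ∈ Icc (-R) R, f t = g t → f =ᶠ[𝓝 t] g) : ∀ t ∈ Icc (-R) R, f t = g t := by
  set A : Set ℝ := {t | f t = g t} with hA
  have hAc : IsClosed A := isClosed_eq hf hg
  have hsub : Icc (-R) R ⊆ interior A := by
    apply isPreconnected_Icc.subset_of_closure_inter_subset isOpen_interior
    · refine ⟨0, ⟨by linarith, hR.le⟩, ?_⟩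
      rw [mem_interior_iff_mem_nhds]
      exact h 0 ⟨by linarith, hR.le⟩ h0
    · intro t ht
      have h1 : t ∈ A := closure_minimal interior_subset hAc ht.1
      rw [mem_interior_iff_mem_nhds]
      exact h t ht.2 h1
  intro t ht
  have h2 : t ∈ A := interior_subset (hsub ht)
  exact h2

variable {n : ℕ}

/-- bounded fields do not leave compact sets -/
theorem noexit {Q : Type} [NormedAddCommGroup Q] [NormedSpace ℝ Q] [FiniteDimensional ℝ Q]
    {F : Q → Q} {C : ℝ} (hC : ∀ z, ‖F z‖ ≤ C) (S : Set Q) (T : ℝ) (hS : IsCompact S) :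
    ∃ S' : Set Q, IsCompact S' ∧ ∀ ψ : Q → ℝ,
    ContDiff ℝ ∞ ψ → (∀ z, 0 ≤ ψ z ∧ ψ z ≤ 1) → ∀ y : ℝ → Q,
    (∀ t, HasDerivAt y (ψ (y t) • F (y t)) t) → y 0 ∈ S → ∀ t, |t| ≤ T → y t ∈ S' := by
  obtain ⟨ρ, hρ⟩ := hS.isBounded.subset_closedBall (0 : Q)
  refine ⟨Metric.closedBall 0 (ρ + C * T), isCompact_closedBall _ _, ?_⟩
  intro ψ _ hψ y hy h0 t ht
  have hC0 : 0 ≤ C := le_trans (norm_nonneg _) (hC 0)
  have h1 : ‖y t - y 0‖ ≤ C * ‖t - 0‖ := by
    apply Convex.norm_image_sub_le_of_norm_hasDerivWithin_le (s := univ)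
      (fun x _ => (hy x).hasDerivWithinAt) _ convex_univ (mem_univ _) (mem_univ _)
    intro x _
    rw [norm_smul, Real.norm_eq_abs, abs_of_nonneg (hψ _).1]
    calc ψ (y x) * ‖F (y x)‖ ≤ 1 * C := mul_le_mul (hψ _).2 (hC _) (norm_nonneg _) (by norm_num)
      _ = C := one_mul C
  have h2 : ‖y 0‖ ≤ ρ := by simpa using hρ h0
  rw [mem_closedBall_zero_iff]
  calc ‖y t‖ = ‖(y t - y 0) + y 0‖ := by rw [sub_add_cancel]
    _ ≤ ‖y t - y 0‖ + ‖y 0‖ := norm_add_le _ _
    _ ≤ C * ‖t - 0‖ + ρ := add_le_add h1 h2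
    _ ≤ C * T + ρ := by
      rw [sub_zero, Real.norm_eq_abs]; gcongr
    _ = ρ + C * T := add_comm _ _

end IRFC

open IRFC in
theorem pr_RFC (h : STR.StSmF) (hP : StPatch) : StRFC := by
  intro n e R Z hR he hZ hZ0
  -- the cut off field
  let b : ContDiffBump (0 : ℝ × E n) := ⟨2 * R + 3, 2 * R + 4, by linarith, by linarith⟩
  set κ : ℝ × E n → ℝ := fun p => b p with hκ
  have hκs : ContDiff ℝ ∞ κ := b.contDiff
  have hκ1 : ∀ p : ℝ × E n, ‖p‖ ≤ 2 * R + 3 → κ p = 1 := by
    intro p hp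
    apply b.one_of_mem_closedBall
    simpa using hp
  have hκc : HasCompactSupport κ := b.hasCompactSupport
  set F : ℝ × E n → ℝ × E n := fun p => (0, κ p • Z p) with hF
  have hFs : ContDiff ℝ ∞ F := contDiff_const.prodMk (hκs.smul hZ)
  have hFc : HasCompactSupport F := by
    apply hκc.mono
    intro p hp
    rw [Function.mem_support] at hp ⊢
    intro h0
    apply hp
    simp [hF, h0]
  obtain ⟨C, hC⟩ := hFc.exists_bound_of_continuous hFs.continuous
  obtain ⟨φ, M, hφ⟩ := hP (ℝ × E n) F (hFs.of_le (by exact_mod_cast le_top))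
    (fun S T hS => noexit hC S T hS)
  have hsm := h (ℝ × E n) F φ M hFs hφ
  have hfst : ∀ t p, (φ t p).1 = p.1 := by
    intro t p
    have h1 : ∀ s, HasDerivAt (fun s => (φ s p).1) 0 s := by
      intro s
      have := (hφ.ode p s)
      exact this.fst
    have h2 := is_const_of_deriv_eq_zero (f := fun s => (φ s p).1)
      (fun s => (h1 s).differentiableAt) (fun s => (h1 s).deriv) t 0
    have h3 : (φ t p).1 = (φ 0 p).1 := h2
    rw [h3, hφ.zero]
  obtain ⟨K, hK⟩ : ∃ K, LipschitzWith K F :=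
    (hFs.of_le (by exact_mod_cast le_top) : ContDiff ℝ 1 F).lipschitzWith_of_hasCompactSupport
      hFc one_ne_zero
  set P : ℝ × ℝ × E n → E n := fun q => (φ q.2.1 (q.1, q.2.2)).2 with hPd
  have hPs : ContDiff ℝ ∞ P := by
    have h1 : ContDiff ℝ ∞ (fun q : ℝ × ℝ × E n => (q.2.1, (q.1, q.2.2))) := by fun_prop
    exact contDiff_snd.comp (hsm.comp h1)
  have hφP : ∀ t s x, φ t (s, x) = (s, P (s, t, x)) := by
    intro t s x
    apply Prod.ext
    · exact hfst t (s, x)
    · rfl
  -- the value at `s = 0`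
  have hP0 : ∀ t x, |t| ≤ R → ‖x‖ ≤ R → P (0, t, x) = x + t • e := by
    intro t x ht hx
    have h1 : EqOn (fun s => φ s ((0 : ℝ), x)) (fun s => ((0 : ℝ), x + s • e)) (Icc (-R) R) := by
      have hc1 : Continuous (fun s : ℝ => φ s ((0 : ℝ), x)) :=
        hφ.cont.comp (Continuous.prodMk_left _)
      apply ODE_solution_unique_of_mem_Icc (v := fun _ => F) (s := fun _ => univ) (K := K)
        (t₀ := 0) (fun s _ => hK.lipschitzOnWith) ⟨by linarith, hR⟩
      · exact hc1.continuousOn
      · intro s _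
        exact hφ.ode _ s
      · intro s _; trivial
      · fun_prop
      · intro s hs
        have hn : ‖x + s • e‖ ≤ 2 * R := by
          calc ‖x + s • e‖ ≤ ‖x‖ + ‖s • e‖ := norm_add_le _ _
            _ = ‖x‖ + |s| := by rw [norm_smul, he, mul_one, Real.norm_eq_abs]
            _ ≤ R + R := by
              have : |s| ≤ R := abs_le.2 ⟨hs.1.le, hs.2.le⟩
              linarith
            _ = 2 * R := by ring
        have hv : F ((0 : ℝ), x + s • e) = ((0 : ℝ), e) := by
          simp only [hF]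
          rw [hκ1 _ (by rw [Prod.norm_mk, norm_zero, max_le_iff]; constructor <;> linarith),
            hZ0 _ (by linarith), one_smul]
        rw [hv]
        have h2 : HasDerivAt (fun s : ℝ => x + s • e) e s := by
          simpa using ((hasDerivAt_id s).smul_const e).const_add x
        exact (hasDerivAt_const s (0 : ℝ)).prodMk h2
      · intro s _; trivial
      · simp [hφ.zero]
    have h2 := h1 (abs_le.1 ht)
    simp only at h2
    rw [hφP] at h2
    exact (Prod.mk.inj h2).2
  -- small `s`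
  obtain ⟨δ, hδ, hδ1⟩ : ∃ δ : ℝ, 0 < δ ∧ ∀ s, |s| < δ → ∀ t x, |t| ≤ R → ‖x‖ ≤ R →
      ‖P (s, t, x) - (x + t • e)‖ < 1 := by
    set D : ℝ × ℝ × E n → E n := fun q => P q - (q.2.2 + q.2.1 • e) with hD
    have hDc : Continuous D := hPs.continuous.sub (by fun_prop)
    have hU : IsOpen {q | ‖D q‖ < 1} := isOpen_lt hDc.norm continuous_const
    have hKc : IsCompact (({0} : Set ℝ) ×ˢ ((Icc (-R) R) ×ˢ Metric.closedBall (0 : E n) R)) :=
      isCompact_singleton.prod (isCompact_Icc.prod (isCompact_closedBall _ _))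
    obtain ⟨δ, hδ, hsub⟩ := hKc.exists_thickening_subset_open hU (by
      rintro ⟨s, t, x⟩ ⟨h1, h2, h3⟩
      simp only [mem_singleton_iff] at h1
      simp only [Metric.mem_closedBall, dist_zero_right] at h3
      change ‖D (s, t, x)‖ < 1
      simp only [hD]
      rw [h1, hP0 t x (abs_le.2 h2) h3]
      simp)
    refine ⟨δ, hδ, fun s hs t x ht hx => ?_⟩
    have h1 : (s, t, x) ∈ Metric.thickening δ
        (({0} : Set ℝ) ×ˢ ((Icc (-R) R) ×ˢ Metric.closedBall (0 : E n) R)) := by
      rw [Metric.mem_thickening_iff]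
      refine ⟨(0, t, x), ⟨rfl, abs_le.1 ht, by simpa using hx⟩, ?_⟩
      simpa [Prod.dist_eq] using hs
    exact hsub h1
  refine ⟨P, min δ 1, lt_min hδ one_pos, hPs, hP0, ?_⟩
  intro s hs X hX c hc hc0 t ht
  have hs1 : |s| < δ := lt_of_lt_of_le hs (min_le_left _ _)
  have hs2 : |s| < 1 := lt_of_lt_of_le hs (min_le_right _ _)
  have hcc : Continuous c := continuous_iff_continuousAt.2 fun t => (hc t).continuousAt
  have hc1 : Continuous (fun r : ℝ => φ r (s, c 0)) := hφ.cont.comp (Continuous.prodMk_left _)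
  have key := prop (f := fun r => (s, c r)) (g := fun r => φ r (s, c 0)) hR
    (by fun_prop) hc1 (by simp [hφ.zero]) (by
      intro r hr heq
      have hcr : c r = P (s, r, c 0) := by
        have h1 : ((s, c r) : ℝ × E n) = φ r (s, c 0) := heq
        rw [hφP] at h1
        exact (Prod.mk.inj h1).2
      have hnr : ‖c r‖ < 2 * R + 2 := by
        have h1 := hδ1 s hs1 r (c 0) (abs_le.2 hr) hc0
        rw [← hcr] at h1
        calc ‖c r‖ = ‖(c r - (c 0 + r • e)) + (c 0 + r • e)‖ := by rw [sub_add_cancel]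
          _ ≤ ‖c r - (c 0 + r • e)‖ + ‖c 0 + r • e‖ := norm_add_le _ _
          _ ≤ ‖c r - (c 0 + r • e)‖ + (‖c 0‖ + ‖r • e‖) := by gcongr; exact norm_add_le _ _
          _ = ‖c r - (c 0 + r • e)‖ + (‖c 0‖ + |r|) := by
            rw [norm_smul, he, mul_one, Real.norm_eq_abs]
          _ < 1 + (R + R) := by
            have : |r| ≤ R := abs_le.2 hr
            linarith
          _ ≤ 2 * R + 2 := by linarith
      have hev : ∀ᶠ τ in 𝓝 r, ‖c τ‖ < 2 * R + 2 :=
        (hcc.norm.continuousAt (x := r)).eventually_lt continuousAt_const hnr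
      apply ODE_solution_unique_of_eventually (v := fun _ => F) (s := fun _ => univ) (K := K)
        (Eventually.of_forall fun _ => hK.lipschitzOnWith)
      · filter_upwards [hev] with τ hτ
        refine ⟨?_, trivial⟩
        have hv : F (s, c τ) = ((0 : ℝ), X (c τ)) := by
          simp only [hF]
          rw [hκ1 _ (by
            rw [Prod.norm_mk, max_le_iff, Real.norm_eq_abs]; constructor <;> linarith),
            hX _ hτ.le, one_smul]
        rw [hv]
        exact (hasDerivAt_const τ s).prodMk (hc τ)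
      · exact Eventually.of_forall fun τ => ⟨hφ.ode _ τ, trivial⟩
      · exact heq)
  have h1 : ((s, c t) : ℝ × E n) = φ t (s, c 0) := key t (abs_le.1 ht)
  rw [hφP] at h1
  exact (Prod.mk.inj h1).2

end Pool.Agent.LQR
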