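import Pool.Agent.Work.MP_13b5d9_gt.LQ.RStmts

set_option autoImplicit false

/-!
# MP_13b5d9_gt, block LQ, item RIft: implicit functions along a compact set
-/

open Set Filter Topology
open scoped ContDiff Manifold

namespace Pool.Agent.LQR

namespace IRIft

variable {V : Type} [NormedAddCommGroup V] [NormedSpace ℝ V]

/-- The partial derivative with respect to the last variable. -/
noncomputable def Lp (Θ : ℝ × V × V → V) (q : ℝ × V × V) : V →L[ℝ] V :=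
  (fderiv ℝ Θ q).comp
    ((ContinuousLinearMap.inr ℝ ℝ (V × V)).comp (ContinuousLinearMap.inr ℝ V V))

/-- The map to be inverted. -/
def Pm (Θ : ℝ × V × V → V) (q : ℝ × V × V) : ℝ × V × V := (q.1, q.2.1, Θ q)

lemma contDiff_Pm {Θ : ℝ × V × V → V} (hΘ : ContDiff ℝ ∞ Θ) : ContDiff ℝ ∞ (Pm Θ) :=
  contDiff_fst.prodMk ((contDiff_fst.comp contDiff_snd).prodMk hΘ)

lemma hasFDerivAt_Pm [FiniteDimensional ℝ V] {Θ : ℝ × V × V → V} (hΘ : ContDiff ℝ ∞ Θ)
    {q : ℝ × V × V} (hq : IsUnit (Lp Θ q)) :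
    ∃ f' : (ℝ × V × V) ≃L[ℝ] (ℝ × V × V),
      HasFDerivAt (Pm Θ) (f' : (ℝ × V × V) →L[ℝ] (ℝ × V × V)) q := by
  have hd : HasFDerivAt Θ (fderiv ℝ Θ q) q :=
    ((hΘ.differentiable (by simp)) q).hasFDerivAt
  let D : (ℝ × V × V) →L[ℝ] (ℝ × V × V) :=
    (ContinuousLinearMap.fst ℝ ℝ (V × V)).prod
      (((ContinuousLinearMap.fst ℝ V V).comp (ContinuousLinearMap.snd ℝ ℝ (V × V))).prod
        (fderiv ℝ Θ q))
  have hD : HasFDerivAt (Pm Θ) D q := by
    have h1 : HasFDerivAt (fun q : ℝ × V × V => q.1) (ContinuousLinearMap.fst ℝ ℝ (V × V)) q :=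
      hasFDerivAt_fst
    have h2 : HasFDerivAt (fun q : ℝ × V × V => q.2.1)
        ((ContinuousLinearMap.fst ℝ V V).comp (ContinuousLinearMap.snd ℝ ℝ (V × V))) q :=
      (hasFDerivAt_fst (𝕜 := ℝ) (p := q.2)).comp q (hasFDerivAt_snd (𝕜 := ℝ) (p := q))
    exact h1.prodMk (h2.prodMk hd)
  have hinj : Function.Injective (D : (ℝ × V × V) →ₗ[ℝ] (ℝ × V × V)) := by
    rw [injective_iff_map_eq_zero]
    rintro ⟨a, b, c⟩ h
    have h' : (a, b, fderiv ℝ Θ q (a, b, c)) = ((0, 0, 0) : ℝ × V × V) := h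
    have ha : a = 0 := congrArg Prod.fst h'
    have hb : b = 0 := congrArg (fun z : ℝ × V × V => z.2.1) h'
    have hc : fderiv ℝ Θ q (a, b, c) = 0 := congrArg (fun z : ℝ × V × V => z.2.2) h'
    subst ha; subst hb
    obtain ⟨u, hu⟩ := hq
    have h3 : Lp Θ q c = 0 := hc
    have h4 : c = 0 := by
      have h5 : (u.inv * Lp Θ q) c = 0 := by
        exact (congrArg u.inv h3).trans (map_zero _)
      rw [← hu] at h5
      have h6 : u.inv * u.val = 1 := u.inv_val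
      rw [h6] at h5
      exact h5
    rw [h4]
    rfl
  refine ⟨(LinearEquiv.ofInjectiveEndo (D : (ℝ × V × V) →ₗ[ℝ] (ℝ × V × V))
    hinj).toContinuousLinearEquiv, ?_⟩
  have he : (((LinearEquiv.ofInjectiveEndo (D : (ℝ × V × V) →ₗ[ℝ] (ℝ × V × V))
      hinj).toContinuousLinearEquiv : (ℝ × V × V) ≃L[ℝ] (ℝ × V × V)) :
      (ℝ × V × V) →L[ℝ] (ℝ × V × V)) = D := by
    ext1
    · rfl
    · rfl
  rw [he]
  exact hD

lemma continuous_Lp {Θ : ℝ × V × V → V} (hΘ : ContDiff ℝ ∞ Θ) : Continuous (Lp Θ) := by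
  unfold Lp
  exact (hΘ.continuous_fderiv (by simp)).clm_comp continuous_const

lemma loc [FiniteDimensional ℝ V] {Θ : ℝ × V × V → V} (hΘ : ContDiff ℝ ∞ Θ) (x0 e : V)
    (h0 : Θ (0, x0, e) = 0) (h1 : IsUnit (Lp Θ (0, x0, e))) :
    ∃ (N : Set (ℝ × V)) (r : ℝ) (φ : ℝ × V → V), IsOpen N ∧ ((0 : ℝ), x0) ∈ N ∧ 0 < r ∧
      ContDiffOn ℝ ∞ φ N ∧ (∀ p ∈ N, φ p ∈ Metric.ball e r ∧ Θ (p.1, p.2, φ p) = 0) ∧
      ∀ p ∈ N, ∀ v ∈ Metric.ball e r, Θ (p.1, p.2, v) = 0 → v = φ p := by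
  have : CompleteSpace V := FiniteDimensional.complete ℝ V
  obtain ⟨f', hf'⟩ := hasFDerivAt_Pm hΘ h1
  have hP := contDiff_Pm hΘ
  let F := (hP.contDiffAt (x := ((0 : ℝ), x0, e))).toOpenPartialHomeomorph (Pm Θ) hf' (by simp)
  have hFc : (F : ℝ × V × V → ℝ × V × V) = Pm Θ := rfl
  have hF0 : ((0 : ℝ), x0, e) ∈ F.source :=
    (hP.contDiffAt (x := ((0 : ℝ), x0, e))).mem_toOpenPartialHomeomorph_source hf' (by simp)
  let S : Set (ℝ × V × V) := F.source ∩ {q | IsUnit (Lp Θ q)}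
  have hSo : IsOpen S := F.open_source.inter (Units.isOpen.preimage (continuous_Lp hΘ))
  have hS0 : ((0 : ℝ), x0, e) ∈ S := ⟨hF0, h1⟩
  -- product neighbourhood
  let A : (ℝ × V) × V → ℝ × V × V := fun z => (z.1.1, z.1.2, z.2)
  have hA : Continuous A := by
    exact (continuous_fst.comp continuous_fst).prodMk
      ((continuous_snd.comp continuous_fst).prodMk continuous_snd)
  have hpre : A ⁻¹' S ∈ 𝓝 ((((0 : ℝ), x0), e) : (ℝ × V) × V) :=
    (hSo.preimage hA).mem_nhds hS0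
  rw [nhds_prod_eq, mem_prod_iff] at hpre
  obtain ⟨N0, hN0, B0, hB0, hsub⟩ := hpre
  obtain ⟨N1, hN1s, hN1o, hN1m⟩ := mem_nhds_iff.1 hN0
  obtain ⟨r, hr, hrB⟩ := Metric.mem_nhds_iff.1 hB0
  have hbox : ∀ p ∈ N1, ∀ v ∈ Metric.ball e r, ((p.1, p.2, v) : ℝ × V × V) ∈ S := by
    intro p hp v hv
    exact hsub (mk_mem_prod (hN1s hp) (hrB hv))
  let j : ℝ × V → ℝ × V × V := fun p => (p.1, p.2, 0)
  have hjc : ContDiff ℝ ∞ j := contDiff_fst.prodMk (contDiff_snd.prodMk contDiff_const)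
  have hj0 : j ((0 : ℝ), x0) ∈ F.target := by
    have h2 := F.map_source hF0
    have h3 : F ((0 : ℝ), x0, e) = j ((0 : ℝ), x0) := by
      rw [hFc]
      change ((0 : ℝ), x0, Θ (0, x0, e)) = (0, x0, 0)
      rw [h0]
    rwa [h3] at h2
  let W : Set (ℝ × V × V) := {q | (q.1, q.2.1) ∈ N1 ∧ q.2.2 ∈ Metric.ball e r}
  have hWo : IsOpen W := by
    refine IsOpen.inter ?_ ?_
    · exact hN1o.preimage (continuous_fst.prodMk (continuous_fst.comp continuous_snd))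
    · exact Metric.isOpen_ball.preimage (continuous_snd.comp continuous_snd)
  let N : Set (ℝ × V) := j ⁻¹' (F.target ∩ F.symm ⁻¹' W)
  have hNo : IsOpen N :=
    (F.symm.isOpen_inter_preimage hWo).preimage hjc.continuous
  let φ : ℝ × V → V := fun p => (F.symm (j p)).2.2
  have hkey : ∀ p ∈ N, F.symm (j p) = (p.1, p.2, φ p) ∧ p ∈ N1 ∧ φ p ∈ Metric.ball e r ∧
      Θ (p.1, p.2, φ p) = 0 := by
    intro p hp
    have h2 : F (F.symm (j p)) = j p := F.right_inv hp.1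
    rw [hFc] at h2
    have h3 : (F.symm (j p)).1 = p.1 := congrArg Prod.fst h2
    have h4 : (F.symm (j p)).2.1 = p.2 := congrArg (fun z : ℝ × V × V => z.2.1) h2
    have h5 : Θ (F.symm (j p)) = 0 := congrArg (fun z : ℝ × V × V => z.2.2) h2
    have h6 : F.symm (j p) = (p.1, p.2, φ p) := Prod.ext h3 (Prod.ext h4 rfl)
    have h7 : F.symm (j p) ∈ W := hp.2
    refine ⟨h6, ?_, h7.2, ?_⟩
    · have := h7.1
      rw [h3, h4] at this
      exact this
    · rw [← h6]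
      exact h5
  refine ⟨N, r, φ, hNo, ⟨hj0, ?_⟩, hr, ?_, fun p hp => ⟨(hkey p hp).2.2.1, (hkey p hp).2.2.2⟩, ?_⟩
  · change F.symm (j ((0 : ℝ), x0)) ∈ W
    have h2 : F ((0 : ℝ), x0, e) = j ((0 : ℝ), x0) := by
      rw [hFc]
      change ((0 : ℝ), x0, Θ (0, x0, e)) = (0, x0, 0)
      rw [h0]
    rw [← h2, F.left_inv hF0]
    exact ⟨hN1m, Metric.mem_ball_self hr⟩
  · intro p hp
    obtain ⟨h6, h7, h8, h9⟩ := hkey p hp
    have h10 : F.symm (j p) ∈ S := by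
      rw [h6]
      exact hbox p h7 _ h8
    obtain ⟨g', hg'⟩ := hasFDerivAt_Pm hΘ h10.2
    have h11 : ContDiffAt ℝ ∞ F.symm (j p) :=
      F.contDiffAt_symm hp.1 (f₀' := g') hg' hP.contDiffAt
    have h12 : ContDiffAt ℝ ∞ (fun p => F.symm (j p)) p :=
      ContDiffAt.comp p h11 hjc.contDiffAt
    exact ((contDiff_snd.comp contDiff_snd).contDiffAt.comp p h12).contDiffWithinAt
  · intro p hp v hv hz
    obtain ⟨h6, h7, h8, h9⟩ := hkey p hp
    have ha : ((p.1, p.2, v) : ℝ × V × V) ∈ F.source := (hbox p h7 v hv).1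
    have hb : ((p.1, p.2, φ p) : ℝ × V × V) ∈ F.source := (hbox p h7 _ h8).1
    have hc : F (p.1, p.2, v) = F (p.1, p.2, φ p) := by
      rw [hFc]
      change ((p.1, p.2, Θ (p.1, p.2, v)) : ℝ × V × V) = (p.1, p.2, Θ (p.1, p.2, φ p))
      rw [hz, h9]
    have hd := F.injOn ha hb hc
    exact congrArg (fun z : ℝ × V × V => z.2.2) hd

end IRIft

open IRIft in
theorem pr_RIft : StRIft := by
  intro V _ _ _ Θ e K hK hΘ h0 h1
  have : CompleteSpace V := FiniteDimensional.complete ℝ V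
  have hu : ∀ x ∈ K, IsUnit (Lp Θ (0, x, e)) := by
    intro x hx
    have h2 : Lp Θ (0, x, e) = 1 := by
      ext w
      have h3 := h1 x hx w
      have h4 : HasFDerivAt (fun v : V => Θ (0, x, v)) (Lp Θ (0, x, e)) e := by
        have h5 : HasFDerivAt Θ (fderiv ℝ Θ (0, x, e)) (0, x, e) :=
          ((hΘ.differentiable (by simp)) _).hasFDerivAt
        have h6 : HasFDerivAt (fun v : V => ((0 : ℝ), x, v))
            ((ContinuousLinearMap.inr ℝ ℝ (V × V)).comp (ContinuousLinearMap.inr ℝ V V)) e := by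
          have h7 : HasFDerivAt (fun v : V => ((0 : ℝ), x, v))
              ((0 : V →L[ℝ] ℝ).prod ((0 : V →L[ℝ] V).prod (ContinuousLinearMap.id ℝ V))) e :=
            (hasFDerivAt_const (0 : ℝ) e).prodMk
              ((hasFDerivAt_const x e).prodMk (hasFDerivAt_id e))
          exact h7
        exact h5.comp e h6
      rw [h4.fderiv] at h3
      exact h3
    rw [h2]
    exact isUnit_one
  have hl : ∀ x ∈ K, ∃ (N : Set (ℝ × V)) (r : ℝ) (φ : ℝ × V → V), IsOpen N ∧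
      ((0 : ℝ), x) ∈ N ∧ 0 < r ∧
      ContDiffOn ℝ ∞ φ N ∧ (∀ p ∈ N, φ p ∈ Metric.ball e r ∧ Θ (p.1, p.2, φ p) = 0) ∧
      ∀ p ∈ N, ∀ v ∈ Metric.ball e r, Θ (p.1, p.2, v) = 0 → v = φ p :=
    fun x hx => loc hΘ x e (h0 x hx) (hu x hx)
  choose! N r φ hNo hN0 hr hφ hz huq using hl
  -- finite subcover of K
  obtain ⟨t, htK, htc⟩ := hK.elim_nhds_subcover (fun x => {y : V | ((0 : ℝ), y) ∈ N x}) (by
    intro x hx
    exact ((hNo x hx).preimage (continuous_const.prodMk continuous_id)).mem_nhds (hN0 x hx))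
  rcases K.eq_empty_or_nonempty with hE | hne
  · subst hE
    refine ⟨fun _ => e, 1, one_pos, contDiff_const, fun x hx => hx.elim, fun s _ x hx => hx.elim⟩
  have htne : t.Nonempty := by
    obtain ⟨x, hx⟩ := hne
    obtain ⟨i, hi, -⟩ := mem_iUnion₂.1 (htc hx)
    exact ⟨i, hi⟩
  obtain ⟨i0, hi0, hmin⟩ := t.exists_min_image r htne
  set ρ : ℝ := r i0 with hρ
  have hρ0 : 0 < ρ := hr i0 (htK i0 hi0)
  let N' : V → Set (ℝ × V) := fun i => N i ∩ φ i ⁻¹' Metric.ball e ρ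
  have hN'o : ∀ i ∈ t, IsOpen (N' i) := fun i hi =>
    (hφ i (htK i hi)).continuousOn.isOpen_inter_preimage (hNo i (htK i hi)) Metric.isOpen_ball
  let U : Set (ℝ × V) := ⋃ i ∈ t, N' i
  have hUo : IsOpen U := isOpen_biUnion hN'o
  have hKU : ∀ x ∈ K, ((0 : ℝ), x) ∈ U := by
    intro x hx
    obtain ⟨i, hi, hxi⟩ := mem_iUnion₂.1 (htc hx)
    refine mem_iUnion₂.2 ⟨i, hi, hxi, ?_⟩
    have h2 := huq i (htK i hi) ((0 : ℝ), x) hxi e (Metric.mem_ball_self (hr i (htK i hi)))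
      (h0 x hx)
    change φ i ((0 : ℝ), x) ∈ Metric.ball e ρ
    rw [← h2]
    exact Metric.mem_ball_self hρ0
  classical
  let w0 : ℝ × V → V := fun p =>
    if h : ∃ v ∈ Metric.ball e ρ, Θ (p.1, p.2, v) = 0 then h.choose else e
  have hw0 : ∀ i ∈ t, ∀ p ∈ N' i, w0 p = φ i p := by
    intro i hi p hp
    have hex : ∃ v ∈ Metric.ball e ρ, Θ (p.1, p.2, v) = 0 :=
      ⟨φ i p, hp.2, (hz i (htK i hi) p hp.1).2⟩
    have h2 : w0 p = hex.choose := dif_pos hex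
    rw [h2]
    refine huq i (htK i hi) p hp.1 _ ?_ hex.choose_spec.2
    exact Metric.ball_subset_ball (hmin i hi) hex.choose_spec.1
  have hw0s : ∀ p ∈ U, ContDiffAt ℝ ∞ w0 p := by
    intro p hp
    obtain ⟨i, hi, hpi⟩ := mem_iUnion₂.1 hp
    have h2 : ContDiffAt ℝ ∞ (φ i) p :=
      (hφ i (htK i hi)).contDiffAt ((hNo i (htK i hi)).mem_nhds hpi.1)
    refine h2.congr_of_eventuallyEq ?_
    filter_upwards [(hN'o i hi).mem_nhds hpi] with q hq
    exact hw0 i hi q hq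
  have hw0z : ∀ p ∈ U, Θ (p.1, p.2, w0 p) = 0 := by
    intro p hp
    obtain ⟨i, hi, hpi⟩ := mem_iUnion₂.1 hp
    rw [hw0 i hi p hpi]
    exact (hz i (htK i hi) p hpi.1).2
  -- tube
  obtain ⟨A, B, hAo, hBo, hA0, hKB, hAB⟩ := generalized_tube_lemma
    (isCompact_singleton (x := (0 : ℝ))) hK hUo (by
      rintro ⟨a, x⟩ ⟨ha, hx⟩
      have ha' : a = 0 := ha
      subst ha'
      exact hKU x hx)
  obtain ⟨δ, hδ, hδA⟩ := Metric.isOpen_iff.1 hAo 0 (hA0 rfl)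
  let C : Set (ℝ × V) := Metric.closedBall (0 : ℝ) (δ / 2) ×ˢ K
  have hCc : IsClosed C := (isCompact_closedBall (0 : ℝ) (δ / 2)).isClosed.prod hK.isClosed
  have hCU : C ⊆ U := by
    rintro ⟨a, x⟩ ⟨ha, hx⟩
    refine hAB ⟨hδA ?_, hKB hx⟩
    exact Metric.closedBall_subset_ball (by linarith) ha
  obtain ⟨f, hf0, hf1, -⟩ := exists_contMDiffMap_zero_one_nhds_of_isClosed
    (n := ⊤) (I := 𝓘(ℝ, ℝ × V)) (M := ℝ × V) (s := Uᶜ) (t := C) hUo.isClosed_compl hCc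
    (disjoint_compl_left_iff_subset.2 hCU)
  have hfs : ContDiff ℝ ∞ (fun p => f p) := f.contMDiff.contDiff
  refine ⟨fun p => e + f p • (w0 p - e), δ / 2, by positivity, ?_, ?_, ?_⟩
  · rw [contDiff_iff_contDiffAt]
    intro p
    by_cases hp : p ∈ U
    · exact contDiffAt_const.add (hfs.contDiffAt.smul ((hw0s p hp).sub contDiffAt_const))
    · have h2 : ∀ᶠ q in 𝓝 p, f q = 0 := by
        have h3 : 𝓝 p ≤ 𝓝ˢ Uᶜ := nhds_le_nhdsSet hp
        exact h3 hf0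
      refine (contDiffAt_const (c := e)).congr_of_eventuallyEq ?_
      filter_upwards [h2] with q hq
      rw [hq, zero_smul, add_zero]
  · intro x hx
    have h2 : w0 ((0 : ℝ), x) = e := by
      obtain ⟨i, hi, hpi⟩ := mem_iUnion₂.1 (hKU x hx)
      rw [hw0 i hi _ hpi]
      exact (huq i (htK i hi) _ hpi.1 e (Metric.mem_ball_self (hr i (htK i hi)))
        (h0 x hx)).symm
    change e + f ((0 : ℝ), x) • (w0 ((0 : ℝ), x) - e) = e
    rw [h2, sub_self, smul_zero, add_zero]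
  · intro s hs x hx
    have hC : (s, x) ∈ C := by
      refine ⟨?_, hx⟩
      rw [Metric.mem_closedBall, Real.dist_eq, sub_zero]
      exact hs.le
    have h2e : ∀ᶠ q in 𝓝 (s, x), f q = 1 := nhds_le_nhdsSet hC hf1
    have h2 : f (s, x) = 1 := h2e.self_of_nhds
    change Θ (s, x, e + f (s, x) • (w0 (s, x) - e)) = 0
    rw [h2, one_smul, add_sub_cancel]
    exact hw0z (s, x) (hCU hC)

end Pool.Agent.LQR
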