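import Pool.Agent.Work.MP_13b5d9_gt.LQ.RStmts

set_option autoImplicit false

/-!
# MP_13b5d9_gt, block LQ, item RLin: linear algebra of `R^(m+1) = R^m x R`
-/

open MeasureTheory Set Filter Topology
open scoped ContDiff ENNReal

namespace Pool.Agent.LQR

open Pool.Agent.MLS Pool.Agent.EC Pool.Agent.STR Pool.Agent.DR

namespace IRLin

variable {m : ℕ}

theorem pr_app (y : E (m + 1)) (j : Fin m) : pr y j = y (Fin.castSucc j) := by
  simp [pr, ee, WithLp.ofLp_sum, Finset.sum_apply, Pi.single_apply]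

theorem inc_castSucc (u : E m) (j : Fin m) : inc u (Fin.castSucc j) = u j := by
  simp [inc, ee, WithLp.ofLp_sum, Finset.sum_apply, Pi.single_apply]

theorem inc_last (u : E m) : inc u (Fin.last m) = 0 := by
  have h : ∀ i : Fin m, (Fin.last m) ≠ Fin.castSucc i := fun i => (Fin.castSucc_lt_last i).ne'
  simp [inc, ee, WithLp.ofLp_sum, Finset.sum_apply, h]

theorem eL_castSucc (j : Fin m) : (eL : E (m + 1)) (Fin.castSucc j) = 0 := by
  have h : Fin.castSucc j ≠ Fin.last m := (Fin.castSucc_lt_last j).ne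
  simp [eL, ee, h]

theorem eL_last : (eL : E (m + 1)) (Fin.last m) = 1 := by
  simp [eL, ee]

theorem ht_app (y : E (m + 1)) : ht y = y (Fin.last m) := rfl

theorem ext_cs {y y' : E (m + 1)} (h1 : ∀ j : Fin m, y (Fin.castSucc j) = y' (Fin.castSucc j))
    (h2 : y (Fin.last m) = y' (Fin.last m)) : y = y' := by
  ext i
  refine Fin.lastCases h2 (fun j => h1 j) i

end IRLin

open IRLin in
/-- RLin: linear algebra of `R^(m+1) = R^m x R`. -/
theorem pr_RLin : StRLin := by
  intro m
  have hpi : ∀ u : E m, pr (inc u) = u := by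
    intro u
    ext j
    rw [pr_app, inc_castSucc]
  have hhi : ∀ u : E m, ht (inc u) = 0 := fun u => inc_last u
  have hpe : pr (eL (m := m)) = 0 := by
    ext j
    rw [pr_app, eL_castSucc]; rfl
  have hhe : ht (eL (m := m)) = 1 := eL_last
  have hdec : ∀ y : E (m + 1), inc (pr y) + ht y • eL = y := by
    intro y
    refine ext_cs (fun j => ?_) ?_
    · show inc (pr y) (Fin.castSucc j) + ht y * (eL : E (m + 1)) (Fin.castSucc j) = _
      rw [inc_castSucc, pr_app, eL_castSucc, mul_zero, add_zero]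
    · show inc (pr y) (Fin.last m) + ht y * (eL : E (m + 1)) (Fin.last m) = _
      rw [inc_last, eL_last, mul_one, zero_add, ht_app]
  refine ⟨hpi, hhi, hpe, hhe, hdec, fun x t => ?_, fun x t => ?_, fun u => ?_, fun y => ?_,
    fun y => ?_, ?_, fun y => rfl, fun x s t => ?_⟩
  · rw [jn, map_add, map_smul, hpi, hpe, smul_zero, add_zero]
  · rw [jn, map_add, map_smul, hhi, hhe, smul_eq_mul, mul_one, zero_add]
  · rw [EuclideanSpace.norm_eq, EuclideanSpace.norm_eq, Fin.sum_univ_castSucc, inc_last]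
    simp only [inc_castSucc, norm_zero]
    congr 1
    ring
  · rw [EuclideanSpace.norm_eq, EuclideanSpace.norm_eq, Fin.sum_univ_castSucc]
    refine Real.sqrt_le_sqrt ?_
    simp only [pr_app]
    have := sq_nonneg ‖y (Fin.last m)‖
    linarith
  · rw [EuclideanSpace.norm_eq, Fin.sum_univ_castSucc, ht_app]
    refine Real.le_sqrt_of_sq_le ?_
    have h1 : 0 ≤ ∑ i : Fin m, ‖y (Fin.castSucc i)‖ ^ 2 :=
      Finset.sum_nonneg fun i _ => sq_nonneg _
    rw [Real.norm_eq_abs]
    linarith
  · unfold eL ee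
    simp
  · rw [jn, jn, add_smul, add_assoc]

end Pool.Agent.LQR
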