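import Pool.Agent.Work.MP_13b5d9_gt.LQ.RStmts

set_option autoImplicit false

/-!
# RMet: the metric in adapted coordinates
-/

open MeasureTheory Set Filter Topology
open scoped ContDiff ENNReal
open Pool.Agent.Work.MP_c9f990_an.Al (IsFlow)

namespace Pool.Agent.LQR

open Pool.Agent.MLS Pool.Agent.EC Pool.Agent.STR Pool.Agent.DR

namespace IRMet

theorem pb_apply {n : ℕ} (r : ℝ) (g : Form n) (Ψ : E n → E n) (y u v : E n) :
    pb r g Ψ y u v = r * g.val (Ψ y) (fderiv ℝ Ψ y u) (fderiv ℝ Ψ y v) := by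
  simp [pb]

theorem pb_smooth {n : ℕ} (r : ℝ) (g : Form n) (Ψ : E n → E n) (hΨ : ContDiff ℝ ∞ Ψ) :
    ContDiff ℝ ∞ (pb r g Ψ) := by
  have h1 : ContDiff ℝ ∞ (fderiv ℝ Ψ) := hΨ.fderiv_right (by norm_num)
  have h2 : ContDiff ℝ ∞ (fun x => g.val (Ψ x)) := g.smooth.comp hΨ
  exact (((ContinuousLinearMap.contDiff _).comp h1).clm_comp (h2.clm_comp h1)).const_smul r

theorem inj {n : ℕ} (Φ : E n ≃ E n) (h : ContDiff ℝ ∞ Φ) (h' : ContDiff ℝ ∞ Φ.symm)
    (y v : E n) (hv : fderiv ℝ Φ y v = 0) : v = 0 := by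
  have h1 : HasFDerivAt Φ (fderiv ℝ Φ y) y :=
    ((h.differentiable (by norm_num)) y).hasFDerivAt
  have h2 : HasFDerivAt Φ.symm (fderiv ℝ Φ.symm (Φ y)) (Φ y) :=
    ((h'.differentiable (by norm_num)) (Φ y)).hasFDerivAt
  have h3 := h2.comp y h1
  have h4 : (Φ.symm ∘ Φ : E n → E n) = id := by funext x; simp
  rw [h4] at h3
  have h5 := h3.unique (hasFDerivAt_id y)
  have h6 := congrArg (fun T : E n →L[ℝ] E n => T v) h5
  simp only [ContinuousLinearMap.comp_apply, hv, map_zero] at h6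
  exact h6.symm

theorem inv {n : ℕ} {G : Type} [Group G] [MulAction G (E n)] (hcoc : Cocompact n G)
    (g : Form n) (hinv : Inv G g) (r : ℝ) (Φ : E n ≃ E n) (hs : ContDiff ℝ ∞ Φ)
    (hs' : ContDiff ℝ ∞ Φ.symm) (S : G → E n → E n) (hS : ∀ a y, Φ (S a y) = a • Φ y) (a : G)
    (x u v : E n) : pb r g Φ (S a x) (fderiv ℝ (S a) x u) (fderiv ℝ (S a) x v) =
      pb r g Φ x u v := by
  rw [pb_apply, pb_apply, hS]
  have hsa : ContDiff ℝ ∞ (fun y : E n => a • y) := hcoc.smooth a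
  have hAs : ContDiff ℝ ∞ (S a) := by
    have h4 : S a = fun y => Φ.symm (a • Φ y) := by
      funext y
      rw [← hS, Φ.symm_apply_apply]
    rw [h4]
    exact hs'.comp (hsa.comp hs)
  have hd : ∀ w : E n, fderiv ℝ Φ (S a x) (fderiv ℝ (S a) x w) =
      dac a (Φ x) (fderiv ℝ Φ x w) := by
    intro w
    have e1 : HasFDerivAt (S a) (fderiv ℝ (S a) x) x :=
      ((hAs.differentiable (by norm_num)) x).hasFDerivAt
    have e2 : HasFDerivAt Φ (fderiv ℝ Φ (S a x)) (S a x) :=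
      ((hs.differentiable (by norm_num)) _).hasFDerivAt
    have e3 := e2.comp x e1
    have e4 : HasFDerivAt Φ (fderiv ℝ Φ x) x :=
      ((hs.differentiable (by norm_num)) _).hasFDerivAt
    have e5 : HasFDerivAt (fun y : E n => a • y) (dac a (Φ x)) (Φ x) :=
      ((hsa.differentiable (by norm_num)) _).hasFDerivAt
    have e6 := e5.comp x e4
    have e7 : ((Φ : E n → E n) ∘ S a) = ((fun y : E n => a • y) ∘ Φ) := by
      funext y
      exact hS a y
    rw [e7] at e3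
    exact congrArg (fun T : E n →L[ℝ] E n => T w) (e3.unique e6)
  rw [hd u, hd v]
  congr 1
  exact hinv a (Φ x) _ _

end IRMet

/-- the metric in adapted coordinates; `S` is the conjugated action -/
def IRMetSt : Prop := ∀ (m : ℕ) (G : Type) [Group G] [MulAction G (E (m + 1))],
  Cocompact (m + 1) G → ∀ (g : Form (m + 1)), Riem g → Inv G g →
  ∀ (z : G) (l : ℝ) (V : E (m + 1) → E (m + 1)) (τ : E (m + 1) → ℝ)
  (ψ : ℝ → E (m + 1) → E (m + 1)), Axis (m + 1) G g z l V τ ψ →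
  ∀ Φ : E (m + 1) ≃ E (m + 1), (∀ y, Φ y = Ps l τ ψ y) → ContDiff ℝ ∞ Φ → ContDiff ℝ ∞ Φ.symm →
  ∃ g' : Form (m + 1), g'.val = pb (1 / l ^ 2) g (Ps l τ ψ) ∧ Riem g' ∧ Blk g' ∧
    ∀ S : G → E (m + 1) → E (m + 1), (∀ (a : G) (y : E (m + 1)), Φ (S a y) = a • Φ y) →
      ∀ A : MulAction G (E (m + 1)), (∀ (a : G) (y : E (m + 1)), A.smul a y = S a y) →
      @Inv (m + 1) G _ A g'

theorem IRMet.met (h2 : StRPs) : IRMetSt := by
  intro m G _ _ hcoc g hg hinv z l V τ ψ hax Φ hΦ hs hs'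
  obtain ⟨hsm, -, hder, hmet⟩ := h2 m G g z l V τ ψ hax
  have hfun : (Φ : E (m + 1) → E (m + 1)) = Ps l τ ψ := funext hΦ
  have hl : 0 < l := hax.pos
  refine ⟨⟨pb (1 / l ^ 2) g (Ps l τ ψ), IRMet.pb_smooth _ _ _ hsm, ?_, ?_⟩, rfl, ?_, ?_, ?_⟩
  · intro x u v
    rw [IRMet.pb_apply, IRMet.pb_apply, g.symm]
  · intro x v
    rw [IRMet.pb_apply]
    exact mul_nonneg (by positivity) (g.nonneg _ _)
  · intro x v hv
    change 0 < pb (1 / l ^ 2) g (Ps l τ ψ) x v v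
    rw [IRMet.pb_apply]
    refine mul_pos (by positivity) (hg _ _ fun h => hv ?_)
    rw [← hfun] at h
    exact IRMet.inj Φ hs hs' x v h
  · intro x v
    change pb (1 / l ^ 2) g (Ps l τ ψ) x eL v = v (Fin.last m)
    rw [IRMet.pb_apply, hder, map_smul, smul_apply, hmet]
    have h3 : ht v = v (Fin.last m) := rfl
    rw [h3, smul_eq_mul]
    field_simp
  · intro S hS
    have h5 := IRMet.inv hcoc g hinv (1 / l ^ 2) Φ hs hs' S hS
    rw [hfun] at h5
    intro A hA a x u v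
    have h6 := h5 a x u v
    have h7 : S a = fun y => A.smul a y := by funext y; exact (hA a y).symm
    rw [h7] at h6
    exact h6

end Pool.Agent.LQR
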