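import Pool.Agent.Work.MP_13b5d9_gt.LQ.RStmts
import Pool.Agent.Work.MP_25cd3b_gt.M.I_PU

set_option autoImplicit false

/-! # MP_13b5d9_gt, block LQ, item RPU: one partition of unity for all twisted actions -/

open MeasureTheory Set Filter Topology
open scoped ContDiff ENNReal

namespace Pool.Agent.LQR

open Pool.Agent.MLS Pool.Agent.EC Pool.Agent.STR Pool.Agent.DR

namespace IRPU

/-- cut-off function of the line whose integer translates have the sum one -/
noncomputable def hb (t : ℝ) : ℝ := Real.smoothTransition (t + 1) - Real.smoothTransition t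

theorem hb_smooth : ContDiff ℝ ∞ hb := by
  unfold hb
  exact (Real.smoothTransition.contDiff.comp (contDiff_id.add contDiff_const)).sub
    Real.smoothTransition.contDiff

theorem hb_nonneg (t : ℝ) : 0 ≤ hb t := by
  unfold hb
  rcases le_total t 0 with h | h
  · rw [Real.smoothTransition.zero_of_nonpos h]
    simpa using Real.smoothTransition.nonneg (t + 1)
  · rw [Real.smoothTransition.one_of_one_le (by linarith : (1 : ℝ) ≤ t + 1)]
    linarith [Real.smoothTransition.le_one t]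

theorem hb_supp {t : ℝ} (h : hb t ≠ 0) : -1 < t ∧ t < 1 := by
  constructor
  · by_contra hc
    apply h
    unfold hb
    rw [Real.smoothTransition.zero_of_nonpos (by linarith : t ≤ 0),
      Real.smoothTransition.zero_of_nonpos (by linarith : t + 1 ≤ 0), sub_zero]
  · by_contra hc
    apply h
    unfold hb
    rw [Real.smoothTransition.one_of_one_le (by linarith : (1 : ℝ) ≤ t),
      Real.smoothTransition.one_of_one_le (by linarith : (1 : ℝ) ≤ t + 1), sub_self]

theorem hb_zero {t : ℝ} {j : ℤ} (hj : j ∉ ({-⌊t⌋, -⌊t⌋ - 1} : Finset ℤ)) : hb (t + j) = 0 := by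
  by_contra hc
  obtain ⟨h1, h2⟩ := hb_supp hc
  apply hj
  have h3 := Int.floor_le t
  have h4 := Int.lt_floor_add_one t
  have h5 : (j : ℝ) < ((-⌊t⌋ + 1 : ℤ) : ℝ) := by push_cast; linarith
  have h6 : ((-⌊t⌋ - 2 : ℤ) : ℝ) < (j : ℝ) := by push_cast; linarith
  have h7 : j < -⌊t⌋ + 1 := by exact_mod_cast h5
  have h8 : -⌊t⌋ - 2 < j := by exact_mod_cast h6
  rw [Finset.mem_insert, Finset.mem_singleton]
  omega

theorem hb_sum (t : ℝ) : HasSum (fun j : ℤ => hb (t + j)) 1 := by
  have h1 : HasSum (fun j : ℤ => hb (t + j))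
      (∑ j ∈ ({-⌊t⌋, -⌊t⌋ - 1} : Finset ℤ), hb (t + j)) :=
    hasSum_sum_of_ne_finset_zero fun j hj => hb_zero hj
  have h2 : ∑ j ∈ ({-⌊t⌋, -⌊t⌋ - 1} : Finset ℤ), hb (t + j) = 1 := by
    have h3 := Int.floor_le t
    have h4 := Int.lt_floor_add_one t
    rw [Finset.sum_pair (by omega)]
    unfold hb
    push_cast
    rw [Real.smoothTransition.one_of_one_le (by linarith : (1 : ℝ) ≤ t + -⌊t⌋ + 1),
      Real.smoothTransition.zero_of_nonpos (by linarith : t + (-(⌊t⌋ : ℝ) - 1) ≤ 0)]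
    have h5 : t + (-(⌊t⌋ : ℝ) - 1) + 1 = t + -⌊t⌋ := by ring
    rw [h5]
    ring
  rw [h2] at h1
  exact h1

/-- the number of integers in an interval -/
theorem card_le {R c : ℝ} (_hR : 0 ≤ R) :
    (Finset.Icc ⌈-R - c⌉ ⌊R - c⌋).card ≤ ⌊2 * R⌋₊ + 2 := by
  rw [Int.card_Icc]
  have h1 := Int.floor_le (R - c)
  have h2 := Int.le_ceil (-R - c)
  have h3 : ((⌊R - c⌋ + 1 - ⌈-R - c⌉ : ℤ) : ℝ) ≤ 2 * R + 1 := by push_cast; linarith
  have h4 := Nat.lt_floor_add_one (2 * R)
  have h5 : ((⌊R - c⌋ + 1 - ⌈-R - c⌉ : ℤ) : ℝ) ≤ ((⌊2 * R⌋₊ + 2 : ℤ) : ℝ) := by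
    push_cast at h3 ⊢
    linarith
  have h6 : ⌊R - c⌋ + 1 - ⌈-R - c⌉ ≤ (⌊2 * R⌋₊ + 2 : ℤ) := by exact_mod_cast h5
  omega

end IRPU

open IRPU in
theorem pr_RPU (h1 : StRLin) : StRPU := by
  intro m Γ G _ _ _ _ p k hp
  obtain ⟨-, -, -, -, hdec, hprj, hhtj, -⟩ := h1 m
  obtain ⟨χΓ, hχ⟩ := pr_PU m Γ hp.coc
  have hbij := hp.bij
  have hjc : Continuous (fun q : E m × ℝ => jn q.1 q.2) := by
    unfold jn
    exact (inc.continuous.comp continuous_fst).add (continuous_snd.smul continuous_const)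
  set S : Set (E (m + 1)) := (fun q : E m × ℝ => jn q.1 q.2) '' (tsupport χΓ ×ˢ Icc (-1) 1)
    with hS
  have hScpt : IsCompact S := (hχ.cpt.isCompact.prod isCompact_Icc).image hjc
  have hχS : ∀ x : E (m + 1), χΓ (pr x) * hb (ht x) ≠ 0 → x ∈ S := by
    intro x hx
    have hx1 : χΓ (pr x) ≠ 0 := left_ne_zero_of_mul hx
    have hx2 := hb_supp (right_ne_zero_of_mul hx)
    exact ⟨(pr x, ht x), ⟨subset_tsupport _ hx1, ⟨hx2.1.le, hx2.2.le⟩⟩, hdec x⟩
  have hts : tsupport (fun x : E (m + 1) => χΓ (pr x) * hb (ht x)) ⊆ S :=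
    closure_minimal (fun x hx => hχS x hx) hScpt.isClosed
  -- the group as a product
  let e : G ≃ Γ × ℤ := Equiv.ofBijective (fun a => (p a, k a)) (by
    constructor
    · intro a b hab
      have hab' := Prod.mk.inj hab
      exact (hp.bij (p b) (k b)).unique ⟨hab'.1, hab'.2⟩ ⟨rfl, rfl⟩
    · rintro ⟨γ, j⟩
      obtain ⟨a, ha, -⟩ := hp.bij γ j
      exact ⟨a, Prod.ext ha.1 ha.2⟩)
  -- the sum
  have hsum : ∀ (η : Γ → ℝ) (x : E (m + 1)),
      HasSum (fun a : G => χΓ (p a • pr x) * hb (ht x + k a + η (p a))) 1 := by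
    intro η x
    have hfib : ∀ γ : Γ, HasSum (fun j : ℤ => χΓ (γ • pr x) * hb (ht x + j + η γ))
        (χΓ (γ • pr x)) := by
      intro γ
      have h2 := (hb_sum (ht x + η γ)).mul_left (χΓ (γ • pr x))
      rw [mul_one] at h2
      have h3 : (fun j : ℤ => χΓ (γ • pr x) * hb (ht x + η γ + j)) =
          fun j : ℤ => χΓ (γ • pr x) * hb (ht x + j + η γ) := by
        funext j
        rw [show ht x + η γ + (j : ℝ) = ht x + j + η γ by ring]
      rw [h3] at h2
      exact h2
    have hfinΓ : {γ : Γ | χΓ (γ • pr x) ≠ 0}.Finite := by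
      refine (hp.coc.proper (tsupport χΓ ∪ {pr x})
        (hχ.cpt.isCompact.union isCompact_singleton)).subset fun γ hγ => ?_
      exact ⟨γ • pr x, ⟨pr x, Or.inr rfl, rfl⟩, Or.inl (subset_tsupport _ hγ)⟩
    have hfin : (Function.support fun q : Γ × ℤ =>
        χΓ (q.1 • pr x) * hb (ht x + q.2 + η q.1)).Finite := by
      refine (hfinΓ.biUnion (t := fun γ => (fun j : ℤ => (γ, j)) ''
        (({-⌊ht x + η γ⌋, -⌊ht x + η γ⌋ - 1} : Finset ℤ) : Set ℤ))
        fun γ _ => (Finset.finite_toSet _).image _).subset ?_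
      rintro ⟨γ, j⟩ hq
      simp only [Function.mem_support] at hq
      simp only [Set.mem_iUnion]
      refine ⟨γ, left_ne_zero_of_mul hq, j, ?_, rfl⟩
      by_contra hj
      apply right_ne_zero_of_mul hq
      rw [show ht x + (j : ℝ) + η γ = ht x + η γ + j by ring]
      exact hb_zero (by simpa using hj)
    have hS1 : Summable fun q : Γ × ℤ => χΓ (q.1 • pr x) * hb (ht x + q.2 + η q.1) :=
      summable_of_hasFiniteSupport hfin
    have h4 := hS1.hasSum.prod_fiberwise hfib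
    have h5 := h4.unique (hχ.sum (pr x))
    have h6 := hS1.hasSum
    rw [h5] at h6
    exact e.hasSum_iff.mpr h6
  refine ⟨fun x => χΓ (pr x) * hb (ht x), S, hScpt, hχS, hts, ?_, ?_⟩
  · intro η _ A hA
    have hsum' : ∀ x : E (m + 1), HasSum (fun a : G => χΓ (pr (A.smul a x)) *
        hb (ht (A.smul a x))) 1 := by
      intro x
      have h2 := hsum η x
      have h3 : (fun a : G => χΓ (pr (A.smul a x)) * hb (ht (A.smul a x))) =
          fun a : G => χΓ (p a • pr x) * hb (ht x + k a + η (p a)) := by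
        funext a
        rw [hA, hprj, hhtj]
      rw [h3]
      exact h2
    refine ⟨?_, ?_⟩
    · constructor
      · exact (hχ.smooth.comp pr.contDiff).mul (hb_smooth.comp ht.contDiff)
      · exact fun x => mul_nonneg (hχ.nonneg _) (hb_nonneg _)
      · exact hScpt.of_isClosed_subset (isClosed_tsupport _) hts
      · exact hsum'
    · intro x
      by_contra hc
      push Not at hc
      have h3 : (fun a : G => χΓ (pr (A.smul a x)) * hb (ht (A.smul a x))) = fun _ => 0 := by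
        funext a
        by_contra hne
        exact hc a (hχS _ hne)
      have h4 := hsum' x
      rw [h3] at h4
      exact one_ne_zero (h4.unique hasSum_zero)
  · intro K hK
    have hBc : IsCompact (pr '' S ∪ pr '' K) :=
      (hScpt.image pr.continuous).union (hK.image pr.continuous)
    have hF := hp.coc.proper _ hBc
    obtain ⟨R, hR⟩ := ((hScpt.union hK).image (ht (m := m)).continuous).isBounded.exists_norm_le
    have hR0 : 0 ≤ max R 0 := le_max_right _ _
    refine ⟨hF.toFinset.card * (⌊2 * (2 * max R 0)⌋₊ + 2), ?_⟩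
    intro η _ A hA x hx
    set T : Finset (Σ _ : Γ, ℤ) := hF.toFinset.sigma fun γ =>
      Finset.Icc ⌈-(2 * max R 0) - η γ⌉ ⌊2 * max R 0 - η γ⌋ with hT
    have hcard : T.card ≤ hF.toFinset.card * (⌊2 * (2 * max R 0)⌋₊ + 2) := by
      rw [hT, Finset.card_sigma]
      refine (Finset.sum_le_card_nsmul _ _ _ fun γ _ => card_le (by positivity)).trans ?_
      rw [smul_eq_mul]
    have hinj : Set.InjOn (fun a : G => (⟨p a, k a⟩ : Σ _ : Γ, ℤ)) {a : G | A.smul a x ∈ K} := by
      intro a _ b _ hab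
      have h2 : p a = p b ∧ k a = k b := by simpa using hab
      exact (hbij (p b) (k b)).unique h2 ⟨rfl, rfl⟩
    have hsub : (fun a : G => (⟨p a, k a⟩ : Σ _ : Γ, ℤ)) '' {a : G | A.smul a x ∈ K} ⊆
        (T : Set (Σ _ : Γ, ℤ)) := by
      rintro _ ⟨a, ha, rfl⟩
      have ha' : A.smul a x ∈ K := ha
      rw [Finset.mem_coe, hT, Finset.mem_sigma]
      have hpa : pr (A.smul a x) = p a • pr x := by rw [hA, hprj]
      have hha : ht (A.smul a x) = ht x + k a + η (p a) := by rw [hA, hhtj]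
      have hb1 : |ht (A.smul a x)| ≤ R := hR _ ⟨_, Or.inr ha', rfl⟩
      have hb2 : |ht x| ≤ R := hR _ ⟨_, Or.inl hx, rfl⟩
      have hb3 : R ≤ max R 0 := le_max_left _ _
      rw [hha] at hb1
      rw [abs_le] at hb1 hb2
      refine ⟨?_, ?_⟩
      · rw [Set.Finite.mem_toFinset]
        exact ⟨p a • pr x, ⟨pr x, Or.inl ⟨x, hx, rfl⟩, rfl⟩, Or.inr ⟨_, ha', hpa⟩⟩
      · rw [Finset.mem_Icc]
        constructor
        · rw [Int.ceil_le]
          linarith
        · rw [Int.le_floor]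
          linarith
    calc {a : G | A.smul a x ∈ K}.encard
        = ((fun a : G => (⟨p a, k a⟩ : Σ _ : Γ, ℤ)) '' {a : G | A.smul a x ∈ K}).encard :=
          hinj.encard_image.symm
      _ ≤ (T : Set (Σ _ : Γ, ℤ)).encard := Set.encard_le_encard hsub
      _ = (T.card : ℕ∞) := Set.encard_coe_eq_coe_finsetCard T
      _ ≤ _ := by exact_mod_cast hcard

end Pool.Agent.LQR
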