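import Pool.Agent.Work.MP_13b5d9_gt.LQ.RStmts

set_option autoImplicit false

/-!
# MP_13b5d9_gt, block LQ, item RPd: the group `G = Γ x Z`
-/

open MeasureTheory Set Filter Topology
open scoped ContDiff ENNReal

namespace Pool.Agent.LQR

open Pool.Agent.MLS Pool.Agent.EC Pool.Agent.STR Pool.Agent.DR

namespace IRPd

variable {m : ℕ} {Γ G : Type} [Group Γ] [MulAction Γ (E m)] [Group G]
  [MulAction G (E (m + 1))] {p : G →* Γ} {k : G → ℤ}

theorem k_mul (h : StRLin) (hP : Pd m Γ G p k) (a b : G) : k (a * b) = k a + k b := by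
  obtain ⟨-, -, -, -, -, -, hjn, -⟩ := h m
  have h1 : ht ((a * b) • (0 : E (m + 1))) = ht (0 : E (m + 1)) + k (a * b) := by
    rw [hP.act, hjn]
  have h2 : ht ((a * b) • (0 : E (m + 1))) = ht (0 : E (m + 1)) + k b + k a := by
    rw [mul_smul, hP.act a, hjn, hP.act b, hjn]
  have h3 : ((k (a * b) : ℤ) : ℝ) = ((k a + k b : ℤ) : ℝ) := by
    push_cast
    linarith
  exact_mod_cast h3

theorem vert (h : StRLin) (hP : Pd m Γ G p k) : Vert (m + 1) G eL := by
  obtain ⟨-, -, hpe, hhe, -, -, -, -, -, -, -, -, -⟩ := h m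
  refine ⟨fun h0 => ?_, fun a x s => ?_⟩
  · rw [h0, map_zero] at hhe
    exact zero_ne_one hhe
  · rw [hP.act, hP.act, map_add, map_add, map_smul, map_smul, hpe, hhe, smul_zero, add_zero]
    have h1 : ht x + s • (1 : ℝ) + (k a : ℝ) = (ht x + (k a : ℝ)) + s := by
      rw [smul_eq_mul, mul_one]
      ring
    rw [h1]
    unfold jn
    rw [add_smul (ht x + (k a : ℝ)) s, add_assoc]

theorem exists_z (h : StRLin) (hP : Pd m Γ G p k) :
    ∃ z : G, p z = 1 ∧ k z = 1 ∧ z ≠ 1 ∧ (∀ a : G, a * z = z * a) ∧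
      ∀ x : E (m + 1), z • x = x + eL := by
  obtain ⟨z, ⟨hpz, hkz⟩, -⟩ := hP.bij 1 1
  have hk1 : k 1 = 0 := by
    have h1 := k_mul h hP 1 1
    rw [one_mul] at h1
    omega
  refine ⟨z, hpz, hkz, fun h0 => ?_, fun a => ?_, fun x => ?_⟩
  · rw [h0, hk1] at hkz
    exact zero_ne_one hkz
  · refine (hP.bij (p a) (k a + 1)).unique ⟨?_, ?_⟩ ⟨?_, ?_⟩
    · rw [map_mul, hpz, mul_one]
    · rw [k_mul h hP, hkz]
    · rw [map_mul, hpz, one_mul]
    · rw [k_mul h hP, hkz, add_comm]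
  · obtain ⟨-, -, -, -, hdec, -⟩ := h m
    rw [hP.act, hpz, hkz, one_smul]
    unfold jn
    conv_rhs => rw [← hdec x]
    rw [add_smul, Int.cast_one, one_smul, add_assoc]

theorem dac_eq (hP : Pd m Γ G p k) (a : G) (y v : E (m + 1)) :
    dac a y v = inc (dac (p a) (pr y) (pr v)) + ht v • eL := by
  have h1 : (fun y : E (m + 1) => a • y)
      = fun y : E (m + 1) => inc (p a • pr y) + (ht y + (k a : ℝ)) • (eL : E (m + 1)) := by
    funext y
    rw [hP.act]
    rfl
  have h2 : HasFDerivAt (fun x : E m => p a • x) (dac (p a) (pr y)) (pr y) :=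
    ((hP.coc.smooth (p a)).differentiable (by simp) (pr y)).hasFDerivAt
  have h3 : HasFDerivAt (fun y : E (m + 1) => inc (p a • pr y))
      ((inc (m := m)).comp ((dac (p a) (pr y)).comp (pr (m := m)))) y :=
    (inc (m := m)).hasFDerivAt.comp y (h2.comp y (pr (m := m)).hasFDerivAt)
  have h4 : HasFDerivAt (fun y : E (m + 1) => (ht y + (k a : ℝ)) • (eL : E (m + 1)))
      ((ht (m := m)).smulRight (eL : E (m + 1))) y :=
    (((ht (m := m)).hasFDerivAt (x := y)).add_const (k a : ℝ)).smul_const (eL : E (m + 1))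
  have h5 : dac a y = (inc (m := m)).comp ((dac (p a) (pr y)).comp (pr (m := m)))
      + (ht (m := m)).smulRight (eL : E (m + 1)) := by
    unfold dac at h3 ⊢
    rw [h1]
    exact (h3.add h4).fderiv
  rw [h5]
  rfl

end IRPd

/-- RPd: the group. -/
theorem pr_RPd (h : StRLin) : StRPd := by
  intro m Γ G _ _ _ _ p k hP
  exact ⟨IRPd.k_mul h hP, IRPd.vert h hP, IRPd.exists_z h hP, IRPd.dac_eq hP⟩

end Pool.Agent.LQR
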