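import Pool.Agent.Work.MP_13b5d9_gt.LQ.RStmts

set_option autoImplicit false

/-!
Item RPs: adapted coordinates, first properties.
-/

open MeasureTheory Set Filter Topology
open scoped ContDiff ENNReal

namespace Pool.Agent.LQR

open Pool.Agent.MLS Pool.Agent.EC Pool.Agent.STR Pool.Agent.DR

namespace IRPs

theorem contDiff_slice {m : ℕ} : ContDiff ℝ ∞ (fun y : E (m + 1) => jn (pr y) 0) := by
  unfold jn
  exact (inc.contDiff.comp pr.contDiff).add contDiff_const

theorem smooth {m : ℕ} (l : ℝ) (τ : E (m + 1) → ℝ) (ψ : ℝ → E (m + 1) → E (m + 1))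
    (hF : ContDiff ℝ ∞ (fun p : ℝ × E (m + 1) => ψ p.1 p.2)) (hT : ContDiff ℝ ∞ τ) :
    ContDiff ℝ ∞ (Ps l τ ψ) := by
  have h1 : ContDiff ℝ ∞ (fun y : E (m + 1) => l * ht y - τ (jn (pr y) 0)) :=
    (contDiff_const.mul ht.contDiff).sub (hT.comp contDiff_slice)
  exact hF.comp (h1.prodMk contDiff_slice)

end IRPs

theorem pr_RPs (h : StRLin) : StRPs := by
  intro m G _ _ g z l V τ ψ hA
  obtain ⟨-, -, hpe, hhe, -, -, -, -, -, -, -, -, -⟩ := h m
  have hsm := IRPs.smooth l τ ψ hA.smoothF hA.smoothT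
  have hdiff : Differentiable ℝ (Ps l τ ψ) := hsm.differentiable (by simp)
  have hτ : ∀ y, τ (Ps l τ ψ y) = l * ht y := by
    intro y
    rw [Ps, hA.height]
    ring
  refine ⟨hsm, hτ, ?_, ?_⟩
  · intro y
    have h0 : HasDerivAt (fun s : ℝ => y + s • (eL : E (m + 1))) eL 0 := by
      have := ((hasDerivAt_id (0 : ℝ)).smul_const (eL : E (m + 1))).const_add y
      simpa using this
    have h1 : HasDerivAt (fun s : ℝ => Ps l τ ψ (y + s • eL))
        (fderiv ℝ (Ps l τ ψ) y eL) 0 := by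
      have h2 : HasFDerivAt (Ps l τ ψ) (fderiv ℝ (Ps l τ ψ) y) (y + (0 : ℝ) • eL) := by
        rw [zero_smul, add_zero]
        exact (hdiff y).hasFDerivAt
      exact h2.comp_hasDerivAt (0 : ℝ) h0
    have h3 : ∀ s : ℝ, Ps l τ ψ (y + s • eL) =
        ψ ((l * ht y - τ (jn (pr y) 0)) + l * s) (jn (pr y) 0) := by
      intro s
      rw [Ps, map_add, map_add, map_smul, map_smul, hpe, hhe, smul_zero, add_zero, smul_eq_mul,
        mul_one]
      congr 1
      ring
    have h4 : HasDerivAt (fun s : ℝ => ψ ((l * ht y - τ (jn (pr y) 0)) + l * s) (jn (pr y) 0))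
        (l • V (Ps l τ ψ y)) 0 := by
      have h5 : HasDerivAt (fun s : ℝ => (l * ht y - τ (jn (pr y) 0)) + l * s) l 0 := by
        have := ((hasDerivAt_id (0 : ℝ)).const_mul l).const_add (l * ht y - τ (jn (pr y) 0))
        simpa using this
      have h6 : HasDerivAt (fun u : ℝ => ψ u (jn (pr y) 0)) (V (Ps l τ ψ y))
          ((l * ht y - τ (jn (pr y) 0)) + l * 0) := by
        rw [mul_zero, add_zero]
        exact hA.ode _ _
      exact h6.scomp (0 : ℝ) h5
    have h7 : HasDerivAt (fun s : ℝ => Ps l τ ψ (y + s • eL)) (l • V (Ps l τ ψ y)) 0 := by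
      have h8 : (fun s : ℝ => Ps l τ ψ (y + s • eL)) =
          (fun s : ℝ => ψ ((l * ht y - τ (jn (pr y) 0)) + l * s) (jn (pr y) 0)) := funext h3
      rw [h8]
      exact h4
    exact h1.unique h7
  · intro y w
    rw [← hA.grad]
    have h1 : HasFDerivAt (fun y => τ (Ps l τ ψ y))
        ((fderiv ℝ τ (Ps l τ ψ y)).comp (fderiv ℝ (Ps l τ ψ) y)) y :=
      ((hA.smoothT.differentiable (by simp)) _).hasFDerivAt.comp y (hdiff y).hasFDerivAt
    have h2 : HasFDerivAt (fun y => τ (Ps l τ ψ y)) (l • (ht : E (m + 1) →L[ℝ] ℝ)) y := by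
      have h3 : (fun y => τ (Ps l τ ψ y)) = fun y => (l • (ht : E (m + 1) →L[ℝ] ℝ)) y := by
        funext y
        rw [hτ]
        rfl
      rw [h3]
      exact (l • (ht : E (m + 1) →L[ℝ] ℝ)).hasFDerivAt
    have h4 := h1.unique h2
    have h5 := congrArg (fun L : E (m + 1) →L[ℝ] ℝ => L w) h4
    exact h5

end Pool.Agent.LQR
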