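import Pool.Agent.Work.MP_13b5d9_gt.LQ.RStmts

set_option autoImplicit false

/-!
# MP_13b5d9_gt, block LQ, item RSoft: convergence of the partial derivatives
-/

open MeasureTheory Set Filter Topology
open scoped ContDiff ENNReal

namespace Pool.Agent.LQR

namespace IRSoft

/-- the partial derivatives are restrictions of the full derivatives -/
theorem part {V F : Type} [NormedAddCommGroup V] [NormedSpace ℝ V] [NormedAddCommGroup F]
    [NormedSpace ℝ F] {H : ℝ × V → F} (hH : ContDiff ℝ ∞ H) (i : ℕ) (s : ℝ) (y : V) :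
    iteratedFDeriv ℝ i (fun x => H (s, x)) y =
      ContinuousMultilinearMap.compContinuousLinearMapL (𝕜 := ℝ) (F := F)
        (fun _ : Fin i => ContinuousLinearMap.inr ℝ ℝ V) (iteratedFDeriv ℝ i H (s, y)) := by
  have h1 : (fun x : V => H (s, x)) =
      (fun z : ℝ × V => H ((s, 0) + z)) ∘ (ContinuousLinearMap.inr ℝ ℝ V) := by
    funext x
    simp
  have h2 : ContDiff ℝ ∞ (fun z : ℝ × V => H ((s, 0) + z)) :=
    hH.comp (contDiff_const.add contDiff_id)
  rw [h1, ContinuousLinearMap.iteratedFDeriv_comp_right (ContinuousLinearMap.inr ℝ ℝ V) h2 y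
    (by exact_mod_cast le_top), iteratedFDeriv_comp_add_left]
  simp only [ContinuousLinearMap.inr_apply, Prod.mk_add_mk, add_zero, zero_add]
  rfl

end IRSoft

theorem pr_RSoft : StRSoft := by
  intro V F _ _ _ _ _ H hH K i ε hK hε
  have hc : Continuous fun q : ℝ × V => iteratedFDeriv ℝ i (fun x => H (q.1, x)) q.2 := by
    have h1 : (fun q : ℝ × V => iteratedFDeriv ℝ i (fun x => H (q.1, x)) q.2) =
        fun q : ℝ × V => ContinuousMultilinearMap.compContinuousLinearMapL (𝕜 := ℝ) (F := F)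
        (fun _ : Fin i => ContinuousLinearMap.inr ℝ ℝ V) (iteratedFDeriv ℝ i H q) := by
      funext q
      exact IRSoft.part hH i q.1 q.2
    rw [h1]
    exact (ContinuousLinearMap.continuous _).comp
      (hH.continuous_iteratedFDeriv (by exact_mod_cast le_top))
  have hc0 : Continuous fun q : ℝ × V =>
      ‖iteratedFDeriv ℝ i (fun x => H (q.1, x)) q.2 -
        iteratedFDeriv ℝ i (fun x => H (0, x)) q.2‖ := by
    have h2 : Continuous fun q : ℝ × V => iteratedFDeriv ℝ i (fun x => H (0, x)) q.2 :=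
      hc.comp (Continuous.prodMk continuous_const continuous_snd :
        Continuous fun q : ℝ × V => ((0 : ℝ), q.2))
    exact (hc.sub h2).norm
  have hopen : IsOpen {q : ℝ × V | ‖iteratedFDeriv ℝ i (fun x => H (q.1, x)) q.2 -
        iteratedFDeriv ℝ i (fun x => H (0, x)) q.2‖ < ε} := isOpen_lt hc0 continuous_const
  obtain ⟨u, v, hu, hv, h0u, hKv, huv⟩ := generalized_tube_lemma (isCompact_singleton (x := (0 : ℝ)))
    hK hopen (by
      rintro ⟨s, y⟩ ⟨hs, hy⟩
      have hs' : s = 0 := hs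
      subst hs'
      simpa using hε)
  obtain ⟨δ, hδ, hball⟩ := Metric.isOpen_iff.mp hu 0 (h0u rfl)
  refine ⟨δ, hδ, fun s hs y hy => ?_⟩
  have h3 : s ∈ u := hball (by rwa [Metric.mem_ball, Real.dist_eq, sub_zero])
  exact le_of_lt (huv (Set.mk_mem_prod h3 (hKv hy)) :
    ‖iteratedFDeriv ℝ i (fun x => H (s, x)) y - iteratedFDeriv ℝ i (fun x => H (0, x)) y‖ < ε)

end Pool.Agent.LQR
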