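import Pool.Agent.Work.MP_13b5d9_gt.LQ.RStmts

set_option autoImplicit false

/-!
# MP_13b5d9_gt, block LQ, part T (openness at every split metric): definitions

The universal covering is split along the central element `z` if it is a Riemannian product
`R^m x R` such that all elements of the group are products of maps of `R^m` and translations of the
line, and `z` is the translation of the line by `l`.
-/

open MeasureTheory Set Filter Topology
open scoped ContDiff ENNReal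
open Pool.Agent.Work.MP_c9f990_an.Al (IsFlow)

namespace Pool.Agent.LQT

open Pool.Agent.MLS Pool.Agent.EC Pool.Agent.STR Pool.Agent.DR Pool.Agent.LQR

/-- the metric `g` is split along `z`: data `κ`, `l`, `Θ` -/
structure SplZ (m : ℕ) (G : Type) [Group G] [MulAction G (E (m + 1))] (z : G)
    (g : Form (m + 1)) (l : ℝ) (κ : Form m) (Θ : E (m + 1) ≃ E m × ℝ) : Prop where
  pos : 0 < l
  riem : Riem κ
  smooth : ContDiff ℝ ∞ Θ
  smooth_symm : ContDiff ℝ ∞ Θ.symm
  metric : ∀ x u v, g.val x u v = κ.val (Θ x).1 (fderiv ℝ Θ x u).1 (fderiv ℝ Θ x v).1 +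
    (fderiv ℝ Θ x u).2 * (fderiv ℝ Θ x v).2
  deck : ∀ a : G, ∃ (f : E m → E m) (h : ℝ), ∀ x, Θ (a • x) = (f (Θ x).1, (Θ x).2 + h)
  zt : ∀ x, Θ (z • x) = ((Θ x).1, (Θ x).2 + l)

/-- the metric `g` is split along `z` -/
def Sp (m : ℕ) (G : Type) [Group G] [MulAction G (E (m + 1))] (z : G) (g : Form (m + 1)) : Prop :=
  ∃ (l : ℝ) (κ : Form m) (Θ : E (m + 1) ≃ E m × ℝ), SplZ m G z g l κ Θ

/-- the canonical field of `z` exists and is parallel -/
def Par (n : ℕ) (G : Type) [Group G] [MulAction G (E n)] (z : G) (g : Form n) : Prop :=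
  ∃ (l : ℝ) (V : E n → E n) (τ : E n → ℝ) (ψ : ℝ → E n → E n), Axis n G g z l V τ ψ ∧
    ∀ x u, fderiv ℝ V x u + Ga g x u (V x) = 0

/-- `g' = r Φ^* g` -/
def IsPb {n : ℕ} (r : ℝ) (g g' : Form n) (Φ : E n → E n) : Prop :=
  ∀ x u v, g'.val x u v = r * g.val (Φ x) (fderiv ℝ Φ x u) (fderiv ℝ Φ x v)

/-- `g (e, v) = v_last + Df (v)`, `f` a function of the first `m` coordinates -/
def Clf {m : ℕ} (f : E m → ℝ) (g : Form (m + 1)) : Prop :=
  ∀ y v, g.val y eL v = ht v + fderiv ℝ f (pr y) (pr v)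

/-- shear -/
noncomputable def Sf {m : ℕ} (f : E m → ℝ) (y : E (m + 1)) : E (m + 1) :=
  jn (pr y) (ht y - f (pr y))

/-- closeness of metrics: the derivatives up to the order `r` on the ball of radius `r` -/
def Near {n : ℕ} (r : ℕ) (g g0 : Form n) : Prop :=
  ∀ i ≤ r, ∀ y : E n, ‖y‖ ≤ r →
    ‖iteratedFDeriv ℝ i (fun x => g.val x - g0.val x) y‖ ≤ 1 / ((r : ℝ) + 1)

/-- The data of a family `F` such that the metrics `F (2^(-j))` have no conjugate points, with
their canonical fields, and `F 0` is invariant under the vertical translations with closed form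
`g (e, .)`. -/
structure CtxT (m : ℕ) (Γ G : Type) [Group Γ] [MulAction Γ (E m)] [Group G]
    [MulAction G (E (m + 1))] (p : G →* Γ) (k : G → ℤ) (f : E m → ℝ) (F : ℝ → Form (m + 1))
    (z : G) (l : ℕ → ℝ) (V : ℕ → E (m + 1) → E (m + 1)) (τ : ℕ → E (m + 1) → ℝ)
    (ψ : ℕ → ℝ → E (m + 1) → E (m + 1)) : Prop where
  pd : Pd m Γ G p k
  fam : Fam (m + 1) F
  inv : ∀ s, Inv G (F s)
  smf : ContDiff ℝ ∞ f
  f0 : f 0 = 0
  clf : Clf f (F 0)
  tinv0 : TInv (F 0) eL
  zt : ∀ x : E (m + 1), z • x = x + eL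
  noc : ∀ j, NoConj (F (sj j))
  ax : ∀ j, Axis (m + 1) G (F (sj j)) z (l j) (V j) (τ j) (ψ j)
  t0 : ∀ j, τ j 0 = 0

end Pool.Agent.LQT
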