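import Pool.Agent.Work.MP_25cd3b_gt.NG.Stmts
import Pool.Agent.Work.MP_13b5d9_gt.ST.Stmts
import Pool.Agent.Work.MP_13b5d9_gt.LQ.TDefs

set_option autoImplicit false

/-!
# MP_13b5d9_gt, block LQ, part T (the set of metrics which are split along `z` is open in the space
of metrics without conjugate points): statements, each with its complete proof

All statements of the blocks M, NC and NG of MP_25cd3b_gt are theorems: import
`Pool.Agent.Work.MP_25cd3b_gt.NG.All` and use them freely (`p_NcGa`, `p_Flow`, ...); the statements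
`StR..` of part R are proved in the files `I_R...` of this folder.  Notation: `e = eL`.
-/

open MeasureTheory Set Filter Topology
open scoped ContDiff ENNReal
open Pool.Agent.Work.MP_c9f990_an.Al (IsFlow)

namespace Pool.Agent.LQT

open Pool.Agent.MLS Pool.Agent.EC Pool.Agent.STR Pool.Agent.DR Pool.Agent.LQR

/-! ### A. diffeomorphisms -/

/-- Christoffel symbols under `g' = r F^* g`.  As `NgGaN` (file MP_25cd3b_gt/NG/I_GaN.lean) with two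
metrics: differentiate `r g(F x)(DF v, DF w) = g'(x)(v, w)` in the direction `u`, insert it three
times in the formula of Koszul (`NcGa`) for `2 g'(x)(Γ'(u, v), w)`; `D²F` is symmetric.  The result is
`g'(x)(Γ'(u, v), w) = r g(F x)(Γ(DF u, DF v) + D²F(u, v), DF w)` for all `w`, and the left side is
`r g(F x)(DF Γ'(u, v), DF w)`.  `DF x` is injective (`r g(DF v, DF v) = g'(v, v) > 0`), so surjective,
and `g(F x)` is definite. -/
def TGa : Prop := ∀ (n : ℕ) (g g' : Form n) (r : ℝ) (F : E n → E n), 0 < r → Riem g → Riem g' →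
  ContDiff ℝ ∞ F → IsPb r g g' F → ∀ x u v, fderiv ℝ F x (Ga g' x u v) =
    fderiv ℝ (fderiv ℝ F) x u v + Ga g (F x) (fderiv ℝ F x u) (fderiv ℝ F x v)

/-- Curvature under `g' = r F^* g` (uses `TGa`): as `NgRN` (file MP_25cd3b_gt/NG/I_RN.lean). -/
def TRm : Prop := ∀ (n : ℕ) (g g' : Form n) (r : ℝ) (F : E n → E n), 0 < r → Riem g → Riem g' →
  ContDiff ℝ ∞ F → IsPb r g g' F → ∀ x u v w, fderiv ℝ F x (Rm g' x u v w) =
    Rm g (F x) (fderiv ℝ F x u) (fderiv ℝ F x v) (fderiv ℝ F x w)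

/-- No conjugate points for pull-backs (uses `TGa`, `TRm`, `NcGeo`).  If `c` is a geodesic of `g'`
then `(F ∘ c)'' = D²F(c', c') + DF c'' = D²F(c', c') - DF Γ'(c', c') = - Γ(DF c', DF c')`, so `F ∘ c` is
a geodesic of `g`.  For a field `X` along `c`: `DF (cov g' c X) = cov g (F ∘ c) (DF X)` (product
rule and `TGa`; `X` of class `C^1`).  So if `J` is Jacobi along `c` for `g'`, then `DF J` is Jacobi
along `F ∘ c` for `g` (`TRm`); if it vanishes identically so does `J` (`DF` is injective). -/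
def TNc : Prop := ∀ (n : ℕ) (g g' : Form n) (r : ℝ) (F : E n → E n), 0 < r → Riem g → Riem g' →
  ContDiff ℝ ∞ F → IsPb r g g' F → NoConj g → NoConj g'

/-- Pull-back forms.  `P g` has the value `pb r g Φ` (smooth as in `MLS.pull`; positive because the
derivative of a diffeomorphism is injective; jointly smooth for a family).  Invariance: differentiate
`Φ (A a y) = B a (Φ y)`: `DΦ ∘ D(A a) = D(B a) ∘ DΦ` (see `I_RMet.lean`). -/
def TPb : Prop := ∀ (n : ℕ) (Φ : E n ≃ E n), ContDiff ℝ ∞ Φ → ContDiff ℝ ∞ Φ.symm → ∀ r : ℝ,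
  0 < r → ∃ P : Form n → Form n, (∀ g, IsPb r g (P g) Φ) ∧ (∀ g, Riem g → Riem (P g)) ∧
  (∀ F : ℝ → Form n, Fam n F → Fam n (fun s => P (F s))) ∧
  ∀ (G : Type) [Group G] (A B : MulAction G (E n)), @Cocompact n G _ A → @Cocompact n G _ B →
    (∀ (a : G) (y : E n), Φ (A.smul a y) = B.smul a (Φ y)) →
    ∀ g : Form n, @Inv n G _ B g → @Inv n G _ A (P g)

/-- Splitting is natural.  Let `g' = r Φ^* g` be split with `l'`, `κ'`, `Θ'`, `q = r^(-1/2)`.  Take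
`Θ x = ((Θ' (Φ⁻¹ x)).1, q (Θ' (Φ⁻¹ x)).2)`, `κ = q² κ'`, `l = q l'`:
`g_(Φ y)(DΦ u, DΦ v) = q² g'_y (u, v)`.  `deck`: `Φ⁻¹ (B a x) = A a (Φ⁻¹ x)`. -/
def TBk : Prop := ∀ (m : ℕ) (G : Type) [Group G] (A B : MulAction G (E (m + 1))) (z : G)
  (g g' : Form (m + 1)) (r : ℝ) (Φ : E (m + 1) ≃ E (m + 1)), 0 < r → ContDiff ℝ ∞ Φ →
  ContDiff ℝ ∞ Φ.symm → IsPb r g g' Φ →
  (∀ (a : G) (y : E (m + 1)), Φ (A.smul a y) = B.smul a (Φ y)) →
  @Sp m G _ A z g' → @Sp m G _ B z g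

/-! ### B. parallel fields -/

/-- Height along geodesics (`NgMet`, `StGeo1`, `NcExp`, `Axis.grad`).  Let `γ s = expo φ g p (s v)`, a
geodesic with `γ' 0 = v`.  `cov g γ (V ∘ γ) = DV(γ') + Γ(γ', V) = 0`, so `g (V, γ')` is constant (product
rule `NgMet`), and it is the derivative of `τ ∘ γ`. -/
def TEh : Prop := ∀ (n : ℕ) (G : Type) [Group G] [MulAction G (E n)] (g : Form n) (z : G) (l : ℝ)
  (V : E n → E n) (τ : E n → ℝ) (ψ : ℝ → E n → E n), Riem g → Axis n G g z l V τ ψ →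
  (∀ x u, fderiv ℝ V x u + Ga g x u (V x) = 0) →
  ∀ (φ : ℝ → W n → W n) (M : ℝ → W n → W n →L[ℝ] W n), IsFlow (XH (Hm g)) φ M →
  ∀ p v : E n, τ (expo φ g p v) = τ p + g.val p (V p) v

/-- The flow of a parallel field consists of isometries.  `X t = Dψ_t(x) u` satisfies
`X' = DV(ψ_t x) X` (mixed derivatives of the jointly smooth `ψ`; `Axis.ode`), so along `c t = ψ t x`
(`c' = V`) `cov g c X = DV(X) + Γ(V, X) = DV(X) + Γ(X, V) = 0`; the same for `v`, and `g (X, Y)` is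
constant by `NgMet`; at `t = 0` `Dψ_0 = id` (`Axis.zero`). -/
def TIs : Prop := ∀ (n : ℕ) (G : Type) [Group G] [MulAction G (E n)] (g : Form n) (z : G) (l : ℝ)
  (V : E n → E n) (τ : E n → ℝ) (ψ : ℝ → E n → E n), Riem g → Axis n G g z l V τ ψ →
  (∀ x u, fderiv ℝ V x u + Ga g x u (V x) = 0) → ∀ (t : ℝ) (x u v : E n),
  g.val (ψ t x) (fderiv ℝ (ψ t) x u) (fderiv ℝ (ψ t) x v) = g.val x u v

/-- Coordinates of a hyperplane: the kernel of `b` has dimension `m`; `J` is a linear isomorphism of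
the kernel to `R^m` composed with a projection to the kernel. -/
def THy : Prop := ∀ (m : ℕ) (b : E (m + 1) →L[ℝ] ℝ), b ≠ 0 →
  ∃ (I : E m →L[ℝ] E (m + 1)) (J : E (m + 1) →L[ℝ] E m), (∀ u, J (I u) = u) ∧
    (∀ u, b (I u) = 0) ∧ ∀ v, b v = 0 → I (J v) = v

/-- PARALLEL IMPLIES SPLIT (uses `TEh`, `TIs`, `THy`, `STR.StLog`, `STR.StExS`).  Let `φ` be the flow
(`p_Flow`), `lg` the logarithm (`StLog`), `I`, `J` from `THy` for `b = g_0 (V 0, .)`,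
`Ee w = expo φ g 0 (I w)`.  `τ (Ee w) = τ 0` (`TEh`).  `Λ (w, t) = ψ t (Ee w)` has the inverse
`Θ x = (J (lg 0 (ψ (-(τ x - τ 0)) x)), τ x - τ 0)` (`Axis.height`, `add`, `zero`; if `τ y = τ 0` then
`v = lg 0 y` has `b v = τ (expo 0 v) - τ 0 = 0`, so `I (J v) = v`), and both are smooth.  Metric:
`DΛ(w, t)(u, a) = Dψ_t(Ee w)(DEe u) + a V(Λ)`; `g (V(ψ_t x), Dψ_t y) = Dτ(ψ_t x)(Dψ_t y) = Dτ(x) y`
(differentiate `Axis.height`), which is `0` for `y = DEe u`; so with `TIs` and `unit`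
`g (DΛ(u, a), DΛ(u', a')) = κ_w (u, u') + a a'`, `κ_w (u, u') = g_(Ee w) (DEe u, DEe u')`, positive
since `DEe` is injective (`NcInj`).  `deck`: `a • Λ (w, t) = ψ t (a • Ee w)` (`comm`),
`τ (a • x) = τ x + h_a`, so `f_a w = J (lg 0 (ψ (-h_a) (a • Ee w)))`.  `zt`: `z • x = ψ l x`. -/
def TPS : Prop := ∀ (m : ℕ) (G : Type) [Group G] [MulAction G (E (m + 1))],
  Cocompact (m + 1) G → ∀ g : Form (m + 1), Riem g → Inv G g → NoConj g → ∀ z : G,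
  Par (m + 1) G z g → Sp m G z g

/-- The field of the line is parallel.  `V x = DΘ⁻¹(Θ x)(0, 1)`, `τ x = (Θ x).2`,
`ψ t x = Θ⁻¹ ((Θ x).1, τ x + t)`.  `g (V x, u) = Dτ(x) u` (`metric`, `DΘ(V x) = (0, 1)`), and
`g (ψ_t x) (Dψ_t u, Dψ_t v) = g x (u, v)`.  (i) The form `g (V, .) = dτ` is closed: `Dg(u)(V, w) +
g(DV u, w) = Dg(w)(V, u) + g(DV w, u)`.  (ii) Derivative at `t = 0`: `Dg(V)(u, w) + g(DV u, w) +
g(u, DV w) = 0`.  By the formula of Koszul (`NcGa`) `2 g(DV u + Γ(u, V), w) = 2 g(DV u, w) + Dg(u)(V, w) +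
Dg(V)(u, w) - Dg(w)(u, V) = g(DV u, w) + g(DV w, u) + Dg(V)(u, w) = 0`. -/
def TVp : Prop := ∀ (m : ℕ) (g : Form (m + 1)) (κ : Form m) (Θ : E (m + 1) ≃ E m × ℝ), Riem g →
  ContDiff ℝ ∞ Θ → ContDiff ℝ ∞ Θ.symm →
  (∀ x u v, g.val x u v = κ.val (Θ x).1 (fderiv ℝ Θ x u).1 (fderiv ℝ Θ x v).1 +
    (fderiv ℝ Θ x u).2 * (fderiv ℝ Θ x v).2) →
  ∃ V : E (m + 1) → E (m + 1), ContDiff ℝ ∞ V ∧ (∀ x, V x = fderiv ℝ Θ.symm (Θ x) (0, 1)) ∧
    (∀ x, fderiv ℝ Θ x (V x) = (0, 1)) ∧ (∀ x, g.val x (V x) (V x) = 1) ∧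
    (∀ x v, (fderiv ℝ Θ x v).2 = g.val x (V x) v) ∧
    ∀ x u, fderiv ℝ V x u + Ga g x u (V x) = 0

/-- SPLIT IMPLIES PARALLEL (uses `TVp`, `NcGeo`).  `Axis` with the `V`, `τ`, `ψ` of `TVp`: all fields
are formulas in the coordinates `Θ` (`comm` from `deck`; `inv` is the derivative of `comm` at `t = 0`;
`period` from `zt`); `geo`: `c = ψ t x` has `c' = V c`, `c'' = DV(V) = - Γ(V, V)`, and `NcGeo`. -/
def TSP : Prop := ∀ (m : ℕ) (G : Type) [Group G] [MulAction G (E (m + 1))],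
  Cocompact (m + 1) G → ∀ g : Form (m + 1), Riem g → ∀ z : G, Sp m G z g → Par (m + 1) G z g

/-! ### C. the group of a split metric -/

/-- The group.  Let `f_a`, `h_a` be as in `deck`; `h` is additive, `f_(a b) = f_a ∘ f_b`, `h_z = l`,
`f_z = id`.  `Γ` = the kernel of `k` (a subgroup of `G`), acting on `R^m` by `f`;
`p a = a z^(-(k a))`, a homomorphism because `z` is central (`z a` and `a z` act in the same way;
`free`); `η γ = h_γ / l`.  Smooth: `f_a x = (Θ (a • Θ⁻¹ (x, 0))).1`.  Free: let `f_γ x = x`.  If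
`h_γ = 0` then `γ` fixes `Θ⁻¹ (x, 0)`.  If `h_γ ≠ 0`: for every integer `i` choose `j` with
`|i h_γ + j l| ≤ l`; the elements `γ^i z^j` move `Θ⁻¹ (x, 0)` into the compact segment
`Θ⁻¹ ({x} x [-l, l])`; by `proper` two of them with different `i` agree, and `k` gives the same `j`; so
`γ^i = 1` with `i ≠ 0`, and `i h_γ = 0`, a contradiction.  Proper: if `f_γ K` meets `K` choose `j` with
`h_γ + j l ∈ [0, l]`; then `γ z^j` moves a point of `Θ⁻¹ (K x [0, l])` into `Θ⁻¹ (K x [0, 2 l])`, so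
`γ z^j` is in a finite set and `γ = p (γ z^j)`.  Cocompact: `f_a = f_(p a)`. -/
def TGm : Prop := ∀ (m : ℕ) (G : Type) [Group G] [MulAction G (E (m + 1))],
  Cocompact (m + 1) G → ∀ (z : G) (k : G → ℤ), (∀ a b, k (a * b) = k a + k b) → k z = 1 →
  ∀ (g : Form (m + 1)) (l : ℝ) (κ : Form m) (Θ : E (m + 1) ≃ E m × ℝ), SplZ m G z g l κ Θ →
  ∃ (Γ : Type) (iΓ : Group Γ) (jΓ : MulAction Γ (E m)) (p : G →* Γ) (η : Γ → ℝ),
    @Cocompact m Γ iΓ jΓ ∧ (∀ a b, η (a * b) = η a + η b) ∧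
    (∀ (γ : Γ) (j : ℤ), ∃! a : G, p a = γ ∧ k a = j) ∧
    ∀ (a : G) (x : E (m + 1)),
      Θ (a • x) = (jΓ.smul (p a) (Θ x).1, (Θ x).2 + l * (k a + η (p a)))

/-- The product action `a y = jn (p a • pr y) (ht y + k a)` (an action because `k` is additive).
`Cocompact`: as in `StRAct` (file I_RAct.lean, `η = 0`). -/
def TPa : Prop := ∀ (m : ℕ) (Γ G : Type) [Group Γ] [MulAction Γ (E m)] [Group G] (p : G →* Γ)
  (k : G → ℤ), Cocompact m Γ → (∀ a b, k (a * b) = k a + k b) →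
  (∀ (γ : Γ) (j : ℤ), ∃! a : G, p a = γ ∧ k a = j) →
  ∃ A : MulAction G (E (m + 1)), @Pd m Γ G _ _ _ A p k

/-- Straightening function.  `f x = - ∑_a χ(a x) η(a)` with the partition of unity `χ` of `StPU`
(locally finite sum, so smooth): `f(b x) = - ∑_a χ(a b x) η(a) = - ∑_c χ(c x) (η(c) - η(b)) =
f x + η b`.  Subtract `f 0`. -/
def TSt : Prop := ∀ (m : ℕ) (Γ : Type) [Group Γ] [MulAction Γ (E m)], Cocompact m Γ →
  ∀ η : Γ → ℝ, (∀ a b, η (a * b) = η a + η b) →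
  ∃ f : E m → ℝ, ContDiff ℝ ∞ f ∧ f 0 = 0 ∧ ∀ (a : Γ) (x : E m), f (a • x) = f x + η a

/-- The equivariant diffeomorphism.  `Ξ y = Θ⁻¹ (pr y, l (ht y + f (pr y)))`, with inverse
`x ↦ jn (Θ x).1 ((Θ x).2 / l - f (Θ x).1)`.  For `g' = l⁻² Ξ^* g`: `D(Θ ∘ Ξ)(y) v =
(pr v, l (ht v + Df(pr v)))`, so `g'_y (u, v) = l⁻² κ_(pr y) (pr u, pr v) + (ht u + Df(pr y)(pr u))
(ht v + Df(pr y)(pr v))`. -/
def TXi : Prop := ∀ (m : ℕ) (g : Form (m + 1)) (κ : Form m) (Θ : E (m + 1) ≃ E m × ℝ) (l : ℝ)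
  (f : E m → ℝ), 0 < l → ContDiff ℝ ∞ f → ContDiff ℝ ∞ Θ → ContDiff ℝ ∞ Θ.symm →
  (∀ x u v, g.val x u v = κ.val (Θ x).1 (fderiv ℝ Θ x u).1 (fderiv ℝ Θ x v).1 +
    (fderiv ℝ Θ x u).2 * (fderiv ℝ Θ x v).2) →
  ∃ Ξ : E (m + 1) ≃ E (m + 1), (∀ y, Θ (Ξ y) = (pr y, l * (ht y + f (pr y)))) ∧
    ContDiff ℝ ∞ Ξ ∧ ContDiff ℝ ∞ Ξ.symm ∧
    ∀ g' : Form (m + 1), IsPb (1 / l ^ 2) g g' Ξ → TInv g' eL ∧ Clf f g'

/-! ### D. families (adaptations of the files of part R) -/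

/-- Exponential map in the vertical direction.  Adaptation of `I_RExP.lean`: only the lemmas `dB`,
`Gae`, `geo` change.  `D_u g(e, w) = D²f(pr u, pr w)` (differentiate `Clf`), symmetric in `u, w`, and
`0` if `u = e` or `w = e` (`pr e = 0`).  So by Koszul `2 g(Γ(e, w), u) = D_e g(w, u) + D_w g(e, u) -
D_u g(e, w) = 0`.  `x + t e` is a geodesic: `g_(x + t e)(e, w) = ht w + Df(pr x)(pr w)` is constant
in `t`, and `D_w g(e, e) = 0`. -/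
def TExP : Prop := ∀ (m : ℕ) (f : E m → ℝ) (g : Form (m + 1)) (φ : ℝ → W (m + 1) → W (m + 1))
  (M : ℝ → W (m + 1) → W (m + 1) →L[ℝ] W (m + 1)), Riem g → ContDiff ℝ ∞ f → Clf f g →
  TInv g eL → IsFlow (XH (Hm g)) φ M → ∀ x : E (m + 1), expo φ g x eL = x + eL ∧
  ∀ w, fderiv ℝ (expo φ g x) eL w = w

/-- Adaptation of `I_RW.lean` (with `TExP` in place of `StRExP`). -/
def TW : Prop := ∀ (m : ℕ) (Γ G : Type) [Group Γ] [MulAction Γ (E m)] [Group G]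
  [MulAction G (E (m + 1))] (p : G →* Γ) (k : G → ℤ) (f : E m → ℝ) (F : ℝ → Form (m + 1)) (z : G)
  (l : ℕ → ℝ) (V : ℕ → E (m + 1) → E (m + 1)) (τ : ℕ → E (m + 1) → ℝ)
  (ψ : ℕ → ℝ → E (m + 1) → E (m + 1)), CtxT m Γ G p k f F z l V τ ψ → ∀ R : ℝ,
  ∃ w : ℝ × E (m + 1) → E (m + 1), ContDiff ℝ ∞ w ∧ (∀ x, ‖x‖ ≤ R → w (0, x) = eL) ∧
    ∀ᶠ j in atTop, ∀ x, ‖x‖ ≤ R → l j • V j x = w (sj j, x)

/-- Adaptation of `I_RV.lean` (`F 0 (e, e) = ht e + Df(pr e) = 1`). -/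
def TV : Prop := ∀ (m : ℕ) (Γ G : Type) [Group Γ] [MulAction Γ (E m)] [Group G]
  [MulAction G (E (m + 1))] (p : G →* Γ) (k : G → ℤ) (f : E m → ℝ) (F : ℝ → Form (m + 1)) (z : G)
  (l : ℕ → ℝ) (V : ℕ → E (m + 1) → E (m + 1)) (τ : ℕ → E (m + 1) → ℝ)
  (ψ : ℕ → ℝ → E (m + 1) → E (m + 1)), CtxT m Γ G p k f F z l V τ ψ →
  (∃ lt : ℝ → ℝ, ContDiff ℝ ∞ lt ∧ lt 0 = 1 ∧ (∀ s, 1 / 2 ≤ lt s) ∧
    ∀ᶠ j in atTop, l j = lt (sj j)) ∧
  ∀ R : ℝ, ∃ Z : ℝ × E (m + 1) → E (m + 1), ContDiff ℝ ∞ Z ∧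
    (∀ x, ‖x‖ ≤ R → Z (0, x) = eL) ∧ ∀ᶠ j in atTop, ∀ x, ‖x‖ ≤ R → V j x = Z (sj j, x)

/-- Potentials.  Adaptation of `I_RT.lean`: at `s = 0` the value is
`∫_0^1 (F 0) (r x) (e, x) dr = ∫_0^1 (ht x + Df(r pr x)(pr x)) dr = ht x + f (pr x) - f 0`. -/
def TT : Prop := ∀ (m : ℕ) (Γ G : Type) [Group Γ] [MulAction Γ (E m)] [Group G]
  [MulAction G (E (m + 1))] (p : G →* Γ) (k : G → ℤ) (f : E m → ℝ) (F : ℝ → Form (m + 1)) (z : G)
  (l : ℕ → ℝ) (V : ℕ → E (m + 1) → E (m + 1)) (τ : ℕ → E (m + 1) → ℝ)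
  (ψ : ℕ → ℝ → E (m + 1) → E (m + 1)), CtxT m Γ G p k f F z l V τ ψ → ∀ R : ℝ,
  ∃ T : ℝ × E (m + 1) → ℝ, ContDiff ℝ ∞ T ∧ (∀ x, ‖x‖ ≤ R → T (0, x) = ht x + f (pr x)) ∧
    ∀ᶠ j in atTop, ∀ x, ‖x‖ ≤ R → τ j x = T (sj j, x)

/-- Adapted coordinates.  Adaptation of `I_RY.lean`: let `B` be a bound of `|f|` on the ball of radius
`R`; `|l_j ht y - τ_j (jn (pr y) 0)| ≤ 2 R + B + 1` for large `j`, so use `StRFC` with the radius
`2 R + B + 1`.  At `s = 0`: `P (0, ht y - f (pr y), jn (pr y) 0) = jn (pr y) 0 + (ht y - f (pr y)) e`. -/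
def TY : Prop := ∀ (m : ℕ) (Γ G : Type) [Group Γ] [MulAction Γ (E m)] [Group G]
  [MulAction G (E (m + 1))] (p : G →* Γ) (k : G → ℤ) (f : E m → ℝ) (F : ℝ → Form (m + 1)) (z : G)
  (l : ℕ → ℝ) (V : ℕ → E (m + 1) → E (m + 1)) (τ : ℕ → E (m + 1) → ℝ)
  (ψ : ℕ → ℝ → E (m + 1) → E (m + 1)), CtxT m Γ G p k f F z l V τ ψ → ∀ R : ℝ,
  ∃ Y : ℝ × E (m + 1) → E (m + 1), ContDiff ℝ ∞ Y ∧ (∀ y, ‖y‖ ≤ R → Y (0, y) = Sf f y) ∧
    ∀ᶠ j in atTop, ∀ y, ‖y‖ ≤ R → Ps (l j) (τ j) (ψ j) y = Y (sj j, y)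

/-- The limit metric `Sf^* (F 0)` (uses `TPb` with `r = 1` and the diffeomorphism `Sf f`, with inverse
`jn (pr y) (ht y + f (pr y))`).  `DSf(y) v = inc (pr v) + (ht v - Df(pr y)(pr v)) e`, `DSf e = e`, so
`g0' (e, v) = F 0 (e, DSf v) = ht v - Df(pr v) + Df(pr v) = ht v` (`Blk`), `TInv` since
`Sf (y + s e) = Sf y + s e`.  Flow: `p_Flow` for the conjugated action
`a *' y = Sf⁻¹ (a • Sf y) = jn (p a • pr y) (ht y + k a + (f (p a • pr y) - f (pr y)))`; the last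
bracket does not depend on `y` (`F 0` is invariant and `Clf`: compare `g_(a y)(e, dac a y v)` with
`g_y(e, v)`; the derivative of `f ∘ γ - f` vanishes), it is additive, and `StRAct` says that this
action is cocompact; `g0'` is invariant (`TPb`). -/
def TLim : Prop := ∀ (m : ℕ) (Γ G : Type) [Group Γ] [MulAction Γ (E m)] [Group G]
  [MulAction G (E (m + 1))] (p : G →* Γ) (k : G → ℤ) (f : E m → ℝ) (g0 : Form (m + 1)),
  Pd m Γ G p k → Riem g0 → Inv G g0 → ContDiff ℝ ∞ f → Clf f g0 → TInv g0 eL →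
  ∃ g0' : Form (m + 1), IsPb 1 g0 g0' (Sf f) ∧ Riem g0' ∧ Blk g0' ∧ TInv g0' eL ∧
    ∃ (φ : ℝ → W (m + 1) → W (m + 1)) (M : ℝ → W (m + 1) → W (m + 1) →L[ℝ] W (m + 1)),
      IsFlow (XH (Hm g0')) φ M

/-- Convergence of the metrics in adapted coordinates.  Adaptation of `I_RG.lean`: on the ball
`H (0, y)` is the pull-back of `F 0` by `Y (0, .) = Sf f`. -/
def TG : Prop := ∀ (m : ℕ) (Γ G : Type) [Group Γ] [MulAction Γ (E m)] [Group G]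
  [MulAction G (E (m + 1))] (p : G →* Γ) (k : G → ℤ) (f : E m → ℝ) (F : ℝ → Form (m + 1)) (z : G)
  (l : ℕ → ℝ) (V : ℕ → E (m + 1) → E (m + 1)) (τ : ℕ → E (m + 1) → ℝ)
  (ψ : ℕ → ℝ → E (m + 1) → E (m + 1)), CtxT m Γ G p k f F z l V τ ψ →
  ∀ g0' : Form (m + 1), IsPb 1 (F 0) g0' (Sf f) →
  ∀ (K : Set (E (m + 1))) (i : ℕ) (ε : ℝ), IsCompact K → 0 < ε →
  ∀ᶠ j in atTop, ∀ y ∈ K,
    ‖iteratedFDeriv ℝ i (pb (1 / l j ^ 2) (F (sj j)) (Ps (l j) (τ j) (ψ j))) y -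
      iteratedFDeriv ℝ i g0'.val y‖ ≤ ε

/-- Transversality: adaptation of `I_RTr.lean`. -/
def TTr : Prop := ∀ (m : ℕ) (Γ G : Type) [Group Γ] [MulAction Γ (E m)] [Group G]
  [MulAction G (E (m + 1))] (p : G →* Γ) (k : G → ℤ) (f : E m → ℝ) (F : ℝ → Form (m + 1)) (z : G)
  (l : ℕ → ℝ) (V : ℕ → E (m + 1) → E (m + 1)) (τ : ℕ → E (m + 1) → ℝ)
  (ψ : ℕ → ℝ → E (m + 1) → E (m + 1)), CtxT m Γ G p k f F z l V τ ψ →
  ∀ᶠ j in atTop, Tr (V j) (τ j)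

/-- Splitting: adaptation of `I_RSp.lean` (one more conclusion, `zt`: `Θ (Φ y) = (pr y, l ht y)`, so
`Θ (z • Φ y) = Θ (Φ (y + e)) = (pr y, l ht y + l)`). -/
def TSpl : Prop := ∀ (m : ℕ) (Γ G : Type) [Group Γ] [MulAction Γ (E m)] [Group G]
  [MulAction G (E (m + 1))] (p : G →* Γ) (z : G), ∀ (g g' : Form (m + 1)) (l : ℝ)
  (Φ : E (m + 1) ≃ E (m + 1)), Riem g → Riem g' → 0 < l → ContDiff ℝ ∞ Φ → ContDiff ℝ ∞ Φ.symm →
  (∀ x u v, g'.val x u v = 1 / l ^ 2 * g.val (Φ x) (fderiv ℝ Φ x u) (fderiv ℝ Φ x v)) →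
  Blk g' → TInv g' eL →
  (∀ a : G, ∃ c : ℝ, ∀ y, a • Φ y = Φ (jn (p a • pr y) (ht y + c))) →
  (∀ y : E (m + 1), z • Φ y = Φ (y + eL)) → Sp m G z g

/-- Sequences (uses `LQ.StL`; adaptation of `I_RSeq.lean`). -/
def TSeq : Prop := ∀ (m : ℕ) (Γ G : Type) [Group Γ] [MulAction Γ (E m)] [Group G]
  [MulAction G (E (m + 1))] (p : G →* Γ) (k : G → ℤ) (f : E m → ℝ) (F : ℝ → Form (m + 1)) (z : G)
  (l : ℕ → ℝ) (V : ℕ → E (m + 1) → E (m + 1)) (τ : ℕ → E (m + 1) → ℝ)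
  (ψ : ℕ → ℝ → E (m + 1) → E (m + 1)), CtxT m Γ G p k f F z l V τ ψ →
  ∀ᶠ j in atTop, Sp m G z (F (sj j))

/-- OPENNESS (uses `TSeq`, `TGm`, `TPa`, `TSt`, `TXi`, `TPb`, `TNc`, `TBk`, `StRCur`, `StRPd`,
`STR.StAx`).  By contradiction: choose `g_j` without conjugate points, not split, fast converging to
`g0`; a family `F` (`StRCur`); `F' s = l⁻² Ξ^* (F s)` is a family for the product action, and
`CtxT` holds. -/
def TOpn : Prop := ∀ (m : ℕ) (G : Type) [Group G] [MulAction G (E (m + 1))],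
  Cocompact (m + 1) G → ∀ (z : G) (k : G → ℤ), (∀ a b, k (a * b) = k a + k b) → k z = 1 →
  ∀ g0 : Form (m + 1), Riem g0 → Inv G g0 → Sp m G z g0 →
  ∃ r : ℕ, ∀ g : Form (m + 1), Riem g → Inv G g → NoConj g → Near r g g0 → Sp m G z g

end Pool.Agent.LQT
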