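import Mathlib
import Pool.Agent.Work.MP_13b5d9_gt.LQ.TStmts

set_option autoImplicit false

/-!
# MP_13b5d9_gt, block LQ, item TBk: splitting is natural
-/

open MeasureTheory Set Filter Topology
open scoped ContDiff ENNReal
open Pool.Agent.Work.MP_c9f990_an.Al (IsFlow)

namespace Pool.Agent.LQT

open Pool.Agent.MLS Pool.Agent.EC Pool.Agent.STR Pool.Agent.DR Pool.Agent.LQR

namespace ITBk

/-- multiple of a form -/
noncomputable def sc {m : ℕ} (c : ℝ) (hc : 0 ≤ c) (κ : Form m) : Form m where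
  val := fun x => c • κ.val x
  smooth := κ.smooth.const_smul c
  symm := fun x u v => by
    show c * κ.val x u v = c * κ.val x v u
    rw [κ.symm]
  nonneg := fun x v => by
    show 0 ≤ c * κ.val x v v
    exact mul_nonneg hc (κ.nonneg x v)

/-- scaling of the second factor -/
noncomputable def es {m : ℕ} (q : ℝ) (hq : q ≠ 0) : E m × ℝ ≃ E m × ℝ where
  toFun := fun p => (p.1, q * p.2)
  invFun := fun p => (p.1, q⁻¹ * p.2)
  left_inv := fun p => by
    ext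
    · rfl
    · show q⁻¹ * (q * p.2) = p.2
      rw [← mul_assoc, inv_mul_cancel₀ hq, one_mul]
  right_inv := fun p => by
    ext
    · rfl
    · show q * (q⁻¹ * p.2) = p.2
      rw [← mul_assoc, mul_inv_cancel₀ hq, one_mul]

/-- the derivative of the scaling -/
noncomputable def ls {m : ℕ} (q : ℝ) : E m × ℝ →L[ℝ] E m × ℝ :=
  (ContinuousLinearMap.fst ℝ (E m) ℝ).prod (q • ContinuousLinearMap.snd ℝ (E m) ℝ)

theorem unpack {m : ℕ} {G : Type} [Group G] (A : MulAction G (E (m + 1))) {z : G}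
    {g : Form (m + 1)} {l : ℝ} {κ : Form m} {Θ : E (m + 1) ≃ E m × ℝ}
    (H : @SplZ m G _ A z g l κ Θ) : 0 < l ∧ Riem κ ∧ ContDiff ℝ ∞ Θ ∧ ContDiff ℝ ∞ Θ.symm ∧
    (∀ x u v, g.val x u v = κ.val (Θ x).1 (fderiv ℝ Θ x u).1 (fderiv ℝ Θ x v).1 +
      (fderiv ℝ Θ x u).2 * (fderiv ℝ Θ x v).2) ∧
    (∀ a : G, ∃ (f : E m → E m) (h : ℝ), ∀ x, Θ (A.smul a x) = (f (Θ x).1, (Θ x).2 + h)) ∧
    ∀ x, Θ (A.smul z x) = ((Θ x).1, (Θ x).2 + l) :=
  ⟨H.pos, H.riem, H.smooth, H.smooth_symm, H.metric, H.deck, H.zt⟩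

end ITBk

open ITBk in
/-- Item TBk. -/
theorem pr_TBk : TBk := by
  rintro m G _ A B z g g' r Φ hr hΦ hΦ' hpb heq ⟨l', κ', Θ', H⟩
  obtain ⟨hpos, hriem, hsm, hsm', hmet, hdeck, hzt⟩ := unpack A H
  set q : ℝ := (Real.sqrt r)⁻¹ with hq
  have hsr : 0 < Real.sqrt r := Real.sqrt_pos.2 hr
  have hq0 : 0 < q := inv_pos.2 hsr
  have hqq : q * q = 1 / r := by
    rw [hq, ← mul_inv, Real.mul_self_sqrt hr.le, one_div]
  have hr' : (0 : ℝ) ≤ 1 / r := by positivity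
  have hls : ∀ p : E m × ℝ, es q hq0.ne' p = ls q p := fun p => rfl
  have hlsm : ContDiff ℝ ∞ (ls (m := m) q) := (ls q).contDiff
  have hback : ∀ (a : G) (x : E (m + 1)), Φ.symm (B.smul a x) = A.smul a (Φ.symm x) := by
    intro a x
    rw [Equiv.symm_apply_eq, heq, Equiv.apply_symm_apply]
  refine ⟨q * l', sc (1 / r) hr' κ', Φ.symm.trans (Θ'.trans (es q hq0.ne')), ?_⟩
  refine @SplZ.mk m G _ B z g _ _ _ (mul_pos hq0 hpos) ?_ ?_ ?_ ?_ ?_ ?_
  · intro x v hv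
    show 0 < 1 / r * κ'.val x v v
    exact mul_pos (by positivity) (hriem x v hv)
  · show ContDiff ℝ ∞ fun x => ls q (Θ' (Φ.symm x))
    exact hlsm.comp (hsm.comp hΦ')
  · show ContDiff ℝ ∞ fun p : E m × ℝ => Φ (Θ'.symm (p.1, q⁻¹ * p.2))
    have h1 : ContDiff ℝ ∞ fun p : E m × ℝ => ((p.1, q⁻¹ * p.2) : E m × ℝ) := by fun_prop
    exact hΦ.comp (hsm'.comp h1)
  · intro x u v
    set y := Φ.symm x with hy
    have hx : Φ y = x := Φ.apply_symm_apply x
    have hd1 : Differentiable ℝ Φ := hΦ.differentiable (by norm_num)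
    have hd2 : Differentiable ℝ Φ.symm := hΦ'.differentiable (by norm_num)
    have hd3 : Differentiable ℝ Θ' := hsm.differentiable (by norm_num)
    have hinv : ∀ w, fderiv ℝ Φ y (fderiv ℝ Φ.symm x w) = w := by
      intro w
      have h1 : HasFDerivAt (fun t => Φ (Φ.symm t))
          ((fderiv ℝ Φ (Φ.symm x)).comp (fderiv ℝ Φ.symm x)) x :=
        (hd1 (Φ.symm x)).hasFDerivAt.comp x (hd2 x).hasFDerivAt
      have h2 : (fun t => Φ (Φ.symm t)) = fun t => t := funext fun t => Φ.apply_symm_apply t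
      rw [h2] at h1
      have h3 := h1.unique (hasFDerivAt_id x)
      exact congrArg (fun L : E (m + 1) →L[ℝ] E (m + 1) => L w) h3
    have hder : ∀ w, fderiv ℝ (Φ.symm.trans (Θ'.trans (es q hq0.ne'))) x w =
        ((fderiv ℝ Θ' y (fderiv ℝ Φ.symm x w)).1, q * (fderiv ℝ Θ' y (fderiv ℝ Φ.symm x w)).2) := by
      intro w
      have h1 : HasFDerivAt (fun t => ls (m := m) q (Θ' (Φ.symm t)))
          ((ls q).comp ((fderiv ℝ Θ' (Φ.symm x)).comp (fderiv ℝ Φ.symm x))) x :=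
        (ls q).hasFDerivAt.comp x ((hd3 (Φ.symm x)).hasFDerivAt.comp x (hd2 x).hasFDerivAt)
      have h2 : fderiv ℝ (fun t => ls (m := m) q (Θ' (Φ.symm t))) x =
          (ls q).comp ((fderiv ℝ Θ' (Φ.symm x)).comp (fderiv ℝ Φ.symm x)) := h1.fderiv
      show fderiv ℝ (fun t => ls (m := m) q (Θ' (Φ.symm t))) x w = _
      rw [h2]
      rfl
    rw [hder, hder]
    have h3 := hpb y (fderiv ℝ Φ.symm x u) (fderiv ℝ Φ.symm x v)
    rw [hinv, hinv, hx, hmet] at h3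
    show g.val x u v = 1 / r * κ'.val (Θ' y).1 (fderiv ℝ Θ' y (fderiv ℝ Φ.symm x u)).1
        (fderiv ℝ Θ' y (fderiv ℝ Φ.symm x v)).1 +
      q * (fderiv ℝ Θ' y (fderiv ℝ Φ.symm x u)).2 * (q * (fderiv ℝ Θ' y (fderiv ℝ Φ.symm x v)).2)
    have h4 : g.val x u v = 1 / r * (r * g.val x u v) := by
      field_simp
    rw [h4, ← h3, mul_add]
    congr 1
    rw [← hqq]
    ring
  · intro a
    obtain ⟨f, h, hf⟩ := hdeck a
    refine ⟨f, q * h, fun x => ?_⟩
    show ((Θ' (Φ.symm (B.smul a x))).1, q * (Θ' (Φ.symm (B.smul a x))).2) =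
      (f (Θ' (Φ.symm x)).1, q * (Θ' (Φ.symm x)).2 + q * h)
    rw [hback, hf, mul_add]
  · intro x
    show ((Θ' (Φ.symm (B.smul z x))).1, q * (Θ' (Φ.symm (B.smul z x))).2) =
      ((Θ' (Φ.symm x)).1, q * (Θ' (Φ.symm x)).2 + q * l')
    rw [hback, hzt, mul_add]

end Pool.Agent.LQT
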