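import Pool.Agent.Work.MP_25cd3b_gt.NG.All
import Pool.Agent.Work.MP_13b5d9_gt.LQ.TStmts

set_option autoImplicit false

/-!
# MP_13b5d9_gt, block LQ, item TEh: the height along geodesics
-/

open MeasureTheory Set Filter Topology
open scoped ContDiff ENNReal
open Pool.Agent.Work.MP_c9f990_an.Al (IsFlow)

namespace Pool.Agent.LQT

open Pool.Agent.MLS Pool.Agent.EC Pool.Agent.STR Pool.Agent.DR Pool.Agent.LQR

/-- Height along geodesics. -/
theorem pr_TEh : TEh := by
  intro n G _ _ g z l V τ ψ hg hA hpar φ M hφ p v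
  obtain ⟨-, -, hexp, -, hexp0⟩ := p_NcExp n g φ M hg hφ p
  obtain ⟨-, hmet, hgeod⟩ := p_NgMet n g hg
  obtain ⟨-, -, hop, -, -, -, -, -, -⟩ := pr_Op n g hg
  obtain ⟨hgeo, hvel, -⟩ := p_Geo1 n g hg (fun t => φ t (p, op g p v))
    (fun t => hφ.ode (p, op g p v) t)
  set c : ℝ → E n := fun t => (φ t (p, op g p v)).1 with hc
  have hc2 : ContDiff ℝ 2 c := hgeo.smooth
  have hc1 : ∀ t, HasDerivAt c (deriv c t) t := fun t =>
    ((hc2.differentiable (by norm_num)) t).hasDerivAt
  have hc1' : Differentiable ℝ (deriv c) := by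
    have : ContDiff ℝ (1 + 1) c := by
      rw [one_add_one_eq_two]
      exact hc2
    exact ((contDiff_succ_iff_deriv.1 this).2.2).differentiable (by norm_num)
  have hV : ∀ t, HasDerivAt (fun s => V (c s)) (fderiv ℝ V (c t) (deriv c t)) t := fun t =>
    ((hA.smoothV.differentiable (by norm_num)) (c t)).hasFDerivAt.comp_hasDerivAt t (hc1 t)
  have hk : ∀ t, HasDerivAt (fun s => g.val (c s) (V (c s)) (deriv c s)) 0 t := by
    intro t
    have h1 := hmet c (fun s => V (c s)) (deriv c) t (hc1 t).differentiableAt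
      (hV t).differentiableAt (hc1' t)
    have h2 : cov g c (fun s => V (c s)) t = 0 := by
      unfold cov
      rw [(hV t).deriv]
      exact hpar (c t) (deriv c t)
    have h3 : cov g c (deriv c) t = 0 := hgeod c hgeo t
    rw [h2, h3] at h1
    simpa using h1
  have hk0 : ∀ t, g.val (c t) (V (c t)) (deriv c t) = g.val (c 0) (V (c 0)) (deriv c 0) := by
    intro t
    exact is_const_of_deriv_eq_zero (fun s => (hk s).differentiableAt) (fun s => (hk s).deriv) t 0
  have hc0 : c 0 = p := by
    simp only [hc, hφ.zero]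
  have hv0 : deriv c 0 = v := by
    rw [hvel 0, hφ.zero]
    unfold vel
    exact hop p v
  have hc1e : c 1 = expo φ g p v := by
    have := hexp 1 v
    rw [one_smul] at this
    exact this
  have hτ : ∀ t, HasDerivAt (fun s => τ (c s) - s * g.val p (V p) v) 0 t := by
    intro t
    have h1 : HasDerivAt (fun s => τ (c s)) (fderiv ℝ τ (c t) (deriv c t)) t :=
      ((hA.smoothT.differentiable (by norm_num)) (c t)).hasFDerivAt.comp_hasDerivAt t (hc1 t)
    have h2 := h1.sub ((hasDerivAt_id t).mul_const (g.val p (V p) v))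
    rw [hA.grad, hk0 t, hc0, hv0, one_mul, sub_self] at h2
    exact h2
  have h3 := is_const_of_deriv_eq_zero (fun s => (hτ s).differentiableAt) (fun s => (hτ s).deriv) 1 0
  simp only [hc0, hc1e, one_mul, zero_mul, sub_zero] at h3
  linarith

end Pool.Agent.LQT
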