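import Pool.Agent.Work.MP_13b5d9_gt.LQ.RStmts

/-!
# MP_13b5d9_gt, block LQ, item RG: convergence of the metrics in adapted coordinates
-/

set_option autoImplicit false

open MeasureTheory Set Filter Topology
open scoped ContDiff ENNReal

namespace Pool.Agent.LQR

open Pool.Agent.MLS Pool.Agent.EC Pool.Agent.STR Pool.Agent.DR

namespace IRG

/-- derivative with respect to the second variable -/
noncomputable def dy {n : ℕ} (Y : ℝ × E n → E n) (p : ℝ × E n) : E n →L[ℝ] E n :=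
  (fderiv ℝ Y p).comp (ContinuousLinearMap.inr ℝ ℝ (E n))

theorem dy_smooth {n : ℕ} {Y : ℝ × E n → E n} (hY : ContDiff ℝ ∞ Y) : ContDiff ℝ ∞ (dy Y) := by
  have h1 : ContDiff ℝ ∞ (fderiv ℝ Y) := hY.fderiv_right (by norm_num)
  exact h1.clm_comp contDiff_const

theorem dy_eq {n : ℕ} {Y : ℝ × E n → E n} (hY : ContDiff ℝ ∞ Y) (s : ℝ) (y : E n) :
    fderiv ℝ (fun x => Y (s, x)) y = dy Y (s, y) := by
  have h1 : HasFDerivAt Y (fderiv ℝ Y (s, y)) (s, y) :=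
    (hY.differentiable (by simp) (s, y)).hasFDerivAt
  have h2 : HasFDerivAt (fun x : E n => (s, x)) (ContinuousLinearMap.inr ℝ ℝ (E n)) y :=
    hasFDerivAt_prodMk_right s y
  exact (h1.comp y h2).fderiv

theorem smul_aux {X V : Type} [NormedAddCommGroup X] [NormedSpace ℝ X] [NormedAddCommGroup V]
    [NormedSpace ℝ V] {c : X → ℝ} {f : X → V} (hc : ContDiff ℝ ∞ c) (hf : ContDiff ℝ ∞ f) :
    ContDiff ℝ ∞ (fun x => c x • f x) := hc.smul hf

/-- the jointly smooth family -/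
noncomputable def HH {n : ℕ} (lt : ℝ → ℝ) (F : ℝ → Form n) (Y : ℝ × E n → E n)
    (p : ℝ × E n) : E n →L[ℝ] E n →L[ℝ] ℝ :=
  (1 / lt p.1 ^ 2) • ((ContinuousLinearMap.compL ℝ (E n) (E n) ℝ).flip (dy Y p)).comp
    (((F p.1).val (Y p)).comp (dy Y p))

theorem HH_smooth {n : ℕ} {lt : ℝ → ℝ} {F : ℝ → Form n} {Y : ℝ × E n → E n}
    (hl : ContDiff ℝ ∞ lt) (hl0 : ∀ s, lt s ≠ 0) (hF : Fam n F) (hY : ContDiff ℝ ∞ Y) :
    ContDiff ℝ ∞ (HH lt F Y) := by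
  have h1 := dy_smooth hY
  have h2 : ContDiff ℝ ∞ (fun p : ℝ × E n => (F p.1).val (Y p)) :=
    hF.smooth.comp (contDiff_fst.prodMk hY)
  have h3 : ContDiff ℝ ∞ (fun p : ℝ × E n => 1 / lt p.1 ^ 2) :=
    contDiff_const.div ((hl.comp contDiff_fst).pow 2) fun p => pow_ne_zero 2 (hl0 _)
  exact smul_aux h3 (((ContinuousLinearMap.contDiff _).comp h1).clm_comp (h2.clm_comp h1))

theorem pb_eq {n : ℕ} {lt : ℝ → ℝ} {F : ℝ → Form n} {Y : ℝ × E n → E n}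
    (hY : ContDiff ℝ ∞ Y) (s : ℝ) (Ψ : E n → E n) (U : Set (E n)) (hU : IsOpen U)
    (h : ∀ y ∈ U, Ψ y = Y (s, y)) (y : E n) (hy : y ∈ U) :
    pb (1 / lt s ^ 2) (F s) Ψ y = HH lt F Y (s, y) := by
  have h1 : Ψ =ᶠ[𝓝 y] fun x => Y (s, x) := by
    filter_upwards [hU.mem_nhds hy] with x hx
    exact h x hx
  have h2 : fderiv ℝ Ψ y = dy Y (s, y) := by
    rw [h1.fderiv_eq, dy_eq hY]
  unfold pb HH
  rw [h2, h y hy]

end IRG

theorem pr_RG (h1 : StRV) (h2 : StRY) (h3 : StRSoft) : StRG := by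
  intro m Γ G _ _ _ _ p k F z l V τ ψ hC K i ε hK hε
  obtain ⟨R0, hR0⟩ := hK.isBounded.subset_closedBall 0
  obtain ⟨⟨lt, hlt, hlt0, hlt1, hltj⟩, _⟩ := h1 m Γ G p k F z l V τ ψ hC
  obtain ⟨Y, hY, hY0, hYj⟩ := h2 m Γ G p k F z l V τ ψ hC (R0 + 1)
  have hne : ∀ s, lt s ≠ 0 := fun s => by
    have := hlt1 s
    intro h
    rw [h] at this
    norm_num at this
  have hH := IRG.HH_smooth hlt hne hC.fam hY
  obtain ⟨δ, hδ, hsoft⟩ := h3 (E (m + 1)) (E (m + 1) →L[ℝ] E (m + 1) →L[ℝ] ℝ)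
    (IRG.HH lt F Y) hH K i ε hK hε
  have hsj : Tendsto sj atTop (𝓝 0) :=
    tendsto_pow_atTop_nhds_zero_of_lt_one (by norm_num) (by norm_num)
  have hsδ : ∀ᶠ j in atTop, |sj j| < δ := by
    have h4 : Tendsto (fun j => |sj j|) atTop (𝓝 |(0 : ℝ)|) := hsj.abs
    rw [abs_zero] at h4
    exact h4.eventually_lt_const hδ
  set U : Set (E (m + 1)) := Metric.ball 0 (R0 + 1) with hU
  have hUo : IsOpen U := Metric.isOpen_ball
  have hUn : ∀ y ∈ U, ‖y‖ ≤ R0 + 1 := fun y hy => by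
    rw [hU, mem_ball_zero_iff] at hy
    exact hy.le
  have hKU : ∀ y ∈ K, y ∈ U := fun y hy => by
    have h5 := hR0 hy
    rw [mem_closedBall_zero_iff] at h5
    rw [hU, mem_ball_zero_iff]
    linarith
  -- the limit
  have hlim : ∀ y ∈ U, IRG.HH lt F Y (0, y) = (F 0).val y := by
    intro y hy
    have h6 := IRG.pb_eq (lt := lt) (F := F) hY 0 (fun x => x) U hUo
      (fun x hx => (hY0 x (hUn x hx)).symm) y hy
    rw [← h6]
    unfold pb
    rw [hlt0, fderiv_fun_id]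
    ext u v
    simp
  filter_upwards [hltj, hYj, hsδ] with j e1 e2 e3 y hy
  have e4 : (pb (1 / l j ^ 2) (F (sj j)) (Ps (l j) (τ j) (ψ j))) =ᶠ[𝓝 y]
      fun x => IRG.HH lt F Y (sj j, x) := by
    filter_upwards [hUo.mem_nhds (hKU y hy)] with x hx
    rw [e1]
    exact IRG.pb_eq hY (sj j) _ U hUo (fun w hw => by rw [← e1]; exact e2 w (hUn w hw)) x hx
  have e5 : (F 0).val =ᶠ[𝓝 y] fun x => IRG.HH lt F Y (0, x) := by
    filter_upwards [hUo.mem_nhds (hKU y hy)] with x hx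
    exact (hlim x hx).symm
  rw [(e4.iteratedFDeriv ℝ i).eq_of_nhds, (e5.iteratedFDeriv ℝ i).eq_of_nhds]
  exact hsoft (sj j) e3 y hy

end Pool.Agent.LQR
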