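import Pool.Agent.Work.MP_13b5d9_gt.LQ.TStmts
import Pool.Agent.Work.MP_13b5d9_gt.LQ.I_RG

/-!
# MP_13b5d9_gt, block LQ, item TG: convergence of the metrics in adapted coordinates, part T
-/

set_option autoImplicit false

open MeasureTheory Set Filter Topology
open scoped ContDiff ENNReal

namespace Pool.Agent.LQT

open Pool.Agent.MLS Pool.Agent.EC Pool.Agent.STR Pool.Agent.DR Pool.Agent.LQR

theorem pr_TG (h1 : TV) (h2 : TY) (h3 : StRSoft) : TG := by
  intro m Γ G _ _ _ _ p k f F z l V τ ψ hC g0' hpb K i ε hK hε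
  obtain ⟨R0, hR0⟩ := hK.isBounded.subset_closedBall 0
  obtain ⟨⟨lt, hlt, hlt0, hlt1, hltj⟩, _⟩ := h1 m Γ G p k f F z l V τ ψ hC
  obtain ⟨Y, hY, hY0, hYj⟩ := h2 m Γ G p k f F z l V τ ψ hC (R0 + 1)
  have hne : ∀ s, lt s ≠ 0 := fun s => by
    have := hlt1 s
    intro h
    rw [h] at this
    norm_num at this
  have hH := IRG.HH_smooth hlt hne hC.fam hY
  obtain ⟨δ, hδ, hsoft⟩ := h3 (E (m + 1)) (E (m + 1) →L[ℝ] E (m + 1) →L[ℝ] ℝ)
    (IRG.HH lt F Y) hH K i ε hK hε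
  have hsj : Tendsto sj atTop (𝓝 0) :=
    tendsto_pow_atTop_nhds_zero_of_lt_one (by norm_num) (by norm_num)
  have hsδ : ∀ᶠ j in atTop, |sj j| < δ := by
    have h4 : Tendsto (fun j => |sj j|) atTop (𝓝 |(0 : ℝ)|) := hsj.abs
    rw [abs_zero] at h4
    exact h4.eventually_lt_const hδ
  set U : Set (E (m + 1)) := Metric.ball 0 (R0 + 1) with hU
  have hUo : IsOpen U := Metric.isOpen_ball
  have hUn : ∀ y ∈ U, ‖y‖ ≤ R0 + 1 := fun y hy => by
    rw [hU, mem_ball_zero_iff] at hy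
    exact hy.le
  have hKU : ∀ y ∈ K, y ∈ U := fun y hy => by
    have h5 := hR0 hy
    rw [mem_closedBall_zero_iff] at h5
    rw [hU, mem_ball_zero_iff]
    linarith
  -- the limit
  have hlim : ∀ y ∈ U, IRG.HH lt F Y (0, y) = g0'.val y := by
    intro y hy
    have h6 := IRG.pb_eq (lt := lt) (F := F) hY 0 (Sf f) U hUo
      (fun x hx => (hY0 x (hUn x hx)).symm) y hy
    rw [← h6]
    unfold pb
    rw [hlt0]
    ext u v
    rw [hpb y u v]
    simp
  filter_upwards [hltj, hYj, hsδ] with j e1 e2 e3 y hy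
  have e4 : (pb (1 / l j ^ 2) (F (sj j)) (Ps (l j) (τ j) (ψ j))) =ᶠ[𝓝 y]
      fun x => IRG.HH lt F Y (sj j, x) := by
    filter_upwards [hUo.mem_nhds (hKU y hy)] with x hx
    rw [e1]
    exact IRG.pb_eq hY (sj j) _ U hUo (fun w hw => by rw [← e1]; exact e2 w (hUn w hw)) x hx
  have e5 : g0'.val =ᶠ[𝓝 y] fun x => IRG.HH lt F Y (0, x) := by
    filter_upwards [hUo.mem_nhds (hKU y hy)] with x hx
    exact (hlim x hx).symm
  rw [(e4.iteratedFDeriv ℝ i).eq_of_nhds, (e5.iteratedFDeriv ℝ i).eq_of_nhds]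
  exact hsoft (sj j) e3 y hy

end Pool.Agent.LQT
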