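import Pool.Agent.Work.MP_13b5d9_gt.LQ.TStmts

set_option autoImplicit false

/-!
# MP_13b5d9_gt, block LQ, part T, item TGm: the group of a split metric
-/

open MeasureTheory Set Filter Topology
open scoped ContDiff ENNReal

namespace Pool.Agent.LQT

open Pool.Agent.MLS Pool.Agent.EC Pool.Agent.STR Pool.Agent.DR Pool.Agent.LQR

namespace ITGm

theorem hom_zpow {G : Type} [Group G] {A : Type} [AddCommGroup A] (h : G → A)
    (hh : ∀ a b, h (a * b) = h a + h b) (a : G) (i : ℤ) : h (a ^ i) = i • h a := by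
  let H : Additive G →+ A := AddMonoidHom.mk' (fun x => h x.toMul) (fun x y => hh _ _)
  exact map_zsmul H i (Additive.ofMul a)

/-- the elements fixing a point -/
def St {G X : Type} [Group G] (f : G → X → X) (h1 : ∀ u, f 1 u = u)
    (hm : ∀ a b u, f (a * b) u = f a (f b u)) (u : X) : Subgroup G where
  carrier := {a | f a u = u}
  mul_mem' := by
    intro a b ha hb
    show f (a * b) u = u
    rw [hm, show f b u = u from hb]
    exact ha
  one_mem' := h1 u
  inv_mem' := by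
    intro a ha
    show f a⁻¹ u = u
    have h2 : f a u = u := ha
    calc f a⁻¹ u = f a⁻¹ (f a u) := by rw [h2]
      _ = u := by rw [← hm, inv_mul_cancel, h1]

/-- reduction modulo `l` -/
theorem floor_mem {l : ℝ} (hl : 0 < l) (s : ℝ) : s + ((-⌊s / l⌋ : ℤ) : ℝ) * l ∈ Icc 0 l := by
  have h1 := Int.floor_le (s / l)
  have h2 := Int.lt_floor_add_one (s / l)
  rw [le_div_iff₀ hl] at h1
  rw [div_lt_iff₀ hl] at h2
  push_cast
  constructor
  · linarith
  · linarith

end ITGm

open ITGm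

theorem pr_TGm : TGm := by
  intro m G _ _ hG z k hk hkz g l κ Θ hS
  obtain ⟨hl, -, hΘ, hΘs, -, hdeck, hzt⟩ := hS
  choose f h hdeck using hdeck
  -- basic identities
  have hfeq : ∀ (a : G) (u : E m) (t : ℝ), Θ (a • Θ.symm (u, t)) = (f a u, t + h a) := by
    intro a u t
    rw [hdeck, Equiv.apply_symm_apply]
  have hmul2 : ∀ (a b : G) (u : E m) (t : ℝ),
      ((f (a * b) u, t + h (a * b)) : E m × ℝ) = (f a (f b u), t + h b + h a) := by
    intro a b u t
    rw [← hfeq, mul_smul, hdeck a, hfeq]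
  have hfm : ∀ a b u, f (a * b) u = f a (f b u) := fun a b u =>
    congrArg Prod.fst (hmul2 a b u 0)
  have hhm : ∀ a b, h (a * b) = h a + h b := by
    intro a b
    have h1 : (0 : ℝ) + h (a * b) = 0 + h b + h a := congrArg Prod.snd (hmul2 a b 0 0)
    linarith
  have hone : ∀ u, f 1 u = u := by
    intro u
    have h1 := hfeq 1 u 0
    rw [one_smul, Equiv.apply_symm_apply] at h1
    exact (congrArg Prod.fst h1).symm
  have hz1 : ∀ u, f z u = u := by
    intro u
    have h1 := hfeq z u 0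
    rw [hzt, Equiv.apply_symm_apply] at h1
    exact (congrArg Prod.fst h1).symm
  have hz2 : h z = l := by
    have h1 := hfeq z 0 0
    rw [hzt, Equiv.apply_symm_apply] at h1
    have h2 : (0 : ℝ) + l = 0 + h z := congrArg Prod.snd h1
    linarith
  have hfaith : ∀ a b : G, (∀ u, f a u = f b u) → h a = h b → a = b := by
    intro a b h1 h2
    have h3 : Θ (a • Θ.symm (0, 0)) = Θ (b • Θ.symm (0, 0)) := by rw [hfeq, hfeq, h1, h2]
    have h4 : a • Θ.symm (0, 0) = b • Θ.symm (0, 0) := Θ.injective h3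
    have h5 : (b⁻¹ * a) • Θ.symm (0, 0) = Θ.symm (0, 0) := by
      rw [mul_smul, h4, inv_smul_smul]
    exact (inv_mul_eq_one.1 (hG.free _ _ h5)).symm
  have hcom : ∀ a : G, Commute z a := by
    intro a
    refine hfaith _ _ (fun u => ?_) ?_
    · rw [hfm, hfm, hz1, hz1]
    · rw [hhm, hhm, add_comm]
  have hzf : ∀ (j : ℤ) (u : E m), f (z ^ j) u = u := fun j u =>
    (St f hone hfm u).zpow_mem (hz1 u) j
  have hzh : ∀ j : ℤ, h (z ^ j) = j * l := by
    intro j
    rw [hom_zpow h hhm, hz2, zsmul_eq_mul]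
  have hzk : ∀ j : ℤ, k (z ^ j) = j := by
    intro j
    rw [hom_zpow k hk, hkz, smul_eq_mul, mul_one]
  have hk1 : k 1 = 0 := by
    have h1 := hk 1 1
    rw [mul_one] at h1
    omega
  -- the subgroup
  let kk : G →* Multiplicative ℤ := MonoidHom.mk' (fun a => Multiplicative.ofAdd (k a))
    (fun a b => by rw [hk, ofAdd_add])
  have hker : ∀ a : G, a ∈ kk.ker ↔ k a = 0 := by
    intro a
    rw [MonoidHom.mem_ker]
    exact Iff.rfl
  let act : MulAction kk.ker (E m) :=
    { smul := fun γ u => f (γ : G) u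
      one_smul := fun u => hone u
      mul_smul := fun a b u => hfm a b u }
  let p : G →* kk.ker := MonoidHom.mk' (fun a => ⟨a * z ^ (-(k a)), by
      rw [hker, hk, hzk]
      ring⟩) (fun a b => by
      apply Subtype.ext
      show a * b * z ^ (-(k (a * b))) = a * z ^ (-(k a)) * (b * z ^ (-(k b)))
      have h1 : z ^ (-(k (a * b))) = z ^ (-(k a)) * z ^ (-(k b)) := by
        rw [← zpow_add, hk]
        congr 1
        ring
      rw [h1]
      have h2 : b * z ^ (-(k a)) = z ^ (-(k a)) * b := ((hcom b).zpow_left _).eq.symm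
      calc a * b * (z ^ (-(k a)) * z ^ (-(k b))) = a * (b * z ^ (-(k a))) * z ^ (-(k b)) := by
            group
        _ = a * z ^ (-(k a)) * (b * z ^ (-(k b))) := by
            rw [h2]
            group)
  have hp : ∀ a : G, ((p a : kk.ker) : G) = a * z ^ (-(k a)) := fun a => rfl
  have hpf : ∀ (a : G) (u : E m), f ((p a : kk.ker) : G) u = f a u := by
    intro a u
    rw [hp, hfm, hzf]
  have hph : ∀ a : G, h ((p a : kk.ker) : G) = h a - k a * l := by
    intro a
    rw [hp, hhm, hzh]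
    push_cast
    ring
  have hpz : ∀ (γ : kk.ker) (j : ℤ), p ((γ : G) * z ^ j) = γ := by
    intro γ j
    apply Subtype.ext
    have h1 : k (γ : G) = 0 := (hker _).1 γ.2
    rw [hp, hk, h1, hzk, zero_add, mul_assoc, ← zpow_add, add_neg_cancel, zpow_zero,
      mul_one]
  refine ⟨kk.ker, inferInstance, act, p, fun γ => h (γ : G) / l, ⟨fun γ => ?_, fun γ u hu => ?_,
    fun K hK => ?_, ?_⟩, fun a b => ?_, fun γ j => ?_, fun a x => ?_⟩
  · -- smooth
    have h1 : (fun u : E m => γ • u) = fun u => (Θ ((γ : G) • Θ.symm (u, 0))).1 := by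
      funext u
      rw [hfeq]
      rfl
    rw [h1]
    have h2 : ContDiff ℝ ∞ fun u : E m => ((u, (0 : ℝ)) : E m × ℝ) :=
      contDiff_id.prodMk contDiff_const
    exact contDiff_fst.comp (hΘ.comp ((hG.smooth (γ : G)).comp (hΘs.comp h2)))
  · -- free
    have hu' : f (γ : G) u = u := hu
    have hkγ : k (γ : G) = 0 := (hker _).1 γ.2
    set j : ℤ → ℤ := fun i => -⌊(i : ℝ) * h (γ : G) / l⌋ with hj
    set b : ℤ → G := fun i => (γ : G) ^ i * z ^ (j i) with hb
    set K : Set (E (m + 1)) := Θ.symm '' ({u} ×ˢ Icc 0 l) with hK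
    have hKc : IsCompact K := (isCompact_singleton.prod isCompact_Icc).image hΘs.continuous
    have hfin := hG.proper K hKc
    have hbΘ : ∀ i : ℤ, Θ (b i • Θ.symm (u, 0)) = (u, 0 + ((i : ℝ) * h (γ : G) + (j i) * l)) := by
      intro i
      rw [hfeq, hb]
      simp only
      rw [hfm, hzf, hhm, hzh, hom_zpow h hhm, zsmul_eq_mul]
      rw [show f ((γ : G) ^ i) u = u from (St f hone hfm u).zpow_mem hu' i]
    have hbK : ∀ i : ℤ, b i ∈ {a : G | ((fun x : E (m + 1) => a • x) '' K ∩ K).Nonempty} := by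
      intro i
      refine ⟨b i • Θ.symm (u, 0), ⟨Θ.symm (u, 0), ⟨(u, 0), ⟨rfl, ⟨le_rfl, hl.le⟩⟩, rfl⟩, rfl⟩,
        ⟨Θ (b i • Θ.symm (u, 0)), ?_, by rw [Equiv.symm_apply_apply]⟩⟩
      rw [hbΘ, zero_add]
      exact ⟨rfl, floor_mem hl _⟩
    obtain ⟨i, -, i', -, hii, hbb⟩ := Set.infinite_univ.exists_ne_map_eq_of_mapsTo
      (fun i _ => hbK i) hfin
    have hkj : ∀ i : ℤ, k (b i) = j i := by
      intro i
      rw [hb]
      simp only
      rw [hk, hzk, hom_zpow k hk, hkγ, smul_zero, zero_add]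
    have hjj : j i = j i' := by rw [← hkj, ← hkj, hbb]
    have hγγ : (γ : G) ^ i = (γ : G) ^ i' := by
      have h1 : (γ : G) ^ i * z ^ (j i) = (γ : G) ^ i' * z ^ (j i') := hbb
      rw [hjj] at h1
      exact mul_right_cancel h1
    have hhγ : h (γ : G) = 0 := by
      have h1 : h ((γ : G) ^ i) = h ((γ : G) ^ i') := by rw [hγγ]
      rw [hom_zpow h hhm, hom_zpow h hhm, zsmul_eq_mul, zsmul_eq_mul] at h1
      by_contra hne
      exact hii (by exact_mod_cast mul_right_cancel₀ hne h1)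
    have hfix : (γ : G) • Θ.symm (u, 0) = Θ.symm (u, 0) := by
      apply Θ.injective
      rw [hfeq, Equiv.apply_symm_apply, hu', hhγ, add_zero]
    exact Subtype.ext (hG.free _ _ hfix)
  · -- proper
    set K1 : Set (E (m + 1)) := Θ.symm '' (K ×ˢ Icc 0 l) with hK1
    have hKc : IsCompact K1 := (hK.prod isCompact_Icc).image hΘs.continuous
    have hfin := hG.proper K1 hKc
    refine (hfin.image p).subset ?_
    rintro γ ⟨_, ⟨u, hu, rfl⟩, hv⟩
    have hv' : f (γ : G) u ∈ K := hv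
    set j : ℤ := -⌊h (γ : G) / l⌋ with hj
    refine ⟨(γ : G) * z ^ j, ?_, hpz γ j⟩
    refine ⟨((γ : G) * z ^ j) • Θ.symm (u, 0), ⟨Θ.symm (u, 0),
      ⟨(u, 0), ⟨hu, ⟨le_rfl, hl.le⟩⟩, rfl⟩, rfl⟩,
      ⟨Θ (((γ : G) * z ^ j) • Θ.symm (u, 0)), ?_, by rw [Equiv.symm_apply_apply]⟩⟩
    rw [hfeq, hfm, hzf, hhm, hzh, zero_add]
    exact ⟨hv', floor_mem hl _⟩
  · -- cocompact
    obtain ⟨K0, hK0, hcov⟩ := hG.cocompact
    refine ⟨(fun x => (Θ x).1) '' K0, hK0.image (continuous_fst.comp hΘ.continuous), fun u => ?_⟩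
    obtain ⟨a, ha⟩ := hcov (Θ.symm (u, 0))
    refine ⟨p a, a • Θ.symm (u, 0), ha, ?_⟩
    show (Θ (a • Θ.symm (u, 0))).1 = f ((p a : kk.ker) : G) u
    rw [hfeq, hpf]
  · -- additivity
    show h ((a : G) * (b : G)) / l = h (a : G) / l + h (b : G) / l
    rw [hhm, add_div]
  · -- unique lift
    have hkγ : k (γ : G) = 0 := (hker _).1 γ.2
    refine ⟨(γ : G) * z ^ j, ⟨hpz γ j, by rw [hk, hkγ, hzk, zero_add]⟩, ?_⟩
    rintro a ⟨ha1, ha2⟩
    have h1 : a * z ^ (-(k a)) = (γ : G) := by rw [← hp, ha1]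
    rw [← h1, ha2, mul_assoc, ← zpow_add, neg_add_cancel, zpow_zero, mul_one]
  · -- the formula
    show Θ (a • x) = (f ((p a : kk.ker) : G) (Θ x).1,
      (Θ x).2 + l * (k a + h ((p a : kk.ker) : G) / l))
    rw [hpf, hph, hdeck]
    congr 2
    field_simp
    ring

end Pool.Agent.LQT
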