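import Pool.Agent.Work.MP_13b5d9_gt.LQ.TStmts

set_option autoImplicit false

/-!
# MP_13b5d9_gt, block LQ, part T, item THy: coordinates of a hyperplane
-/

open MeasureTheory Set Filter Topology
open scoped ContDiff ENNReal

namespace Pool.Agent.LQT

open Pool.Agent.MLS Pool.Agent.EC Pool.Agent.STR Pool.Agent.DR Pool.Agent.LQR

theorem pr_THy : THy := by
  intro m b hb
  have hbl : (b : E (m + 1) →ₗ[ℝ] ℝ) ≠ 0 := by
    intro h
    apply hb
    ext v
    exact LinearMap.congr_fun h v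
  have hfr : Module.finrank ℝ (LinearMap.ker (b : E (m + 1) →ₗ[ℝ] ℝ)) = m := by
    have h1 := Module.Dual.finrank_ker_add_one_of_ne_zero (K := ℝ) (V₁ := E (m + 1))
      (f := (b : E (m + 1) →ₗ[ℝ] ℝ)) hbl
    rw [finrank_euclideanSpace_fin] at h1
    omega
  have hfr2 : Module.finrank ℝ (E m) =
      Module.finrank ℝ (LinearMap.ker (b : E (m + 1) →ₗ[ℝ] ℝ)) := by
    rw [hfr, finrank_euclideanSpace_fin]
  let e : E m ≃ₗ[ℝ] LinearMap.ker (b : E (m + 1) →ₗ[ℝ] ℝ) := LinearEquiv.ofFinrankEq _ _ hfr2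
  obtain ⟨w0, hw0⟩ : ∃ w, b w ≠ 0 := by
    by_contra hcon
    push Not at hcon
    exact hb (ContinuousLinearMap.ext hcon)
  obtain ⟨w, hw⟩ : ∃ w, b w = 1 := ⟨(b w0)⁻¹ • w0, by
    rw [map_smul, smul_eq_mul, inv_mul_cancel₀ hw0]⟩
  let pl : E (m + 1) →ₗ[ℝ] LinearMap.ker (b : E (m + 1) →ₗ[ℝ] ℝ) :=
    LinearMap.codRestrict _ (LinearMap.id - (b : E (m + 1) →ₗ[ℝ] ℝ).smulRight w) (by
      intro v
      rw [LinearMap.mem_ker]
      show b (v - b v • w) = 0
      rw [map_sub, map_smul, hw, smul_eq_mul, mul_one, sub_self])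
  have hpl : ∀ v, ((pl v : LinearMap.ker (b : E (m + 1) →ₗ[ℝ] ℝ)) : E (m + 1)) = v - b v • w :=
    fun v => rfl
  let I0 : E m →ₗ[ℝ] E (m + 1) := (Submodule.subtype _).comp e.toLinearMap
  let J0 : E (m + 1) →ₗ[ℝ] E m := e.symm.toLinearMap.comp pl
  have hker : ∀ u, b (I0 u) = 0 := fun u => (e u).2
  refine ⟨LinearMap.toContinuousLinearMap I0, LinearMap.toContinuousLinearMap J0, ?_, hker, ?_⟩
  · intro u
    show e.symm (pl (I0 u)) = u
    have h1 : pl (I0 u) = e u := by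
      apply Subtype.ext
      rw [hpl, hker, zero_smul, sub_zero]
      rfl
    rw [h1, LinearEquiv.symm_apply_apply]
  · intro v hv
    show ((e (e.symm (pl v)) : LinearMap.ker (b : E (m + 1) →ₗ[ℝ] ℝ)) : E (m + 1)) = v
    rw [LinearEquiv.apply_symm_apply, hpl, hv, zero_smul, sub_zero]

end Pool.Agent.LQT
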