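import Mathlib
import Pool.Agent.Work.MP_13b5d9_gt.LQ.TStmts
import Pool.Agent.Work.MP_25cd3b_gt.NG.All

set_option autoImplicit false

/-!
# MP_13b5d9_gt, block LQ, part T, item TIs: the flow of a parallel field consists of isometries
-/

open MeasureTheory Set Filter Topology
open scoped ContDiff ENNReal
open Pool.Agent.Work.MP_c9f990_an.Al (IsFlow)

namespace Pool.Agent.LQT

open Pool.Agent.MLS Pool.Agent.EC Pool.Agent.STR Pool.Agent.DR Pool.Agent.LQR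

namespace ITIs

variable {n : ℕ}

/-- the derivative of the flow with respect to the point, as a derivative of the joint map -/
theorem dpsi {ψ : ℝ → E n → E n} (hψ : ContDiff ℝ ∞ (fun p : ℝ × E n => ψ p.1 p.2)) (s : ℝ)
    (x u : E n) : fderiv ℝ (ψ s) x u = fderiv ℝ (fun p : ℝ × E n => ψ p.1 p.2) (s, x) (0, u) := by
  have h1 : HasFDerivAt (fun p : ℝ × E n => ψ p.1 p.2)
      (fderiv ℝ (fun p : ℝ × E n => ψ p.1 p.2) (s, x)) (s, x) :=
    ((hψ.differentiable (by norm_num)) (s, x)).hasFDerivAt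
  have h2 : HasFDerivAt (fun y : E n => (s, y)) (ContinuousLinearMap.inr ℝ ℝ (E n)) x := by
    exact hasFDerivAt_prodMk_right s x
  have h3 := h1.comp x h2
  have h4 : fderiv ℝ (ψ s) x = (fderiv ℝ (fun p : ℝ × E n => ψ p.1 p.2) (s, x)).comp
      (ContinuousLinearMap.inr ℝ ℝ (E n)) := h3.fderiv
  rw [h4]
  rfl

/-- the derivative with respect to the time -/
theorem dtime {ψ : ℝ → E n → E n} {V : E n → E n}
    (hψ : ContDiff ℝ ∞ (fun p : ℝ × E n => ψ p.1 p.2))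
    (ho : ∀ x t, HasDerivAt (fun s => ψ s x) (V (ψ t x)) t) (p : ℝ × E n) :
    fderiv ℝ (fun p : ℝ × E n => ψ p.1 p.2) p (1, 0) = V (ψ p.1 p.2) := by
  obtain ⟨s, x⟩ := p
  have h1 : HasFDerivAt (fun p : ℝ × E n => ψ p.1 p.2)
      (fderiv ℝ (fun p : ℝ × E n => ψ p.1 p.2) (s, x)) (s, x) :=
    ((hψ.differentiable (by norm_num)) (s, x)).hasFDerivAt
  have h2 : HasDerivAt (fun r : ℝ => (r, x)) ((1 : ℝ), (0 : E n)) s :=
    (hasDerivAt_id s).prodMk (hasDerivAt_const s x)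
  have h3 := h1.comp_hasDerivAt s h2
  exact h3.unique (ho x s)

/-- the variational equation -/
theorem var {ψ : ℝ → E n → E n} {V : E n → E n}
    (hψ : ContDiff ℝ ∞ (fun p : ℝ × E n => ψ p.1 p.2)) (hV : ContDiff ℝ ∞ V)
    (ho : ∀ x t, HasDerivAt (fun s => ψ s x) (V (ψ t x)) t) (x u : E n) (t : ℝ) :
    HasDerivAt (fun s => fderiv ℝ (ψ s) x u) (fderiv ℝ V (ψ t x) (fderiv ℝ (ψ t) x u)) t := by
  set Ψ : ℝ × E n → E n := fun p => ψ p.1 p.2 with hΨ
  have hfd : ContDiff ℝ ∞ (fderiv ℝ Ψ) := hψ.fderiv_right (by norm_num)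
  have h1 : HasFDerivAt (fderiv ℝ Ψ) (fderiv ℝ (fderiv ℝ Ψ) (t, x)) (t, x) :=
    ((hfd.differentiable (by norm_num)) (t, x)).hasFDerivAt
  have h2 : HasDerivAt (fun r : ℝ => (r, x)) ((1 : ℝ), (0 : E n)) t :=
    (hasDerivAt_id t).prodMk (hasDerivAt_const t x)
  have h3 : HasDerivAt (fun r : ℝ => fderiv ℝ Ψ (r, x)) (fderiv ℝ (fderiv ℝ Ψ) (t, x) (1, 0)) t :=
    h1.comp_hasDerivAt t h2
  have h4 : HasDerivAt (fun r : ℝ => fderiv ℝ Ψ (r, x) ((0 : ℝ), u))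
      (fderiv ℝ (fderiv ℝ Ψ) (t, x) (1, 0) ((0 : ℝ), u)) t := by
    have := h3.clm_apply (hasDerivAt_const t ((0 : ℝ), u))
    simpa using this
  have hsym : IsSymmSndFDerivAt ℝ Ψ (t, x) :=
    (hψ.contDiffAt (x := (t, x))).isSymmSndFDerivAt
      (by simp only [minSmoothness_of_isRCLikeNormedField]; exact WithTop.coe_le_coe.2 (le_top : (2 : ℕ∞) ≤ ⊤))
  have e1 : fderiv ℝ (fderiv ℝ Ψ) (t, x) (1, 0) ((0 : ℝ), u) =
      fderiv ℝ (fderiv ℝ Ψ) (t, x) ((0 : ℝ), u) (1, 0) := hsym.eq _ _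
  have e2 : fderiv ℝ (fderiv ℝ Ψ) (t, x) ((0 : ℝ), u) (1, 0) =
      fderiv ℝ V (ψ t x) (fderiv ℝ (ψ t) x u) := by
    have f1 : HasFDerivAt (fun q => fderiv ℝ Ψ q ((1 : ℝ), (0 : E n)))
        ((fderiv ℝ (fderiv ℝ Ψ) (t, x)).flip ((1 : ℝ), (0 : E n))) (t, x) := by
      have := h1.clm_apply (hasFDerivAt_const ((1 : ℝ), (0 : E n)) (t, x))
      simpa using this
    have f2 : HasFDerivAt (fun q : ℝ × E n => V (Ψ q))
        ((fderiv ℝ V (Ψ (t, x))).comp (fderiv ℝ Ψ (t, x))) (t, x) :=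
      ((hV.differentiable (by norm_num)) (Ψ (t, x))).hasFDerivAt.comp (t, x)
        ((hψ.differentiable (by norm_num)) (t, x)).hasFDerivAt
    have f3 : (fun q => fderiv ℝ Ψ q ((1 : ℝ), (0 : E n))) = fun q : ℝ × E n => V (Ψ q) := by
      funext q
      exact dtime hψ ho q
    rw [f3] at f1
    have f4 := f1.unique f2
    have f5 := congrArg (fun L => L ((0 : ℝ), u)) f4
    rw [dpsi hψ]
    exact f5
  rw [e1, e2] at h4
  have e3 : (fun s => fderiv ℝ (ψ s) x u) = fun r : ℝ => fderiv ℝ Ψ (r, x) ((0 : ℝ), u) := by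
    funext s
    exact dpsi hψ s x u
  rw [e3]
  exact h4

end ITIs

open ITIs

theorem pr_TIs : TIs := by
  intro n G _ _ g z l V τ ψ hR hA hp t x u v
  obtain ⟨-, -, hsy, -⟩ := p_NcGa n g hR
  obtain ⟨-, hmet, -⟩ := p_NgMet n g hR
  have hX : ∀ (w : E n) (s : ℝ), HasDerivAt (fun s => fderiv ℝ (ψ s) x w)
      (fderiv ℝ V (ψ s x) (fderiv ℝ (ψ s) x w)) s := fun w s =>
    var hA.smoothF hA.smoothV hA.ode x w s
  have hcov : ∀ (w : E n) (s : ℝ), cov g (fun s => ψ s x) (fun s => fderiv ℝ (ψ s) x w) s = 0 := by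
    intro w s
    unfold cov
    rw [(hX w s).deriv, (hA.ode x s).deriv, hsy]
    exact hp (ψ s x) (fderiv ℝ (ψ s) x w)
  have hd : ∀ s : ℝ, HasDerivAt (fun s => g.val (ψ s x) (fderiv ℝ (ψ s) x u)
      (fderiv ℝ (ψ s) x v)) 0 s := by
    intro s
    have h1 := hmet (fun s => ψ s x) (fun s => fderiv ℝ (ψ s) x u) (fun s => fderiv ℝ (ψ s) x v) s
      (hA.ode x s).differentiableAt (hX u s).differentiableAt (hX v s).differentiableAt
    rw [hcov u s, hcov v s] at h1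
    simpa using h1
  have hconst := is_const_of_deriv_eq_zero (fun s => (hd s).differentiableAt)
    (fun s => (hd s).deriv) t 0
  have h0 : ψ 0 = id := by
    funext y
    exact hA.zero y
  have h2 : g.val (ψ t x) (fderiv ℝ (ψ t) x u) (fderiv ℝ (ψ t) x v) =
      g.val (ψ 0 x) (fderiv ℝ (ψ 0) x u) (fderiv ℝ (ψ 0) x v) := hconst
  rw [h2, h0]
  simp

end Pool.Agent.LQT
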