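import Pool.Agent.Work.MP_13b5d9_gt.LQ.TStmts
import Pool.Agent.Work.MP_25cd3b_gt.NG.All

set_option autoImplicit false

/-!
# TLim: the limit metric in sheared coordinates
-/

open MeasureTheory Set Filter Topology
open scoped ContDiff ENNReal
open Pool.Agent.Work.MP_c9f990_an.Al (IsFlow)

namespace Pool.Agent.LQT

open Pool.Agent.MLS Pool.Agent.EC Pool.Agent.STR Pool.Agent.DR Pool.Agent.LQR

namespace ITLim

theorem hasF {m : ℕ} (f : E m → ℝ) (hf : ContDiff ℝ ∞ f) (y : E (m + 1)) :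
    HasFDerivAt (Sf f) ((inc.comp pr : E (m + 1) →L[ℝ] E (m + 1)) +
      (ht - (fderiv ℝ f (pr y)).comp pr).smulRight eL) y := by
  have h1 : HasFDerivAt f (fderiv ℝ f (pr y)) (pr y) :=
    ((hf.differentiable (by norm_num)) _).hasFDerivAt
  have h2 : HasFDerivAt (fun x : E (m + 1) => f (pr x)) ((fderiv ℝ f (pr y)).comp pr) y :=
    h1.comp y (pr.hasFDerivAt)
  have h3 : HasFDerivAt (fun x : E (m + 1) => ht x - f (pr x))
      (ht - (fderiv ℝ f (pr y)).comp pr) y := (ht.hasFDerivAt).sub h2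
  have h4 : HasFDerivAt (fun x : E (m + 1) => inc (pr x)) (inc.comp pr) y :=
    (inc.comp pr : E (m + 1) →L[ℝ] E (m + 1)).hasFDerivAt
  exact h4.add (h3.smul_const eL)

theorem fd {m : ℕ} (f : E m → ℝ) (hf : ContDiff ℝ ∞ f) (y v : E (m + 1)) :
    fderiv ℝ (Sf f) y v = inc (pr v) + (ht v - fderiv ℝ f (pr y) (pr v)) • eL := by
  rw [(hasF f hf y).fderiv]
  rfl

theorem smooth {m : ℕ} (f : E m → ℝ) (hf : ContDiff ℝ ∞ f) : ContDiff ℝ ∞ (Sf f) := by
  have h1 : ContDiff ℝ ∞ (fun x : E (m + 1) => inc (pr x)) :=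
    (inc.comp pr : E (m + 1) →L[ℝ] E (m + 1)).contDiff
  have h2 : ContDiff ℝ ∞ (fun x : E (m + 1) => ht x - f (pr x)) :=
    ht.contDiff.sub (hf.comp pr.contDiff)
  exact h1.add (h2.smul contDiff_const)

theorem smooth' {m : ℕ} (f : E m → ℝ) (hf : ContDiff ℝ ∞ f) :
    ContDiff ℝ ∞ (fun y : E (m + 1) => jn (pr y) (ht y + f (pr y))) := by
  have h1 : ContDiff ℝ ∞ (fun x : E (m + 1) => inc (pr x)) :=
    (inc.comp pr : E (m + 1) →L[ℝ] E (m + 1)).contDiff
  have h2 : ContDiff ℝ ∞ (fun x : E (m + 1) => ht x + f (pr x)) :=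
    ht.contDiff.add (hf.comp pr.contDiff)
  exact h1.add (h2.smul contDiff_const)

/-- the conjugated action -/
def conj {n : ℕ} {G : Type} [Group G] [iG : MulAction G (E n)] (Φ : E n ≃ E n) :
    MulAction G (E n) where
  smul a y := Φ.symm (iG.smul a (Φ y))
  one_smul y := by
    change Φ.symm ((1 : G) • Φ y) = y
    rw [one_smul, Φ.symm_apply_apply]
  mul_smul a b y := by
    change Φ.symm ((a * b) • Φ y) = Φ.symm (a • Φ (Φ.symm (b • Φ y)))
    rw [Φ.apply_symm_apply, mul_smul]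

theorem conj_coc {n : ℕ} {G : Type} [Group G] [iG : MulAction G (E n)] (hG : Cocompact n G)
    (Φ : E n ≃ E n) (hΦ : ContDiff ℝ ∞ Φ) (hΦ' : ContDiff ℝ ∞ Φ.symm) :
    @Cocompact n G _ (conj Φ) := by
  refine @Cocompact.mk n G _ (conj Φ) ?_ ?_ ?_ ?_
  · intro a
    exact hΦ'.comp ((hG.smooth a).comp hΦ)
  · intro a x h
    have h1 : Φ.symm (iG.smul a (Φ x)) = x := h
    have h2 : iG.smul a (Φ x) = Φ x := (Φ.symm_apply_eq).1 h1
    exact hG.free a (Φ x) h2
  · intro K hK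
    have h1 : IsCompact (Φ '' K) := hK.image hΦ.continuous
    refine (hG.proper (Φ '' K) h1).subset ?_
    rintro a ⟨y, ⟨x, hx, hxy⟩, hy⟩
    have h2 : Φ.symm (iG.smul a (Φ x)) = y := hxy
    refine ⟨Φ y, ⟨Φ x, ⟨x, hx, rfl⟩, ?_⟩, ⟨y, hy, rfl⟩⟩
    rw [← h2, Φ.apply_symm_apply]
    rfl
  · obtain ⟨K, hK, h⟩ := hG.cocompact
    refine ⟨Φ.symm '' K, hK.image hΦ'.continuous, fun x => ?_⟩
    obtain ⟨a, ha⟩ := h (Φ x)
    exact ⟨a, ⟨_, ha, rfl⟩⟩

end ITLim

open ITLim in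
theorem pr_TLim (h1 : StRLin) (h2 : TPb) : TLim := by
  intro m Γ G _ _ _ iG p k f g0 hPd hR hInv hf hclf hT
  obtain ⟨l1, l2, l3, l4, l5, l6, l7, -, -, -, -, l12, l13⟩ := h1 m
  have s1 : ∀ y : E (m + 1), pr (Sf f y) = pr y := fun y => l6 _ _
  have s2 : ∀ y : E (m + 1), ht (Sf f y) = ht y - f (pr y) := fun y => l7 _ _
  let Φ : E (m + 1) ≃ E (m + 1) :=
    { toFun := Sf f
      invFun := fun y => jn (pr y) (ht y + f (pr y))
      left_inv := by
        intro y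
        change jn (pr (Sf f y)) (ht (Sf f y) + f (pr (Sf f y))) = y
        rw [s1, s2, sub_add_cancel]
        exact l5 y
      right_inv := by
        intro y
        change jn (pr (jn (pr y) (ht y + f (pr y)))) (ht (jn (pr y) (ht y + f (pr y))) -
          f (pr (jn (pr y) (ht y + f (pr y))))) = y
        rw [l6, l7, add_sub_cancel_right]
        exact l5 y }
  have hΦ : ContDiff ℝ ∞ Φ := smooth f hf
  have hΦ' : ContDiff ℝ ∞ Φ.symm := smooth' f hf
  obtain ⟨P, hP, hPR, -, hPI⟩ := h2 (m + 1) Φ hΦ hΦ' 1 one_pos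
  have hpb : IsPb 1 g0 (P g0) (Sf f) := hP g0
  have hD : ∀ y : E (m + 1), fderiv ℝ (Sf f) y eL = eL := by
    intro y
    rw [fd f hf, l3, map_zero, map_zero, l4, sub_zero, one_smul, zero_add]
  have hpe : ∀ (y : E (m + 1)) (s : ℝ), pr (y + s • eL) = pr y := by
    intro y s
    rw [map_add, map_smul, l3, smul_zero, add_zero]
  have hS : ∀ (y : E (m + 1)) (s : ℝ), Sf f (y + s • eL) = Sf f y + s • eL := by
    intro y s
    unfold Sf
    rw [hpe, map_add, map_smul, l4, smul_eq_mul, mul_one, add_sub_right_comm, l13]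
  refine ⟨P g0, hpb, hPR g0 hR, ?_, ?_, ?_⟩
  · intro x v
    rw [hpb x eL v, hD, one_mul, hclf, s1, fd f hf]
    rw [map_add, map_add, map_smul, map_smul, l2, l4, l1, l3, smul_zero, add_zero, zero_add,
      smul_eq_mul, mul_one, sub_add_cancel, l12]
  · intro x s
    ext u v
    rw [hpb, hpb, hS, hT, fd f hf, fd f hf, fd f hf, fd f hf, hpe]
  · have hc := conj_coc (G := G) hPd.cocG Φ hΦ hΦ'
    have hi := hPI G (conj Φ) iG hc hPd.cocG (fun a y => Φ.apply_symm_apply _) g0 hInv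
    exact @p_Flow (m + 1) G _ (conj Φ) hc (P g0) (hPR g0 hR) hi

end Pool.Agent.LQT
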