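import Mathlib
import Pool.Agent.Work.MP_25cd3b_gt.NG.All
import Pool.Agent.Work.MP_13b5d9_gt.LQ.TStmts

set_option autoImplicit false

/-!
# MP_13b5d9_gt, block LQ, part T, item TNc: pull-backs of metrics without conjugate points
-/

open MeasureTheory Set Filter Topology
open scoped ContDiff ENNReal
open Pool.Agent.Work.MP_c9f990_an.Al (IsFlow)

namespace Pool.Agent.LQT

open Pool.Agent.MLS Pool.Agent.EC Pool.Agent.STR Pool.Agent.DR Pool.Agent.LQR

namespace ITNc

variable {n : ℕ}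

/-- derivative of `DF(c)(X)` -/
theorem hasDerivAt_DF {F : E n → E n} (hF : ContDiff ℝ ∞ F) {c X : ℝ → E n} {t : ℝ} {c' X' : E n}
    (hc : HasDerivAt c c' t) (hX : HasDerivAt X X' t) :
    HasDerivAt (fun s => fderiv ℝ F (c s) (X s))
      (fderiv ℝ (fderiv ℝ F) (c t) c' (X t) + fderiv ℝ F (c t) X') t := by
  have h1 : Differentiable ℝ (fderiv ℝ F) :=
    (hF.fderiv_right (m := ∞) (by simp)).differentiable (by simp)
  have h2 : HasDerivAt (fun s => fderiv ℝ F (c s)) (fderiv ℝ (fderiv ℝ F) (c t) c') t :=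
    (h1 (c t)).hasFDerivAt.comp_hasDerivAt t hc
  exact h2.clm_apply hX

/-- derivative of `F ∘ c` -/
theorem hasDerivAt_F {F : E n → E n} (hF : ContDiff ℝ ∞ F) {c : ℝ → E n} {t : ℝ} {c' : E n}
    (hc : HasDerivAt c c' t) : HasDerivAt (fun s => F (c s)) (fderiv ℝ F (c t) c') t :=
  ((hF.differentiable (by simp)) (c t)).hasFDerivAt.comp_hasDerivAt t hc

/-- covariant derivatives -/
theorem cov_DF (h1 : TGa) {g g' : Form n} {r : ℝ} {F : E n → E n} (hr : 0 < r) (hg : Riem g)
    (hg' : Riem g') (hF : ContDiff ℝ ∞ F) (hP : IsPb r g g' F) {c X : ℝ → E n}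
    (hc : Differentiable ℝ c) (hX : Differentiable ℝ X) (t : ℝ) :
    cov g (fun s => F (c s)) (fun s => fderiv ℝ F (c s) (X s)) t =
      fderiv ℝ F (c t) (cov g' c X t) := by
  unfold cov
  rw [(hasDerivAt_DF hF (hc t).hasDerivAt (hX t).hasDerivAt).deriv,
    (hasDerivAt_F hF (hc t).hasDerivAt).deriv, map_add, h1 n g g' r F hr hg hg' hF hP]
  abel

/-- smoothness of `DF(c)(X)` -/
theorem contDiff_DF {F : E n → E n} (hF : ContDiff ℝ ∞ F) {c X : ℝ → E n} (hc : ContDiff ℝ 2 c)
    (hX : ContDiff ℝ 2 X) : ContDiff ℝ 2 (fun s => fderiv ℝ F (c s) (X s)) := by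
  have h1 : ContDiff ℝ 2 (fderiv ℝ F) := by
    have h : ContDiff ℝ ∞ (fderiv ℝ F) := hF.fderiv_right (m := ∞) (by simp)
    exact_mod_cast contDiff_infty.1 h 2
  exact (h1.comp hc).clm_apply hX

end ITNc

open ITNc

/-- No conjugate points for pull-backs. -/
theorem pr_TNc (h1 : TGa) (h2 : TRm) : TNc := by
  intro n g g' r F hr hg hg' hF hP hN c hc J hJ a b hab ha hb
  have hga := p_NcGa n g' hg'
  obtain ⟨hc2, hcd⟩ := (p_NcGeo n g' hg' c).1 hc
  have hcD : Differentiable ℝ c := hc2.differentiable (by norm_num)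
  have hJD : Differentiable ℝ J := hJ.smooth.differentiable (by norm_num)
  have hFc : ∀ t, deriv (fun s => F (c s)) t = fderiv ℝ F (c t) (deriv c t) := fun t =>
    (hasDerivAt_F hF (hcD t).hasDerivAt).deriv
  have hC : IsGeo g (fun s => F (c s)) := by
    have hF2 : ContDiff ℝ 2 F := by exact_mod_cast contDiff_infty.1 hF 2
    refine (p_NcGeo n g hg _).2 ⟨hF2.comp hc2, fun t => ?_⟩
    have e : deriv (fun s => F (c s)) = fun t => fderiv ℝ F (c t) (deriv c t) := funext hFc
    rw [e]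
    have h := hasDerivAt_DF hF (hcD t).hasDerivAt (hcd t)
    refine h.congr_deriv ?_
    rw [map_neg, h1 n g g' r F hr hg hg' hF hP]
    abel
  have hcovD : Differentiable ℝ (cov g' c J) := by
    have e1 : ContDiff ℝ 1 (deriv J) := by
      have := (contDiff_succ_iff_deriv (n := 1) (f := J)).1 (by exact_mod_cast hJ.smooth)
      exact this.2.2
    have e2 : ContDiff ℝ 1 (deriv c) := by
      have := (contDiff_succ_iff_deriv (n := 1) (f := c)).1 (by exact_mod_cast hc2)
      exact this.2.2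
    have e3 : ContDiff ℝ 1 (fun t => Ga g' (c t) (deriv c t) (J t)) :=
      (((hga.1.of_le (by exact_mod_cast le_top)).comp
        (hc2.of_le (by norm_num))).clm_apply e2).clm_apply (hJ.smooth.of_le (by norm_num))
    exact (e1.add e3).differentiable (by norm_num)
  have hcov : cov g (fun s => F (c s)) (fun s => fderiv ℝ F (c s) (J s)) =
      fun s => fderiv ℝ F (c s) (cov g' c J s) :=
    funext fun t => cov_DF h1 hr hg hg' hF hP hcD hJD t
  have hJac : IsJac g (fun s => F (c s)) (fun s => fderiv ℝ F (c s) (J s)) := by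
    refine ⟨contDiff_DF hF hc2 hJ.smooth, fun t => ?_⟩
    rw [hcov, cov_DF h1 hr hg hg' hF hP hcD hcovD, hFc,
      ← h2 n g g' r F hr hg hg' hF hP, ← map_add, hJ.jac t, map_zero]
  intro t
  have h0 := hN _ hC _ hJac a b hab (by simp only [ha, map_zero]) (by simp only [hb, map_zero]) t
  by_contra hne
  have hpos := hg' (c t) (J t) hne
  rw [hP (c t) (J t) (J t)] at hpos
  have h0' : fderiv ℝ F (c t) (J t) = 0 := h0
  rw [h0', map_zero, mul_zero] at hpos
  exact lt_irrefl _ hpos

end Pool.Agent.LQT
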