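import Pool.Agent.Work.MP_13b5d9_gt.LQ.RStmts2

set_option autoImplicit false

/-!
# MP_13b5d9_gt, block LQ, item RThm: from sequences to neighbourhoods
-/

open MeasureTheory Set Filter Topology
open scoped ContDiff ENNReal
open Pool.Agent.Work.MP_c9f990_an.Al (IsFlow)

namespace Pool.Agent.LQR

open Pool.Agent.MLS Pool.Agent.EC Pool.Agent.STR Pool.Agent.DR

namespace IRThm

/-- normalisation of the potential -/
theorem ax_norm {n : ℕ} {G : Type} [Group G] [MulAction G (E n)] {g : Form n} {z : G} {l : ℝ}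
    {V : E n → E n} {τ : E n → ℝ} {ψ : ℝ → E n → E n} (h : Axis n G g z l V τ ψ) :
    Axis n G g z l V (fun x => τ x - τ 0) ψ := by
  refine { h with smoothT := h.smoothT.sub contDiff_const, grad := ?_, height := ?_, deck := ?_ }
  · intro x v
    have h1 : fderiv ℝ (fun x => τ x - τ 0) x = fderiv ℝ τ x := by
      rw [fderiv_sub_const]
    rw [h1]
    exact h.grad x v
  · intro t x
    have := h.height t x
    simp only [this]
    ring
  · intro a
    obtain ⟨c, hc⟩ := h.deck a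
    refine ⟨c, fun x => ?_⟩
    have := hc x
    simp only [this]
    ring

theorem inv_comb {n : ℕ} {G : Type} [Group G] [MulAction G (E n)] {g0 g1 g : Form n} {θ : ℝ}
    (h0 : MLS.Inv G g0) (h1 : MLS.Inv G g1)
    (h : ∀ x, g.val x = (1 - θ) • g0.val x + θ • g1.val x) : MLS.Inv G g := by
  intro a x u v
  rw [h, h]
  have e0 := h0 a x u v
  have e1 := h1 a x u v
  simp only [ContinuousLinearMap.add_apply, ContinuousLinearMap.smul_apply, smul_eq_mul]
  rw [e0, e1]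

theorem rate (j : ℕ) : (1 : ℝ) / (((max j (2 ^ (j * j)) : ℕ) : ℝ) + 1) ≤ (1 / 2 : ℝ) ^ (j * j) := by
  rw [one_div_pow]
  apply one_div_le_one_div_of_le (by positivity)
  have h1 : (2 ^ (j * j) : ℕ) ≤ max j (2 ^ (j * j)) := le_max_right _ _
  have h2 : ((2 ^ (j * j) : ℕ) : ℝ) ≤ ((max j (2 ^ (j * j)) : ℕ) : ℝ) := by exact_mod_cast h1
  have h3 : ((2 ^ (j * j) : ℕ) : ℝ) = (2 : ℝ) ^ (j * j) := by push_cast; rfl
  linarith

end IRThm

open IRThm in
theorem pr_RThm (h1 : StRSeq) (h2 : StRCur) (h3 : STR.StAx) (h4 : StRPd) : StRThm := by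
  intro m Γ G _ _ _ _ p k hP g0 hg0 hI0 hB0 hT0
  by_contra hcon
  push Not at hcon
  choose g' hg' hI' hN' hc' hS' using hcon
  obtain ⟨hk, hV, ⟨z, hpz, hkz, hz1, hzc, hzx⟩, hd⟩ := h4 m Γ G p k hP
  let r : ℕ → ℕ := fun j => max j (2 ^ (j * j))
  have hclose : ∀ j : ℕ, ∀ i ≤ j, ∀ x : E (m + 1), ‖x‖ ≤ j →
      ‖iteratedFDeriv ℝ i (fun y => (g' (r j)).val y - g0.val y) x‖ ≤ (1 / 2 : ℝ) ^ (j * j) := by
    intro j i hi x hx
    have hjr : j ≤ r j := le_max_left _ _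
    have hjr' : (j : ℝ) ≤ (r j : ℝ) := by exact_mod_cast hjr
    exact (hc' (r j) i (hi.trans hjr) x (hx.trans hjr')).trans (rate j)
  obtain ⟨F, hF, hF0, hFj, hFc⟩ := h2 (m + 1) g0 (fun j => g' (r j)) hg0 (fun j => hg' (r j)) hclose
  have hFI : ∀ s, MLS.Inv G (F s) := by
    intro s
    obtain ⟨j, θ, -, -, hθ⟩ := hFc s
    exact inv_comb hI0 (hI' (r j)) hθ
  have hNj : ∀ j, NoConj (F (sj j)) := by
    intro j
    rw [hFj j]
    exact hN' (r j)
  have hax : ∀ j, ∃ (l : ℝ) (V : E (m + 1) → E (m + 1)) (τ : E (m + 1) → ℝ)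
      (ψ : ℝ → E (m + 1) → E (m + 1)), Axis (m + 1) G (F (sj j)) z l V τ ψ ∧ τ 0 = 0 := by
    intro j
    obtain ⟨l, V, τ, ψ, h⟩ := h3 (m + 1) G hP.cocG (F (sj j)) (hF.riem _) (hFI _) (hNj j) z hz1 hzc
    exact ⟨l, V, _, ψ, ax_norm h, by simp⟩
  choose l V τ ψ hA ht0 using hax
  have hctx : Ctx m Γ G p k F z l V τ ψ :=
    { pd := hP, fam := hF, inv := hFI, blk0 := by rw [hF0]; exact hB0,
      tinv0 := by rw [hF0]; exact hT0, zt := hzx, noc := hNj, ax := hA, t0 := ht0 }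
  obtain ⟨j, κ, Θ, hs⟩ := (h1 m Γ G p k F z l V τ ψ hctx).exists
  rw [hFj j] at hs
  exact hS' (r j) κ Θ hs

end Pool.Agent.LQR
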