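import Pool.Agent.Work.MP_13b5d9_gt.LQ.TStmts
import Pool.Agent.Work.MP_13b5d9_gt.LQ.I_RThm

set_option autoImplicit false

/-!
# MP_13b5d9_gt, block LQ, item TOpn: the set of split metrics is open
-/

open MeasureTheory Set Filter Topology
open scoped ContDiff ENNReal
open Pool.Agent.Work.MP_c9f990_an.Al (IsFlow)

namespace Pool.Agent.LQT

open Pool.Agent.MLS Pool.Agent.EC Pool.Agent.STR Pool.Agent.DR Pool.Agent.LQR

open LQR.IRThm in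
theorem pr_TOpn (h1 : TSeq) (h2 : StRCur) (h3 : STR.StAx) (h4 : StRPd) (h5 : TGm) (h6 : TPa)
    (h7 : TSt) (h8 : TXi) (h9 : TPb) (h10 : TNc) (h11 : TBk) (h12 : StRLin) : TOpn := by
  intro m G _ iG hcoc z k hk hkz g0 hg0 hI0 hS0
  obtain ⟨l0, κ0, Θ0, hSp⟩ := hS0
  by_contra hcon
  push Not at hcon
  choose g' hg' hI' hN' hc' hS' using hcon
  -- the family
  let r : ℕ → ℕ := fun j => max j (2 ^ (j * j))
  have hclose : ∀ j : ℕ, ∀ i ≤ j, ∀ x : E (m + 1), ‖x‖ ≤ j →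
      ‖iteratedFDeriv ℝ i (fun y => (g' (r j)).val y - g0.val y) x‖ ≤ (1 / 2 : ℝ) ^ (j * j) := by
    intro j i hi x hx
    have hjr : j ≤ r j := le_max_left _ _
    have hjr' : (j : ℝ) ≤ (r j : ℝ) := by exact_mod_cast hjr
    exact (hc' (r j) i (hi.trans hjr) x (hx.trans hjr')).trans (rate j)
  obtain ⟨F, hF, hF0, hFj, hFc⟩ := h2 (m + 1) g0 (fun j => g' (r j)) hg0 (fun j => hg' (r j)) hclose
  have hFI : ∀ s, MLS.Inv G (F s) := by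
    intro s
    obtain ⟨j, θ, -, -, hθ⟩ := hFc s
    exact inv_comb hI0 (hI' (r j)) hθ
  have hNj : ∀ j, NoConj (F (sj j)) := by
    intro j
    rw [hFj j]
    exact hN' (r j)
  -- the group and the coordinates
  obtain ⟨Γ, iΓ, jΓ, p, η, hΓ, hη, hbij, hact⟩ := h5 m G hcoc z k hk hkz g0 l0 κ0 Θ0 hSp
  have hpz : p z = 1 := by
    have e1 := hact z 0
    have e2 := hSp.zt 0
    rw [e2] at e1
    have e3 := (Prod.ext_iff.1 e1).1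
    exact hΓ.free (p z) (Θ0 0).1 e3.symm
  obtain ⟨f, hfs, hf0, hfeq⟩ := h7 m Γ hΓ η hη
  obtain ⟨Ξ, hΞ, hΞs, hΞi, hΞg⟩ := h8 m g0 κ0 Θ0 l0 f hSp.pos hfs hSp.smooth hSp.smooth_symm
    hSp.metric
  have hl0 : 0 < 1 / l0 ^ 2 := by
    have := hSp.pos
    positivity
  obtain ⟨P, hP1, hP2, hP3, hP4⟩ := h9 (m + 1) Ξ hΞs hΞi (1 / l0 ^ 2) hl0
  obtain ⟨A, hPd⟩ := h6 m Γ G p k hΓ hk hbij
  obtain ⟨-, -, -, -, hL5, hL6, hL7, -, -, -, -, -, hL13⟩ := h12 m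
  have hactA : ∀ (a : G) (y : E (m + 1)), A.smul a y = jn (p a • pr y) (ht y + k a) := hPd.act
  have heq : ∀ (a : G) (y : E (m + 1)), Ξ (A.smul a y) = iG.smul a (Ξ y) := by
    intro a y
    apply Θ0.injective
    have e1 : Θ0 (iG.smul a (Ξ y)) =
        (jΓ.smul (p a) (Θ0 (Ξ y)).1, (Θ0 (Ξ y)).2 + l0 * (k a + η (p a))) := hact a (Ξ y)
    rw [e1, hΞ, hΞ, hactA, hL6, hL7, hfeq]
    refine Prod.ext rfl ?_
    simp only
    ring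
  have hz := @h4 m Γ G iΓ jΓ _ A p k hPd
  obtain ⟨-, -, ⟨z', hz1, hz2, hz3, hz4, hz5⟩, -⟩ := hz
  have hzz : z' = z := (hbij 1 1).unique ⟨hz1, hz2⟩ ⟨hpz, hkz⟩
  rw [hzz] at hz3 hz4 hz5
  -- the new family
  have hFI' : ∀ s, @MLS.Inv (m + 1) G _ A (P (F s)) := fun s =>
    hP4 G A iG hPd.cocG hcoc heq (F s) (hFI s)
  have hNj' : ∀ j, NoConj (P (F (sj j))) := fun j =>
    h10 (m + 1) (F (sj j)) (P (F (sj j))) (1 / l0 ^ 2) Ξ hl0 (hF.riem _) (hP2 _ (hF.riem _)) hΞs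
      (hP1 _) (hNj j)
  have hax : ∀ j, ∃ (l : ℝ) (V : E (m + 1) → E (m + 1)) (τ : E (m + 1) → ℝ)
      (ψ : ℝ → E (m + 1) → E (m + 1)), @Axis (m + 1) G _ A (P (F (sj j))) z l V τ ψ ∧ τ 0 = 0 := by
    intro j
    obtain ⟨l, V, τ, ψ, h⟩ := @h3 (m + 1) G _ A hPd.cocG (P (F (sj j))) (hP2 _ (hF.riem _))
      (hFI' _) (hNj' j) z hz3 hz4
    exact ⟨l, V, _, ψ, @ax_norm (m + 1) G _ A _ z l V τ ψ h, by simp⟩
  choose l V τ ψ hA ht0 using hax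
  have hctx : @CtxT m Γ G iΓ jΓ _ A p k f (fun s => P (F s)) z l V τ ψ :=
    { pd := hPd, fam := hP3 F hF, inv := hFI', smf := hfs, f0 := hf0
      clf := (hΞg _ (by rw [hF0]; exact hP1 g0)).2
      tinv0 := (hΞg _ (by rw [hF0]; exact hP1 g0)).1
      zt := hz5, noc := hNj', ax := hA, t0 := ht0 }
  obtain ⟨j, hs⟩ := (@h1 m Γ G iΓ jΓ _ A p k f (fun s => P (F s)) z l V τ ψ hctx).exists
  have hfin := h11 m G A iG z (F (sj j)) (P (F (sj j))) (1 / l0 ^ 2) Ξ hl0 hΞs hΞi (hP1 _) heq hs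
  rw [hFj j] at hfin
  exact hS' (r j) hfin

end Pool.Agent.LQT
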