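import Pool.Agent.Work.MP_13b5d9_gt.LQ.TStmts
import Pool.Agent.Work.MP_13b5d9_gt.ST.All93

set_option autoImplicit false

/-!
# TPS: a parallel canonical field splits the universal covering
-/

open MeasureTheory Set Filter Topology
open scoped ContDiff ENNReal
open Pool.Agent.Work.MP_c9f990_an.Al (IsFlow)

namespace Pool.Agent.LQT

open Pool.Agent.MLS Pool.Agent.EC Pool.Agent.STR Pool.Agent.DR Pool.Agent.LQR

namespace ITPS

/-- pull-back of a form under a smooth map of another dimension -/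
noncomputable def pl {m n : ℕ} (F : E m → E n) (hF : ContDiff ℝ ∞ F) (g : Form n) : Form m where
  val := fun x => ((ContinuousLinearMap.compL ℝ (E m) (E n) ℝ).flip (fderiv ℝ F x)).comp
    ((g.val (F x)).comp (fderiv ℝ F x))
  smooth := by
    have h1 : ContDiff ℝ ∞ (fderiv ℝ F) := hF.fderiv_right (by norm_num)
    have h2 : ContDiff ℝ ∞ (fun x => g.val (F x)) := g.smooth.comp hF
    exact ((ContinuousLinearMap.contDiff _).comp h1).clm_comp (h2.clm_comp h1)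
  symm := fun x u v => by simpa using g.symm _ _ _
  nonneg := fun x v => by simpa using g.nonneg _ _

theorem pl_val {m n : ℕ} (F : E m → E n) (hF : ContDiff ℝ ∞ F) (g : Form n) (x u v : E m) :
    (pl F hF g).val x u v = g.val (F x) (fderiv ℝ F x u) (fderiv ℝ F x v) := by
  simp [pl]

theorem dfb {V W : Type*} [NormedAddCommGroup V] [NormedSpace ℝ V] [NormedAddCommGroup W]
    [NormedSpace ℝ W] {f : V → W} (h : ContDiff ℝ ∞ f) (x : V) : HasFDerivAt f (fderiv ℝ f x) x :=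
  ((h.differentiable (by norm_num)) x).hasFDerivAt

/-- the derivative of `(t, x) ↦ ψ t x` -/
theorem dpsi {n : ℕ} {ψ : ℝ → E n → E n} (hψ : ContDiff ℝ ∞ (fun p : ℝ × E n => ψ p.1 p.2))
    {V : E n → E n} (hode : ∀ x t, HasDerivAt (fun s => ψ s x) (V (ψ t x)) t) (t : ℝ) (x : E n)
    (a : ℝ) (u : E n) : fderiv ℝ (fun p : ℝ × E n => ψ p.1 p.2) (t, x) (a, u) =
      a • V (ψ t x) + fderiv ℝ (ψ t) x u := by
  have h0 := dfb hψ (t, x)
  have h1 : HasFDerivAt (fun s : ℝ => (s, x)) (ContinuousLinearMap.inl ℝ ℝ (E n)) t :=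
    (hasFDerivAt_prodMk_left t x)
  have h2 : HasFDerivAt (fun y : E n => (t, y)) (ContinuousLinearMap.inr ℝ ℝ (E n)) x :=
    (hasFDerivAt_prodMk_right t x)
  have h3 : HasFDerivAt (fun s => ψ s x) ((fderiv ℝ (fun p : ℝ × E n => ψ p.1 p.2) (t, x)).comp
      (ContinuousLinearMap.inl ℝ ℝ (E n))) t :=
    HasFDerivAt.comp (g := fun p : ℝ × E n => ψ p.1 p.2) t h0 h1
  have h4 : HasFDerivAt (ψ t) ((fderiv ℝ (fun p : ℝ × E n => ψ p.1 p.2) (t, x)).comp
      (ContinuousLinearMap.inr ℝ ℝ (E n))) x :=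
    HasFDerivAt.comp (g := fun p : ℝ × E n => ψ p.1 p.2) x h0 h2
  have e1 := h3.hasDerivAt.unique (hode x t)
  have e2 : (a, u) = a • ((1 : ℝ), (0 : E n)) + ((0 : ℝ), u) := by simp
  rw [e2, map_add, map_smul, h4.fderiv, ← e1]
  simp

theorem main {m : ℕ} {G : Type} [Group G] [MulAction G (E (m + 1))] {g : Form (m + 1)}
    (hg : Riem g) (hn : NoConj g) {z : G} {l : ℝ}
    {V : E (m + 1) → E (m + 1)} {τ : E (m + 1) → ℝ} {ψ : ℝ → E (m + 1) → E (m + 1)}
    (hA : Axis (m + 1) G g z l V τ ψ) {φ : ℝ → W (m + 1) → W (m + 1)}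
    {M : ℝ → W (m + 1) → W (m + 1) →L[ℝ] W (m + 1)} (hφ : IsFlow (XH (Hm g)) φ M)
    (hE : ∀ p v : E (m + 1), τ (expo φ g p v) = τ p + g.val p (V p) v)
    (hIs : ∀ (t : ℝ) (x u v : E (m + 1)),
      g.val (ψ t x) (fderiv ℝ (ψ t) x u) (fderiv ℝ (ψ t) x v) = g.val x u v)
    {lg : E (m + 1) → E (m + 1) → E (m + 1)} (hl : IsLog g φ lg)
    (hEx : ContDiff ℝ ∞ (fun p : E (m + 1) × E (m + 1) => expo φ g p.1 p.2))
    {I : E m →L[ℝ] E (m + 1)} {J : E (m + 1) →L[ℝ] E m} (hJI : ∀ u, J (I u) = u)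
    (hbI : ∀ u, g.val 0 (V 0) (I u) = 0) (hIJ : ∀ v, g.val 0 (V 0) v = 0 → I (J v) = v) :
    Sp m G z g := by
  classical
  set Ee : E m → E (m + 1) := fun w => expo φ g 0 (I w) with hEe
  have hEs : ContDiff ℝ ∞ Ee := by
    have h1 : ContDiff ℝ ∞ (fun w : E m => ((0 : E (m + 1)), I w)) :=
      contDiff_const.prodMk I.contDiff
    exact hEx.comp h1
  have hex0 : ContDiff ℝ ∞ (fun v : E (m + 1) => expo φ g 0 v) := by
    have h1 : ContDiff ℝ ∞ (fun w : E (m + 1) => ((0 : E (m + 1)), w)) :=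
      contDiff_const.prodMk contDiff_id
    exact hEx.comp h1
  have hτE : ∀ w, τ (Ee w) = τ 0 := by
    intro w
    rw [hEe]
    simp only
    rw [hE, hbI, add_zero]
  have hEJ : ∀ y, τ y = τ 0 → Ee (J (lg 0 y)) = y := by
    intro y hy
    have h1 : expo φ g 0 (lg 0 y) = y := hl.exp_log 0 y
    have h2 := hE 0 (lg 0 y)
    rw [h1, hy] at h2
    have h3 : g.val 0 (V 0) (lg 0 y) = 0 := by linarith
    rw [hEe]
    simp only
    rw [hIJ _ h3, h1]
  have hJE : ∀ w, J (lg 0 (Ee w)) = w := by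
    intro w
    rw [hEe]
    simp only
    rw [hl.log_exp, hJI]
  -- group law of the flow
  have hinv1 : ∀ (s : ℝ) x, ψ s (ψ (-s) x) = x := by
    intro s x
    rw [← hA.add, add_neg_cancel, hA.zero]
  have hinv2 : ∀ (s : ℝ) x, ψ (-s) (ψ s x) = x := by
    intro s x
    rw [← hA.add, neg_add_cancel, hA.zero]
  let Θ : E (m + 1) ≃ E m × ℝ :=
    { toFun := fun x => (J (lg 0 (ψ (-(τ x - τ 0)) x)), τ x - τ 0)
      invFun := fun q => ψ q.2 (Ee q.1)
      left_inv := by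
        intro x
        simp only
        rw [hEJ, hinv1]
        rw [hA.height]
        ring
      right_inv := by
        rintro ⟨w, t⟩
        simp only
        rw [hA.height, hτE]
        have h1 : τ 0 + t - τ 0 = t := by ring
        rw [h1, hinv2, hJE] }
  have hΘ : ∀ x, Θ x = (J (lg 0 (ψ (-(τ x - τ 0)) x)), τ x - τ 0) := fun _ => rfl
  have hΛ : ∀ q, Θ.symm q = ψ q.2 (Ee q.1) := fun _ => rfl
  have hΘs : ContDiff ℝ ∞ Θ := by
    have h1 : ContDiff ℝ ∞ (fun x : E (m + 1) => τ x - τ 0) := hA.smoothT.sub contDiff_const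
    have h2 : ContDiff ℝ ∞ (fun x : E (m + 1) => ψ (-(τ x - τ 0)) x) :=
      hA.smoothF.comp (h1.neg.prodMk contDiff_id)
    have h3 : ContDiff ℝ ∞ (fun x : E (m + 1) => lg 0 (ψ (-(τ x - τ 0)) x)) :=
      hl.smooth.comp (contDiff_const.prodMk h2)
    exact (J.contDiff.comp h3).prodMk h1
  have hΛs : ContDiff ℝ ∞ Θ.symm := by
    have h1 : ContDiff ℝ ∞ (fun q : E m × ℝ => (q.2, Ee q.1)) :=
      contDiff_snd.prodMk (hEs.comp contDiff_fst)
    exact hA.smoothF.comp h1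
  -- derivative of the inverse
  have hdΛ : ∀ (q : E m × ℝ) (p : E m × ℝ), fderiv ℝ Θ.symm q p =
      p.2 • V (Θ.symm q) + fderiv ℝ (ψ q.2) (Ee q.1) (fderiv ℝ Ee q.1 p.1) := by
    intro q p
    have h1 : HasFDerivAt (fun q : E m × ℝ => (q.2, Ee q.1))
        ((ContinuousLinearMap.snd ℝ (E m) ℝ).prod
          ((fderiv ℝ Ee q.1).comp (ContinuousLinearMap.fst ℝ (E m) ℝ))) q :=
      hasFDerivAt_snd.prodMk ((dfb hEs q.1).comp q hasFDerivAt_fst)
    have h2 := HasFDerivAt.comp (g := fun p : ℝ × E (m + 1) => ψ p.1 p.2) q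
      (dfb hA.smoothF (q.2, Ee q.1)) h1
    have h3 : (Θ.symm : E m × ℝ → E (m + 1)) =
        (fun p : ℝ × E (m + 1) => ψ p.1 p.2) ∘ fun q : E m × ℝ => (q.2, Ee q.1) := by
      funext q; exact hΛ q
    rw [h3, h2.fderiv]
    simp only [ContinuousLinearMap.comp_apply, ContinuousLinearMap.prod_apply,
      ContinuousLinearMap.coe_snd', ContinuousLinearMap.coe_fst']
    rw [dpsi hA.smoothF hA.ode]
    rfl
  -- orthogonality
  have horth : ∀ (t : ℝ) (w u : E m), g.val (ψ t (Ee w)) (V (ψ t (Ee w)))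
      (fderiv ℝ (ψ t) (Ee w) (fderiv ℝ Ee w u)) = 0 := by
    intro t w u
    rw [← hA.grad]
    have hψt : ContDiff ℝ ∞ (ψ t) := hA.smoothF.comp (contDiff_const.prodMk contDiff_id)
    have h1 : HasFDerivAt (fun w : E m => τ (ψ t (Ee w)))
        ((fderiv ℝ τ (ψ t (Ee w))).comp ((fderiv ℝ (ψ t) (Ee w)).comp (fderiv ℝ Ee w))) w :=
      (dfb hA.smoothT _).comp w ((dfb hψt _).comp w (dfb hEs w))
    have h2 : (fun w : E m => τ (ψ t (Ee w))) = fun _ => τ 0 + t := by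
      funext w
      rw [hA.height, hτE]
    rw [h2] at h1
    have h3 := h1.unique (hasFDerivAt_const _ _)
    have h4 := congrArg (fun T : E m →L[ℝ] ℝ => T u) h3
    simpa using h4
  have hmet : ∀ (q p p' : E m × ℝ), g.val (Θ.symm q) (fderiv ℝ Θ.symm q p)
      (fderiv ℝ Θ.symm q p') = (pl Ee hEs g).val q.1 p.1 p'.1 + p.2 * p'.2 := by
    intro q p p'
    rw [hdΛ, hdΛ, pl_val]
    have h1 := horth q.2 q.1 p.1
    have h2 := horth q.2 q.1 p'.1
    have h3 := hIs q.2 (Ee q.1) (fderiv ℝ Ee q.1 p.1) (fderiv ℝ Ee q.1 p'.1)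
    have h4 := hA.unit (ψ q.2 (Ee q.1))
    have h5 : g.val (ψ q.2 (Ee q.1)) (fderiv ℝ (ψ q.2) (Ee q.1) (fderiv ℝ Ee q.1 p.1))
        (V (ψ q.2 (Ee q.1))) = 0 := by rw [g.symm]; exact h1
    rw [hΛ]
    simp only [map_add, map_smul, add_apply, smul_apply, smul_eq_mul]
    rw [h2, h3, h4, h5]
    ring
  have hcomp : ∀ x u, fderiv ℝ Θ.symm (Θ x) (fderiv ℝ Θ x u) = u := by
    intro x u
    have h1 := (dfb hΛs (Θ x)).comp x (dfb hΘs x)
    have h2 : (Θ.symm ∘ Θ : E (m + 1) → E (m + 1)) = id := by funext y; simp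
    rw [h2] at h1
    have h3 := h1.unique (hasFDerivAt_id x)
    have h4 := congrArg (fun T : E (m + 1) →L[ℝ] E (m + 1) => T u) h3
    simpa using h4
  refine ⟨l, pl Ee hEs g, Θ, hA.pos, ?_, hΘs, hΛs, ?_, ?_, ?_⟩
  · intro w u hu
    rw [pl_val]
    apply hg
    intro h0
    apply hu
    have h1 : fderiv ℝ Ee w u = fderiv ℝ (expo φ g 0) (I w) (I u) := by
      have h2 : HasFDerivAt Ee ((fderiv ℝ (expo φ g 0) (I w)).comp I) w :=
        (dfb hex0 (I w)).comp w I.hasFDerivAt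
      rw [h2.fderiv]
      rfl
    rw [h1] at h0
    have h3 := p_NcInj (m + 1) g φ M hg hφ hn 0 (I w) (I u) h0
    rw [← hJI u, h3, map_zero]
  · intro x u v
    have h := hmet (Θ x) (fderiv ℝ Θ x u) (fderiv ℝ Θ x v)
    rw [hcomp, hcomp, Θ.symm_apply_apply] at h
    exact h
  · intro a
    obtain ⟨h, hh⟩ := hA.deck a
    refine ⟨fun w => J (lg 0 (ψ (-h) (a • Ee w))), h, fun x => ?_⟩
    have hx : x = ψ (Θ x).2 (Ee (Θ x).1) := by
      rw [← hΛ, Θ.symm_apply_apply]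
    have hx2 : (Θ x).2 = τ x - τ 0 := rfl
    rw [Prod.ext_iff]
    constructor
    · show J (lg 0 (ψ (-(τ (a • x) - τ 0)) (a • x))) = J (lg 0 (ψ (-h) (a • Ee (Θ x).1)))
      have h1 : ψ (-(τ (a • x) - τ 0)) (a • x) = ψ (-h) (a • Ee (Θ x).1) := by
        rw [hh x]
        conv_lhs => rw [show a • x = a • ψ (Θ x).2 (Ee (Θ x).1) by rw [← hx]]
        rw [← hA.comm, ← hA.add, hx2]
        congr 1
        ring
      rw [h1]
    · show τ (a • x) - τ 0 = (Θ x).2 + h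
      rw [hh x, hx2]
      ring
  · intro x
    rw [Prod.ext_iff]
    constructor
    · show J (lg 0 (ψ (-(τ (z • x) - τ 0)) (z • x))) = J (lg 0 (ψ (-(τ x - τ 0)) x))
      have h1 : ψ (-(τ (z • x) - τ 0)) (z • x) = ψ (-(τ x - τ 0)) x := by
        rw [← hA.period, hA.height, ← hA.add]
        congr 1
        ring
      rw [h1]
    · show τ (z • x) - τ 0 = τ x - τ 0 + l
      rw [← hA.period, hA.height]
      ring

end ITPS

theorem pr_TPS (h1 : TEh) (h2 : TIs) (h3 : THy) : TPS := by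
  intro m G _ _ hC g hg hI hn z hP
  obtain ⟨l, V, τ, ψ, hA, hpar⟩ := hP
  obtain ⟨φ, M, hφ⟩ := p_Flow (m + 1) G hC g hg hI
  obtain ⟨lg, hl⟩ := STR.p_Log (m + 1) g φ M hg hφ hn
  have hb : g.val 0 (V 0) ≠ 0 := by
    intro h
    have h1 := hA.unit 0
    rw [h] at h1
    simp at h1
  obtain ⟨I, J, hJI, hbI, hIJ⟩ := h3 m (g.val 0 (V 0)) hb
  exact ITPS.main hg hn hA hφ (h1 (m + 1) G g z l V τ ψ hg hA hpar φ M hφ)
    (h2 (m + 1) G g z l V τ ψ hg hA hpar) hl (STR.p_ExS (m + 1) g φ M hg hφ).2 hJI hbI hIJ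

end Pool.Agent.LQT
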