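import Pool.Agent.Work.MP_13b5d9_gt.LQ.TStmts
import Pool.Agent.Work.MP_13b5d9_gt.LQ.I_RMet

set_option autoImplicit false

/-!
# TPb: pull-back forms
-/

open MeasureTheory Set Filter Topology
open scoped ContDiff ENNReal

namespace Pool.Agent.LQT

open Pool.Agent.MLS Pool.Agent.EC Pool.Agent.STR Pool.Agent.DR Pool.Agent.LQR

namespace ITPb

/-- the pull-back form -/
noncomputable def P {n : ℕ} (r : ℝ) (hr : 0 < r) (Φ : E n → E n) (hΦ : ContDiff ℝ ∞ Φ)
    (g : Form n) : Form n where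
  val := pb r g Φ
  smooth := IRMet.pb_smooth r g Φ hΦ
  symm := by
    intro x u v
    rw [IRMet.pb_apply, IRMet.pb_apply, g.symm]
  nonneg := by
    intro x v
    rw [IRMet.pb_apply]
    exact mul_nonneg hr.le (g.nonneg _ _)

theorem fam {n : ℕ} (r : ℝ) (Φ : E n → E n) (hΦ : ContDiff ℝ ∞ Φ) (F : ℝ → Form n)
    (hF : ContDiff ℝ ∞ (fun q : ℝ × E n => (F q.1).val q.2)) :
    ContDiff ℝ ∞ (fun q : ℝ × E n => pb r (F q.1) Φ q.2) := by
  have h1 : ContDiff ℝ ∞ (fun q : ℝ × E n => fderiv ℝ Φ q.2) :=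
    (hΦ.fderiv_right (m := ∞) (by norm_num)).comp contDiff_snd
  have h2 : ContDiff ℝ ∞ (fun q : ℝ × E n => (F q.1).val (Φ q.2)) :=
    hF.comp (contDiff_fst.prodMk (hΦ.comp contDiff_snd))
  exact (((ContinuousLinearMap.contDiff _).comp h1).clm_comp (h2.clm_comp h1)).const_smul r

end ITPb

theorem pr_TPb : TPb := by
  intro n Φ hs hs' r hr
  refine ⟨ITPb.P r hr Φ hs, ?_, ?_, ?_, ?_⟩
  · intro g x u v
    exact IRMet.pb_apply r g Φ x u v
  · intro g hg x v hv
    change 0 < pb r g Φ x v v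
    rw [IRMet.pb_apply]
    exact mul_pos hr (hg _ _ fun h => hv (IRMet.inj Φ hs hs' x v h))
  · intro F hF
    refine ⟨ITPb.fam r Φ hs F hF.smooth, ?_⟩
    intro s x v hv
    change 0 < pb r (F s) Φ x v v
    rw [IRMet.pb_apply]
    exact mul_pos hr (hF.riem s _ _ fun h => hv (IRMet.inj Φ hs hs' x v h))
  · intro G _ A B _ hB hAB g hg
    have h5 := @IRMet.inv n G _ B hB g hg r Φ hs hs' (fun a y => A.smul a y) hAB
    intro a x u v
    exact h5 a x u v

end Pool.Agent.LQT
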