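import Mathlib
import Pool.Agent.Work.MP_13b5d9_gt.LQ.TStmts
import Pool.Agent.Work.MP_25cd3b_gt.NG.All

set_option autoImplicit false

/-!
# MP_13b5d9_gt, block LQ, part T: item TRm (curvature under pull-back)
-/

open MeasureTheory Set Filter Topology
open scoped ContDiff ENNReal

namespace Pool.Agent.LQT

open Pool.Agent.MLS Pool.Agent.EC Pool.Agent.STR Pool.Agent.DR Pool.Agent.LQR

namespace ITRm

section
variable {V W' : Type} [NormedAddCommGroup V] [NormedSpace ℝ V]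
  [NormedAddCommGroup W'] [NormedSpace ℝ W']

/-- derivative along a line -/
theorem dir {G : V → W'} (hG : Differentiable ℝ G) (x u : V) :
    HasDerivAt (fun t : ℝ => G (x + t • u)) (fderiv ℝ G x u) 0 := by
  have h1 : HasDerivAt (fun t : ℝ => x + t • u) u 0 := by
    simpa using ((hasDerivAt_id (0 : ℝ)).smul_const u).const_add x
  have h2 : HasFDerivAt G (fderiv ℝ G (x + (0 : ℝ) • u)) (x + (0 : ℝ) • u) :=
    (hG _).hasFDerivAt
  have h3 := h2.comp_hasDerivAt (0 : ℝ) h1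
  rw [zero_smul, add_zero] at h3
  exact h3

theorem cmp {A : V → W'} {F : V → V} (dA : Differentiable ℝ A) (dF : Differentiable ℝ F) :
    Differentiable ℝ (fun y => A (F y)) ∧
      ∀ x u, fderiv ℝ (fun y => A (F y)) x u = fderiv ℝ A (F x) (fderiv ℝ F x u) := by
  have hc : ∀ y, HasFDerivAt (fun y => A (F y)) ((fderiv ℝ A (F y)).comp (fderiv ℝ F y)) y :=
    fun y => (dA (F y)).hasFDerivAt.comp y (dF y).hasFDerivAt
  refine ⟨fun y => (hc y).differentiableAt, fun x u => ?_⟩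
  rw [(hc x).fderiv]
  rfl

/-- derivative of a value of an operator valued function, with a varying argument -/
theorem dap {T : ℝ → V →L[ℝ] W'} {a : ℝ → V} {T0 T' : V →L[ℝ] W'} {a0 a' : V}
    (h0 : T 0 = T0) (h1 : a 0 = a0) (hT : HasDerivAt T T' 0) (ha : HasDerivAt a a' 0) :
    HasDerivAt (fun t => T t (a t)) (T' a0 + T0 a') 0 := by
  subst h0 h1
  exact hT.clm_apply ha

/-- the same with a constant argument -/
theorem dco {T : ℝ → V →L[ℝ] W'} (a : V) {T' : V →L[ℝ] W'} (hT : HasDerivAt T T' 0) :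
    HasDerivAt (fun t => T t a) (T' a) 0 := by
  simpa using hT.clm_apply (hasDerivAt_const (0 : ℝ) a)

end

/-- two connections related by a map: derivative of the relation -/
theorem main {V : Type} [NormedAddCommGroup V] [NormedSpace ℝ V]
    (A B : V → V →L[ℝ] V →L[ℝ] V) (F : V → V)
    (hA : ContDiff ℝ ∞ A) (hB : ContDiff ℝ ∞ B) (hF : ContDiff ℝ ∞ F)
    (h : ∀ x u v, fderiv ℝ F x (A x u v) =
      fderiv ℝ (fderiv ℝ F) x u v + B (F x) (fderiv ℝ F x u) (fderiv ℝ F x v))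
    (x u v w : V) :
    fderiv ℝ F x (fderiv ℝ A x u v w) + fderiv ℝ F x (A x u (A x v w)) =
      fderiv ℝ (fderiv ℝ (fderiv ℝ F)) x u v w +
        fderiv ℝ B (F x) (fderiv ℝ F x u) (fderiv ℝ F x v) (fderiv ℝ F x w) +
        B (F x) (fderiv ℝ (fderiv ℝ F) x u v) (fderiv ℝ F x w) +
        (B (F x) (fderiv ℝ F x v) (fderiv ℝ (fderiv ℝ F) x u w) +
          B (F x) (fderiv ℝ F x u) (fderiv ℝ (fderiv ℝ F) x v w)) +
        B (F x) (fderiv ℝ F x u) (B (F x) (fderiv ℝ F x v) (fderiv ℝ F x w)) := by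
  have hD : ContDiff ℝ ∞ (fderiv ℝ F) := hF.fderiv_right (by norm_num)
  have hD2 : ContDiff ℝ ∞ (fderiv ℝ (fderiv ℝ F)) := hD.fderiv_right (by norm_num)
  have dA : Differentiable ℝ A := hA.differentiable (by norm_num)
  have dB : Differentiable ℝ B := hB.differentiable (by norm_num)
  have dF : Differentiable ℝ F := hF.differentiable (by norm_num)
  have dD : Differentiable ℝ (fderiv ℝ F) := hD.differentiable (by norm_num)
  have dD2 : Differentiable ℝ (fderiv ℝ (fderiv ℝ F)) := hD2.differentiable (by norm_num)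
  obtain ⟨dBF, eBF⟩ := cmp (W' := V →L[ℝ] V →L[ℝ] V) (A := B) (F := F) dB dF
  have z0 : x + (0 : ℝ) • u = x := by rw [zero_smul, add_zero]
  have a1 : HasDerivAt (fun t : ℝ => fderiv ℝ F (x + t • u) (A (x + t • u) v w))
      (fderiv ℝ (fderiv ℝ F) x u (A x v w) + fderiv ℝ F x (fderiv ℝ A x u v w)) 0 :=
    dap (by rw [z0]) (by rw [z0]) (dir dD x u) (dco w (dco v (dir dA x u)))
  have b1 : HasDerivAt (fun t : ℝ => fderiv ℝ (fderiv ℝ F) (x + t • u) v w)
      (fderiv ℝ (fderiv ℝ (fderiv ℝ F)) x u v w) 0 := dco w (dco v (dir dD2 x u))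
  have b3 : HasDerivAt (fun t : ℝ => B (F (x + t • u)))
      (fderiv ℝ B (F x) (fderiv ℝ F x u)) 0 := by
    rw [← eBF]
    exact dir (W' := V →L[ℝ] V →L[ℝ] V) (G := fun y => B (F y)) dBF x u
  have b4 : HasDerivAt (fun t : ℝ => B (F (x + t • u)) (fderiv ℝ F (x + t • u) v))
      (fderiv ℝ B (F x) (fderiv ℝ F x u) (fderiv ℝ F x v) +
          B (F x) (fderiv ℝ (fderiv ℝ F) x u v)) 0 :=
    dap (by rw [z0]) (by rw [z0]) b3 (dco v (dir dD x u))
  have b2 : HasDerivAt (fun t : ℝ => B (F (x + t • u)) (fderiv ℝ F (x + t • u) v)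
        (fderiv ℝ F (x + t • u) w))
      ((fderiv ℝ B (F x) (fderiv ℝ F x u) (fderiv ℝ F x v) +
          B (F x) (fderiv ℝ (fderiv ℝ F) x u v)) (fderiv ℝ F x w) +
        B (F x) (fderiv ℝ F x v) (fderiv ℝ (fderiv ℝ F) x u w)) 0 :=
    dap (by rw [z0]) (by rw [z0]) b4 (dco w (dir dD x u))
  have a3 : (fun t : ℝ => fderiv ℝ F (x + t • u) (A (x + t • u) v w)) =
      fun t : ℝ => fderiv ℝ (fderiv ℝ F) (x + t • u) v w +
        B (F (x + t • u)) (fderiv ℝ F (x + t • u) v) (fderiv ℝ F (x + t • u) w) :=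
    funext fun t => h (x + t • u) v w
  rw [a3] at a1
  have a4 := a1.unique (b1.add b2)
  have a5 := h x u (A x v w)
  rw [h x v w] at a5
  rw [a5]
  have a6 : fderiv ℝ F x (fderiv ℝ A x u v w) =
      (fderiv ℝ (fderiv ℝ (fderiv ℝ F)) x u v w +
        ((fderiv ℝ B (F x) (fderiv ℝ F x u) (fderiv ℝ F x v) +
          B (F x) (fderiv ℝ (fderiv ℝ F) x u v)) (fderiv ℝ F x w) +
        B (F x) (fderiv ℝ F x v) (fderiv ℝ (fderiv ℝ F) x u w))) -
      fderiv ℝ (fderiv ℝ F) x u (A x v w) := by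
    rw [← a4]; abel
  rw [a6]
  simp only [_root_.add_apply, map_add]
  abel

/-- the curvatures of two connections related by a map -/
theorem curv {V : Type} [NormedAddCommGroup V] [NormedSpace ℝ V]
    (A B : V → V →L[ℝ] V →L[ℝ] V) (F : V → V)
    (hA : ContDiff ℝ ∞ A) (hB : ContDiff ℝ ∞ B) (hF : ContDiff ℝ ∞ F)
    (h : ∀ x u v, fderiv ℝ F x (A x u v) =
      fderiv ℝ (fderiv ℝ F) x u v + B (F x) (fderiv ℝ F x u) (fderiv ℝ F x v))
    (x u v w : V) :
    fderiv ℝ F x (fderiv ℝ A x u v w - fderiv ℝ A x v u w + A x u (A x v w) - A x v (A x u w)) =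
      fderiv ℝ B (F x) (fderiv ℝ F x u) (fderiv ℝ F x v) (fderiv ℝ F x w) -
      fderiv ℝ B (F x) (fderiv ℝ F x v) (fderiv ℝ F x u) (fderiv ℝ F x w) +
      B (F x) (fderiv ℝ F x u) (B (F x) (fderiv ℝ F x v) (fderiv ℝ F x w)) -
      B (F x) (fderiv ℝ F x v) (B (F x) (fderiv ℝ F x u) (fderiv ℝ F x w)) := by
  have e1 := main A B F hA hB hF h x u v w
  have e2 := main A B F hA hB hF h x v u w
  have hD : ContDiff ℝ ∞ (fderiv ℝ F) := hF.fderiv_right (by norm_num)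
  have h0 : minSmoothness ℝ 2 ≤ (∞ : WithTop ℕ∞) := by
    rw [minSmoothness_of_isRCLikeNormedField]
    exact WithTop.coe_le_coe.2 (le_top : (2 : ℕ∞) ≤ ⊤)
  have s2 : fderiv ℝ (fderiv ℝ F) x v u = fderiv ℝ (fderiv ℝ F) x u v :=
    (hF.contDiffAt (x := x)).isSymmSndFDerivAt h0 v u
  have s3 : fderiv ℝ (fderiv ℝ (fderiv ℝ F)) x u v = fderiv ℝ (fderiv ℝ (fderiv ℝ F)) x v u :=
    (hD.contDiffAt (x := x)).isSymmSndFDerivAt h0 u v
  rw [map_sub, map_add, map_sub]
  have e3 : fderiv ℝ F x (fderiv ℝ A x u v w) - fderiv ℝ F x (fderiv ℝ A x v u w) +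
      fderiv ℝ F x (A x u (A x v w)) - fderiv ℝ F x (A x v (A x u w)) =
      (fderiv ℝ F x (fderiv ℝ A x u v w) + fderiv ℝ F x (A x u (A x v w))) -
      (fderiv ℝ F x (fderiv ℝ A x v u w) + fderiv ℝ F x (A x v (A x u w))) := by
    abel
  rw [e3, e1, e2, s3, s2]
  abel

end ITRm

/-- item TRm: the curvature of a pull-back metric -/
theorem pr_TRm (h : TGa) : TRm := by
  intro n g g' r F hr hR hR' hF hP x u v w
  exact ITRm.curv (Ga g') (Ga g) F (p_NcGa n g' hR').1 (p_NcGa n g hR).1 hF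
    (h n g g' r F hr hR hR' hF hP) x u v w

end Pool.Agent.LQT
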