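import Mathlib
import Pool.Agent.Work.MP_13b5d9_gt.LQ.TStmts
import Pool.Agent.Work.MP_25cd3b_gt.M.I_Op
import Pool.Agent.Work.MP_25cd3b_gt.NC.I_Ga
import Pool.Agent.Work.MP_25cd3b_gt.NC.I_Geo

set_option autoImplicit false

/-!
# MP_13b5d9_gt, block LQ, part T, item TSP: split implies parallel
-/

open MeasureTheory Set Filter Topology
open scoped ContDiff ENNReal
open Pool.Agent.Work.MP_c9f990_an.Al (IsFlow)

namespace Pool.Agent.LQT

open Pool.Agent.MLS Pool.Agent.EC Pool.Agent.STR Pool.Agent.DR Pool.Agent.LQR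

theorem pr_TSP (h : TVp) : TSP := by
  intro m G _ _ hG g hg z hs
  obtain ⟨l, κ, Θ, hl, hκ, hΘ, hΘs, hmet, hdeck, hzt⟩ := hs
  obtain ⟨V, hV, hVx, hVΘ, hVu, hVg, hVp⟩ := h m g κ Θ hg hΘ hΘs hmet
  -- the flow
  set ψ : ℝ → E (m + 1) → E (m + 1) := fun t x => Θ.symm ((Θ x).1, (Θ x).2 + t) with hψ
  have hΘψ : ∀ t x, Θ (ψ t x) = ((Θ x).1, (Θ x).2 + t) := fun t x => Θ.apply_symm_apply _
  have hode : ∀ x t, HasDerivAt (fun s => ψ s x) (V (ψ t x)) t := by
    intro x t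
    have h1 : HasDerivAt (fun s : ℝ => (((Θ x).1, (Θ x).2 + s) : E m × ℝ)) (0, 1) t :=
      (hasDerivAt_const t (Θ x).1).prodMk ((hasDerivAt_id t).const_add (Θ x).2)
    have h2 : HasFDerivAt Θ.symm (fderiv ℝ Θ.symm ((Θ x).1, (Θ x).2 + t))
        ((Θ x).1, (Θ x).2 + t) :=
      ((hΘs.differentiable (by simp)).differentiableAt).hasFDerivAt
    have h3 := h2.comp_hasDerivAt t h1
    rw [hVx, hΘψ]
    exact h3
  have hadd : ∀ s t x, ψ (s + t) x = ψ s (ψ t x) := by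
    intro s t x
    apply Θ.injective
    rw [hΘψ, hΘψ, hΘψ]
    exact Prod.ext rfl (by ring)
  have hzero : ∀ x, ψ 0 x = x := by
    intro x
    apply Θ.injective
    rw [hΘψ, add_zero]
  have hcomm : ∀ (a : G) (t : ℝ) (x : E (m + 1)), ψ t (a • x) = a • ψ t x := by
    intro a t x
    obtain ⟨f, c, hf⟩ := hdeck a
    apply Θ.injective
    rw [hΘψ, hf, hf, hΘψ]
    exact Prod.ext rfl (by ring)
  have hdV : ∀ x, HasFDerivAt V (fderiv ℝ V x) x := fun x =>
    ((hV.differentiable (by simp)).differentiableAt).hasFDerivAt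
  have hsm : ContDiff ℝ ∞ (fun p : ℝ × E (m + 1) => ψ p.1 p.2) := by
    refine hΘs.comp ?_
    have h1 : ContDiff ℝ ∞ (fun p : ℝ × E (m + 1) => Θ p.2) := hΘ.comp contDiff_snd
    exact h1.fst.prodMk (h1.snd.add contDiff_fst)
  refine ⟨l, V, fun x => (Θ x).2, ψ, ⟨hl, hV, hΘ.snd, hsm, hVu, ?_, ?_, hzero, hode, hadd, ?_, ?_,
    hcomm, ?_, ?_⟩, hVp⟩
  · intro x v
    have h1 : HasFDerivAt (fun y => (Θ y).2)
        ((ContinuousLinearMap.snd ℝ (E m) ℝ).comp (fderiv ℝ Θ x)) x :=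
      (((hΘ.differentiable (by simp)).differentiableAt).hasFDerivAt).snd
    rw [h1.fderiv]
    exact hVg x v
  · intro a x
    have h1 : HasDerivAt (fun t => ψ t (a • x)) (V (ψ 0 (a • x))) 0 := hode (a • x) 0
    have h2 : HasFDerivAt (fun y : E (m + 1) => a • y) (dac a (ψ 0 x)) (ψ 0 x) :=
      (((hG.smooth a).differentiable (by simp)).differentiableAt).hasFDerivAt
    have h3 : HasDerivAt (fun t => a • ψ t x) (dac a (ψ 0 x) (V (ψ 0 x))) 0 :=
      h2.comp_hasDerivAt (0 : ℝ) (hode x 0)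
    have h4 : (fun t => ψ t (a • x)) = fun t => a • ψ t x := funext fun t => hcomm a t x
    rw [h4] at h1
    have h5 := h1.unique h3
    rw [hzero, hzero] at h5
    exact h5
  · intro x
    have hc1 : deriv (fun t => ψ t x) = fun t => V (ψ t x) := funext fun t => (hode x t).deriv
    rw [(pr_NcGeo (pr_NcGa pr_Op)) (m + 1) g hg]
    refine ⟨?_, fun t => ?_⟩
    · have h1 : ContDiff ℝ ∞ (fun t : ℝ => ψ t x) :=
        hsm.comp (contDiff_id.prodMk contDiff_const)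
      exact_mod_cast contDiff_infty.1 h1 2
    · rw [hc1]
      have h1 : HasDerivAt (fun t => V (ψ t x)) (fderiv ℝ V (ψ t x) (V (ψ t x))) t :=
        (hdV (ψ t x)).comp_hasDerivAt t (hode x t)
      have h2 := hVp (ψ t x) (V (ψ t x))
      rw [eq_neg_of_add_eq_zero_left h2] at h1
      exact h1
  · intro x
    apply Θ.injective
    rw [hΘψ, hzt]
  · intro t x
    show (Θ (ψ t x)).2 = (Θ x).2 + t
    rw [hΘψ]
  · intro a
    obtain ⟨f, c, hf⟩ := hdeck a
    refine ⟨c, fun x => ?_⟩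
    show (Θ (a • x)).2 = (Θ x).2 + c
    rw [hf]

end Pool.Agent.LQT
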