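import Pool.Agent.Work.MP_13b5d9_gt.DR.Stmts

set_option autoImplicit false

/-!
# MP_13b5d9_gt, block LQ (local rigidity of products): interface

`g j → g0` in the topology of locally uniform convergence of all derivatives, `g j = dt^2 + h_j`
without conjugate points, `g0 = dt^2 + h_0` independent of `t`.  The action of the group may depend
on `j` (the actions arise by straightening the canonical field).
-/

open MeasureTheory Set Filter Topology
open scoped ContDiff ENNReal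
open Pool.Agent.Work.MP_c9f990_an.Al (IsFlow)

namespace Pool.Agent.LQ

open Pool.Agent.MLS Pool.Agent.EC Pool.Agent.DR

/-- Sequences of metrics in normal form without conjugate points which converge to a product. -/
structure SetupQ (m : ℕ) (G : Type) [Group G] (act : ℕ → MulAction G (E (m + 1)))
    (g : ℕ → Form (m + 1)) (g0 : Form (m + 1)) (χ : ℕ → E (m + 1) → ℝ) (S : Set (E (m + 1))) :
    Prop where
  coc : ∀ j, @Cocompact (m + 1) G _ (act j)
  vert : ∀ j, @Vert (m + 1) G _ (act j) eL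
  per : ∀ j, ∃ z : G, ∀ x : E (m + 1), (act j).smul z x = x + eL
  riem : ∀ j, Riem (g j)
  inv : ∀ j, @MLS.Inv (m + 1) G _ (act j) (g j)
  minz : ∀ j, Minz (g j)
  blk : ∀ j, Blk (g j)
  pu : ∀ j, @PU (m + 1) G _ (act j) (χ j)
  supp : ∀ j x, χ j x ≠ 0 → x ∈ S
  cpt : IsCompact S
  riem0 : Riem g0
  blk0 : Blk g0
  tinv0 : TInv g0 eL
  flow0 : ∃ (φ : ℝ → W (m + 1) → W (m + 1)) (M : ℝ → W (m + 1) → W (m + 1) →L[ℝ] W (m + 1)),
    IsFlow (XH (Hm g0)) φ M
  conv : ∀ i : ℕ, TendstoLocallyUniformly (fun j => iteratedFDeriv ℝ i (g j).val)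
    (iteratedFDeriv ℝ i g0.val) atTop

/-- bound of order two for the derivative of the metric in the vertical direction -/
def NB {m : ℕ} (g : Form (m + 1)) (K : Set (E (m + 1))) (b : ℝ) : Prop :=
  ∀ i : ℕ, i ≤ 2 → ∀ x ∈ K, ‖iteratedFDeriv ℝ i (fun y => fderiv ℝ g.val y eL) x‖ ≤ b

/-- THEOREM Q: the square of the `L^2` norm of the vertical derivative is at most a constant times
the power `15/7` of its `C^2` norm. -/
def StQ : Prop := ∀ (m : ℕ) (G : Type) [Group G] (act : ℕ → MulAction G (E (m + 1)))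
  (g : ℕ → Form (m + 1)) (g0 : Form (m + 1)) (χ : ℕ → E (m + 1) → ℝ) (S : Set (E (m + 1))),
  SetupQ m G act g g0 χ S → ∃ (K : Set (E (m + 1))) (C : ℝ), IsCompact K ∧ 0 < C ∧
  ∀ᶠ j in atTop, ∀ β : ℝ, 0 < β → β ≤ 1 → NB (g j) K (β ^ 7) →
    ∫ x, χ j x * ‖fderiv ℝ (g j).val x eL‖ ^ 2 ≤ C * β ^ 15

/-- THEOREM L: local rigidity for metrics in normal form. -/
def StL : Prop := ∀ (m : ℕ) (G : Type) [Group G] (act : ℕ → MulAction G (E (m + 1)))
  (g : ℕ → Form (m + 1)) (g0 : Form (m + 1)) (χ : ℕ → E (m + 1) → ℝ) (S : Set (E (m + 1))),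
  SetupQ m G act g g0 χ S →
  (∀ K : Set (E (m + 1)), IsCompact K → ∃ N : ℕ, ∀ j, ∀ x ∈ S,
    {a : G | (act j).smul a x ∈ K}.Finite ∧ {a : G | (act j).smul a x ∈ K}.ncard ≤ N) →
  (∀ j x, ∃ a : G, (act j).smul a x ∈ S) →
  ∀ᶠ j in atTop, TInv (g j) eL

end Pool.Agent.LQ
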