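import Pool.Agent.Work.MP_13b5d9_gt.LQ.RStmts

set_option autoImplicit false

/-!
# MP_13b5d9_gt, block LQ, item RSp: the splitting
-/

open MeasureTheory Set Filter Topology
open scoped ContDiff ENNReal

namespace Pool.Agent.LQR

open Pool.Agent.MLS Pool.Agent.EC Pool.Agent.STR Pool.Agent.DR

namespace IRSp

variable {m : ℕ}

/-- the metric of the slice, multiplied with `l^2` -/
noncomputable def kv (l : ℝ) (g : Form (m + 1)) (x : E m) : E m →L[ℝ] E m →L[ℝ] ℝ :=
  l ^ 2 • (((ContinuousLinearMap.compL ℝ (E m) (E (m + 1)) ℝ).flip inc).comp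
    ((g.val (jn x 0)).comp inc))

theorem kv_app (l : ℝ) (g : Form (m + 1)) (x u v : E m) :
    kv l g x u v = l ^ 2 * g.val (jn x 0) (inc u) (inc v) := by
  simp [kv]

theorem kv_smooth (l : ℝ) (g : Form (m + 1)) : ContDiff ℝ ∞ (kv l g) := by
  have hj : ContDiff ℝ ∞ (fun x : E m => jn x 0) := by
    unfold jn
    exact (ContinuousLinearMap.contDiff (inc (m := m))).add contDiff_const
  have h1 : ContDiff ℝ ∞ (fun x : E m => (g.val (jn x 0)).comp (inc (m := m))) :=
    (g.smooth.comp hj).clm_comp (contDiff_const (c := (inc : E m →L[ℝ] E (m + 1))))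
  have h2 : ContDiff ℝ ∞ (fun x : E m =>
      ((ContinuousLinearMap.compL ℝ (E m) (E (m + 1)) ℝ).flip (inc (m := m))).comp
        ((g.val (jn x 0)).comp (inc (m := m)))) :=
    (contDiff_const (c := (ContinuousLinearMap.compL ℝ (E m) (E (m + 1)) ℝ).flip
      (inc (m := m)))).clm_comp h1
  exact h2.const_smul (l ^ 2)

/-- the form of the slice -/
noncomputable def kf (l : ℝ) (g : Form (m + 1)) : Form m where
  val := kv l g
  smooth := kv_smooth l g
  symm := fun x u v => by rw [kv_app, kv_app, g.symm]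
  nonneg := fun x v => by
    rw [kv_app]
    exact mul_nonneg (sq_nonneg l) (g.nonneg _ _)

/-- decomposition of an invariant metric in block form -/
theorem dec (h : StRLin) (g : Form (m + 1)) (hb : Blk g) (ht' : TInv g eL)
    (y u v : E (m + 1)) : g.val y u v =
      g.val (jn (pr y) 0) (inc (pr u)) (inc (pr v)) + ht u * ht v := by
  obtain ⟨h1, h2, h3, h4, h5, h6, h7, h8, h9, h10, h11, h12, h13⟩ := h m
  have e1 : g.val y = g.val (jn (pr y) 0) := by
    have e2 := ht' (jn (pr y) 0) (ht y)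
    rw [← e2]
    congr 1
    unfold jn
    rw [zero_smul, add_zero, h5]
  rw [e1]
  have b1 : ∀ w : E (m + 1), g.val (jn (pr y) 0) eL w = ht w := by
    intro w
    rw [hb, h12]
  have b2 : ∀ w : E (m + 1), g.val (jn (pr y) 0) w eL = ht w := by
    intro w
    rw [g.symm, b1]
  have b3 : g.val (jn (pr y) 0) u v =
      g.val (jn (pr y) 0) (inc (pr u) + ht u • eL) (inc (pr v) + ht v • eL) := by
    rw [h5, h5]
  rw [b3]
  simp only [map_add, map_smul, add_apply, smul_apply,
    smul_eq_mul, b1, b2, h2, h4]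
  ring

/-- the splitting map -/
noncomputable def Th (h : StRLin) (l : ℝ) (hl : 0 < l) (Φ : E (m + 1) ≃ E (m + 1)) :
    E (m + 1) ≃ E m × ℝ where
  toFun := fun y => (pr (Φ.symm y), l * ht (Φ.symm y))
  invFun := fun q => Φ (jn q.1 (q.2 / l))
  left_inv := fun y => by
    obtain ⟨h1, h2, h3, h4, h5, h6, h7, h8, h9, h10, h11, h12, h13⟩ := h m
    have e1 : l * ht (Φ.symm y) / l = ht (Φ.symm y) := by field_simp
    show Φ (jn (pr (Φ.symm y)) (l * ht (Φ.symm y) / l)) = y
    rw [e1]
    unfold jn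
    rw [h5, Equiv.apply_symm_apply]
  right_inv := fun q => by
    obtain ⟨h1, h2, h3, h4, h5, h6, h7, h8, h9, h10, h11, h12, h13⟩ := h m
    show (pr (Φ.symm (Φ (jn q.1 (q.2 / l)))), l * ht (Φ.symm (Φ (jn q.1 (q.2 / l))))) = q
    rw [Equiv.symm_apply_apply, h6, h7]
    refine Prod.ext rfl ?_
    show l * (q.2 / l) = q.2
    field_simp

end IRSp

open IRSp in
/-- RSp: the splitting. -/
theorem pr_RSp (h : StRLin) : StRSp := by
  intro m Γ G _ _ _ _ p g g' l Φ hg hg' hl hΦ hΦs hm hb ht' hdeck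
  have hL := h m
  obtain ⟨h1, h2, h3, h4, h5, h6, h7, h8, h9, h10, h11, h12, h13⟩ := hL
  refine ⟨kf l g', Th h l hl Φ, ?_, ?_, ?_, ?_, ?_⟩
  · intro x v hv
    show 0 < kv l g' x v v
    rw [kv_app]
    refine mul_pos (by positivity) (hg' _ _ ?_)
    intro h0
    apply hv
    rw [← norm_eq_zero, ← h8, h0, norm_zero]
  · show ContDiff ℝ ∞ (fun y => (pr (Φ.symm y), l * ht (Φ.symm y)))
    exact ((ContinuousLinearMap.contDiff (pr (m := m))).comp hΦs).prodMk
      (contDiff_const.mul ((ContinuousLinearMap.contDiff (ht (m := m))).comp hΦs))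
  · show ContDiff ℝ ∞ (fun q : E m × ℝ => Φ (jn q.1 (q.2 / l)))
    refine hΦ.comp ?_
    unfold jn
    exact ((ContinuousLinearMap.contDiff (inc (m := m))).comp contDiff_fst).add
      ((contDiff_snd.div_const l).smul contDiff_const)
  · intro x u v
    have hd : DifferentiableAt ℝ Φ (Φ.symm x) := (hΦ.differentiable (by simp)) _
    have hds : DifferentiableAt ℝ Φ.symm x := (hΦs.differentiable (by simp)) _
    -- derivative of the inverse
    have hinv : ∀ w : E (m + 1), fderiv ℝ Φ (Φ.symm x) (fderiv ℝ Φ.symm x w) = w := by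
      intro w
      have e1 : HasFDerivAt (fun y => Φ (Φ.symm y))
          ((fderiv ℝ Φ (Φ.symm x)).comp (fderiv ℝ Φ.symm x)) x :=
        hd.hasFDerivAt.comp x hds.hasFDerivAt
      have e2 : (fun y => Φ (Φ.symm y)) = id := by
        funext y
        exact Φ.apply_symm_apply y
      rw [e2] at e1
      have e3 := e1.unique (hasFDerivAt_id x)
      have e4 := congrArg (fun T : E (m + 1) →L[ℝ] E (m + 1) => T w) e3
      simpa using e4
    -- derivative of the splitting map
    have hT : ∀ w : E (m + 1), fderiv ℝ (Th h l hl Φ) x w =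
        (pr (fderiv ℝ Φ.symm x w), l * ht (fderiv ℝ Φ.symm x w)) := by
      intro w
      have e1 : HasFDerivAt (fun y => (pr (Φ.symm y), l * ht (Φ.symm y)))
          (((pr (m := m)).comp (fderiv ℝ Φ.symm x)).prod
            (l • ((ht (m := m)).comp (fderiv ℝ Φ.symm x)))) x := by
        refine HasFDerivAt.prodMk ?_ ?_
        · exact (ContinuousLinearMap.hasFDerivAt (pr (m := m))).comp x hds.hasFDerivAt
        · exact ((ContinuousLinearMap.hasFDerivAt (ht (m := m))).comp x
            hds.hasFDerivAt).const_mul l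
      have e2 : (Th h l hl Φ : E (m + 1) → E m × ℝ) =
          (fun y => (pr (Φ.symm y), l * ht (Φ.symm y))) := rfl
      rw [e2, e1.fderiv]
      rfl
    have e5 := hm (Φ.symm x) (fderiv ℝ Φ.symm x u) (fderiv ℝ Φ.symm x v)
    rw [hinv, hinv, Equiv.apply_symm_apply, dec h g' hb ht'] at e5
    rw [hT, hT]
    show g.val x u v = kv l g' (pr (Φ.symm x)) (pr (fderiv ℝ Φ.symm x u))
      (pr (fderiv ℝ Φ.symm x v)) + l * ht (fderiv ℝ Φ.symm x u) * (l * ht (fderiv ℝ Φ.symm x v))
    rw [kv_app]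
    have hl2 : l ^ 2 ≠ 0 := by positivity
    have e6 : g.val x u v = l ^ 2 * (1 / l ^ 2 * g.val x u v) := by
      field_simp
    rw [e6, ← e5]
    ring
  · intro a
    obtain ⟨c, hc⟩ := hdeck a
    refine ⟨fun x => p a • x, l * c, fun x => ?_⟩
    have e1 : a • x = Φ (jn (p a • pr (Φ.symm x)) (ht (Φ.symm x) + c)) := by
      rw [← hc, Equiv.apply_symm_apply]
    rw [e1]
    show (pr (Φ.symm (Φ (jn (p a • pr (Φ.symm x)) (ht (Φ.symm x) + c)))),
      l * ht (Φ.symm (Φ (jn (p a • pr (Φ.symm x)) (ht (Φ.symm x) + c))))) =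
      (p a • pr (Φ.symm x), l * ht (Φ.symm x) + l * c)
    rw [Equiv.symm_apply_apply, h6, h7, mul_add]

end Pool.Agent.LQR
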