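import Pool.Agent.Work.MP_13b5d9_gt.LQ.TStmts
import Pool.Agent.Work.MP_13b5d9_gt.LQ.I_RSp

set_option autoImplicit false

/-!
# MP_13b5d9_gt, block LQ, item TSpl: the splitting
-/

open MeasureTheory Set Filter Topology
open scoped ContDiff ENNReal
open Pool.Agent.Work.MP_c9f990_an.Al (IsFlow)

namespace Pool.Agent.LQT

open Pool.Agent.MLS Pool.Agent.EC Pool.Agent.STR Pool.Agent.DR Pool.Agent.LQR

open LQR.IRSp in
/-- TSpl: the splitting. -/
theorem pr_TSpl (h : StRLin) : TSpl := by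
  intro m Γ G _ _ _ _ p z g g' l Φ hg hg' hl hΦ hΦs hm hb ht' hdeck hzd
  have hL := h m
  obtain ⟨h1, h2, h3, h4, h5, h6, h7, h8, h9, h10, h11, h12, h13⟩ := hL
  refine ⟨l, kf l g', Th h l hl Φ, hl, ?_, ?_, ?_, ?_, ?_, ?_⟩
  · intro x v hv
    show 0 < kv l g' x v v
    rw [kv_app]
    refine mul_pos (by positivity) (hg' _ _ ?_)
    intro h0
    apply hv
    rw [← norm_eq_zero, ← h8, h0, norm_zero]
  · show ContDiff ℝ ∞ (fun y => (pr (Φ.symm y), l * ht (Φ.symm y)))
    exact ((ContinuousLinearMap.contDiff (pr (m := m))).comp hΦs).prodMk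
      (contDiff_const.mul ((ContinuousLinearMap.contDiff (ht (m := m))).comp hΦs))
  · show ContDiff ℝ ∞ (fun q : E m × ℝ => Φ (jn q.1 (q.2 / l)))
    refine hΦ.comp ?_
    unfold jn
    exact ((ContinuousLinearMap.contDiff (inc (m := m))).comp contDiff_fst).add
      ((contDiff_snd.div_const l).smul contDiff_const)
  · intro x u v
    have hd : DifferentiableAt ℝ Φ (Φ.symm x) := (hΦ.differentiable (by simp)) _
    have hds : DifferentiableAt ℝ Φ.symm x := (hΦs.differentiable (by simp)) _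
    -- derivative of the inverse
    have hinv : ∀ w : E (m + 1), fderiv ℝ Φ (Φ.symm x) (fderiv ℝ Φ.symm x w) = w := by
      intro w
      have e1 : HasFDerivAt (fun y => Φ (Φ.symm y))
          ((fderiv ℝ Φ (Φ.symm x)).comp (fderiv ℝ Φ.symm x)) x :=
        hd.hasFDerivAt.comp x hds.hasFDerivAt
      have e2 : (fun y => Φ (Φ.symm y)) = id := by
        funext y
        exact Φ.apply_symm_apply y
      rw [e2] at e1
      have e3 := e1.unique (hasFDerivAt_id x)
      have e4 := congrArg (fun T : E (m + 1) →L[ℝ] E (m + 1) => T w) e3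
      simpa using e4
    -- derivative of the splitting map
    have hT : ∀ w : E (m + 1), fderiv ℝ (Th h l hl Φ) x w =
        (pr (fderiv ℝ Φ.symm x w), l * ht (fderiv ℝ Φ.symm x w)) := by
      intro w
      have e1 : HasFDerivAt (fun y => (pr (Φ.symm y), l * ht (Φ.symm y)))
          (((pr (m := m)).comp (fderiv ℝ Φ.symm x)).prod
            (l • ((ht (m := m)).comp (fderiv ℝ Φ.symm x)))) x := by
        refine HasFDerivAt.prodMk ?_ ?_
        · exact (ContinuousLinearMap.hasFDerivAt (pr (m := m))).comp x hds.hasFDerivAt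
        · exact ((ContinuousLinearMap.hasFDerivAt (ht (m := m))).comp x
            hds.hasFDerivAt).const_mul l
      have e2 : (Th h l hl Φ : E (m + 1) → E m × ℝ) =
          (fun y => (pr (Φ.symm y), l * ht (Φ.symm y))) := rfl
      rw [e2, e1.fderiv]
      rfl
    have e5 := hm (Φ.symm x) (fderiv ℝ Φ.symm x u) (fderiv ℝ Φ.symm x v)
    rw [hinv, hinv, Equiv.apply_symm_apply, dec h g' hb ht'] at e5
    rw [hT, hT]
    show g.val x u v = kv l g' (pr (Φ.symm x)) (pr (fderiv ℝ Φ.symm x u))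
      (pr (fderiv ℝ Φ.symm x v)) + l * ht (fderiv ℝ Φ.symm x u) * (l * ht (fderiv ℝ Φ.symm x v))
    rw [kv_app]
    have hl2 : l ^ 2 ≠ 0 := by positivity
    have e6 : g.val x u v = l ^ 2 * (1 / l ^ 2 * g.val x u v) := by
      field_simp
    rw [e6, ← e5]
    ring
  · intro a
    obtain ⟨c, hc⟩ := hdeck a
    refine ⟨fun x => p a • x, l * c, fun x => ?_⟩
    have e1 : a • x = Φ (jn (p a • pr (Φ.symm x)) (ht (Φ.symm x) + c)) := by
      rw [← hc, Equiv.apply_symm_apply]
    rw [e1]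
    show (pr (Φ.symm (Φ (jn (p a • pr (Φ.symm x)) (ht (Φ.symm x) + c)))),
      l * ht (Φ.symm (Φ (jn (p a • pr (Φ.symm x)) (ht (Φ.symm x) + c))))) =
      (p a • pr (Φ.symm x), l * ht (Φ.symm x) + l * c)
    rw [Equiv.symm_apply_apply, h6, h7, mul_add]

  · intro x
    have e1 : z • x = Φ (Φ.symm x + eL) := by
      rw [← hzd, Equiv.apply_symm_apply]
    rw [e1]
    show (pr (Φ.symm (Φ (Φ.symm x + eL))), l * ht (Φ.symm (Φ (Φ.symm x + eL)))) =
      (pr (Φ.symm x), l * ht (Φ.symm x) + l)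
    rw [Equiv.symm_apply_apply, map_add, map_add, h3, h4, add_zero, mul_add, mul_one]

end Pool.Agent.LQT
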