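import Pool.Agent.Work.MP_13b5d9_gt.LQ.TStmts
import Pool.Agent.Work.MP_25cd3b_gt.M.I_PU

set_option autoImplicit false

/-!
# Item TSt: the straightening function
-/

open MeasureTheory Set Filter Topology
open scoped ContDiff ENNReal
open Pool.Agent.Work.MP_c9f990_an.Al (IsFlow)

namespace Pool.Agent.LQT

open Pool.Agent.MLS Pool.Agent.EC Pool.Agent.STR Pool.Agent.DR Pool.Agent.LQR

namespace ITSt

variable {m : ℕ} {Γ : Type} [Group Γ] [MulAction Γ (E m)]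

/-- local finiteness -/
theorem near (hG : Cocompact m Γ) (χ : E m → ℝ) (hχ : PU Γ χ) (x : E m) :
    ∃ F : Finset Γ, ∀ y ∈ Metric.ball x 1, ∀ a : Γ, χ (a • y) ≠ 0 → a ∈ F := by
  obtain ⟨R, hR⟩ := hχ.cpt.isCompact.isBounded.subset_closedBall (0 : E m)
  exact IPU.fin_near hG χ R (fun y hy => hR (subset_tsupport χ hy)) x

/-- the sum as a finite sum -/
theorem sum_eq (χ : E m → ℝ) (w : Γ → ℝ) (F : Finset Γ) (y : E m)
    (hF : ∀ a : Γ, χ (a • y) ≠ 0 → a ∈ F) :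
    ∑ᶠ a : Γ, χ (a • y) * w a = ∑ a ∈ F, χ (a • y) * w a := by
  refine finsum_eq_sum_of_support_subset _ fun a ha => hF a ?_
  intro h0
  apply ha
  simp only [h0, zero_mul]

theorem smooth (hG : Cocompact m Γ) (χ : E m → ℝ) (hχ : PU Γ χ) (w : Γ → ℝ) :
    ContDiff ℝ ∞ fun x : E m => ∑ᶠ a : Γ, χ (a • x) * w a := by
  rw [contDiff_iff_contDiffAt]
  intro x
  obtain ⟨F, hF⟩ := near hG χ hχ x
  have h1 : (fun x : E m => ∑ᶠ a : Γ, χ (a • x) * w a) =ᶠ[𝓝 x]
      fun y => ∑ a ∈ F, χ (a • y) * w a := by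
    filter_upwards [Metric.ball_mem_nhds x one_pos] with y hy
    exact sum_eq χ w F y (hF y hy)
  have h2 : ContDiff ℝ ∞ fun y : E m => ∑ a ∈ F, χ (a • y) * w a :=
    ContDiff.sum fun a _ => (hχ.smooth.comp (hG.smooth a)).mul contDiff_const
  exact h2.contDiffAt.congr_of_eventuallyEq h1

theorem trans (hG : Cocompact m Γ) (χ : E m → ℝ) (hχ : PU Γ χ) (η : Γ → ℝ)
    (hη : ∀ a b, η (a * b) = η a + η b) (b : Γ) (x : E m) :
    ∑ᶠ a : Γ, χ (a • b • x) * η a = (∑ᶠ a : Γ, χ (a • x) * η a) - η b := by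
  obtain ⟨F, hF⟩ := near hG χ hχ x
  have hF' := hF x (Metric.mem_ball_self one_pos)
  have h1 : (fun a : Γ => χ (a • b • x) * η a) =
      fun a : Γ => (fun c : Γ => χ (c • x) * (η c - η b)) (Equiv.mulRight b a) := by
    funext a
    simp only [Equiv.coe_mulRight, mul_smul, hη]
    ring
  have h2 : ∑ᶠ a : Γ, (fun c : Γ => χ (c • x) * (η c - η b)) (Equiv.mulRight b a) =
      ∑ᶠ c : Γ, χ (c • x) * (η c - η b) :=
    finsum_comp_equiv (Equiv.mulRight b) (f := fun c : Γ => χ (c • x) * (η c - η b))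
  have h3 : ∑ a ∈ F, χ (a • x) = 1 := by
    have h4 : HasSum (fun a : Γ => χ (a • x)) (∑ a ∈ F, χ (a • x)) := by
      apply hasSum_sum_of_ne_finset_zero
      intro a ha
      by_contra hne
      exact ha (hF' a hne)
    exact h4.unique (hχ.sum x)
  rw [h1, h2, sum_eq χ (fun c => η c - η b) F x hF', sum_eq χ η F x hF']
  simp only [mul_sub, Finset.sum_sub_distrib]
  rw [← Finset.sum_mul, h3, one_mul]

end ITSt

open ITSt in
theorem pr_TSt : TSt := by
  intro m Γ _ _ hG η hη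
  obtain ⟨χ, hχ⟩ := pr_PU m Γ hG
  refine ⟨fun x => (∑ᶠ a : Γ, χ (a • (0 : E m)) * η a) - ∑ᶠ a : Γ, χ (a • x) * η a,
    contDiff_const.sub (smooth hG χ hχ η), sub_self _, fun b x => ?_⟩
  simp only []
  rw [trans hG χ hχ η hη b x]
  ring

end Pool.Agent.LQT
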