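import Pool.Agent.Work.MP_13b5d9_gt.LQ.TStmts
import Pool.Agent.Work.MP_13b5d9_gt.LQ.I_RT

set_option autoImplicit false

/-!
# MP_13b5d9_gt, block LQ, item TT: potentials
-/

open MeasureTheory Set Filter Topology
open scoped ContDiff ENNReal
open Pool.Agent.Work.MP_c9f990_an.Al (IsFlow)

namespace Pool.Agent.LQT

open Pool.Agent.MLS Pool.Agent.EC Pool.Agent.STR Pool.Agent.DR Pool.Agent.LQR

open LQR.IRT in
/-- Item TT. -/
theorem pr_TT (h1 : StRLin) (h2 : TV) : TT := by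
  intro m Γ G _ _ _ _ p k f F z l V τ ψ H R
  obtain ⟨-, hV⟩ := h2 m Γ G p k f F z l V τ ψ H
  obtain ⟨Z, hZ, hZ0, hZj⟩ := hV R
  have hsm : ContDiff ℝ ∞ (fun q : ℝ × (ℝ × E (m + 1)) =>
      (F q.2.1).val (q.1 • q.2.2) (Z (q.2.1, q.1 • q.2.2)) q.2.2) := by
    have e1 : ContDiff ℝ ∞ (fun q : ℝ × (ℝ × E (m + 1)) => ((q.2.1, q.1 • q.2.2) :
        ℝ × E (m + 1))) := by fun_prop
    have e2 : ContDiff ℝ ∞ (fun q : ℝ × (ℝ × E (m + 1)) => (F q.2.1).val (q.1 • q.2.2)) :=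
      H.fam.smooth.comp e1
    have e3 : ContDiff ℝ ∞ (fun q : ℝ × (ℝ × E (m + 1)) => Z (q.2.1, q.1 • q.2.2)) := hZ.comp e1
    have e4 : ContDiff ℝ ∞ (fun q : ℝ × (ℝ × E (m + 1)) => q.2.2) := by fun_prop
    exact (e2.clm_apply e3).clm_apply e4
  have hball : ∀ x : E (m + 1), ‖x‖ ≤ R → ∀ r ∈ uIcc (0 : ℝ) 1, ‖r • x‖ ≤ R := by
    intro x hx r hr
    rw [uIcc_of_le zero_le_one] at hr
    rw [norm_smul, Real.norm_of_nonneg hr.1]
    have h3 := norm_nonneg x
    nlinarith [hr.2]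
  refine ⟨fun q => ∫ r in (0 : ℝ)..1, (F q.1).val (r • q.2) (Z (q.1, r • q.2)) q.2,
    smooth_int _ 0 1 hsm, ?_, ?_⟩
  · intro x hx
    have h3 : (∫ r in (0 : ℝ)..1, (F 0).val (r • x) (Z (0, r • x)) x) =
        ∫ r in (0 : ℝ)..1, fderiv ℝ (fun y : E (m + 1) => ht y + f (pr y)) (r • x) x := by
      apply intervalIntegral.integral_congr
      intro r hr
      show (F 0).val (r • x) (Z (0, r • x)) x =
        fderiv ℝ (fun y : E (m + 1) => ht y + f (pr y)) (r • x) x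
      have hd : HasFDerivAt (fun y : E (m + 1) => ht y + f (pr y))
          (ht + (fderiv ℝ f (pr (r • x))).comp pr) (r • x) := by
        refine (ContinuousLinearMap.hasFDerivAt (ht (m := m))).add ?_
        exact ((H.smf.differentiable (by simp)) (pr (r • x))).hasFDerivAt.comp _
          (ContinuousLinearMap.hasFDerivAt (pr (m := m)))
      rw [hZ0 _ (hball x hx r hr), H.clf, hd.fderiv]
      rfl
    show (∫ r in (0 : ℝ)..1, (F 0).val (r • x) (Z (0, r • x)) x) = ht x + f (pr x)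
    have hs : ContDiff ℝ ∞ (fun y : E (m + 1) => ht y + f (pr y)) :=
      (ContinuousLinearMap.contDiff (ht (m := m))).add
        (H.smf.comp (ContinuousLinearMap.contDiff (pr (m := m))))
    rw [h3, ← ray _ hs x]
    simp [H.f0]
  · filter_upwards [hZj] with j hj x hx
    have h3 : τ j x = ∫ r in (0 : ℝ)..1, fderiv ℝ (τ j) (r • x) x := by
      rw [← ray (τ j) (H.ax j).smoothT x, H.t0 j, sub_zero]
    rw [h3]
    apply intervalIntegral.integral_congr
    intro r hr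
    show fderiv ℝ (τ j) (r • x) x = (F (sj j)).val (r • x) (Z (sj j, r • x)) x
    rw [(H.ax j).grad, hj _ (hball x hx r hr)]

end Pool.Agent.LQT
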