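import Pool.Agent.Work.MP_13b5d9_gt.LQ.TStmts
import Pool.Agent.Work.MP_13b5d9_gt.LQ.I_RTr

set_option autoImplicit false

/-!
# MP_13b5d9_gt, block LQ, item TTr: transversality
-/

open MeasureTheory Set Filter Topology
open scoped ContDiff ENNReal
open Pool.Agent.Work.MP_c9f990_an.Al (IsFlow)

namespace Pool.Agent.LQT

open Pool.Agent.MLS Pool.Agent.EC Pool.Agent.STR Pool.Agent.DR Pool.Agent.LQR

/-- Transversality: for large `j` the canonical field is transversal to the slices. -/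
theorem pr_TTr (h1 : StRLin) (h2 : StRPd) (h3 : TV) : TTr := by
  intro m Γ G _ _ _ _ p k f F z l V τ ψ hC
  obtain ⟨hl1, hl2, hl3, hl4, -⟩ := h1 m
  obtain ⟨-, -, -, hdac⟩ := h2 m Γ G p k hC.pd
  obtain ⟨K, hK, hcov⟩ := hC.pd.cocG.cocompact
  obtain ⟨R, hR⟩ := hK.isBounded.exists_norm_le
  obtain ⟨Z, hZs, hZ0, hZV⟩ := (h3 m Γ G p k f F z l V τ ψ hC).2 R
  have hcont : Continuous fun q : ℝ × E (m + 1) => ht (Z q) :=
    (ht (m := m)).continuous.comp hZs.continuous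
  have hev : ∀ᶠ s in 𝓝 (0 : ℝ), ∀ x ∈ K, 1 / 2 < ht (Z (s, x)) := by
    refine hK.eventually_forall_of_forall_eventually (P := fun s x => 1 / 2 < ht (Z (s, x))) ?_
    intro x hx
    have h0 : ht (Z (0, x)) = 1 := by rw [hZ0 x (hR x hx), hl4]
    have : (1 / 2 : ℝ) < ht (Z (0, x)) := by rw [h0]; norm_num
    exact hcont.continuousAt.eventually (lt_mem_nhds this)
  have hev2 : ∀ᶠ j in atTop, ∀ x ∈ K, 1 / 2 < ht (Z (sj j, x)) := LQR.IRTr.sj_tendsto.eventually hev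
  filter_upwards [hev2, hZV] with j hj hjV
  refine ⟨fun y => ?_, hC.t0 j⟩
  obtain ⟨a, ha⟩ := hcov y
  have e1 : V j (a • y) = Z (sj j, a • y) := hjV _ (hR _ ha)
  have e2 : ht (V j (a • y)) = ht (V j y) := by
    rw [(hC.ax j).inv a y, hdac, map_add, hl2, map_smul, hl4]
    simp
  rw [← e2, e1]
  exact (hj _ ha).le

end Pool.Agent.LQT
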