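import Pool.Agent.Work.MP_13b5d9_gt.LQ.RStmts

set_option autoImplicit false

/-!
# MP_13b5d9_gt, block LQ, item RV: lengths and unit fields
-/

open MeasureTheory Set Filter Topology
open scoped ContDiff ENNReal
open Pool.Agent.Work.MP_c9f990_an.Al (IsFlow)

namespace Pool.Agent.LQR

open Pool.Agent.MLS Pool.Agent.EC Pool.Agent.STR Pool.Agent.DR

namespace IRV

theorem sj_tendsto : Tendsto sj atTop (𝓝 0) :=
  tendsto_pow_atTop_nhds_zero_of_lt_one (by norm_num) (by norm_num)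

/-- square root of a smooth function which is one at the origin, cut off -/
theorem root (q : ℝ → ℝ) (hq : ContDiff ℝ ∞ q) (h0 : q 0 = 1) :
    ∃ lt : ℝ → ℝ, ContDiff ℝ ∞ lt ∧ lt 0 = 1 ∧ (∀ s, 1 / 2 ≤ lt s) ∧
      ∀ᶠ s in 𝓝 (0 : ℝ), lt s = Real.sqrt (q s) := by
  have hc : ∀ᶠ s in 𝓝 (0 : ℝ), 1 / 2 < q s :=
    hq.continuous.continuousAt.eventually (lt_mem_nhds (by rw [h0]; norm_num))
  obtain ⟨δ, hδ, hq'⟩ := Metric.eventually_nhds_iff.1 hc
  let κ : ContDiffBump (0 : ℝ) := ⟨δ / 3, δ / 2, by positivity, by linarith⟩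
  have hκ1 : ∀ s : ℝ, dist s 0 ≤ δ / 3 → κ s = 1 := fun s hs =>
    κ.one_of_mem_closedBall (Metric.mem_closedBall.2 hs)
  have hκ0 : ∀ s : ℝ, δ / 2 ≤ dist s 0 → κ s = 0 := fun s hs => κ.zero_of_le_dist hs
  have hpos : ∀ s, 1 / 2 ≤ κ s * q s + (1 - κ s) := by
    intro s
    by_cases hs : δ / 2 ≤ dist s 0
    · rw [hκ0 s hs]
      norm_num
    · have h1 : 1 / 2 < q s := hq' (lt_trans (not_le.1 hs) (by linarith))
      have h2 : 0 ≤ κ s := κ.nonneg
      have h3 : κ s ≤ 1 := κ.le_one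
      nlinarith [mul_nonneg h2 (sub_nonneg.2 h1.le)]
  refine ⟨fun s => Real.sqrt (κ s * q s + (1 - κ s)), ?_, ?_, fun s => ?_, ?_⟩
  · refine ContDiff.sqrt ?_ fun s => ?_
    · exact (κ.contDiff.mul hq).add (contDiff_const.sub κ.contDiff)
    · have := hpos s
      exact (lt_of_lt_of_le (by norm_num) this).ne'
  · change Real.sqrt (κ 0 * q 0 + (1 - κ 0)) = 1
    rw [hκ1 0 (by rw [dist_self]; positivity), h0]
    norm_num
  · refine (Real.le_sqrt' (by norm_num)).2 ?_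
    have := hpos s
    linarith
  · filter_upwards [Metric.closedBall_mem_nhds (0 : ℝ) (by positivity : 0 < δ / 3)] with s hs
    rw [hκ1 s (Metric.mem_closedBall.1 hs)]
    congr 1
    ring

end IRV

open IRV in
theorem pr_RV (h : StRW) : StRV := by
  intro m Γ G _ _ _ _ p k F z l V τ ψ hC
  obtain ⟨w, hw, hw0, hwj⟩ := h m Γ G p k F z l V τ ψ hC 1
  let q : ℝ → ℝ := fun s => (F s).val 0 (w (s, 0)) (w (s, 0))
  have hq : ContDiff ℝ ∞ q := by
    have h1 : ContDiff ℝ ∞ (fun s : ℝ => (F s).val 0) :=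
      hC.fam.smooth.comp (contDiff_id.prodMk contDiff_const)
    have h2 : ContDiff ℝ ∞ (fun s : ℝ => w (s, 0)) :=
      hw.comp (contDiff_id.prodMk contDiff_const)
    exact (h1.clm_apply h2).clm_apply h2
  have hq0 : q 0 = 1 := by
    change (F 0).val 0 (w (0, 0)) (w (0, 0)) = 1
    rw [hw0 0 (by rw [norm_zero]; exact zero_le_one), hC.blk0]
    simp [eL, ee]
  obtain ⟨lt, hlt, hlt0, hltp, hlts⟩ := root q hq hq0
  have hl : ∀ᶠ j in atTop, l j = lt (sj j) := by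
    filter_upwards [hwj, sj_tendsto.eventually hlts] with j h1 h2
    have h3 := h1 0 (by rw [norm_zero]; exact zero_le_one)
    have h4 : q (sj j) = (l j) ^ 2 := by
      change (F (sj j)).val 0 (w (sj j, 0)) (w (sj j, 0)) = _
      rw [← h3, map_smul, map_smul, ContinuousLinearMap.smul_apply, (hC.ax j).unit]
      simp only [smul_eq_mul]
      ring
    rw [h2, h4, Real.sqrt_sq (hC.ax j).pos.le]
  refine ⟨⟨lt, hlt, hlt0, hltp, hl⟩, fun R => ?_⟩
  obtain ⟨w', hw', hw0', hwj'⟩ := h m Γ G p k F z l V τ ψ hC R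
  refine ⟨fun q => (lt q.1)⁻¹ • w' q, ?_, fun x hx => ?_, ?_⟩
  · refine ContDiff.smul (ContDiff.inv (hlt.comp contDiff_fst) fun q => ?_) hw'
    have := hltp q.1
    exact (lt_of_lt_of_le (by norm_num) this).ne'
  · change (lt 0)⁻¹ • w' (0, x) = eL
    rw [hlt0, hw0' x hx, inv_one, one_smul]
  · filter_upwards [hl, hwj'] with j h1 h2 x hx
    change V j x = (lt (sj j))⁻¹ • w' (sj j, x)
    rw [← h2 x hx, ← h1, smul_smul, inv_mul_cancel₀ (hC.ax j).pos.ne', one_smul]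

end Pool.Agent.LQR
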