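import Pool.Agent.Work.MP_13b5d9_gt.LQ.TStmts
import Pool.Agent.Work.MP_13b5d9_gt.LQ.I_RV

set_option autoImplicit false

/-!
# MP_13b5d9_gt, block LQ, item TV: lengths and unit fields
-/

open MeasureTheory Set Filter Topology
open scoped ContDiff ENNReal
open Pool.Agent.Work.MP_c9f990_an.Al (IsFlow)

namespace Pool.Agent.LQT

open Pool.Agent.MLS Pool.Agent.EC Pool.Agent.STR Pool.Agent.DR Pool.Agent.LQR

open LQR.IRV in
theorem pr_TV (h0 : StRLin) (h : TW) : TV := by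
  intro m Γ G _ _ _ _ p k f F z l V τ ψ hC
  obtain ⟨w, hw, hw0, hwj⟩ := h m Γ G p k f F z l V τ ψ hC 1
  let q : ℝ → ℝ := fun s => (F s).val 0 (w (s, 0)) (w (s, 0))
  have hq : ContDiff ℝ ∞ q := by
    have h1 : ContDiff ℝ ∞ (fun s : ℝ => (F s).val 0) :=
      hC.fam.smooth.comp (contDiff_id.prodMk contDiff_const)
    have h2 : ContDiff ℝ ∞ (fun s : ℝ => w (s, 0)) :=
      hw.comp (contDiff_id.prodMk contDiff_const)
    exact (h1.clm_apply h2).clm_apply h2
  have hq0 : q 0 = 1 := by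
    change (F 0).val 0 (w (0, 0)) (w (0, 0)) = 1
    obtain ⟨-, -, hl3, hl4, -⟩ := h0 m
    rw [hw0 0 (by rw [norm_zero]; exact zero_le_one), hC.clf, hl3, hl4, map_zero, add_zero]
  obtain ⟨lt, hlt, hlt0, hltp, hlts⟩ := root q hq hq0
  have hl : ∀ᶠ j in atTop, l j = lt (sj j) := by
    filter_upwards [hwj, sj_tendsto.eventually hlts] with j h1 h2
    have h3 := h1 0 (by rw [norm_zero]; exact zero_le_one)
    have h4 : q (sj j) = (l j) ^ 2 := by
      change (F (sj j)).val 0 (w (sj j, 0)) (w (sj j, 0)) = _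
      rw [← h3, map_smul, map_smul, ContinuousLinearMap.smul_apply, (hC.ax j).unit]
      simp only [smul_eq_mul]
      ring
    rw [h2, h4, Real.sqrt_sq (hC.ax j).pos.le]
  refine ⟨⟨lt, hlt, hlt0, hltp, hl⟩, fun R => ?_⟩
  obtain ⟨w', hw', hw0', hwj'⟩ := h m Γ G p k f F z l V τ ψ hC R
  refine ⟨fun q => (lt q.1)⁻¹ • w' q, ?_, fun x hx => ?_, ?_⟩
  · refine ContDiff.smul (ContDiff.inv (hlt.comp contDiff_fst) fun q => ?_) hw'
    have := hltp q.1
    exact (lt_of_lt_of_le (by norm_num) this).ne'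
  · change (lt 0)⁻¹ • w' (0, x) = eL
    rw [hlt0, hw0' x hx, inv_one, one_smul]
  · filter_upwards [hl, hwj'] with j h1 h2 x hx
    change V j x = (lt (sj j))⁻¹ • w' (sj j, x)
    rw [← h2 x hx, ← h1, smul_smul, inv_mul_cancel₀ (hC.ax j).pos.ne', one_smul]

end Pool.Agent.LQT
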