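import Pool.Agent.Work.MP_13b5d9_gt.LQ.TStmts
import Pool.Agent.Work.MP_13b5d9_gt.LQ.I_RW

set_option autoImplicit false

/-!
# MP_13b5d9_gt, block LQ, item TW: the canonical fields are jointly smooth
-/

open MeasureTheory Set Filter Topology
open scoped ContDiff ENNReal
open Pool.Agent.Work.MP_c9f990_an.Al (IsFlow)

namespace Pool.Agent.LQT

open Pool.Agent.MLS Pool.Agent.EC Pool.Agent.STR Pool.Agent.DR Pool.Agent.LQR

theorem pr_TW (h1 : StRExp) (h2 : TExP) (h3 : StRIft) : TW := by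
  intro m Γ G _ _ _ _ p k f F z l V τ ψ hC R
  obtain ⟨Φ, hΦ, hfl⟩ := h1 (m + 1) G hC.pd.cocG F hC.fam hC.inv
  obtain ⟨M0, hM0⟩ := hfl 0
  have hP := h2 m f (F 0) (Φ 0) M0 (hC.fam.riem 0) hC.smf hC.clf hC.tinv0 hM0
  have hT : ContDiff ℝ ∞ (fun q : ℝ × E (m + 1) × E (m + 1) =>
      expo (Φ q.1) (F q.1) q.2.1 q.2.2 - q.2.1 - eL) :=
    (hΦ.sub (contDiff_fst.comp contDiff_snd)).sub contDiff_const
  obtain ⟨w, δ, hδ, hw, hw0, hwz⟩ := h3 (E (m + 1))
    (fun q : ℝ × E (m + 1) × E (m + 1) => expo (Φ q.1) (F q.1) q.2.1 q.2.2 - q.2.1 - eL)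
    eL (Metric.closedBall 0 R) (isCompact_closedBall 0 R) hT
    (fun x _ => by
      change expo (Φ 0) (F 0) x eL - x - eL = 0
      rw [(hP x).1]
      abel)
    (fun x _ v => by
      have h4 : (fun u : E (m + 1) => expo (Φ 0) (F 0) x u - x - eL) =
          fun u => expo (Φ 0) (F 0) x u - (x + eL) := by
        funext u
        abel
      change fderiv ℝ (fun u : E (m + 1) => expo (Φ 0) (F 0) x u - x - eL) eL v = v
      rw [h4, fderiv_sub_const]
      exact (hP x).2 v)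
  have hmem : ∀ x : E (m + 1), ‖x‖ ≤ R → x ∈ Metric.closedBall (0 : E (m + 1)) R := fun x hx =>
    mem_closedBall_zero_iff.2 hx
  refine ⟨w, hw, fun x hx => hw0 x (hmem x hx), ?_⟩
  have hs : Tendsto sj atTop (𝓝 0) :=
    tendsto_pow_atTop_nhds_zero_of_lt_one (by norm_num) (by norm_num)
  filter_upwards [hs.eventually_lt_const hδ] with j hj x hx
  have hs0 : 0 < sj j := pow_pos (by norm_num) j
  have h5 : expo (Φ (sj j)) (F (sj j)) x (w (sj j, x)) - x - eL = 0 :=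
    hwz (sj j) (by rw [abs_of_pos hs0]; exact hj) x (hmem x hx)
  obtain ⟨M, hM⟩ := hfl (sj j)
  have h6 := LQR.IRW.expo_axis (hC.fam.riem (sj j)) (hC.ax j) hM x
  rw [hC.zt] at h6
  have h7 : expo (Φ (sj j)) (F (sj j)) x (w (sj j, x)) = x + eL := by
    rw [sub_sub, sub_eq_zero] at h5
    exact h5
  exact LQR.IRW.inj (hC.fam.riem (sj j)) (hC.noc j) hM x (h6.trans h7.symm)

end Pool.Agent.LQT
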