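import Mathlib
import Pool.Agent.Work.MP_13b5d9_gt.LQ.TStmts

set_option autoImplicit false

/-!
# MP_13b5d9_gt, block LQ, item TXi: the equivariant diffeomorphism
-/

open MeasureTheory Set Filter Topology
open scoped ContDiff ENNReal
open Pool.Agent.Work.MP_c9f990_an.Al (IsFlow)

namespace Pool.Agent.LQT

open Pool.Agent.MLS Pool.Agent.EC Pool.Agent.STR Pool.Agent.DR Pool.Agent.LQR

namespace ITXi

/-- the coordinates `(pr y, l (ht y + f (pr y)))` -/
noncomputable def AA {m : ℕ} (f : E m → ℝ) (l : ℝ) (y : E (m + 1)) : E m × ℝ :=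
  (pr y, l * (ht y + f (pr y)))

/-- the inverse -/
noncomputable def BB {m : ℕ} (f : E m → ℝ) (l : ℝ) (p : E m × ℝ) : E (m + 1) :=
  jn p.1 (p.2 / l - f p.1)

theorem AA_smooth {m : ℕ} (f : E m → ℝ) (l : ℝ) (hf : ContDiff ℝ ∞ f) :
    ContDiff ℝ ∞ (AA f l) := by
  unfold AA
  have h1 : ContDiff ℝ ∞ (fun y : E (m + 1) => pr y) := (pr (m := m)).contDiff
  have h2 : ContDiff ℝ ∞ (fun y : E (m + 1) => ht y) := (ht (m := m)).contDiff
  exact h1.prodMk (contDiff_const.mul (h2.add (hf.comp h1)))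

theorem BB_smooth {m : ℕ} (f : E m → ℝ) (l : ℝ) (hf : ContDiff ℝ ∞ f) :
    ContDiff ℝ ∞ (BB f l) := by
  unfold BB jn
  have h1 : ContDiff ℝ ∞ (fun p : E m × ℝ => inc p.1) := (inc (m := m)).contDiff.comp contDiff_fst
  have h2 : ContDiff ℝ ∞ (fun p : E m × ℝ => p.2 / l - f p.1) :=
    (contDiff_snd.div_const l).sub (hf.comp contDiff_fst)
  exact h1.add (h2.smul contDiff_const)

theorem AA_deriv {m : ℕ} (f : E m → ℝ) (l : ℝ) (hf : ContDiff ℝ ∞ f) (y u : E (m + 1)) :
    fderiv ℝ (AA f l) y u = (pr u, l * (ht u + fderiv ℝ f (pr y) (pr u))) := by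
  have h1 : HasFDerivAt (fun y : E (m + 1) => pr y) (pr (m := m)) y := (pr (m := m)).hasFDerivAt
  have h2 : HasFDerivAt (fun y : E (m + 1) => ht y) (ht (m := m)) y := (ht (m := m)).hasFDerivAt
  have h3 : HasFDerivAt f (fderiv ℝ f (pr y)) (pr y) :=
    (hf.differentiable (by simp) (pr y)).hasFDerivAt
  have h4 := h3.comp y h1
  have h5 := h1.prodMk ((h2.add h4).const_mul l)
  have h6 : HasFDerivAt (AA f l) _ y := h5
  rw [h6.fderiv]
  simp
  ring

end ITXi

open ITXi

theorem pr_TXi (h : StRLin) : TXi := by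
  intro m g κ Θ l f hl hf hΘ hΘs hmet
  obtain ⟨h1, h2, h3, h4, h5, h6, h7, -⟩ := h m
  have hl0 : l ≠ 0 := hl.ne'
  -- the equivalence
  let Aeq : E (m + 1) ≃ E m × ℝ :=
    { toFun := AA f l
      invFun := BB f l
      left_inv := by
        intro y
        simp only [AA, BB]
        rw [mul_div_cancel_left₀ _ hl0, add_sub_cancel_right]
        exact h5 y
      right_inv := by
        rintro ⟨x, t⟩
        simp only [AA, BB]
        rw [h6, h7]
        rw [sub_add_cancel, mul_div_cancel₀ _ hl0] }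
  have hA : ContDiff ℝ ∞ (Aeq : E (m + 1) → E m × ℝ) := AA_smooth f l hf
  have hB : ContDiff ℝ ∞ (Aeq.symm : E m × ℝ → E (m + 1)) := BB_smooth f l hf
  have hΞ : ∀ y, Θ ((Aeq.trans Θ.symm) y) = AA f l y := by
    intro y
    simp only [Equiv.trans_apply, Equiv.apply_symm_apply]
    rfl
  have hΞs : ContDiff ℝ ∞ (Aeq.trans Θ.symm : E (m + 1) → E (m + 1)) := by
    rw [Equiv.coe_trans]
    exact hΘs.comp hA
  refine ⟨Aeq.trans Θ.symm, hΞ, hΞs, ?_, ?_⟩
  · have : ((Aeq.trans Θ.symm).symm : E (m + 1) → E (m + 1)) = Aeq.symm ∘ Θ := by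
      funext y; rfl
    rw [this]
    exact hB.comp hΘ
  · intro g' hg'
    -- the metric in the coordinates
    have hcomp : ∀ y u, fderiv ℝ Θ ((Aeq.trans Θ.symm) y)
        (fderiv ℝ (Aeq.trans Θ.symm : E (m + 1) → E (m + 1)) y u) =
        (pr u, l * (ht u + fderiv ℝ f (pr y) (pr u))) := by
      intro y u
      rw [← AA_deriv f l hf y u]
      have e : (AA f l) = (Θ : E (m + 1) → E m × ℝ) ∘ (Aeq.trans Θ.symm) := by
        funext z; exact (hΞ z).symm
      rw [e, fderiv_comp y (hΘ.differentiable (by simp) _) (hΞs.differentiable (by simp) _)]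
      rfl
    have key : ∀ y u v, g'.val y u v = 1 / l ^ 2 * κ.val (pr y) (pr u) (pr v) +
        (ht u + fderiv ℝ f (pr y) (pr u)) * (ht v + fderiv ℝ f (pr y) (pr v)) := by
      intro y u v
      rw [hg' y u v, hmet, hcomp, hcomp, hΞ]
      simp only [AA]
      field_simp
    constructor
    · intro y s
      ext u v
      rw [key, key]
      have : pr (y + s • (eL : E (m + 1))) = pr y := by
        rw [map_add, map_smul, h3, smul_zero, add_zero]
      rw [this]
    · intro y v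
      rw [key, h3, h4]
      simp

end Pool.Agent.LQT
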