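import Pool.Agent.Work.MP_13b5d9_gt.LQ.RStmts

set_option autoImplicit false

/-!
# Item RY: adapted coordinates of a family
-/

open MeasureTheory Set Filter Topology
open scoped ContDiff ENNReal
open Pool.Agent.Work.MP_c9f990_an.Al (IsFlow)

namespace Pool.Agent.LQR

open Pool.Agent.MLS Pool.Agent.EC Pool.Agent.STR Pool.Agent.DR

namespace IRY

theorem sjT : Tendsto sj atTop (𝓝 0) := by
  unfold sj
  exact tendsto_pow_atTop_nhds_zero_of_lt_one (by norm_num) (by norm_num)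

/-- uniform convergence on a ball -/
theorem unif {V : Type} [NormedAddCommGroup V] [NormedSpace ℝ V] [FiniteDimensional ℝ V]
    (T : ℝ × V → ℝ) (hT : Continuous T) (R : ℝ) :
    ∀ᶠ s in 𝓝 (0 : ℝ), ∀ x : V, ‖x‖ ≤ R → |T (s, x) - T (0, x)| < 1 := by
  have : ProperSpace V := FiniteDimensional.proper_real V
  set U : Set (ℝ × V) := {q | |T q - T (0, q.2)| < 1} with hU
  have hUo : IsOpen U := by
    have hc : Continuous fun q : ℝ × V => |T q - T (0, q.2)| :=
      (hT.sub (hT.comp (continuous_const.prodMk continuous_snd))).abs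
    exact isOpen_lt hc continuous_const
  have hsub : ({0} : Set ℝ) ×ˢ (Metric.closedBall (0 : V) R) ⊆ U := by
    rintro ⟨s, x⟩ ⟨hs, -⟩
    have hs' : s = 0 := hs
    subst hs'
    simp [hU]
  obtain ⟨u, v, hu, -, h0, hv, huv⟩ := generalized_tube_lemma isCompact_singleton
    (isCompact_closedBall (0 : V) R) hUo hsub
  filter_upwards [hu.mem_nhds (h0 rfl)] with s hs x hx
  have hxv : x ∈ v := hv (by simpa using hx)
  exact huv ⟨hs, hxv⟩

end IRY

open IRY in
theorem pr_RY (h1 : StRLin) (h2 : StRV) (h3 : StRT) (h4 : StRFC) : StRY := by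
  intro m Γ G _ _ _ _ p k F z l V τ ψ hC R
  obtain ⟨-, -, -, -, hdec, hpj, hhj, -, hnp, hnh, hne, -, hadd⟩ := h1 m
  obtain ⟨⟨lt, hlt, hlt0, -, hltj⟩, hZ⟩ := h2 m Γ G p k F z l V τ ψ hC
  set R₁ : ℝ := |R| + 1 with hR₁
  have hR₁0 : 0 < R₁ := by positivity
  have hRR : R ≤ R₁ := (le_abs_self R).trans (by rw [hR₁]; linarith)
  set R₂ : ℝ := 2 * R₁ + 1 with hR₂
  have hR₂0 : 0 < R₂ := by positivity
  obtain ⟨Z, hZs, hZ0, hZj⟩ := hZ (2 * R₂ + 2)
  obtain ⟨T, hTs, hT0, hTj⟩ := h3 m Γ G p k F z l V τ ψ hC R₁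
  obtain ⟨P, δ, hδ, hPs, hP0, hPj⟩ := h4 (m + 1) eL R₂ Z hR₂0 hne hZs hZ0
  -- the base point
  have hbs : ContDiff ℝ ∞ (fun q : ℝ × E (m + 1) => jn (pr q.2) (0 : ℝ)) := by
    unfold jn
    exact ((inc (m := m)).contDiff.comp ((pr (m := m)).contDiff.comp contDiff_snd)).add
      contDiff_const
  have hbn : ∀ y : E (m + 1), ‖jn (pr y) (0 : ℝ)‖ ≤ ‖y‖ := by
    intro y
    have e : jn (pr y) (0 : ℝ) = inc (pr y) := by
      unfold jn
      rw [zero_smul, add_zero]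
    rw [e, (h1 m).2.2.2.2.2.2.2.1]
    exact hnp y
  have hbh : ∀ y : E (m + 1), ht (jn (pr y) (0 : ℝ)) = 0 := fun y => hhj _ _
  have hby : ∀ y : E (m + 1), jn (pr y) (0 : ℝ) + ht y • eL = y := by
    intro y
    have e : jn (pr y) (0 : ℝ) = inc (pr y) := by
      unfold jn
      rw [zero_smul, add_zero]
    rw [e, hdec]
  refine ⟨fun q => P (q.1, lt q.1 * ht q.2 - T (q.1, jn (pr q.2) 0), jn (pr q.2) 0), ?_, ?_, ?_⟩
  · refine hPs.comp (contDiff_fst.prodMk (ContDiff.prodMk ?_ hbs))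
    exact ((hlt.comp contDiff_fst).mul ((ht (m := m)).contDiff.comp contDiff_snd)).sub
      (hTs.comp (contDiff_fst.prodMk hbs))
  · intro y hy
    have hb1 : ‖jn (pr y) (0 : ℝ)‖ ≤ R₁ := (hbn y).trans (hy.trans hRR)
    simp only []
    rw [hlt0, one_mul, hT0 _ hb1, hbh, sub_zero, hP0 _ _ _ (hb1.trans (by rw [hR₂]; linarith)), hby]
    exact (hnh y).trans (hy.trans (hRR.trans (by rw [hR₂]; linarith)))
  · have ha : ∀ᶠ j in atTop, ∀ x : E (m + 1), ‖x‖ ≤ R₁ → |T (sj j, x) - T (0, x)| < 1 :=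
      sjT.eventually (unif T hTs.continuous R₁)
    have hb : ∀ᶠ j in atTop, |lt (sj j)| < 2 := by
      have hc : Tendsto (fun j => |lt (sj j)|) atTop (𝓝 |lt 0|) :=
        ((hlt.continuous.abs).tendsto 0).comp sjT
      refine hc.eventually_lt_const ?_
      rw [hlt0]
      norm_num
    have hc : ∀ᶠ j in atTop, |sj j| < δ := by
      have hc : Tendsto (fun j => |sj j|) atTop (𝓝 |(0 : ℝ)|) := (continuous_abs.tendsto 0).comp sjT
      refine hc.eventually_lt_const ?_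
      rw [abs_zero]
      exact hδ
    filter_upwards [ha, hb, hc, hltj, hZj, hTj] with j hja hjb hjc hjl hjZ hjT y hy
    have hax := hC.ax j
    have hb1 : ‖jn (pr y) (0 : ℝ)‖ ≤ R₁ := (hbn y).trans (hy.trans hRR)
    have hb2 : ‖jn (pr y) (0 : ℝ)‖ ≤ R₂ := hb1.trans (by rw [hR₂]; linarith)
    have ht1 : |lt (sj j) * ht y - T (sj j, jn (pr y) 0)| ≤ R₂ := by
      have e1 := hja _ hb1
      rw [hT0 _ hb1, hbh, sub_zero] at e1
      have e2 : |lt (sj j) * ht y| ≤ 2 * R₁ := by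
        rw [abs_mul]
        exact mul_le_mul hjb.le ((hnh y).trans (hy.trans hRR)) (abs_nonneg _) (by norm_num)
      calc |lt (sj j) * ht y - T (sj j, jn (pr y) 0)|
          ≤ |lt (sj j) * ht y| + |T (sj j, jn (pr y) 0)| := abs_sub _ _
        _ ≤ 2 * R₁ + 1 := add_le_add e2 e1.le
    have key := hPj (sj j) hjc (V j) hjZ (fun t => ψ j t (jn (pr y) 0))
      (fun t => hax.ode _ t) (by rw [hax.zero]; exact hb2) _ ht1
    rw [hax.zero] at key
    unfold Ps
    rw [hjl, hjT _ hb1]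
    exact key

end Pool.Agent.LQR
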