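import Pool.Agent.Work.MP_13b5d9_gt.LQ.TStmts
import Pool.Agent.Work.MP_13b5d9_gt.LQ.I_RY

set_option autoImplicit false

/-!
# MP_13b5d9_gt, block LQ, item TY: adapted coordinates
-/

open MeasureTheory Set Filter Topology
open scoped ContDiff ENNReal
open Pool.Agent.Work.MP_c9f990_an.Al (IsFlow)

namespace Pool.Agent.LQT

open Pool.Agent.MLS Pool.Agent.EC Pool.Agent.STR Pool.Agent.DR Pool.Agent.LQR

open LQR.IRY in
theorem pr_TY (h1 : StRLin) (h2 : TV) (h3 : TT) (h4 : StRFC) : TY := by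
  intro m Γ G _ _ _ _ p k f F z l V τ ψ hC R
  obtain ⟨-, -, -, -, hdec, hpj, hhj, -, hnp, hnh, hne, -, hadd⟩ := h1 m
  obtain ⟨⟨lt, hlt, hlt0, -, hltj⟩, hZ⟩ := h2 m Γ G p k f F z l V τ ψ hC
  set R₁ : ℝ := |R| + 1 with hR₁
  have hR₁0 : 0 < R₁ := by positivity
  have hRR : R ≤ R₁ := (le_abs_self R).trans (by rw [hR₁]; linarith)
  obtain ⟨B, hB0, hB⟩ : ∃ B : ℝ, 0 ≤ B ∧ ∀ x : E m, ‖x‖ ≤ R₁ → |f x| ≤ B := by
    obtain ⟨B, hB⟩ := (isCompact_closedBall (0 : E m) R₁).exists_bound_of_continuousOn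
      hC.smf.continuous.continuousOn
    refine ⟨|B|, abs_nonneg B, fun x hx => ?_⟩
    exact (hB x (mem_closedBall_zero_iff.2 hx)).trans (le_abs_self B)
  set R₂ : ℝ := 2 * R₁ + B + 1 with hR₂
  have hR₂0 : 0 < R₂ := by positivity
  obtain ⟨Z, hZs, hZ0, hZj⟩ := hZ (2 * R₂ + 2)
  obtain ⟨T, hTs, hT0, hTj⟩ := h3 m Γ G p k f F z l V τ ψ hC R₁
  obtain ⟨P, δ, hδ, hPs, hP0, hPj⟩ := h4 (m + 1) eL R₂ Z hR₂0 hne hZs hZ0
  -- the base point
  have hbs : ContDiff ℝ ∞ (fun q : ℝ × E (m + 1) => jn (pr q.2) (0 : ℝ)) := by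
    unfold jn
    exact ((inc (m := m)).contDiff.comp ((pr (m := m)).contDiff.comp contDiff_snd)).add
      contDiff_const
  have hbn : ∀ y : E (m + 1), ‖jn (pr y) (0 : ℝ)‖ ≤ ‖y‖ := by
    intro y
    have e : jn (pr y) (0 : ℝ) = inc (pr y) := by
      unfold jn
      rw [zero_smul, add_zero]
    rw [e, (h1 m).2.2.2.2.2.2.2.1]
    exact hnp y
  have hbh : ∀ y : E (m + 1), ht (jn (pr y) (0 : ℝ)) = 0 := fun y => hhj _ _
  have hbp : ∀ y : E (m + 1), pr (jn (pr y) (0 : ℝ)) = pr y := fun y => hpj _ _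
  have hby : ∀ (y : E (m + 1)) (t : ℝ), jn (pr y) (0 : ℝ) + t • eL = jn (pr y) t := by
    intro y t
    unfold jn
    rw [zero_smul, add_zero]
  refine ⟨fun q => P (q.1, lt q.1 * ht q.2 - T (q.1, jn (pr q.2) 0), jn (pr q.2) 0), ?_, ?_, ?_⟩
  · refine hPs.comp (contDiff_fst.prodMk (ContDiff.prodMk ?_ hbs))
    exact ((hlt.comp contDiff_fst).mul ((ht (m := m)).contDiff.comp contDiff_snd)).sub
      (hTs.comp (contDiff_fst.prodMk hbs))
  · intro y hy
    have hb1 : ‖jn (pr y) (0 : ℝ)‖ ≤ R₁ := (hbn y).trans (hy.trans hRR)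
    have hb3 : |f (pr y)| ≤ B := hB _ ((hnp y).trans (hy.trans hRR))
    simp only []
    rw [hlt0, one_mul, hT0 _ hb1, hbh, hbp, zero_add,
      hP0 _ _ ?_ (hb1.trans (by rw [hR₂]; linarith)), hby]
    · rfl
    · refine (abs_sub _ _).trans ?_
      have := (hnh y).trans (hy.trans hRR)
      rw [hR₂]
      linarith
  · have ha : ∀ᶠ j in atTop, ∀ x : E (m + 1), ‖x‖ ≤ R₁ → |T (sj j, x) - T (0, x)| < 1 :=
      sjT.eventually (unif T hTs.continuous R₁)
    have hb : ∀ᶠ j in atTop, |lt (sj j)| < 2 := by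
      have hc : Tendsto (fun j => |lt (sj j)|) atTop (𝓝 |lt 0|) :=
        ((hlt.continuous.abs).tendsto 0).comp sjT
      refine hc.eventually_lt_const ?_
      rw [hlt0]
      norm_num
    have hc : ∀ᶠ j in atTop, |sj j| < δ := by
      have hc : Tendsto (fun j => |sj j|) atTop (𝓝 |(0 : ℝ)|) := (continuous_abs.tendsto 0).comp sjT
      refine hc.eventually_lt_const ?_
      rw [abs_zero]
      exact hδ
    filter_upwards [ha, hb, hc, hltj, hZj, hTj] with j hja hjb hjc hjl hjZ hjT y hy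
    have hax := hC.ax j
    have hb1 : ‖jn (pr y) (0 : ℝ)‖ ≤ R₁ := (hbn y).trans (hy.trans hRR)
    have hb2 : ‖jn (pr y) (0 : ℝ)‖ ≤ R₂ := hb1.trans (by rw [hR₂]; linarith)
    have ht1 : |lt (sj j) * ht y - T (sj j, jn (pr y) 0)| ≤ R₂ := by
      have e1 := hja _ hb1
      rw [hT0 _ hb1, hbh, hbp, zero_add] at e1
      have hb3 : |f (pr y)| ≤ B := hB _ ((hnp y).trans (hy.trans hRR))
      have e3 : |T (sj j, jn (pr y) 0)| ≤ B + 1 := by
        have e4 : T (sj j, jn (pr y) 0) = (T (sj j, jn (pr y) 0) - f (pr y)) + f (pr y) := by ring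
        rw [e4]
        refine (abs_add_le _ _).trans ?_
        linarith
      have e2 : |lt (sj j) * ht y| ≤ 2 * R₁ := by
        rw [abs_mul]
        exact mul_le_mul hjb.le ((hnh y).trans (hy.trans hRR)) (abs_nonneg _) (by norm_num)
      calc |lt (sj j) * ht y - T (sj j, jn (pr y) 0)|
          ≤ |lt (sj j) * ht y| + |T (sj j, jn (pr y) 0)| := abs_sub _ _
        _ ≤ 2 * R₁ + (B + 1) := add_le_add e2 e3
        _ = R₂ := by rw [hR₂]; ring
    have key := hPj (sj j) hjc (V j) hjZ (fun t => ψ j t (jn (pr y) 0))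
      (fun t => hax.ode _ t) (by rw [hax.zero]; exact hb2) _ ht1
    rw [hax.zero] at key
    unfold Ps
    rw [hjl, hjT _ hb1]
    exact key

end Pool.Agent.LQT
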