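import Pool.Agent.Work.MP_25cd3b_gt.M.All
import Pool.Agent.Work.MP_25cd3b_gt.NG.All
import Pool.Agent.Work.MP_13b5d9_gt.ST.All93
import Pool.Agent.Work.MP_13b5d9_gt.LQ.I_RAct
import Pool.Agent.Work.MP_13b5d9_gt.LQ.I_RCur
import Pool.Agent.Work.MP_13b5d9_gt.LQ.I_RDif
import Pool.Agent.Work.MP_13b5d9_gt.LQ.I_REq
import Pool.Agent.Work.MP_13b5d9_gt.LQ.I_RExp
import Pool.Agent.Work.MP_13b5d9_gt.LQ.I_RFC
import Pool.Agent.Work.MP_13b5d9_gt.LQ.I_RFl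
import Pool.Agent.Work.MP_13b5d9_gt.LQ.I_RIft
import Pool.Agent.Work.MP_13b5d9_gt.LQ.I_RLin
import Pool.Agent.Work.MP_13b5d9_gt.LQ.I_RMet
import Pool.Agent.Work.MP_13b5d9_gt.LQ.I_RPU
import Pool.Agent.Work.MP_13b5d9_gt.LQ.I_RPd
import Pool.Agent.Work.MP_13b5d9_gt.LQ.I_RPs
import Pool.Agent.Work.MP_13b5d9_gt.LQ.I_RSoft
import Pool.Agent.Work.MP_13b5d9_gt.LQ.I_TBk
import Pool.Agent.Work.MP_13b5d9_gt.LQ.I_TEh
import Pool.Agent.Work.MP_13b5d9_gt.LQ.I_TExP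
import Pool.Agent.Work.MP_13b5d9_gt.LQ.I_TG
import Pool.Agent.Work.MP_13b5d9_gt.LQ.I_TGa
import Pool.Agent.Work.MP_13b5d9_gt.LQ.I_TGm
import Pool.Agent.Work.MP_13b5d9_gt.LQ.I_THy
import Pool.Agent.Work.MP_13b5d9_gt.LQ.I_TIs
import Pool.Agent.Work.MP_13b5d9_gt.LQ.I_TLim
import Pool.Agent.Work.MP_13b5d9_gt.LQ.I_TNc
import Pool.Agent.Work.MP_13b5d9_gt.LQ.I_TOpn
import Pool.Agent.Work.MP_13b5d9_gt.LQ.I_TPS
import Pool.Agent.Work.MP_13b5d9_gt.LQ.I_TPa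
import Pool.Agent.Work.MP_13b5d9_gt.LQ.I_TPb
import Pool.Agent.Work.MP_13b5d9_gt.LQ.I_TRm
import Pool.Agent.Work.MP_13b5d9_gt.LQ.I_TSP
import Pool.Agent.Work.MP_13b5d9_gt.LQ.I_TSeq
import Pool.Agent.Work.MP_13b5d9_gt.LQ.I_TSpl
import Pool.Agent.Work.MP_13b5d9_gt.LQ.I_TSt
import Pool.Agent.Work.MP_13b5d9_gt.LQ.I_TT
import Pool.Agent.Work.MP_13b5d9_gt.LQ.I_TTr
import Pool.Agent.Work.MP_13b5d9_gt.LQ.I_TV
import Pool.Agent.Work.MP_13b5d9_gt.LQ.I_TVp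
import Pool.Agent.Work.MP_13b5d9_gt.LQ.I_TW
import Pool.Agent.Work.MP_13b5d9_gt.LQ.I_TXi
import Pool.Agent.Work.MP_13b5d9_gt.LQ.I_TY

set_option autoImplicit false

/-!
# MP_13b5d9_gt, block LQ: parts R and T assembled

`t_Opn`: the set of metrics which are split along `z` is open in the space of metrics without
conjugate points, given THEOREM L (`LQ.StL`).  `t_PS`, `t_SP`: split metrics and parallel fields.
-/

namespace Pool.Agent.LQT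

open Pool.Agent.MLS Pool.Agent.LQR

theorem t_RLin : StRLin := pr_RLin
theorem t_RPd : StRPd := pr_RPd t_RLin
theorem t_RPs : StRPs := pr_RPs t_RLin
theorem t_RDif : StRDif := pr_RDif t_RLin t_RPs
theorem t_REq : StREq := pr_REq t_RLin
theorem t_RAct : StRAct := pr_RAct t_RLin t_RPd
theorem t_RPU : StRPU := pr_RPU t_RLin
theorem t_RMet : StRMet := by
  intro m G _ iG hcoc g hg hinv z l V τ ψ hax Φ hΦ hs hs'
  obtain ⟨g', h1, h2, h3, h4⟩ := IRMet.met t_RPs m G hcoc g hg hinv z l V τ ψ hax Φ hΦ hs hs'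
  exact ⟨g', h1, h2, h3, fun A hA => h4 (fun a y => A.smul a y) hA A fun _ _ => rfl⟩
theorem t_RFl : StRFl := pr_RFl STR.p_SmF
theorem t_RExp : StRExp := pr_RExp t_RFl
theorem t_RIft : StRIft := pr_RIft
theorem t_RFC : StRFC := pr_RFC STR.p_SmF p_Patch
theorem t_RCur : StRCur := pr_RCur
theorem t_RSoft : StRSoft := pr_RSoft

theorem t_Ga : TGa := pr_TGa
theorem t_Rm : TRm := pr_TRm t_Ga
theorem t_Nc : TNc := pr_TNc t_Ga t_Rm
theorem t_Pb : TPb := pr_TPb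
theorem t_Bk : TBk := pr_TBk
theorem t_Eh : TEh := pr_TEh
theorem t_Is : TIs := pr_TIs
theorem t_Hy : THy := pr_THy
theorem t_PS : TPS := pr_TPS t_Eh t_Is t_Hy
theorem t_Vp : TVp := pr_TVp
theorem t_SP : TSP := pr_TSP t_Vp
theorem t_Gm : TGm := pr_TGm
theorem t_Pa : TPa := pr_TPa t_RLin
theorem t_St : TSt := pr_TSt
theorem t_Xi : TXi := pr_TXi t_RLin
theorem t_ExP : TExP := pr_TExP
theorem t_W : TW := pr_TW t_RExp t_ExP t_RIft
theorem t_V : TV := pr_TV t_RLin t_W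
theorem t_T : TT := pr_TT t_RLin t_V
theorem t_Y : TY := pr_TY t_RLin t_V t_T t_RFC
theorem t_Lim : TLim := pr_TLim t_RLin t_Pb
theorem t_G : TG := pr_TG t_V t_Y t_RSoft
theorem t_Tr : TTr := pr_TTr t_RLin t_RPd t_V
theorem t_Spl : TSpl := pr_TSpl t_RLin

/-- the local rigidity of sequences -/
theorem t_Seq (hL : LQ.StL) : TSeq :=
  pr_TSeq t_RLin hL t_RPd t_RDif t_REq t_RAct t_RPU t_RMet t_Nc t_Spl t_G t_Tr t_Lim

/-- the set of split metrics is open -/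
theorem t_Opn (hL : LQ.StL) : TOpn :=
  pr_TOpn (t_Seq hL) t_RCur STR.p_Ax t_RPd t_Gm t_Pa t_St t_Xi t_Pb t_Nc t_Bk t_RLin

end Pool.Agent.LQT
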