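import Pool.Agent.Work.MP_13b5d9_gt.LQ.AllL
import Pool.Agent.Work.MP_13b5d9_gt.LQ.AllQ
import Pool.Agent.Work.MP_13b5d9_gt.LQ.TAll
import Pool.Agent.Work.MP_13b5d9_gt.LQ.FinG
import Pool.Agent.Work.MP_13b5d9_gt.LQ.I_KAf
import Pool.Agent.Work.MP_13b5d9_gt.LQ.I_KCl
import Pool.Agent.Work.MP_13b5d9_gt.LQ.I_KCv
import Pool.Agent.Work.MP_13b5d9_gt.LQ.I_KFin
import Pool.Agent.Work.MP_13b5d9_gt.LQ.I_KNb
import Pool.Agent.Work.MP_13b5d9_gt.LQ.I_KSq
import Pool.Agent.Work.MP_13b5d9_gt.LQ.I_KT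

set_option autoImplicit false

/-!
# MP_13b5d9_gt, block LQ: part K assembled and the main theorem in the layer of `Form`
-/

namespace Pool.Agent.LQK

open Pool.Agent.MLS Pool.Agent.LQR Pool.Agent.LQT

/-- THEOREM L, without hypotheses -/
theorem thL : LQ.StL := LQ.fin_L LQ.thQ

theorem k_Af : StKAf := pr_KAf p_NcGa p_NcExp p_Geo1 pr_Op p_NgMet
theorem k_Cv : StKCv := pr_KCv t_RExp p_NcGx p_NcDist p_NcInj p_NcOne pr_Gd
theorem k_T : StKT := pr_KT k_Cv
theorem k_Cl : StKCl := pr_KCl t_RExp k_Cv k_T t_Eh k_Af STR.p_Ax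
/-- the set of the metrics with parallel canonical field is closed -/
theorem k_Sq : StKSq := pr_KSq k_Cl t_RCur
theorem k_Nb : StKNb := pr_KNb
theorem k_Fin : StKFin := pr_KFin k_Sq k_Nb t_PS t_SP

/-- MAIN THEOREM.  Closed manifold `R^(m+1) / G`, `z ≠ 1` central.  In every continuous family of
metrics without conjugate points (for instance the space of all of them with the `C^∞` topology) the
set of the metrics which are split along `z` is open and closed. -/
theorem clopen (m : ℕ) (G : Type) [Group G] [MulAction G (E (m + 1))]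
    (hG : Cocompact (m + 1) G) (z : G) (hz : z ≠ 1) (hc : ∀ a : G, a * z = z * a)
    (S : Type) [TopologicalSpace S] (g : S → Form (m + 1)) (hg : CF (m + 1) G S g) :
    IsClopen {s : S | Sp m G z (g s)} :=
  k_Fin m G hG z hz hc
    (LQF.opn p_Flow STR.p_Ax (t_Opn thL) t_SP t_PS m G hG z hz hc) S g hg

end Pool.Agent.LQK
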