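import Pool.Agent.Work.MP_13b5d9_gt.LQ.StmtsL

set_option autoImplicit false
set_option maxSynthPendingDepth 3

/-!
# THEOREM L from THEOREM Q
-/

open MeasureTheory Set Filter Topology
open scoped ContDiff ENNReal
open Pool.Agent.Work.MP_c9f990_an.Al (IsFlow)

namespace Pool.Agent.LQ

open Pool.Agent.MLS Pool.Agent.EC Pool.Agent.DR

namespace IFin

/-- no vertical derivative: invariance under translations -/
theorem tinv {m : ℕ} (g : Form (m + 1)) (h : ∀ x, fderiv ℝ g.val x eL = 0) : TInv g eL := by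
  intro x s
  have hd : ∀ r : ℝ, HasDerivAt (fun r : ℝ => g.val (x + r • eL)) 0 r := by
    intro r
    have h1 : HasFDerivAt g.val (fderiv ℝ g.val (x + r • eL)) (x + r • eL) :=
      (g.smooth.differentiable (by norm_num) _).hasFDerivAt
    have h2 : HasDerivAt (fun r : ℝ => x + r • (eL : E (m + 1))) eL r := by
      simpa using ((hasDerivAt_id r).smul_const (eL : E (m + 1))).const_add x
    have h3 := HasFDerivAt.comp_hasDerivAt (f := fun r : ℝ => x + r • (eL : E (m + 1))) r h1 h2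
    rw [h] at h3
    exact h3
  have h4 := is_const_of_deriv_eq_zero (f := fun r : ℝ => g.val (x + r • eL))
    (fun r => (hd r).differentiableAt) (fun r => (hd r).deriv) s 0
  simpa using h4

/-- a symmetric form with zero diagonal vanishes -/
theorem polz {n : ℕ} (b : E n →L[ℝ] E n →L[ℝ] ℝ) (hs : ∀ u v, b u v = b v u)
    (h : ∀ v, b v v = 0) : b = 0 := by
  ext u v
  have h1 := h (u + v)
  have h2 := h u
  have h3 := h v
  simp only [map_add, add_apply] at h1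
  have h4 := hs u v
  simp only [zero_apply]
  linarith

theorem ball_sub {n : ℕ} {s : Set (E n)} {x : E n} {r : ℝ} (hr : 0 ≤ r)
    (hx : x ∈ Metric.cthickening r s) :
    Metric.closedBall x 1 ⊆ Metric.cthickening (r + 1) s := by
  intro y hy
  rw [Metric.mem_cthickening_iff] at hx ⊢
  have h1 : edist y x ≤ ENNReal.ofReal 1 := by
    rw [edist_dist]
    exact ENNReal.ofReal_le_ofReal hy
  calc Metric.infEDist y s ≤ Metric.infEDist x s + edist y x :=
        Metric.infEDist_le_infEDist_add_edist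
    _ ≤ ENNReal.ofReal r + ENNReal.ofReal 1 := add_le_add hx h1
    _ = ENNReal.ofReal (r + 1) := (ENNReal.ofReal_add hr zero_le_one).symm

end IFin

theorem pl_Fin (hMax : LqMax) (hNrm : LqNrm) (hBall : LqBall) (hDer : LqDer) (hFr : LqFr)
    (hInv : LqInv) (hMul : LqMul) (hBds : LqBds) (hSm : LqSm) (hExp : LqExp)
    (hInt : LR.StInt2) : LqFin := by
  intro hQ m G _ act g g0 χ S hs hmult hcov
  obtain ⟨KQ, CQ, hKQ, hCQ, hev⟩ := hQ m G act g g0 χ S hs
  obtain ⟨n, hn⟩ : ∃ n : ℕ, n = m + 1 := ⟨_, rfl⟩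
  obtain ⟨k, hk⟩ : ∃ k : ℕ, k = 7 * n + 31 := ⟨_, rfl⟩
  have hk1 : 1 ≤ k := by omega
  have hkR : (0 : ℝ) < k := by exact_mod_cast (by omega : 0 < k)
  have hk2 : (2 : ℝ) / k < 1 := by
    rw [div_lt_one hkR]
    exact_mod_cast (by omega : 2 < k)
  have hk3 : (1 : ℝ) / k < 1 := by
    rw [div_lt_one hkR]
    exact_mod_cast (by omega : 1 < k)
  set K0 : Set (E (m + 1)) := KQ ∪ S with hK0
  have hK0c : IsCompact K0 := hKQ.union hs.cpt
  set K1 : Set (E (m + 1)) := Metric.cthickening 1 K0 with hK1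
  set K : Set (E (m + 1)) := Metric.cthickening (1 + 1) K0 with hKd
  have hKc : IsCompact K := hK0c.cthickening
  have hK01 : K0 ⊆ K1 := Metric.self_subset_cthickening _
  have hK0K : K0 ⊆ K := Metric.self_subset_cthickening _
  have hK1K : ∀ x ∈ K1, Metric.closedBall x 1 ⊆ K := fun x hx => IFin.ball_sub zero_le_one hx
  have hSK1 : ∀ x ∈ S, Metric.closedBall x 1 ⊆ K1 := by
    intro x hx
    have h1 : x ∈ Metric.cthickening (0 : ℝ) K0 := Metric.self_subset_cthickening _ (Or.inr hx)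
    have h2 := IFin.ball_sub le_rfl h1
    rwa [zero_add] at h2
  obtain ⟨N, hN⟩ := hmult K hKc
  obtain ⟨L, hL1, hLb⟩ := hBds m G act g g0 χ S hs K hKc (k + 1)
  have hL0 : 0 < L := by linarith
  obtain ⟨C0, hC0, hI0⟩ := hInt k 0 1 hk1 (Nat.zero_le _) one_pos
  obtain ⟨C1, hC1, hI1⟩ := hInt k 1 1 hk1 hk1 one_pos
  obtain ⟨C2, hC2, hI2⟩ := hInt k 2 1 hk1 (by omega) one_pos
  obtain ⟨cb, hcb, hB⟩ := hBall (m + 1)
  set Cm : ℝ := C0 + C1 + C2 with hCm
  set A1 : ℝ := Cm * (1 + L) * L ^ (1 - 2 / (k : ℝ)) with hA1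
  set A3 : ℝ := 1 / L with hA3
  set A4 : ℝ := (C1 + 1) * (1 + L) * L ^ (1 - 1 / (k : ℝ)) with hA4
  set A5 : ℝ := L ^ 6 * (n : ℝ) ^ 2 * (N + 1) * CQ with hA5
  have hCm0 : 0 < Cm := by positivity
  have hA10 : 0 < A1 := by positivity
  have hA30 : 0 < A3 := by positivity
  have hA40 : 0 < A4 := by positivity
  have hn0 : (0 : ℝ) < n := by rw [hn]; positivity
  have hA50 : 0 < A5 := by positivity
  obtain ⟨c0, hc0, hE⟩ := hExp n k A1 cb A3 A4 A5 (by omega) hA10 hcb hA30 hA40 hA50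
  -- size of c
  set c1 : ℝ := (1 / A1) ^ (1 / (1 - 2 / (k : ℝ))) with hc1
  have hc10 : 0 < c1 := by positivity
  have hexp : (0 : ℝ) < 1 - 2 / (k : ℝ) := by linarith
  have hexp1 : (0 : ℝ) < 1 - 1 / (k : ℝ) := by linarith
  have hc1' : ∀ c : ℝ, 0 < c → c ≤ c1 → A1 * c ^ (1 - 2 / (k : ℝ)) ≤ 1 := by
    intro c hc hcc
    have h1 : c ^ (1 - 2 / (k : ℝ)) ≤ c1 ^ (1 - 2 / (k : ℝ)) :=
      Real.rpow_le_rpow hc.le hcc hexp.le
    have h2 : c1 ^ (1 - 2 / (k : ℝ)) = 1 / A1 := by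
      rw [hc1, ← Real.rpow_mul (by positivity), one_div_mul_cancel hexp.ne', Real.rpow_one]
    rw [h2] at h1
    calc A1 * c ^ (1 - 2 / (k : ℝ)) ≤ A1 * (1 / A1) := mul_le_mul_of_nonneg_left h1 hA10.le
      _ = 1 := by field_simp
  set ε : ℝ := min (min c0 c1) (1 / L) / L with hε
  have hε0 : 0 < ε := by positivity
  have hεc0 : L * ε ≤ c0 := by
    rw [hε, mul_div_cancel₀ _ hL0.ne']
    exact (min_le_left _ _).trans (min_le_left _ _)
  have hεc1 : L * ε ≤ c1 := by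
    rw [hε, mul_div_cancel₀ _ hL0.ne']
    exact (min_le_left _ _).trans (min_le_right _ _)
  have hεL : L * ε ≤ 1 / L := by
    rw [hε, mul_div_cancel₀ _ hL0.ne']
    exact min_le_right _ _
  filter_upwards [hev, hLb, hSm m G act g g0 χ S hs K hKc ε hε0] with j hjQ hjb hjs
  let _ : MulAction G (E (m + 1)) := act j
  obtain ⟨x0, hx0, c, hc, ⟨v0, hv0, hv0c⟩, hcm⟩ := hMax m G (hs.coc j) (hs.vert j) (g j)
    (hs.riem j) (hs.inv j) S hs.cpt (hcov j)
  obtain ⟨i1, i2, i3, i4⟩ := hInv m G (hs.coc j) (hs.vert j) (g j) (hs.riem j) (hs.inv j)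
  set u : E (m + 1) → E (m + 1) →L[ℝ] E (m + 1) →L[ℝ] ℝ := fun y => fderiv ℝ (g j).val y eL
    with hu
  have hus : ContDiff ℝ ∞ u := by
    have h1 : ContDiff ℝ ∞ (fderiv ℝ (g j).val) := (g j).smooth.fderiv_right (by norm_num)
    exact h1.clm_apply contDiff_const
  have hx0K : x0 ∈ K := hK0K (Or.inr hx0)
  have hnK : ∀ x ∈ K, ‖(g j).val x‖ ≤ L := by
    intro x hx
    have h1 := (hjb x hx).2.1 0 (Nat.zero_le _)
    rwa [norm_iteratedFDeriv_zero] at h1
  rcases hc.eq_or_lt with hc' | hc'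
  · apply IFin.tinv
    intro x
    apply IFin.polz _ (i2 x)
    intro v
    have h1 := hcm x v
    rw [← hc', zero_mul] at h1
    exact abs_nonpos_iff.1 h1
  exfalso
  -- bounds for c
  have hcu : c ≤ L * ‖u x0‖ := by
    have h1 := (hNrm m (g j) x0 L c hL0 hc (hjb x0 hx0K).1 (hnK x0 hx0K)).2 v0 hv0
    rwa [hv0c] at h1
  have hcε : c ≤ L * ε := hcu.trans (mul_le_mul_of_nonneg_left (hjs x0 hx0K) hL0.le)
  have hcc0 : c ≤ c0 := hcε.trans hεc0
  have hcc1 : c ≤ c1 := hcε.trans hεc1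
  have hcL : c ≤ 1 / L := hcε.trans hεL
  have hLc : L * c ≤ 1 := by
    calc L * c ≤ L * (1 / L) := mul_le_mul_of_nonneg_left hcL hL0.le
      _ = 1 := by field_simp
  have hLc0 : 0 < L * c := by positivity
  have hc1le : c ≤ 1 := by
    have : 1 / L ≤ 1 := by
      rw [div_le_one hL0]; exact hL1
    linarith
  have huK : ∀ y ∈ K, ‖u y‖ ≤ L * c := fun y hy =>
    (hNrm m (g j) y L c hL0 hc (hjb y hy).1 (hnK y hy)).1 (hcm y)
  have huk : ∀ y ∈ K, ‖iteratedFDeriv ℝ k u y‖ ≤ L := fun y hy =>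
    (hDer m (g j) k y).trans ((hjb y hy).2.1 (k + 1) le_rfl)
  have husk : ContDiff ℝ k u := hus.of_le (by exact_mod_cast le_top)
  have hball : ∀ x ∈ K1, ∀ y ∈ Metric.closedBall x 1,
      ‖u y‖ ≤ L * c ∧ ‖iteratedFDeriv ℝ k u y‖ ≤ L :=
    fun x hx y hy => ⟨huK y (hK1K x hx hy), huk y (hK1K x hx hy)⟩
  have hmono : ∀ t : ℝ, t ≤ 2 → (L * c) ^ (1 - t / (k : ℝ)) ≤ (L * c) ^ (1 - 2 / (k : ℝ)) := by
    intro t ht
    apply Real.rpow_le_rpow_of_exponent_ge hLc0 hLc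
    have : t / (k : ℝ) ≤ 2 / k := div_le_div_of_nonneg_right ht hkR.le
    linarith
  have hLcpow : (L * c) ^ (1 - 2 / (k : ℝ)) = L ^ (1 - 2 / (k : ℝ)) * c ^ (1 - 2 / (k : ℝ)) :=
    Real.mul_rpow hL0.le hc
  -- beta
  set β : ℝ := (A1 * c ^ (1 - 2 / (k : ℝ))) ^ ((1 : ℝ) / 7) with hβ
  have hbase : 0 < A1 * c ^ (1 - 2 / (k : ℝ)) := by positivity
  have hβ0 : 0 < β := by positivity
  have hβ7 : β ^ 7 = A1 * c ^ (1 - 2 / (k : ℝ)) := by
    rw [hβ, ← Real.rpow_natCast, ← Real.rpow_mul hbase.le]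
    norm_num
  have hβ1 : β ≤ 1 := by
    rw [hβ]
    exact Real.rpow_le_one hbase.le (hc1' c hc' hcc1) (by norm_num)
  have hB7 : Cm * (1 + L) * (L * c) ^ (1 - 2 / (k : ℝ)) = β ^ 7 := by
    rw [hβ7, hA1, hLcpow]
    ring
  have hNB : NB (g j) KQ (β ^ 7) := by
    intro i hi x hx
    have hx1 : x ∈ K1 := hK01 (Or.inl hx)
    rw [← hB7]
    have hpow : 0 ≤ (L * c) ^ (1 - 2 / (k : ℝ)) := by positivity
    have key : ∀ (Ci t : ℝ), 0 < Ci → Ci ≤ Cm → t ≤ 2 →
        Ci * (1 + L) * (L * c) ^ (1 - t / (k : ℝ)) ≤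
          Cm * (1 + L) * (L * c) ^ (1 - 2 / (k : ℝ)) := by
      intro Ci t hCi hle ht
      have h1 := hmono t ht
      have h2 : Ci * (1 + L) ≤ Cm * (1 + L) := mul_le_mul_of_nonneg_right hle (by linarith)
      have h3 : 0 ≤ (L * c) ^ (1 - t / (k : ℝ)) := by positivity
      exact mul_le_mul h2 h1 h3 (by positivity)
    interval_cases i
    · refine (hI0 _ _ u x (L * c) L husk hLc0 hLc hL0.le (hball x hx1)).trans ?_
      exact key C0 ((0 : ℕ) : ℝ) hC0 (by linarith) (by norm_num)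
    · refine (hI1 _ _ u x (L * c) L husk hLc0 hLc hL0.le (hball x hx1)).trans ?_
      exact key C1 ((1 : ℕ) : ℝ) hC1 (by linarith) (by norm_num)
    · refine (hI2 _ _ u x (L * c) L husk hLc0 hLc hL0.le (hball x hx1)).trans ?_
      exact key C2 ((2 : ℕ) : ℝ) hC2 (by linarith) (by norm_num)
  have hQj := hjQ β hβ0 hβ1 hNB
  -- lower bound on the ball
  set Λ : ℝ := A4 * c ^ (1 - 1 / (k : ℝ)) with hΛ
  have hcp : c ≤ c ^ (1 - 1 / (k : ℝ)) := by
    have h1 := Real.rpow_le_rpow_of_exponent_ge hc' hc1le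
      (show 1 - 1 / (k : ℝ) ≤ 1 by
        have : 0 ≤ 1 / (k : ℝ) := by positivity
        linarith)
    rwa [Real.rpow_one] at h1
  have hA41 : 1 ≤ A4 := by
    have h1 : 1 ≤ L ^ (1 - 1 / (k : ℝ)) := Real.one_le_rpow hL1 hexp1.le
    have h2 : 1 ≤ (C1 + 1) * (1 + L) := by nlinarith
    calc (1 : ℝ) = 1 * 1 := (mul_one 1).symm
      _ ≤ (C1 + 1) * (1 + L) * L ^ (1 - 1 / (k : ℝ)) :=
        mul_le_mul h2 h1 zero_le_one (by positivity)
  have hA31 : A3 ≤ 1 := by
    rw [hA3, div_le_one hL0]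
    exact hL1
  have haΛ : A3 * c ≤ Λ := by
    calc A3 * c ≤ 1 * c := mul_le_mul_of_nonneg_right hA31 hc
      _ = c := one_mul c
      _ ≤ c ^ (1 - 1 / (k : ℝ)) := hcp
      _ = 1 * c ^ (1 - 1 / (k : ℝ)) := (one_mul _).symm
      _ ≤ Λ := mul_le_mul_of_nonneg_right hA41 (by positivity)
  have hau : A3 * c ≤ ‖u x0‖ := by
    rw [hA3, one_div_mul_eq_div, div_le_iff₀ hL0]
    linarith [hcu]
  have hfd : ∀ y ∈ Metric.closedBall x0 1, ‖fderiv ℝ u y‖ ≤ Λ := by
    intro y hy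
    have hy1 : y ∈ K1 := hSK1 x0 hx0 hy
    have h1 := hI1 _ _ u y (L * c) L husk hLc0 hLc hL0.le (hball y hy1)
    rw [norm_iteratedFDeriv_one] at h1
    refine h1.trans ?_
    rw [hΛ, hA4, Nat.cast_one, Real.mul_rpow hL0.le hc]
    have h2 : C1 * (1 + L) ≤ (C1 + 1) * (1 + L) := by nlinarith
    have h3 : 0 ≤ L ^ (1 - 1 / (k : ℝ)) * c ^ (1 - 1 / (k : ℝ)) := by positivity
    calc C1 * (1 + L) * (L ^ (1 - 1 / (k : ℝ)) * c ^ (1 - 1 / (k : ℝ)))
        ≤ (C1 + 1) * (1 + L) * (L ^ (1 - 1 / (k : ℝ)) * c ^ (1 - 1 / (k : ℝ))) :=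
          mul_le_mul_of_nonneg_right h2 h3
      _ = (C1 + 1) * (1 + L) * L ^ (1 - 1 / (k : ℝ)) * c ^ (1 - 1 / (k : ℝ)) := by ring
  have hlow := hB _ u x0 (A3 * c) Λ (hus.of_le (by norm_num)) (by positivity) hau haΛ hfd
  -- comparison of the integrals
  set f : E (m + 1) → ℝ := PIN.nb (g j) u with hf
  have hfr := fun x => hFr (m + 1) (g j) (hs.riem j) u x (i2 x)
  have hdc : Continuous (dens (g j)) := by
    unfold dens gm
    refine Real.continuous_sqrt.comp (Continuous.matrix_det ?_)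
    refine continuous_matrix fun i l => ?_
    exact (((g j).smooth.continuous.clm_apply continuous_const).clm_apply continuous_const)
  have hball2 : ∫ y in Metric.closedBall x0 1, ‖u y‖ ^ 2 ≤
      L ^ 3 * ∫ y in K, f y * dens (g j) y := by
    have hbK : Metric.closedBall x0 1 ⊆ K := hK1K x0 (hK01 (Or.inr hx0))
    have hnu : Continuous (fun y => ‖u y‖ ^ 2) := (hus.continuous.norm).pow 2
    calc ∫ y in Metric.closedBall x0 1, ‖u y‖ ^ 2 ≤ ∫ y in K, ‖u y‖ ^ 2 := by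
          apply setIntegral_mono_set (hnu.continuousOn.integrableOn_compact hKc)
            (Eventually.of_forall fun y => sq_nonneg _) hbK.eventuallyLE
      _ ≤ ∫ y in K, L ^ 3 * (f y * dens (g j) y) := by
          apply setIntegral_mono_on (hnu.continuousOn.integrableOn_compact hKc)
            ((continuous_const.mul (i3.mul hdc)).continuousOn.integrableOn_compact hKc)
            hKc.measurableSet
          intro y hy
          obtain ⟨q1, q2, _⟩ := hfr y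
          have h1 := (hNrm m (g j) y L (Real.sqrt (f y)) hL0 (Real.sqrt_nonneg _) (hjb y hy).1
            (hnK y hy)).1 (fun v => q2 v)
          have h2 : ‖u y‖ ^ 2 ≤ L ^ 2 * f y := by
            calc ‖u y‖ ^ 2 ≤ (L * Real.sqrt (f y)) ^ 2 :=
                  pow_le_pow_left₀ (norm_nonneg _) h1 2
              _ = L ^ 2 * f y := by rw [mul_pow, Real.sq_sqrt q1]
          have h3 : 1 ≤ L * dens (g j) y := by
            have := (hjb y hy).2.2.1
            rw [div_le_iff₀ hL0] at this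
            linarith
          have h4 : 0 ≤ L ^ 2 * f y := by positivity
          calc ‖u y‖ ^ 2 ≤ L ^ 2 * f y * 1 := by rw [mul_one]; exact h2
            _ ≤ L ^ 2 * f y * (L * dens (g j) y) := mul_le_mul_of_nonneg_left h3 h4
            _ = L ^ 3 * (f y * dens (g j) y) := by ring
      _ = L ^ 3 * ∫ y in K, f y * dens (g j) y := integral_const_mul _ _
  have hmul := hMul (m + 1) G (hs.coc j) (g j) (hs.riem j) (hs.inv j) (χ j) (hs.pu j) K hKc N
    (fun x hx => hN j x (hs.supp j x hx)) f i3 (fun x => (hfr x).1) i4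
  have hχu : ∫ x, χ j x * (f x * dens (g j) x) ≤
      (n : ℝ) ^ 2 * L ^ 3 * ∫ x, χ j x * ‖u x‖ ^ 2 := by
    rw [← integral_const_mul]
    have hχc : Continuous (χ j) := (hs.pu j).smooth.continuous
    apply integral_mono
    · exact (hχc.mul (i3.mul hdc)).integrable_of_hasCompactSupport (hs.pu j).cpt.mul_right
    · exact (continuous_const.mul (hχc.mul ((hus.continuous.norm).pow 2))
        ).integrable_of_hasCompactSupport ((hs.pu j).cpt.mul_right.mul_left)
    · intro x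
      simp only
      by_cases hx : χ j x = 0
      · simp [hx]
      · have hxK : x ∈ K := hK0K (Or.inr (hs.supp j x hx))
        have h1 := (hfr x).2.2 L hL0 (hjb x hxK).1
        have h2 := (hjb x hxK).2.2.2
        have h3 : 0 ≤ dens (g j) x := Real.sqrt_nonneg _
        have h4 : f x * dens (g j) x ≤ (((m + 1 : ℕ) : ℝ) ^ 2 * L ^ 2 * ‖u x‖ ^ 2) * L :=
          mul_le_mul h1 h2 h3 (by positivity)
        calc χ j x * (f x * dens (g j) x)
            ≤ χ j x * ((((m + 1 : ℕ) : ℝ) ^ 2 * L ^ 2 * ‖u x‖ ^ 2) * L) :=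
              mul_le_mul_of_nonneg_left h4 ((hs.pu j).nonneg x)
          _ = (n : ℝ) ^ 2 * L ^ 3 * (χ j x * ‖u x‖ ^ 2) := by rw [hn]; ring
  have hχn : 0 ≤ ∫ x, χ j x * (f x * dens (g j) x) := integral_nonneg fun x =>
    mul_nonneg ((hs.pu j).nonneg x) (mul_nonneg (hfr x).1 (Real.sqrt_nonneg _))
  have hfinal : cb * (A3 * c) ^ 2 * (A3 * c / Λ) ^ (m + 1) ≤ A5 * β ^ 15 := by
    calc cb * (A3 * c) ^ 2 * (A3 * c / Λ) ^ (m + 1)
        ≤ ∫ y in Metric.closedBall x0 1, ‖u y‖ ^ 2 := hlow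
      _ ≤ L ^ 3 * ∫ y in K, f y * dens (g j) y := hball2
      _ ≤ L ^ 3 * (N * ∫ x, χ j x * (f x * dens (g j) x)) :=
        mul_le_mul_of_nonneg_left hmul (by positivity)
      _ ≤ L ^ 3 * ((N + 1) * ∫ x, χ j x * (f x * dens (g j) x)) := by
        apply mul_le_mul_of_nonneg_left _ (by positivity)
        nlinarith
      _ ≤ L ^ 3 * ((N + 1) * ((n : ℝ) ^ 2 * L ^ 3 * (CQ * β ^ 15))) := by
        apply mul_le_mul_of_nonneg_left _ (by positivity)
        apply mul_le_mul_of_nonneg_left _ (by positivity)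
        exact hχu.trans (mul_le_mul_of_nonneg_left hQj (by positivity))
      _ = A5 * β ^ 15 := by rw [hA5]; ring
  exact hE c β hc' hcc0 hβ0 hβ7 (by rw [hn]; exact hfinal)

end Pool.Agent.LQ
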