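import Pool.Agent.Work.MP_13b5d9_gt.LQ.StmtsL

set_option autoImplicit false

/-!
# MP_13b5d9_gt, block LQ, item Ball: lower bound for an integral over a ball
-/

open MeasureTheory Set Filter Topology
open scoped ContDiff ENNReal

namespace Pool.Agent.LQ

open Pool.Agent.MLS Pool.Agent.EC Pool.Agent.DR

theorem pl_Ball : LqBall := by
  intro n
  set V : ℝ := (volume (Metric.ball (0 : E n) 1)).toReal with hVdef
  have hV : 0 < V :=
    ENNReal.toReal_pos (Metric.measure_ball_pos volume 0 one_pos).ne' measure_ball_lt_top.ne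
  refine ⟨1 / 4 * (1 / 2) ^ n * V, by positivity, ?_⟩
  intro F _ _ f x0 a Λ hf ha hax haΛ hb
  have hΛ : 0 < Λ := ha.trans_le haΛ
  set ρ : ℝ := a / (2 * Λ) with hρdef
  have hρ0 : 0 < ρ := by positivity
  have hρ1 : ρ ≤ 1 := by
    rw [hρdef, div_le_one (by positivity)]
    linarith
  have hΛρ : Λ * ρ = a / 2 := by
    rw [hρdef]
    field_simp
  have hsub : Metric.closedBall x0 ρ ⊆ Metric.closedBall x0 1 := Metric.closedBall_subset_closedBall hρ1
  have hlow : ∀ y ∈ Metric.closedBall x0 ρ, a ^ 2 / 4 ≤ ‖f y‖ ^ 2 := by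
    intro y hy
    have h1 : ‖f y - f x0‖ ≤ Λ * ‖y - x0‖ :=
      Convex.norm_image_sub_le_of_norm_fderiv_le
        (fun z _ => (hf.differentiable one_ne_zero).differentiableAt) hb
        (convex_closedBall x0 1) (Metric.mem_closedBall_self zero_le_one) (hsub hy)
    have h2 : ‖y - x0‖ ≤ ρ := by
      rw [← dist_eq_norm]
      exact Metric.mem_closedBall.1 hy
    have h3 : Λ * ‖y - x0‖ ≤ a / 2 := by
      rw [← hΛρ]
      exact mul_le_mul_of_nonneg_left h2 hΛ.le
    have h4 : ‖f x0‖ ≤ ‖f y‖ + ‖f y - f x0‖ := by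
      have := norm_sub_norm_le (f x0) (f y)
      rw [norm_sub_rev (f x0) (f y)] at this
      linarith
    have h5 : a / 2 ≤ ‖f y‖ := by linarith
    have h6 : (a / 2) ^ 2 ≤ ‖f y‖ ^ 2 := pow_le_pow_left₀ (by positivity) h5 2
    linarith [h6, (by ring : (a / 2) ^ 2 = a ^ 2 / 4)]
  have hint : IntegrableOn (fun y => ‖f y‖ ^ 2) (Metric.closedBall x0 1) volume :=
    (hf.continuous.norm.pow 2).continuousOn.integrableOn_compact (isCompact_closedBall _ _)
  have hvol : (volume (Metric.closedBall x0 ρ)).toReal = ρ ^ n * V := by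
    rw [Measure.addHaar_closedBall volume x0 hρ0.le, ENNReal.toReal_mul,
      ENNReal.toReal_ofReal (by positivity), finrank_euclideanSpace_fin]
  have hr : 1 / 4 * (1 / 2) ^ n * V * a ^ 2 * (a / Λ) ^ n =
      (volume (Metric.closedBall x0 ρ)).toReal * (a ^ 2 / 4) := by
    have h7 : ρ = 1 / 2 * (a / Λ) := by
      rw [hρdef]
      field_simp
    rw [hvol, h7, mul_pow]
    ring
  calc 1 / 4 * (1 / 2) ^ n * V * a ^ 2 * (a / Λ) ^ n
      = (volume (Metric.closedBall x0 ρ)).toReal * (a ^ 2 / 4) := hr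
    _ = ∫ _ in Metric.closedBall x0 ρ, a ^ 2 / 4 := by
        rw [setIntegral_const, smul_eq_mul]
        rfl
    _ ≤ ∫ y in Metric.closedBall x0 ρ, ‖f y‖ ^ 2 :=
        setIntegral_mono_on
          (integrableOn_const (measure_closedBall_lt_top).ne) (hint.mono_set hsub)
          measurableSet_closedBall hlow
    _ ≤ ∫ y in Metric.closedBall x0 1, ‖f y‖ ^ 2 :=
        setIntegral_mono_set hint (Eventually.of_forall fun y => by positivity)
          hsub.eventuallyLE

end Pool.Agent.LQ
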