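import Pool.Agent.Work.MP_13b5d9_gt.LQ.Defs
import Pool.Agent.Work.MP_13b5d9_gt.PI.Stmts
import Pool.Agent.Work.MP_13b5d9_gt.LR.StmtsA

set_option autoImplicit false

/-!
# MP_13b5d9_gt, block LQ: from THEOREM Q to THEOREM L (interpolation)

`u = fderiv ℝ g.val · eL` is the derivative of the metric in the vertical direction, and
`d1 g x v = u x v v`.  `StX` are the statements of MP_25cd3b_gt/M/Stmts, `PiX` those of PI/Stmts,
`LR.StInt2` the interpolation inequality (proved in LR/I_Int2).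
-/

open MeasureTheory Set Filter Topology
open scoped ContDiff ENNReal
open Pool.Agent.Work.MP_c9f990_an.Al (IsFlow)

namespace Pool.Agent.LQ

open Pool.Agent.MLS Pool.Agent.EC Pool.Agent.DR

/-- Maximum of the invariant norm of `u`.  Invariance: differentiate
`g (a (x + s e)) (dac a (x + s e) v, dac a (x + s e) v) = g (x + s e) (v, v)` at `s = 0`; by `Vert`
`a (x + s e) = a x + s e` and `dac a (x + s e) = dac a x`, so `d1 g (a x) (dac a x v) = d1 g x v`.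
The quotient `|d1 g x v| / g (v, v)` is continuous on the compact set `S` times the unit sphere and
attains its maximum `c` at `(x0, v0)`; `v = v0 / g (v0, v0)^(1/2)`.  For an arbitrary `x` choose `a`
with `a x ∈ S`. -/
def LqMax : Prop := ∀ (m : ℕ) (G : Type) [Group G] [MulAction G (E (m + 1))],
  Cocompact (m + 1) G → Vert (m + 1) G eL → ∀ g : Form (m + 1), Riem g → MLS.Inv G g →
  ∀ S : Set (E (m + 1)), IsCompact S → (∀ x : E (m + 1), ∃ a : G, a • x ∈ S) →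
  ∃ x0 ∈ S, ∃ c : ℝ, 0 ≤ c ∧ (∃ v, g.val x0 v v = 1 ∧ |d1 g x0 v| = c) ∧
    ∀ x v, |d1 g x v| ≤ c * g.val x v v

/-- Comparison with the norm.  `u x` is symmetric (derivative of symmetric forms).  Polarization:
`b (v, w) = (b (v + w, v + w) - b (v - w, v - w)) / 4`, so `|b (v, v)| ≤ c L ‖v‖^2` for all `v` gives
`|b (v, w)| ≤ c L` for unit vectors (parallelogram law).  Second part:
`|d1 g x v| ≤ ‖u x‖ ‖v‖^2 ≤ ‖u x‖ L`. -/
def LqNrm : Prop := ∀ (m : ℕ) (g : Form (m + 1)) (x : E (m + 1)) (L c : ℝ), 0 < L → 0 ≤ c →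
  (∀ v, ‖v‖ ^ 2 ≤ L * g.val x v v) → ‖g.val x‖ ≤ L →
  ((∀ v, |d1 g x v| ≤ c * g.val x v v) → ‖fderiv ℝ g.val x eL‖ ≤ L * c) ∧
  ∀ v, g.val x v v = 1 → |d1 g x v| ≤ L * ‖fderiv ℝ g.val x eL‖

/-- Lower bound for an integral over a ball.  On the ball of radius `ρ = a / (2 Λ) ≤ 1/2` around
`x0` the norm of `f` is at least `a - Λ ρ = a / 2`, and the volume is `ρ^n` times the volume of the
unit ball. -/
def LqBall : Prop := ∀ n : ℕ, ∃ c : ℝ, 0 < c ∧ ∀ (F : Type) [NormedAddCommGroup F]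
  [NormedSpace ℝ F] (f : E n → F) (x0 : E n) (a Λ : ℝ), ContDiff ℝ 1 f → 0 < a → a ≤ ‖f x0‖ →
  a ≤ Λ → (∀ y ∈ Metric.closedBall x0 1, ‖fderiv ℝ f y‖ ≤ Λ) →
  c * a ^ 2 * (a / Λ) ^ n ≤ ∫ y in Metric.closedBall x0 1, ‖f y‖ ^ 2

/-- Derivatives of `u`.  `u` is the composition of `fderiv ℝ g.val` with the evaluation at `eL`, a
continuous linear map of norm at most `‖eL‖ = 1` (`ContinuousLinearMap.norm_iteratedFDeriv_comp_left`),
and `‖iteratedFDeriv i (fderiv f)‖ = ‖iteratedFDeriv (i + 1) f‖` (`norm_iteratedFDeriv_fderiv`). -/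
def LqDer : Prop := ∀ (m : ℕ) (g : Form (m + 1)) (i : ℕ) (x : E (m + 1)),
  ‖iteratedFDeriv ℝ i (fun y => fderiv ℝ g.val y eL) x‖ ≤ ‖iteratedFDeriv ℝ (i + 1) g.val x‖

/-- The square of the norm of a symmetric form with respect to `g`.  Let `e_i` be a basis which is
orthonormal for `g.val x` (as in the proof of `StFib`, file MP_25cd3b_gt/M/I_Fib, or PI/I_Frm), `B` its
matrix: `Bᵀ (gm g x) B = 1`, so `(gm g x)⁻¹ = B Bᵀ` and `nb g b x = tr (N N)` with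
`N = Bᵀ (bm b x) B`, `N i j = b (e_i, e_j)` symmetric: `nb g b x = ∑ (N i j)^2 ≥ 0`.  For
`v = ∑ v_i e_i` Cauchy-Schwarz gives `b (v, v)^2 ≤ nb g b x (∑ v_i^2)^2`, and `g (v, v) = ∑ v_i^2`.
Last part: `‖e_i‖^2 ≤ L`, so `|N i j| ≤ ‖b x‖ L`. -/
def LqFr : Prop := ∀ (n : ℕ) (g : Form n), Riem g →
  ∀ (b : E n → E n →L[ℝ] E n →L[ℝ] ℝ) (x : E n), (∀ u v, b x u v = b x v u) →
  0 ≤ PIN.nb g b x ∧ (∀ v, |b x v v| ≤ Real.sqrt (PIN.nb g b x) * g.val x v v) ∧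
  ∀ L : ℝ, 0 < L → (∀ v, ‖v‖ ^ 2 ≤ L * g.val x v v) →
    PIN.nb g b x ≤ (n : ℝ) ^ 2 * L ^ 2 * ‖b x‖ ^ 2

/-- Invariance of `u` (uses `PiTbI`, `PiTr` or continuity of matrices).  See the proof of `LqMax` for
the first part (polarized). -/
def LqInv : Prop := ∀ (m : ℕ) (G : Type) [Group G] [MulAction G (E (m + 1))],
  Cocompact (m + 1) G → Vert (m + 1) G eL → ∀ g : Form (m + 1), Riem g → MLS.Inv G g →
  (∀ (a : G) (x u v : E (m + 1)), fderiv ℝ g.val (a • x) eL (dac a x u) (dac a x v) =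
    fderiv ℝ g.val x eL u v) ∧
  (∀ x u v : E (m + 1), fderiv ℝ g.val x eL u v = fderiv ℝ g.val x eL v u) ∧
  Continuous (PIN.nb g (fun x => fderiv ℝ g.val x eL)) ∧
  ∀ (a : G) (x : E (m + 1)), PIN.nb g (fun x => fderiv ℝ g.val x eL) (a • x) =
    PIN.nb g (fun x => fderiv ℝ g.val x eL) x

/-- Integral over a compact set.  `∫_K f dens = ∫ 1_K (∑_a χ (a x)) f dens`; substitute `y = a x` in
every term (the measure `dens g dx` is invariant, see the proof of `StFD`, file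
MP_25cd3b_gt/M/I_FD: `MeasurePreserving` of `a` for `dens g dx`): it is
`∫ χ y f y dens y (number of a with a⁻¹ y ∈ K) dy`.  Work with lintegrals as in I_Unf. -/
def LqMul : Prop := ∀ (n : ℕ) (G : Type) [Group G] [MulAction G (E n)], Cocompact n G →
  ∀ g : Form n, Riem g → MLS.Inv G g → ∀ χ : E n → ℝ, PU G χ → ∀ K : Set (E n), IsCompact K →
  ∀ N : ℕ, (∀ x, χ x ≠ 0 → {a : G | a • x ∈ K}.Finite ∧ {a : G | a • x ∈ K}.ncard ≤ N) →
  ∀ f : E n → ℝ, Continuous f → (∀ x, 0 ≤ f x) → (∀ (a : G) x, f (a • x) = f x) →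
  ∫ x in K, f x * dens g x ≤ N * ∫ x, χ x * (f x * dens g x)

/-- Uniform bounds on compact sets (uses `StBnd`, `StDens` for `g0`).  Locally uniform convergence is
uniform on the compact `K` (`tendstoLocallyUniformlyOn_iff_tendstoUniformlyOn_of_compact`), and the
derivatives of `g0.val` are bounded on `K`; `i = 0`: `‖(g j).val x - g0.val x‖ ≤ ε` on `K`.  With
`‖v‖^2 ≤ C g0 (v, v)` this gives `‖v‖^2 ≤ 2 C (g j) (v, v)` for small `ε`.  The density is a continuous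
function of the matrix of the metric: use `CC` (DR/CC.lean; `CC` gives uniform bounds on compact
sets) or the continuity of the determinant. -/
def LqBds : Prop := ∀ (m : ℕ) (G : Type) [Group G] (act : ℕ → MulAction G (E (m + 1)))
  (g : ℕ → Form (m + 1)) (g0 : Form (m + 1)) (χ : ℕ → E (m + 1) → ℝ) (S : Set (E (m + 1))),
  SetupQ m G act g g0 χ S → ∀ K : Set (E (m + 1)), IsCompact K → ∀ k : ℕ, ∃ L : ℝ, 1 ≤ L ∧
  ∀ᶠ j in atTop, ∀ x ∈ K, (∀ v, ‖v‖ ^ 2 ≤ L * (g j).val x v v) ∧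
    (∀ i : ℕ, i ≤ k → ‖iteratedFDeriv ℝ i (g j).val x‖ ≤ L) ∧ 1 / L ≤ dens (g j) x ∧
    dens (g j) x ≤ L

/-- The vertical derivatives tend to zero, uniformly on compact sets: `fderiv g0.val x eL = 0`
(`TInv`), and `‖fderiv (g j).val x eL - fderiv g0.val x eL‖` is at most
`‖iteratedFDeriv 1 (g j).val x - iteratedFDeriv 1 g0.val x‖`. -/
def LqSm : Prop := ∀ (m : ℕ) (G : Type) [Group G] (act : ℕ → MulAction G (E (m + 1)))
  (g : ℕ → Form (m + 1)) (g0 : Form (m + 1)) (χ : ℕ → E (m + 1) → ℝ) (S : Set (E (m + 1))),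
  SetupQ m G act g g0 χ S → ∀ K : Set (E (m + 1)), IsCompact K → ∀ ε : ℝ, 0 < ε →
  ∀ᶠ j in atTop, ∀ x ∈ K, ‖fderiv ℝ (g j).val x eL‖ ≤ ε

/-- Exponents.  Two inequalities for the maximum `c` of the invariant norm contradict each other for
small `c`: with `k > 7 n + 30` the exponent `15/7 (1 - 2/k)` is larger than `2 + n/k`.  (`s` is the
quotient `a / Λ`, `a = A c`, `Λ = A' c^(1 - 1/k)`.) -/
def LqExp : Prop := ∀ (n k : ℕ) (A1 A2 A3 A4 A5 : ℝ), 7 * n + 30 < k → 0 < A1 → 0 < A2 →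
  0 < A3 → 0 < A4 → 0 < A5 → ∃ c0 : ℝ, 0 < c0 ∧ ∀ c β : ℝ, 0 < c → c ≤ c0 → 0 < β →
  β ^ 7 = A1 * c ^ (1 - 2 / (k : ℝ)) →
  A2 * (A3 * c) ^ 2 * (A3 * c / (A4 * c ^ (1 - 1 / (k : ℝ)))) ^ n ≤ A5 * β ^ 15 → False

/-- THEOREM L from THEOREM Q (`LR.StInt2`; written by the captain). -/
def LqFin : Prop := StQ → StL

end Pool.Agent.LQ
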