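import Mathlib
import Pool.Agent.Work.MP_13b5d9_gt.DR.CC
import Pool.Agent.Work.MP_13b5d9_gt.LQ.StmtsL

set_option autoImplicit false

/-!
# MP_13b5d9_gt, block LQ, item Bds: uniform bounds on compact sets
-/

open MeasureTheory Set Filter Topology
open scoped ContDiff ENNReal

namespace Pool.Agent.LQ

open Pool.Agent.MLS Pool.Agent.EC Pool.Agent.DR

namespace ILQBds

variable {m : ℕ} {G : Type} [Group G] {act : ℕ → MulAction G (E (m + 1))}
  {g : ℕ → Form (m + 1)} {g0 : Form (m + 1)} {χ : ℕ → E (m + 1) → ℝ} {S : Set (E (m + 1))}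

theorem cc_iter (h : SetupQ m G act g g0 χ S) (i : ℕ) :
    CC (fun j => iteratedFDeriv ℝ i (g j).val) (iteratedFDeriv ℝ i g0.val) :=
  CC.of_locUnif (h.conv i) (g0.smooth.continuous_iteratedFDeriv (by exact_mod_cast le_top))

theorem unif0 {V F : Type*} [NormedAddCommGroup V] [NormedSpace ℝ V] [NormedAddCommGroup F]
    [NormedSpace ℝ F] {f : ℕ → V → F} {f0 : V → F}
    (h : TendstoLocallyUniformly (fun j => iteratedFDeriv ℝ 0 (f j)) (iteratedFDeriv ℝ 0 f0) atTop)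
    {K : Set V} (hK : IsCompact K) {ε : ℝ} (hε : 0 < ε) :
    ∀ᶠ j in atTop, ∀ x ∈ K, ‖f j x - f0 x‖ < ε := by
  have h1 := (tendstoLocallyUniformlyOn_iff_tendstoUniformlyOn_of_compact hK).1
    h.tendstoLocallyUniformlyOn
  rw [Metric.tendstoUniformlyOn_iff] at h1
  filter_upwards [h1 ε hε] with j hj x hx
  have h2 := hj x hx
  rw [dist_comm, dist_eq_norm] at h2
  have h3 := (iteratedFDeriv ℝ 0 (f j) x - iteratedFDeriv ℝ 0 f0 x).le_opNorm ![]
  simp only [ContinuousMultilinearMap.sub_apply, iteratedFDeriv_zero_apply, Finset.univ_eq_empty,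
    Finset.prod_empty, mul_one] at h3
  exact h3.trans_lt h2

theorem cc_val (h : SetupQ m G act g g0 χ S) : CC (fun j => (g j).val) g0.val := by
  have h1 := cc_iter h 0
  have h2 := h1.comp' (u := fun u => (continuousMultilinearCurryFin0 ℝ (E (m + 1))
    (E (m + 1) →L[ℝ] E (m + 1) →L[ℝ] ℝ)) u)
    (continuousMultilinearCurryFin0 ℝ (E (m + 1))
      (E (m + 1) →L[ℝ] E (m + 1) →L[ℝ] ℝ)).continuous
  exact h2.congr (fun j x => by simp) (fun x => by simp)

/-- the density as a function of the form -/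
noncomputable def dn (B : E (m + 1) →L[ℝ] E (m + 1) →L[ℝ] ℝ) : ℝ :=
  Real.sqrt (Matrix.of fun i j => B (ee i) (ee j)).det

theorem dn_cont : Continuous (dn (m := m)) := by
  unfold dn
  refine Real.continuous_sqrt.comp (Continuous.matrix_det ?_)
  refine continuous_matrix fun i j => ?_
  simp only [Matrix.of_apply]
  fun_prop

theorem cc_dens (h : SetupQ m G act g g0 χ S) : CC (fun j => dens (g j)) (dens g0) :=
  (cc_val h).comp' dn_cont

end ILQBds

open ILQBds in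
/-- Uniform bounds on compact sets. -/
theorem pl_Bds (h1 : StBnd) (h2 : StDens) : LqBds := by
  intro m G _ act g g0 χ S h K hK k
  have hpos : ∀ g' : Form (m + 1), Riem g' → ∀ x, 0 < dens g' x := fun g' hg x =>
    Real.sqrt_pos.2 ((h2 _ g' hg).1 x)
  obtain ⟨C, hC, hCb⟩ := (h1 (m + 1) g0 K hK).2 h.riem0
  choose D hD hDb using fun i => (cc_iter h i).bdd hK
  obtain ⟨C1, hC1, hC1b⟩ := (cc_dens h).bdd hK
  have hinv : CC (fun j x => 1 / dens (g j) x) (fun x => 1 / dens g0 x) :=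
    (CC.const continuous_const).div (cc_dens h) fun x => (hpos g0 h.riem0 x).ne'
  obtain ⟨C2, hC2, hC2b⟩ := hinv.bdd hK
  have hε : (0 : ℝ) < 1 / (2 * C ^ 2) := by positivity
  have hun : ∀ᶠ j in atTop, ∀ x ∈ K, ‖(g j).val x - g0.val x‖ < 1 / (2 * C ^ 2) :=
    unif0 (h.conv 0) hK hε
  have hDall : ∀ᶠ j in atTop, ∀ i ∈ Finset.range (k + 1), ∀ x ∈ K,
      ‖iteratedFDeriv ℝ i (g j).val x‖ ≤ D i :=
    (Filter.eventually_all_finset _).2 fun i _ => hDb i
  have hsum : 0 ≤ ∑ i ∈ Finset.range (k + 1), D i := Finset.sum_nonneg fun i _ => (hD i).le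
  have hC0 : 0 ≤ 2 * C ^ 2 := by positivity
  set L := 1 + 2 * C ^ 2 + C1 + C2 + ∑ i ∈ Finset.range (k + 1), D i with hL
  have hL1 : 1 ≤ L := by linarith
  refine ⟨L, hL1, ?_⟩
  filter_upwards [hun, hDall, hC1b, hC2b] with j hj hjD hj1 hj2 x hx
  refine ⟨fun v => ?_, fun i hi => ?_, ?_, ?_⟩
  · have e1 := hCb x hx v
    have e2 : ‖v‖ ^ 2 ≤ C ^ 2 * g0.val x v v := by
      have h3 : ‖v‖ ^ 2 ≤ (C * nrm g0 x v) ^ 2 := pow_le_pow_left₀ (norm_nonneg _) e1 2
      rwa [mul_pow, nrm, Real.sq_sqrt (g0.nonneg x v)] at h3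
    have e3 : |(g j).val x v v - g0.val x v v| ≤ 1 / (2 * C ^ 2) * ‖v‖ * ‖v‖ := by
      have h3 : ‖(g j).val x - g0.val x‖ < 1 / (2 * C ^ 2) := hj x hx
      have h4 : (g j).val x v v - g0.val x v v = ((g j).val x - g0.val x) v v := by simp
      rw [h4, ← Real.norm_eq_abs]
      refine (ContinuousLinearMap.le_opNorm₂ _ _ _).trans ?_
      gcongr
    have e4 : g0.val x v v ≤ (g j).val x v v + 1 / (2 * C ^ 2) * ‖v‖ ^ 2 := by
      have := (abs_le.1 e3).1
      nlinarith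
    have e5 : C ^ 2 * g0.val x v v ≤ C ^ 2 * (g j).val x v v + ‖v‖ ^ 2 / 2 := by
      have h5 := mul_le_mul_of_nonneg_left e4 (by positivity : 0 ≤ C ^ 2)
      have h6 : C ^ 2 * ((g j).val x v v + 1 / (2 * C ^ 2) * ‖v‖ ^ 2) =
          C ^ 2 * (g j).val x v v + ‖v‖ ^ 2 / 2 := by
        field_simp
      rwa [h6] at h5
    have e6 : ‖v‖ ^ 2 ≤ 2 * C ^ 2 * (g j).val x v v := by linarith
    refine e6.trans (mul_le_mul_of_nonneg_right ?_ ((g j).nonneg x v))
    linarith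
  · have h3 := hjD i (Finset.mem_range.2 (Nat.lt_succ_of_le hi)) x hx
    have h4 : D i ≤ ∑ i ∈ Finset.range (k + 1), D i :=
      Finset.single_le_sum (fun i _ => (hD i).le) (Finset.mem_range.2 (Nat.lt_succ_of_le hi))
    linarith
  · have h3 := hj2 x hx
    have hp := hpos (g j) (h.riem j) x
    rw [Real.norm_eq_abs, abs_of_pos (by positivity)] at h3
    rw [div_le_iff₀ (by linarith)]
    rw [div_le_iff₀ hp] at h3
    nlinarith
  · have h3 := hj1 x hx
    rw [Real.norm_eq_abs, abs_of_pos (hpos (g j) (h.riem j) x)] at h3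
    linarith

end Pool.Agent.LQ
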