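import Pool.Agent.Work.MP_13b5d9_gt.LQ.StmtsL

/-! Item Der: the derivatives of the vertical derivative of a form. -/

open MeasureTheory Set Filter Topology
open scoped ContDiff
open Pool.Agent.MLS Pool.Agent.EC Pool.Agent.DR

namespace Pool.Agent.LQ

namespace ILQDer

theorem norm_eL {m : ℕ} : ‖(eL : E (m + 1))‖ = 1 := by
  unfold eL ee
  simp

/-- the evaluation at a vector has norm at most the norm of the vector -/
theorem norm_ev {V F : Type*} [NormedAddCommGroup V] [NormedSpace ℝ V] [NormedAddCommGroup F]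
    [NormedSpace ℝ F] (v : V) : ‖ContinuousLinearMap.apply ℝ F v‖ ≤ ‖v‖ := by
  refine ContinuousLinearMap.opNorm_le_bound _ (norm_nonneg v) (fun L => ?_)
  rw [ContinuousLinearMap.apply_apply, mul_comm]
  exact L.le_opNorm v

/-- general form: the derivatives of a directional derivative -/
theorem der_bound {V F : Type*} [NormedAddCommGroup V] [NormedSpace ℝ V] [NormedAddCommGroup F]
    [NormedSpace ℝ F] {f : V → F} (hf : ContDiff ℝ ∞ f) (v : V) (hv : ‖v‖ ≤ 1) (i : ℕ) (x : V) :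
    ‖iteratedFDeriv ℝ i (fun y => fderiv ℝ f y v) x‖ ≤ ‖iteratedFDeriv ℝ (i + 1) f x‖ := by
  have h1 : ContDiff ℝ ∞ (fderiv ℝ f) := hf.fderiv_right (m := ∞) le_rfl
  have h2 : ContDiff ℝ i (fderiv ℝ f) := h1.of_le (by exact_mod_cast le_top)
  have h3 := (ContinuousLinearMap.apply ℝ F v).norm_iteratedFDeriv_comp_left
    (h2.contDiffAt (x := x)) le_rfl
  have h4 : (fun y => fderiv ℝ f y v) = (ContinuousLinearMap.apply ℝ F v) ∘ (fderiv ℝ f) := by
    funext y
    rfl
  rw [h4, ← norm_iteratedFDeriv_fderiv]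
  refine h3.trans ?_
  have h5 : ‖ContinuousLinearMap.apply ℝ F v‖ ≤ 1 := (norm_ev v).trans hv
  calc ‖ContinuousLinearMap.apply ℝ F v‖ * ‖iteratedFDeriv ℝ i (fderiv ℝ f) x‖
      ≤ 1 * ‖iteratedFDeriv ℝ i (fderiv ℝ f) x‖ :=
        mul_le_mul_of_nonneg_right h5 (norm_nonneg _)
    _ = ‖iteratedFDeriv ℝ i (fderiv ℝ f) x‖ := one_mul _

end ILQDer

/-- Item Der. -/
theorem pl_Der : LqDer := fun _ g i x => ILQDer.der_bound g.smooth eL ILQDer.norm_eL.le i x

end Pool.Agent.LQ
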