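import Pool.Agent.Work.MP_13b5d9_gt.LQ.StmtsL

set_option autoImplicit false

/-!
# MP_13b5d9_gt, block LQ, item Exp: comparison of exponents
-/

open MeasureTheory Set Filter Topology

namespace Pool.Agent.LQ

theorem pl_Exp : LqExp := by
  intro n k A1 A2 A3 A4 A5 hk h1 h2 h3 h4 h5
  have hkn : (7 : ℝ) * n + 30 < k := by exact_mod_cast hk
  have hn0 : (0 : ℝ) ≤ n := Nat.cast_nonneg n
  have hk0 : (0 : ℝ) < k := by linarith
  obtain ⟨e, he⟩ : ∃ e : ℝ, e = 15 / 7 * (1 - 2 / (k : ℝ)) - (2 + 1 / (k : ℝ) * n) := ⟨_, rfl⟩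
  have hepos : 0 < e := by
    have h6 : e = ((k : ℝ) - 30 - 7 * n) / (7 * k) := by
      rw [he]
      field_simp
      ring
    rw [h6]
    exact div_pos (by linarith) (by positivity)
  obtain ⟨B1, hB1⟩ : ∃ B1 : ℝ, B1 = A2 * A3 ^ 2 * (A3 / A4) ^ n := ⟨_, rfl⟩
  obtain ⟨B2, hB2⟩ : ∃ B2 : ℝ, B2 = A5 * A1 ^ (15 / 7 : ℝ) := ⟨_, rfl⟩
  have hB1p : 0 < B1 := by
    rw [hB1]
    positivity
  have hB2p : 0 < B2 := by
    rw [hB2]
    positivity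
  refine ⟨(B1 / (2 * B2)) ^ (1 / e), by positivity, ?_⟩
  intro c β hc hcc hβ hβ7 hle
  have hL : A2 * (A3 * c) ^ 2 * (A3 * c / (A4 * c ^ (1 - 1 / (k : ℝ)))) ^ n =
      B1 * c ^ (2 + 1 / (k : ℝ) * n) := by
    have h6 : A3 * c / (A4 * c ^ (1 - 1 / (k : ℝ))) = A3 / A4 * c ^ (1 / (k : ℝ)) := by
      have h7 : c = c ^ (1 - 1 / (k : ℝ)) * c ^ (1 / (k : ℝ)) := by
        rw [← Real.rpow_add hc]
        simp
      have h8 : 0 < c ^ (1 - 1 / (k : ℝ)) := Real.rpow_pos_of_pos hc _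
      rw [div_mul_eq_mul_div, div_eq_div_iff (by positivity) h4.ne']
      calc A3 * c * A4 = A3 * (c ^ (1 - 1 / (k : ℝ)) * c ^ (1 / (k : ℝ))) * A4 := by
            rw [← h7]
        _ = A3 * c ^ (1 / (k : ℝ)) * (A4 * c ^ (1 - 1 / (k : ℝ))) := by ring
    have h9 : (c ^ (1 / (k : ℝ))) ^ n = c ^ (1 / (k : ℝ) * n) := by
      rw [← Real.rpow_natCast, ← Real.rpow_mul hc.le]
    have h10 : c ^ (2 + 1 / (k : ℝ) * n) = c ^ 2 * c ^ (1 / (k : ℝ) * n) := by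
      rw [Real.rpow_add hc]
      norm_num
    rw [h6, mul_pow (A3 / A4), h9, h10, hB1]
    ring
  have hR : β ^ 15 = A1 ^ (15 / 7 : ℝ) * c ^ (15 / 7 * (1 - 2 / (k : ℝ))) := by
    have h6 : β ^ 15 = (β ^ 7) ^ (15 / 7 : ℝ) := by
      rw [← Real.rpow_natCast β 7, ← Real.rpow_mul hβ.le, ← Real.rpow_natCast β 15]
      congr 1
      norm_num
    rw [h6, hβ7, Real.mul_rpow h1.le (Real.rpow_nonneg hc.le _), ← Real.rpow_mul hc.le,
      mul_comm (1 - 2 / (k : ℝ))]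
  have h11 : 15 / 7 * (1 - 2 / (k : ℝ)) = (2 + 1 / (k : ℝ) * n) + e := by
    rw [he]
    ring
  rw [hL, hR, h11, Real.rpow_add hc (2 + 1 / (k : ℝ) * n) e] at hle
  have h12 : 0 < c ^ (2 + 1 / (k : ℝ) * n) := Real.rpow_pos_of_pos hc _
  have h13 : B1 ≤ B2 * c ^ e := by
    have h14 : c ^ (2 + 1 / (k : ℝ) * n) * B1 ≤ c ^ (2 + 1 / (k : ℝ) * n) * (B2 * c ^ e) := by
      rw [hB2]
      calc c ^ (2 + 1 / (k : ℝ) * n) * B1 = B1 * c ^ (2 + 1 / (k : ℝ) * n) := mul_comm _ _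
        _ ≤ _ := hle
        _ = _ := by ring
    exact le_of_mul_le_mul_left h14 h12
  have h15 : c ^ e ≤ B1 / (2 * B2) := by
    have h16 := Real.rpow_le_rpow hc.le hcc hepos.le
    rw [← Real.rpow_mul (by positivity), one_div_mul_cancel hepos.ne', Real.rpow_one] at h16
    exact h16
  have h17 : B2 * c ^ e ≤ B1 / 2 := by
    calc B2 * c ^ e ≤ B2 * (B1 / (2 * B2)) := mul_le_mul_of_nonneg_left h15 hB2p.le
      _ = B1 / 2 := by field_simp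
  linarith

end Pool.Agent.LQ
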