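import Pool.Agent.Work.MP_13b5d9_gt.LQ.StmtsL
import Pool.Agent.Work.MP_25cd3b_gt.M.I_Fib

set_option autoImplicit false

/-!
# Block LQ, item Fr: the norm of a symmetric form
-/

open MeasureTheory Set Filter Topology
open scoped ContDiff ENNReal Matrix

namespace Pool.Agent.LQ

open Pool.Agent.MLS Pool.Agent.EC Pool.Agent.DR

namespace ILQFr

/-- symmetric square root with inverse -/
theorem frame {n : ℕ} (g : Form n) (hg : Riem g) (x : E n) :
    ∃ R P : Matrix (Fin n) (Fin n) ℝ, R * R = gm g x ∧ P.transpose = P ∧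
      R * P = 1 ∧ P * R = 1 ∧ (gm g x)⁻¹ = P * P := by
  have hPD := IFib.gm_posDef g hg x
  obtain ⟨R, hRt, hRR⟩ := IFib.exR (gm g x) hPD.posSemidef
  have hdR : R.det * R.det = (gm g x).det := by rw [← Matrix.det_mul, hRR]
  have hR0 : R.det ≠ 0 := by
    intro h0
    rw [h0] at hdR
    simp at hdR
    exact hPD.det_pos.ne hdR
  have hRu : IsUnit R.det := isUnit_iff_ne_zero.mpr hR0
  refine ⟨R, R⁻¹, hRR, ?_, Matrix.mul_nonsing_inv R hRu, Matrix.nonsing_inv_mul R hRu, ?_⟩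
  · rw [Matrix.transpose_nonsing_inv, hRt]
  · rw [← hRR, Matrix.mul_inv_rev]

end ILQFr

open ILQFr

theorem pl_Fr : LqFr := by
  intro n g hg b x hb
  obtain ⟨R, P, hRR, hPt, hRP, hPR, hinv⟩ := frame g hg x
  set B : Matrix (Fin n) (Fin n) ℝ := STR.bm b x with hB
  have hBt : B.transpose = B := by
    ext i j
    simp only [hB, STR.bm, Matrix.transpose_apply, Matrix.of_apply]
    exact hb _ _
  set N : Matrix (Fin n) (Fin n) ℝ := P * B * P with hN
  have hNt : N.transpose = N := by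
    rw [hN, Matrix.transpose_mul, Matrix.transpose_mul, hPt, hBt, Matrix.mul_assoc]
  have hnb : PIN.nb g b x = ∑ i, ∑ j, N i j ^ 2 := by
    have h1 : PIN.nb g b x = (N * N).trace := by
      unfold PIN.nb
      rw [hinv, ← hB, hN]
      have e1 : P * P * B * (P * P * B) = P * (P * B * P * P * B) := by
        simp only [Matrix.mul_assoc]
      rw [e1, Matrix.trace_mul_comm]
      simp only [Matrix.mul_assoc]
    rw [h1]
    simp only [Matrix.trace, Matrix.diag, Matrix.mul_apply]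
    refine Finset.sum_congr rfl fun i _ => Finset.sum_congr rfl fun j _ => ?_
    have : N j i = N i j := by
      have h2 := congrFun (congrFun hNt i) j
      simpa [Matrix.transpose_apply] using h2
    rw [this, sq]
  have hbil : ∀ v w : E n, b x v w = (WithLp.ofLp v) ⬝ᵥ B *ᵥ (WithLp.ofLp w) := fun v w =>
    IFib.bil (b x) v w
  have hgil : ∀ v w : E n, g.val x v w = (WithLp.ofLp v) ⬝ᵥ (gm g x) *ᵥ (WithLp.ofLp w) :=
    fun v w => IFib.bil (g.val x) v w
  -- the frame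
  have hPd : ∀ a c : Fin n → ℝ, (P *ᵥ a) ⬝ᵥ c = a ⬝ᵥ (P *ᵥ c) := by
    intro a c
    rw [Matrix.dotProduct_mulVec, ← Matrix.mulVec_transpose, hPt]
  have hbN : ∀ a c : Fin n → ℝ, b x (WithLp.toLp 2 (P *ᵥ a)) (WithLp.toLp 2 (P *ᵥ c)) =
      a ⬝ᵥ N *ᵥ c := by
    intro a c
    rw [hbil]
    simp only [hPd, Matrix.mulVec_mulVec, hN, Matrix.mul_assoc]
  have hg1 : ∀ a c : Fin n → ℝ, g.val x (WithLp.toLp 2 (P *ᵥ a)) (WithLp.toLp 2 (P *ᵥ c)) =
      a ⬝ᵥ c := by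
    intro a c
    rw [hgil]
    simp only [hPd, Matrix.mulVec_mulVec, ← hRR]
    have : P * (R * R * P) = 1 := by
      rw [Matrix.mul_assoc, hRP, Matrix.mul_one, hPR]
    rw [this, Matrix.one_mulVec]
  have h0 : 0 ≤ PIN.nb g b x := by
    rw [hnb]
    exact Finset.sum_nonneg fun i _ => Finset.sum_nonneg fun j _ => sq_nonneg _
  refine ⟨h0, ?_, ?_⟩
  · intro v
    set ξ : Fin n → ℝ := R *ᵥ (WithLp.ofLp v) with hξ
    have hv : v = WithLp.toLp 2 (P *ᵥ ξ) := by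
      rw [hξ, Matrix.mulVec_mulVec, hPR, Matrix.one_mulVec]
    have hgv : g.val x v v = ∑ i, ξ i ^ 2 := by
      rw [hv, hg1]
      simp only [dotProduct, sq]
    have hbv : b x v v = ∑ i, ∑ j, N i j * (ξ i * ξ j) := by
      rw [hv, hbN]
      simp only [dotProduct, Matrix.mulVec, Finset.mul_sum]
      refine Finset.sum_congr rfl fun i _ => Finset.sum_congr rfl fun j _ => ?_
      ring
    have hCS : (b x v v) ^ 2 ≤ PIN.nb g b x * (g.val x v v) ^ 2 := by
      rw [hbv, hnb, hgv]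
      have e1 : ∑ i, ∑ j, N i j * (ξ i * ξ j) =
          ∑ p : Fin n × Fin n, N p.1 p.2 * (ξ p.1 * ξ p.2) := by
        rw [Fintype.sum_prod_type]
      have e2 : ∑ i, ∑ j, N i j ^ 2 = ∑ p : Fin n × Fin n, N p.1 p.2 ^ 2 := by
        rw [Fintype.sum_prod_type]
      have e3 : (∑ i, ξ i ^ 2) ^ 2 = ∑ p : Fin n × Fin n, (ξ p.1 * ξ p.2) ^ 2 := by
        rw [Fintype.sum_prod_type, sq, Finset.sum_mul_sum]
        refine Finset.sum_congr rfl fun i _ => Finset.sum_congr rfl fun j _ => ?_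
        ring
      rw [e1, e2, e3]
      exact Finset.sum_mul_sq_le_sq_mul_sq _ _ _
    have hgn := g.nonneg x v
    rw [← Real.sqrt_sq_eq_abs]
    calc Real.sqrt ((b x v v) ^ 2) ≤ Real.sqrt (PIN.nb g b x * (g.val x v v) ^ 2) :=
          Real.sqrt_le_sqrt hCS
      _ = Real.sqrt (PIN.nb g b x) * g.val x v v := by
          rw [Real.sqrt_mul h0, Real.sqrt_sq hgn]
  · intro L hL hn
    have hent : ∀ i j, N i j ^ 2 ≤ L ^ 2 * ‖b x‖ ^ 2 := by
      intro i j
      have e1 : N i j = b x (WithLp.toLp 2 (P *ᵥ (Pi.single i 1)))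
          (WithLp.toLp 2 (P *ᵥ (Pi.single j 1))) := by
        rw [hbN]
        simp
      have e2 : ∀ k : Fin n, ‖(WithLp.toLp 2 (P *ᵥ (Pi.single k (1 : ℝ))) : E n)‖ ^ 2 ≤ L := by
        intro k
        refine (hn _).trans ?_
        rw [hg1]
        simp
      have e3 : |N i j| ≤ ‖b x‖ * ‖(WithLp.toLp 2 (P *ᵥ (Pi.single i (1 : ℝ))) : E n)‖ *
          ‖(WithLp.toLp 2 (P *ᵥ (Pi.single j (1 : ℝ))) : E n)‖ := by
        rw [e1, ← Real.norm_eq_abs]
        exact (b x).le_opNorm₂ _ _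
      have e4 : N i j ^ 2 ≤ ‖b x‖ ^ 2 *
          (‖(WithLp.toLp 2 (P *ᵥ (Pi.single i (1 : ℝ))) : E n)‖ ^ 2 *
          ‖(WithLp.toLp 2 (P *ᵥ (Pi.single j (1 : ℝ))) : E n)‖ ^ 2) := by
        rw [← sq_abs]
        calc |N i j| ^ 2 ≤ _ := pow_le_pow_left₀ (abs_nonneg _) e3 2
          _ = _ := by ring
      refine e4.trans ?_
      have e5 : ‖(WithLp.toLp 2 (P *ᵥ (Pi.single i (1 : ℝ))) : E n)‖ ^ 2 *
          ‖(WithLp.toLp 2 (P *ᵥ (Pi.single j (1 : ℝ))) : E n)‖ ^ 2 ≤ L * L :=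
        mul_le_mul (e2 i) (e2 j) (sq_nonneg _) hL.le
      calc _ ≤ ‖b x‖ ^ 2 * (L * L) := mul_le_mul_of_nonneg_left e5 (sq_nonneg _)
        _ = _ := by ring
    rw [hnb]
    calc ∑ i, ∑ j, N i j ^ 2 ≤ ∑ i : Fin n, ∑ j : Fin n, L ^ 2 * ‖b x‖ ^ 2 :=
          Finset.sum_le_sum fun i _ => Finset.sum_le_sum fun j _ => hent i j
      _ = (n : ℝ) ^ 2 * L ^ 2 * ‖b x‖ ^ 2 := by
          simp only [Finset.sum_const, Finset.card_univ, Fintype.card_fin, nsmul_eq_mul]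
          ring

end Pool.Agent.LQ
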