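import Pool.Agent.Work.MP_13b5d9_gt.LQ.StmtsL
import Pool.Agent.Work.MP_13b5d9_gt.DR.I_Kap

set_option autoImplicit false

/-!
# Item Max: the maximum of the invariant norm of the vertical derivative
-/

open MeasureTheory Set Filter Topology
open scoped ContDiff ENNReal
open Pool.Agent.Work.MP_c9f990_an.Al (IsFlow)

namespace Pool.Agent.LQ

open Pool.Agent.MLS Pool.Agent.EC Pool.Agent.DR

namespace ILQMax

theorem d1_smul {m : ℕ} (g : Form (m + 1)) (x v : E (m + 1)) (r : ℝ) :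
    d1 g x (r • v) = r ^ 2 * d1 g x v := by
  unfold d1
  rw [map_smul, map_smul, smul_apply, smul_eq_mul, smul_eq_mul]
  ring

theorem g_smul {m : ℕ} (g : Form (m + 1)) (x v : E (m + 1)) (r : ℝ) :
    g.val x (r • v) (r • v) = r ^ 2 * g.val x v v := by
  rw [map_smul, map_smul, smul_apply, smul_eq_mul, smul_eq_mul]
  ring

theorem cont1 {m : ℕ} (g : Form (m + 1)) :
    Continuous (fun z : E (m + 1) × E (m + 1) => d1 g z.1 z.2) := by
  unfold d1
  have h1 : ContDiff ℝ ∞ (fun x => fderiv ℝ g.val x eL) :=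
    (g.smooth.fderiv_right (by norm_num)).clm_apply contDiff_const
  have h2 : Continuous (fun z : E (m + 1) × E (m + 1) => fderiv ℝ g.val z.1 eL) :=
    h1.continuous.comp continuous_fst
  exact (h2.clm_apply continuous_snd).clm_apply continuous_snd

theorem cont2 {m : ℕ} (g : Form (m + 1)) :
    Continuous (fun z : E (m + 1) × E (m + 1) => g.val z.1 z.2 z.2) :=
  ((g.smooth.continuous.comp continuous_fst).clm_apply continuous_snd).clm_apply continuous_snd

end ILQMax

open ILQMax in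
theorem pl_Max : LqMax := by
  intro m G _ _ _ hv g hR hI S hS hcov
  -- the compact set
  have hK : IsCompact (S ×ˢ Metric.sphere (0 : E (m + 1)) 1) := hS.prod (isCompact_sphere _ _)
  have hne : (S ×ˢ Metric.sphere (0 : E (m + 1)) 1).Nonempty := by
    obtain ⟨a, ha⟩ := hcov 0
    refine ⟨(a • 0, ee 0), ha, ?_⟩
    simp [ee]
  have hpos : ∀ z ∈ S ×ˢ Metric.sphere (0 : E (m + 1)) 1, 0 < g.val z.1 z.2 z.2 := by
    rintro ⟨x, v⟩ ⟨_, hv1⟩
    refine hR x v ?_
    rintro rfl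
    simp at hv1
  have hcont : ContinuousOn (fun z : E (m + 1) × E (m + 1) => |d1 g z.1 z.2| / g.val z.1 z.2 z.2)
      (S ×ˢ Metric.sphere (0 : E (m + 1)) 1) :=
    ((cont1 g).abs.continuousOn).div (cont2 g).continuousOn fun z hz => (hpos z hz).ne'
  obtain ⟨⟨x0, v0⟩, hz0, hmax⟩ := hK.exists_isMaxOn hne hcont
  have hp0 := hpos _ hz0
  simp only at hp0
  refine ⟨x0, hz0.1, |d1 g x0 v0| / g.val x0 v0 v0, by positivity,
    ⟨(Real.sqrt (g.val x0 v0 v0))⁻¹ • v0, ?_, ?_⟩, ?_⟩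
  · rw [g_smul, inv_pow, Real.sq_sqrt hp0.le, inv_mul_cancel₀ hp0.ne']
  · rw [d1_smul, inv_pow, Real.sq_sqrt hp0.le, abs_mul, abs_of_nonneg (inv_nonneg.2 hp0.le),
      div_eq_inv_mul]
  · intro x v
    rcases eq_or_ne v 0 with rfl | hv0
    · unfold d1
      simp
    obtain ⟨a, ha⟩ := hcov x
    have hw : g.val (a • x) (dac a x v) (dac a x v) = g.val x v v := hI a x v v
    have hd : d1 g (a • x) (dac a x v) = d1 g x v := IDRKap.fd_inv hv g hI a x v v
    have hw0 : dac a x v ≠ 0 := by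
      intro h
      rw [h] at hw
      simp only [map_zero] at hw
      exact absurd hw (hR x v hv0).ne
    rw [← hw, ← hd]
    set w := dac a x v with hwd
    have hwn : 0 < ‖w‖ := norm_pos_iff.2 hw0
    have hmem : (a • x, ‖w‖⁻¹ • w) ∈ S ×ˢ Metric.sphere (0 : E (m + 1)) 1 := by
      refine ⟨ha, ?_⟩
      rw [mem_sphere_zero_iff_norm, norm_smul, norm_inv, norm_norm, inv_mul_cancel₀ hwn.ne']
    have h1 := hmax hmem
    have hp1 := hpos _ hmem
    simp only [mem_ofPred_eq] at h1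
    simp only at hp1
    rw [d1_smul, g_smul, abs_mul, abs_of_nonneg (by positivity : (0 : ℝ) ≤ ‖w‖⁻¹ ^ 2),
      mul_div_mul_left _ _ (by positivity : (‖w‖⁻¹ ^ 2 : ℝ) ≠ 0)] at h1
    have hpw : 0 < g.val (a • x) w w := hR _ _ hw0
    rwa [div_le_iff₀ hpw] at h1

end Pool.Agent.LQ
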