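import Pool.Agent.Work.MP_13b5d9_gt.LQ.StmtsL

set_option autoImplicit false

/-!
# MP_13b5d9_gt, block LQ, item Mul: integral over a compact set
-/

open MeasureTheory Set Filter Topology
open scoped ContDiff ENNReal

namespace Pool.Agent.LQ

open Pool.Agent.MLS Pool.Agent.EC Pool.Agent.DR

namespace ILQMul

/-- The partition of unity, in the extended nonnegative reals. -/
theorem tsum_ofReal {n : ℕ} {G : Type} [Group G] [MulAction G (E n)] {χ : E n → ℝ} (h : PU G χ)
    (x : E n) : ∑' a : G, ENNReal.ofReal (χ (a • x)) = 1 := by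
  have h1 := h.sum x
  rw [← ENNReal.ofReal_tsum_of_nonneg (fun a => h.nonneg _) h1.summable, h1.tsum_eq,
    ENNReal.ofReal_one]

/-- counting the elements which move `y` into `K` -/
theorem tsum_count {X G : Type} [Group G] [MulAction G X] (K : Set X) (y : X) (N : ℕ)
    (hfin : {a : G | a • y ∈ K}.Finite) (hN : {a : G | a • y ∈ K}.ncard ≤ N) :
    ∑' a : G, K.indicator (fun _ => (1 : ℝ≥0∞)) (a⁻¹ • y) ≤ N := by
  classical
  have h1 : ∑' a : G, K.indicator (fun _ => (1 : ℝ≥0∞)) (a⁻¹ • y) =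
      ∑' a : G, K.indicator (fun _ => (1 : ℝ≥0∞)) (a • y) :=
    (Equiv.inv G).tsum_eq fun a : G => K.indicator (fun _ => (1 : ℝ≥0∞)) (a • y)
  rw [h1, tsum_eq_sum (s := hfin.toFinset)]
  · have h2 : ∀ a ∈ hfin.toFinset, K.indicator (fun _ => (1 : ℝ≥0∞)) (a • y) = 1 := by
      intro a ha
      have hm : a • y ∈ K := hfin.mem_toFinset.1 ha
      exact Set.indicator_of_mem hm _
    rw [Finset.sum_congr rfl h2, Finset.sum_const, nsmul_eq_mul, mul_one,
      ← Set.ncard_eq_toFinset_card _ hfin]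
    exact_mod_cast hN
  · intro a ha
    have hm : a • y ∉ K := fun h => ha (hfin.mem_toFinset.2 h)
    exact Set.indicator_of_notMem hm _

end ILQMul

open ILQMul

theorem pl_Mul (h2 : StCnt) (h3 : StDens) : LqMul := by
  intro n G _ _ hG g hR hI χ hχ K hK N hN f hf hf0 hfi
  have : Countable G := h2 n G hG
  obtain ⟨_, hdc, hd⟩ := h3 n g hR
  obtain ⟨_, hmp⟩ := hd G hG hI
  have hdc' : Continuous (dens g) := hdc.continuous
  have hd0 : ∀ x, 0 ≤ dens g x := fun x => Real.sqrt_nonneg _
  have hdm : Measurable fun x => ENNReal.ofReal (dens g x) := hdc'.measurable.ennreal_ofReal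
  have hχc : Continuous χ := hχ.smooth.continuous
  have hχm : Measurable fun x => ENNReal.ofReal (χ x) := hχc.measurable.ennreal_ofReal
  have hfm : Measurable fun x => ENNReal.ofReal (f x) := hf.measurable.ennreal_ofReal
  have hKm : MeasurableSet K := hK.isClosed.measurableSet
  have him : Measurable (K.indicator (fun _ => (1 : ℝ≥0∞))) := measurable_const.indicator hKm
  set ν : Measure (E n) := volume.withDensity fun x => ENNReal.ofReal (dens g x) with hν
  set u : E n → ℝ≥0∞ := K.indicator (fun _ => (1 : ℝ≥0∞)) with hu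
  have hact : ∀ a : G, Measurable fun x : E n => a • x := fun a =>
    (hG.smooth a).continuous.measurable
  -- the terms
  have hterm : ∀ a : G, ∫⁻ x, u x * ENNReal.ofReal (χ (a • x)) * ENNReal.ofReal (f x) ∂ν =
      ∫⁻ y, u (a⁻¹ • y) * ENNReal.ofReal (χ y) * ENNReal.ofReal (f y) ∂ν := by
    intro a
    have hm : Measurable fun y : E n =>
        u (a⁻¹ • y) * ENNReal.ofReal (χ y) * ENNReal.ofReal (f y) :=
      ((him.comp (hact a⁻¹)).mul hχm).mul hfm
    rw [← (hmp a).lintegral_comp hm]
    refine lintegral_congr fun x => ?_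
    rw [inv_smul_smul, hfi]
  have hleft : ∫⁻ x, u x * ENNReal.ofReal (f x) ∂ν =
      ∑' a : G, ∫⁻ x, u x * ENNReal.ofReal (χ (a • x)) * ENNReal.ofReal (f x) ∂ν := by
    rw [← lintegral_tsum]
    · refine lintegral_congr fun x => ?_
      rw [ENNReal.tsum_mul_right, ENNReal.tsum_mul_left, tsum_ofReal hχ, mul_one]
    · intro a
      exact ((him.mul (hχm.comp (hact a))).mul hfm).aemeasurable
  have hright : ∑' a : G, ∫⁻ y, u (a⁻¹ • y) * ENNReal.ofReal (χ y) * ENNReal.ofReal (f y) ∂ν ≤
      ∫⁻ y, N * (ENNReal.ofReal (χ y) * ENNReal.ofReal (f y)) ∂ν := by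
    rw [← lintegral_tsum]
    · refine lintegral_mono fun y => ?_
      simp only
      rw [ENNReal.tsum_mul_right, ENNReal.tsum_mul_right, mul_assoc]
      by_cases hy : χ y = 0
      · rw [hy, ENNReal.ofReal_zero, zero_mul, mul_zero, mul_zero]
      · obtain ⟨hfin, hcard⟩ := hN y hy
        exact mul_le_mul_left (tsum_count K y N hfin hcard) _
    · intro a
      exact (((him.comp (hact a⁻¹)).mul hχm).mul hfm).aemeasurable
  have key : ∫⁻ x, u x * ENNReal.ofReal (f x) ∂ν ≤
      N * ∫⁻ y, ENNReal.ofReal (χ y) * ENNReal.ofReal (f y) ∂ν := by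
    rw [hleft]
    refine le_trans (le_of_eq (tsum_congr hterm)) (hright.trans (le_of_eq ?_))
    exact lintegral_const_mul _ (hχm.mul hfm)
  have hm1 : Measurable fun x => u x * ENNReal.ofReal (f x) := him.mul hfm
  have hm2 : Measurable fun x => ENNReal.ofReal (χ x) * ENNReal.ofReal (f x) := hχm.mul hfm
  rw [hν, lintegral_withDensity_eq_lintegral_mul _ hdm hm1,
    lintegral_withDensity_eq_lintegral_mul _ hdm hm2] at key
  have e1 : ∫⁻ x in K, ENNReal.ofReal (f x * dens g x) =
      ∫⁻ x, ((fun x => ENNReal.ofReal (dens g x)) * fun x => u x * ENNReal.ofReal (f x)) x := by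
    rw [← lintegral_indicator hKm]
    refine lintegral_congr fun x => ?_
    by_cases hx : x ∈ K
    · rw [hu]
      simp only [Set.indicator_of_mem hx, Pi.mul_apply, one_mul]
      rw [ENNReal.ofReal_mul (hf0 x), mul_comm]
    · rw [hu]
      simp only [Set.indicator_of_notMem hx, Pi.mul_apply, zero_mul, mul_zero]
  have e2 : ∫⁻ x, ENNReal.ofReal (χ x * (f x * dens g x)) =
      ∫⁻ x, ((fun x => ENNReal.ofReal (dens g x)) *
        fun x => ENNReal.ofReal (χ x) * ENNReal.ofReal (f x)) x := by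
    refine lintegral_congr fun x => ?_
    simp only [Pi.mul_apply]
    rw [ENNReal.ofReal_mul (hχ.nonneg x), ENNReal.ofReal_mul (hf0 x)]
    ring
  rw [← e1, ← e2] at key
  have hint : Integrable fun x => χ x * (f x * dens g x) :=
    (hχc.mul (hf.mul hdc')).integrable_of_hasCompactSupport (hχ.cpt.mul_right)
  have hne : ∫⁻ x, ENNReal.ofReal (χ x * (f x * dens g x)) ≠ ⊤ :=
    (Integrable.lintegral_lt_top hint).ne
  rw [integral_eq_lintegral_of_nonneg_ae, integral_eq_lintegral_of_nonneg_ae]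
  · have h5 := ENNReal.toReal_mono (ENNReal.mul_ne_top (ENNReal.natCast_ne_top N) hne) key
    rwa [ENNReal.toReal_mul, ENNReal.toReal_natCast] at h5
  · exact Eventually.of_forall fun x => mul_nonneg (hχ.nonneg x) (mul_nonneg (hf0 x) (hd0 x))
  · exact (hχc.mul (hf.mul hdc')).aestronglyMeasurable
  · exact Eventually.of_forall fun x => mul_nonneg (hf0 x) (hd0 x)
  · exact (hf.mul hdc').aestronglyMeasurable

end Pool.Agent.LQ
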