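import Mathlib
import Pool.Agent.Work.MP_13b5d9_gt.LQ.StmtsL

set_option autoImplicit false
set_option maxSynthPendingDepth 3

/-!
# MP_13b5d9_gt, block LQ, item Nrm: comparison with the norm
-/

open MeasureTheory Set Filter Topology
open scoped ContDiff ENNReal

namespace Pool.Agent.LQ

open Pool.Agent.MLS Pool.Agent.EC Pool.Agent.DR

namespace ILQNrm

/-- the derivative of a field of symmetric forms is symmetric -/
theorem symm {n : ℕ} (g : Form n) (x e u v : E n) :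
    fderiv ℝ g.val x e u v = fderiv ℝ g.val x e v u := by
  have hd : HasFDerivAt g.val (fderiv ℝ g.val x) x :=
    (g.smooth.differentiable (by simp) x).hasFDerivAt
  let ev : E n → E n → (E n →L[ℝ] E n →L[ℝ] ℝ) →L[ℝ] ℝ := fun u v =>
    (ContinuousLinearMap.apply ℝ ℝ v).comp (ContinuousLinearMap.apply ℝ (E n →L[ℝ] ℝ) u)
  have h1 : ∀ u v, HasFDerivAt (fun y => g.val y u v) ((ev u v).comp (fderiv ℝ g.val x)) x :=
    fun u v => by
      have h0 := (ev u v).hasFDerivAt.comp x hd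
      exact h0
  have h2 : (fun y => g.val y u v) = fun y => g.val y v u := by
    funext y
    exact g.symm y u v
  have h3 := h1 u v
  rw [h2] at h3
  have h4 := h3.unique (h1 v u)
  exact congrArg (fun T : E n →L[ℝ] ℝ => T e) h4

/-- polarization -/
theorem polar {n : ℕ} (b : E n →L[ℝ] E n →L[ℝ] ℝ) (hb : ∀ u v, b u v = b v u) (K : ℝ)
    (hK : ∀ v, |b v v| ≤ K * ‖v‖ ^ 2) (v w : E n) :
    |b v w| ≤ K / 2 * (‖v‖ ^ 2 + ‖w‖ ^ 2) := by
  have h1 : b (v + w) (v + w) - b (v - w) (v - w) = 4 * b v w := by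
    simp only [map_add, map_sub, add_apply, sub_apply]
    rw [hb w v]
    ring
  have h2 := hK (v + w)
  have h3 := hK (v - w)
  have h4 : ‖v + w‖ ^ 2 + ‖v - w‖ ^ 2 = 2 * (‖v‖ ^ 2 + ‖w‖ ^ 2) := by
    have := parallelogram_law_with_norm ℝ v w
    nlinarith
  have h5 : |4 * b v w| ≤ |b (v + w) (v + w)| + |b (v - w) (v - w)| := by
    rw [← h1]
    exact abs_sub _ _
  rw [abs_mul, abs_of_pos (by norm_num : (0 : ℝ) < 4)] at h5
  have h6 : K * ‖v + w‖ ^ 2 + K * ‖v - w‖ ^ 2 = K * (2 * (‖v‖ ^ 2 + ‖w‖ ^ 2)) := by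
    rw [← h4]
    ring
  linarith

theorem opn {n : ℕ} (b : E n →L[ℝ] E n →L[ℝ] ℝ) (hb : ∀ u v, b u v = b v u) (K : ℝ)
    (hK0 : 0 ≤ K) (hK : ∀ v, |b v v| ≤ K * ‖v‖ ^ 2) : ‖b‖ ≤ K := by
  refine b.opNorm_le_bound₂ hK0 fun v w => ?_
  rw [Real.norm_eq_abs]
  rcases eq_or_ne v 0 with rfl | hv
  · simp
  rcases eq_or_ne w 0 with rfl | hw
  · simp
  have ha : 0 < ‖v‖ := norm_pos_iff.2 hv
  have hc : 0 < ‖w‖ := norm_pos_iff.2 hw
  have h1 := polar b hb K hK (‖w‖ • v) (‖v‖ • w)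
  have h0 : b (‖w‖ • v) (‖v‖ • w) = (‖w‖ * ‖v‖) * b v w := by
    have h3 : b (‖w‖ • v) = ‖w‖ • b v := map_smul b _ _
    have h4 : (‖w‖ • b v) (‖v‖ • w) = ‖w‖ * (b v (‖v‖ • w)) := rfl
    rw [h3, h4, map_smul, smul_eq_mul]
    ring
  rw [h0, norm_smul, norm_smul, norm_norm, norm_norm, abs_mul,
    abs_of_pos (mul_pos hc ha)] at h1
  have h2 : K / 2 * ((‖w‖ * ‖v‖) ^ 2 + (‖v‖ * ‖w‖) ^ 2) = (‖w‖ * ‖v‖) * (K * ‖v‖ * ‖w‖) := by ring
  rw [h2] at h1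
  exact le_of_mul_le_mul_left h1 (mul_pos hc ha)

end ILQNrm

theorem pl_Nrm : LqNrm := by
  intro m g x L c hL hc h1 h2
  refine ⟨fun h3 => ?_, fun v hv => ?_⟩
  · refine ILQNrm.opn _ (ILQNrm.symm g x eL) (L * c) (mul_nonneg hL.le hc) fun v => ?_
    have h4 : |fderiv ℝ g.val x eL v v| ≤ c * g.val x v v := h3 v
    have h5 : |g.val x v v| ≤ ‖g.val x‖ * ‖v‖ * ‖v‖ := by
      rw [← Real.norm_eq_abs]
      exact (g.val x).le_opNorm₂ v v
    have h6 : g.val x v v ≤ L * ‖v‖ ^ 2 := by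
      have h7 := le_abs_self (g.val x v v)
      have h8 : ‖g.val x‖ * ‖v‖ * ‖v‖ ≤ L * ‖v‖ * ‖v‖ := by gcongr
      calc g.val x v v ≤ L * ‖v‖ * ‖v‖ := h7.trans (h5.trans h8)
        _ = L * ‖v‖ ^ 2 := by ring
    calc |fderiv ℝ g.val x eL v v| ≤ c * g.val x v v := h4
      _ ≤ c * (L * ‖v‖ ^ 2) := mul_le_mul_of_nonneg_left h6 hc
      _ = L * c * ‖v‖ ^ 2 := by ring
  · have h3 := h1 v
    rw [hv, mul_one] at h3
    have h4 : |fderiv ℝ g.val x eL v v| ≤ ‖fderiv ℝ g.val x eL‖ * ‖v‖ * ‖v‖ := by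
      rw [← Real.norm_eq_abs]
      exact (fderiv ℝ g.val x eL).le_opNorm₂ v v
    have h5 : |d1 g x v| = |fderiv ℝ g.val x eL v v| := rfl
    rw [h5]
    calc |fderiv ℝ g.val x eL v v| ≤ ‖fderiv ℝ g.val x eL‖ * ‖v‖ * ‖v‖ := h4
      _ = ‖v‖ ^ 2 * ‖fderiv ℝ g.val x eL‖ := by ring
      _ ≤ L * ‖fderiv ℝ g.val x eL‖ := mul_le_mul_of_nonneg_right h3 (norm_nonneg _)

end Pool.Agent.LQ
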