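import Pool.Agent.Work.MP_13b5d9_gt.LQ.StmtsL

set_option autoImplicit false

/-!
# Item Sm: the vertical derivatives tend to zero
-/

open MeasureTheory Set Filter Topology
open scoped ContDiff ENNReal

namespace Pool.Agent.LQ

open Pool.Agent.MLS Pool.Agent.EC Pool.Agent.DR

namespace ILQSm

theorem norm_eL {m : ℕ} : ‖(eL : E (m + 1))‖ = 1 := by
  unfold eL ee
  simp

theorem fderiv_line {V F : Type} [NormedAddCommGroup V] [NormedSpace ℝ V]
    [NormedAddCommGroup F] [NormedSpace ℝ F] (f : V → F) (x e : V)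
    (hd : DifferentiableAt ℝ f x) (h : ∀ s : ℝ, f (x + s • e) = f x) : fderiv ℝ f x e = 0 := by
  have h1 : HasDerivAt (fun s : ℝ => f (x + s • e)) (fderiv ℝ f x e) 0 :=
    hd.hasFDerivAt.hasLineDerivAt e
  have h4 : (fun s : ℝ => f (x + s • e)) = fun _ => f x := funext h
  rw [h4] at h1
  exact h1.unique (hasDerivAt_const (0 : ℝ) (f x))

/-- the difference of the first derivatives in one direction -/
theorem norm_dir_le {V F : Type} [NormedAddCommGroup V] [NormedSpace ℝ V]
    [NormedAddCommGroup F] [NormedSpace ℝ F] (f f0 : V → F) (x e : V) (he : ‖e‖ = 1)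
    (h0 : fderiv ℝ f0 x e = 0) :
    ‖fderiv ℝ f x e‖ ≤ dist (iteratedFDeriv ℝ 1 f0 x) (iteratedFDeriv ℝ 1 f x) := by
  have h2 : fderiv ℝ f x e =
      (iteratedFDeriv ℝ 1 f x - iteratedFDeriv ℝ 1 f0 x) (fun _ => e) := by
    have h3 : (iteratedFDeriv ℝ 1 f x - iteratedFDeriv ℝ 1 f0 x) (fun _ => e) =
        (iteratedFDeriv ℝ 1 f x) (fun _ => e) - (iteratedFDeriv ℝ 1 f0 x) (fun _ => e) := rfl
    rw [h3, iteratedFDeriv_one_apply, iteratedFDeriv_one_apply, h0, sub_zero]
  rw [h2]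
  refine (ContinuousMultilinearMap.le_opNorm _ _).trans ?_
  rw [Finset.prod_const, he, one_pow, mul_one, dist_comm, dist_eq_norm]

end ILQSm

open ILQSm in
/-- Item Sm. -/
theorem pl_Sm : LqSm := by
  intro m G _ act g g0 χ S hS K hK ε hε
  have hU : TendstoUniformlyOn (fun j => iteratedFDeriv ℝ 1 (g j).val) (iteratedFDeriv ℝ 1 g0.val)
      atTop K :=
    (tendstoLocallyUniformlyOn_iff_tendstoUniformlyOn_of_compact hK).1
      (hS.conv 1).tendstoLocallyUniformlyOn
  filter_upwards [Metric.tendstoUniformlyOn_iff.1 hU ε hε] with j hj x hx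
  have h0 : fderiv ℝ g0.val x eL = 0 :=
    fderiv_line g0.val x eL ((g0.smooth.differentiable (by simp)) x) (fun s => hS.tinv0 x s)
  exact (norm_dir_le (g j).val g0.val x eL norm_eL h0).trans (hj x hx).le

end Pool.Agent.LQ
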