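import Pool.Agent.Work.MP_25cd3b_gt.M.All
import Pool.Agent.Work.MP_13b5d9_gt.PI.I_TbI
import Pool.Agent.Work.MP_13b5d9_gt.LR.I_Int1
import Pool.Agent.Work.MP_13b5d9_gt.LR.I_Int2
import Pool.Agent.Work.MP_13b5d9_gt.LQ.I_Max
import Pool.Agent.Work.MP_13b5d9_gt.LQ.I_Nrm
import Pool.Agent.Work.MP_13b5d9_gt.LQ.I_Ball
import Pool.Agent.Work.MP_13b5d9_gt.LQ.I_Der
import Pool.Agent.Work.MP_13b5d9_gt.LQ.I_Fr
import Pool.Agent.Work.MP_13b5d9_gt.LQ.I_Inv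
import Pool.Agent.Work.MP_13b5d9_gt.LQ.I_Mul
import Pool.Agent.Work.MP_13b5d9_gt.LQ.I_Bds
import Pool.Agent.Work.MP_13b5d9_gt.LQ.I_Sm
import Pool.Agent.Work.MP_13b5d9_gt.LQ.I_Exp
import Pool.Agent.Work.MP_13b5d9_gt.LQ.Fin

set_option autoImplicit false

/-!
# MP_13b5d9_gt, block LQ, part L assembled: THEOREM L from THEOREM Q
-/

namespace Pool.Agent.LQ

open Pool.Agent

/-- THEOREM L follows from THEOREM Q -/
theorem fin_L : LqFin :=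
  pl_Fin pl_Max pl_Nrm pl_Ball pl_Der pl_Fr (pl_Inv PIN.pr_TbI) (pl_Mul MLS.pr_Cnt MLS.pr_Dens)
    (pl_Bds MLS.pr_Bnd MLS.pr_Dens) pl_Sm pl_Exp (LR.pr_Int2 LR.pr_Int1)

end Pool.Agent.LQ
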