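import Pool.Agent.Work.MP_13b5d9_gt.LQ.TDefs

set_option autoImplicit false
set_option maxSynthPendingDepth 3

/-!
# MP_13b5d9_gt, block LQ: groups of closed manifolds are finitely generated, and subgroups of finite
index
-/

open MeasureTheory Set Filter Topology
open scoped ContDiff ENNReal

namespace Pool.Agent.LQF

open Pool.Agent.MLS Pool.Agent.EC Pool.Agent.STR Pool.Agent.DR Pool.Agent.LQR Pool.Agent.LQT

/-- the group of a closed manifold is generated by a finite set -/
theorem fg (n : ℕ) (G : Type) [Group G] [MulAction G (E n)] (hG : Cocompact n G) :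
    ∃ S : Set G, S.Finite ∧ Subgroup.closure S = ⊤ := by
  obtain ⟨K, hK, hcov⟩ := hG.cocompact
  obtain ⟨R, hR⟩ := hK.isBounded.subset_ball (0 : E n)
  have hKne : K.Nonempty := by
    obtain ⟨a, ha⟩ := hcov 0
    exact ⟨_, ha⟩
  obtain ⟨x0, hx0⟩ := hKne
  have hc : ∀ a : G, Continuous fun x : E n => a • x := fun a => (hG.smooth a).continuous
  refine ⟨{a : G | ((fun x : E n => a • x) '' Metric.closedBall (0 : E n) R ∩
    Metric.closedBall (0 : E n) R).Nonempty}, hG.proper _ (isCompact_closedBall _ _), ?_⟩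
  set S : Set G := {a : G | ((fun x : E n => a • x) '' Metric.closedBall (0 : E n) R ∩
    Metric.closedBall (0 : E n) R).Nonempty} with hS
  set H : Subgroup G := Subgroup.closure S with hH
  let A : Set (E n) := ⋃ a : H, (fun x : E n => (a : G)⁻¹ • x) ⁻¹' Metric.ball (0 : E n) R
  let B : Set (E n) := ⋃ a : {a : G // a ∉ H}, (fun x : E n => (a : G)⁻¹ • x) ⁻¹'
    Metric.ball (0 : E n) R
  have hA : IsOpen A := isOpen_iUnion fun a => Metric.isOpen_ball.preimage (hc _)
  have hB : IsOpen B := isOpen_iUnion fun a => Metric.isOpen_ball.preimage (hc _)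
  have hAB : A ∪ B = univ := by
    refine eq_univ_of_forall fun x => ?_
    obtain ⟨a, ha⟩ := hcov x
    by_cases h : a⁻¹ ∈ H
    · left
      refine mem_iUnion.2 ⟨⟨a⁻¹, h⟩, ?_⟩
      show ((a⁻¹ : G))⁻¹ • x ∈ Metric.ball (0 : E n) R
      rw [inv_inv]
      exact hR ha
    · right
      refine mem_iUnion.2 ⟨⟨a⁻¹, h⟩, ?_⟩
      show ((a⁻¹ : G))⁻¹ • x ∈ Metric.ball (0 : E n) R
      rw [inv_inv]
      exact hR ha
  have hdis : Disjoint A B := by
    rw [Set.disjoint_left]
    intro x h1 h2
    obtain ⟨a, ha⟩ := mem_iUnion.1 h1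
    obtain ⟨b, hb⟩ := mem_iUnion.1 h2
    apply b.2
    have h3 : (a : G)⁻¹ * b ∈ S := by
      refine ⟨(a : G)⁻¹ • x, ⟨(b : G)⁻¹ • x, Metric.ball_subset_closedBall hb, ?_⟩,
        Metric.ball_subset_closedBall ha⟩
      show ((a : G)⁻¹ * b) • (b : G)⁻¹ • x = (a : G)⁻¹ • x
      rw [mul_smul, smul_inv_smul]
    have h4 := H.mul_mem a.2 (Subgroup.subset_closure h3 : (a : G)⁻¹ * b ∈ H)
    rwa [mul_inv_cancel_left] at h4
  have hAne : A.Nonempty := ⟨x0, mem_iUnion.2 ⟨1, by
    show ((1 : H) : G)⁻¹ • x0 ∈ Metric.ball (0 : E n) R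
    simpa using hR hx0⟩⟩
  have hcl : IsClopen A := by
    refine ⟨?_, hA⟩
    have : A = Bᶜ := by
      ext x
      constructor
      · intro h h'
        exact Set.disjoint_left.1 hdis h h'
      · intro h
        have : x ∈ A ∪ B := by rw [hAB]; exact mem_univ _
        exact this.resolve_right h
    rw [this]
    exact hB.isClosed_compl
  have hAu : A = univ := hcl.eq_univ hAne
  rw [eq_top_iff]
  intro a _
  by_contra ha
  have h1 : a • x0 ∈ B := mem_iUnion.2 ⟨⟨a, ha⟩, by
    show (a : G)⁻¹ • a • x0 ∈ Metric.ball (0 : E n) R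
    rw [inv_smul_smul]
    exact hR hx0⟩
  have h2 : a • x0 ∈ A := by rw [hAu]; exact mem_univ _
  exact Set.disjoint_left.1 hdis h2 h1

/-- an additive function on a finitely generated group which does not vanish at `z` -/
theorem homZ (G : Type) [Group G] (S : Set G) (hS : S.Finite) (hg : Subgroup.closure S = ⊤)
    (h : G → ℝ) (hh : ∀ a b, h (a * b) = h a + h b) (z : G) (hz : h z ≠ 0) :
    ∃ k : G → ℤ, (∀ a b, k (a * b) = k a + k b) ∧ 0 < k z := by
  have h1 : h 1 = 0 := by
    have := hh 1 1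
    rw [one_mul] at this
    linarith
  have hi : ∀ a, h a⁻¹ = -h a := fun a => by
    have := hh a a⁻¹
    rw [mul_inv_cancel, h1] at this
    linarith
  let A : AddSubgroup ℝ := AddSubgroup.closure (h '' S)
  have hmem : ∀ a, h a ∈ A := by
    intro a
    have ha : a ∈ Subgroup.closure S := by rw [hg]; exact Subgroup.mem_top a
    induction ha using Subgroup.closure_induction with
    | mem x hx => exact AddSubgroup.subset_closure ⟨x, hx, rfl⟩
    | one => rw [h1]; exact A.zero_mem
    | mul x y _ _ hx hy => rw [hh]; exact A.add_mem hx hy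
    | inv x _ hx => rw [hi]; exact A.neg_mem hx
  have hfg : A.FG := ⟨(hS.image h).toFinset, by simp [A]⟩
  have : Module.Finite ℤ A := by
    have h2 : AddGroup.FG A := (AddGroup.fg_iff_addSubgroup_fg A).2 hfg
    exact Module.Finite.iff_addGroup_fg.2 h2
  have : Module.Free ℤ A := Module.free_of_finite_type_torsion_free'
  let b := Module.Free.chooseBasis ℤ A
  have hz' : (⟨h z, hmem z⟩ : A) ≠ 0 := fun h2 => hz (congrArg Subtype.val h2)
  obtain ⟨i, hi'⟩ : ∃ i, b.repr ⟨h z, hmem z⟩ i ≠ 0 := by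
    by_contra h3
    push Not at h3
    apply hz'
    apply b.repr.injective
    rw [map_zero]
    exact Finsupp.ext h3
  have hadd : ∀ a c, b.repr ⟨h (a * c), hmem (a * c)⟩ i =
      b.repr ⟨h a, hmem a⟩ i + b.repr ⟨h c, hmem c⟩ i := by
    intro a c
    have : (⟨h (a * c), hmem (a * c)⟩ : A) = ⟨h a, hmem a⟩ + ⟨h c, hmem c⟩ :=
      Subtype.ext (hh a c)
    rw [this, map_add, Finsupp.add_apply]
  rcases lt_or_gt_of_ne hi' with h4 | h4
  · refine ⟨fun a => -b.repr ⟨h a, hmem a⟩ i, fun a c => ?_, ?_⟩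
    · show -b.repr ⟨h (a * c), hmem (a * c)⟩ i = _
      rw [hadd, neg_add]
    · show 0 < -b.repr ⟨h z, hmem z⟩ i
      linarith
  · exact ⟨fun a => b.repr ⟨h a, hmem a⟩ i, hadd, h4⟩

/-- the elements `a` with `d ∣ k a` -/
def sub {G : Type} [Group G] (k : G → ℤ) (hk : ∀ a b, k (a * b) = k a + k b) (d : ℤ) :
    Subgroup G where
  carrier := {a | d ∣ k a}
  mul_mem' := fun {a b} ha hb => by
    show d ∣ k (a * b)
    rw [hk]
    exact dvd_add ha hb
  one_mem' := by
    show d ∣ k 1
    have h := hk 1 1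
    rw [one_mul] at h
    have h0 : k 1 = 0 := by linarith
    rw [h0]
    exact dvd_zero d
  inv_mem' := fun {a} ha => by
    show d ∣ k a⁻¹
    have h := hk 1 1
    rw [one_mul] at h
    have h0 : k 1 = 0 := by linarith
    have h2 := hk a a⁻¹
    rw [mul_inv_cancel, h0] at h2
    have h3 : k a⁻¹ = -k a := by linarith
    rw [h3]
    exact (dvd_neg).2 ha

/-- the subgroup acts cocompactly -/
theorem coc_sub (n : ℕ) (G : Type) [Group G] [MulAction G (E n)] (hG : Cocompact n G)
    (k : G → ℤ) (hk : ∀ a b, k (a * b) = k a + k b) (z : G) (hz : 0 < k z) :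
    Cocompact n (sub k hk (k z)) := by
  obtain ⟨K, hK, hcov⟩ := hG.cocompact
  have hc : ∀ a : G, Continuous fun x : E n => a • x := fun a => (hG.smooth a).continuous
  set d := k z with hd
  have h0 : k 1 = 0 := by
    have h := hk 1 1
    rw [one_mul] at h
    linarith
  -- representatives of the residues
  classical
  let r : ℕ → G := fun i => if h : ∃ a : G, k a % d = i then h.choose else 1
  have hr : ∀ a : G, k (r (k a % d).toNat) % d = k a % d := by
    intro a
    have h1 : 0 ≤ k a % d := Int.emod_nonneg _ hz.ne'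
    have h2 : ∃ b : G, k b % d = (((k a % d).toNat : ℕ) : ℤ) :=
      ⟨a, by rw [Int.toNat_of_nonneg h1]⟩
    have h3 : r (k a % d).toNat = h2.choose := dif_pos h2
    rw [h3, h2.choose_spec, Int.toNat_of_nonneg h1]
  refine ⟨fun a => hG.smooth a, fun a x h => ?_, fun L hL => ?_, ?_⟩
  · have := hG.free (a : G) x h
    exact Subtype.ext this
  · have h1 := hG.proper L hL
    refine Set.Finite.of_finite_image (f := fun a : sub k hk d => (a : G)) (h1.subset ?_)
      (Subtype.val_injective.injOn)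
    rintro _ ⟨a, ha, rfl⟩
    exact ha
  · refine ⟨⋃ i ∈ Finset.range d.toNat, (fun x : E n => (r i)⁻¹ • x) '' K,
      (Finset.range d.toNat).finite_toSet.isCompact_biUnion fun i _ => hK.image (hc _), fun x => ?_⟩
    obtain ⟨a, ha⟩ := hcov x
    set i := (k a % d).toNat with hi
    have h1 : 0 ≤ k a % d := Int.emod_nonneg _ hz.ne'
    have h2 : k a % d < d := Int.emod_lt_of_pos _ hz
    have hki : k (r i)⁻¹ = -k (r i) := by
      have h3 := hk (r i) (r i)⁻¹
      rw [mul_inv_cancel, h0] at h3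
      linarith
    have hmem : (r i)⁻¹ * a ∈ sub k hk d := by
      show d ∣ k ((r i)⁻¹ * a)
      rw [hk, hki]
      have h4 := hr a
      have h5 : d ∣ k a - k (r i) := Int.ModEq.dvd (show k (r i) ≡ k a [ZMOD d] from h4)
      have h6 : -k (r i) + k a = k a - k (r i) := by ring
      rw [h6]
      exact h5
    refine ⟨⟨_, hmem⟩, ?_⟩
    refine Set.mem_biUnion (x := i) ?_ ⟨a • x, ha, ?_⟩
    · simp only [Finset.coe_range, Set.mem_Iio]
      omega
    · show (r i)⁻¹ • a • x = ((r i)⁻¹ * a) • x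
      rw [mul_smul]

end Pool.Agent.LQF
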