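import Mathlib
import Pool.Agent.Work.MP_13b5d9_gt.LQ.KStmts

set_option autoImplicit false

/-!
# MP_13b5d9_gt, block LQ, item KT: convergence of the potentials
-/

open MeasureTheory Set Filter Topology
open scoped ContDiff ENNReal
open Pool.Agent.Work.MP_c9f990_an.Al (IsFlow)

namespace Pool.Agent.LQK

open Pool.Agent.MLS Pool.Agent.EC Pool.Agent.STR Pool.Agent.DR Pool.Agent.LQR Pool.Agent.LQT

namespace IKT

/-- the parameters are in the unit interval -/
theorem sj_mem (j : ℕ) : sj j ∈ Icc (0 : ℝ) 1 := by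
  constructor
  · exact pow_nonneg (by norm_num) j
  · exact pow_le_one₀ (by norm_num) (by norm_num)

/-- the parameters tend to zero -/
theorem sj_tendsto : Tendsto sj atTop (𝓝 0) :=
  tendsto_pow_atTop_nhds_zero_of_lt_one (by norm_num) (by norm_num)

/-- fundamental theorem along a segment -/
theorem seg {n : ℕ} (τ : E n → ℝ) (hτ : ContDiff ℝ ∞ τ) (x y : E n) :
    τ y - τ x = ∫ r in (0 : ℝ)..1, fderiv ℝ τ (x + r • (y - x)) (y - x) := by
  have h1 : ∀ r : ℝ, HasDerivAt (fun r : ℝ => τ (x + r • (y - x)))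
      (fderiv ℝ τ (x + r • (y - x)) (y - x)) r := by
    intro r
    have h2 : HasFDerivAt τ (fderiv ℝ τ (x + r • (y - x))) (x + r • (y - x)) :=
      ((hτ.differentiable (by norm_num)) (x + r • (y - x))).hasFDerivAt
    have h3 : HasDerivAt (fun r : ℝ => x + r • (y - x)) (y - x) r := by
      simpa using ((hasDerivAt_id r).smul_const (y - x)).const_add x
    exact h2.comp_hasDerivAt r h3
  have hc : Continuous (fun r : ℝ => fderiv ℝ τ (x + r • (y - x)) (y - x)) := by
    have h4 : Continuous (fderiv ℝ τ) := hτ.continuous_fderiv (by norm_num)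
    exact (h4.comp (by fun_prop)).clm_apply continuous_const
  have h5 := intervalIntegral.integral_eq_sub_of_hasDerivAt (a := (0 : ℝ)) (b := 1)
    (fun r _ => h1 r) (hc.intervalIntegrable _ _)
  rw [h5]
  simp

/-- evaluation is continuous -/
theorem clm {X Y : Type} [NormedAddCommGroup X] [NormedSpace ℝ X] [NormedAddCommGroup Y]
    [NormedSpace ℝ Y] {a : ℕ → X →L[ℝ] Y} {a0 : X →L[ℝ] Y} {b : ℕ → X} {b0 : X}
    (ha : Tendsto a atTop (𝓝 a0)) (hb : Tendsto b atTop (𝓝 b0)) :
    Tendsto (fun j => a j (b j)) atTop (𝓝 (a0 b0)) := by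
  have hc : Continuous (fun q : (X →L[ℝ] Y) × X => q.1 q.2) :=
    continuous_fst.clm_apply continuous_snd
  exact (hc.tendsto (a0, b0)).comp (ha.prodMk_nhds hb)

/-- Cauchy-Schwarz with a unit vector -/
theorem cs {n : ℕ} (g : Form n) (x V u : E n) (hV : g.val x V V = 1) :
    g.val x V u ^ 2 ≤ g.val x u u := by
  have h := g.nonneg x (u - g.val x V u • V)
  have h2 : g.val x (u - g.val x V u • V) (u - g.val x V u • V) =
      g.val x u u - g.val x V u ^ 2 := by
    simp only [map_sub, map_smul, _root_.sub_apply, _root_.smul_apply, smul_eq_mul]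
    rw [g.symm x u V, hV]
    ring
  rw [h2] at h
  linarith

/-- the differential of the potentials is bounded -/
theorem bound {n : ℕ} (F : ℝ → Form n) (hF : Fam n F) (R : ℝ) : ∃ C : ℝ, 0 ≤ C ∧
    ∀ s ∈ Icc (0 : ℝ) 1, ∀ x ∈ Metric.closedBall (0 : E n) R, ∀ V : E n, (F s).val x V V = 1 →
    ∀ u : E n, |(F s).val x V u| ≤ C * ‖u‖ := by
  have hcont : Continuous (fun q : ℝ × E n => (F q.1).val q.2) := hF.smooth.continuous
  have hq : Continuous (fun q : ℝ × E n × E n => (F q.1).val q.2.1 q.2.2 q.2.2) := by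
    have h0 : Continuous (fun q : ℝ × E n × E n => (F q.1).val q.2.1) :=
      hcont.comp (continuous_fst.prodMk (continuous_fst.comp continuous_snd))
    exact (h0.clm_apply (continuous_snd.comp continuous_snd)).clm_apply
      (continuous_snd.comp continuous_snd)
  have hK : IsCompact (Icc (0 : ℝ) 1 ×ˢ (Metric.closedBall (0 : E n) R ×ˢ
      Metric.closedBall (0 : E n) 1)) :=
    isCompact_Icc.prod ((isCompact_closedBall _ _).prod (isCompact_closedBall _ _))
  obtain ⟨C, hC⟩ := hK.exists_bound_of_continuousOn hq.continuousOn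
  refine ⟨Real.sqrt (max C 0), Real.sqrt_nonneg _, ?_⟩
  intro s hs x hx V hV u
  have h1 := cs (F s) x V u hV
  have h2 : (F s).val x u u ≤ max C 0 * ‖u‖ ^ 2 := by
    by_cases hu : u = 0
    · subst hu
      simp
    · have hu' : ‖u‖ ≠ 0 := norm_ne_zero_iff.2 hu
      have h3 := hC (s, x, ‖u‖⁻¹ • u) ⟨hs, hx, by
        rw [mem_closedBall_zero_iff, norm_smul, norm_inv, norm_norm, inv_mul_cancel₀ hu']⟩
      have h4 : (F s).val x (‖u‖⁻¹ • u) (‖u‖⁻¹ • u) ≤ max C 0 :=
        ((Real.le_norm_self _).trans h3).trans (le_max_left _ _)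
      have h5 : (F s).val x u u = (F s).val x (‖u‖⁻¹ • u) (‖u‖⁻¹ • u) * ‖u‖ ^ 2 := by
        simp only [map_smul, _root_.smul_apply, smul_eq_mul]
        field_simp
      rw [h5]
      exact mul_le_mul_of_nonneg_right h4 (sq_nonneg _)
  have h7 : |(F s).val x V u| ^ 2 ≤ (Real.sqrt (max C 0) * ‖u‖) ^ 2 := by
    rw [sq_abs, mul_pow, Real.sq_sqrt (le_max_right _ _)]
    exact h1.trans h2
  exact le_of_sq_le_sq h7 (by positivity)

end IKT

open IKT in
/-- Item KT. -/
theorem pr_KT (h1 : StKCv) : StKT := by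
  intro n G _ _ hG F hF hinv hn0 hnj z l V τ ψ hax l0 V0 τ0 ψ0 hax0 x y yj hyj
  obtain ⟨-, hV⟩ := h1 n G hG F hF hinv hn0 hnj z l V τ ψ hax l0 V0 τ0 ψ0 hax0
  obtain ⟨R0, hR0⟩ := (Metric.isBounded_range_of_tendsto yj hyj).subset_closedBall (0 : E n)
  set R : ℝ := max R0 (max ‖x‖ ‖y‖) with hRdef
  have hxR : x ∈ Metric.closedBall (0 : E n) R := by
    rw [mem_closedBall_zero_iff]
    exact (le_max_left _ _).trans (le_max_right _ _)
  have hyR : y ∈ Metric.closedBall (0 : E n) R := by
    rw [mem_closedBall_zero_iff]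
    exact (le_max_right _ _).trans (le_max_right _ _)
  have hyjR : ∀ j, yj j ∈ Metric.closedBall (0 : E n) R := fun j =>
    Metric.closedBall_subset_closedBall (le_max_left _ _) (hR0 (mem_range_self j))
  obtain ⟨C, hC0, hC⟩ := bound F hF R
  have hcont : Continuous (fun q : ℝ × E n => (F q.1).val q.2) := hF.smooth.continuous
  have hsegR : ∀ r ∈ Icc (0 : ℝ) 1, x + r • (y - x) ∈ Metric.closedBall (0 : E n) R := by
    intro r hr
    have hcv := convex_closedBall (0 : E n) R
    exact hcv.add_smul_sub_mem hxR hyR hr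
  have hA : Tendsto (fun j => τ j y - τ j x) atTop (𝓝 (τ0 y - τ0 x)) := by
    have e1 : (fun j => τ j y - τ j x) = fun j => ∫ r in (0 : ℝ)..1,
        (F (sj j)).val (x + r • (y - x)) (V j (x + r • (y - x))) (y - x) := by
      funext j
      rw [seg (τ j) (hax j).smoothT x y]
      refine intervalIntegral.integral_congr fun r _ => ?_
      show fderiv ℝ (τ j) (x + r • (y - x)) (y - x) = _
      rw [(hax j).grad]
    have e2 : τ0 y - τ0 x = ∫ r in (0 : ℝ)..1,
        (F 0).val (x + r • (y - x)) (V0 (x + r • (y - x))) (y - x) := by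
      rw [seg τ0 hax0.smoothT x y]
      refine intervalIntegral.integral_congr fun r _ => ?_
      show fderiv ℝ τ0 (x + r • (y - x)) (y - x) = _
      rw [hax0.grad]
    rw [e1, e2]
    refine intervalIntegral.tendsto_integral_filter_of_dominated_convergence
      (fun _ => C * ‖y - x‖) ?_ ?_ intervalIntegrable_const ?_
    · refine Eventually.of_forall fun j => ?_
      have hc : Continuous (fun r : ℝ =>
          (F (sj j)).val (x + r • (y - x)) (V j (x + r • (y - x))) (y - x)) := by
        have h2 : Continuous (fun r : ℝ => x + r • (y - x)) := by fun_prop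
        have h3 : Continuous (F (sj j)).val := (F (sj j)).smooth.continuous
        have h4 : Continuous (V j) := (hax j).smoothV.continuous
        exact ((h3.comp h2).clm_apply (h4.comp h2)).clm_apply continuous_const
      exact hc.aestronglyMeasurable
    · refine Eventually.of_forall fun j => Eventually.of_forall fun r hr => ?_
      rw [uIoc_of_le zero_le_one] at hr
      exact hC (sj j) (sj_mem j) _ (hsegR r ⟨hr.1.le, hr.2⟩) _ ((hax j).unit _) _
    · refine Eventually.of_forall fun r _ => ?_
      have h2 : Tendsto (fun j => (F (sj j)).val (x + r • (y - x))) atTop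
          (𝓝 ((F 0).val (x + r • (y - x)))) := by
        have h3 : Tendsto (fun j => ((sj j, x + r • (y - x)) : ℝ × E n)) atTop
            (𝓝 (0, x + r • (y - x))) := sj_tendsto.prodMk_nhds tendsto_const_nhds
        exact (hcont.tendsto (0, x + r • (y - x))).comp h3
      exact clm (clm h2 (hV _)) tendsto_const_nhds
  have hB : Tendsto (fun j => τ j (yj j) - τ j y) atTop (𝓝 0) := by
    have h2 : ∀ j, ‖τ j (yj j) - τ j y‖ ≤ C * ‖yj j - y‖ := by
      intro j
      refine Convex.norm_image_sub_le_of_norm_fderiv_le (𝕜 := ℝ) (f := τ j)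
        (s := Metric.closedBall (0 : E n) R) ?_ ?_ (convex_closedBall _ _) hyR (hyjR j)
      · intro p _
        exact ((hax j).smoothT.differentiable (by norm_num)) p
      · intro p hp
        refine ContinuousLinearMap.opNorm_le_bound _ hC0 fun u => ?_
        rw [(hax j).grad]
        exact hC (sj j) (sj_mem j) p hp _ ((hax j).unit _) u
    refine squeeze_zero_norm h2 ?_
    have h3 : Tendsto (fun j => ‖yj j - y‖) atTop (𝓝 0) := by
      have := (hyj.sub_const y).norm
      simpa using this
    simpa using h3.const_mul C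
  have hsum := hB.add hA
  rw [zero_add] at hsum
  refine hsum.congr fun j => ?_
  ring

end Pool.Agent.LQK
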