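import Pool.Agent.Work.MP_13b5d9_gt.LQ.AllQ
import Pool.Agent.Work.MP_13b5d9_gt.LQ.AllL
import Pool.Agent.Work.MP_13b5d9_gt.LQ.TAll
import Pool.Agent.Work.MP_13b5d9_gt.LQ.FinG
import Pool.Agent.Work.MP_13b5d9_gt.LQ.MxSplitB
import Pool.Agent.Work.MP_13b5d9_gt.LQ.I_KAf
import Pool.Agent.Work.MP_13b5d9_gt.LQ.I_KCv
import Pool.Agent.Work.MP_13b5d9_gt.LQ.I_KT
import Pool.Agent.Work.MP_13b5d9_gt.LQ.I_KCl
import Pool.Agent.Work.MP_13b5d9_gt.LQ.I_KSq
import Pool.Agent.Work.MP_13b5d9_gt.LQ.I_KNb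
import Pool.Agent.Work.MP_13b5d9_gt.LQ.I_KFin

set_option autoImplicit false

/-!
# MP_13b5d9_gt, block LQ: the set of the split metrics is open and closed
-/

namespace Pool.Agent.LQK

open Pool.Agent Pool.Agent.MLS Pool.Agent.LQT

theorem f_KAf : StKAf := pr_KAf p_NcGa p_NcExp p_Geo1 pr_Op p_NgMet
theorem f_KCv : StKCv := pr_KCv t_RExp p_NcGx p_NcDist p_NcInj p_NcOne pr_Gd
theorem f_KT : StKT := pr_KT f_KCv
theorem f_KCl : StKCl := pr_KCl t_RExp f_KCv f_KT t_Eh f_KAf STR.p_Ax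
theorem f_KSq : StKSq := pr_KSq f_KCl t_RCur
theorem f_KFin : StKFin := pr_KFin f_KSq pr_KNb t_PS t_SP

/-- THEOREM L -/
theorem f_StL : LQ.StL := LQ.fin_L LQ.thQ

/-- OPENNESS (local rigidity of all metrics which are split along a central element) -/
theorem f_Opn (m : ℕ) (G : Type) [Group G] [MulAction G (E (m + 1))] (hG : Cocompact (m + 1) G)
    (z : G) (hz : z ≠ 1) (hc : ∀ a : G, a * z = z * a) : Opn m G z :=
  LQF.opn p_Flow STR.p_Ax (t_Opn f_StL) t_SP t_PS m G hG z hz hc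

/-- THE MAIN THEOREM -/
theorem f_Main (m : ℕ) (G : Type) [Group G] [MulAction G (E (m + 1))] (hG : Cocompact (m + 1) G)
    (z : G) (hz : z ≠ 1) (hc : ∀ a : G, a * z = z * a) (S : Type) [TopologicalSpace S]
    (g : S → Form (m + 1)) (h : CF (m + 1) G S g) : IsClopen {s : S | Sp m G z (g s)} :=
  f_KFin m G hG z hz hc (f_Opn m G hG z hz hc) S g h

/-- THE MAIN THEOREM, matrix form -/
theorem f_Mx (m : ℕ) (G : Type) [Group G] [MulAction G (E (m + 1))]
    (hG : Mx.Cocompact (m + 1) G) (z : G) (hc : ∀ a : G, a * z = z * a) (S : Type) [TopologicalSpace S]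
    (g : S → E (m + 1) → Matrix (Fin (m + 1)) (Fin (m + 1)) ℝ)
    (h : Mx.Family (m + 1) G S g) : IsClopen {s : S | Mx.SplitAlong m G z (g s)} := by
  by_cases hz : z = 1
  · have h0 : {s : S | Mx.SplitAlong m G z (g s)} = ∅ := by
      refine Set.eq_empty_iff_forall_notMem.2 fun s hs => ?_
      obtain ⟨l, k, Y, T, hs⟩ := hs
      have h3 := (hs.vert 0).2
      rw [hz, one_smul] at h3
      have h5 := hs.pos
      linarith
    rw [h0]
    exact isClopen_empty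
  have h1 := f_Main m G (Mx.coc G hG) z hz hc S _ (Mx.family (m + 1) G S g h)
  have h2 : {s : S | Sp m G z (Mx.frm (g s) (h.met s))} =
      {s : S | Mx.SplitAlong m G z (g s)} := by
    ext s
    exact Mx.splitAlong_iff m G z (g s) (h.met s)
  rwa [h2] at h1

end Pool.Agent.LQK
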