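import Pool.Agent.Work.MP_13b5d9_gt.LQ.StmtsL
import Pool.Agent.Work.MP_13b5d9_gt.PI.I_TbI
import Pool.Agent.Work.MP_13b5d9_gt.EC.I_RotI

set_option autoImplicit false

/-!
# MP_13b5d9_gt, block LQ, item Inv: invariance of the vertical derivative of the metric
-/

open MeasureTheory Set Filter Topology
open scoped ContDiff ENNReal

namespace Pool.Agent.LQ

open Pool.Agent.MLS Pool.Agent.EC Pool.Agent.DR

namespace ILQInv

theorem apply2 {V W' : Type} [NormedAddCommGroup V] [NormedSpace ℝ V]
    [NormedAddCommGroup W'] [NormedSpace ℝ W'] {F : V → V →L[ℝ] V →L[ℝ] W'} {x : V}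
    (h : DifferentiableAt ℝ F x) (w u v : V) :
    HasDerivAt (fun s : ℝ => F (x + s • w) u v) (fderiv ℝ F x w u v) 0 := by
  have h1 := (h.hasFDerivAt.clm_apply (hasFDerivAt_const u x)).clm_apply (hasFDerivAt_const v x)
  have h2 : HasDerivAt (fun s : ℝ => x + s • w) w 0 := by
    simpa using ((hasDerivAt_id (0 : ℝ)).smul_const w).const_add x
  have e : x = (fun s : ℝ => x + s • w) 0 := by simp
  have h4 := HasFDerivAt.comp_hasDerivAt_of_eq (0 : ℝ) h1 h2 e
  refine h4.congr_deriv ?_
  simp

/-- derivative of `s ↦ g (x + s w) (u, v)` -/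
theorem hasDeriv {n : ℕ} (g : Form n) (x w u v : E n) :
    HasDerivAt (fun s : ℝ => g.val (x + s • w) u v) (fderiv ℝ g.val x w u v) 0 :=
  apply2 (g.smooth.differentiable (by simp) x) w u v

theorem symm {n : ℕ} (g : Form n) (x w u v : E n) :
    fderiv ℝ g.val x w u v = fderiv ℝ g.val x w v u := by
  have h1 := hasDeriv g x w u v
  have h2 := hasDeriv g x w v u
  have e : (fun s : ℝ => g.val (x + s • w) u v) = fun s : ℝ => g.val (x + s • w) v u :=
    funext fun s => g.symm _ u v
  rw [e] at h1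
  exact h1.unique h2

theorem inv_fd {m : ℕ} {G : Type} [Group G] [MulAction G (E (m + 1))]
    (hC : Cocompact (m + 1) G) (hV : Vert (m + 1) G eL) (g : Form (m + 1)) (hI : MLS.Inv G g)
    (a : G) (x u v : E (m + 1)) :
    fderiv ℝ g.val (a • x) eL (dac a x u) (dac a x v) = fderiv ℝ g.val x eL u v := by
  obtain ⟨-, hR, -⟩ := EC.pr_RotI (m + 1) G hC eL hV
  have h1 := hasDeriv g (a • x) eL (dac a x u) (dac a x v)
  have h2 := hasDeriv g x eL u v
  have e : (fun s : ℝ => g.val (a • x + s • eL) (dac a x u) (dac a x v)) =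
      fun s : ℝ => g.val (x + s • eL) u v := by
    funext s
    have h3 := hI a (x + s • eL) u v
    rw [hV.comm a x s, hR a x s] at h3
    exact h3
  rw [e] at h1
  exact h1.unique h2

theorem bm_cont {n : ℕ} (b : E n → E n →L[ℝ] E n →L[ℝ] ℝ) (hb : Continuous b) :
    Continuous (STR.bm b) := by
  refine continuous_matrix fun i j => ?_
  exact (hb.clm_apply continuous_const).clm_apply continuous_const

theorem nb_cont {n : ℕ} (g : Form n) (hg : Riem g) (b : E n → E n →L[ℝ] E n →L[ℝ] ℝ)
    (hb : Continuous b) : Continuous (PIN.nb g b) := by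
  have h1 : Continuous (gm g) := bm_cont g.val g.smooth.continuous
  have h2 : Continuous (fun x => (gm g x)⁻¹) := by
    have e : (fun x => (gm g x)⁻¹) = fun x => ((gm g x).det)⁻¹ • (gm g x).adjugate := by
      funext x
      rw [Matrix.inv_def, Ring.inverse_eq_inv']
    rw [e]
    exact (h1.matrix_det.inv₀ fun x => (PIN.ITbI.gm_posDef g hg x).det_pos.ne').smul
      h1.matrix_adjugate
  have h3 := h2.matrix_mul (bm_cont b hb)
  exact (h3.matrix_mul h3).matrix_trace

end ILQInv

open ILQInv in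
theorem pl_Inv (h1 : PIN.PiTbI) : LqInv := by
  intro m G _ _ hC hV g hR hI
  have hinv := inv_fd hC hV g hI
  have hcont : Continuous (fun x : E (m + 1) => fderiv ℝ g.val x eL) :=
    (g.smooth.continuous_fderiv (by simp)).clm_apply continuous_const
  exact ⟨hinv, fun x u v => symm g x eL u v, nb_cont g hR _ hcont,
    fun a x => (h1 (m + 1) G hC g hR hI (fun x => fderiv ℝ g.val x eL) hinv a x).2⟩

end Pool.Agent.LQ
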