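import Mathlib
import Pool.Agent.Work.MP_13b5d9_gt.LQ.RStmts
import Pool.Agent.Work.MP_25cd3b_gt.M.I_Gd
import Pool.Agent.Work.MP_25cd3b_gt.M.I_EqG

set_option autoImplicit false

/-!
# MP_13b5d9_gt, block LQ, item RMz: pull-back and scaling of minimising metrics
-/

open MeasureTheory Set Filter Topology
open scoped ContDiff ENNReal

namespace Pool.Agent.LQR

open Pool.Agent.MLS Pool.Agent.EC Pool.Agent.STR Pool.Agent.DR

namespace IRMz

section abstract

variable {Q : Type} [NormedAddCommGroup Q] [NormedSpace ℝ Q]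

theorem smulD {F : Type} [NormedAddCommGroup F] [NormedSpace ℝ F] {f : Q → F} {f' : Q →L[ℝ] F}
    {y : Q} (h : HasFDerivAt f f' y) (r : ℝ) : HasFDerivAt (fun y => r • f y) (r • f') y :=
  h.const_smul r

/-- derivative of the pull-back identity in the direction `e` -/
theorem inv_der (φ : Q → Q) (A : Q → Q →L[ℝ] Q) (g k : Q → Q →L[ℝ] Q →L[ℝ] ℝ)
    (dA : Q → Q →L[ℝ] Q →L[ℝ] Q) (dg dk : Q → Q →L[ℝ] Q →L[ℝ] Q →L[ℝ] ℝ)
    (hφ : ∀ x, HasFDerivAt φ (A x) x) (hA : ∀ x, HasFDerivAt A (dA x) x)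
    (hg : ∀ x, HasFDerivAt g (dg x) x) (hk : ∀ x, HasFDerivAt k (dk x) x)
    (hsymm : ∀ x u v, g x u v = g x v u)
    (hinv : ∀ x u v, g (φ x) (A x u) (A x v) = k x u v) (x e V : Q) :
    dg (φ x) (A x e) (A x V) (A x V) + 2 * g (φ x) (A x V) (dA x e V) = dk x e V V := by
  have hγ : HasDerivAt (fun s : ℝ => x + s • e) e 0 := by
    have h := ((hasDerivAt_id (0 : ℝ)).smul_const e).const_add x
    simpa using h
  have hγ0 : (fun s : ℝ => x + s • e) 0 = x := by simp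
  have h0 : HasDerivAt (fun s : ℝ => φ (x + s • e)) (A x e) 0 := IEqG.compD hγ0 (hφ x) hγ
  have h00 : (fun s : ℝ => φ (x + s • e)) 0 = φ x := by simp
  have h1 : HasDerivAt (fun s : ℝ => g (φ (x + s • e))) (dg (φ x) (A x e)) 0 :=
    IEqG.compD (f := g) (f' := dg (φ x)) h00 (hg (φ x)) h0
  have h2 : HasDerivAt (fun s : ℝ => A (x + s • e)) (dA x e) 0 := IEqG.compD hγ0 (hA x) hγ
  have h2' : HasDerivAt (fun s : ℝ => A (x + s • e) V) (dA x e V) 0 := IEqG.appC h2 V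
  have hV : (fun s : ℝ => A (x + s • e) V) 0 = A x V := by simp
  have hG0 : (fun s : ℝ => g (φ (x + s • e))) 0 = g (φ x) := by simp
  have hG1 : (fun s : ℝ => g (φ (x + s • e)) (A (x + s • e) V)) 0 = g (φ x) (A x V) := by simp
  have h30 : HasDerivAt (fun s : ℝ => g (φ (x + s • e)) (A (x + s • e) V))
      (dg (φ x) (A x e) (A x V) + g (φ x) (dA x e V)) 0 := IEqG.appD' hG0 hV h1 h2'
  have h3 : HasDerivAt (fun s : ℝ => g (φ (x + s • e)) (A (x + s • e) V) (A (x + s • e) V))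
      ((dg (φ x) (A x e) (A x V) + g (φ x) (dA x e V)) (A x V) + g (φ x) (A x V) (dA x e V)) 0 :=
    IEqG.appD' hG1 hV h30 h2'
  have h40 : HasDerivAt (fun s : ℝ => k (x + s • e)) (dk x e) 0 :=
    IEqG.compD (f := k) (f' := dk x) hγ0 (hk x) hγ
  have h4 : HasDerivAt (fun s : ℝ => k (x + s • e) V V) (dk x e V V) 0 :=
    IEqG.appC (IEqG.appC h40 V) V
  have h5 : (fun s : ℝ => g (φ (x + s • e)) (A (x + s • e) V) (A (x + s • e) V)) =
      fun s : ℝ => k (x + s • e) V V := by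
    funext s
    exact hinv _ _ _
  rw [h5] at h3
  have h6 := h3.unique h4
  rw [add_apply] at h6
  rw [← h6, hsymm (φ x) (dA x e V) (A x V)]
  ring

theorem core (φ : Q → Q) (A : Q → Q →L[ℝ] Q) (g k : Q → Q →L[ℝ] Q →L[ℝ] ℝ)
    (dA : Q → Q →L[ℝ] Q →L[ℝ] Q) (dg dk : Q → Q →L[ℝ] Q →L[ℝ] Q →L[ℝ] ℝ)
    (hφ : ∀ x, HasFDerivAt φ (A x) x) (hA : ∀ x, HasFDerivAt A (dA x) x)
    (hg : ∀ x, HasFDerivAt g (dg x) x) (hk : ∀ x, HasFDerivAt k (dk x) x)
    (hsymm : ∀ x u v, g x u v = g x v u)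
    (hinv : ∀ x u v, g (φ x) (A x u) (A x v) = k x u v)
    (hsnd : ∀ x u v, dA x u v = dA x v u)
    (c v : ℝ → Q) (t : ℝ) (v' : Q) (hc : HasDerivAt c (v t) t) (hv : HasDerivAt v v' t)
    (hel : ∀ w, HasDerivAt (fun s => k (c s) (v s) w) (1 / 2 * dk (c t) w (v t) (v t)) t)
    (w : Q) (U : ℝ → Q) (U' : Q) (hU : HasDerivAt U U' t) (hAU : ∀ s, A (c s) (U s) = w) :
    HasDerivAt (fun s => g (φ (c s)) (A (c s) (v s)) w)
      (1 / 2 * dg (φ (c t)) w (A (c t) (v t)) (A (c t) (v t))) t := by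
  have hfun : (fun s => g (φ (c s)) (A (c s) (v s)) w) = fun s => k (c s) (v s) (U s) := by
    funext s
    have h := hinv (c s) (v s) (U s)
    rw [hAU s] at h
    exact h
  have hψ : HasDerivAt (fun s => k (c s) (v s)) (dk (c t) (v t) (v t) + k (c t) v') t :=
    IEqG.appD (IEqG.compD rfl (hk (c t)) hc) hv
  have hψe : ∀ w' : Q, (dk (c t) (v t) (v t) + k (c t) v') w' =
      1 / 2 * dk (c t) w' (v t) (v t) := fun w' => (IEqG.appC hψ w').unique (hel w')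
  have hf := IEqG.appD hψ hU
  rw [hψe (U t)] at hf
  rw [hfun]
  have hAc : HasDerivAt (fun s => A (c s)) (dA (c t) (v t)) t := IEqG.compD rfl (hA (c t)) hc
  have h0 : dA (c t) (v t) (U t) + A (c t) U' = 0 := by
    have h := IEqG.appD hAc hU
    have h' : (fun s => A (c s) (U s)) = fun _ => w := by
      funext s
      exact hAU s
    rw [h'] at h
    exact h.unique (hasDerivAt_const t w)
  have hi := inv_der φ A g k dA dg dk hφ hA hg hk hsymm hinv (c t) (U t) (v t)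
  rw [hAU t] at hi
  have h2 := hinv (c t) (v t) U'
  have h3 : A (c t) U' = - dA (c t) (U t) (v t) := by
    rw [← hsnd]
    exact eq_neg_of_add_eq_zero_right h0
  rw [h3, map_neg] at h2
  have hval : 1 / 2 * dk (c t) (U t) (v t) (v t) + k (c t) (v t) U' =
      1 / 2 * dg (φ (c t)) w (A (c t) (v t)) (A (c t) (v t)) := by
    rw [← hi, ← h2]
    ring
  rw [hval] at hf
  exact hf

end abstract

variable {n : ℕ}

theorem hasF {F : E n → E n} (hF : ContDiff ℝ ∞ F) (x : E n) : HasFDerivAt F (fderiv ℝ F x) x :=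
  (hF.differentiable (by simp) x).hasFDerivAt

theorem inv1 (Φ : E n ≃ E n) (hΦ : ContDiff ℝ ∞ Φ) (hΨ : ContDiff ℝ ∞ Φ.symm) (x w : E n) :
    fderiv ℝ Φ x (fderiv ℝ Φ.symm (Φ x) w) = w := by
  have h1 : HasFDerivAt (fun y => Φ (Φ.symm y))
      ((fderiv ℝ Φ (Φ.symm (Φ x))).comp (fderiv ℝ Φ.symm (Φ x))) (Φ x) :=
    (hasF hΦ (Φ.symm (Φ x))).comp (Φ x) (hasF hΨ (Φ x))
  have h2 : (fun y => Φ (Φ.symm y)) = fun y => y := by
    funext y
    exact Φ.apply_symm_apply y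
  rw [h2, Φ.symm_apply_apply] at h1
  have h3 := h1.unique (hasFDerivAt_id (𝕜 := ℝ) (Φ x))
  have h4 := congrArg (fun T : E n →L[ℝ] E n => T w) h3
  simpa using h4

theorem inv2 (Φ : E n ≃ E n) (hΦ : ContDiff ℝ ∞ Φ) (hΨ : ContDiff ℝ ∞ Φ.symm) (x w : E n) :
    fderiv ℝ Φ (Φ.symm x) (fderiv ℝ Φ.symm x w) = w := by
  have h := inv1 Φ hΦ hΨ (Φ.symm x) w
  rwa [Φ.apply_symm_apply] at h

/-- `Φ` maps geodesics of the pull-back to geodesics -/
theorem geo {g g' : Form n} {r : ℝ} (Φ : E n ≃ E n) (hr : 0 < r)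
    (hΦ : ContDiff ℝ ∞ Φ) (hΨ : ContDiff ℝ ∞ Φ.symm)
    (hp : ∀ x u v, g'.val x u v = r * g.val (Φ x) (fderiv ℝ Φ x u) (fderiv ℝ Φ x v))
    {c : ℝ → E n} (hc : IsGeo g' c) :
    IsGeo g (fun t => Φ (c t)) ∧
      ∀ t, deriv (fun t => Φ (c t)) t = fderiv ℝ Φ (c t) (deriv c t) := by
  obtain ⟨hcs, hel⟩ := hc
  have hcd : Differentiable ℝ c := hcs.differentiable (by norm_num)
  have hc' : ∀ t, HasDerivAt c (deriv c t) t := fun t => (hcd t).hasDerivAt
  have hvs : ContDiff ℝ 1 (deriv c) := by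
    have h := hcs
    rw [show (2 : WithTop ℕ∞) = 1 + 1 by norm_num, contDiff_succ_iff_deriv] at h
    exact h.2.2
  have hv' : ∀ t, HasDerivAt (deriv c) (deriv (deriv c) t) t := fun t =>
    (hvs.differentiable (by norm_num) t).hasDerivAt
  have hc1' : ∀ t, deriv (fun s => Φ (c s)) t = fderiv ℝ Φ (c t) (deriv c t) := fun t =>
    (IEqG.compD rfl (hasF hΦ (c t)) (hc' t)).deriv
  refine ⟨⟨(hΦ.of_le (by exact ENat.LEInfty.out)).comp hcs, ?_⟩, hc1'⟩
  intro t w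
  have hF2c : ContDiff ℝ ∞ (fderiv ℝ Φ) := hΦ.fderiv_right (by norm_num)
  have hG2c : ContDiff ℝ ∞ (fderiv ℝ Φ.symm) := hΨ.fderiv_right (by norm_num)
  have hA : ∀ y, HasFDerivAt (fderiv ℝ Φ) (fderiv ℝ (fderiv ℝ Φ) y) y := fun y =>
    (hF2c.differentiable (by simp) y).hasFDerivAt
  have hu : Differentiable ℝ (fun x : E n => fderiv ℝ Φ.symm (Φ x) w) := by
    intro x
    have h1 : DifferentiableAt ℝ (fun y : E n => fderiv ℝ Φ.symm y) (Φ x) :=
      hG2c.differentiable (by simp) (Φ x)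
    have h2 : DifferentiableAt ℝ Φ x := hΦ.differentiable (by simp) x
    have h3 : DifferentiableAt ℝ (fun y : E n => fderiv ℝ Φ.symm (Φ y)) x := h1.comp x h2
    exact h3.clm_apply (differentiableAt_const w)
  have hUd : HasDerivAt (fun s => fderiv ℝ Φ.symm (Φ (c s)) w)
      (fderiv ℝ (fun x : E n => fderiv ℝ Φ.symm (Φ x) w) (c t) (deriv c t)) t :=
    IEqG.compD (f := fun x : E n => fderiv ℝ Φ.symm (Φ x) w) rfl ((hu (c t)).hasFDerivAt) (hc' t)
  have hgd : ∀ y, HasFDerivAt g.val (fderiv ℝ g.val y) y := fun y =>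
    (g.smooth.differentiable (by simp)).differentiableAt.hasFDerivAt
  have hgd' : ∀ y, HasFDerivAt g'.val (fderiv ℝ g'.val y) y := fun y =>
    (g'.smooth.differentiable (by simp)).differentiableAt.hasFDerivAt
  have hk : ∀ y, HasFDerivAt (fun y => r⁻¹ • g'.val y) (r⁻¹ • fderiv ℝ g'.val y) y := by
    intro y
    exact smulD (Q := E n) (F := E n →L[ℝ] E n →L[ℝ] ℝ) (f := g'.val)
      (f' := fderiv ℝ g'.val y) (hgd' y) r⁻¹
  have hkel : ∀ w, HasDerivAt (fun s => (r⁻¹ • g'.val (c s)) (deriv c s) w)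
      (1 / 2 * (r⁻¹ • fderiv ℝ g'.val (c t)) w (deriv c t) (deriv c t)) t := by
    intro w
    have h := (hel t w).const_mul r⁻¹
    have e : 1 / 2 * (r⁻¹ • fderiv ℝ g'.val (c t)) w (deriv c t) (deriv c t) =
        r⁻¹ * (1 / 2 * fderiv ℝ g'.val (c t) w (deriv c t) (deriv c t)) := by
      simp only [_root_.smul_apply, smul_eq_mul]
      ring
    rw [e]
    exact h
  have hmain := core Φ (fderiv ℝ Φ) g.val (fun y => r⁻¹ • g'.val y)
    (fun y => fderiv ℝ (fderiv ℝ Φ) y) (fun y => fderiv ℝ g.val y)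
    (fun y => r⁻¹ • fderiv ℝ g'.val y)
    (hasF hΦ) hA hgd hk g.symm
    (fun x u v => by
      show _ = r⁻¹ * g'.val x u v
      rw [hp, inv_mul_cancel_left₀ hr.ne'])
    (fun x u v => second_derivative_symmetric (hasF hΦ) (hA x) u v)
    c (deriv c) t (deriv (deriv c) t) (hc' t) (hv' t) hkel w
    (fun s => fderiv ℝ Φ.symm (Φ (c s)) w) _ hUd (fun s => inv1 Φ hΦ hΨ (c s) w)
  have hfun : (fun s => g.val (Φ (c s)) (deriv (fun s => Φ (c s)) s) w) =
      fun s => g.val (Φ (c s)) (fderiv ℝ Φ (c s) (deriv c s)) w := by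
    funext s
    rw [hc1' s]
  rw [hfun, hc1' t]
  exact hmain

/-- rescaling of geodesics -/
theorem resc {g : Form n} {c : ℝ → E n} (hc : IsGeo g c) (σ : ℝ) :
    IsGeo g (fun t => c (σ * t)) ∧ ∀ t, deriv (fun t => c (σ * t)) t = σ • deriv c (σ * t) := by
  obtain ⟨hcs, hel⟩ := hc
  have hcd : Differentiable ℝ c := hcs.differentiable (by norm_num)
  have hl : ∀ t : ℝ, HasDerivAt (fun t : ℝ => σ * t) σ t := fun t => by
    simpa using (hasDerivAt_id t).const_mul σ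
  have hd : ∀ t, deriv (fun t => c (σ * t)) t = σ • deriv c (σ * t) := fun t =>
    ((hcd (σ * t)).hasDerivAt.scomp t (hl t)).deriv
  refine ⟨⟨hcs.comp (contDiff_const.mul contDiff_id), ?_⟩, hd⟩
  intro t w
  have hfun : (fun s => g.val (c (σ * s)) (deriv (fun s => c (σ * s)) s) w) =
      fun s => σ * (fun s => g.val (c s) (deriv c s) w) (σ * s) := by
    funext s
    rw [hd s]
    simp
  rw [hfun, hd t]
  have h1 := ((hel (σ * t) w).comp t (hl t)).const_mul σ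
  have e : 1 / 2 * fderiv ℝ g.val (c (σ * t)) w (σ • deriv c (σ * t)) (σ • deriv c (σ * t)) =
      σ * (1 / 2 * fderiv ℝ g.val (c (σ * t)) w (deriv c (σ * t)) (deriv c (σ * t)) * σ) := by
    simp only [map_smul, _root_.smul_apply, smul_eq_mul]
    ring
  rw [e]
  exact h1

/-- images of paths -/
theorem path {g h : Form n} {F : E n → E n} (hF : ContDiff ℝ ∞ F) (κ : ℝ)
    (hn : ∀ x v, nrm h (F x) (fderiv ℝ F x v) = κ * nrm g x v) {x y : E n} {l : ℝ}
    (p : PathLen g x y l) : PathLen h (F x) (F y) (κ * l) := by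
  induction p with
  | refl x => simpa using PathLen.refl (g := h) (F x)
  | cons c a b y l hc hab _ ih =>
    have hFc : ContDiff ℝ 1 (fun t => F (c t)) :=
      (hF.of_le (by exact ENat.LEInfty.out)).comp hc
    have h1 := PathLen.cons (g := h) (fun t => F (c t)) a b (F y) (κ * l) hFc hab ih
    have hd : ∀ t, deriv (fun t => F (c t)) t = fderiv ℝ F (c t) (deriv c t) := fun t =>
      (IEqG.compD rfl (hasF hF (c t)) ((hc.differentiable (by norm_num) t).hasDerivAt)).deriv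
    simp only [hd, hn, intervalIntegral.integral_const_mul] at h1
    rwa [mul_add]

theorem gd_le {g h : Form n} {F : E n → E n} (hF : ContDiff ℝ ∞ F) (κ : ℝ) (hκ : 0 < κ)
    (hn : ∀ x v, nrm h (F x) (fderiv ℝ F x v) = κ * nrm g x v) (x y : E n) :
    gd h (F x) (F y) ≤ κ * gd g x y := by
  obtain ⟨a1, -, -, -⟩ := pr_Gd n h
  obtain ⟨-, -, b3, -⟩ := pr_Gd n g
  refine le_of_forall_pos_le_add fun ε hε => ?_
  obtain ⟨l, hl, hl2⟩ := b3 x y (ε / κ) (div_pos hε hκ)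
  have h1 := a1 _ _ _ (path hF κ hn hl)
  have h2 : κ * l ≤ κ * gd g x y + ε := by
    have h3 := mul_le_mul_of_nonneg_left hl2.le hκ.le
    rw [mul_add, mul_div_cancel₀ _ hκ.ne'] at h3
    exact h3
  exact h1.trans h2

end IRMz

open IRMz in
theorem pr_RMz : StRMz := by
  intro n g g' r Φ hr hg hM hΦ hΨ hp c hc hu s t
  obtain ⟨σ, hσd⟩ : ∃ σ : ℝ, σ = Real.sqrt r := ⟨_, rfl⟩
  have hσ : 0 < σ := by
    rw [hσd]
    exact Real.sqrt_pos.2 hr
  have hσ2 : σ * σ = r := by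
    rw [hσd]
    exact Real.mul_self_sqrt hr.le
  have n1 : ∀ x v, nrm g' x v = σ * nrm g (Φ x) (fderiv ℝ Φ x v) := by
    intro x v
    unfold nrm
    rw [hp, Real.sqrt_mul hr.le, hσd]
  have n2 : ∀ x v, nrm g (Φ x) (fderiv ℝ Φ x v) = σ⁻¹ * nrm g' x v := by
    intro x v
    rw [n1, inv_mul_cancel_left₀ hσ.ne']
  have n3 : ∀ x v, nrm g' (Φ.symm x) (fderiv ℝ Φ.symm x v) = σ * nrm g x v := by
    intro x v
    rw [n1, Φ.apply_symm_apply, inv2 Φ hΦ hΨ]
  have hgd : ∀ x y, gd g' x y = σ * gd g (Φ x) (Φ y) := by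
    intro x y
    apply le_antisymm
    · have h := gd_le hΨ σ hσ n3 (Φ x) (Φ y)
      rwa [Φ.symm_apply_apply, Φ.symm_apply_apply] at h
    · have h := gd_le hΦ σ⁻¹ (inv_pos.2 hσ) n2 x y
      have h2 := mul_le_mul_of_nonneg_left h hσ.le
      rwa [mul_inv_cancel_left₀ hσ.ne'] at h2
  obtain ⟨k1, k2⟩ := geo Φ hr hΦ hΨ hp hc
  obtain ⟨m1, m2⟩ := resc k1 σ
  have hunit : ∀ t, g.val ((fun t => Φ (c (σ * t))) t) (deriv (fun t => Φ (c (σ * t))) t)
      (deriv (fun t => Φ (c (σ * t))) t) = 1 := by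
    intro t
    have e1 : deriv (fun t => Φ (c (σ * t))) t = σ • fderiv ℝ Φ (c (σ * t)) (deriv c (σ * t)) := by
      have := m2 t
      rw [k2] at this
      exact this
    rw [e1]
    show g.val (Φ (c (σ * t))) _ _ = 1
    simp only [map_smul, _root_.smul_apply, smul_eq_mul]
    rw [← mul_assoc, hσ2, ← hp]
    exact hu (σ * t)
  have h9 := hM (fun t => Φ (c (σ * t))) m1 hunit (s / σ) (t / σ)
  have e2 : ∀ t : ℝ, σ * (t / σ) = t := fun t => mul_div_cancel₀ t hσ.ne'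
  simp only [e2] at h9
  rw [hgd, h9, ← sub_div, abs_div, abs_of_pos hσ, mul_div_cancel₀ _ hσ.ne']

end Pool.Agent.LQR
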