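import Pool.Agent.Work.MP_13b5d9_gt.LQ.RStmts
import Pool.Agent.Work.MP_13b5d9_gt.LQ.Defs

set_option autoImplicit false

/-!
# MP_13b5d9_gt, block LQ: the theorem of local rigidity
-/

open MeasureTheory Set Filter Topology
open scoped ContDiff ENNReal
open Pool.Agent.Work.MP_c9f990_an.Al (IsFlow)

namespace Pool.Agent.LQR

open Pool.Agent.MLS Pool.Agent.EC Pool.Agent.STR Pool.Agent.DR

/-- Sequences (uses `LQ.StL`, `StRLin`, `StRPd`, `StRPs`, `StRDif`, `StREq`, `StRAct`, `StRPU`,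
`StRMet`, `StRMz`, `StRSp`, `StRG`, `StRTr`).  For large `j` (say `j ≥ J`) the field is transversal
(`StRTr`), `Φ_j` is the diffeomorphism of `StRDif`, `η_j` from `StREq`, `A_j` the conjugated action
`a *' y = Φ_j⁻¹ (a • Φ_j y) = jn (p a • pr y) (ht y + k a + η_j (p a))` (`Equiv.mulAction`), `g'_j` the
metric of `StRMet`, `Minz` by `StRMz` and `StNC`; `χ`, `S` from `StRPU`; `g'_j → F 0` with all
derivatives (`StRG`).  So the sequence `g'_(J + i)` satisfies `LQ.SetupQ` and the two conditions of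
`LQ.StL`; so `TInv g'_j eL` for large `j`, and `StRSp` gives the splitting. -/
def StRSeq : Prop := ∀ (m : ℕ) (Γ G : Type) [Group Γ] [MulAction Γ (E m)] [Group G]
  [MulAction G (E (m + 1))] (p : G →* Γ) (k : G → ℤ) (F : ℝ → Form (m + 1)) (z : G)
  (l : ℕ → ℝ) (V : ℕ → E (m + 1) → E (m + 1)) (τ : ℕ → E (m + 1) → ℝ)
  (ψ : ℕ → ℝ → E (m + 1) → E (m + 1)), Ctx m Γ G p k F z l V τ ψ →
  ∀ᶠ j in atTop, ∃ (κ : Form m) (Θ : E (m + 1) ≃ E m × ℝ), Spl m G (F (sj j)) κ Θ

/-- THEOREM (local rigidity of products).  Every metric without conjugate points on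
`(R^m / Γ) x S^1` which is close to a product metric `dt^2 + g_M` has a universal covering which splits
as a Riemannian product with a line, equivariantly.  (Uses `StRSeq`, `StRCur`, `STR.StAx`; by
contradiction: if there is no such `r` choose for every `j` a metric `g_j` as in the hypothesis for
some `r ≥ j` with `1 / (r + 1) ≤ 2^(-j^2)` which does not split; `StRCur` gives a family `F`, which is
invariant; `STR.StAx` gives the canonical fields, subtract `τ_j 0` from the potential.) -/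
def StRThm : Prop := ∀ (m : ℕ) (Γ G : Type) [Group Γ] [MulAction Γ (E m)] [Group G]
  [MulAction G (E (m + 1))] (p : G →* Γ) (k : G → ℤ), Pd m Γ G p k →
  ∀ g0 : Form (m + 1), Riem g0 → MLS.Inv G g0 → Blk g0 → TInv g0 eL → ∃ r : ℕ,
  ∀ g : Form (m + 1), Riem g → MLS.Inv G g → NoConj g →
  (∀ i ≤ r, ∀ y : E (m + 1), ‖y‖ ≤ r →
    ‖iteratedFDeriv ℝ i (fun x => g.val x - g0.val x) y‖ ≤ 1 / ((r : ℝ) + 1)) →
  ∃ (κ : Form m) (Θ : E (m + 1) ≃ E m × ℝ), Spl m G g κ Θ

end Pool.Agent.LQR
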