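import Pool.Agent.Work.MP_25cd3b_gt.NG.All
import Pool.Agent.Work.MP_13b5d9_gt.LQ.RStmts2

set_option autoImplicit false

/-!
# MP_13b5d9_gt, block LQ, item RSeq: assembly of the reduction
-/

open MeasureTheory Set Filter Topology
open scoped ContDiff ENNReal
open Pool.Agent.Work.MP_c9f990_an.Al (IsFlow)

namespace Pool.Agent.LQR

open Pool.Agent.MLS Pool.Agent.EC Pool.Agent.STR Pool.Agent.DR

namespace IRSeq

theorem pb_apply {n : ℕ} (r : ℝ) (g : Form n) (Ψ : E n → E n) (y u v : E n) :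
    pb r g Ψ y u v = r * g.val (Ψ y) (fderiv ℝ Ψ y u) (fderiv ℝ Ψ y v) := by
  simp [pb]

end IRSeq

open IRSeq in
theorem pr_RSeq (hL : LQ.StL) (h2 : StRPd) (h4 : StRDif) (h5 : StREq) (h6 : StRAct)
    (h7 : StRPU) (h8 : StRMet) (h9 : StRMz) (h10 : StRSp) (h11 : StRG) (h12 : StRTr) :
    StRSeq := by
  intro m Γ G _ _ _ iG p k F z l V τ ψ hC
  obtain ⟨J, hJ⟩ := eventually_atTop.1 (h12 m Γ G p k F z l V τ ψ hC)
  -- the diffeomorphisms
  have hD : ∀ i : ℕ, ∃ Φ : E (m + 1) ≃ E (m + 1),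
      (∀ y, Φ y = Ps (l (J + i)) (τ (J + i)) (ψ (J + i)) y) ∧ ContDiff ℝ ∞ Φ ∧
        ContDiff ℝ ∞ Φ.symm := fun i =>
    h4 m G (F (sj (J + i))) z _ _ _ _ (hC.ax (J + i)) (hJ (J + i) (Nat.le_add_right _ _))
  choose Φ hΦ hΦs hΦi using hD
  have hE : ∀ i : ℕ, ∃ η : Γ → ℝ, (∀ a b, η (a * b) = η a + η b) ∧ ∀ (a : G) (y : E (m + 1)),
      a • Ps (l (J + i)) (τ (J + i)) (ψ (J + i)) y =
        Ps (l (J + i)) (τ (J + i)) (ψ (J + i)) (jn (p a • pr y) (ht y + k a + η (p a))) :=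
    fun i => h5 m Γ G p k hC.pd (F (sj (J + i))) z _ _ _ _ hC.zt (hC.ax (J + i))
  choose η hηa hη using hE
  let A : ℕ → MulAction G (E (m + 1)) := fun i => Equiv.mulAction G (Φ i)
  have hA0 : ∀ (i : ℕ) (a : G) (y : E (m + 1)), (A i).smul a y = (Φ i).symm (a • Φ i y) :=
    fun i a y => rfl
  have hAf : ∀ (i : ℕ) (a : G) (y : E (m + 1)), a • Φ i y =
      Φ i (jn (p a • pr y) (ht y + k a + η i (p a))) := by
    intro i a y
    rw [hΦ i, hΦ i]
    exact hη i a y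
  have hA : ∀ (i : ℕ) (a : G) (y : E (m + 1)), (A i).smul a y =
      jn (p a • pr y) (ht y + k a + η i (p a)) := by
    intro i a y
    rw [hA0, hAf, Equiv.symm_apply_apply]
  have hA1 : ∀ (i : ℕ) (a : G) (y : E (m + 1)), Φ i ((A i).smul a y) = a • Φ i y := by
    intro i a y
    rw [hA0, Equiv.apply_symm_apply]
  have hAct : ∀ i, @Cocompact (m + 1) G _ (A i) ∧ @Vert (m + 1) G _ (A i) eL ∧
      ∃ z : G, ∀ x : E (m + 1), (A i).smul z x = x + eL := fun i =>
    h6 m Γ G p k hC.pd (η i) (hηa i) (A i) (hA i)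
  -- the metrics
  have hM : ∀ i : ℕ, ∃ g' : Form (m + 1), g'.val = pb (1 / l (J + i) ^ 2) (F (sj (J + i)))
      (Ps (l (J + i)) (τ (J + i)) (ψ (J + i))) ∧ Riem g' ∧ Blk g' ∧
      ∀ B : MulAction G (E (m + 1)), (∀ (a : G) (y : E (m + 1)),
        Φ i (B.smul a y) = iG.smul a (Φ i y)) → @MLS.Inv (m + 1) G _ B g' := fun i =>
    h8 m G hC.pd.cocG (F (sj (J + i))) (hC.fam.riem _) (hC.inv _) z _ _ _ _ (hC.ax (J + i))
      (Φ i) (hΦ i) (hΦs i) (hΦi i)
  choose g' hg'v hg'R hg'B hg'I using hM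
  have hfun : ∀ i, (Φ i : E (m + 1) → E (m + 1)) = Ps (l (J + i)) (τ (J + i)) (ψ (J + i)) :=
    fun i => funext (hΦ i)
  have hform : ∀ (i : ℕ) (x u v : E (m + 1)), (g' i).val x u v =
      1 / l (J + i) ^ 2 * (F (sj (J + i))).val (Φ i x) (fderiv ℝ (Φ i) x u)
        (fderiv ℝ (Φ i) x v) := by
    intro i x u v
    rw [hg'v i, pb_apply, hfun i]
  have hlpos : ∀ i, 0 < l (J + i) := fun i => (hC.ax (J + i)).pos
  have hMz : ∀ i, Minz (g' i) := by
    intro i
    have h0 : Minz (F (sj (J + i))) :=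
      p_NC (m + 1) G hC.pd.cocG _ (hC.fam.riem _) (hC.inv _) (hC.noc _)
    have hl := hlpos i
    exact h9 (m + 1) (F (sj (J + i))) (g' i) (1 / l (J + i) ^ 2) (Φ i) (by positivity)
      (hC.fam.riem _) h0 (hΦs i) (hΦi i) (hform i)
  obtain ⟨χ, S, hSc, hχS, hχS', hPU, hN⟩ := h7 m Γ G p k hC.pd
  have hset : LQ.SetupQ m G A g' (F 0) (fun _ => χ) S :=
    { coc := fun i => (hAct i).1
      vert := fun i => (hAct i).2.1
      per := fun i => (hAct i).2.2
      riem := hg'R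
      inv := fun i => hg'I i (A i) (hA1 i)
      minz := hMz
      blk := hg'B
      pu := fun i => (hPU (η i) (hηa i) (A i) (hA i)).1
      supp := fun i x hx => hχS x hx
      cpt := hSc
      riem0 := hC.fam.riem 0
      blk0 := hC.blk0
      tinv0 := hC.tinv0
      flow0 := p_Flow (m + 1) G hC.pd.cocG (F 0) (hC.fam.riem 0) (hC.inv 0)
      conv := by
        intro i
        rw [tendstoLocallyUniformly_iff_forall_isCompact]
        intro K hK
        rw [Metric.tendstoUniformlyOn_iff]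
        intro ε hε
        have h := h11 m Γ G p k F z l V τ ψ hC K i (ε / 2) hK (half_pos hε)
        obtain ⟨J', hJ'⟩ := eventually_atTop.1 h
        refine eventually_atTop.2 ⟨J', fun q hq x hx => ?_⟩
        have h1 := hJ' (J + q) (by omega) x hx
        rw [dist_comm, dist_eq_norm, hg'v q]
        linarith }
  have hfin := hL m G A g' (F 0) (fun _ => χ) S hset
    (by
      intro K hK
      obtain ⟨N, hN'⟩ := hN K hK
      refine ⟨N, fun i x hx => ?_⟩
      exact Set.encard_le_coe_iff_finite_ncard_le.1 (hN' (η i) (hηa i) (A i) (hA i) x hx))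
    (fun i x => (hPU (η i) (hηa i) (A i) (hA i)).2 x)
  obtain ⟨I, hI⟩ := eventually_atTop.1 hfin
  refine eventually_atTop.2 ⟨J + I, fun j hj => ?_⟩
  obtain ⟨i, rfl⟩ : ∃ i, j = J + i := ⟨j - J, by omega⟩
  have hi := hI i (by omega)
  refine h10 m Γ G p (F (sj (J + i))) (g' i) (l (J + i)) (Φ i) (hC.fam.riem _) (hg'R i)
    (hlpos i) (hΦs i) (hΦi i) (hform i) (hg'B i) hi (fun a => ⟨k a + η i (p a), fun y => ?_⟩)
  rw [hAf, add_assoc]

end Pool.Agent.LQR
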