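import Pool.Agent.Work.MP_13b5d9_gt.LQ.TStmts
import Pool.Agent.Work.MP_25cd3b_gt.M.I_Op
import Pool.Agent.Work.MP_25cd3b_gt.M.I_Hd
import Pool.Agent.Work.MP_25cd3b_gt.M.I_Tr0
import Pool.Agent.Work.MP_25cd3b_gt.M.I_Geo1
import Pool.Agent.Work.MP_25cd3b_gt.M.I_Geo2
import Pool.Agent.Work.MP_25cd3b_gt.NC.I_Ga
import Pool.Agent.Work.MP_25cd3b_gt.NC.I_Geo
import Pool.Agent.Work.MP_25cd3b_gt.NC.I_Spr
import Pool.Agent.Work.MP_25cd3b_gt.NC.I_Lin
import Pool.Agent.Work.MP_25cd3b_gt.NC.I_Exp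
import Pool.Agent.Work.MP_25cd3b_gt.NC.I_Gx
import Pool.Agent.Work.MP_25cd3b_gt.NC.I_Inj

set_option autoImplicit false
set_option maxSynthPendingDepth 3

/-!
# MP_13b5d9_gt, block LQ, item TExP: the exponential map in the vertical direction, closed form
-/

open MeasureTheory Set Filter Topology
open scoped ContDiff ENNReal
open Pool.Agent.Work.MP_c9f990_an.Al (IsFlow)

namespace Pool.Agent.LQT

open Pool.Agent.MLS Pool.Agent.EC Pool.Agent.STR Pool.Agent.DR Pool.Agent.LQR

namespace ITExP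

variable {m : ℕ} {g : Form (m + 1)} {f : E m → ℝ}

/-- derivative along a line -/
theorem line {F : Type} [NormedAddCommGroup F] [NormedSpace ℝ F] {f : E (m + 1) → F}
    {x : E (m + 1)} (hf : DifferentiableAt ℝ f x) (u : E (m + 1)) :
    HasDerivAt (fun t : ℝ => f (x + t • u)) (fderiv ℝ f x u) 0 := by
  have h1 : HasDerivAt (fun t : ℝ => x + t • u) u 0 := by
    simpa using ((hasDerivAt_id (0 : ℝ)).smul_const u).const_add x
  have h2 : HasFDerivAt f (fderiv ℝ f x) (x + (0 : ℝ) • u) := by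
    simpa using hf.hasFDerivAt
  exact h2.comp_hasDerivAt (0 : ℝ) h1

theorem dif (g : Form (m + 1)) (x : E (m + 1)) : DifferentiableAt ℝ g.val x :=
  (g.smooth.differentiable (by simp)).differentiableAt

theorem pre : pr (eL : E (m + 1)) = 0 := by
  ext i
  simp [pr, eL, ee]

/-- derivative of the function `g (e, w)` -/
theorem dB (hf : ContDiff ℝ ∞ f) (hB : Clf f g) (x u w : E (m + 1)) :
    fderiv ℝ g.val x u eL w = fderiv ℝ (fderiv ℝ f) (pr x) (pr u) (pr w) := by
  have h := ((line (dif g x) u).clm_apply (hasDerivAt_const (0 : ℝ) (eL (m := m)))).clm_apply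
    (hasDerivAt_const (0 : ℝ) w)
  have h2 : (fun t : ℝ => g.val (x + t • u) eL w) =
      fun t : ℝ => ht w + fderiv ℝ f (pr x + t • pr u) (pr w) := by
    funext t
    rw [hB, map_add, map_smul]
  rw [h2] at h
  have hd : DifferentiableAt ℝ (fderiv ℝ f) (pr x) :=
    ((hf.fderiv_right (m := 1) (by norm_cast)).differentiable (by norm_num)).differentiableAt
  have a1 : HasDerivAt (fun t : ℝ => pr x + t • pr u) (pr u) 0 := by
    simpa using ((hasDerivAt_id (0 : ℝ)).smul_const (pr u)).const_add (pr x)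
  have a2 : HasFDerivAt (fderiv ℝ f) (fderiv ℝ (fderiv ℝ f) (pr x)) (pr x + (0 : ℝ) • pr u) := by
    simpa using hd.hasFDerivAt
  have a3 := (a2.comp_hasDerivAt (0 : ℝ) a1).clm_apply (hasDerivAt_const (0 : ℝ) (pr w))
  have h3 := h.unique (a3.const_add (ht w))
  simpa using h3

theorem sym (hf : ContDiff ℝ ∞ f) (x u w : E m) :
    fderiv ℝ (fderiv ℝ f) x u w = fderiv ℝ (fderiv ℝ f) x w u :=
  (hf.contDiffAt.isSymmSndFDerivAt (by simp; norm_cast)).eq u w

theorem dT (hT : TInv g eL) (x : E (m + 1)) : fderiv ℝ g.val x eL = 0 := by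
  have h := line (dif g x) eL
  have h2 : (fun t : ℝ => g.val (x + t • eL)) = fun _ => g.val x := by
    funext t
    exact hT _ _
  rw [h2] at h
  exact h.unique (hasDerivAt_const (0 : ℝ) (g.val x))

theorem Gae (hG : NcGa) (hR : Riem g) (hf : ContDiff ℝ ∞ f) (hB : Clf f g) (hT : TInv g eL)
    (x w : E (m + 1)) : Ga g x eL w = 0 := by
  by_contra hne
  have h1 := hR x _ hne
  rw [(hG (m + 1) g hR).2.2.2, dT hT, dB hf hB, dB hf hB, sym hf] at h1
  simp at h1

theorem dGae (hG : NcGa) (hR : Riem g) (hf : ContDiff ℝ ∞ f) (hB : Clf f g) (hT : TInv g eL)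
    (x u w : E (m + 1)) : fderiv ℝ (Ga g) x u eL w = 0 := by
  have hd : DifferentiableAt ℝ (Ga g) x :=
    ((hG (m + 1) g hR).1.differentiable (by simp)).differentiableAt
  have h := ((line hd u).clm_apply (hasDerivAt_const (0 : ℝ) (eL (m := m)))).clm_apply
    (hasDerivAt_const (0 : ℝ) w)
  have h2 : (fun t : ℝ => Ga g (x + t • u) eL w) = fun _ => 0 := by
    funext t
    exact Gae hG hR hf hB hT _ _
  rw [h2] at h
  have h3 := h.unique (hasDerivAt_const (0 : ℝ) (0 : E (m + 1)))
  simpa using h3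

theorem hdl (x : E (m + 1)) (t : ℝ) : HasDerivAt (fun t : ℝ => x + t • (eL : E (m + 1))) eL t := by
  simpa using ((hasDerivAt_id t).smul_const (eL : E (m + 1))).const_add x

theorem geo (hf : ContDiff ℝ ∞ f) (hB : Clf f g) (x : E (m + 1)) : IsGeo g (fun t : ℝ => x + t • eL) := by
  refine ⟨by fun_prop, fun t w => ?_⟩
  have hd : deriv (fun t : ℝ => x + t • (eL : E (m + 1))) = fun _ => eL :=
    funext fun t => (hdl x t).deriv
  rw [hd]
  have h2 : (fun s : ℝ => g.val ((fun t : ℝ => x + t • eL) s) ((fun _ : ℝ => eL) s) w) =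
      fun _ => ht w + fderiv ℝ f (pr x) (pr w) := by
    funext s
    show g.val (x + s • eL) eL w = _
    rw [hB, map_add, map_smul, pre, smul_zero, add_zero]
  rw [h2]
  have h3 : (1 / 2 * fderiv ℝ g.val ((fun t : ℝ => x + t • eL) t) w ((fun _ : ℝ => eL) t)
      ((fun _ : ℝ => eL) t)) = 0 := by
    show (1 / 2 * fderiv ℝ g.val (x + t • eL) w eL eL) = 0
    rw [dB hf hB, pre]
    simp
  rw [h3]
  exact hasDerivAt_const _ _

theorem core (hO : StOp) (hG : NcGa) (hL : NcLin) (hE : NcExp) (hX : NcGx) : TExP := by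
  intro m f g φ M hR hf hB hT hF x
  obtain ⟨-, -, hiop, -, -, -, -, -, -⟩ := hO (m + 1) g hR
  have hd : deriv (fun t : ℝ => x + t • (eL : E (m + 1))) = fun _ => eL :=
    funext fun t => (hdl x t).deriv
  have hx0 : x + (0 : ℝ) • (eL : E (m + 1)) = x := by simp
  have hφ : ∀ t : ℝ, φ t (x, op g x eL) = (x + t • eL, op g (x + t • eL) eL) := by
    intro t
    have h := (hX (m + 1) g φ M hR hF _ (geo hf hB x) 0 t).1
    simp only [hd, hx0, sub_zero] at h
    exact h.symm
  have hv : ∀ t : ℝ, vel g (φ t (x, op g x eL)) = eL := by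
    intro t
    rw [hφ t]
    exact hiop _ _
  refine ⟨?_, fun w => ?_⟩
  · have h := (hX (m + 1) g φ M hR hF _ (geo hf hB x) 0 1).2
    simp only [hd, hx0, sub_zero, one_smul] at h
    exact h.symm
  · rw [(hE (m + 1) g φ M hR hF x).2.1]
    obtain ⟨cd, d1, d2⟩ := hL (m + 1) g φ M hR hF (x, op g x eL) (0, op g x w)
    have d3 : ∀ t, HasDerivAt (deriv fun s => (M s (x, op g x eL) (0, op g x w)).1) 0 t := by
      intro t
      have h := d2 t
      rw [hv, dGae hG hR hf hB hT, Gae hG hR hf hB hT] at h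
      simpa using h
    have e0 : deriv (fun s => (M s (x, op g x eL) (0, op g x w)).1) 0 = w := by
      rw [d1 0, hF.zero, hF.M0]
      have h7 := JNCInj.vel_vert hO (m + 1) g hR x (op g x eL) (op g x w)
      rw [hiop] at h7
      exact h7
    have e1 : ∀ t, deriv (fun s => (M s (x, op g x eL) (0, op g x w)).1) t = w := by
      intro t
      have h := is_const_of_deriv_eq_zero (fun s => (d3 s).differentiableAt)
        (fun s => (d3 s).deriv) t 0
      exact h.trans e0
    have cd1 : Differentiable ℝ (fun s => (M s (x, op g x eL) (0, op g x w)).1) :=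
      cd.differentiable (by norm_num)
    have e2 : ∀ t, HasDerivAt (fun s => (M s (x, op g x eL) (0, op g x w)).1 - s • w) 0 t := by
      intro t
      have a1 := (cd1 t).hasDerivAt
      rw [e1 t] at a1
      have a2 := (hasDerivAt_id t).smul_const w
      have a3 := a1.fun_sub a2
      rw [one_smul, sub_self] at a3
      exact a3
    have e3 := is_const_of_deriv_eq_zero (fun s => (e2 s).differentiableAt)
      (fun s => (e2 s).deriv) 1 0
    have e4 : (M 0 (x, op g x eL) ((0 : E (m + 1)), op g x w)).1 = 0 := by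
      rw [hF.M0]
      rfl
    rw [e4, one_smul, zero_smul, sub_zero] at e3
    exact sub_eq_zero.1 e3

end ITExP

/-- Exponential map in the vertical direction. -/
theorem pr_TExP : TExP := by
  have hd := pr_Hd pr_Op
  have g1 := pr_Geo1 pr_Op hd pr_Tr0
  have g2 := pr_Geo2 pr_Op hd
  have ga := pr_NcGa pr_Op
  have ex := pr_NcExp pr_Op hd
  exact ITExP.core pr_Op ga (pr_NcLin pr_Op hd pr_Tr0 ga (pr_NcSpr pr_Op g1 (pr_NcGeo ga))) ex
    (pr_NcGx g2 ex)

end Pool.Agent.LQT
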