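import Mathlib
import Pool.Agent.Work.MP_13b5d9_gt.LQ.TStmts

set_option autoImplicit false

/-!
# MP_13b5d9_gt, block LQ, item TPa: the product action
-/

open MeasureTheory Set Filter Topology
open scoped ContDiff ENNReal
open Pool.Agent.Work.MP_c9f990_an.Al (IsFlow)

namespace Pool.Agent.LQT

open Pool.Agent.MLS Pool.Agent.EC Pool.Agent.STR Pool.Agent.DR Pool.Agent.LQR

theorem pr_TPa (h1 : StRLin) : TPa := by
  intro m Γ G _ _ _ p k hcoc hk hbij
  obtain ⟨l1, l2, l3, l4, l5, l6, l7, l8, l9, l10, l11, l12, l13⟩ := h1 m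
  have hk1 : k 1 = 0 := by
    have := hk 1 1
    rw [mul_one] at this
    linarith
  let A : MulAction G (E (m + 1)) :=
    { smul := fun a y => jn (p a • pr y) (ht y + k a)
      one_smul := fun y => by
        change jn (p 1 • pr y) (ht y + ((k 1 : ℤ) : ℝ)) = y
        rw [map_one, one_smul, hk1, Int.cast_zero, add_zero]
        exact l5 y
      mul_smul := fun a b y => by
        change jn (p (a * b) • pr y) (ht y + ((k (a * b) : ℤ) : ℝ)) =
          jn (p a • pr (jn (p b • pr y) (ht y + k b))) (ht (jn (p b • pr y) (ht y + k b)) + k a)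
        rw [l6, l7, map_mul, mul_smul, hk]
        push_cast
        congr 1
        ring }
  have hA : ∀ (a : G) (y : E (m + 1)), A.smul a y = jn (p a • pr y) (ht y + k a) := fun _ _ => rfl
  have hinj : Function.Injective (fun a : G => (p a, k a)) := by
    intro a b hab
    obtain ⟨c, -, hc⟩ := hbij (p a) (k a)
    have e1 : p a = p b := congrArg Prod.fst hab
    have e2 : k a = k b := congrArg Prod.snd hab
    rw [hc a ⟨rfl, rfl⟩, hc b ⟨e1.symm, e2.symm⟩]
  have hpr : ∀ (a : G) (y : E (m + 1)), pr (A.smul a y) = p a • pr y := fun a y => by rw [hA, l6]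
  have hht : ∀ (a : G) (y : E (m + 1)), ht (A.smul a y) = ht y + k a := fun a y => by
    rw [hA, l7]
  have hjn : Continuous (fun q : E m × ℝ => (jn q.1 q.2 : E (m + 1))) := by
    unfold jn
    exact (inc.continuous.comp continuous_fst).add (continuous_snd.smul continuous_const)
  refine ⟨A, @Pd.mk m Γ G _ _ _ A p k hcoc (@Cocompact.mk (m + 1) G _ A ?_ ?_ ?_ ?_)
    (fun a y => hA a y) hbij⟩
  · intro a
    show ContDiff ℝ ∞ (fun x : E (m + 1) => A.smul a x)
    have e : (fun x : E (m + 1) => A.smul a x) =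
        fun x => inc (p a • pr x) + (ht x + (k a : ℝ)) • eL := by
      funext x; rw [hA]; rfl
    rw [e]
    have s1 : ContDiff ℝ ∞ (fun x : E (m + 1) => p a • pr x) := (hcoc.smooth (p a)).comp pr.contDiff
    have s2 : ContDiff ℝ ∞ (fun x : E (m + 1) => ht x + (k a : ℝ)) :=
      ht.contDiff.add contDiff_const
    exact (inc.contDiff.comp s1).add (s2.smul contDiff_const)
  · intro a x hax
    have hax' : A.smul a x = x := hax
    have e1 : p a • pr x = pr x := by rw [← hpr, hax']
    have e2 : p a = 1 := hcoc.free _ _ e1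
    have e3 : ht x + k a = ht x := by rw [← hht, hax']
    have e4 : (k a : ℝ) = 0 := by linarith
    have e5 : k a = 0 := by exact_mod_cast e4
    apply hinj
    show (p a, k a) = (p 1, k 1)
    rw [e2, e5, map_one, hk1]
  · intro K hK
    have hKc : IsCompact (pr '' K) := hK.image pr.continuous
    have hfin := hcoc.proper _ hKc
    set S : Set Γ := {a : Γ | ((fun x : E m => a • x) '' (pr '' K) ∩ (pr '' K)).Nonempty} with hS
    obtain ⟨R, hR⟩ := hK.isBounded.exists_norm_le
    obtain ⟨N, hN⟩ := exists_nat_ge (2 * R)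
    have hsub : {a : G | ((fun x : E (m + 1) => A.smul a x) '' K ∩ K).Nonempty} ⊆
        (fun a : G => (p a, k a)) ⁻¹' (S ×ˢ Set.Icc (-(N : ℤ)) N) := by
      rintro a ⟨y', ⟨y, hy, hy1⟩, hy2⟩
      have hy1' : A.smul a y = y' := hy1
      have hpS : p a ∈ S := by
        refine ⟨pr y', ⟨pr y, ⟨y, hy, rfl⟩, ?_⟩, ⟨y', hy2, rfl⟩⟩
        show p a • pr y = pr y'
        rw [← hpr, hy1']
      refine ⟨hpS, ?_⟩
      have e1 : |ht y| ≤ R := (l10 y).trans (hR y hy)
      have e2 : |ht y'| ≤ R := (l10 y').trans (hR y' hy2)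
      have e4 : ht y' = ht y + k a := by rw [← hy1', hht]
      have f1 := abs_le.1 e1
      have f2 := abs_le.1 e2
      have e5 : (k a : ℝ) ≤ N := by linarith [f1.1, f2.2]
      have e6 : -(N : ℝ) ≤ k a := by linarith [f1.2, f2.1]
      exact ⟨by exact_mod_cast e6, by exact_mod_cast e5⟩
    exact ((hfin.prod (Set.finite_Icc _ _)).preimage hinj.injOn).subset hsub
  · obtain ⟨K, hK, hcov⟩ := hcoc.cocompact
    refine ⟨(fun q : E m × ℝ => (jn q.1 q.2 : E (m + 1))) '' (K ×ˢ Set.Icc (0 : ℝ) 1),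
      (hK.prod isCompact_Icc).image hjn, ?_⟩
    intro x
    obtain ⟨γ, hγ⟩ := hcov (pr x)
    obtain ⟨a, ⟨ha1, ha2⟩, -⟩ := hbij γ (-⌊ht x⌋)
    refine ⟨a, ⟨(p a • pr x, ht x + k a), ⟨?_, ?_⟩, ?_⟩⟩
    · show p a • pr x ∈ K
      rw [ha1]; exact hγ
    · show ht x + k a ∈ Set.Icc (0 : ℝ) 1
      rw [ha2]
      push_cast
      have f1 := Int.floor_le (ht x)
      have f2 := Int.lt_floor_add_one (ht x)
      constructor <;> linarith
    · show jn (p a • pr x) (ht x + k a) = A.smul a x
      rw [hA]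

end Pool.Agent.LQT
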