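import Mathlib
import Pool.Agent.Work.MP_13b5d9_gt.LQ.TStmts
import Pool.Agent.Work.MP_25cd3b_gt.NG.All

set_option autoImplicit false

/-!
# MP_13b5d9_gt, block LQ, part T, item TVp: the field of the line is parallel
-/

open MeasureTheory Set Filter Topology
open scoped ContDiff ENNReal
open Pool.Agent.Work.MP_c9f990_an.Al (IsFlow)

namespace Pool.Agent.LQT

open Pool.Agent.MLS Pool.Agent.EC Pool.Agent.STR Pool.Agent.DR Pool.Agent.LQR

namespace ITVp

section Generic

variable {X A : Type} [NormedAddCommGroup X] [NormedSpace ℝ X] [NormedAddCommGroup A]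
  [NormedSpace ℝ A]

/-- derivative of a differentiable map along a line -/
theorem line {B : Type} [NormedAddCommGroup B] [NormedSpace ℝ B] {f : X → B} {x : X}
    (hf : DifferentiableAt ℝ f x) (a : X) :
    HasDerivAt (fun t : ℝ => f (x + t • a)) (fderiv ℝ f x a) 0 := by
  have h1 : HasDerivAt (fun t : ℝ => x + t • a) a 0 := by
    simpa using ((hasDerivAt_id (0 : ℝ)).smul_const a).const_add x
  have h2 : HasFDerivAt f (fderiv ℝ f x) (x + (0 : ℝ) • a) := by
    rw [zero_smul, add_zero]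
    exact hf.hasFDerivAt
  exact h2.comp_hasDerivAt (0 : ℝ) h1

theorem symm2 {f : X → A} (hf : ContDiff ℝ ∞ f) (x u v : X) :
    fderiv ℝ (fderiv ℝ f) x u v = fderiv ℝ (fderiv ℝ f) x v u := by
  have h := (hf.contDiffAt (x := x)).isSymmSndFDerivAt (by
    rw [minSmoothness_of_isRCLikeNormedField]
    exact WithTop.coe_le_coe.2 le_top)
  exact h u v

theorem apply3 {W' : Type} [NormedAddCommGroup W'] [NormedSpace ℝ W']
    {F : X → A →L[ℝ] A →L[ℝ] W'} {P Q : X → A} {x : X}
    (h : DifferentiableAt ℝ F x) (hP : DifferentiableAt ℝ P x) (hQ : DifferentiableAt ℝ Q x)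
    (a : X) :
    HasDerivAt (fun s : ℝ => F (x + s • a) (P (x + s • a)) (Q (x + s • a)))
      (fderiv ℝ F x a (P x) (Q x) + F x (fderiv ℝ P x a) (Q x) +
        F x (P x) (fderiv ℝ Q x a)) 0 := by
  have h1 := (h.hasFDerivAt.clm_apply hP.hasFDerivAt).clm_apply hQ.hasFDerivAt
  have h2 : HasDerivAt (fun s : ℝ => x + s • a) a 0 := by
    simpa using ((hasDerivAt_id (0 : ℝ)).smul_const a).const_add x
  have e : x = (fun s : ℝ => x + s • a) 0 := by simp
  have h4 := HasFDerivAt.comp_hasDerivAt_of_eq (0 : ℝ) h1 h2 e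
  refine h4.congr_deriv ?_
  simp only [_root_.add_apply, ContinuousLinearMap.comp_apply, ContinuousLinearMap.flip_apply]
  abel

/-- the closed form -/
theorem closed {g : X → X →L[ℝ] X →L[ℝ] ℝ} {f : X → ℝ} {V : X → X} (hg : Differentiable ℝ g)
    (hf : ContDiff ℝ ∞ f) (hV : Differentiable ℝ V)
    (h : ∀ x w, g x (V x) w = fderiv ℝ f x w) (x u w : X) :
    fderiv ℝ g x u (V x) w + g x (fderiv ℝ V x u) w =
      fderiv ℝ g x w (V x) u + g x (fderiv ℝ V x w) u := by
  have key : ∀ a b : X, fderiv ℝ g x a (V x) b + g x (fderiv ℝ V x a) b =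
      fderiv ℝ (fderiv ℝ f) x a b := by
    intro a b
    have e1 : HasDerivAt (fun t : ℝ => g (x + t • a) (V (x + t • a)) b)
        (fderiv ℝ g x a (V x) b + g x (fderiv ℝ V x a) b) 0 := by
      have := apply3 (hg x) (hV x) (differentiableAt_const (x := x) b) a
      simpa using this
    have hf2 : DifferentiableAt ℝ (fderiv ℝ f) x :=
      ((hf.fderiv_right (m := ∞) (by simp)).differentiable (by simp)) x
    have e2 : HasDerivAt (fun t : ℝ => fderiv ℝ f (x + t • a) b)
        (fderiv ℝ (fderiv ℝ f) x a b) 0 := by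
      have := (line (B := X →L[ℝ] ℝ) hf2 a).clm_apply (hasDerivAt_const (0 : ℝ) b)
      simpa using this
    have e3 : (fun t : ℝ => g (x + t • a) (V (x + t • a)) b) =
        fun t : ℝ => fderiv ℝ f (x + t • a) b := funext fun t => h _ _
    rw [e3] at e1
    exact e1.unique e2
  rw [key u w, key w u, symm2 hf x u w]

/-- derivative of the equation `DF (V) = const` -/
theorem const_eq {B : Type} [NormedAddCommGroup B] [NormedSpace ℝ B] {F : X → B} {V : X → X}
    (hF : ContDiff ℝ ∞ F) (hV : Differentiable ℝ V) (c : B)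
    (h : ∀ x, fderiv ℝ F x (V x) = c) (x u : X) :
    fderiv ℝ (fderiv ℝ F) x (V x) u = -fderiv ℝ F x (fderiv ℝ V x u) := by
  have hf2 : DifferentiableAt ℝ (fderiv ℝ F) x :=
    ((hF.fderiv_right (m := ∞) (by simp)).differentiable (by simp)) x
  have e1 : HasDerivAt (fun t : ℝ => fderiv ℝ F (x + t • u) (V (x + t • u)))
      (fderiv ℝ (fderiv ℝ F) x u (V x) + fderiv ℝ F x (fderiv ℝ V x u)) 0 := by
    have := (line (B := X →L[ℝ] B) hf2 u).clm_apply (line (hV x) u)
    simpa using this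
  have e2 : (fun t : ℝ => fderiv ℝ F (x + t • u) (V (x + t • u))) = fun _ => c :=
    funext fun t => h _
  rw [e2] at e1
  have e3 := e1.unique (hasDerivAt_const (0 : ℝ) c)
  rw [symm2 hF x (V x) u]
  exact eq_neg_of_add_eq_zero_left e3

/-- the Killing equation -/
theorem killing {g : X → X →L[ℝ] X →L[ℝ] ℝ} {κ : A → A →L[ℝ] A →L[ℝ] ℝ} {F : X → A} {f : X → ℝ}
    {V : X → X} (hg : Differentiable ℝ g) (hκ : Differentiable ℝ κ) (hF : ContDiff ℝ ∞ F)
    (hf : ContDiff ℝ ∞ f) (hV : Differentiable ℝ V)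
    (hm : ∀ x u v, g x u v = κ (F x) (fderiv ℝ F x u) (fderiv ℝ F x v) +
      fderiv ℝ f x u * fderiv ℝ f x v)
    (h1 : ∀ x, fderiv ℝ F x (V x) = 0) (h2 : ∀ x, fderiv ℝ f x (V x) = 1) (x u w : X) :
    fderiv ℝ g x (V x) u w + g x (fderiv ℝ V x u) w + g x u (fderiv ℝ V x w) = 0 := by
  have dF2 : DifferentiableAt ℝ (fderiv ℝ F) x :=
    ((hF.fderiv_right (m := ∞) (by simp)).differentiable (by simp)) x
  have df2 : DifferentiableAt ℝ (fderiv ℝ f) x :=
    ((hf.fderiv_right (m := ∞) (by simp)).differentiable (by simp)) x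
  have dF : DifferentiableAt ℝ F x := hF.differentiable (by simp) x
  have e1 : HasFDerivAt (fun y => κ (F y)) ((fderiv ℝ κ (F x)).comp (fderiv ℝ F x)) x :=
    HasFDerivAt.comp (G := A →L[ℝ] A →L[ℝ] ℝ) x (hκ (F x)).hasFDerivAt dF.hasFDerivAt
  have dκF : DifferentiableAt ℝ (fun y => κ (F y)) x := e1.differentiableAt
  have eκ : fderiv ℝ (fun y => κ (F y)) x (V x) = 0 := by
    rw [e1.fderiv, ContinuousLinearMap.comp_apply, h1, map_zero]
  have l1 : HasDerivAt (fun t : ℝ => g (x + t • V x) u w) (fderiv ℝ g x (V x) u w) 0 := by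
    have := apply3 (hg x) (differentiableAt_const (x := x) u) (differentiableAt_const (x := x) w)
      (V x)
    simpa using this
  have l2 : HasDerivAt (fun t : ℝ => κ (F (x + t • V x)) (fderiv ℝ F (x + t • V x) u)
      (fderiv ℝ F (x + t • V x) w))
      (κ (F x) (fderiv ℝ (fderiv ℝ F) x (V x) u) (fderiv ℝ F x w) +
        κ (F x) (fderiv ℝ F x u) (fderiv ℝ (fderiv ℝ F) x (V x) w)) 0 := by
    have b1 : ∀ v : X, HasFDerivAt (fun y => fderiv ℝ F y v)
        ((fderiv ℝ (fderiv ℝ F) x).flip v) x := by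
      intro v
      have := HasFDerivAt.clm_apply (G := X) (H := A) dF2.hasFDerivAt (hasFDerivAt_const v x)
      simpa using this
    have a3 := apply3 dκF (b1 u).differentiableAt (b1 w).differentiableAt (V x)
    rw [eκ, (b1 u).fderiv, (b1 w).fderiv] at a3
    simpa using a3
  have l3 : HasDerivAt (fun t : ℝ => fderiv ℝ f (x + t • V x) u * fderiv ℝ f (x + t • V x) w)
      (fderiv ℝ (fderiv ℝ f) x (V x) u * fderiv ℝ f x w +
        fderiv ℝ f x u * fderiv ℝ (fderiv ℝ f) x (V x) w) 0 := by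
    have a1 := (line (B := X →L[ℝ] ℝ) df2 (V x)).clm_apply (hasDerivAt_const (0 : ℝ) u)
    have a2 := (line (B := X →L[ℝ] ℝ) df2 (V x)).clm_apply (hasDerivAt_const (0 : ℝ) w)
    exact (a1.mul a2).congr_deriv (by simp)
  have l4 : HasDerivAt (fun t : ℝ => g (x + t • V x) u w)
      ((κ (F x) (fderiv ℝ (fderiv ℝ F) x (V x) u) (fderiv ℝ F x w) +
        κ (F x) (fderiv ℝ F x u) (fderiv ℝ (fderiv ℝ F) x (V x) w)) +
        (fderiv ℝ (fderiv ℝ f) x (V x) u * fderiv ℝ f x w +
        fderiv ℝ f x u * fderiv ℝ (fderiv ℝ f) x (V x) w)) 0 := by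
    have e := l2.add l3
    have e2 : (fun t : ℝ => g (x + t • V x) u w) =
        fun t : ℝ => κ (F (x + t • V x)) (fderiv ℝ F (x + t • V x) u)
          (fderiv ℝ F (x + t • V x) w) +
          fderiv ℝ f (x + t • V x) u * fderiv ℝ f (x + t • V x) w := funext fun t => hm _ _ _
    rw [e2]
    exact e
  have e := l1.unique l4
  rw [e, hm, hm, const_eq hF hV 0 h1 x u, const_eq hF hV 0 h1 x w, const_eq hf hV 1 h2 x u,
    const_eq hf hV 1 h2 x w]
  simp only [map_neg, _root_.neg_apply]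
  ring

end Generic

end ITVp

open ITVp in
theorem pr_TVp : TVp := by
  intro m g κ Θ hR hΘ hΘs hm
  have hi : ∀ x : E (m + 1), fderiv ℝ Θ x (fderiv ℝ Θ.symm (Θ x) (0, 1)) = (0, 1) := by
    intro x
    have e1 : HasFDerivAt Θ.symm (fderiv ℝ Θ.symm (Θ x)) (Θ x) :=
      (hΘs.differentiable (by simp) _).hasFDerivAt
    have e2 : HasFDerivAt Θ (fderiv ℝ Θ x) (Θ.symm (Θ x)) := by
      rw [Θ.symm_apply_apply]
      exact (hΘ.differentiable (by simp) _).hasFDerivAt
    have e3 := e2.comp (Θ x) e1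
    have e4 : (Θ ∘ Θ.symm) = id := by
      funext y
      exact Θ.apply_symm_apply y
    rw [e4] at e3
    have e5 := e3.unique (hasFDerivAt_id (Θ x))
    have e6 := congrArg (fun L => L (0, 1)) e5
    simpa using e6
  have hVs : ContDiff ℝ ∞ (fun x : E (m + 1) => fderiv ℝ Θ.symm (Θ x) (0, 1)) :=
    ((hΘs.fderiv_right (m := ∞) (by simp)).comp hΘ).clm_apply contDiff_const
  have hv : ∀ x v, (fderiv ℝ Θ x v).2 = g.val x (fderiv ℝ Θ.symm (Θ x) (0, 1)) v := by
    intro x v
    rw [hm, hi x]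
    simp
  refine ⟨fun x => fderiv ℝ Θ.symm (Θ x) (0, 1), hVs, fun x => rfl, hi, ?_, hv, ?_⟩
  · intro x
    rw [← hv x, hi x]
  intro x u
  set V : E (m + 1) → E (m + 1) := fun x => fderiv ℝ Θ.symm (Θ x) (0, 1) with hV
  -- the components
  have hF : ContDiff ℝ ∞ (fun y : E (m + 1) => (Θ y).1) := hΘ.fst
  have hf : ContDiff ℝ ∞ (fun y : E (m + 1) => (Θ y).2) := hΘ.snd
  have dF : ∀ y v, fderiv ℝ (fun y : E (m + 1) => (Θ y).1) y v = (fderiv ℝ Θ y v).1 := by
    intro y v
    rw [((hΘ.differentiable (by simp) y).hasFDerivAt.fst).fderiv]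
    rfl
  have df : ∀ y v, fderiv ℝ (fun y : E (m + 1) => (Θ y).2) y v = (fderiv ℝ Θ y v).2 := by
    intro y v
    rw [((hΘ.differentiable (by simp) y).hasFDerivAt.snd).fderiv]
    rfl
  have dg : Differentiable ℝ g.val := g.smooth.differentiable (by simp)
  have dκ : Differentiable ℝ κ.val := κ.smooth.differentiable (by simp)
  have dV : Differentiable ℝ V := hVs.differentiable (by simp)
  have K1 := closed dg hf dV (fun y w => by rw [df, hv]) x
  have K2 := killing dg dκ hF hf dV (fun y u v => by rw [dF, dF, df, df, hm])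
    (fun y => by rw [dF, hi]) (fun y => by rw [df, hi]) x
  obtain ⟨-, hsym, -, hK⟩ := p_NcGa (m + 1) g hR
  have main : ∀ w, g.val x (fderiv ℝ V x u + Ga g x u (V x)) w = 0 := by
    intro w
    rw [map_add, _root_.add_apply, hK]
    have k1 := K1 u w
    have k2 := K2 u w
    rw [g.symm x u (fderiv ℝ V x w)] at k2
    rw [hsym x w u (V x)]
    linarith
  by_contra hne
  exact absurd (main _) (hR x _ hne).ne'

end Pool.Agent.LQT
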