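import Pool.Agent.Work.MP_13b5d9_gt.LQ.StmtsQ
import Pool.Agent.Work.MP_13b5d9_gt.DR.I_Cv

set_option autoImplicit false

/-!
# Block LQ, item CvH: convergence of the inverse operators, velocities, energies and fields
-/

open MeasureTheory Set Filter Topology
open scoped ContDiff ENNReal
open Pool.Agent.Work.MP_c9f990_an.Al (IsFlow)

namespace Pool.Agent.LQ

open Pool.Agent.MLS Pool.Agent.EC Pool.Agent.DR

namespace IQCvH

theorem core {m : ℕ} (h1 : StOp) (h2 : StHd) (g : ℕ → Form (m + 1)) (g0 : Form (m + 1))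
    (hR : ∀ j, Riem (g j)) (hR0 : Riem g0) (c0 : CC (fun j => (g j).val) g0.val)
    (c1 : ∀ u, CC (fun j x => fderiv ℝ (g j).val x u) (fun x => fderiv ℝ g0.val x u)) :
    CC (fun j => iop (g j)) (iop g0) ∧ CC (fun j => vel (g j)) (vel g0) ∧
    CC (fun j => Hm (g j)) (Hm g0) ∧ CC (fun j => XH (Hm (g j))) (XH (Hm g0)) ∧
    CC (fun j => Hh (g j)) (Hh g0) := by
  obtain ⟨-, -, hl, hr, -⟩ := h1 (m + 1) g0 hR0
  have hop : CC (fun j => op (g j)) (op g0) :=
    c0.comp' (u := fun A => (sh (n := m + 1)).comp A)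
      (ContinuousLinearMap.compL ℝ (E (m + 1)) (E (m + 1) →L[ℝ] ℝ) (E (m + 1)) sh).continuous
  have hi : CC (fun j => iop (g j)) (iop g0) := by
    refine hop.comp (u := Ring.inverse) fun x => ?_
    let U : (E (m + 1) →L[ℝ] E (m + 1))ˣ :=
      ⟨op g0 x, iop g0 x, ContinuousLinearMap.ext fun v => hr x v,
        ContinuousLinearMap.ext fun v => hl x v⟩
    exact NormedRing.inverse_continuousAt U
  have hv : CC (fun j => vel (g j)) (vel g0) :=
    (hi.compRight continuous_fst).clm_apply (CC.const continuous_snd)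
  have hH : CC (fun j => Hm (g j)) (Hm g0) :=
    (CC.const (continuous_const (y := (1 / 2 : ℝ)))).mul ((CC.const continuous_snd).inner hv)
  have hX : CC (fun j => XH (Hm (g j))) (XH (Hm g0)) := by
    have h5 : ∀ i : Fin (m + 1), CC (fun j (z : W (m + 1)) =>
        fderiv ℝ (g j).val z.1 (ee i) (vel (g j) z) (vel (g j) z))
        (fun z => fderiv ℝ g0.val z.1 (ee i) (vel g0 z) (vel g0 z)) := fun i =>
      (((c1 (ee i)).compRight continuous_fst).clm_apply hv).clm_apply hv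
    have h6 : CC (fun j (z : W (m + 1)) => (vel (g j) z,
        ∑ i, (1 / 2 * fderiv ℝ (g j).val z.1 (ee i) (vel (g j) z) (vel (g j) z)) • ee i))
        (fun z => (vel g0 z,
          ∑ i, (1 / 2 * fderiv ℝ g0.val z.1 (ee i) (vel g0 z) (vel g0 z)) • ee i)) :=
      hv.prodMk (CC.sum _ fun i _ =>
        ((CC.const (continuous_const (y := (1 / 2 : ℝ)))).mul (h5 i)).smul
          (CC.const continuous_const))
    exact h6.congr (fun j z => (IDRCv.xh_eq h2 (g j) (hR j) z).symm)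
      fun z => (IDRCv.xh_eq h2 g0 hR0 z).symm
  have hta : Continuous (ta (m := m)) := by
    unfold ta
    fun_prop
  have hHh : CC (fun j => Hh (g j)) (Hh g0) :=
    hH.sub (CC.const ((hta.pow 2).div_const 2))
  exact ⟨hi, hv, hH, hX, hHh⟩

end IQCvH

theorem pr_CvH (h1 : StOp) (h2 : StHd) : StCvH := by
  intro m g gh g0 φ M φ0 M0 hS
  obtain ⟨a1, a2, a3, a4, a5⟩ := IQCvH.core h1 h2 g g0 hS.riem hS.riem0 hS.c0 hS.c1
  obtain ⟨b1, b2, b3, b4, b5⟩ := IQCvH.core h1 h2 gh g0 hS.riemh hS.riem0 hS.h0 hS.h1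
  exact ⟨a1, b1, a2, b2, a3, b3, a4, b4, a5, b5⟩

end Pool.Agent.LQ
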