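import Pool.Agent.Work.MP_13b5d9_gt.LQ.StmtsQ

set_option autoImplicit false

open MeasureTheory Set Filter Topology
open scoped ContDiff ENNReal
open Pool.Agent.Work.MP_c9f990_an.Al (IsFlow)

namespace Pool.Agent.LQ

open Pool.Agent.MLS Pool.Agent.EC Pool.Agent.DR

namespace IQFlB

variable {m : ℕ}

theorem hasTr (h : ℝ) (z : W (m + 1)) :
    HasFDerivAt (Tr h) (ContinuousLinearMap.id ℝ (W (m + 1))) z := by
  have h1 : (Tr h : W (m + 1) → W (m + 1)) = fun z => z + (h • eL, 0) := by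
    funext z
    simp [Tr, Prod.ext_iff]
  rw [h1]
  exact (hasFDerivAt_id z).add_const _

theorem hasSh (c : ℝ) (z : W (m + 1)) :
    HasFDerivAt (Sh c) (ContinuousLinearMap.id ℝ (W (m + 1))) z := by
  have h1 : (Sh c : W (m + 1) → W (m + 1)) = fun z => z + (0, c • eL) := by
    funext z
    simp [Sh, Prod.ext_iff]
  rw [h1]
  exact (hasFDerivAt_id z).add_const _

variable {φ : ℝ → W (m + 1) → W (m + 1)} {M : ℝ → W (m + 1) → W (m + 1) →L[ℝ] W (m + 1)}

theorem M_Tr (hd : ∀ s z, HasFDerivAt (φ s) (M s z) z)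
    (h : ∀ h s z, φ s (Tr h z) = Tr h (φ s z)) (r s : ℝ) (z : W (m + 1)) :
    M s (Tr r z) = M s z := by
  have h1 : HasFDerivAt (fun y => φ s (Tr r y)) ((M s (Tr r z)).comp
      (ContinuousLinearMap.id ℝ (W (m + 1)))) z := (hd s (Tr r z)).comp z (hasTr r z)
  have h2 : HasFDerivAt (fun y => Tr r (φ s y)) ((ContinuousLinearMap.id ℝ (W (m + 1))).comp
      (M s z)) z := (hasTr r (φ s z)).comp z (hd s z)
  have h3 : (fun y => φ s (Tr r y)) = fun y => Tr r (φ s y) := by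
    funext y
    exact h r s y
  rw [h3] at h1
  have h4 := h1.unique h2
  simpa using h4

theorem M_Sh (hd : ∀ s z, HasFDerivAt (φ s) (M s z) z)
    (h : ∀ c s z, φ s (Sh c z) = Tr (c * s) (Sh c (φ s z))) (c s : ℝ) (z : W (m + 1)) :
    M s (Sh c z) = M s z := by
  have h1 : HasFDerivAt (fun y => φ s (Sh c y)) ((M s (Sh c z)).comp
      (ContinuousLinearMap.id ℝ (W (m + 1)))) z := (hd s (Sh c z)).comp z (hasSh c z)
  have h2 : HasFDerivAt (fun y => Tr (c * s) (Sh c (φ s y)))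
      ((ContinuousLinearMap.id ℝ (W (m + 1))).comp ((ContinuousLinearMap.id ℝ (W (m + 1))).comp
      (M s z))) z := (hasTr _ _).comp z ((hasSh c (φ s z)).comp z (hd s z))
  have h3 : (fun y => φ s (Sh c y)) = fun y => Tr (c * s) (Sh c (φ s y)) := by
    funext y
    exact h c s y
  rw [h3] at h1
  have h4 := h1.unique h2
  simpa using h4

theorem Sh_neg (z : W (m + 1)) (n : ℝ) : Sh (ta z) (Tr (-n) (Tr n (Sh (-ta z) z))) = z := by
  simp [Sh, Tr, Prod.ext_iff]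

theorem ta_Tr (h : ℝ) (z : W (m + 1)) : ta (Tr h z) = ta z := rfl

end IQFlB

open IQFlB in
theorem pr_FlB (h1 : StFlC) (h2 : StHB) (h3 : StPrd) : StFlB := by
  intro m g gh g0 φ M φ0 M0 hS K D hK
  obtain ⟨hc1, hc2⟩ := h1 m g gh g0 φ M φ0 M0 hS
  obtain ⟨⟨Q, hQ, hQ1⟩, -⟩ := h2 m g gh g0 φ M φ0 M0 hS K hK
  have hI : IsCompact (Icc (-D) D) := isCompact_Icc
  obtain ⟨R, -, hR⟩ := hc1.bdd (hI.prod hQ)
  have hB : IsCompact (Metric.closedBall (0 : W (m + 1)) 1) := isCompact_closedBall _ _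
  obtain ⟨C, -, hC⟩ := hc2.bdd (hI.prod (hQ.prod hB))
  refine ⟨Metric.closedBall 0 R ∪ K, |C| + 1, (isCompact_closedBall _ _).union hK,
    subset_union_right, by positivity, ?_⟩
  filter_upwards [hQ1, hR, hC] with j hj1 hj2 hj3 z s hz hs
  obtain ⟨n, hn⟩ := hj1 z hz
  obtain ⟨p1, p2, p3, -, p5, p6, -⟩ := h3 m (gh j) (φ j) (M j) (hS.riemh j) (hS.blkh j)
    (hS.tinvh j) (hS.fl j)
  have hs' : s ∈ Icc (-D) D := abs_le.1 hs
  set z' := Tr (n : ℝ) (Sh (-ta z) z) with hz'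
  have hzz : z = Sh (ta z) (Tr (-(n : ℝ)) z') := (Sh_neg z n).symm
  have hb := hj2 (s, z') ⟨hs', hn⟩
  have hx : (φ j s z').1 ∈ Metric.closedBall (0 : E (m + 1)) R := by
    rw [mem_closedBall_zero_iff]
    exact (norm_fst_le (φ j s z')).trans hb
  have hpos : ∃ r : ℝ, (φ j s z).1 = (φ j s z').1 + r • eL := by
    refine ⟨-(n : ℝ) + ta z * s, ?_⟩
    conv_lhs => rw [hzz, p3, p1]
    simp only [Tr, Sh]
    rw [add_assoc, ← add_smul]
  have hH : ∀ r, Hh (gh j) (Tr r (φ j s z)) ≤ 1 := by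
    intro r
    rw [Hh, p6, p5, ta_Tr, p2]
    exact hz.2
  have hTr0 : ∀ y : W (m + 1), Tr 0 y = y := fun y => by simp [Tr]
  obtain ⟨r0, hr0⟩ := hpos
  refine ⟨⟨⟨_, Or.inl hx, r0, hr0⟩, ?_⟩, fun r => ⟨⟨_, Or.inl hx, r0 + -(ta z * s) + r, ?_⟩, ?_⟩,
    fun w => ?_⟩
  · have := hH 0
    rwa [hTr0] at this
  · simp only [zt, Tr]
    rw [hr0, add_smul, add_smul]
    abel
  · have h4 : Tr r (zt (φ j) s z) = Tr (-(ta z * s) + r) (φ j s z) := by
      simp only [zt, Tr, Prod.mk.injEq, and_true]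
      rw [add_smul, add_assoc]
    rw [h4]
    exact hH _
  · have hM : M j s z = M j s z' := by
      conv_lhs => rw [hzz]
      rw [M_Sh (fun s z => (hS.fl j).diff s z) p3, M_Tr (fun s z => (hS.fl j).diff s z) p1]
    rw [hM]
    by_cases hw : w = 0
    · subst hw
      simp
    · have hw0 : 0 < ‖w‖ := norm_pos_iff.2 hw
      have h5 := hj3 (s, (z', (‖w‖)⁻¹ • w)) ⟨hs', hn, by
        rw [mem_closedBall_zero_iff, norm_smul, norm_inv, norm_norm,
          inv_mul_cancel₀ hw0.ne']⟩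
      simp only [map_smul, norm_smul, norm_inv, norm_norm] at h5
      have h6 : ‖M j s z' w‖ ≤ C * ‖w‖ := by
        rwa [inv_mul_le_iff₀ hw0, mul_comm] at h5
      have h7 := le_abs_self C
      nlinarith

end Pool.Agent.LQ
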