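import Mathlib
import Pool.Agent.Work.MP_13b5d9_gt.LQ.StmtsQ

set_option autoImplicit false

/-!
# MP_13b5d9_gt, block LQ, item L4: the one variable lemma of the lower bound
-/

open MeasureTheory Set Filter Topology
open scoped ContDiff ENNReal
open Pool.Agent.Work.MP_c9f990_an.Al (IsFlow)

namespace Pool.Agent.LQ

open Pool.Agent.MLS Pool.Agent.EC Pool.Agent.DR

namespace IQL4

/-! ### the square of the cut-off function -/

/-- derivatives of the square of a cut-off function -/
theorem bump {ψ : ℝ → ℝ} (h : Cut ψ (-1) 1) : ∃ (P1 P2 : ℝ → ℝ) (C : ℝ), 0 ≤ C ∧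
    (∀ x, HasDerivAt (fun y => ψ y ^ 2) (P1 x) x) ∧ (∀ x, HasDerivAt P1 (P2 x) x) ∧
    Continuous P1 ∧ Continuous P2 ∧ (∀ x, |P2 x| ≤ C) ∧
    (∀ x, 1 < |x| → ψ x ^ 2 = 0 ∧ P1 x = 0) := by
  have h0 : ContDiff ℝ ∞ (fun y => ψ y ^ 2) := h.smooth.pow 2
  have hs : Function.support (fun y => ψ y ^ 2) ⊆ Icc (-1) 1 := by
    intro x hx
    have hx' : ψ x ≠ 0 := by
      intro h1
      apply hx
      show ψ x ^ 2 = 0
      rw [h1]
      norm_num
    exact h.supp x hx'
  have ht : tsupport (fun y => ψ y ^ 2) ⊆ Icc (-1) 1 := closure_minimal hs isClosed_Icc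
  have hc : HasCompactSupport (fun y => ψ y ^ 2) :=
    isCompact_Icc.of_isClosed_subset (isClosed_tsupport _) ht
  have h1 : ContDiff ℝ ∞ (deriv fun y => ψ y ^ 2) := by
    have := h0
    exact (contDiff_infty_iff_deriv.1 h0).2
  have h2 : ContDiff ℝ ∞ (deriv (deriv fun y => ψ y ^ 2)) := (contDiff_infty_iff_deriv.1 h1).2
  have hc2 : HasCompactSupport (deriv (deriv fun y => ψ y ^ 2)) := hc.deriv.deriv
  obtain ⟨C, hC⟩ := hc2.exists_bound_of_continuous h2.continuous
  refine ⟨deriv fun y => ψ y ^ 2, deriv (deriv fun y => ψ y ^ 2), C,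
    (norm_nonneg _).trans (hC 0), ?_, ?_, h1.continuous, h2.continuous, hC, ?_⟩
  · intro x
    exact (h0.differentiable (by simp) x).hasDerivAt
  · intro x
    exact (h1.differentiable (by simp) x).hasDerivAt
  · intro x hx
    have hx1 : x ∉ Icc (-1 : ℝ) 1 := by
      intro h3
      have := abs_le.2 ⟨h3.1, h3.2⟩
      linarith
    constructor
    · by_contra h3
      exact hx1 (hs h3)
    · by_contra h3
      exact hx1 (ht (support_deriv_subset h3))

/-! ### the main term -/

/-- Taylor formula with integral remainder along a line through the origin -/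
theorem taylor {γ γ1 Γ : ℝ → ℝ} (h1 : ∀ r, HasDerivAt γ (γ1 r) r)
    (h2 : ∀ r, HasDerivAt γ1 (-Γ r) r) (hΓ : Continuous Γ) (τ D : ℝ) :
    τ ^ 2 * ∫ s in (0 : ℝ)..D, (D - s) * Γ (τ * s) = D * τ * γ1 0 + γ 0 - γ (τ * D) := by
  have hd : ∀ s, HasDerivAt (fun s => (D - s) * γ1 (τ * s) * τ + γ (τ * s))
      (-(τ ^ 2 * ((D - s) * Γ (τ * s)))) s := by
    intro s
    have a0 : HasDerivAt (fun s : ℝ => τ * s) τ s := by
      simpa using (hasDerivAt_id s).const_mul τ
    have a1 : HasDerivAt (fun s => γ1 (τ * s)) (-Γ (τ * s) * τ) s :=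
      (h2 (τ * s)).comp s a0
    have a2 : HasDerivAt (fun s => γ (τ * s)) (γ1 (τ * s) * τ) s := (h1 (τ * s)).comp s a0
    have a3 : HasDerivAt (fun s : ℝ => D - s) (-1) s := by
      simpa using (hasDerivAt_id s).const_sub D
    have a4 := ((a3.mul a1).mul_const τ).add a2
    refine a4.congr_deriv ?_
    ring
  have hi : IntervalIntegrable (fun s => -(τ ^ 2 * ((D - s) * Γ (τ * s)))) volume 0 D := by
    apply Continuous.intervalIntegrable
    fun_prop
  have h3 := intervalIntegral.integral_eq_sub_of_hasDerivAt (fun s _ => hd s) hi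
  rw [intervalIntegral.integral_neg, intervalIntegral.integral_const_mul] at h3
  simp only [mul_zero, sub_self, zero_mul, sub_zero, zero_add] at h3
  linarith

/-- integral over a symmetric interval with the tent weight -/
theorem split_sym {f : ℝ → ℝ} (hf : Continuous f) {D : ℝ} (hD : 0 ≤ D) :
    ∫ s in (-D)..D, (D - |s|) * f s = (∫ s in (0 : ℝ)..D, (D - s) * f s) +
      ∫ s in (0 : ℝ)..D, (D - s) * f (-s) := by
  have hc : Continuous fun s : ℝ => (D - |s|) * f s := by fun_prop
  rw [← intervalIntegral.integral_add_adjacent_intervals (hc.intervalIntegrable (-D) 0)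
    (hc.intervalIntegrable 0 D), add_comm]
  congr 1
  · apply intervalIntegral.integral_congr
    intro s hs
    rw [uIcc_of_le hD] at hs
    show (D - |s|) * f s = (D - s) * f s
    rw [abs_of_nonneg hs.1]
  · have h1 := intervalIntegral.integral_comp_neg (a := 0) (b := D)
      (fun s : ℝ => (D - |s|) * f s)
    rw [neg_zero] at h1
    rw [← h1]
    apply intervalIntegral.integral_congr
    intro s hs
    rw [uIcc_of_le hD] at hs
    show (D - |(-s)|) * f (-s) = (D - s) * f (-s)
    rw [abs_neg, abs_of_nonneg hs.1]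

/-- the inner integral of the main term -/
theorem inner_eq {γ γ1 Γ : ℝ → ℝ} (h1 : ∀ r, HasDerivAt γ (γ1 r) r)
    (h2 : ∀ r, HasDerivAt γ1 (-Γ r) r) (hΓ : Continuous Γ) (hev : ∀ r, γ (-r) = γ r) (τ : ℝ)
    {D : ℝ} (hD : 0 ≤ D) :
    τ ^ 2 * ∫ s in (-D)..D, (D - |s|) * Γ (τ * s) = 2 * (γ 0 - γ (τ * D)) := by
  rw [split_sym (f := fun s => Γ (τ * s)) (by fun_prop) hD, mul_add,
    taylor h1 h2 hΓ τ D]
  have h3 := taylor h1 h2 hΓ (-τ) D
  have h4 : ∫ s in (0 : ℝ)..D, (D - s) * Γ (τ * -s) =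
      ∫ s in (0 : ℝ)..D, (D - s) * Γ (-τ * s) := by
    congr 1
    ext s
    rw [mul_neg, neg_mul]
  rw [h4, ← neg_sq τ, h3, neg_mul τ D, hev]
  ring

theorem main {γ γ1 Γ η : ℝ → ℝ} (h1 : ∀ r, HasDerivAt γ (γ1 r) r)
    (h2 : ∀ r, HasDerivAt γ1 (-Γ r) r) (hΓ : Continuous Γ) (hev : ∀ r, γ (-r) = γ r)
    (hle : ∀ r, |γ r| ≤ γ 0) (hmean : ∫ r in (-1 : ℝ)..1, γ r = 0) {D L : ℝ} (hD : 1 ≤ D)
    (hL : 1 ≤ L) (hη : Continuous η) (hη0 : ∀ x, 0 ≤ η x) (hη1 : ∀ x, |x| ≤ 1 → η x = 1) :
    4 * D * γ 0 ≤ ∫ s in (-D)..D, (D - |s|) * ∫ τ in (-L)..L, η τ * Γ (τ * s) := by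
  have hD0 : 0 < D := by linarith
  have hγ : Continuous γ := continuous_iff_continuousAt.2 fun r => (h1 r).continuousAt
  set F : ℝ → ℝ := fun τ => ∫ s in (-D)..D, (D - |s|) * Γ (τ * s) with hF
  have hFc : Continuous F := by
    apply intervalIntegral.continuous_parametric_intervalIntegral_of_continuous'
    fun_prop
  have hFe : ∀ τ, τ ^ 2 * F τ = 2 * (γ 0 - γ (τ * D)) := fun τ =>
    inner_eq h1 h2 hΓ hev τ hD0.le
  have hF1 : ∀ τ, τ ≠ 0 → 0 ≤ F τ := by
    intro τ hτ
    have h3 := hFe τ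
    have h4 := (le_abs_self _).trans (hle (τ * D))
    have h5 : 0 < τ ^ 2 := by positivity
    by_contra h6
    push Not at h6
    have h7 : τ ^ 2 * F τ < 0 := mul_neg_of_pos_of_neg h5 h6
    linarith
  have hF0 : ∀ τ, 0 ≤ F τ := by
    intro τ
    by_cases hτ : τ = 0
    · subst hτ
      have h3 : Tendsto F (𝓝[≠] 0) (𝓝 (F 0)) := (hFc.tendsto 0).mono_left nhdsWithin_le_nhds
      apply ge_of_tendsto h3
      filter_upwards [self_mem_nhdsWithin] with τ hτ
      exact hF1 τ hτ
    · exact hF1 τ hτ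
  have hF2 : ∀ τ, |τ| ≤ 1 / D → 2 * D ^ 2 * (γ 0 - γ (D * τ)) ≤ F τ := by
    intro τ hτ
    by_cases h0 : τ = 0
    · subst h0
      rw [mul_zero, sub_self, mul_zero]
      exact hF0 0
    · have h3 := hFe τ
      have h4 := (le_abs_self _).trans (hle (τ * D))
      have h5 : 0 < τ ^ 2 := by positivity
      have h6 : D ^ 2 * τ ^ 2 ≤ 1 := by
        rw [← sq_abs τ, ← mul_pow]
        apply pow_le_one₀ (by positivity)
        calc D * |τ| ≤ D * (1 / D) := by gcongr
          _ = 1 := by field_simp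
      rw [mul_comm D τ]
      have h7 : D ^ 2 * τ ^ 2 * (γ 0 - γ (τ * D)) ≤ 1 * (γ 0 - γ (τ * D)) :=
        mul_le_mul_of_nonneg_right h6 (by linarith)
      have h8 : τ ^ 2 * (2 * D ^ 2 * (γ 0 - γ (τ * D))) ≤ τ ^ 2 * F τ := by
        rw [h3]
        calc τ ^ 2 * (2 * D ^ 2 * (γ 0 - γ (τ * D)))
            = 2 * (D ^ 2 * τ ^ 2 * (γ 0 - γ (τ * D))) := by ring
          _ ≤ 2 * (1 * (γ 0 - γ (τ * D))) := by linarith
          _ = _ := by ring
      exact le_of_mul_le_mul_left h8 h5
  -- exchange of the integrals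
  have hsw : ∫ s in (-D)..D, (D - |s|) * ∫ τ in (-L)..L, η τ * Γ (τ * s) =
      ∫ τ in (-L)..L, η τ * F τ := by
    have e1 : ∀ s : ℝ, (D - |s|) * ∫ τ in (-L)..L, η τ * Γ (τ * s) =
        ∫ τ in (-L)..L, (D - |s|) * (η τ * Γ (τ * s)) := fun s =>
      (intervalIntegral.integral_const_mul _ _).symm
    simp_rw [e1]
    have hcc : Continuous fun p : ℝ × ℝ => (D - |p.1|) * (η p.2 * Γ (p.2 * p.1)) := by fun_prop
    rw [MeasureTheory.intervalIntegral_intervalIntegral_swap]
    · congr 1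
      ext τ
      rw [hF]
      simp only
      rw [← intervalIntegral.integral_const_mul]
      congr 1
      ext s
      ring
    · exact (hcc.continuousOn.integrableOn_compact
        (isCompact_uIcc.prod isCompact_uIcc)).mono_set
        (Set.prod_mono uIoc_subset_uIcc uIoc_subset_uIcc)
  rw [hsw]
  have hD1 : 1 / D ≤ 1 := by rw [div_le_one hD0]; exact hD
  have hDp : 0 < 1 / D := by positivity
  have h3 : ∫ τ in (-(1 / D))..(1 / D), η τ * F τ ≤ ∫ τ in (-L)..L, η τ * F τ := by
    apply intervalIntegral.integral_mono_interval (by linarith) (by linarith) (by linarith)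
    · exact Eventually.of_forall fun τ => mul_nonneg (hη0 τ) (hF0 τ)
    · exact (hη.mul hFc).intervalIntegrable _ _
  refine le_trans ?_ h3
  have h4 : ∫ τ in (-(1 / D))..(1 / D), 2 * D ^ 2 * (γ 0 - γ (D * τ)) = 4 * D * γ 0 := by
    rw [intervalIntegral.integral_const_mul, intervalIntegral.integral_sub (by simp)
      (by apply Continuous.intervalIntegrable; fun_prop)]
    rw [intervalIntegral.integral_comp_mul_left _ hD0.ne']
    have e1 : D * -(1 / D) = -1 := by field_simp
    have e2 : D * (1 / D) = 1 := by field_simp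
    rw [e1, e2, hmean]
    simp only [intervalIntegral.integral_const, smul_eq_mul]
    field_simp
    ring
  rw [← h4]
  apply intervalIntegral.integral_mono_on (by linarith)
  · apply Continuous.intervalIntegrable
    fun_prop
  · exact (hη.mul hFc).intervalIntegrable _ _
  · intro τ hτ
    have h5 : |τ| ≤ 1 / D := abs_le.2 ⟨hτ.1, hτ.2⟩
    rw [hη1 τ (h5.trans hD1), one_mul]
    exact hF2 τ h5

/-! ### the correction -/

/-- twice integration by parts -/
theorem parts {δ δ1 δ2 P0 P1 P2 : ℝ → ℝ} (h1 : ∀ r, HasDerivAt δ (δ1 r) r)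
    (h2 : ∀ r, HasDerivAt δ1 (-δ2 r) r) (hc2 : Continuous δ2)
    (hP0 : ∀ r, HasDerivAt P0 (P1 r) r) (hP1 : ∀ r, HasDerivAt P1 (P2 r) r) (hcP2 : Continuous P2)
    {L : ℝ} (e1 : P0 L = 0) (e2 : P0 (-L) = 0) (e3 : P1 L = 0) (e4 : P1 (-L) = 0) (s : ℝ) :
    s ^ 2 * ∫ τ in (-L)..L, P0 τ * δ2 (τ * s) = -∫ τ in (-L)..L, P2 τ * δ (τ * s) := by
  have hd : ∀ τ, HasDerivAt (fun τ => P1 τ * δ (τ * s) - s * (P0 τ * δ1 (τ * s)))
      (P2 τ * δ (τ * s) + s ^ 2 * (P0 τ * δ2 (τ * s))) τ := by
    intro τ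
    have a0 : HasDerivAt (fun τ : ℝ => τ * s) s τ := by
      simpa using (hasDerivAt_id τ).mul_const s
    have a1 : HasDerivAt (fun τ => δ1 (τ * s)) (-δ2 (τ * s) * s) τ :=
      (h2 (τ * s)).comp τ a0
    have a2 : HasDerivAt (fun τ => δ (τ * s)) (δ1 (τ * s) * s) τ := (h1 (τ * s)).comp τ a0
    have a4 := ((hP1 τ).mul a2).sub (((hP0 τ).mul a1).const_mul s)
    refine a4.congr_deriv ?_
    ring
  have hδ : Continuous δ := continuous_iff_continuousAt.2 fun r => (h1 r).continuousAt
  have hp0 : Continuous P0 := continuous_iff_continuousAt.2 fun r => (hP0 r).continuousAt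
  have i1 : IntervalIntegrable (fun τ => P2 τ * δ (τ * s)) volume (-L) L := by
    apply Continuous.intervalIntegrable
    fun_prop
  have i2 : IntervalIntegrable (fun τ => s ^ 2 * (P0 τ * δ2 (τ * s))) volume (-L) L := by
    apply Continuous.intervalIntegrable
    fun_prop
  have h3 := intervalIntegral.integral_eq_sub_of_hasDerivAt (fun τ _ => hd τ) (i1.add i2)
  rw [intervalIntegral.integral_add i1 i2, intervalIntegral.integral_const_mul, e1, e2, e3, e4]
    at h3
  simp only [zero_mul, mul_zero, sub_self] at h3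
  linarith

end IQL4

open IQL4 in
theorem pr_L4 : StL4 := by
  intro ψ ϑ w0 ψ1 θ1 hB D hD
  obtain ⟨P1, P2, C0, hC0, hP1, hP2, cP1, cP2, hP2C, hP0⟩ := bump hB.psi
  have hD0 : 0 < D := by linarith
  -- the constant
  refine ⟨(4 * (C0 + 1)) * (2 * D + 2 * D ^ 2), by positivity, ?_⟩
  intro γ γ1 Γ A R hA hR h1 h2 cΓ cγ cγ1 hev hle hmean hg hG
  have hR0 : 0 < R := by linarith
  set T : ℝ := R ^ 2 with hT
  have hT4 : 4 ≤ T := by nlinarith
  have hT0 : 0 < T := by linarith
  set L : ℝ := 2 * T with hL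
  have hψc : Continuous ψ := hB.psi.smooth.continuous
  set η : ℝ → ℝ := fun τ => ψ (τ / T) ^ 2 with hη
  have hηc : Continuous η := by fun_prop
  have hη0 : ∀ x, 0 ≤ η x := fun x => sq_nonneg _
  have hηle : ∀ x, η x ≤ 1 := fun x => pow_le_one₀ (hB.psi.nonneg _) (hB.psi_le _)
  have hη1 : ∀ x, |x| ≤ 1 → η x = 1 := by
    intro x hx
    show ψ (x / T) ^ 2 = 1
    rw [hB.psi_one, one_pow]
    rw [abs_div, abs_of_pos hT0, div_le_iff₀ hT0]
    linarith
  have hηs : Function.support η ⊆ Ioc (-L) L := by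
    intro x hx
    have hx' : ψ (x / T) ≠ 0 := by
      intro h3
      apply hx
      show ψ (x / T) ^ 2 = 0
      rw [h3]
      norm_num
    have h3 := hB.psi.supp _ hx'
    rw [le_div_iff₀ hT0, div_le_iff₀ hT0] at h3
    exact ⟨by linarith [h3.1], by linarith [h3.2]⟩
  have hint : ∀ f : ℝ → ℝ, ∫ τ, ψ (τ / T) ^ 2 * f τ = ∫ τ in (-L)..L, η τ * f τ := by
    intro f
    refine (intervalIntegral.integral_eq_integral_of_support_subset ?_).symm
    intro x hx
    exact hηs (left_ne_zero_of_mul hx)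
  simp_rw [hint]
  -- decomposition
  set J : ℝ → ℝ := fun s => ∫ τ in (-L)..L, η τ * (Γ s (τ * s) - Γ 0 (τ * s)) with hJ
  have cΓ' : ∀ s, Continuous (Γ s) := fun s => cΓ.comp (continuous_const.prodMk continuous_id)
  have hJc : Continuous J := by
    apply intervalIntegral.continuous_parametric_intervalIntegral_of_continuous'
    have a1 : Continuous fun p : ℝ × ℝ => Γ p.1 (p.2 * p.1) :=
      cΓ.comp (continuous_fst.prodMk (continuous_snd.mul continuous_fst))
    have a2 : Continuous fun p : ℝ × ℝ => Γ 0 (p.2 * p.1) :=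
      (cΓ' 0).comp (continuous_snd.mul continuous_fst)
    exact (hηc.comp continuous_snd).mul (a1.sub a2)
  have hM0c : Continuous fun s => ∫ τ in (-L)..L, η τ * Γ 0 (τ * s) := by
    apply intervalIntegral.continuous_parametric_intervalIntegral_of_continuous'
    have a2 : Continuous fun p : ℝ × ℝ => Γ 0 (p.2 * p.1) :=
      (cΓ' 0).comp (continuous_snd.mul continuous_fst)
    exact (hηc.comp continuous_snd).mul a2
  have hdec : ∀ s, ∫ τ in (-L)..L, η τ * Γ s (τ * s) =
      (∫ τ in (-L)..L, η τ * Γ 0 (τ * s)) + J s := by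
    intro s
    have c1 := cΓ' s
    have c0 := cΓ' 0
    rw [hJ]
    simp only
    rw [← intervalIntegral.integral_add]
    · congr 1
      ext τ
      ring
    · apply Continuous.intervalIntegrable
      fun_prop
    · apply Continuous.intervalIntegrable
      fun_prop
  have hmain := main (h1 0) (h2 0) (cΓ' 0) hev hle hmean hD
    (by linarith : 1 ≤ L) hηc hη0 hη1
  have hsum : ∫ s in (-D)..D, (D - |s|) * ∫ τ in (-L)..L, η τ * Γ s (τ * s) =
      (∫ s in (-D)..D, (D - |s|) * ∫ τ in (-L)..L, η τ * Γ 0 (τ * s)) +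
        ∫ s in (-D)..D, (D - |s|) * J s := by
    rw [← intervalIntegral.integral_add]
    · congr 1
      ext s
      rw [hdec]
      ring
    · apply Continuous.intervalIntegrable
      fun_prop
    · apply Continuous.intervalIntegrable
      fun_prop
  rw [hsum]
  -- bounds of J
  have hJ1 : ∀ s, |s| ≤ D → |J s| ≤ 4 * T * A * |s| := by
    intro s hs
    have h3 := intervalIntegral.norm_integral_le_of_norm_le_const (a := -L) (b := L)
      (f := fun τ => η τ * (Γ s (τ * s) - Γ 0 (τ * s))) (C := A * |s|) fun τ _ => by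
        rw [norm_mul, Real.norm_eq_abs, Real.norm_eq_abs, abs_of_nonneg (hη0 τ)]
        calc η τ * |Γ s (τ * s) - Γ 0 (τ * s)| ≤ 1 * (A * |s|) := by
              apply mul_le_mul (hηle τ) (hG s _ hs) (abs_nonneg _) zero_le_one
          _ = A * |s| := one_mul _
    rw [Real.norm_eq_abs] at h3
    have h4 : |L - -L| = 4 * T := by
      rw [abs_of_nonneg (by linarith)]
      rw [hL]
      ring
    rw [h4] at h3
    calc |J s| ≤ A * |s| * (4 * T) := h3
      _ = _ := by ring
  have hJ2 : ∀ s, |s| ≤ D → T * |s| * |J s| ≤ 4 * C0 * A := by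
    intro s hs
    by_cases hs0 : s = 0
    · subst hs0
      rw [abs_zero, mul_zero, zero_mul]
      positivity
    have hsp : 0 < |s| := abs_pos.2 hs0
    have a1 : ∀ r, HasDerivAt (fun τ => ψ (τ / T) ^ 2) (P1 (r / T) / T) r := by
      intro r
      have b1 : HasDerivAt (fun τ : ℝ => τ / T) (1 / T) r := (hasDerivAt_id r).div_const T
      refine ((hP1 (r / T)).comp r b1).congr_deriv ?_
      ring
    have a2 : ∀ r, HasDerivAt (fun τ => P1 (τ / T) / T) (P2 (r / T) / T / T) r := by
      intro r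
      have b1 : HasDerivAt (fun τ : ℝ => τ / T) (1 / T) r := (hasDerivAt_id r).div_const T
      refine (((hP2 (r / T)).comp r b1).div_const T).congr_deriv ?_
      ring
    have b2 : (1 : ℝ) < |L / T| := by
      rw [hL, mul_div_assoc, div_self hT0.ne', mul_one, abs_of_pos two_pos]
      norm_num
    have b3 : (1 : ℝ) < |(-L) / T| := by
      rw [neg_div, abs_neg]
      exact b2
    have h3 := parts (δ := fun r => γ s r - γ 0 r) (δ1 := fun r => γ1 s r - γ1 0 r)
      (δ2 := fun r => Γ s r - Γ 0 r) (fun r => (h1 s r).sub (h1 0 r))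
      (fun r => ((h2 s r).sub (h2 0 r)).congr_deriv (by ring)) ((cΓ' s).sub (cΓ' 0)) a1 a2
      (by fun_prop) (hP0 _ b2).1 (hP0 _ b3).1 (by rw [(hP0 _ b2).2, zero_div])
      (by rw [(hP0 _ b3).2, zero_div]) s
    have h4 := intervalIntegral.norm_integral_le_of_norm_le_const (a := -L) (b := L)
      (f := fun τ => P2 (τ / T) / T / T * (γ s (τ * s) - γ 0 (τ * s)))
      (C := C0 / T / T * (A * |s|)) fun τ _ => by
        rw [norm_mul, Real.norm_eq_abs, Real.norm_eq_abs, abs_div, abs_div, abs_of_pos hT0]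
        apply mul_le_mul _ (hg s _ hs) (abs_nonneg _) (by positivity)
        have := hP2C (τ / T)
        gcongr
    rw [Real.norm_eq_abs] at h4
    have h5 : |L - -L| = 4 * T := by
      rw [abs_of_nonneg (by linarith)]
      rw [hL]
      ring
    rw [h5] at h4
    have h6 : s ^ 2 * |J s| ≤ C0 / T / T * (A * |s|) * (4 * T) := by
      have h7 : |s ^ 2 * J s| ≤ C0 / T / T * (A * |s|) * (4 * T) := by
        have h8 : s ^ 2 * J s = -∫ τ in (-L)..L, P2 (τ / T) / T / T *
            (γ s (τ * s) - γ 0 (τ * s)) := h3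
        rw [h8, abs_neg]
        exact h4
      rwa [abs_mul, abs_of_nonneg (sq_nonneg s)] at h7
    have h7 : C0 / T / T * (A * |s|) * (4 * T) = 4 * C0 * A * |s| / T := by
      field_simp
    rw [h7, ← sq_abs s, le_div_iff₀ hT0] at h6
    have h8 : |s| * (T * |s| * |J s|) ≤ |s| * (4 * C0 * A) := by
      calc |s| * (T * |s| * |J s|) = |s| ^ 2 * |J s| * T := by ring
        _ ≤ 4 * C0 * A * |s| := h6
        _ = _ := by ring
    exact le_of_mul_le_mul_left h8 hsp
  -- bounds on the three intervals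
  set c : ℝ := 4 * (C0 + 1) * A with hc
  have hcn : 0 ≤ c := by positivity
  have hJ3 : ∀ s, |s| ≤ D → |J s| ≤ c := by
    intro s hs
    rcases le_total (T * |s|) 1 with h3 | h3
    · calc |J s| ≤ 4 * T * A * |s| := hJ1 s hs
        _ = 4 * A * (T * |s|) := by ring
        _ ≤ 4 * A * 1 := by gcongr
        _ ≤ c := by rw [hc]; nlinarith
    · calc |J s| = 1 * |J s| := (one_mul _).symm
        _ ≤ T * |s| * |J s| := by gcongr
        _ ≤ 4 * C0 * A := hJ2 s hs
        _ ≤ c := by rw [hc]; nlinarith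
  have hJ4 : ∀ s, 1 / R ≤ |s| → |s| ≤ D → |J s| ≤ c / R := by
    intro s hs1 hs
    rw [le_div_iff₀ hR0]
    have h3 : R ≤ T * |s| := by
      calc R = T * (1 / R) := by rw [hT]; field_simp
        _ ≤ T * |s| := by gcongr
    calc |J s| * R ≤ |J s| * (T * |s|) := by gcongr
      _ = T * |s| * |J s| := by ring
      _ ≤ 4 * C0 * A := hJ2 s hs
      _ ≤ c := by rw [hc]; nlinarith
  have hR1 : 1 / R ≤ 1 / 2 := one_div_le_one_div_of_le two_pos hR
  have hRp : 0 < 1 / R := by positivity
  have hic : Continuous fun s => (D - |s|) * J s := by fun_prop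
  have hw : ∀ s, |s| ≤ D → ‖D - |s|‖ ≤ D := by
    intro s hs
    rw [Real.norm_eq_abs, abs_of_nonneg (by linarith)]
    linarith [abs_nonneg s]
  have k1 : |∫ s in (-D)..(-(1 / R)), (D - |s|) * J s| ≤ D * (c / R) * D := by
    have h3 := intervalIntegral.norm_integral_le_of_norm_le_const (a := -D) (b := -(1 / R))
      (f := fun s => (D - |s|) * J s) (C := D * (c / R)) fun s hs => by
        rw [uIoc_of_le (by linarith)] at hs
        have hs1 : s ≤ 0 := by linarith [hs.2]
        have hs2 : |s| = -s := abs_of_nonpos hs1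
        have hs3 : |s| ≤ D := by rw [hs2]; linarith [hs.1]
        rw [norm_mul]
        exact mul_le_mul (hw s hs3) (hJ4 s (by rw [hs2]; linarith [hs.2]) hs3) (norm_nonneg _)
          hD0.le
    refine h3.trans ?_
    have h4 : |-(1 / R) - -D| ≤ D := by
      rw [abs_of_nonneg (by linarith)]
      linarith
    exact mul_le_mul_of_nonneg_left h4 (by positivity)
  have k2 : |∫ s in (-(1 / R))..(1 / R), (D - |s|) * J s| ≤ D * c * (2 / R) := by
    have h3 := intervalIntegral.norm_integral_le_of_norm_le_const (a := -(1 / R)) (b := 1 / R)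
      (f := fun s => (D - |s|) * J s) (C := D * c) fun s hs => by
        rw [uIoc_of_le (by linarith)] at hs
        have hs3 : |s| ≤ D := abs_le.2 ⟨by linarith [hs.1], by linarith [hs.2]⟩
        rw [norm_mul]
        exact mul_le_mul (hw s hs3) (hJ3 s hs3) (norm_nonneg _) hD0.le
    refine h3.trans ?_
    have h4 : |1 / R - -(1 / R)| = 2 / R := by
      rw [abs_of_nonneg (by linarith)]
      ring
    rw [h4]
  have k3 : |∫ s in (1 / R)..D, (D - |s|) * J s| ≤ D * (c / R) * D := by
    have h3 := intervalIntegral.norm_integral_le_of_norm_le_const (a := 1 / R) (b := D)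
      (f := fun s => (D - |s|) * J s) (C := D * (c / R)) fun s hs => by
        rw [uIoc_of_le (by linarith)] at hs
        have hs1 : 0 ≤ s := by linarith [hs.1]
        have hs2 : |s| = s := abs_of_nonneg hs1
        have hs3 : |s| ≤ D := by rw [hs2]; linarith [hs.2]
        rw [norm_mul]
        exact mul_le_mul (hw s hs3) (hJ4 s (by rw [hs2]; linarith [hs.1]) hs3) (norm_nonneg _)
          hD0.le
    refine h3.trans ?_
    have h4 : |D - 1 / R| ≤ D := by
      rw [abs_of_nonneg (by linarith)]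
      linarith
    exact mul_le_mul_of_nonneg_left h4 (by positivity)
  have k4 : ∫ s in (-D)..D, (D - |s|) * J s = (∫ s in (-D)..(-(1 / R)), (D - |s|) * J s) +
      (∫ s in (-(1 / R))..(1 / R), (D - |s|) * J s) + ∫ s in (1 / R)..D, (D - |s|) * J s := by
    rw [intervalIntegral.integral_add_adjacent_intervals (hic.intervalIntegrable _ _)
      (hic.intervalIntegrable _ _), intervalIntegral.integral_add_adjacent_intervals
      (hic.intervalIntegrable _ _) (hic.intervalIntegrable _ _)]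
  have k5 : -(4 * (C0 + 1) * (2 * D + 2 * D ^ 2) * A / R) ≤ ∫ s in (-D)..D, (D - |s|) * J s := by
    rw [k4]
    have l1 := (abs_le.1 k1).1
    have l2 := (abs_le.1 k2).1
    have l3 := (abs_le.1 k3).1
    have l4 : 4 * (C0 + 1) * (2 * D + 2 * D ^ 2) * A / R =
        D * (c / R) * D + D * c * (2 / R) + D * (c / R) * D := by
      rw [hc]
      ring
    rw [l4]
    linarith
  linarith

end Pool.Agent.LQ
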