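import Pool.Agent.Work.MP_13b5d9_gt.LQ.StmtsQ

set_option autoImplicit false

/-!
Item Pw: pointwise bounds by the vertical derivative of the metric.
-/

open MeasureTheory Set Filter Topology
open scoped ContDiff ENNReal

namespace Pool.Agent.LQ

open Pool.Agent.MLS Pool.Agent.EC Pool.Agent.DR

namespace IQPw

theorem bil {n : ℕ} (L : E n →L[ℝ] E n →L[ℝ] ℝ) (v : E n) (C : ℝ) (hv : ‖v‖ ≤ C) :
    |L v v| ≤ C ^ 2 * ‖L‖ := by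
  have h1 : ‖L v v‖ ≤ ‖L‖ * ‖v‖ * ‖v‖ := L.le_opNorm₂ v v
  rw [Real.norm_eq_abs] at h1
  have h2 : ‖v‖ * ‖v‖ ≤ C * C := mul_le_mul hv hv (norm_nonneg _) (le_trans (norm_nonneg _) hv)
  have h3 : 0 ≤ ‖L‖ := L.opNorm_nonneg
  nlinarith

theorem qbd {n : ℕ} (L : E n →L[ℝ] E n →L[ℝ] ℝ) (A : E n →L[ℝ] E n) (v : E n) (C : ℝ)
    (hv : ‖v‖ ≤ C) (hA : ‖A‖ ≤ C) :
    inner ℝ (sh (L v)) (A (sh (L v))) ≤
      (C * (‖(sh : (E n →L[ℝ] ℝ) →L[ℝ] E n)‖ * C) ^ 2) * ‖L‖ ^ 2 := by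
  have hC : 0 ≤ C := le_trans (norm_nonneg _) hv
  have h1 : inner ℝ (sh (L v)) (A (sh (L v))) ≤ ‖sh (L v)‖ * ‖A (sh (L v))‖ :=
    real_inner_le_norm _ _
  have h2 : ‖A (sh (L v))‖ ≤ ‖A‖ * ‖sh (L v)‖ := A.le_opNorm _
  have h3 : ‖sh (L v)‖ ≤ ‖(sh : (E n →L[ℝ] ℝ) →L[ℝ] E n)‖ * ‖L v‖ :=
    (sh : (E n →L[ℝ] ℝ) →L[ℝ] E n).le_opNorm _
  have h4 : ‖L v‖ ≤ ‖L‖ * ‖v‖ := L.le_opNorm _
  have h5 : ‖sh (L v)‖ ≤ ‖(sh : (E n →L[ℝ] ℝ) →L[ℝ] E n)‖ * C * ‖L‖ := by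
    calc ‖sh (L v)‖ ≤ ‖(sh : (E n →L[ℝ] ℝ) →L[ℝ] E n)‖ * (‖L‖ * ‖v‖) :=
          h3.trans (mul_le_mul_of_nonneg_left h4 (ContinuousLinearMap.opNorm_nonneg _))
      _ ≤ ‖(sh : (E n →L[ℝ] ℝ) →L[ℝ] E n)‖ * (‖L‖ * C) :=
          mul_le_mul_of_nonneg_left (mul_le_mul_of_nonneg_left hv
            (ContinuousLinearMap.opNorm_nonneg _)) (ContinuousLinearMap.opNorm_nonneg _)
      _ = ‖(sh : (E n →L[ℝ] ℝ) →L[ℝ] E n)‖ * C * ‖L‖ := by ring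
  have h6 : 0 ≤ ‖sh (L v)‖ := norm_nonneg _
  calc inner ℝ (sh (L v)) (A (sh (L v))) ≤ ‖sh (L v)‖ * ‖A (sh (L v))‖ := h1
    _ ≤ ‖sh (L v)‖ * (C * ‖sh (L v)‖) :=
        mul_le_mul_of_nonneg_left (h2.trans (mul_le_mul_of_nonneg_right hA h6)) h6
    _ = C * ‖sh (L v)‖ ^ 2 := by ring
    _ ≤ C * (‖(sh : (E n →L[ℝ] ℝ) →L[ℝ] E n)‖ * C * ‖L‖) ^ 2 :=
        mul_le_mul_of_nonneg_left (pow_le_pow_left₀ h6 h5 2) hC
    _ = (C * (‖(sh : (E n →L[ℝ] ℝ) →L[ℝ] E n)‖ * C) ^ 2) * ‖L‖ ^ 2 := by ring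

end IQPw

theorem pr_Pw (h1 : StHP) (h2 : StShf) (h3 : StOp) : StPw := by
  intro m g gh g0 φ M φ0 M0 hS K hK
  obtain ⟨C, hC, hev⟩ := h1 m g gh g0 φ M φ0 M0 hS K hK
  set D : ℝ := C * (‖(sh : (E (m + 1) →L[ℝ] ℝ) →L[ℝ] E (m + 1))‖ * C) ^ 2 with hD
  have hD0 : 0 ≤ D := by positivity
  refine ⟨C ^ 2 + D, by positivity, ?_⟩
  filter_upwards [hev] with j hj z hz
  obtain ⟨hv, hvh, -, hio, -, -, -⟩ := hj z hz
  obtain ⟨-, hvel, -, hd1, -, hqq, huq, -⟩ := h2 m (g j) (gh j) (hS.riem j) (hS.blk j)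
    (hS.riemh j) (hS.blkh j)
  obtain ⟨-, -, -, hvelh, -⟩ : True ∧ True ∧ True ∧
      (∀ c z, vel (gh j) (Sh c z) = vel (gh j) z + c • eL) ∧ True := by
    refine ⟨trivial, trivial, trivial, ?_, trivial⟩
    exact (h2 m (gh j) (gh j) (hS.riemh j) (hS.blkh j) (hS.riemh j) (hS.blkh j)).2.1
  obtain ⟨-, hop, -, hopi, -, -, -, -, -⟩ := h3 (m + 1) (g j) (hS.riem j)
  have hN : 0 ≤ NN (g j) z.1 := (fderiv ℝ (g j).val z.1 eL).opNorm_nonneg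
  have e1 : vel (g j) (Sh (-ta z) z) = vel (g j) z - ta z • eL := by
    rw [hvel, neg_smul, sub_eq_add_neg]
  have e2 : vel (gh j) (Sh (-ta z) z) = vel (gh j) z - ta z • eL := by
    rw [hvelh, neg_smul, sub_eq_add_neg]
  refine ⟨?_, ?_, ?_, ?_, ?_⟩
  · rw [← hd1 (-ta z) z]
    have h5 := IQPw.bil (fderiv ℝ (g j).val z.1 eL) (vel (g j) z - ta z • eL) C hv
    have h6 : dd1 (g j) (Sh (-ta z) z) =
        fderiv ℝ (g j).val z.1 eL (vel (g j) z - ta z • eL) (vel (g j) z - ta z • eL) := by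
      unfold dd1 d1
      rw [e1]
      rfl
    rw [h6]
    refine h5.trans ?_
    change C ^ 2 * NN (g j) z.1 ≤ _
    exact mul_le_mul_of_nonneg_right (by linarith) hN
  · rw [← huq (-ta z) z]
    have h5 := IQPw.bil (fderiv ℝ (g j).val z.1 eL) (vel (gh j) z - ta z • eL) C hvh
    have h6 : uq (g j) (gh j) (Sh (-ta z) z) =
        fderiv ℝ (g j).val z.1 eL (vel (gh j) z - ta z • eL) (vel (gh j) z - ta z • eL) := by
      unfold uq d1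
      rw [e2]
      rfl
    rw [h6]
    refine h5.trans ?_
    change C ^ 2 * NN (g j) z.1 ≤ _
    exact mul_le_mul_of_nonneg_right (by linarith) hN
  · unfold qq
    have h5 := hop z.1 (iop (g j) z.1 (sh (fderiv ℝ (g j).val z.1 eL (vel (g j) z))))
      (iop (g j) z.1 (sh (fderiv ℝ (g j).val z.1 eL (vel (g j) z))))
    rw [hopi] at h5
    rw [h5]
    exact (g j).nonneg _ _
  · rw [← hqq (-ta z) z]
    have h6 : qq (g j) (Sh (-ta z) z) =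
        inner ℝ (sh (fderiv ℝ (g j).val z.1 eL (vel (g j) z - ta z • eL)))
          (iop (g j) z.1 (sh (fderiv ℝ (g j).val z.1 eL (vel (g j) z - ta z • eL)))) := by
      unfold qq
      rw [e1]
      rfl
    rw [h6]
    refine (IQPw.qbd (fderiv ℝ (g j).val z.1 eL) (iop (g j) z.1)
      (vel (g j) z - ta z • eL) C hv hio).trans ?_
    change D * NN (g j) z.1 ^ 2 ≤ _
    exact mul_le_mul_of_nonneg_right (by nlinarith [sq_nonneg C]) (sq_nonneg _)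
  · intro B hB
    obtain ⟨⟨x, hx, s, hxs⟩, -⟩ := hz
    unfold NN
    rw [hxs]
    refine ContinuousLinearMap.opNorm_le_bound₂ _ hB.nonneg fun u v => ?_
    rw [Real.norm_eq_abs]
    exact hB.b0 x hx s u v

end Pool.Agent.LQ
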