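import Mathlib
import Pool.Agent.Work.MP_13b5d9_gt.LQ.StmtsQ

set_option autoImplicit false

/-!
# MP_13b5d9_gt, block LQ, item YT: bounds of the tent average
-/

open MeasureTheory Set Filter Topology
open scoped ContDiff ENNReal
open Pool.Agent.Work.MP_c9f990_an.Al (IsFlow)

namespace Pool.Agent.LQ

open Pool.Agent.MLS Pool.Agent.EC Pool.Agent.DR

namespace IQYT

/-- the integral of a bounded function with the tent weight -/
theorem tent_le {D c : ℝ} (hD : 0 ≤ D) (f : ℝ → ℝ) (hf : ∀ s, |s| ≤ D → |f s| ≤ c) :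
    |∫ s in (-D)..D, (D - |s|) * f s| ≤ 2 * D * D * c := by
  have hc : 0 ≤ c := (abs_nonneg _).trans (hf 0 (by rw [abs_zero]; exact hD))
  have h := intervalIntegral.norm_integral_le_of_norm_le_const (a := -D) (b := D)
    (f := fun s => (D - |s|) * f s) (C := D * c) (fun s hs => by
      rw [Set.uIoc_of_le (by linarith)] at hs
      have hs' : |s| ≤ D := abs_le.2 ⟨hs.1.le, hs.2⟩
      rw [Real.norm_eq_abs, abs_mul, abs_of_nonneg (by linarith : 0 ≤ D - |s|)]
      exact mul_le_mul (by linarith [abs_nonneg s]) (hf s hs') (abs_nonneg _) hD)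
  rw [Real.norm_eq_abs] at h
  refine h.trans (le_of_eq ?_)
  rw [abs_of_nonneg (by linarith)]
  ring

/-- the integral of a bounded function -/
theorem int_le {D c a b : ℝ} (hab : a ≤ b) (ha : -D ≤ a) (hb : b ≤ D) (f : ℝ → ℝ)
    (hf : ∀ s, |s| ≤ D → |f s| ≤ c) : |∫ s in a..b, f s| ≤ c * (b - a) := by
  have h := intervalIntegral.norm_integral_le_of_norm_le_const (a := a) (b := b)
    (f := f) (C := c) (fun s hs => by
      rw [Set.uIoc_of_le hab] at hs
      exact hf s (abs_le.2 ⟨by linarith [hs.1], by linarith [hs.2]⟩))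
  rw [Real.norm_eq_abs] at h
  refine h.trans (le_of_eq ?_)
  rw [abs_of_nonneg (by linarith)]

end IQYT

open IQYT

theorem pr_YT (h1 : StFlB) (h2 : StPb) (h3 : StTn) (h4 : StDf) (h5 : StDeu) : StYT := by
  intro m g gh g0 φ M φ0 M0 hA K D hK hD
  obtain ⟨K1, C1, hK1, hKK, hC1, e1⟩ := h1 m g gh g0 φ M φ0 M0 hA K D hK
  obtain ⟨C2, hC2, e2⟩ := h2 m g gh g0 φ M φ0 M0 hA K1 hK1
  obtain ⟨C4, hC4, e4⟩ := h4 m g gh g0 φ M φ0 M0 hA K1 hK1
  have hD0 : 0 ≤ D := by linarith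
  refine ⟨K1, 2 * D * D * (C2 * (1 + C1 * C4)), hK1, hKK, by positivity, ?_⟩
  filter_upwards [e1, e2, e4] with j f1 f2 f4 B hB z hz
  have hB0 : 0 ≤ B := hB.nonneg
  have hz1 : Rg (gh j) K1 z := by
    obtain ⟨⟨x, hx, s, hs⟩, h⟩ := hz
    exact ⟨⟨x, hKK hx, s, hs⟩, h⟩
  have hk : ∀ s, |s| ≤ D → |kq (g j) (gh j) (φ j s z)| ≤ C2 * B := fun s hs =>
    (f2 B hB _ (f1 z s hz hs).1).2.1
  have hle : C2 * B ≤ C2 * (1 + C1 * C4) * B := by
    have : 0 ≤ C2 * B * (C1 * C4) := by positivity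
    nlinarith
  have hD1 : 1 * D ≤ D * D := by nlinarith
  refine ⟨?_, ?_, ?_⟩
  · refine (tent_le hD0 (fun s => kq (g j) (gh j) (φ j s z)) hk).trans ?_
    have : 0 ≤ 2 * D * D := by positivity
    calc 2 * D * D * (C2 * B) ≤ 2 * D * D * (C2 * (1 + C1 * C4) * B) :=
          mul_le_mul_of_nonneg_left hle this
      _ = 2 * D * D * (C2 * (1 + C1 * C4)) * B := by ring
  · have i1 := int_le (D := D) hD0 (by linarith) le_rfl
      (fun s => kq (g j) (gh j) (φ j s z)) hk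
    have i2 := int_le (D := D) (by linarith : -D ≤ 0) le_rfl hD0
      (fun s => kq (g j) (gh j) (φ j s z)) hk
    have i3 : |dtn (φ j) D (kq (g j) (gh j)) z| ≤ C2 * B * (D - 0) + C2 * B * (0 - -D) := by
      unfold dtn
      exact (abs_sub _ _).trans (add_le_add i1 i2)
    refine i3.trans ?_
    have h0 : 0 ≤ C2 * B := by positivity
    calc C2 * B * (D - 0) + C2 * B * (0 - -D) = 2 * (1 * D) * (C2 * B) := by ring
      _ ≤ 2 * (D * D) * (C2 * B) := by
          refine mul_le_mul_of_nonneg_right ?_ h0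
          linarith
      _ ≤ 2 * (D * D) * (C2 * (1 + C1 * C4) * B) :=
          mul_le_mul_of_nonneg_left hle (by positivity)
      _ = 2 * D * D * (C2 * (1 + C1 * C4)) * B := by ring
  · have hsm := h5 m (g j) (gh j) (hA.riem j) (hA.blk j) (hA.riemh j) (hA.blkh j) (hA.tinvh j)
      (hA.per j)
    have hk1 : ContDiff ℝ 1 (kq (g j) (gh j)) := hsm.2.1.of_le (by exact_mod_cast le_top)
    have ht := (h3 (W (m + 1)) (XH (Hm (gh j))) (φ j) (M j) (hA.fl j) (kq (g j) (gh j)) D hk1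
      hD0).2.1 z (XH (Hm (g j)) z - XH (Hm (gh j)) z)
    have hY := (f4 B hB z hz1).2.2
    have hd : ∀ s, |s| ≤ D → |fderiv ℝ (kq (g j) (gh j)) (φ j s z)
        (M j s z (XH (Hm (g j)) z - XH (Hm (gh j)) z))| ≤ C2 * B * (C1 * (C4 * B)) := by
      intro s hs
      have a1 := f1 z s hz hs
      have a2 := (f2 B hB _ a1.1).2.2.2.2.2.1 (M j s z (XH (Hm (g j)) z - XH (Hm (gh j)) z))
      refine a2.trans (mul_le_mul_of_nonneg_left ?_ (by positivity))
      exact (a1.2.2 _).trans (mul_le_mul_of_nonneg_left hY hC1.le)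
    have hT : |fderiv ℝ (tnt (φ j) D (kq (g j) (gh j))) z
        (XH (Hm (g j)) z - XH (Hm (gh j)) z)| ≤ 2 * D * D * (C2 * B * (C1 * (C4 * B))) := by
      have e : fderiv ℝ (tnt (φ j) D (kq (g j) (gh j))) z
          (XH (Hm (g j)) z - XH (Hm (gh j)) z) = _ := ht
      rw [e]
      exact tent_le hD0 _ hd
    refine hT.trans ?_
    have h0 : 0 ≤ C2 * B ^ 2 := by positivity
    calc 2 * D * D * (C2 * B * (C1 * (C4 * B)))
        = 2 * D * D * (C2 * B ^ 2 * (C1 * C4)) := by ring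
      _ ≤ 2 * D * D * (C2 * B ^ 2 * (1 + C1 * C4)) := by
          refine mul_le_mul_of_nonneg_left ?_ (by positivity)
          exact mul_le_mul_of_nonneg_left (by linarith) h0
      _ = 2 * D * D * (C2 * (1 + C1 * C4)) * B ^ 2 := by ring

end Pool.Agent.LQ
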